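import Pool.Agent.H16.TU.Defs4

/-! Axially symmetric flows whose radial velocity is controlled in integrated form: definitions. -/

set_option autoImplicit false

open Set Filter Topology MeasureTheory
open scoped ContDiff

namespace Pool.Agent.H94.WL

open Pool.Agent.H16 Pool.Agent.H87.NS Pool.Agent.H72.CC Pool.Agent.H16.TU

/-- Radial velocity. -/
noncomputable def ur (v : E3 → E3) (x : E3) : ℝ := rad x * sW v x

/-- Angular velocity. -/
noncomputable def ut (v : E3 → E3) (x : E3) : ℝ := rad x * sV v x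

/-- Cylinders around the axis. -/
def cy (a l z : ℝ) : Set E3 := {x | rad x < a ∧ |x 2 - z| < l}

/-- Slices of the flow: `κ` controls the circulation for `rad x ≤ b`, the energy and the radial velocity, `N` the
stream function. -/
structure Sm (κ N b : ℝ) (v : E3 → E3) : Prop where
  ax : AxF v
  db : ∃ K : ℝ, ∀ j : Fin 3, DB 4 K (fun x => v x j)
  one : 1 ≤ κ
  le : κ ≤ N
  pos : 0 < b
  cir : ∀ x, rad x ≤ b → |circ v x| ≤ κ
  en : ∫ x, ‖v x‖ ^ 2 ≤ κ * b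
  mor : ∀ ρ z : ℝ, 0 < ρ → ∫ x in cy ρ ρ z, ur v x ^ 2 ≤ κ ^ 2 * ρ
  str : ∀ x, rad x * |sP v x| ≤ N

theorem Sm.vf {κ N b : ℝ} {v : E3 → E3} (h : Sm κ N b v) : Vf v := ⟨h.ax.smooth, h.ax.div, h.db⟩

/-- The hypothesis on the flow up to the time `t₀`: the stream function is at most `N`. -/
def UpM (T : ℝ) (u : ℝ → E3 → E3) (κ N b t₀ : ℝ) : Prop := t₀ ∈ Ico 0 T ∧ ∀ t ∈ Icc 0 t₀, Sm κ N b (u t)

/-- The scale invariant bound of the radial velocity over cylinders. -/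
def Mq (q : ℝ) (g : ℝ → ℝ) (v : E3 → E3) : Prop :=
  ∀ A l z : ℝ, 0 < A → A ≤ l → ∫ x in cy A l z, |ur v x| ^ q ≤ g (l / A) * A ^ (2 - q) * l

/-- The rescaled flow on the time interval `[t₀ - a, t₀]`. -/
structure Cm (κ C Z N b a q : ℝ) (g : ℝ → ℝ) (T : ℝ) (v : ℝ → E3 → E3) (p : ℝ → E3 → ℝ) (t₀ : ℝ) : Prop where
  ns : IsHInfAxisymNS T v p
  t0 : t₀ ∈ Ico 0 T
  ta : a < t₀
  sl : ∀ t ∈ Icc (t₀ - a) t₀, Sm κ N b (v t)
  en : ∀ t ∈ Icc (t₀ - a) t₀, ∀ R : ℝ, 0 < R → SS (v t) (ww N Z R 0) ≤ C * N ^ 3 * R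
  di : ∀ R : ℝ, 0 < R → a ≤ R ^ 2 → ∫ t in (t₀ - a)..t₀, DD (v t) (ww N Z R 0) ≤ C * N ^ 3 * R
  mq : ∀ t ∈ Icc (t₀ - a) t₀, Mq q g (v t)

/-- Gaussians solving the planar heat equation. -/
noncomputable def gs (lam s : ℝ) (x : E3) : ℝ := (1 + 4 * lam * s)⁻¹ * Real.exp (-(lam * rsq x / (1 + 4 * lam * s)))

/-- Normalised vertical bump. -/
noncomputable def ph (l z : ℝ) : ℝ := pz l z / ∫ y, pz l y

/-- Profile of the horizontal cut-off as a function of `rsq x`: `1` for `ρ ≤ 1 - δ`, `0` for `ρ ≥ 1`. -/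
noncomputable def hc (δ ρ : ℝ) : ℝ := Real.smoothTransition ((1 - ρ) / δ)

/-- The stream function as a function on the half plane, `r² P(r, 0, z)`. -/
noncomputable def Ff (v : E3 → E3) (y : ℝ × ℝ) : ℝ := y.1 ^ 2 * sP v !₂[y.1, 0, y.2]

end Pool.Agent.H94.WL
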