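/-
ROW Cy (MP_09540e_WL). Cylindrical coordinates. PROOF. cy_meas: rad and the coordinate are continuous. cy_vol: `cyl` (H72/CC/Cyl.lean: `∫⁻ x, f (rad x, x 2) = ofReal (2π) * ∫⁻ r in Ioi 0, ∫⁻ s, ofReal r * f (r, s)`) with `f` the indicator of `{r < A, |s - z| < l}`:
`2π · (A²/2) · 2l` (cf. Da_disc in TU/Da.lean for the radial integral). box: both sides as lintegrals (everything is ≥ 0, continuous and the sets are bounded, so integrable: ofReal_integral_eq_lintegral_ofReal); the right side by `cyl` with `f (r, s) = indicator (Icc r₁ r₂ ×ˢ Icc z₁ z₂) (ofReal (G (r, s)))`; on the left the product measure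
(volume on ℝ × ℝ is the product: Measure.volume_eq_prod, lintegral_prod). The point r = 0 is a null set. boxi: the 3D integrand is integrable on the set (bounded on a set of finite measure, G continuous on a compact set). v_cyl: v is invariant under rotations (h.ax: v (rot θ x) = rot θ (v x), so the components: v 2 invariant, norm invariant; rad, sW, sV invariant);
for rad x > 0, x is a rotation of `!₂[rad x, 0, x 2]` (Ea_rot in TU/Ea.lean is the same statement, private: copy; KSym_trig / KSym_rot in H87/NS/KSym.lean), for rad x = 0 both points are equal. sW, sV are invariant: radFlux and circ are (flux_eq, circ_eq: radFlux v x = rsq x * sW v x) for rad > 0 (divide), for rad x = 0 the points agree.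
-/
import Pool.Agent.H94.WL.Defs
import Pool.Agent.H16.TU.Wb
import Pool.Agent.H16.TU.Ta
import Pool.Agent.H87.NS.KSym

set_option autoImplicit false

open Set Filter Topology MeasureTheory
open scoped ContDiff

namespace Pool.Agent.H94.WL

open Pool.Agent.H16 Pool.Agent.H87.NS Pool.Agent.H72.CC Pool.Agent.H16.TU

/-- The point of the half plane. -/
noncomputable def mk (y : ℝ × ℝ) : E3 := !₂[y.1, 0, y.2]

theorem mk_f (y : ℝ × ℝ) : mk y 0 = y.1 ∧ mk y 1 = 0 ∧ mk y 2 = y.2 ∧ rad (mk y) = |y.1| ∧ rsq (mk y) = y.1 ^ 2 := by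
  refine ⟨rfl, rfl, rfl, ?_, ?_⟩
  · show √(y.1 ^ 2 + (0 : ℝ) ^ 2) = |y.1|
    rw [show y.1 ^ 2 + (0 : ℝ) ^ 2 = y.1 ^ 2 by ring, Real.sqrt_sq_eq_abs]
  · show y.1 ^ 2 + (0 : ℝ) ^ 2 = y.1 ^ 2
    ring

theorem Cy_radc : Continuous (rad : E3 → ℝ) := by
  have h0 := Psi_cont_coord 0
  have h1 := Psi_cont_coord 1
  have h2 : Continuous (fun x : E3 => √(x 0 ^ 2 + x 1 ^ 2)) := ((h0.pow 2).add (h1.pow 2)).sqrt
  exact h2

theorem Cy_pc : Continuous (fun x : E3 => ((rad x, x 2) : ℝ × ℝ)) := Cy_radc.prodMk (Psi_cont_coord 2)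

theorem Cy_rad2 (x : E3) : rad x ^ 2 = rsq x := by
  unfold rad rsq
  exact Real.sq_sqrt (by positivity)

theorem Cy_rad0 (x : E3) : 0 ≤ rad x := Real.sqrt_nonneg _

theorem cy_meas (A l z : ℝ) : MeasurableSet (cy A l z) := by
  have h1 : MeasurableSet {x : E3 | rad x < A} := measurableSet_lt Cy_radc.measurable measurable_const
  have h2 : MeasurableSet {x : E3 | |x 2 - z| < l} :=
    measurableSet_lt ((Psi_cont_coord 2).sub continuous_const).abs.measurable measurable_const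
  exact h1.inter h2

theorem Cy_disc {A : ℝ} (hA : 0 < A) : ∫⁻ r in Ioi (0 : ℝ), ENNReal.ofReal r * (Iio A).indicator (fun _ => 1) r =
    ENNReal.ofReal (A ^ 2 / 2) := by
  have h1 : ∀ r : ℝ, ENNReal.ofReal r * (Iio A).indicator (fun _ => 1) r =
      (Iio A).indicator (fun r => ENNReal.ofReal r) r := by
    intro r
    by_cases hr : r ∈ Iio A
    · rw [indicator_of_mem hr, indicator_of_mem hr, mul_one]
    · rw [indicator_of_notMem hr, indicator_of_notMem hr, mul_zero]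
  simp only [h1]
  rw [lintegral_indicator measurableSet_Iio, Measure.restrict_restrict measurableSet_Iio]
  have h2 : Iio A ∩ Ioi 0 = Ioo 0 A := by
    ext r
    simp only [mem_inter_iff, mem_Iio, mem_Ioi, mem_Ioo]
    exact and_comm
  rw [h2]
  have hi : Integrable (fun r : ℝ => r) (volume.restrict (Ioo (0 : ℝ) A)) :=
    (continuous_id.integrableOn_Icc (a := (0 : ℝ)) (b := A)).mono_set Ioo_subset_Icc_self
  rw [← ofReal_integral_eq_lintegral_ofReal hi]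
  · congr 1
    rw [← integral_Ioc_eq_integral_Ioo, ← intervalIntegral.integral_of_le hA.le, integral_id]
    ring
  · filter_upwards [ae_restrict_mem measurableSet_Ioo] with r hr
    exact hr.1.le

theorem cy_vol {A l : ℝ} (hA : 0 < A) (hl : 0 < l) (z : ℝ) : volume (cy A l z) = ENNReal.ofReal (2 * Real.pi * A ^ 2 * l) := by
  have hms : MeasurableSet {p : ℝ × ℝ | p.1 < A ∧ |p.2 - z| < l} := by
    have h1 : MeasurableSet {p : ℝ × ℝ | p.1 < A} := measurableSet_lt measurable_fst measurable_const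
    have h2 : MeasurableSet {p : ℝ × ℝ | |p.2 - z| < l} :=
      measurableSet_lt (continuous_snd.sub continuous_const).abs.measurable measurable_const
    exact h1.inter h2
  have hf : Measurable ({p : ℝ × ℝ | p.1 < A ∧ |p.2 - z| < l}.indicator (fun _ => (1 : ENNReal))) :=
    measurable_const.indicator hms
  have h0 := cyl hf
  have h1 : ∫⁻ x : E3, ({p : ℝ × ℝ | p.1 < A ∧ |p.2 - z| < l}.indicator (fun _ => (1 : ENNReal))) (rad x, x 2) =
      volume (cy A l z) := by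
    have h2 : ∀ x : E3, ({p : ℝ × ℝ | p.1 < A ∧ |p.2 - z| < l}.indicator (fun _ => (1 : ENNReal))) (rad x, x 2) =
        (cy A l z).indicator (fun _ => (1 : ENNReal)) x := by
      intro x
      by_cases hx : x ∈ cy A l z
      · rw [indicator_of_mem hx, indicator_of_mem (show (rad x, x 2) ∈ {p : ℝ × ℝ | p.1 < A ∧ |p.2 - z| < l} from hx)]
      · rw [indicator_of_notMem hx, indicator_of_notMem (show (rad x, x 2) ∉ {p : ℝ × ℝ | p.1 < A ∧ |p.2 - z| < l} from hx)]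
    rw [lintegral_congr h2, lintegral_indicator (cy_meas A l z), lintegral_const, one_mul, Measure.restrict_apply_univ]
  rw [h1] at h0
  rw [h0]
  have h3 : ∀ r : ℝ, ∫⁻ s : ℝ, ENNReal.ofReal r * ({p : ℝ × ℝ | p.1 < A ∧ |p.2 - z| < l}.indicator (fun _ => (1 : ENNReal))) (r, s) =
      (ENNReal.ofReal r * (Iio A).indicator (fun _ => 1) r) * ENNReal.ofReal (2 * l) := by
    intro r
    have h4 : ∀ s : ℝ, ENNReal.ofReal r * ({p : ℝ × ℝ | p.1 < A ∧ |p.2 - z| < l}.indicator (fun _ => (1 : ENNReal))) (r, s) =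
        (ENNReal.ofReal r * (Iio A).indicator (fun _ => 1) r) * (Ioo (z - l) (z + l)).indicator (fun _ => 1) s := by
      intro s
      by_cases hr : r < A
      · rw [indicator_of_mem (show r ∈ Iio A from hr), mul_one]
        by_cases hs : |s - z| < l
        · rw [indicator_of_mem (show (r, s) ∈ {p : ℝ × ℝ | p.1 < A ∧ |p.2 - z| < l} from ⟨hr, hs⟩)]
          have h5 := abs_lt.1 hs
          rw [indicator_of_mem (show s ∈ Ioo (z - l) (z + l) from ⟨by linarith [h5.1], by linarith [h5.2]⟩)]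
        · rw [indicator_of_notMem (show (r, s) ∉ {p : ℝ × ℝ | p.1 < A ∧ |p.2 - z| < l} from fun h => hs h.2)]
          rw [indicator_of_notMem (show s ∉ Ioo (z - l) (z + l) from fun h => hs (abs_lt.2 ⟨by linarith [h.1], by linarith [h.2]⟩))]
      · rw [indicator_of_notMem (show r ∉ Iio A from hr), mul_zero, zero_mul,
          indicator_of_notMem (show (r, s) ∉ {p : ℝ × ℝ | p.1 < A ∧ |p.2 - z| < l} from fun h => hr h.1), mul_zero]
    rw [lintegral_congr h4, lintegral_const_mul _ (measurable_const.indicator measurableSet_Ioo),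
      lintegral_indicator measurableSet_Ioo, lintegral_const, one_mul, Measure.restrict_apply_univ, Real.volume_Ioo]
    congr 2
    ring
  simp only [h3]
  have hmr : Measurable (fun r : ℝ => ENNReal.ofReal r * (Iio A).indicator (fun _ => (1 : ENNReal)) r) :=
    ENNReal.measurable_ofReal.mul (measurable_const.indicator measurableSet_Iio)
  rw [lintegral_mul_const _ hmr, Cy_disc hA, ← ENNReal.ofReal_mul (by positivity), ← ENNReal.ofReal_mul (by positivity)]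
  congr 1
  ring

theorem Cy_closed (r₁ r₂ z₁ z₂ : ℝ) : IsClosed {x : E3 | rad x ∈ Icc r₁ r₂ ∧ x 2 ∈ Icc z₁ z₂} :=
  (isClosed_Icc.preimage Cy_radc).inter (isClosed_Icc.preimage (Psi_cont_coord 2))

theorem Cy_compact (r₁ r₂ z₁ z₂ : ℝ) : IsCompact {x : E3 | rad x ∈ Icc r₁ r₂ ∧ x 2 ∈ Icc z₁ z₂} := by
  refine Metric.isCompact_of_isClosed_isBounded (Cy_closed r₁ r₂ z₁ z₂) ?_
  refine (Metric.isBounded_closedBall (x := (0 : E3)) (r := |r₂| + (|z₁| + |z₂|))).subset ?_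
  intro x hx
  rw [Metric.mem_closedBall, dist_zero_right]
  have h1 : rad x ≤ |r₂| := hx.1.2.trans (le_abs_self _)
  have h2 : |x 2| ≤ |z₁| + |z₂| := by
    refine abs_le.2 ⟨?_, ?_⟩
    · linarith [hx.2.1, neg_abs_le z₁, abs_nonneg z₂]
    · linarith [hx.2.2, le_abs_self z₂, abs_nonneg z₁]
  have h3 : ‖x‖ ^ 2 = rad x ^ 2 + |x 2| ^ 2 := by
    rw [norm_sq_eq, Cy_rad2, sq_abs]
    rfl
  have h4 := Cy_rad0 x
  have h5 := abs_nonneg (x 2)
  have h6 : ‖x‖ ^ 2 ≤ (|r₂| + (|z₁| + |z₂|)) ^ 2 := by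
    rw [h3]
    nlinarith
  exact abs_le_of_sq_le_sq' h6 (by positivity) |>.2

theorem boxi {G : ℝ × ℝ → ℝ} (hG : Continuous G) (r₁ r₂ z₁ z₂ : ℝ) :
    IntegrableOn (fun x : E3 => G (rad x, x 2)) {x : E3 | rad x ∈ Icc r₁ r₂ ∧ x 2 ∈ Icc z₁ z₂} ∧ MeasurableSet {x : E3 | rad x ∈ Icc r₁ r₂ ∧ x 2 ∈ Icc z₁ z₂} :=
  ⟨(hG.comp Cy_pc).continuousOn.integrableOn_compact (Cy_compact r₁ r₂ z₁ z₂), (Cy_closed r₁ r₂ z₁ z₂).measurableSet⟩

theorem box {G : ℝ × ℝ → ℝ} (hG : Continuous G) (h0 : ∀ y, 0 ≤ G y) {r₁ r₂ z₁ z₂ : ℝ} (h1 : 0 ≤ r₁) (h2 : r₁ ≤ r₂) (h3 : z₁ ≤ z₂) :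
    ∫ y in Icc r₁ r₂ ×ˢ Icc z₁ z₂, y.1 * G y = (2 * Real.pi)⁻¹ * ∫ x in {x : E3 | rad x ∈ Icc r₁ r₂ ∧ x 2 ∈ Icc z₁ z₂}, G (rad x, x 2) := by
  have hR : MeasurableSet (Icc r₁ r₂ ×ˢ Icc z₁ z₂) := measurableSet_Icc.prod measurableSet_Icc
  have hS := (boxi hG r₁ r₂ z₁ z₂).2
  rw [integral_eq_lintegral_of_nonneg_ae (μ := volume.restrict {x : E3 | rad x ∈ Icc r₁ r₂ ∧ x 2 ∈ Icc z₁ z₂})
    (ae_of_all _ fun x => h0 _) (hG.comp Cy_pc).aestronglyMeasurable]
  have hcc : Continuous (fun y : ℝ × ℝ => y.1 * G y) := continuous_fst.mul hG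
  rw [integral_eq_lintegral_of_nonneg_ae (μ := volume.restrict (Icc r₁ r₂ ×ˢ Icc z₁ z₂)) (f := fun y : ℝ × ℝ => y.1 * G y) ?_
    hcc.aestronglyMeasurable]
  swap
  · filter_upwards [ae_restrict_mem hR] with y hy
    exact mul_nonneg (h1.trans hy.1.1) (h0 y)
  have hf : Measurable ((Icc r₁ r₂ ×ˢ Icc z₁ z₂).indicator (fun y => ENNReal.ofReal (G y))) :=
    (ENNReal.measurable_ofReal.comp hG.measurable).indicator hR
  have h4 := cyl hf
  have h5 : ∫⁻ x : E3, ((Icc r₁ r₂ ×ˢ Icc z₁ z₂).indicator (fun y => ENNReal.ofReal (G y))) (rad x, x 2) =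
      ∫⁻ x in {x : E3 | rad x ∈ Icc r₁ r₂ ∧ x 2 ∈ Icc z₁ z₂}, ENNReal.ofReal (G (rad x, x 2)) := by
    rw [← lintegral_indicator hS]
    refine lintegral_congr fun x => ?_
    by_cases hx : x ∈ {x : E3 | rad x ∈ Icc r₁ r₂ ∧ x 2 ∈ Icc z₁ z₂}
    · rw [indicator_of_mem hx, indicator_of_mem (show (rad x, x 2) ∈ Icc r₁ r₂ ×ˢ Icc z₁ z₂ from hx)]
    · rw [indicator_of_notMem hx, indicator_of_notMem (show (rad x, x 2) ∉ Icc r₁ r₂ ×ˢ Icc z₁ z₂ from hx)]
  have h6 : ∫⁻ r in Ioi (0 : ℝ), ∫⁻ z : ℝ, ENNReal.ofReal r * ((Icc r₁ r₂ ×ˢ Icc z₁ z₂).indicator (fun y => ENNReal.ofReal (G y))) (r, z) =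
      ∫⁻ y in Icc r₁ r₂ ×ˢ Icc z₁ z₂, ENNReal.ofReal (y.1 * G y) := by
    have h7 : ∫⁻ r in Ioi (0 : ℝ), ∫⁻ z : ℝ, ENNReal.ofReal r * ((Icc r₁ r₂ ×ˢ Icc z₁ z₂).indicator (fun y => ENNReal.ofReal (G y))) (r, z) =
        ∫⁻ r : ℝ, ∫⁻ z : ℝ, ENNReal.ofReal r * ((Icc r₁ r₂ ×ˢ Icc z₁ z₂).indicator (fun y => ENNReal.ofReal (G y))) (r, z) := by
      refine setLIntegral_eq_of_support_subset ?_
      intro r hr
      by_contra hr0
      have hr1 : r ≤ 0 := not_lt.1 hr0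
      apply hr
      show ∫⁻ z : ℝ, ENNReal.ofReal r * ((Icc r₁ r₂ ×ˢ Icc z₁ z₂).indicator (fun y => ENNReal.ofReal (G y))) (r, z) = 0
      rw [ENNReal.ofReal_of_nonpos hr1]
      simp only [zero_mul, lintegral_zero]
    have hm : Measurable (fun y : ℝ × ℝ => ENNReal.ofReal y.1 * ((Icc r₁ r₂ ×ˢ Icc z₁ z₂).indicator (fun y => ENNReal.ofReal (G y))) y) :=
      (ENNReal.measurable_ofReal.comp measurable_fst).mul hf
    have h8 := lintegral_prod (μ := (volume : Measure ℝ)) (ν := (volume : Measure ℝ)) _ hm.aemeasurable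
    rw [h7, ← h8, ← Measure.volume_eq_prod, ← lintegral_indicator hR]
    refine lintegral_congr fun y => ?_
    by_cases hy : y ∈ Icc r₁ r₂ ×ˢ Icc z₁ z₂
    · rw [indicator_of_mem hy, indicator_of_mem hy, ENNReal.ofReal_mul (h1.trans hy.1.1)]
    · rw [indicator_of_notMem hy, indicator_of_notMem hy, mul_zero]
  rw [← h5, h4, h6, ENNReal.toReal_mul, ENNReal.toReal_ofReal (by positivity)]
  field_simp

theorem Cy_rot {x : E3} (hx : 0 < rsq x) : ∃ θ : ℝ, rot θ (mk (rad x, x 2)) = x := by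
  have h1 : rsq (mk (rad x, x 2)) = rsq x := by rw [(mk_f (rad x, x 2)).2.2.2.2, Cy_rad2]
  obtain ⟨θ, h, _⟩ := KSym_rot (y := mk (rad x, x 2)) (z := x) (by rw [h1]; exact hx) h1.symm rfl
  exact ⟨θ, h⟩

theorem Cy_rot0 {x : E3} (hx : ¬ 0 < rsq x) : mk (rad x, x 2) = x := by
  have h0 : rsq x = 0 := le_antisymm (not_lt.1 hx) (by unfold rsq; positivity)
  have h1 : x 0 ^ 2 + x 1 ^ 2 = 0 := h0
  have h2 : x 0 = 0 := by nlinarith [sq_nonneg (x 0), sq_nonneg (x 1)]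
  have h3 : x 1 = 0 := by nlinarith [sq_nonneg (x 0), sq_nonneg (x 1)]
  have h4 : rad x = 0 := by
    unfold rad
    rw [h1, Real.sqrt_zero]
  apply ext3
  · show rad x = x 0
    rw [h4, h2]
  · show (0 : ℝ) = x 1
    rw [h3]
  · rfl

theorem Cy_sum (L : E3 →L[ℝ] E3) (φ : ℝ) : ∑ i : Fin 3, ‖L (rot φ (e i))‖ ^ 2 = ∑ i : Fin 3, ‖L (e i)‖ ^ 2 := by
  have e0 : rot φ (e 0) = Real.cos φ • (e 0 : E3) + Real.sin φ • (e 1 : E3) := by
    apply ext3
    · show Real.cos φ * (e 0 : E3) 0 - Real.sin φ * (e 0 : E3) 1 = (Real.cos φ • (e 0 : E3) + Real.sin φ • (e 1 : E3)) 0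
      simp [e_apply]
    · show Real.sin φ * (e 0 : E3) 0 + Real.cos φ * (e 0 : E3) 1 = (Real.cos φ • (e 0 : E3) + Real.sin φ • (e 1 : E3)) 1
      simp [e_apply]
    · show (e 0 : E3) 2 = (Real.cos φ • (e 0 : E3) + Real.sin φ • (e 1 : E3)) 2
      simp [e_apply]
  have e1 : rot φ (e 1) = (-Real.sin φ) • (e 0 : E3) + Real.cos φ • (e 1 : E3) := by
    apply ext3
    · show Real.cos φ * (e 1 : E3) 0 - Real.sin φ * (e 1 : E3) 1 = ((-Real.sin φ) • (e 0 : E3) + Real.cos φ • (e 1 : E3)) 0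
      simp [e_apply]
    · show Real.sin φ * (e 1 : E3) 0 + Real.cos φ * (e 1 : E3) 1 = ((-Real.sin φ) • (e 0 : E3) + Real.cos φ • (e 1 : E3)) 1
      simp [e_apply]
    · show (e 1 : E3) 2 = ((-Real.sin φ) • (e 0 : E3) + Real.cos φ • (e 1 : E3)) 2
      simp [e_apply]
  have e2 : rot φ (e 2) = e 2 := by
    apply ext3
    · show Real.cos φ * (e 2 : E3) 0 - Real.sin φ * (e 2 : E3) 1 = (e 2 : E3) 0
      simp [e_apply]
    · show Real.sin φ * (e 2 : E3) 0 + Real.cos φ * (e 2 : E3) 1 = (e 2 : E3) 1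
      simp [e_apply]
    · rfl
  rw [Fin.sum_univ_three, Fin.sum_univ_three, e0, e1, e2, map_add, map_add, map_smul, map_smul, map_smul, map_smul]
  simp only [norm_sq_eq, PiLp.add_apply, PiLp.smul_apply, smul_eq_mul]
  have h := Real.sin_sq_add_cos_sq φ
  linear_combination ((L (e 0)) 0 ^ 2 + (L (e 0)) 1 ^ 2 + (L (e 0)) 2 ^ 2 + (L (e 1)) 0 ^ 2 + (L (e 1)) 1 ^ 2 + (L (e 1)) 2 ^ 2) * h

theorem Cy_gv {v : E3 → E3} (h : AxF v) (θ : ℝ) (x : E3) : gv v (rot θ x) = gv v x := by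
  rw [← Ta_gv_eq h.smooth, ← Ta_gv_eq h.smooth, ← Cy_sum (fderiv ℝ v (rot θ x)) θ]
  refine Finset.sum_congr rfl fun i _ => ?_
  rw [fderiv_rot (h.smooth.differentiable (by simp)) h.ax, ← rotL_apply, LinearIsometryEquiv.norm_map]

theorem v_cyl {v : E3 → E3} (h : AxF v) (x : E3) : v (mk (rad x, x 2)) 2 = v x 2 ∧ ‖v (mk (rad x, x 2))‖ = ‖v x‖ ∧
    ur v (mk (rad x, x 2)) = ur v x ∧ ut v (mk (rad x, x 2)) = ut v x ∧ sP v (mk (rad x, x 2)) = sP v x ∧ gv v (mk (rad x, x 2)) = gv v x := by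
  by_cases hx : 0 < rsq x
  · obtain ⟨θ, hθ⟩ := Cy_rot hx
    have hr : rad (mk (rad x, x 2)) = rad x := by
      rw [(mk_f (rad x, x 2)).2.2.2.1]
      exact abs_of_nonneg (Cy_rad0 x)
    have h1 := h.ax θ (mk (rad x, x 2))
    have hW := sW_rot h θ (mk (rad x, x 2))
    have hV := sV_rot h θ (mk (rad x, x 2))
    have hP := sP_rot h θ (mk (rad x, x 2))
    have hg := Cy_gv h θ (mk (rad x, x 2))
    rw [hθ] at h1 hW hV hP hg
    refine ⟨?_, ?_, ?_, ?_, hP.symm, hg.symm⟩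
    · rw [h1, rot_two']
    · rw [h1, ← rotL_apply, LinearIsometryEquiv.norm_map]
    · unfold ur
      rw [hr, hW]
    · unfold ut
      rw [hr, hV]
  · rw [Cy_rot0 hx]
    exact ⟨rfl, rfl, rfl, rfl, rfl, rfl⟩

end Pool.Agent.H94.WL
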