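/-
ROW Fa (MP_09540e_WL). Stream function inequalities and the parts of the velocity. PROOF. f1: copy of TU/Fa.lean f1 (only h.ax, h.db, h.str and 0 ≤ N are used there). ur_f: `v x 0 = x 0 * sW v x - x 1 * sV v x`, `v x 1 = x 1 * sW v x + x 0 * sV v x` (from radFlux = rsq sW, circ = rsq sV: flux_eq, circ_eq, VRep.lean, for rsq > 0; on the axis v₀ = v₁ = 0 by rotation by π),
so `hn² = rsq (sW² + sV²) = ur² + ut²`, `‖v‖² = ur² + ut² + v₂²` (ba_gv); continuity: sW, sV smooth (avk_smooth as in VRep/Bds1), rad continuous. `|circ| = rsq |sV| = rad |ut|`, `|radFlux| = rad |ur|`. `ur² ≤ hn² ≤ rsq gv` and the same for ut: hn ≤ rad √gv as in hh of TU/Fa.lean (fderiv_rotGen; copy, it only uses axial symmetry).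
`pd 2 (fun x => x i * sW v x) = x i * pd 2 sW`, and differentiating the two formulas in x₂: `(pd 2 v₀)² + (pd 2 v₁)² = rsq ((pd 2 sW)² + (pd 2 sV)²)`, so `∑_{i<2} (x i pd 2 sW)² = rsq (pd 2 sW)² ≤ gv`.
f1r: `sW = - pd 2 (sP v)` (sW_sP), so `x i sW = - pd 2 (x i sP v)` and (ibpI in TU/Ba.lean with f = x i sP v, bounded by N since |x i| ≤ rad x, pd 2 of it = - x i sW bounded by ‖v‖ ≤ K) `∫ x i sW G = ∫ x i sP v pd 2 G`, `|..| ≤ N ∫ |pd 2 G|`.
-/
import Pool.Agent.H94.WL.Cy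
import Pool.Agent.H16.TU.Fa

set_option autoImplicit false

open Set Filter Topology MeasureTheory
open scoped ContDiff

namespace Pool.Agent.H94.WL

open Pool.Agent.H16 Pool.Agent.H87.NS Pool.Agent.H72.CC Pool.Agent.H16.TU


private theorem Fa_sVs {v : E3 → E3} (h : AxF v) : ContDiff ℝ ∞ (sV v) :=
  avk_smooth (f := fun y => curl v y 2) (VRep_coord (curl_smooth h.smooth) 2) 1

private theorem Fa_sWe {v : E3 → E3} (h : AxF v) : sW v = fun x => - pd 2 (sP v) x := by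
  funext x
  exact sW_sP h x

private theorem Fa_sWs {v : E3 → E3} (h : AxF v) : ContDiff ℝ ∞ (sW v) := by
  rw [Fa_sWe h]
  exact (pd_smooth (sP_smooth h) 2).neg

private theorem Fa_rad : Continuous (rad : E3 → ℝ) := by
  unfold rad
  exact (((Psi_cont_coord 0).pow 2).add ((Psi_cont_coord 1).pow 2)).sqrt

private theorem Fa_xi {i : Fin 3} (hi : i ≠ 2) (x : E3) : |x i| ≤ rad x := by
  refine Real.abs_le_sqrt ?_
  fin_cases i
  · show x 0 ^ 2 ≤ x 0 ^ 2 + x 1 ^ 2; linarith only [sq_nonneg (x 1)]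
  · show x 1 ^ 2 ≤ x 0 ^ 2 + x 1 ^ 2; nlinarith [sq_nonneg (x 0)]
  · exact absurd rfl hi

private theorem Fa_v0 {v : E3 → E3} (h : AxF v) (x : E3) : v x 0 = x 0 * sW v x - x 1 * sV v x := by
  refine Psi_off (f := fun x => v x 0) (g := fun x => x 0 * sW v x - x 1 * sV v x) (VRep_coord h.smooth 0).continuous ?_ ?_ x
  · exact ((Psi_cont_coord 0).mul (Fa_sWs h).continuous).sub ((Psi_cont_coord 1).mul (Fa_sVs h).continuous)
  · intro x hx
    have a := flux_eq h x
    have b := circ_eq h x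
    unfold radFlux at a
    unfold circ at b
    unfold rsq at hx
    refine mul_left_cancel₀ hx.ne' ?_
    show (x 0 ^ 2 + x 1 ^ 2) * v x 0 = (x 0 ^ 2 + x 1 ^ 2) * (x 0 * sW v x - x 1 * sV v x)
    unfold rsq at a b
    linear_combination x 0 * a - x 1 * b

private theorem Fa_v1 {v : E3 → E3} (h : AxF v) (x : E3) : v x 1 = x 1 * sW v x + x 0 * sV v x := by
  refine Psi_off (f := fun x => v x 1) (g := fun x => x 1 * sW v x + x 0 * sV v x) (VRep_coord h.smooth 1).continuous ?_ ?_ x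
  · exact ((Psi_cont_coord 1).mul (Fa_sWs h).continuous).add ((Psi_cont_coord 0).mul (Fa_sVs h).continuous)
  · intro x hx
    have a := flux_eq h x
    have b := circ_eq h x
    unfold radFlux at a
    unfold circ at b
    unfold rsq at hx
    refine mul_left_cancel₀ hx.ne' ?_
    show (x 0 ^ 2 + x 1 ^ 2) * v x 1 = (x 0 ^ 2 + x 1 ^ 2) * (x 1 * sW v x + x 0 * sV v x)
    unfold rsq at a b
    linear_combination x 1 * a + x 0 * b

private theorem Fa_pd2 {i : Fin 3} (hi : i ≠ 2) {f : E3 → ℝ} (hf : Differentiable ℝ f) (x : E3) :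
    pd 2 (fun y : E3 => y i * f y) x = x i * pd 2 f x := by
  rw [Psi_mul (Psi_dc i x) (hf x), Psi_coord, if_neg hi, zero_mul, zero_add]

private theorem Fa_hn2 {v : E3 → E3} (x : E3) : hn v x ^ 2 = v x 0 ^ 2 + v x 1 ^ 2 := Real.sq_sqrt (by positivity)

private theorem Fa_hn {v : E3 → E3} (h : AxF v) (x : E3) : hn v x ^ 2 ≤ rsq x * gv v x := by
  have hv := h.smooth
  have r1 := fderiv_rotGen (hv.differentiable (by simp)) h.ax x
  have r2 : rotGen x = (- x 1) • e 0 + (x 0) • e 1 := by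
    apply ext3 <;> simp [e]
  have r3 : ∀ j : Fin 3, rotGen (v x) j = - x 1 * pd 0 (fun y => v y j) x + x 0 * pd 1 (fun y => v y j) x := by
    intro j
    rw [← r1, r2, map_add, map_smul, map_smul, pd_comp hv, pd_comp hv]
    rfl
  have r4 := r3 0
  have r5 := r3 1
  rw [rotGen_zero'] at r4
  rw [rotGen_one'] at r5
  have hgv : pd 0 (fun y => v y 0) x ^ 2 + pd 1 (fun y => v y 0) x ^ 2 + pd 0 (fun y => v y 1) x ^ 2 + pd 1 (fun y => v y 1) x ^ 2 ≤ gv v x := by
    unfold gv gsq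
    simp only [Fin.sum_univ_three]
    linarith only [sq_nonneg (pd 2 (fun y => v y 0) x), sq_nonneg (pd 2 (fun y => v y 1) x), sq_nonneg (pd 0 (fun y => v y 2) x),
      sq_nonneg (pd 1 (fun y => v y 2) x), sq_nonneg (pd 2 (fun y => v y 2) x)]
  rw [Fa_hn2]
  unfold rsq
  have c1 : v x 1 ^ 2 ≤ (x 0 ^ 2 + x 1 ^ 2) * (pd 0 (fun y => v y 0) x ^ 2 + pd 1 (fun y => v y 0) x ^ 2) := by
    have : v x 1 = x 1 * pd 0 (fun y => v y 0) x - x 0 * pd 1 (fun y => v y 0) x := by linarith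
    rw [this]
    linarith only [sq_nonneg (x 0 * pd 0 (fun y => v y 0) x + x 1 * pd 1 (fun y => v y 0) x)]
  have c2 : v x 0 ^ 2 ≤ (x 0 ^ 2 + x 1 ^ 2) * (pd 0 (fun y => v y 1) x ^ 2 + pd 1 (fun y => v y 1) x ^ 2) := by
    have : v x 0 = - x 1 * pd 0 (fun y => v y 1) x + x 0 * pd 1 (fun y => v y 1) x := by linarith
    rw [this]
    linarith only [sq_nonneg (x 0 * pd 0 (fun y => v y 1) x + x 1 * pd 1 (fun y => v y 1) x)]
  have c3 := mul_le_mul_of_nonneg_left hgv (by positivity : 0 ≤ x 0 ^ 2 + x 1 ^ 2)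
  linarith

theorem f1 {κ N b : ℝ} {v : E3 → E3} (h : Sm κ N b v) {G : E3 → ℝ} (hG : TF G) : |∫ x, v x 2 * G x| ≤ N * ∫ x, hg G x := by
  obtain ⟨K, hK0, hK, -, -⟩ := ba_vf h.vf
  obtain ⟨K₁, hK₁⟩ := h.db
  have hv := h.ax.smooth
  have hN : 0 ≤ N := by linarith [h.one, h.le]
  have hP : ContDiff ℝ ∞ (sP v) := sP_smooth h.ax
  have hPd : Differentiable ℝ (sP v) := hP.differentiable (by simp)
  have hPb : ∀ x, |sP v x| ≤ 2 * K₁ := fun x => (avk_BL (k := 1) (Bds1_proj_smooth hv 2).continuous le_rfl (DB_BL (hK₁ 2))).1 x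
  have hv2 : ∀ x, |v x 2| ≤ K := fun x => (ba_gv x 0 0).2.2.2.2.2.1.trans (hK x).1
  have hA : ∀ i : Fin 3, ContDiff ℝ ∞ (fun x : E3 => x i * sP v x) := fun i =>
    ((EuclideanSpace.proj i : E3 →L[ℝ] ℝ).contDiff).mul hP
  have hAd : ∀ i : Fin 3, Differentiable ℝ (fun x : E3 => x i * sP v x) := fun i => (hA i).differentiable (by simp)
  have hpd : ∀ (i : Fin 3) (x : E3), pd i (fun y : E3 => y i * sP v y) x = sP v x + x i * pd i (sP v) x := by
    intro i x
    rw [Psi_mul (Psi_dc i x) (hPd x), Psi_coord]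
    simp
  have hxi : ∀ (i : Fin 3), i ≠ 2 → ∀ x : E3, |x i| ≤ rad x := by
    intro i hi x
    refine Real.abs_le_sqrt ?_
    fin_cases i
    · show x 0 ^ 2 ≤ x 0 ^ 2 + x 1 ^ 2; nlinarith [sq_nonneg (x 1)]
    · show x 1 ^ 2 ≤ x 0 ^ 2 + x 1 ^ 2; nlinarith [sq_nonneg (x 0)]
    · exact absurd rfl hi
  have hAb : ∀ (i : Fin 3), i ≠ 2 → ∀ x : E3, |x i * sP v x| ≤ N := by
    intro i hi x
    rw [abs_mul]
    exact (mul_le_mul_of_nonneg_right (hxi i hi x) (abs_nonneg _)).trans (h.str x)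
  have hrdr : ∀ x, |rdr (sP v) x| ≤ K + 4 * K₁ := by
    intro x
    have e1 : rdr (sP v) x = v x 2 - 2 * sP v x := by rw [sP_two h.ax x]; ring
    rw [e1]
    have e2 := abs_sub (v x 2) (2 * sP v x)
    rw [abs_mul, abs_of_nonneg (by norm_num : (0:ℝ) ≤ 2)] at e2
    linarith [hv2 x, hPb x]
  have hAp : ∀ (i : Fin 3), i ≠ 2 → ∀ x : E3, |pd i (fun y : E3 => y i * sP v y) x| ≤ K + 6 * K₁ := by
    intro i hi x
    rw [hpd]
    have e1 : |x i * pd i (sP v) x| ≤ |rdr (sP v) x| := by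
      have r := rot_inv hP (sP_rot h.ax) x
      have r' : rsq x * pd i (sP v) x = x i * rdr (sP v) x := by
        fin_cases i
        · exact r.1
        · exact r.2.1
        · exact absurd rfl hi
      have hx2 : x i ^ 2 ≤ rsq x := by
        rw [← rad_sq' x, ← sq_abs (x i)]
        exact pow_le_pow_left₀ (abs_nonneg _) (hxi i hi x) 2
      rcases (sq_nonneg (x i)).eq_or_lt with h0 | h0
      · have : x i = 0 := by
          have := h0.symm
          exact pow_eq_zero_iff (n := 2) (by norm_num) |>.1 this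
        rw [this]; simp
      · have hr : 0 < rsq x := lt_of_lt_of_le h0 hx2
        have e2 : rsq x * (x i * pd i (sP v) x) = x i ^ 2 * rdr (sP v) x := by
          calc rsq x * (x i * pd i (sP v) x) = x i * (rsq x * pd i (sP v) x) := by ring
            _ = _ := by rw [r']; ring
        have e3 : rsq x * |x i * pd i (sP v) x| = x i ^ 2 * |rdr (sP v) x| := by
          have := congrArg abs e2
          rwa [abs_mul, abs_mul (x i ^ 2), abs_of_pos hr, abs_of_nonneg (sq_nonneg (x i))] at this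
        have e4 : rsq x * |x i * pd i (sP v) x| ≤ rsq x * |rdr (sP v) x| := by
          rw [e3]; exact mul_le_mul_of_nonneg_right hx2 (abs_nonneg _)
        exact le_of_mul_le_mul_left e4 hr
    have e5 := abs_add_le (sP v x) (x i * pd i (sP v) x)
    linarith [hPb x, hrdr x]
  have hsum : ∀ x, v x 2 = pd 0 (fun y : E3 => y 0 * sP v y) x + pd 1 (fun y : E3 => y 1 * sP v y) x := by
    intro x
    rw [hpd, hpd, sP_two h.ax x]
    unfold rdr
    ring
  have hcA : ∀ i : Fin 3, Continuous (fun x : E3 => x i * sP v x) := fun i => (hA i).continuous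
  have hcp : ∀ i : Fin 3, Continuous (pd i (fun y : E3 => y i * sP v y)) := fun i => pd_cont ((hA i).of_le (by norm_cast)) i
  have hGd : Differentiable ℝ G := hG.c1.differentiable (by norm_num)
  have i1 : ∀ i : Fin 3, i ≠ 2 → Integrable (fun x => pd i (fun y : E3 => y i * sP v y) x * G x) := fun i hi => Fa_int (hcp i) (hAp i hi) hG.int
  have i2 : ∀ i : Fin 3, i ≠ 2 → Integrable (fun x => (x i * sP v x) * pd i G x) := fun i hi => Fa_int (hcA i) (hAb i hi) (hG.intd i)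
  have i3 : ∀ i : Fin 3, i ≠ 2 → Integrable (fun x => (x i * sP v x) * G x) := fun i hi => Fa_int (hcA i) (hAb i hi) hG.int
  have e0 : ∀ i : Fin 3, i ≠ 2 → ∫ x, pd i (fun y : E3 => y i * sP v y) x * G x = - ∫ x, (x i * sP v x) * pd i G x := by
    intro i hi
    have := ibpI (hAd i) hGd i (i1 i hi) (i2 i hi) (i3 i hi)
    linarith
  have e1 : ∫ x, v x 2 * G x = - ∫ x, (x 0 * pd 0 G x + x 1 * pd 1 G x) * sP v x := by
    have a1 : ∫ x, v x 2 * G x = (∫ x, pd 0 (fun y : E3 => y 0 * sP v y) x * G x) + ∫ x, pd 1 (fun y : E3 => y 1 * sP v y) x * G x := by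
      rw [← integral_add (i1 0 (by decide)) (i1 1 (by decide))]
      refine integral_congr_ae (ae_of_all _ fun x => ?_)
      show v x 2 * G x = _
      rw [hsum x]
      ring
    have a2 : ∫ x, (x 0 * pd 0 G x + x 1 * pd 1 G x) * sP v x = (∫ x, (x 0 * sP v x) * pd 0 G x) + ∫ x, (x 1 * sP v x) * pd 1 G x := by
      rw [← integral_add (i2 0 (by decide)) (i2 1 (by decide))]
      refine integral_congr_ae (ae_of_all _ fun x => ?_)
      show (x 0 * pd 0 G x + x 1 * pd 1 G x) * sP v x = (x 0 * sP v x) * pd 0 G x + (x 1 * sP v x) * pd 1 G x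
      ring
    rw [a1, a2, e0 0 (by decide), e0 1 (by decide)]
    ring
  have chg : Continuous (hg G) := by
    unfold hg
    exact (((pd_cont hG.c1 0).pow 2).add ((pd_cont hG.c1 1).pow 2)).sqrt
  have ihg : Integrable (hg G) := by
    refine Integrable.mono' ((hG.intd 0).norm.add (hG.intd 1).norm) chg.aestronglyMeasurable (ae_of_all _ fun x => ?_)
    have h0 : 0 ≤ hg G x := Real.sqrt_nonneg _
    rw [Real.norm_eq_abs, abs_of_nonneg h0]
    unfold hg
    show √(pd 0 G x ^ 2 + pd 1 G x ^ 2) ≤ ‖pd 0 G x‖ + ‖pd 1 G x‖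
    refine Real.sqrt_le_iff.2 ⟨by positivity, ?_⟩
    rw [Real.norm_eq_abs, Real.norm_eq_abs]
    linarith only [sq_abs (pd 0 G x), sq_abs (pd 1 G x), abs_nonneg (pd 0 G x), abs_nonneg (pd 1 G x),
      mul_nonneg (abs_nonneg (pd 0 G x)) (abs_nonneg (pd 1 G x))]
  rw [e1, abs_neg, ← integral_const_mul]
  refine abs_integral_le_integral_abs.trans ?_
  refine integral_mono_of_nonneg (ae_of_all _ fun x => abs_nonneg _) (ihg.const_mul N) (ae_of_all _ fun x => ?_)
  show |(x 0 * pd 0 G x + x 1 * pd 1 G x) * sP v x| ≤ N * hg G x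
  rw [abs_mul]
  have b1 := Fa_cs (x 0) (x 1) (pd 0 G x) (pd 1 G x)
  calc |x 0 * pd 0 G x + x 1 * pd 1 G x| * |sP v x| ≤ (rad x * hg G x) * |sP v x| :=
        mul_le_mul_of_nonneg_right b1 (abs_nonneg _)
    _ = (rad x * |sP v x|) * hg G x := by ring
    _ ≤ N * hg G x := mul_le_mul_of_nonneg_right (h.str x) (Real.sqrt_nonneg _)

theorem ur_c {v : E3 → E3} (h : AxF v) : Continuous (ur v) ∧ Continuous (ut v) ∧ ContDiff ℝ ∞ (sW v) ∧ ContDiff ℝ ∞ (sV v) := by
  refine ⟨?_, ?_, Fa_sWs h, Fa_sVs h⟩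
  · unfold ur
    exact Fa_rad.mul (Fa_sWs h).continuous
  · unfold ut
    exact Fa_rad.mul (Fa_sVs h).continuous

theorem ur_f {v : E3 → E3} (h : AxF v) (x : E3) : v x 0 = x 0 * sW v x - x 1 * sV v x ∧ v x 1 = x 1 * sW v x + x 0 * sV v x ∧
    hn v x ^ 2 = ur v x ^ 2 + ut v x ^ 2 ∧ ‖v x‖ ^ 2 = ur v x ^ 2 + ut v x ^ 2 + v x 2 ^ 2 ∧ |circ v x| = rad x * |ut v x| ∧ |radFlux v x| = rad x * |ur v x| := by
  have a0 := Fa_v0 h x
  have a1 := Fa_v1 h x
  have r0 : rad x ^ 2 = x 0 ^ 2 + x 1 ^ 2 := Real.sq_sqrt (by positivity)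
  have a2 : hn v x ^ 2 = ur v x ^ 2 + ut v x ^ 2 := by
    rw [Fa_hn2, a0, a1]
    unfold ur ut
    rw [mul_pow, mul_pow, r0]
    ring
  have a3 : ‖v x‖ ^ 2 = hn v x ^ 2 + v x 2 ^ 2 := (ba_gv x 0 0).2.2.2.2.2.2
  refine ⟨a0, a1, a2, by rw [a3, a2], ?_, ?_⟩
  · rw [circ_eq h x]
    unfold ut rsq
    rw [← r0, abs_mul, abs_mul, abs_of_nonneg (sq_nonneg (rad x)), abs_of_nonneg (rad_nonneg x)]
    ring
  · rw [flux_eq h x]
    unfold ur rsq
    rw [← r0, abs_mul, abs_mul, abs_of_nonneg (sq_nonneg (rad x)), abs_of_nonneg (rad_nonneg x)]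
    ring

theorem ur_g {v : E3 → E3} (h : AxF v) (x : E3) : ur v x ^ 2 ≤ rsq x * gv v x ∧ ut v x ^ 2 ≤ rsq x * gv v x ∧
    (x 0 * pd 2 (sW v) x) ^ 2 + (x 1 * pd 2 (sW v) x) ^ 2 ≤ gv v x ∧
    ur v x ^ 2 = (x 0 * sW v x) ^ 2 + (x 1 * sW v x) ^ 2 := by
  have f3 := (ur_f h x).2.2.1
  have f4 := Fa_hn h x
  have hs1 := sq_nonneg (ur v x)
  have hs2 := sq_nonneg (ut v x)
  refine ⟨by linarith, by linarith, ?_, ?_⟩
  · have hWd : Differentiable ℝ (sW v) := (Fa_sWs h).differentiable (by simp)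
    have hVd : Differentiable ℝ (sV v) := (Fa_sVs h).differentiable (by simp)
    have e0 : pd 2 (fun y => v y 0) x = x 0 * pd 2 (sW v) x - x 1 * pd 2 (sV v) x := by
      have hf : (fun y => v y 0) = fun y : E3 => (y 0 * sW v y) + (-1) * (y 1 * sV v y) := by
        funext y
        rw [Fa_v0 h y]
        ring
      rw [hf, Psi_add (Psi_dmul (Psi_dc 0 x) (hWd x)) ((Psi_dmul (Psi_dc 1 x) (hVd x)).const_mul (-1)),
        Psi_cm (Psi_dmul (Psi_dc 1 x) (hVd x)), Fa_pd2 (by decide) hWd, Fa_pd2 (by decide) hVd]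
      ring
    have e1 : pd 2 (fun y => v y 1) x = x 1 * pd 2 (sW v) x + x 0 * pd 2 (sV v) x := by
      have hf : (fun y => v y 1) = fun y : E3 => (y 1 * sW v y) + (y 0 * sV v y) := by
        funext y
        rw [Fa_v1 h y]
      rw [hf, Psi_add (Psi_dmul (Psi_dc 1 x) (hWd x)) (Psi_dmul (Psi_dc 0 x) (hVd x)),
        Fa_pd2 (by decide) hWd, Fa_pd2 (by decide) hVd]
    have e2 : pd 2 (fun y => v y 0) x ^ 2 + pd 2 (fun y => v y 1) x ^ 2 ≤ gv v x := by
      unfold gv gsq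
      simp only [Fin.sum_univ_three]
      linarith only [sq_nonneg (pd 0 (fun y => v y 0) x), sq_nonneg (pd 1 (fun y => v y 0) x), sq_nonneg (pd 0 (fun y => v y 1) x),
        sq_nonneg (pd 1 (fun y => v y 1) x), sq_nonneg (pd 0 (fun y => v y 2) x),
        sq_nonneg (pd 1 (fun y => v y 2) x), sq_nonneg (pd 2 (fun y => v y 2) x)]
    rw [e0, e1] at e2
    refine le_trans ?_ e2
    have e3 : (x 0 * pd 2 (sW v) x - x 1 * pd 2 (sV v) x) ^ 2 + (x 1 * pd 2 (sW v) x + x 0 * pd 2 (sV v) x) ^ 2 =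
        (x 0 * pd 2 (sW v) x) ^ 2 + (x 1 * pd 2 (sW v) x) ^ 2 + ((x 0 * pd 2 (sV v) x) ^ 2 + (x 1 * pd 2 (sV v) x) ^ 2) := by ring
    rw [e3]
    have := sq_nonneg (x 0 * pd 2 (sV v) x)
    have := sq_nonneg (x 1 * pd 2 (sV v) x)
    linarith
  · have r0 : rad x ^ 2 = x 0 ^ 2 + x 1 ^ 2 := Real.sq_sqrt (by positivity)
    unfold ur
    rw [mul_pow, r0]
    ring

theorem f1r {κ N b B : ℝ} {v : E3 → E3} (h : Sm κ N b v) {G : E3 → ℝ} (hG : ContDiff ℝ 1 G) (hB : ∀ x, |G x| ≤ B) (h1 : Integrable G)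
    (h2 : Integrable (pd 2 G)) {i : Fin 3} (hi : i ≠ 2) : |∫ x, x i * sW v x * G x| ≤ N * ∫ x, |pd 2 G x| := by
  obtain ⟨K, hK0, hK, -, -⟩ := ba_vf h.vf
  have hP : ContDiff ℝ ∞ (sP v) := sP_smooth h.ax
  have hPd : Differentiable ℝ (sP v) := hP.differentiable (by simp)
  have hA : ContDiff ℝ ∞ (fun x : E3 => x i * sP v x) := ((EuclideanSpace.proj i : E3 →L[ℝ] ℝ).contDiff).mul hP
  have hAd : Differentiable ℝ (fun x : E3 => x i * sP v x) := hA.differentiable (by simp)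
  have hGd : Differentiable ℝ G := hG.differentiable (by norm_num)
  have hAb : ∀ x : E3, |x i * sP v x| ≤ N := by
    intro x
    rw [abs_mul]
    exact (mul_le_mul_of_nonneg_right (Fa_xi hi x) (abs_nonneg _)).trans (h.str x)
  have hpd : ∀ x : E3, pd 2 (fun y : E3 => y i * sP v y) x = - (x i * sW v x) := by
    intro x
    rw [Fa_pd2 hi hPd, sW_sP h.ax x]
    ring
  have hpb : ∀ x : E3, |pd 2 (fun y : E3 => y i * sP v y) x| ≤ K := by
    intro x
    rw [hpd, abs_neg]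
    refine le_trans ?_ (hK x).1
    refine abs_le_of_sq_le_sq ?_ (norm_nonneg _)
    have f := (ur_f h.ax x).2.2.2.1
    have g := (ur_g h.ax x).2.2.2
    have c : (x i * sW v x) ^ 2 ≤ ur v x ^ 2 := by
      rw [g]
      have := sq_nonneg (x 0 * sW v x)
      have := sq_nonneg (x 1 * sW v x)
      fin_cases i
      · show (x 0 * sW v x) ^ 2 ≤ _; linarith
      · show (x 1 * sW v x) ^ 2 ≤ _; linarith
      · exact absurd rfl hi
    rw [f]
    have := sq_nonneg (ut v x)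
    have := sq_nonneg (v x 2)
    linarith
  have hcp : Continuous (pd 2 (fun y : E3 => y i * sP v y)) := pd_cont (hA.of_le (by norm_cast)) 2
  have i1 : Integrable (fun x => pd 2 (fun y : E3 => y i * sP v y) x * G x) := Fa_int hcp hpb h1
  have i2 : Integrable (fun x => (x i * sP v x) * pd 2 G x) := Fa_int hA.continuous hAb h2
  have i3 : Integrable (fun x => (x i * sP v x) * G x) := Fa_int hA.continuous hAb h1
  have e0 := ibpI hAd hGd 2 i1 i2 i3
  have e1 : ∫ x, x i * sW v x * G x = - ∫ x, pd 2 (fun y : E3 => y i * sP v y) x * G x := by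
    rw [← integral_neg]
    refine integral_congr_ae (ae_of_all _ fun x => ?_)
    show x i * sW v x * G x = - (pd 2 (fun y : E3 => y i * sP v y) x * G x)
    rw [hpd]
    ring
  have e2 : ∫ x, x i * sW v x * G x = ∫ x, (x i * sP v x) * pd 2 G x := by
    rw [e1]
    linarith
  rw [e2, ← integral_const_mul]
  refine abs_integral_le_integral_abs.trans ?_
  refine integral_mono_of_nonneg (ae_of_all _ fun x => abs_nonneg _) (h2.abs.const_mul N) (ae_of_all _ fun x => ?_)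
  show |(x i * sP v x) * pd 2 G x| ≤ N * |pd 2 G x|
  rw [abs_mul]
  exact mul_le_mul_of_nonneg_right (hAb x) (abs_nonneg _)

end Pool.Agent.H94.WL
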