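/-
ROW So (MP_09540e_WL). The circulation near the axis is bounded, from the energy alone. PROOF. so6: let `ζ x = zc ρ (2ρ) (x - axp z)` (H72/CC/Cut.lean: smooth, 0 ≤ ζ ≤ 1, 1 for ‖x - axp z‖ ≤ ρ, 0 for ≥ 2ρ; `|pd j ζ| ≤ C/ρ`: zc is smoothTransition ((b²-‖x‖²)/(b²-a²)), Cut_bd, on ‖x‖ ≤ 2ρ: |2 x_j/(3ρ²)| C ≤ 2C/ρ), `G_i x = x_i sP v x ζ x` (i = 0, 1), C¹ with compact support (Hol_DB: DB 1 K G).
SB_spec (H87/NS/Sob.lean): `(∫ G_i⁶)^(1/3) ≤ SB ∫ gsq G_i` (see the exact form there). `|pd j (x_i P)| ≤ |P| + |x_i pd j P|`, for j = 0, 1: `|x_i pd j P| ≤ |rdr P| = |v₂ - 2P|` (rot_inv, sP_two; as in TU/Fa.lean f1), for j = 2: `x_i pd 2 P = - x_i sW v`, `|x_i sW| ≤ |ur v| ≤ ‖v‖` (ur_f). `|x_i P pd j ζ| ≤ 2ρ |P| C/ρ = 2C|P|` on the support (|x_i| ≤ ‖x - axp z‖ ≤ 2ρ). So `gsq G_i ≤ C' (‖v‖² + P²)`,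
`∫ ≤ 2C' ∫‖v‖²` (sP_L2). On the ball ζ = 1: `(rad|P|)⁶ = ((x₀P)² + (x₁P)²)³ ≤ 4 (G₀⁶ + G₁⁶)`.
near: E = ∫‖u 0‖² (energy: LamA_energy or en_glob: ∫‖u t‖² ≤ E). T ≤ 0 trivial (b = 1, κ = 1). Let `ρ = min 1 (√(T/4))`, ρ² < T/2, b = ρ/8. For t < T/2: ‖u t‖ ≤ K on Icc 0 (T/2) (h.ns.bounded), |circ| ≤ rad ‖u‖ ≤ b K (circ_le). For t ∈ [T/2, T), any z: copy stepI (H72/CC/StepA.lean) with the bound of A4 replaced:
`P s y = ρ sP (u (t+ρ²s)) (axp z + ρ • y)` (see ns_crc), `rad y |P s y| = rad (X y) |sP (X y)|`, X y = axp z + ρ • y, so `A4 (P s) = ∫_{ball 0 1} rsq² P⁴ = ∫ (rad|P|)⁴ ≤ ∫_{ball 0 1} (1 + (rad |P|)⁶) ≤ 5 + ρ⁻³ ∫_{ball (axp z) ρ} (rad|sP|)⁶ ≤ 5 + ρ⁻³ C E³ =: Λ` (ball_cov2 for the change of variables; a⁴ ≤ 1 + a⁶), `∫_{-1}^0 A4⁵ ≤ Λ⁵`; moC with F = s², M as in stepI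
gives `circ² ≤ Q` on [t - ρ²/16, t] × ball (axp z) (ρ/4), in particular at time t for rad x ≤ b = ρ/8 (z = x 2: ‖x - axp (x 2)‖ = rad x: Crit_axp). κ = max of 1, √Q, bK.
-/
import Pool.Agent.H94.WL.Fa
import Pool.Agent.H72.CC.MainA

set_option autoImplicit false

open Set Filter Topology MeasureTheory
open scoped ContDiff

namespace Pool.Agent.H94.WL

open Pool.Agent.H16 Pool.Agent.H87.NS Pool.Agent.H72.CC Pool.Agent.H16.TU

private theorem So_tr {f : E3 → ℝ} (c x : E3) (hf : DifferentiableAt ℝ f (x - c)) (j : Fin 3) :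
    pd j (fun y => f (y - c)) x = pd j f (x - c) := by
  unfold pd
  have h1 : HasFDerivAt (fun y : E3 => y - c) (ContinuousLinearMap.id ℝ E3) x := (hasFDerivAt_id x).sub_const c
  have h2 : HasFDerivAt (fun y => f (y - c)) _ x := hf.hasFDerivAt.comp x h1
  rw [h2.fderiv]
  rfl

private theorem So_rad (x : E3) (z : ℝ) : rad x ≤ ‖x - axp z‖ := StepA_rad x z

private theorem So_xi {i : Fin 3} (hi : i ≠ 2) (x : E3) : |x i| ≤ rad x := by
  refine Real.abs_le_sqrt ?_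
  fin_cases i
  · show x 0 ^ 2 ≤ x 0 ^ 2 + x 1 ^ 2; nlinarith [sq_nonneg (x 1)]
  · show x 1 ^ 2 ≤ x 0 ^ 2 + x 1 ^ 2; nlinarith [sq_nonneg (x 0)]
  · exact absurd rfl hi

private theorem So_zc : ∃ C : ℝ, 1 ≤ C ∧ ∀ ρ : ℝ, 0 < ρ → ∀ (w : E3) (j : Fin 3),
    ‖w‖ * |pd j (zc ρ (2 * ρ)) w| ≤ C := by
  obtain ⟨C, hC1, hCd, -, hC0⟩ := Cut_bd
  refine ⟨4 * C, by linarith, ?_⟩
  intro ρ hρ w j
  have e1 : zc ρ (2 * ρ) = fun y : E3 => Cut_h ρ (2 * ρ) (‖y‖ ^ 2) := rfl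
  have e2 : pd j (zc ρ (2 * ρ)) w = deriv (Cut_h ρ (2 * ρ)) (‖w‖ ^ 2) * (2 * w j) := by
    rw [e1]
    exact Cut_pd (Cut_h_smooth _ _) j w
  have hd : (2 * ρ) ^ 2 - ρ ^ 2 = 3 * ρ ^ 2 := by ring
  rw [e2, (Cut_dh _ _ _).deriv, hd]
  have hρ2 : 0 < 3 * ρ ^ 2 := by positivity
  rcases le_total (2 * ρ) ‖w‖ with h | h
  · have h1 : ((2 * ρ) ^ 2 - ‖w‖ ^ 2) / (3 * ρ ^ 2) ≤ 0 := by
      refine div_nonpos_of_nonpos_of_nonneg ?_ hρ2.le
      have := pow_le_pow_left₀ (by positivity) h 2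
      linarith
    rw [(hC0 _ h1).1]
    simp only [neg_zero, zero_div, zero_mul, abs_zero, mul_zero]
    linarith
  · have hw : |w j| ≤ ‖w‖ := PiLp.norm_apply_le w j
    have h1 := hCd (((2 * ρ) ^ 2 - ‖w‖ ^ 2) / (3 * ρ ^ 2))
    rw [abs_mul, abs_div, abs_neg, abs_of_pos hρ2, abs_mul, abs_of_pos (by norm_num : (0:ℝ) < 2)]
    have hn := norm_nonneg w
    have h2 : ‖w‖ * |w j| ≤ (2 * ρ) * (2 * ρ) := mul_le_mul h (hw.trans h) (abs_nonneg _) (by positivity)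
    set D := |deriv Real.smoothTransition (((2 * ρ) ^ 2 - ‖w‖ ^ 2) / (3 * ρ ^ 2))| with hD
    have hD0 : 0 ≤ D := abs_nonneg _
    calc ‖w‖ * (D / (3 * ρ ^ 2) * (2 * |w j|)) = D * 2 * (‖w‖ * |w j|) / (3 * ρ ^ 2) := by ring
      _ ≤ D * 2 * ((2 * ρ) * (2 * ρ)) / (3 * ρ ^ 2) := by gcongr
      _ = D * (8 / 3) := by field_simp; ring
      _ ≤ C * 4 := by
        refine mul_le_mul h1 (by norm_num) (by norm_num) (by linarith)
      _ = 4 * C := by ring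

private theorem So_pA {v : E3 → E3} (hv : AxF v) {i : Fin 3} (hi : i ≠ 2) (x : E3) (j : Fin 3) :
    |pd j (fun y : E3 => y i * sP v y) x| ≤ 3 * |sP v x| + ‖v x‖ := by
  have hP : ContDiff ℝ ∞ (sP v) := sP_smooth hv
  have hPd : Differentiable ℝ (sP v) := hP.differentiable (by simp)
  have hnn := norm_nonneg (v x)
  have ha := abs_nonneg (sP v x)
  have hp : pd j (fun y : E3 => y i * sP v y) x = (if i = j then 1 else 0) * sP v x + x i * pd j (sP v) x := by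
    rw [Psi_mul (Psi_dc i x) (hPd x), Psi_coord]
  rw [hp]
  by_cases hj : j = 2
  · subst hj
    have h1 := sW_sP hv x
    have h2 : pd 2 (sP v) x = - sW v x := by linarith
    rw [if_neg hi, h2, zero_mul, zero_add, abs_mul, abs_neg]
    have h3 := (ur_f hv x).2.2.2.1
    have h4 : |x i| * |sW v x| ≤ ‖v x‖ := by
      calc |x i| * |sW v x| ≤ rad x * |sW v x| := mul_le_mul_of_nonneg_right (So_xi hi x) (abs_nonneg _)
        _ = |ur v x| := by rw [ur, abs_mul, abs_of_nonneg (rad_nonneg x)]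
        _ ≤ ‖v x‖ := by
          refine abs_le_of_sq_le_sq ?_ hnn
          rw [h3]; nlinarith [sq_nonneg (ut v x), sq_nonneg (v x 2)]
    linarith
  · have e1 : |x i * pd j (sP v) x| ≤ |rdr (sP v) x| := by
      have r := rot_inv hP (sP_rot hv) x
      have r' : rsq x * pd j (sP v) x = x j * rdr (sP v) x := by
        fin_cases j
        · exact r.1
        · exact r.2.1
        · exact absurd rfl hj
      have hij : |x i| * |x j| ≤ rsq x := by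
        rw [← rad_sq' x, pow_two]
        exact mul_le_mul (So_xi hi x) (So_xi hj x) (abs_nonneg _) (rad_nonneg x)
      rcases (abs_nonneg (x i)).eq_or_lt with h0 | h0
      · have : x i = 0 := abs_eq_zero.1 h0.symm
        rw [this]; simp
      · have hr : 0 < rsq x := by
          rw [← rad_sq' x]
          exact pow_pos (lt_of_lt_of_le h0 (So_xi hi x)) 2
        have e3 : rsq x * |x i * pd j (sP v) x| = (|x i| * |x j|) * |rdr (sP v) x| := by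
          have := congrArg abs r'
          rw [abs_mul, abs_mul, abs_of_pos hr] at this
          rw [abs_mul]
          calc rsq x * (|x i| * |pd j (sP v) x|) = |x i| * (rsq x * |pd j (sP v) x|) := by ring
            _ = _ := by rw [this]; ring
        have e4 : rsq x * |x i * pd j (sP v) x| ≤ rsq x * |rdr (sP v) x| := by
          rw [e3]; exact mul_le_mul_of_nonneg_right hij (abs_nonneg _)
        exact le_of_mul_le_mul_left e4 hr
    have e2 : |rdr (sP v) x| ≤ ‖v x‖ + 2 * |sP v x| := by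
      have e1 : rdr (sP v) x = v x 2 - 2 * sP v x := by rw [sP_two hv x]; ring
      rw [e1]
      have e2 := abs_sub (v x 2) (2 * sP v x)
      rw [abs_mul, abs_of_nonneg (by norm_num : (0:ℝ) ≤ 2)] at e2
      have e3 : |v x 2| ≤ ‖v x‖ := PiLp.norm_apply_le (v x) 2
      linarith
    have e5 := abs_add_le ((if i = j then 1 else 0) * sP v x) (x i * pd j (sP v) x)
    have e6 : |(if i = j then (1:ℝ) else 0) * sP v x| ≤ |sP v x| := by
      split_ifs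
      · rw [one_mul]
      · rw [zero_mul, abs_zero]; exact ha
    linarith

theorem so6 : ∃ C : ℝ, 1 ≤ C ∧ ∀ v : E3 → E3, AxF v → (∃ K : ℝ, ∀ j : Fin 3, DB 4 K (fun x => v x j)) → ∀ ρ z : ℝ, 0 < ρ →
    ∫ x in Metric.ball (axp z) ρ, (rad x * |sP v x|) ^ 6 ≤ C * (∫ x, ‖v x‖ ^ 2) ^ 3 := by
  obtain ⟨C, hC1, HC⟩ := So_zc
  have hC : 0 < C := by linarith
  have hSB := SB_pos
  have hpos : 0 < (SB * (12 * (3 + C) ^ 2)) ^ 3 := by positivity
  refine ⟨8 * (SB * (12 * (3 + C) ^ 2)) ^ 3 + 1, by linarith, ?_⟩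
  intro v hv hdb ρ z hρ
  have hV : Vf v := ⟨hv.smooth, hv.div, hdb⟩
  obtain ⟨-, -, -, hE, -⟩ := ba_vf hV
  obtain ⟨hPi, hPle⟩ := sP_L2 hv hE
  set E := ∫ x, ‖v x‖ ^ 2 with hEdef
  have hE0 : 0 ≤ E := integral_nonneg fun x => by positivity
  have hP : ContDiff ℝ ∞ (sP v) := sP_smooth hv
  have hPd : Differentiable ℝ (sP v) := hP.differentiable (by simp)
  have hρ2 : ρ < 2 * ρ := by linarith
  set ζ : E3 → ℝ := fun x => zc ρ (2 * ρ) (x - axp z) with hζ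
  have hζs : ContDiff ℝ ∞ ζ := (zc_smooth ρ (2 * ρ)).comp (contDiff_id.sub contDiff_const)
  have hζd : Differentiable ℝ ζ := hζs.differentiable (by simp)
  have hζ0 : ∀ x, 0 ≤ ζ x := fun x => zc_nonneg _ _ _
  have hζ1 : ∀ x, ζ x ≤ 1 := fun x => zc_le _ _ _
  have hζp : ∀ (j : Fin 3) (x : E3), pd j ζ x = pd j (zc ρ (2 * ρ)) (x - axp z) := fun j x =>
    So_tr (axp z) x ((zc_smooth ρ (2 * ρ)).differentiable (by simp) _) j
  have hAs : ∀ i : Fin 3, ContDiff ℝ ∞ (fun x : E3 => x i * sP v x) := fun i =>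
    ((EuclideanSpace.proj i : E3 →L[ℝ] ℝ).contDiff).mul hP
  set G : Fin 3 → E3 → ℝ := fun i x => (x i * sP v x) * ζ x with hG
  have hGs : ∀ i, ContDiff ℝ ∞ (G i) := fun i => (hAs i).mul hζs
  have hGc : ∀ i, HasCompactSupport (G i) := by
    intro i
    refine HasCompactSupport.of_support_subset_isCompact (isCompact_closedBall (axp z) (2 * ρ)) ?_
    intro x hx
    rw [Metric.mem_closedBall, dist_eq_norm]
    by_contra h
    push Not at h
    apply hx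
    show (x i * sP v x) * zc ρ (2 * ρ) (x - axp z) = 0
    rw [zc_zero hρ hρ2 h.le, mul_zero]
  have hGp : ∀ i : Fin 3, i ≠ 2 → ∀ (x : E3) (j : Fin 3), |pd j (G i) x| ≤ (3 + C) * |sP v x| + ‖v x‖ := by
    intro i hi x j
    have e1 : pd j (G i) x = pd j (fun y : E3 => y i * sP v y) x * ζ x + (x i * sP v x) * pd j ζ x :=
      Psi_mul ((hAs i).differentiable (by simp) x) (hζd x) j
    have e2 : |pd j (fun y : E3 => y i * sP v y) x * ζ x| ≤ 3 * |sP v x| + ‖v x‖ := by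
      rw [abs_mul, abs_of_nonneg (hζ0 x)]
      have h1 := So_pA hv hi x j
      have h2 := abs_nonneg (pd j (fun y : E3 => y i * sP v y) x)
      nlinarith only [hζ1 x, hζ0 x, h1, h2]
    have e3 : |(x i * sP v x) * pd j ζ x| ≤ C * |sP v x| := by
      rw [hζp, abs_mul, abs_mul]
      have h1 := HC ρ hρ (x - axp z) j
      have h2 : |x i| ≤ ‖x - axp z‖ := (So_xi hi x).trans (So_rad x z)
      have h3 : |x i| * |pd j (zc ρ (2 * ρ)) (x - axp z)| ≤ C :=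
        (mul_le_mul_of_nonneg_right h2 (abs_nonneg _)).trans h1
      calc |x i| * |sP v x| * |pd j (zc ρ (2 * ρ)) (x - axp z)|
          = (|x i| * |pd j (zc ρ (2 * ρ)) (x - axp z)|) * |sP v x| := by ring
        _ ≤ C * |sP v x| := mul_le_mul_of_nonneg_right h3 (abs_nonneg _)
    rw [e1]
    have e4 := abs_add_le (pd j (fun y : E3 => y i * sP v y) x * ζ x) ((x i * sP v x) * pd j ζ x)
    linarith
  have hGg : ∀ i : Fin 3, i ≠ 2 → ∀ x : E3, gsq (G i) x ≤ 6 * (3 + C) ^ 2 * (sP v x ^ 2 + ‖v x‖ ^ 2) := by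
    intro i hi x
    have h1 : ∀ j : Fin 3, pd j (G i) x ^ 2 ≤ 2 * (3 + C) ^ 2 * (sP v x ^ 2 + ‖v x‖ ^ 2) := by
      intro j
      have h2 := hGp i hi x j
      have h3 : pd j (G i) x ^ 2 ≤ ((3 + C) * |sP v x| + ‖v x‖) ^ 2 := by
        rw [← sq_abs (pd j (G i) x)]
        exact pow_le_pow_left₀ (abs_nonneg _) h2 2
      have h4 : ((3 + C) * |sP v x| + ‖v x‖) ^ 2 ≤ 2 * ((3 + C) ^ 2 * sP v x ^ 2 + ‖v x‖ ^ 2) := by
        have h5 := sq_abs (sP v x)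
        nlinarith only [sq_nonneg ((3 + C) * |sP v x| - ‖v x‖), h5]
      have h5 : ‖v x‖ ^ 2 ≤ (3 + C) ^ 2 * ‖v x‖ ^ 2 := by
        have : 1 ≤ (3 + C) ^ 2 := by nlinarith only [hC1]
        nlinarith only [sq_nonneg ‖v x‖, this]
      linarith only [h3, h4, h5]
    unfold gsq
    rw [Fin.sum_univ_three]
    linarith [h1 0, h1 1, h1 2]
  have hGi : ∀ i : Fin 3, i ≠ 2 → Integrable (fun x => G i x ^ 6) ∧ ∫ x, G i x ^ 6 ≤ (SB * (12 * (3 + C) ^ 2) * E) ^ 3 := by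
    intro i hi
    obtain ⟨K, hK⟩ := Hol_DB ((hGs i).of_le (by norm_cast)) (hGc i)
    obtain ⟨h1, h2⟩ := SB_spec ((hGs i).of_le (by norm_cast)) hK
    refine ⟨h1, ?_⟩
    have h3 : ∫ x, gsq (G i) x ≤ 12 * (3 + C) ^ 2 * E := by
      have h4 : ∫ x, gsq (G i) x ≤ ∫ x, 6 * (3 + C) ^ 2 * (sP v x ^ 2 + ‖v x‖ ^ 2) :=
        integral_mono_of_nonneg (ae_of_all _ fun x => gsq_nonneg _ _) ((hPi.add hE).const_mul _)
          (ae_of_all _ fun x => hGg i hi x)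
      have h5 : ∫ x, 6 * (3 + C) ^ 2 * (sP v x ^ 2 + ‖v x‖ ^ 2) = 6 * (3 + C) ^ 2 * ((∫ x, sP v x ^ 2) + E) := by
        rw [integral_const_mul, integral_add hPi hE]
      rw [h5] at h4
      have h6 : 6 * (3 + C) ^ 2 * ((∫ x, sP v x ^ 2) + E) ≤ 6 * (3 + C) ^ 2 * (E + E) := by
        gcongr
      linarith
    have h4 : 0 ≤ ∫ x, G i x ^ 6 := integral_nonneg fun x => by positivity
    have h5 : (∫ x, G i x ^ 6) ^ (1/3 : ℝ) ≤ SB * (12 * (3 + C) ^ 2) * E := by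
      refine h2.trans ?_
      rw [mul_assoc]
      exact mul_le_mul_of_nonneg_left h3 hSB.le
    have h6 : ((∫ x, G i x ^ 6) ^ (1/3 : ℝ)) ^ 3 = ∫ x, G i x ^ 6 := by
      rw [← Real.rpow_natCast, ← Real.rpow_mul h4]
      norm_num
    rw [← h6]
    exact pow_le_pow_left₀ (Real.rpow_nonneg h4 _) h5 3
  obtain ⟨i0, l0⟩ := hGi 0 (by decide)
  obtain ⟨i1, l1⟩ := hGi 1 (by decide)
  have hpt : ∀ x ∈ Metric.ball (axp z) ρ, (rad x * |sP v x|) ^ 6 ≤ 4 * (G 0 x ^ 6 + G 1 x ^ 6) := by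
    intro x hx
    rw [Metric.mem_ball, dist_eq_norm] at hx
    have hz : ζ x = 1 := zc_one hρ hρ2 hx.le
    have e0 : G 0 x = x 0 * sP v x := by
      show x 0 * sP v x * ζ x = _
      rw [hz, mul_one]
    have e1 : G 1 x = x 1 * sP v x := by
      show x 1 * sP v x * ζ x = _
      rw [hz, mul_one]
    have e2 : (rad x * |sP v x|) ^ 6 = (G 0 x ^ 2 + G 1 x ^ 2) ^ 3 := by
      rw [e0, e1]
      have : (rad x * |sP v x|) ^ 2 = (x 0 * sP v x) ^ 2 + (x 1 * sP v x) ^ 2 := by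
        rw [mul_pow, rad_sq', sq_abs]
        unfold rsq
        ring
      rw [← this]
      ring
    rw [e2]
    have ha : 0 ≤ G 0 x ^ 2 := sq_nonneg _
    have hb : 0 ≤ G 1 x ^ 2 := sq_nonneg _
    have e3 : G 0 x ^ 6 = (G 0 x ^ 2) ^ 3 := by ring
    have e4 : G 1 x ^ 6 = (G 1 x ^ 2) ^ 3 := by ring
    rw [e3, e4]
    linarith only [mul_nonneg (add_nonneg ha hb) (sq_nonneg (G 0 x ^ 2 - G 1 x ^ 2)), ha, hb]
  have hfin : ∫ x in Metric.ball (axp z) ρ, (rad x * |sP v x|) ^ 6 ≤ 8 * (SB * (12 * (3 + C) ^ 2) * E) ^ 3 := by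
    have hi : Integrable (fun x => 4 * (G 0 x ^ 6 + G 1 x ^ 6)) := (i0.add i1).const_mul 4
    have hc : Continuous (fun x : E3 => (rad x * |sP v x|) ^ 6) := by
      have h1 : Continuous rad := by
        unfold rad
        fun_prop
      exact (h1.mul hP.continuous.abs).pow 6
    calc ∫ x in Metric.ball (axp z) ρ, (rad x * |sP v x|) ^ 6
        ≤ ∫ x in Metric.ball (axp z) ρ, 4 * (G 0 x ^ 6 + G 1 x ^ 6) :=
          setIntegral_mono_on (Crit_ball hc _ _) hi.integrableOn Metric.isOpen_ball.measurableSet hpt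
      _ ≤ ∫ x, 4 * (G 0 x ^ 6 + G 1 x ^ 6) := setIntegral_le_integral hi (Eventually.of_forall fun x => by positivity)
      _ = 4 * ((∫ x, G 0 x ^ 6) + ∫ x, G 1 x ^ 6) := by rw [integral_const_mul, integral_add i0 i1]
      _ ≤ _ := by linarith
  refine hfin.trans ?_
  have h1 : (SB * (12 * (3 + C) ^ 2) * E) ^ 3 = (SB * (12 * (3 + C) ^ 2)) ^ 3 * E ^ 3 := by ring
  rw [h1]
  have h2 : 0 ≤ E ^ 3 := by positivity
  linarith only [h2]

theorem near {T : ℝ} {u : ℝ → E3 → E3} {p : ℝ → E3 → ℝ} (h : IsHInfAxisymNS T u p) :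
    ∃ b κ : ℝ, 0 < b ∧ 1 ≤ κ ∧ ∀ t ∈ Ico 0 T, ∀ x, rad x ≤ b → |circ (u t) x| ≤ κ := by
  rcases le_or_gt T 0 with hT | hT
  · exact ⟨1, 1, one_pos, le_rfl, fun t ht => absurd ht.2 (by linarith [ht.1])⟩
  obtain ⟨C₆, hC₆, H6⟩ := so6
  obtain ⟨C₁, hC₁, H1⟩ := moC
  set ρ := min 1 (√(T / 4)) with hρdef
  have hT4 : 0 < T / 4 := by linarith
  have hρ : 0 < ρ := lt_min one_pos (Real.sqrt_pos.2 hT4)
  have hρ1 : ρ ≤ 1 := min_le_left _ _
  have hρT : ρ ^ 2 ≤ T / 4 := by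
    calc ρ ^ 2 ≤ √(T / 4) ^ 2 := pow_le_pow_left₀ hρ.le (min_le_right _ _) 2
      _ = _ := Real.sq_sqrt hT4.le
  have hρ2 : 0 < ρ ^ 2 := by positivity
  obtain ⟨K, hK⟩ := h.ns.bounded (T / 2) (by linarith)
  set E₀ := ∫ x, ‖u 0 x‖ ^ 2 with hE₀
  have hE₀0 : 0 ≤ E₀ := integral_nonneg fun x => by positivity
  set Λ := 5 + ρ⁻¹ ^ 3 * (C₆ * E₀ ^ 3) with hΛ
  have hC₆0 : 0 < C₆ := by linarith
  have hΛ0 : 0 ≤ ρ⁻¹ ^ 3 * (C₆ * E₀ ^ 3) := by positivity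
  have hΛ1 : 1 ≤ Λ := by rw [hΛ]; linarith
  set M := ρ⁻¹ ^ 3 * ((ρ / 2) ^ 2 * E₀) + 1 with hM
  have hM0 : 0 < M := by positivity
  set Q := C₁ * Λ ^ 5 * M with hQ
  refine ⟨ρ / 8, max 1 (max (√Q) (ρ / 8 * K)), by positivity, le_max_left _ _, ?_⟩
  intro t ht x hx
  rcases lt_or_ge t (T / 2) with htT | htT
  · have h1 := circ_le (u t) x
    have h2 := hK t ⟨ht.1, htT.le⟩ x
    refine (h1.trans ?_).trans ((le_max_right _ _).trans (le_max_right _ _))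
    exact mul_le_mul hx h2 (norm_nonneg _) (by positivity)
  refine le_trans ?_ ((le_max_left _ _).trans (le_max_right _ _))
  have hρt : ρ ^ 2 < t := by linarith
  set z := x 2 with hz
  have hm : ∀ s ∈ Icc (-1 : ℝ) 0, t + ρ ^ 2 * s ∈ Ico 0 T := fun s hs =>
    ⟨by nlinarith only [hs.1, hρT, hρ2, htT], by nlinarith only [hs.2, ht.2]⟩
  have hA4 : ∀ s ∈ Icc (-1 : ℝ) 0, A4 (fun y => ρ * sP (u (t + ρ ^ 2 * s)) (axp z + ρ • y)) ≤ Λ := by
    intro s hs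
    have hms := hm s hs
    set w := u (t + ρ ^ 2 * s) with hw
    have hax : AxF w := axF_of h.ns hms
    obtain ⟨hi, hle⟩ := LamA_energy h hms
    obtain ⟨K', hK'⟩ := uDB h hms.2
    have h6 := H6 w hax ⟨K', fun j => hK' _ ⟨hms.1, le_rfl⟩ j⟩ ρ z hρ
    have hP : Continuous (sP w) := (sP_smooth hax).continuous
    have hrc : Continuous rad := by
      unfold rad
      fun_prop
    have hX : Continuous (fun y : E3 => axp z + ρ • y) := by fun_prop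
    have hc6 : Continuous (fun x : E3 => (rad x * |sP w x|) ^ 6) := (hrc.mul hP.abs).pow 6
    have hc6' : Continuous (fun y : E3 => (rad (axp z + ρ • y) * |sP w (axp z + ρ • y)|) ^ 6) := hc6.comp hX
    have hrq : Continuous (rsq : E3 → ℝ) := MoA_rsq_cont
    have hc4 : Continuous (fun y : E3 => rsq y ^ 2 * (ρ * sP w (axp z + ρ • y)) ^ 4) :=
      (hrq.pow 2).mul ((continuous_const.mul (hP.comp hX)).pow 4)
    have e1 : A4 (fun y => ρ * sP w (axp z + ρ • y)) ≤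
        ∫ y in Metric.ball (0 : E3) 1, (1 + (rad (axp z + ρ • y) * |sP w (axp z + ρ • y)|) ^ 6) := by
      unfold A4
      refine setIntegral_mono_on (Crit_ball hc4 _ _) (Crit_ball (continuous_const.add hc6') _ _)
        Metric.isOpen_ball.measurableSet fun y _ => ?_
      have h2 : rsq y ^ 2 * (ρ * sP w (axp z + ρ • y)) ^ 4 = ((rad (axp z + ρ • y) * |sP w (axp z + ρ • y)|) ^ 2) ^ 2 := by
        rw [mul_pow (rad _), rad_sq', sq_abs, A4s_rsq]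
        ring
      rw [h2]
      set a := (rad (axp z + ρ • y) * |sP w (axp z + ρ • y)|) ^ 2 with ha
      have ha0 : 0 ≤ a := sq_nonneg _
      have h3 : (rad (axp z + ρ • y) * |sP w (axp z + ρ • y)|) ^ 6 = a ^ 3 := by rw [ha]; ring
      rw [h3]
      rcases le_total a 1 with h4 | h4
      · have : a ^ 2 ≤ 1 := pow_le_one₀ ha0 h4
        have : 0 ≤ a ^ 3 := by positivity
        linarith
      · have : a ^ 2 * 1 ≤ a ^ 2 * a := mul_le_mul_of_nonneg_left h4 (sq_nonneg _)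
        linarith only [this]
    have e2 : ∫ y in Metric.ball (0 : E3) 1, (1 + (rad (axp z + ρ • y) * |sP w (axp z + ρ • y)|) ^ 6) =
        (volume : Measure E3).real (Metric.ball 0 1) +
          ρ⁻¹ ^ 3 * ∫ x in Metric.ball (axp z) ρ, (rad x * |sP w x|) ^ 6 := by
      rw [integral_add (Crit_ball continuous_const _ _) (Crit_ball hc6' _ _), ball_cov (fun x => (rad x * |sP w x|) ^ 6) hρ z,
        setIntegral_const, smul_eq_mul, mul_one]
    have e3 := Crit_vol (0 : E3) one_pos le_rfl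
    have e4 : (∫ x, ‖w x‖ ^ 2) ^ 3 ≤ E₀ ^ 3 := pow_le_pow_left₀ (integral_nonneg fun x => by positivity) hle 3
    have e5 : ρ⁻¹ ^ 3 * ∫ x in Metric.ball (axp z) ρ, (rad x * |sP w x|) ^ 6 ≤ ρ⁻¹ ^ 3 * (C₆ * E₀ ^ 3) := by
      refine mul_le_mul_of_nonneg_left (h6.trans ?_) (by positivity)
      exact mul_le_mul_of_nonneg_left e4 hC₆0.le
    rw [e2] at e1
    rw [hΛ]
    linarith
  have hA40 : ∀ f : E3 → ℝ, 0 ≤ A4 f := fun f => integral_nonneg fun x => by positivity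
  have h1 : ∫ s in (-1 : ℝ)..0, A4 (fun y => ρ * sP (u (t + ρ ^ 2 * s)) (axp z + ρ • y)) ^ 5 ≤ Λ ^ 5 := by
    have h2 := intervalIntegral.norm_integral_le_of_norm_le_const (a := (-1 : ℝ)) (b := 0) (C := Λ ^ 5)
      (f := fun s => A4 (fun y => ρ * sP (u (t + ρ ^ 2 * s)) (axp z + ρ • y)) ^ 5) (by
        intro s hs
        rw [uIoc_of_le (by norm_num : (-1 : ℝ) ≤ 0)] at hs
        have h3 := hA4 s ⟨hs.1.le, hs.2⟩
        rw [Real.norm_eq_abs, abs_of_nonneg (pow_nonneg (hA40 _) 5)]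
        exact pow_le_pow_left₀ (hA40 _) h3 5)
    have h3 : |(0:ℝ) - (-1)| = 1 := by norm_num
    rw [h3, mul_one] at h2
    exact (le_abs_self _).trans h2
  have hcrc := ns_crc h.ns ht.2 hρ hρt z
  have hdd : ∀ s : ℝ, deriv (deriv fun s : ℝ => s ^ 2) s = 2 := by
    intro s
    have : deriv (fun s : ℝ => s ^ 2) = fun s => 2 * s := by
      funext s; simp
    rw [this]
    simp
  have h2 := H1 _ _ _ hcrc Λ hΛ1 h1 (fun s => s ^ 2) (by fun_prop) (by norm_num)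
    (fun s _ y _ => ⟨sq_nonneg _, by rw [hdd]; norm_num⟩) M hM0 (by
      intro s hs
      have hm' : t + ρ ^ 2 * s ∈ Ico 0 T := hm s ⟨by linarith [hs.1], hs.2⟩
      obtain ⟨hi, hle⟩ := LamA_energy h hm'
      have e1 := ball_cov2 (fun x => circ (u (t + ρ ^ 2 * s)) x ^ 2) hρ z
      show ∫ x in Metric.ball (0 : E3) (1/2), circ (u (t + ρ ^ 2 * s)) (axp z + ρ • x) ^ 2 ≤ M
      rw [e1]
      have hcc : Continuous (circ (u (t + ρ ^ 2 * s))) := (VRep_circ_smooth (axF_of h.ns hm').smooth).continuous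
      have e2 : ∫ x in Metric.ball (axp z) (ρ / 2), circ (u (t + ρ ^ 2 * s)) x ^ 2 ≤
          ∫ x in Metric.ball (axp z) (ρ / 2), (ρ / 2) ^ 2 * ‖u (t + ρ ^ 2 * s) x‖ ^ 2 := by
        refine setIntegral_mono_on ?_ ?_ Metric.isOpen_ball.measurableSet fun x hx => ?_
        · exact Crit_ball (hcc.pow 2) _ _
        · exact (hi.const_mul _).integrableOn
        · have b1 := circ_le (u (t + ρ ^ 2 * s)) x
          have b2 := StepA_rad x z
          rw [Metric.mem_ball, dist_eq_norm] at hx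
          have b3 : |circ (u (t + ρ ^ 2 * s)) x| ≤ (ρ / 2) * ‖u (t + ρ ^ 2 * s) x‖ :=
            b1.trans (by gcongr; linarith only [hx, b2])
          calc circ (u (t + ρ ^ 2 * s)) x ^ 2 = |circ (u (t + ρ ^ 2 * s)) x| ^ 2 := (sq_abs _).symm
            _ ≤ ((ρ / 2) * ‖u (t + ρ ^ 2 * s) x‖) ^ 2 := pow_le_pow_left₀ (abs_nonneg _) b3 2
            _ = _ := by ring
      have e3 : ∫ x in Metric.ball (axp z) (ρ / 2), (ρ / 2) ^ 2 * ‖u (t + ρ ^ 2 * s) x‖ ^ 2 ≤ (ρ / 2) ^ 2 * E₀ := by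
        calc _ ≤ ∫ x, (ρ / 2) ^ 2 * ‖u (t + ρ ^ 2 * s) x‖ ^ 2 :=
              setIntegral_le_integral (hi.const_mul _) (Eventually.of_forall fun x => by positivity)
          _ = (ρ / 2) ^ 2 * ∫ x, ‖u (t + ρ ^ 2 * s) x‖ ^ 2 := integral_const_mul _ _
          _ ≤ _ := by gcongr
      have e4 : ρ⁻¹ ^ 3 * ∫ x in Metric.ball (axp z) (ρ / 2), circ (u (t + ρ ^ 2 * s)) x ^ 2 ≤ ρ⁻¹ ^ 3 * ((ρ / 2) ^ 2 * E₀) := by
        gcongr
        exact e2.trans e3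
      rw [hM]
      linarith)
  have h3 := StepA_sc (T := T) (u := u) (t := t) (z := z) (τ := 1/4) (r := 1/4) hρ
    (P := fun s => s ^ 2 ≤ Q) (by norm_num) h2 t
    ⟨by linarith only [hρ2], le_rfl⟩ x (by
      rw [Metric.mem_ball, dist_eq_norm, hz, Crit_axp]
      linarith)
  rw [← Real.sqrt_sq_eq_abs]
  exact Real.sqrt_le_sqrt h3

end Pool.Agent.H94.WL
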