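/-
ROW Ad (MP_09540e_WL). The divergence of `v Φ`, `Φ = wt R L z`. PROOF. dv = adv: as in a_g of TU/Ad0.lean (div v = 0, pd_comp; Psi_mul). Φ is rotation invariant (depends on rsq x and x 2; rot_inv in H72/CC/Psi.lean: `rsq x * pd i Φ x = x i * rdr Φ x` for i = 0, 1), so for rsq x > 0: `v₀ pd 0 Φ + v₁ pd 1 Φ = radFlux v x * rdr Φ x / rsq x`, `|radFlux| = rad |ur|` (ur_f),
`|rdr Φ| = rad hg Φ` (squares: rsq² (pd 0² + pd 1²) = rsq rdr²), so it is `≤ |ur| hg Φ ≤ (2/R) |ur| Φ` (wt_h in TU/Wa.lean). If rsq x = 0 then x 0 = x 1 = 0 and v₀ = v₁ = 0 (ur_f). The third: `|v₂ pd 2 Φ| ≤ |v₂| Φ / L` (wt_z). adv w f x = ∑ w i * pd i f x.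
-/
import Pool.Agent.H94.WL.Fa
import Pool.Agent.H16.TU.Ad0

set_option autoImplicit false

open Set Filter Topology MeasureTheory
open scoped ContDiff

namespace Pool.Agent.H94.WL

open Pool.Agent.H16 Pool.Agent.H87.NS Pool.Agent.H72.CC Pool.Agent.H16.TU

private theorem Ad_rot (R L z θ : ℝ) (x : E3) : wt R L z (rot θ x) = wt R L z x := by
  have h1 : rsq (rot θ x) = rsq x := by
    have a0 : rot θ x 0 = Real.cos θ * x 0 - Real.sin θ * x 1 := rfl
    have a1 : rot θ x 1 = Real.sin θ * x 0 + Real.cos θ * x 1 := rfl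
    unfold rsq
    rw [a0, a1]
    linear_combination (x 0 ^ 2 + x 1 ^ 2) * Real.sin_sq_add_cos_sq θ
  have h2 : rot θ x 2 = x 2 := rfl
  unfold wt
  rw [h1, h2]

private theorem Ad_h {R L : ℝ} {v : E3 → E3} (h : AxF v) (hR : 0 < R) (hL : 0 < L) (z : ℝ) (x : E3) :
    |v x 0 * pd 0 (wt R L z) x + v x 1 * pd 1 (wt R L z) x| ≤ 2 / R * (|ur v x| * wt R L z x) := by
  have hw : 0 ≤ wt R L z x := (wt_pos hR hL z x).le
  obtain ⟨f0, f1, -, -, -, -⟩ := ur_f h x
  have hg1 := (wt_h hR hL z x).1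
  have hhg : 0 ≤ hg (wt R L z) x := Real.sqrt_nonneg _
  have hrad : 0 ≤ rad x := rad_nonneg x
  obtain ⟨r0, r1, -⟩ := rot_inv (wt_sm hR hL z) (fun θ y => Ad_rot R L z θ y) x
  set P := pd 0 (wt R L z) x with hP
  set Q := pd 1 (wt R L z) x with hQ
  set D := rdr (wt R L z) x with hD
  have hDe : D = x 0 * P + x 1 * Q := rfl
  have hh2 : hg (wt R L z) x ^ 2 = P ^ 2 + Q ^ 2 := Real.sq_sqrt (by positivity)
  have hr2 : rad x ^ 2 = rsq x := rad_sq' x
  have hrr : rsq x = x 0 ^ 2 + x 1 ^ 2 := rfl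
  have key : |v x 0 * P + v x 1 * Q| ≤ |ur v x| * hg (wt R L z) x := by
    have hs : 0 ≤ rsq x := by rw [hrr]; positivity
    rcases hs.eq_or_lt with h0 | h0
    · have e0 : x 0 = 0 := by
        have : x 0 ^ 2 = 0 := by nlinarith [sq_nonneg (x 0), sq_nonneg (x 1)]
        exact pow_eq_zero_iff (n := 2) (by norm_num) |>.1 this
      have e1 : x 1 = 0 := by
        have : x 1 ^ 2 = 0 := by nlinarith [sq_nonneg (x 0), sq_nonneg (x 1)]
        exact pow_eq_zero_iff (n := 2) (by norm_num) |>.1 this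
      rw [f0, f1, e0, e1]
      simp only [zero_mul, sub_zero, add_zero, abs_zero]
      exact mul_nonneg (abs_nonneg _) hhg
    · have e1 : v x 0 * P + v x 1 * Q = sW v x * D := by
        refine mul_left_cancel₀ h0.ne' ?_
        have : rsq x * (v x 0 * P + v x 1 * Q) = v x 0 * (rsq x * P) + v x 1 * (rsq x * Q) := by ring
        rw [this, r0, r1, f0, f1, hrr]
        ring
      have e2 : D ^ 2 = rsq x * (P ^ 2 + Q ^ 2) := by
        refine mul_left_cancel₀ h0.ne' ?_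
        have a1 : rsq x * (rsq x * (P ^ 2 + Q ^ 2)) = (rsq x * P) ^ 2 + (rsq x * Q) ^ 2 := by ring
        rw [a1, r0, r1, hrr]
        ring
      rw [e1]
      refine abs_le_of_sq_le_sq ?_ (mul_nonneg (abs_nonneg _) hhg)
      have e3 : (|ur v x| * hg (wt R L z) x) ^ 2 = (sW v x * D) ^ 2 := by
        rw [mul_pow, mul_pow, sq_abs, hh2, e2, ← hr2]
        unfold ur
        ring
      rw [e3]
  refine key.trans ?_
  calc |ur v x| * hg (wt R L z) x ≤ |ur v x| * (2 / R * wt R L z x) := mul_le_mul_of_nonneg_left hg1 (abs_nonneg _)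
    _ = 2 / R * (|ur v x| * wt R L z x) := by ring

theorem a_g {R L : ℝ} {v : E3 → E3} (h : AxF v) (hR : 0 < R) (hL : R ≤ L) (z : ℝ) (x : E3) :
    dv (fun k y => v y k * wt R L z y) x = adv (v x) (wt R L z) x ∧
    |v x 0 * pd 0 (wt R L z) x + v x 1 * pd 1 (wt R L z) x| ≤ 2 / R * (|ur v x| * wt R L z x) ∧
    |dv (fun k y => v y k * wt R L z y) x| ≤ 2 / R * (|ur v x| * wt R L z x) + 1 / L * (|v x 2| * wt R L z x) := by
  have hL0 : 0 < L := lt_of_lt_of_le hR hL
  have hsm : ContDiff ℝ ∞ (wt R L z) := wt_sm hR hL0 z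
  have hv := h.smooth
  have hvj : ∀ j : Fin 3, ContDiff ℝ ∞ (fun y => v y j) := fun j => by
    exact contDiff_euclidean.1 hv j
  have e1 : dv (fun k y => v y k * wt R L z y) x = adv (v x) (wt R L z) x := by
    unfold dv adv
    have h1 : ∀ k : Fin 3, pd k (fun y => v y k * wt R L z y) x =
        fderiv ℝ v x (e k) k * wt R L z x + v x k * pd k (wt R L z) x := by
      intro k
      rw [Psi_mul ((hvj k).differentiable (by simp)).differentiableAt
        (hsm.differentiable (by simp)).differentiableAt k, pd_comp hv]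
    simp only [h1]
    rw [Finset.sum_add_distrib, ← Finset.sum_mul, h.div x, zero_mul, zero_add]
  refine ⟨e1, Ad_h h hR hL0 z x, ?_⟩
  rw [e1]
  have h2 : adv (v x) (wt R L z) x = (v x 0 * pd 0 (wt R L z) x + v x 1 * pd 1 (wt R L z) x) +
      v x 2 * pd 2 (wt R L z) x := by
    unfold adv
    rw [Fin.sum_univ_three]
  rw [h2]
  refine (abs_add_le _ _).trans (add_le_add (Ad_h h hR hL0 z x) ?_)
  rw [abs_mul]
  have h3 : |pd 2 (wt R L z) x| ≤ 1 / L * wt R L z x := wt_z hR hL0 z x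
  calc |v x 2| * |pd 2 (wt R L z) x| ≤ |v x 2| * (1 / L * wt R L z x) :=
        mul_le_mul_of_nonneg_left h3 (abs_nonneg _)
    _ = 1 / L * (|v x 2| * wt R L z x) := by ring

end Pool.Agent.H94.WL
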