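/-
ROW Ld (MP_09540e_WL). A weighted planar Ladyzhenskaya inequality away from the axis. PROOF. Put `U (r,s) = v (mk (r,s)) 1` (smooth on ℝ × ℝ; by ur_f it is `r sV (mk (r,s))`, so `|U| = |ut v (mk (r,s))|` for r ≥ 0; `∂_r U = pd 0 v₁`, `∂_s U = pd 2 v₁` at mk (r,s), both `≤ √gv`), `W (r,s) = (1 + r²/R²)⁻¹ (1 + (s-z)²/L²)^(-1/2)`, so `W² = wt R L z (mk (r,s))` (mk_f),
`|∂_r W| ≤ W/R` (2y/(1+y²) ≤ 1, y = r/R), `|∂_s W| ≤ W/(2L) ≤ W/R`. Let `w = U² W ≥ 0`: `|∂_r w|, |∂_s w| ≤ J := (2|U| √gv + U²/R) W`, and w → 0 at infinity (U bounded, W → 0). With lintegrals (ENNReal.ofReal): for r ≥ b: `w(r,s) ≤ ∫_r^∞ |∂_r w| dr' ≤ (1/b) ∫_{r'>b} J(r',s) r' dr' =: A(s)` and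
`w(r,s) ≤ ∫_s^∞ |∂_s w| ds' ≤ ∫ J(r,s') ds' =: B(r)` (fundamental theorem on [r, n], [s, n] and n → ∞). So `∫_{r≥b} ∫_s w² r ≤ (∫ A(s) ds) (∫_{r≥b} B(r) r dr) ≤ (1/b) (∫_{r>0} ∫_s J r)²` and by `cyl` (H72/CC/Cyl.lean; all functions are functions of (rad x, x 2): v_cyl)
`∫_{b ≤ rad} ut⁴ wt dx = 2π ∫_{r≥b}∫ w² r ≤ (2π/b) ((1/2π) ∫ (2|ut| √gv + ut²/R) √wt dx)² ≤ (1/(2π b)) (∫ ut²) (∫ (2√gv + |ut|/R)² wt)` (Cauchy-Schwarz) `≤ (1/(2πb)) (∫‖v‖²) (8 DD + (2/R²) SS)`, and 8/(2π) ≤ 2. (ut² ≤ ‖v‖²: ur_f; gv, ‖v‖² integrable, bounded, continuous: ba_vf, ba_gvc.)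
-/
import Pool.Agent.H94.WL.Cy
import Pool.Agent.H94.WL.Fa

set_option autoImplicit false

open Set Filter Topology MeasureTheory
open scoped ContDiff

namespace Pool.Agent.H94.WL

open Pool.Agent.H16 Pool.Agent.H87.NS Pool.Agent.H72.CC Pool.Agent.H16.TU

theorem Ld_1d {u p G : ℝ → ℝ} {R : ℝ} (hu : ContDiff ℝ 1 u) (hp : ContDiff ℝ 1 p) (hp0 : ∀ x, 0 ≤ p x)
    (h1 : ∀ x, |deriv u x| ≤ G x) (h2 : ∀ x, |deriv p x| ≤ p x / R)
    (lim : Tendsto (fun x => u x ^ 2 * p x) atTop (𝓝 0)) (a : ℝ) :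
    ENNReal.ofReal (u a ^ 2 * p a) ≤ ∫⁻ x in Ioi a, ENNReal.ofReal ((2 * |u x| * G x + u x ^ 2 / R) * p x) := by
  set f : ℝ → ℝ := fun x => u x ^ 2 * p x with hf
  have hfc : ContDiff ℝ 1 f := (hu.pow 2).mul hp
  have hdc : Continuous (deriv f) := hfc.continuous_deriv le_rfl
  have hd : ∀ x, HasDerivAt f (deriv f x) x := fun x => (hfc.differentiable one_ne_zero x).hasDerivAt
  have hb : ∀ x, |deriv f x| ≤ (2 * |u x| * G x + u x ^ 2 / R) * p x := by
    intro x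
    have hu' := (hu.differentiable one_ne_zero x).hasDerivAt
    have hp' := (hp.differentiable one_ne_zero x).hasDerivAt
    have h3 : HasDerivAt f (2 * u x * deriv u x * p x + u x ^ 2 * deriv p x) x := by
      have h4 := (hu'.pow 2).mul hp'
      refine h4.congr_deriv ?_
      simp
    rw [h3.deriv]
    have h5 : |2 * u x * deriv u x * p x| ≤ 2 * |u x| * G x * p x := by
      rw [abs_mul, abs_mul, abs_mul, abs_of_nonneg (hp0 x), abs_two]
      exact mul_le_mul_of_nonneg_right (mul_le_mul_of_nonneg_left (h1 x) (by positivity)) (hp0 x)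
    have h6 : |u x ^ 2 * deriv p x| ≤ u x ^ 2 * (p x / R) := by
      rw [abs_mul, abs_of_nonneg (sq_nonneg (u x))]
      exact mul_le_mul_of_nonneg_left (h2 x) (sq_nonneg _)
    have h7 := abs_add_le (2 * u x * deriv u x * p x) (u x ^ 2 * deriv p x)
    have h8 : (2 * |u x| * G x + u x ^ 2 / R) * p x = 2 * |u x| * G x * p x + u x ^ 2 * (p x / R) := by ring
    rw [h8]
    linarith
  have key : ∀ n : ℝ, a ≤ n → ENNReal.ofReal (f a) ≤ ENNReal.ofReal (f n) +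
      ∫⁻ x in Ioi a, ENNReal.ofReal ((2 * |u x| * G x + u x ^ 2 / R) * p x) := by
    intro n hn
    have h4 : ∫ x in a..n, deriv f x = f n - f a :=
      intervalIntegral.integral_eq_sub_of_hasDerivAt (fun x _ => hd x) (hdc.intervalIntegrable _ _)
    have h5 : f a ≤ f n + ∫ x in a..n, |deriv f x| := by
      have h6 : |∫ x in a..n, deriv f x| ≤ ∫ x in a..n, |deriv f x| :=
        intervalIntegral.abs_integral_le_integral_abs hn
      rw [h4] at h6
      have h7 := (abs_le.mp h6).1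
      linarith
    have h7 : ENNReal.ofReal (∫ x in a..n, |deriv f x|) = ∫⁻ x in Ioc a n, ENNReal.ofReal |deriv f x| := by
      rw [intervalIntegral.integral_of_le hn]
      exact ofReal_integral_eq_lintegral_ofReal ((hdc.abs.intervalIntegrable a n).1)
        (Eventually.of_forall fun x => abs_nonneg _)
    calc ENNReal.ofReal (f a) ≤ ENNReal.ofReal (f n + ∫ x in a..n, |deriv f x|) := ENNReal.ofReal_le_ofReal h5
      _ ≤ ENNReal.ofReal (f n) + ENNReal.ofReal (∫ x in a..n, |deriv f x|) := ENNReal.ofReal_add_le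
      _ = ENNReal.ofReal (f n) + ∫⁻ x in Ioc a n, ENNReal.ofReal |deriv f x| := by rw [h7]
      _ ≤ _ := by
        refine add_le_add le_rfl ?_
        exact (lintegral_mono_set Ioc_subset_Ioi_self).trans
          (lintegral_mono fun x => ENNReal.ofReal_le_ofReal (hb x))
  have hlim : Tendsto (fun n => ENNReal.ofReal (f n) +
      ∫⁻ x in Ioi a, ENNReal.ofReal ((2 * |u x| * G x + u x ^ 2 / R) * p x)) atTop
      (𝓝 (0 + ∫⁻ x in Ioi a, ENNReal.ofReal ((2 * |u x| * G x + u x ^ 2 / R) * p x))) := by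
    have h8 := ENNReal.tendsto_ofReal lim
    rw [ENNReal.ofReal_zero] at h8
    exact h8.add tendsto_const_nhds
  rw [zero_add] at hlim
  exact ge_of_tendsto hlim ((eventually_ge_atTop a).mono key)

theorem Ld_qr {R : ℝ} (hR : 0 < R) : ContDiff ℝ 1 (fun r : ℝ => (1 + r ^ 2 / R ^ 2)⁻¹) ∧
    (∀ r : ℝ, |deriv (fun r : ℝ => (1 + r ^ 2 / R ^ 2)⁻¹) r| ≤ (1 + r ^ 2 / R ^ 2)⁻¹ / R) ∧
    Tendsto (fun r : ℝ => (1 + r ^ 2 / R ^ 2)⁻¹) atTop (𝓝 0) := by
  have hp : ∀ r : ℝ, 0 < 1 + r ^ 2 / R ^ 2 := fun r => by positivity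
  refine ⟨?_, ?_, ?_⟩
  · exact ContDiff.inv (by fun_prop) fun r => (hp r).ne'
  · intro r
    have h1 : HasDerivAt (fun r : ℝ => 1 + r ^ 2 / R ^ 2) (2 * r / R ^ 2) r := by
      have h2 := ((hasDerivAt_pow 2 r).div_const (R ^ 2)).const_add 1
      refine h2.congr_deriv ?_
      simp
    have h3 : HasDerivAt (fun r : ℝ => (1 + r ^ 2 / R ^ 2)⁻¹) (-(2 * r / R ^ 2) / (1 + r ^ 2 / R ^ 2) ^ 2) r :=
      h1.inv (hp r).ne'
    rw [h3.deriv, abs_div, abs_neg, abs_div, abs_mul, abs_two, abs_of_pos (show (0:ℝ) < R ^ 2 by positivity),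
      abs_of_pos (show (0:ℝ) < (1 + r ^ 2 / R ^ 2) ^ 2 by have := hp r; positivity)]
    have h4 : 2 * |r| / R ^ 2 ≤ (1 + r ^ 2 / R ^ 2) / R := by
      rw [div_le_div_iff₀ (by positivity) hR]
      have h5 : (1 + r ^ 2 / R ^ 2) * R ^ 2 = R ^ 2 + r ^ 2 := by field_simp
      rw [h5]
      nlinarith [sq_nonneg (R - |r|), sq_abs r]
    have h6 : 0 < 1 + r ^ 2 / R ^ 2 := hp r
    calc 2 * |r| / R ^ 2 / (1 + r ^ 2 / R ^ 2) ^ 2 ≤ (1 + r ^ 2 / R ^ 2) / R / (1 + r ^ 2 / R ^ 2) ^ 2 :=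
          div_le_div_of_nonneg_right h4 (by positivity)
      _ = (1 + r ^ 2 / R ^ 2)⁻¹ / R := by
        generalize 1 + r ^ 2 / R ^ 2 = q at h6
        field_simp
  · refine tendsto_inv_atTop_zero.comp ?_
    refine tendsto_atTop_add_const_left _ _ ?_
    exact (tendsto_pow_atTop two_ne_zero).atTop_div_const (by positivity)

theorem Ld_qs {R L : ℝ} (hR : 0 < R) (hL : R ≤ L) (z : ℝ) :
    ContDiff ℝ 1 (fun s : ℝ => (√(1 + (s - z) ^ 2 / L ^ 2))⁻¹) ∧
    (∀ s : ℝ, |deriv (fun s : ℝ => (√(1 + (s - z) ^ 2 / L ^ 2))⁻¹) s| ≤ (√(1 + (s - z) ^ 2 / L ^ 2))⁻¹ / R) ∧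
    Tendsto (fun s : ℝ => (√(1 + (s - z) ^ 2 / L ^ 2))⁻¹) atTop (𝓝 0) := by
  have hL0 : 0 < L := lt_of_lt_of_le hR hL
  have hp : ∀ s : ℝ, 0 < 1 + (s - z) ^ 2 / L ^ 2 := fun s => by positivity
  have hq : ∀ s : ℝ, 0 < √(1 + (s - z) ^ 2 / L ^ 2) := fun s => Real.sqrt_pos.mpr (hp s)
  refine ⟨?_, ?_, ?_⟩
  · refine ContDiff.inv (ContDiff.sqrt (by fun_prop) fun s => (hp s).ne') fun s => (hq s).ne'
  · intro s
    have h1 : HasDerivAt (fun s : ℝ => 1 + (s - z) ^ 2 / L ^ 2) (2 * (s - z) / L ^ 2) s := by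
      have h2 := ((((hasDerivAt_id s).sub_const z).pow 2).div_const (L ^ 2)).const_add 1
      refine h2.congr_deriv ?_
      simp
    have h3 := (h1.sqrt (hp s).ne').inv (hq s).ne'
    have h3' : deriv (fun s : ℝ => (√(1 + (s - z) ^ 2 / L ^ 2))⁻¹) s =
        -(2 * (s - z) / L ^ 2 / (2 * √(1 + (s - z) ^ 2 / L ^ 2))) / √(1 + (s - z) ^ 2 / L ^ 2) ^ 2 := h3.deriv
    rw [h3']
    have h4 : |s - z| / L ^ 2 ≤ (1 + (s - z) ^ 2 / L ^ 2) / R := by
      rw [div_le_div_iff₀ (by positivity) hR]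
      have h5 : (1 + (s - z) ^ 2 / L ^ 2) * L ^ 2 = L ^ 2 + (s - z) ^ 2 := by field_simp
      rw [h5]
      have h6 : |s - z| * R ≤ |s - z| * L := mul_le_mul_of_nonneg_left hL (abs_nonneg _)
      nlinarith [sq_nonneg (L - |s - z|), sq_abs (s - z), sq_nonneg L, sq_nonneg (s - z)]
    have hP := hp s
    have hQ := hq s
    have hsq : √(1 + (s - z) ^ 2 / L ^ 2) ^ 2 = 1 + (s - z) ^ 2 / L ^ 2 := Real.sq_sqrt hP.le
    have h7 : |(-(2 * (s - z) / L ^ 2 / (2 * √(1 + (s - z) ^ 2 / L ^ 2))) / √(1 + (s - z) ^ 2 / L ^ 2) ^ 2)| =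
        (√(1 + (s - z) ^ 2 / L ^ 2))⁻¹ * ((|s - z| / L ^ 2) / (1 + (s - z) ^ 2 / L ^ 2)) := by
      rw [hsq, abs_div, abs_neg, abs_div, abs_div, abs_mul, abs_mul, abs_two, abs_of_pos hP, abs_of_pos hQ,
        abs_of_pos (show (0:ℝ) < L ^ 2 by positivity)]
      generalize √(1 + (s - z) ^ 2 / L ^ 2) = q at hQ
      generalize 1 + (s - z) ^ 2 / L ^ 2 = P at hP
      field_simp
    rw [h7, div_eq_mul_inv _ R]
    refine mul_le_mul_of_nonneg_left ?_ (inv_pos.mpr hQ).le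
    rw [div_le_iff₀ hP]
    calc |s - z| / L ^ 2 ≤ (1 + (s - z) ^ 2 / L ^ 2) / R := h4
      _ = R⁻¹ * (1 + (s - z) ^ 2 / L ^ 2) := by rw [div_eq_mul_inv, mul_comm]
  · refine tendsto_inv_atTop_zero.comp ?_
    have h1 : Tendsto (fun s : ℝ => 1 + (s - z) ^ 2 / L ^ 2) atTop atTop := by
      refine tendsto_atTop_add_const_left _ _ ?_
      refine Tendsto.atTop_div_const (by positivity) ?_
      exact (tendsto_pow_atTop two_ne_zero).comp (tendsto_atTop_add_const_right _ (-z) tendsto_id)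
    exact Real.tendsto_sqrt_atTop.comp h1

theorem Ld_mk (y : ℝ × ℝ) : mk y = y.1 • e 0 + y.2 • e 2 := by
  ext i
  fin_cases i <;> simp [mk, e]

theorem Ld_mkc : Continuous mk := by
  have h : mk = fun y : ℝ × ℝ => y.1 • e 0 + y.2 • e 2 := by
    funext y
    exact Ld_mk y
  rw [h]
  fun_prop

theorem Ld_d0 {f : E3 → ℝ} (hf : ContDiff ℝ 1 f) (s : ℝ) : ContDiff ℝ 1 (fun r : ℝ => f (mk (r, s))) ∧
    ∀ r, deriv (fun r : ℝ => f (mk (r, s))) r = pd 0 f (mk (r, s)) := by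
  have h1 : (fun r : ℝ => f (mk (r, s))) = fun r : ℝ => f (r • e 0 + s • e 2) := by
    funext r
    rw [Ld_mk]
  rw [h1]
  constructor
  · exact hf.comp (by fun_prop)
  · intro r
    have h2 : HasDerivAt (fun r : ℝ => r • e 0 + s • e 2) (e 0) r := by
      have h3 := ((hasDerivAt_id r).smul_const (e 0)).add_const (s • e 2)
      refine h3.congr_deriv ?_
      simp
    have h4 := (hf.differentiable one_ne_zero (r • e 0 + s • e 2)).hasFDerivAt.comp_hasDerivAt r h2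
    rw [Ld_mk]
    exact h4.deriv

theorem Ld_d2 {f : E3 → ℝ} (hf : ContDiff ℝ 1 f) (r : ℝ) : ContDiff ℝ 1 (fun s : ℝ => f (mk (r, s))) ∧
    ∀ s, deriv (fun s : ℝ => f (mk (r, s))) s = pd 2 f (mk (r, s)) := by
  have h1 : (fun s : ℝ => f (mk (r, s))) = fun s : ℝ => f (r • e 0 + s • e 2) := by
    funext s
    rw [Ld_mk]
  rw [h1]
  constructor
  · exact hf.comp (by fun_prop)
  · intro s
    have h2 : HasDerivAt (fun s : ℝ => r • e 0 + s • e 2) (e 2) s := by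
      have h3 := ((hasDerivAt_id s).smul_const (e 2)).const_add (r • e 0)
      refine h3.congr_deriv ?_
      simp
    have h4 := (hf.differentiable one_ne_zero (r • e 0 + s • e 2)).hasFDerivAt.comp_hasDerivAt s h2
    rw [Ld_mk]
    exact h4.deriv

theorem Ld_cs {g h : E3 → ℝ} (hg0 : ∀ a, 0 ≤ g a) (hh0 : ∀ a, 0 ≤ h a)
    (hgm : Continuous g) (hhm : Continuous h)
    (hg : Integrable (fun a => g a ^ 2)) (hh : Integrable (fun a => h a ^ 2)) :
    (∫ a, g a * h a) ^ 2 ≤ (∫ a, g a ^ 2) * (∫ a, h a ^ 2) := by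
  have hp : (2:ℝ).HolderConjugate 2 := by
    rw [Real.holderConjugate_iff]
    norm_num
  have h2 : ENNReal.ofReal 2 = 2 := by norm_num
  have h1 := integral_mul_le_Lp_mul_Lq_of_nonneg (μ := (volume : Measure E3)) hp (Filter.Eventually.of_forall hg0)
    (Filter.Eventually.of_forall hh0)
    (by rw [h2]; exact (memLp_two_iff_integrable_sq hgm.aestronglyMeasurable).2 hg)
    (by rw [h2]; exact (memLp_two_iff_integrable_sq hhm.aestronglyMeasurable).2 hh)
  have h3 : ∫ a, g a * h a ≤ √(∫ a, g a ^ 2) * √(∫ a, h a ^ 2) := by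
    simpa [Real.sqrt_eq_rpow] using h1
  have h4 : 0 ≤ ∫ a, g a * h a := integral_nonneg fun a => mul_nonneg (hg0 a) (hh0 a)
  have h5 : 0 ≤ ∫ a, g a ^ 2 := integral_nonneg fun a => sq_nonneg _
  have h6 : 0 ≤ ∫ a, h a ^ 2 := integral_nonneg fun a => sq_nonneg _
  calc (∫ a, g a * h a) ^ 2 ≤ (√(∫ a, g a ^ 2) * √(∫ a, h a ^ 2)) ^ 2 := pow_le_pow_left₀ h4 h3 2
    _ = (∫ a, g a ^ 2) * (∫ a, h a ^ 2) := by rw [mul_pow, Real.sq_sqrt h5, Real.sq_sqrt h6]

theorem l2d {v : E3 → E3} (h : AxF v) (hv : Vf v) {R L z b : ℝ} (hR : 0 < R) (hL : R ≤ L) (hb : 0 < b) :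
    IntegrableOn (fun x => ut v x ^ 4 * wt R L z x) {x : E3 | b ≤ rad x} ∧
    ∫ x in {x : E3 | b ≤ rad x}, ut v x ^ 4 * wt R L z x ≤ (∫ x, ‖v x‖ ^ 2) / b * (2 * DD v (wt R L z) + 2 / R ^ 2 * SS v (wt R L z)) := by
  obtain ⟨K, hK0, hK, hvi, hgi⟩ := ba_vf hv
  have hL0 : 0 < L := lt_of_lt_of_le hR hL
  have hcomp : ContDiff ℝ ∞ (fun y => v y 1) := (EuclideanSpace.proj (1 : Fin 3) : E3 →L[ℝ] ℝ).contDiff.comp h.smooth
  have hcomp1 : ContDiff ℝ 1 (fun y => v y 1) := hcomp.of_le (by exact_mod_cast le_top)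
  obtain ⟨hgvc, hnc, -⟩ := ba_gvc h.smooth
  obtain ⟨-, hutc, -, -⟩ := ur_c h
  set U : ℝ × ℝ → ℝ := fun y => v (mk y) 1 with hU
  set W : ℝ × ℝ → ℝ := fun y => (1 + y.1 ^ 2 / R ^ 2)⁻¹ * (√(1 + (y.2 - z) ^ 2 / L ^ 2))⁻¹ with hW
  set J : ℝ × ℝ → ℝ := fun y => (2 * |U y| * √(gv v (mk y)) + U y ^ 2 / R) * W y with hJ
  obtain ⟨qr1, qr2, qr3⟩ := Ld_qr hR
  obtain ⟨qs1, qs2, qs3⟩ := Ld_qs hR hL z
  have hr0 : ∀ r : ℝ, 0 < (1 + r ^ 2 / R ^ 2)⁻¹ := fun r => by positivity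
  have hs0 : ∀ s : ℝ, 0 < (√(1 + (s - z) ^ 2 / L ^ 2))⁻¹ := fun s =>
    inv_pos.mpr (Real.sqrt_pos.mpr (by positivity))
  have hW0 : ∀ y, 0 ≤ W y := fun y => (mul_pos (hr0 _) (hs0 _)).le
  have hUK : ∀ y, |U y| ≤ K := by
    intro y
    have h1 := (ba_gv (v := v) (mk y) 0 0).2.2.2.2.2.2
    have h2 : |v (mk y) 1| ≤ ‖v (mk y)‖ := by
      have h3 := EuclideanSpace.norm_eq (v (mk y))
      rw [h3]
      refine Real.le_sqrt_of_sq_le ?_
      rw [Fin.sum_univ_three]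
      simp only [Real.norm_eq_abs, sq_abs]
      have := sq_nonneg (v (mk y) 0)
      have := sq_nonneg (v (mk y) 2)
      linarith
    exact h2.trans (hK (mk y)).1
  have hgv0 : ∀ x, 0 ≤ gv v x := fun x => (ba_gv (v := v) x 0 0).1
  have hJ0 : ∀ y, 0 ≤ J y := fun y => mul_nonneg (by positivity) (hW0 y)
  have hUc : Continuous U := hcomp.continuous.comp Ld_mkc
  have hWc : Continuous W := by
    have h1 := qr1.continuous
    have h2 := qs1.continuous
    exact (h1.comp continuous_fst).mul (h2.comp continuous_snd)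
  have hJc : Continuous J := by
    have h1 : Continuous (fun y : ℝ × ℝ => √(gv v (mk y))) := (hgvc.comp Ld_mkc).sqrt
    exact (((continuous_const.mul hUc.abs).mul h1).add ((hUc.pow 2).div_const R)).mul hWc
  set j : ℝ × ℝ → ENNReal := fun y => ENNReal.ofReal (J y) with hj
  have hjm : Measurable j := ENNReal.measurable_ofReal.comp hJc.measurable
  -- the two one-dimensional bounds
  have hA : ∀ r s : ℝ, ENNReal.ofReal (U (r, s) ^ 2 * W (r, s)) ≤ ∫⁻ r' in Ioi r, j (r', s) := by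
    intro r s
    have h1 := Ld_d0 hcomp1 s
    have hp1 : ContDiff ℝ 1 (fun r => W (r, s)) := by
      show ContDiff ℝ 1 (fun r : ℝ => (1 + r ^ 2 / R ^ 2)⁻¹ * (√(1 + (s - z) ^ 2 / L ^ 2))⁻¹)
      exact qr1.mul contDiff_const
    refine Ld_1d (u := fun r => U (r, s)) (p := fun r => W (r, s)) (G := fun r => √(gv v (mk (r, s)))) (R := R)
      h1.1 hp1 (fun x => hW0 _) ?_ ?_ ?_ r
    · intro x
      have h2 := h1.2 x
      have h3 : deriv (fun r => U (r, s)) x = pd 0 (fun y => v y 1) (mk (x, s)) := h2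
      rw [h3]
      exact Real.abs_le_sqrt (ba_gv (v := v) (mk (x, s)) 0 1).2.1
    · intro x
      have h2 : deriv (fun r => W (r, s)) x =
          deriv (fun r : ℝ => (1 + r ^ 2 / R ^ 2)⁻¹) x * (√(1 + (s - z) ^ 2 / L ^ 2))⁻¹ := by
        show deriv (fun r : ℝ => (1 + r ^ 2 / R ^ 2)⁻¹ * (√(1 + (s - z) ^ 2 / L ^ 2))⁻¹) x = _
        exact ((qr1.differentiable one_ne_zero x).hasDerivAt.mul_const _).deriv
      rw [h2, abs_mul, abs_of_pos (hs0 s)]
      calc |deriv (fun r : ℝ => (1 + r ^ 2 / R ^ 2)⁻¹) x| * (√(1 + (s - z) ^ 2 / L ^ 2))⁻¹ ≤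
            ((1 + x ^ 2 / R ^ 2)⁻¹ / R) * (√(1 + (s - z) ^ 2 / L ^ 2))⁻¹ :=
            mul_le_mul_of_nonneg_right (qr2 x) (hs0 s).le
        _ = W (x, s) / R := by
            show _ = ((1 + x ^ 2 / R ^ 2)⁻¹ * (√(1 + (s - z) ^ 2 / L ^ 2))⁻¹) / R
            ring
    · refine squeeze_zero (g := fun x => K ^ 2 * ((1 + x ^ 2 / R ^ 2)⁻¹ * (√(1 + (s - z) ^ 2 / L ^ 2))⁻¹))
        (fun x => mul_nonneg (sq_nonneg _) (hW0 _)) ?_ ?_
      · intro x
        refine mul_le_mul_of_nonneg_right ?_ (hW0 (x, s))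
        have h2 := pow_le_pow_left₀ (abs_nonneg _) (hUK (x, s)) 2
        rwa [sq_abs] at h2
      · have h2 := (qr3.mul_const (√(1 + (s - z) ^ 2 / L ^ 2))⁻¹).const_mul (K ^ 2)
        simpa using h2
  have hB : ∀ r s : ℝ, ENNReal.ofReal (U (r, s) ^ 2 * W (r, s)) ≤ ∫⁻ s', j (r, s') := by
    intro r s
    have h1 := Ld_d2 hcomp1 r
    have hp1 : ContDiff ℝ 1 (fun s => W (r, s)) := by
      show ContDiff ℝ 1 (fun s : ℝ => (1 + r ^ 2 / R ^ 2)⁻¹ * (√(1 + (s - z) ^ 2 / L ^ 2))⁻¹)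
      exact contDiff_const.mul qs1
    refine le_trans (Ld_1d (u := fun s => U (r, s)) (p := fun s => W (r, s)) (G := fun s => √(gv v (mk (r, s)))) (R := R)
      h1.1 hp1 (fun x => hW0 _) ?_ ?_ ?_ s) (setLIntegral_le_lintegral _ _)
    · intro x
      have h2 := h1.2 x
      have h3 : deriv (fun s => U (r, s)) x = pd 2 (fun y => v y 1) (mk (r, x)) := h2
      rw [h3]
      exact Real.abs_le_sqrt (ba_gv (v := v) (mk (r, x)) 2 1).2.1
    · intro x
      have h2 : deriv (fun s => W (r, s)) x =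
          (1 + r ^ 2 / R ^ 2)⁻¹ * deriv (fun s : ℝ => (√(1 + (s - z) ^ 2 / L ^ 2))⁻¹) x := by
        show deriv (fun s : ℝ => (1 + r ^ 2 / R ^ 2)⁻¹ * (√(1 + (s - z) ^ 2 / L ^ 2))⁻¹) x = _
        exact ((qs1.differentiable one_ne_zero x).hasDerivAt.const_mul _).deriv
      rw [h2, abs_mul, abs_of_pos (hr0 r)]
      calc (1 + r ^ 2 / R ^ 2)⁻¹ * |deriv (fun s : ℝ => (√(1 + (s - z) ^ 2 / L ^ 2))⁻¹) x| ≤
            (1 + r ^ 2 / R ^ 2)⁻¹ * ((√(1 + (x - z) ^ 2 / L ^ 2))⁻¹ / R) :=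
            mul_le_mul_of_nonneg_left (qs2 x) (hr0 r).le
        _ = W (r, x) / R := by
            show _ = ((1 + r ^ 2 / R ^ 2)⁻¹ * (√(1 + (x - z) ^ 2 / L ^ 2))⁻¹) / R
            ring
    · refine squeeze_zero (g := fun x => K ^ 2 * ((1 + r ^ 2 / R ^ 2)⁻¹ * (√(1 + (x - z) ^ 2 / L ^ 2))⁻¹))
        (fun x => mul_nonneg (sq_nonneg _) (hW0 _)) ?_ ?_
      · intro x
        refine mul_le_mul_of_nonneg_right ?_ (hW0 (r, x))
        have h2 := pow_le_pow_left₀ (abs_nonneg _) (hUK (r, x)) 2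
        rwa [sq_abs] at h2
      · have h2 := (qs3.const_mul (1 + r ^ 2 / R ^ 2)⁻¹).const_mul (K ^ 2)
        simpa using h2
  -- the total
  set M : ENNReal := ∫⁻ r in Ioi (0 : ℝ), ∫⁻ s : ℝ, ENNReal.ofReal r * j (r, s) with hM
  set B : ℝ → ENNReal := fun r => ∫⁻ s', j (r, s') with hBd
  set A : ℝ → ENNReal := fun s => ENNReal.ofReal (1 / b) * ∫⁻ r' in Ioi (0 : ℝ), ENNReal.ofReal r' * j (r', s) with hAd
  have hBm : Measurable B := hjm.lintegral_prod_right'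
  have hm2 : Measurable (fun q : ℝ × ℝ => ENNReal.ofReal q.1 * j (q.1, q.2)) :=
    (ENNReal.measurable_ofReal.comp measurable_fst).mul hjm
  have hm3 : Measurable (fun q : ℝ × ℝ => ENNReal.ofReal q.2 * j (q.2, q.1)) := hm2.comp measurable_swap
  have hm4 : Measurable (fun s : ℝ => ∫⁻ r' in Ioi (0 : ℝ), ENNReal.ofReal r' * j (r', s)) :=
    hm3.lintegral_prod_right'
  have hA2 : ∀ r s : ℝ, b ≤ r → ENNReal.ofReal (U (r, s) ^ 2 * W (r, s)) ≤ A s := by
    intro r s hr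
    have hm5 : Measurable (fun r' : ℝ => ENNReal.ofReal r' * j (r', s)) :=
      ENNReal.measurable_ofReal.mul (hjm.comp (measurable_id.prodMk measurable_const))
    calc ENNReal.ofReal (U (r, s) ^ 2 * W (r, s)) ≤ ∫⁻ r' in Ioi r, j (r', s) := hA r s
      _ ≤ ∫⁻ r' in Ioi r, ENNReal.ofReal (1 / b) * (ENNReal.ofReal r' * j (r', s)) := by
          refine setLIntegral_mono' measurableSet_Ioi fun r' hr' => ?_
          have hr2 : b ≤ r' := hr.trans (le_of_lt hr')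
          rw [← mul_assoc, ← ENNReal.ofReal_mul (by positivity)]
          have h1 : (1 : ENNReal) ≤ ENNReal.ofReal (1 / b * r') := by
            rw [← ENNReal.ofReal_one]
            refine ENNReal.ofReal_le_ofReal ?_
            rw [one_div, ← div_eq_inv_mul, le_div_iff₀ hb, one_mul]
            exact hr2
          calc j (r', s) = 1 * j (r', s) := (one_mul _).symm
            _ ≤ _ := mul_le_mul' h1 le_rfl
      _ ≤ ∫⁻ r' in Ioi (0 : ℝ), ENNReal.ofReal (1 / b) * (ENNReal.ofReal r' * j (r', s)) :=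
          lintegral_mono_set (Ioi_subset_Ioi (hb.le.trans hr))
      _ = A s := lintegral_const_mul _ hm5
  have hIA : ∫⁻ s, A s = ENNReal.ofReal (1 / b) * M := by
    rw [hAd, lintegral_const_mul _ hm4]
    congr 1
    exact lintegral_lintegral_swap hm3.aemeasurable
  have hIB : ∫⁻ r in Ioi (0 : ℝ), ENNReal.ofReal r * B r = M := by
    refine lintegral_congr fun r => ?_
    exact (lintegral_const_mul _ (hjm.comp (measurable_const.prodMk measurable_id))).symm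
  set S : Set E3 := {x : E3 | b ≤ rad x} with hS
  have hSm : MeasurableSet S := (isClosed_le continuous_const continuous_rad).measurableSet
  set f : ℝ × ℝ → ENNReal := fun y => (Ici b).indicator (fun _ => ENNReal.ofReal ((U y ^ 2 * W y) ^ 2)) y.1 with hf
  have hfm : Measurable f := by
    have h1 : f = (Prod.fst ⁻¹' (Ici b)).indicator (fun y => ENNReal.ofReal ((U y ^ 2 * W y) ^ 2)) := by
      funext y
      by_cases hy : y.1 ∈ Ici b
      · rw [hf]
        simp only [indicator_of_mem hy]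
        rw [indicator_of_mem]
        exact hy
      · rw [hf]
        simp only [indicator_of_notMem hy]
        rw [indicator_of_notMem]
        exact hy
    rw [h1]
    refine Measurable.indicator ?_ (measurable_fst measurableSet_Ici)
    exact ENNReal.measurable_ofReal.comp ((((hUc.pow 2).mul hWc).pow 2).measurable)
  have hmain : ∫⁻ x : E3, f (rad x, x 2) ≤ ENNReal.ofReal (2 * Real.pi) * (M * (ENNReal.ofReal (1 / b) * M)) := by
    rw [cyl hfm]
    refine mul_le_mul' le_rfl ?_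
    calc ∫⁻ r in Ioi (0 : ℝ), ∫⁻ s : ℝ, ENNReal.ofReal r * f (r, s) ≤
          ∫⁻ r in Ioi (0 : ℝ), (ENNReal.ofReal r * B r) * ∫⁻ s, A s := by
          refine lintegral_mono fun r => ?_
          have h1 : ∫⁻ s, (ENNReal.ofReal r * B r) * A s = (ENNReal.ofReal r * B r) * ∫⁻ s, A s :=
            lintegral_const_mul _ (hm4.const_mul _)
          rw [← h1]
          refine lintegral_mono fun s => ?_
          show ENNReal.ofReal r * f (r, s) ≤ (ENNReal.ofReal r * B r) * A s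
          rw [mul_assoc]
          refine mul_le_mul' le_rfl ?_
          by_cases hr : r ∈ Ici b
          · have h2 : f (r, s) = ENNReal.ofReal ((U (r, s) ^ 2 * W (r, s)) ^ 2) := by
              rw [hf]
              simp only [indicator_of_mem hr]
            rw [h2, pow_two (U (r, s) ^ 2 * W (r, s)), ENNReal.ofReal_mul (mul_nonneg (sq_nonneg _) (hW0 _))]
            exact mul_le_mul' (hB r s) (hA2 r s hr)
          · have h2 : f (r, s) = 0 := by
              rw [hf]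
              simp only [indicator_of_notMem hr]
            rw [h2]
            exact zero_le
      _ = (∫⁻ r in Ioi (0 : ℝ), ENNReal.ofReal r * B r) * ∫⁻ s, A s :=
          lintegral_mul_const _ (ENNReal.measurable_ofReal.mul hBm)
      _ = M * (ENNReal.ofReal (1 / b) * M) := by rw [hIB, hIA]
  -- the functions in space
  have hmkx : ∀ x : E3, W (rad x, x 2) ^ 2 = wt R L z x := by
    intro x
    show ((1 + (rad x) ^ 2 / R ^ 2)⁻¹ * (√(1 + (x 2 - z) ^ 2 / L ^ 2))⁻¹) ^ 2 = wt R L z x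
    unfold wt
    rw [mul_pow, inv_pow, inv_pow, Real.sq_sqrt (by positivity), rad_sq']
  have hUx : ∀ x : E3, |U (rad x, x 2)| = |ut v x| := by
    intro x
    have h1 := (ur_f h (mk (rad x, x 2))).2.1
    have h2 := mk_f (rad x, x 2)
    have h3 := (v_cyl h x).2.2.2.1
    rw [← h3]
    show |v (mk (rad x, x 2)) 1| = |rad (mk (rad x, x 2)) * sV v (mk (rad x, x 2))|
    rw [h1, h2.2.1, h2.1, h2.2.2.2.1, abs_mul, abs_abs, zero_mul, zero_add, abs_mul]
  have hU2 : ∀ x : E3, U (rad x, x 2) ^ 2 = ut v x ^ 2 := by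
    intro x
    rw [← sq_abs, hUx, sq_abs]
  have hJx : ∀ x : E3, J (rad x, x 2) = |ut v x| * ((2 * √(gv v x) + |ut v x| / R) * W (rad x, x 2)) := by
    intro x
    have h3 := (v_cyl h x).2.2.2.2.2
    show (2 * |U (rad x, x 2)| * √(gv v (mk (rad x, x 2))) + U (rad x, x 2) ^ 2 / R) * W (rad x, x 2) = _
    rw [h3, hUx, hU2, ← sq_abs (ut v x)]
    ring
  have hWx0 : ∀ x : E3, 0 ≤ W (rad x, x 2) := fun x => hW0 _
  have hwt1 : ∀ x : E3, wt R L z x ≤ 1 := (wt_wc hR hL z).le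
  have hwt0 : ∀ x : E3, 0 ≤ wt R L z x := (wt_wc hR hL z).nn
  have hutle : ∀ x, ut v x ^ 2 ≤ ‖v x‖ ^ 2 := by
    intro x
    have h1 := (ur_f h x).2.2.2.1
    have := sq_nonneg (ur v x)
    have := sq_nonneg (v x 2)
    linarith
  have hx2 : Continuous (fun x : E3 => ((rad x, x 2) : ℝ × ℝ)) := by
    refine continuous_rad.prodMk ?_
    fun_prop
  have hWxc : Continuous (fun x : E3 => W (rad x, x 2)) := hWc.comp hx2
  have huti : Integrable (fun x => |ut v x| ^ 2) := by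
    simp only [sq_abs]
    refine Integrable.mono' hvi (hutc.pow 2).aestronglyMeasurable (Eventually.of_forall fun x => ?_)
    rw [Real.norm_eq_abs, abs_of_nonneg (sq_nonneg _)]
    exact hutle x
  have hH : ∀ x : E3, ((2 * √(gv v x) + |ut v x| / R) * W (rad x, x 2)) ^ 2 ≤
      8 * (gv v x * wt R L z x) + 2 / R ^ 2 * (‖v x‖ ^ 2 * wt R L z x) := by
    intro x
    rw [mul_pow, hmkx]
    have h1 : (2 * √(gv v x) + |ut v x| / R) ^ 2 ≤ 8 * gv v x + 2 / R ^ 2 * ‖v x‖ ^ 2 := by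
      have h2 : √(gv v x) ^ 2 = gv v x := Real.sq_sqrt (hgv0 x)
      have h3 : (|ut v x| / R) ^ 2 = ut v x ^ 2 / R ^ 2 := by rw [div_pow, sq_abs]
      have h4 : ut v x ^ 2 / R ^ 2 ≤ ‖v x‖ ^ 2 / R ^ 2 := div_le_div_of_nonneg_right (hutle x) (by positivity)
      have h5 : 2 / R ^ 2 * ‖v x‖ ^ 2 = 2 * (‖v x‖ ^ 2 / R ^ 2) := by ring
      have h6 := sq_nonneg (2 * √(gv v x) - |ut v x| / R)
      rw [h5]
      nlinarith [h2, h3, h4, h6]
    calc (2 * √(gv v x) + |ut v x| / R) ^ 2 * wt R L z x ≤ (8 * gv v x + 2 / R ^ 2 * ‖v x‖ ^ 2) * wt R L z x :=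
          mul_le_mul_of_nonneg_right h1 (hwt0 x)
      _ = _ := by ring
  have hgvW : Integrable (fun x => gv v x * wt R L z x) :=
    wi (wt_wc hR hL z) hgvc (K := K) fun x => by rw [abs_of_nonneg (hgv0 x)]; exact (hK x).2.1
  have hvW : Integrable (fun x => ‖v x‖ ^ 2 * wt R L z x) :=
    wi (wt_wc hR hL z) (hnc.pow 2) (K := K ^ 2) fun x => by
      rw [abs_of_nonneg (sq_nonneg _)]
      exact pow_le_pow_left₀ (norm_nonneg _) (hK x).1 2
  have hHc : Continuous (fun x : E3 => (2 * √(gv v x) + |ut v x| / R) * W (rad x, x 2)) :=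
    ((continuous_const.mul hgvc.sqrt).add (hutc.abs.div_const R)).mul hWxc
  have hHi : Integrable (fun x => ((2 * √(gv v x) + |ut v x| / R) * W (rad x, x 2)) ^ 2) := by
    refine Integrable.mono' ((hgvW.const_mul 8).add (hvW.const_mul (2 / R ^ 2)))
      (hHc.pow 2).aestronglyMeasurable (Eventually.of_forall fun x => ?_)
    rw [Real.norm_eq_abs, abs_of_nonneg (sq_nonneg _)]
    exact hH x
  have hcs := Ld_cs (g := fun x => |ut v x|) (h := fun x => (2 * √(gv v x) + |ut v x| / R) * W (rad x, x 2))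
    (fun x => abs_nonneg _) (fun x => mul_nonneg (by positivity) (hWx0 x)) hutc.abs hHc huti hHi
  set I1 : ℝ := ∫ x, |ut v x| * ((2 * √(gv v x) + |ut v x| / R) * W (rad x, x 2)) with hI1
  have hI10 : 0 ≤ I1 := integral_nonneg fun x =>
    mul_nonneg (abs_nonneg _) (mul_nonneg (by positivity) (hWx0 x))
  have hJi : Integrable (fun x : E3 => J (rad x, x 2)) := by
    have h1 : Integrable (fun x => |ut v x| ^ 2 + ((2 * √(gv v x) + |ut v x| / R) * W (rad x, x 2)) ^ 2) :=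
      huti.add hHi
    refine Integrable.mono' h1 (hJc.comp hx2).aestronglyMeasurable (Eventually.of_forall fun x => ?_)
    rw [Real.norm_eq_abs, abs_of_nonneg (hJ0 _), hJx]
    have h2 := sq_nonneg (|ut v x| - (2 * √(gv v x) + |ut v x| / R) * W (rad x, x 2))
    have h3 : 0 ≤ |ut v x| * ((2 * √(gv v x) + |ut v x| / R) * W (rad x, x 2)) :=
      mul_nonneg (abs_nonneg _) (mul_nonneg (by positivity) (hWx0 x))
    nlinarith [h2, h3]
  have hMI : ENNReal.ofReal (2 * Real.pi) * M = ENNReal.ofReal I1 := by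
    rw [hM, ← cyl hjm, hI1]
    rw [show (fun x : E3 => |ut v x| * ((2 * √(gv v x) + |ut v x| / R) * W (rad x, x 2))) =
      fun x : E3 => J (rad x, x 2) from funext fun x => (hJx x).symm]
    exact (ofReal_integral_eq_lintegral_ofReal hJi (Eventually.of_forall fun x => hJ0 _)).symm
  have hpi := Real.pi_pos
  have hMv : M = ENNReal.ofReal (I1 / (2 * Real.pi)) := by
    have h1 : ENNReal.ofReal (2 * Real.pi) * M = ENNReal.ofReal (2 * Real.pi) * ENNReal.ofReal (I1 / (2 * Real.pi)) := by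
      rw [hMI, ← ENNReal.ofReal_mul (by positivity)]
      congr 1
      field_simp
    have h2 : ENNReal.ofReal (2 * Real.pi) ≠ 0 := by
      rw [Ne, ENNReal.ofReal_eq_zero, not_le]
      positivity
    exact (ENNReal.mul_right_inj h2 ENNReal.ofReal_ne_top).mp h1
  -- the left side
  have hLc : Continuous (fun x => ut v x ^ 4 * wt R L z x) := (hutc.pow 4).mul (wt_wc hR hL z).sm.continuous
  have hL0' : ∀ x, 0 ≤ ut v x ^ 4 * wt R L z x := fun x => mul_nonneg (by positivity) (hwt0 x)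
  have hLi : Integrable (fun x => ut v x ^ 4 * wt R L z x) := by
    refine Integrable.mono' (hvi.const_mul (K ^ 2)) hLc.aestronglyMeasurable (Eventually.of_forall fun x => ?_)
    rw [Real.norm_eq_abs, abs_of_nonneg (hL0' x)]
    have h1 : ‖v x‖ ^ 2 ≤ K ^ 2 := pow_le_pow_left₀ (norm_nonneg _) (hK x).1 2
    have h2 : ut v x ^ 4 = ut v x ^ 2 * ut v x ^ 2 := by ring
    calc ut v x ^ 4 * wt R L z x ≤ ut v x ^ 4 * 1 := mul_le_mul_of_nonneg_left (hwt1 x) (by positivity)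
      _ = ut v x ^ 2 * ut v x ^ 2 := by rw [mul_one, h2]
      _ ≤ K ^ 2 * ‖v x‖ ^ 2 := mul_le_mul ((hutle x).trans h1) (hutle x) (sq_nonneg _) (sq_nonneg _)
  refine ⟨hLi.integrableOn, ?_⟩
  have hleft : ENNReal.ofReal (∫ x in S, ut v x ^ 4 * wt R L z x) = ∫⁻ x : E3, f (rad x, x 2) := by
    rw [ofReal_integral_eq_lintegral_ofReal hLi.integrableOn (Eventually.of_forall hL0'),
      ← lintegral_indicator hSm]
    refine lintegral_congr fun x => ?_
    by_cases hx : x ∈ S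
    · have hx' : rad x ∈ Ici b := hx
      rw [indicator_of_mem hx]
      have h2 : f (rad x, x 2) = ENNReal.ofReal ((U (rad x, x 2) ^ 2 * W (rad x, x 2)) ^ 2) := by
        rw [hf]
        simp only [indicator_of_mem hx']
      rw [h2, hU2, mul_pow, hmkx]
      congr 1
      ring
    · have hx' : rad x ∉ Ici b := hx
      rw [indicator_of_notMem hx]
      have h2 : f (rad x, x 2) = 0 := by
        rw [hf]
        simp only [indicator_of_notMem hx']
      rw [h2]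
  have hfin : ∫ x in S, ut v x ^ 4 * wt R L z x ≤ I1 ^ 2 / (2 * Real.pi * b) := by
    rw [← hleft, hMv, ← ENNReal.ofReal_mul (by positivity), ← ENNReal.ofReal_mul (by positivity),
      ← ENNReal.ofReal_mul (by positivity), ENNReal.ofReal_le_ofReal_iff (by positivity)] at hmain
    refine hmain.trans (le_of_eq ?_)
    field_simp
  have hDD : ∫ x, ((2 * √(gv v x) + |ut v x| / R) * W (rad x, x 2)) ^ 2 ≤
      8 * DD v (wt R L z) + 2 / R ^ 2 * SS v (wt R L z) := by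
    have h1 : ∫ x, ((2 * √(gv v x) + |ut v x| / R) * W (rad x, x 2)) ^ 2 ≤
        ∫ x, (8 * (gv v x * wt R L z x) + 2 / R ^ 2 * (‖v x‖ ^ 2 * wt R L z x)) :=
      integral_mono hHi ((hgvW.const_mul 8).add (hvW.const_mul (2 / R ^ 2))) hH
    have h2 : ∫ x, (8 * (gv v x * wt R L z x) + 2 / R ^ 2 * (‖v x‖ ^ 2 * wt R L z x)) =
        (∫ x, 8 * (gv v x * wt R L z x)) + ∫ x, 2 / R ^ 2 * (‖v x‖ ^ 2 * wt R L z x) :=
      integral_add (hgvW.const_mul 8) (hvW.const_mul (2 / R ^ 2))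
    rw [h2, integral_const_mul, integral_const_mul] at h1
    exact h1
  have hut : ∫ x, |ut v x| ^ 2 ≤ ∫ x, ‖v x‖ ^ 2 := by
    refine integral_mono huti hvi fun x => ?_
    show |ut v x| ^ 2 ≤ ‖v x‖ ^ 2
    rw [sq_abs]
    exact hutle x
  have hE0 : 0 ≤ ∫ x, ‖v x‖ ^ 2 := integral_nonneg fun x => sq_nonneg _
  have hDD0 : 0 ≤ DD v (wt R L z) := integral_nonneg fun x => mul_nonneg (hgv0 x) (hwt0 x)
  have hSS0 : 0 ≤ SS v (wt R L z) := integral_nonneg fun x => mul_nonneg (sq_nonneg _) (hwt0 x)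
  have hI2 : I1 ^ 2 ≤ (∫ x, ‖v x‖ ^ 2) * (8 * DD v (wt R L z) + 2 / R ^ 2 * SS v (wt R L z)) := by
    refine hcs.trans ?_
    exact mul_le_mul hut hDD (integral_nonneg fun x => sq_nonneg _) hE0
  have h2p : 4 ≤ 2 * Real.pi := by linarith [Real.two_le_pi]
  calc ∫ x in S, ut v x ^ 4 * wt R L z x ≤ I1 ^ 2 / (2 * Real.pi * b) := hfin
    _ ≤ ((∫ x, ‖v x‖ ^ 2) * (8 * DD v (wt R L z) + 2 / R ^ 2 * SS v (wt R L z))) / (2 * Real.pi * b) :=
        div_le_div_of_nonneg_right hI2 (by positivity)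
    _ ≤ ((∫ x, ‖v x‖ ^ 2) * (8 * DD v (wt R L z) + 2 / R ^ 2 * SS v (wt R L z))) / (4 * b) := by
        refine div_le_div_of_nonneg_left (by positivity) (by positivity) ?_
        exact mul_le_mul_of_nonneg_right h2p hb.le
    _ = (∫ x, ‖v x‖ ^ 2) / b * (2 * DD v (wt R L z) + (2 / R ^ 2) / 4 * SS v (wt R L z)) := by
        field_simp
        ring
    _ ≤ (∫ x, ‖v x‖ ^ 2) / b * (2 * DD v (wt R L z) + 2 / R ^ 2 * SS v (wt R L z)) := by
        refine mul_le_mul_of_nonneg_left ?_ (by positivity)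
        have h1 : (2 / R ^ 2) / 4 * SS v (wt R L z) ≤ 2 / R ^ 2 * SS v (wt R L z) := by
          refine mul_le_mul_of_nonneg_right ?_ hSS0
          have h3 : 0 < 2 / R ^ 2 := by positivity
          linarith
        linarith

end Pool.Agent.H94.WL
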