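/-
ROW Mo (MP_09540e_WL). Sums of the Morrey bounds. PROOF. Let `h τ = (1 + (τ - z)²/M²)⁻¹`. m0: for `|x 2 - z'| < ρ ≤ M`: `1 + (z'-z)²/M² ≤ 1 + 2 (x2-z)²/M² + 2 ≤ 3 (1 + (x2-z)²/M²)`, so `h (x 2) ≤ 3 h z'` and `2 ρ h (x 2) ≤ 3 ∫ z' in {|z' - x 2| < ρ}, h z'`. Multiply by `f x`, integrate over {rad < a} and swap (Tonelli, lintegrals):
`2ρ ∫_{rad<a} f h(x 2) ≤ 3 ∫ h z' (∫_{cy a ρ z'} f) dz' ≤ 3 B π M` (∫ h = π M: integral_univ_inv_one_add_sq and scaling, cf. Wb_hz in TU/Wb.lean), and `3π/2 ≤ 5`. (B ≥ 0 since f ≥ 0; Integrable f gives finiteness.)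
m1: pointwise `(1 + r/R) (1 + r²/R²)⁻² ≤ 32 ∑_k 8⁻ᵏ 1[r < 2ᵏ R]`: if `r < R` the left side is ≤ 2; if `2^(k-1) R ≤ r < 2ᵏ R`, k ≥ 1: `≤ 2^(k+1) (4^(k-1))⁻² = 32 · 8⁻ᵏ`. So with `h` for M = L and `L ≤ 2ᵏ L` (h is monotone in M): the integral is `≤ 32 ∑_k 8⁻ᵏ ∫_{rad < 2ᵏR} f h_{2ᵏL}`, and by m0 with
`a = ρ = 2ᵏ R ≤ M = 2ᵏ L`, `B = k 2ᵏ R`: `≤ 5 (L/R) k 2ᵏ R = 5 k 2ᵏ L`. Sum: `160 k L ∑ 4⁻ᵏ ≤ 214 k L` (lintegral_tsum, or: for each x choose the k with 2^(k-1)R ≤ r < 2ᵏR and use the partition of space in shells). Here the real k of the statement is called `k₀`. C = 214.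
-/
import Pool.Agent.H94.WL.Defs
import Pool.Agent.H16.TU.Wb

set_option autoImplicit false

open Set Filter Topology MeasureTheory
open scoped ContDiff

namespace Pool.Agent.H94.WL

open Pool.Agent.H16 Pool.Agent.H87.NS Pool.Agent.H72.CC Pool.Agent.H16.TU

private theorem Mo_rad : Continuous (fun x : E3 => rad x) := by
  unfold rad
  fun_prop

private theorem Mo_hz {L : ℝ} (hL : 0 < L) (z : ℝ) :
    ∫⁻ s : ℝ, ENNReal.ofReal ((1 + (s - z) ^ 2 / L ^ 2)⁻¹) = ENNReal.ofReal (Real.pi * L) := by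
  have h0 : ∀ s : ℝ, (1 + (s - z) ^ 2 / L ^ 2)⁻¹ = (fun u : ℝ => (1 + (u / L) ^ 2)⁻¹) (s - z) := by
    intro s
    show _ = (1 + ((s - z) / L) ^ 2)⁻¹
    rw [div_pow]
  have hi0 : Integrable (fun u : ℝ => (1 + (u / L) ^ 2)⁻¹) :=
    integrable_inv_one_add_sq.comp_div hL.ne'
  have hi : Integrable (fun s : ℝ => (1 + (s - z) ^ 2 / L ^ 2)⁻¹) := by
    simp only [h0]
    exact hi0.comp_sub_right z
  rw [← ofReal_integral_eq_lintegral_ofReal hi (Eventually.of_forall fun s => by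
    show (0:ℝ) ≤ (1 + (s - z) ^ 2 / L ^ 2)⁻¹
    positivity)]
  congr 1
  simp only [h0]
  rw [integral_sub_right_eq_self (fun u : ℝ => (1 + (u / L) ^ 2)⁻¹) z]
  rw [Measure.integral_comp_div (fun u : ℝ => (1 + u ^ 2)⁻¹) L, integral_univ_inv_one_add_sq, abs_of_pos hL,
    smul_eq_mul, mul_comm]

private theorem Mo_h3 {M ρ z s t : ℝ} (hρ : 0 < ρ) (hM : ρ ≤ M) (h : |s - t| < ρ) :
    (1 + (s - z) ^ 2 / M ^ 2)⁻¹ ≤ 3 * (1 + (t - z) ^ 2 / M ^ 2)⁻¹ := by
  have hM0 : 0 < M := lt_of_lt_of_le hρ hM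
  have h1 : (s - t) ^ 2 ≤ M ^ 2 := by
    rw [← sq_abs (s - t)]
    have h0 := abs_nonneg (s - t)
    have h2 : |s - t| ≤ M := h.le.trans hM
    exact pow_le_pow_left₀ h0 h2 2
  have h2 : (t - z) ^ 2 ≤ 2 * (s - z) ^ 2 + 2 * M ^ 2 := by
    nlinarith [sq_nonneg (2 * s - t - z), h1]
  have hA : 0 < 1 + (s - z) ^ 2 / M ^ 2 := by positivity
  have hB : 0 < 1 + (t - z) ^ 2 / M ^ 2 := by positivity
  have hM2 : (0:ℝ) < M ^ 2 := by positivity
  have h3 : (t - z) ^ 2 / M ^ 2 ≤ 2 * ((s - z) ^ 2 / M ^ 2) + 2 := by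
    rw [div_le_iff₀ hM2]
    have : (2 * ((s - z) ^ 2 / M ^ 2) + 2) * M ^ 2 = 2 * (s - z) ^ 2 + 2 * M ^ 2 := by
      field_simp
    rw [this]
    exact h2
  have hA' : 0 ≤ (s - z) ^ 2 / M ^ 2 := by positivity
  rw [← div_eq_mul_inv, inv_eq_one_div, div_le_div_iff₀ hA hB]
  linarith

private theorem Mo_len (ρ s : ℝ) : volume {t : ℝ | |s - t| < ρ} = ENNReal.ofReal (2 * ρ) := by
  have : {t : ℝ | |s - t| < ρ} = Ioo (s - ρ) (s + ρ) := by
    ext t
    rw [mem_ofPred_eq, mem_Ioo, abs_lt]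
    constructor
    · rintro ⟨h1, h2⟩
      constructor <;> linarith
    · rintro ⟨h1, h2⟩
      constructor <;> linarith
  rw [this, Real.volume_Ioo]
  congr 1
  ring

private theorem Mo_l0 {f : E3 → ℝ} {a ρ M B : ℝ} (z : ℝ) (hf : Continuous f) (h0 : ∀ x, 0 ≤ f x) (hi : Integrable f) (hρ : 0 < ρ) (hM : ρ ≤ M)
    (hB : ∀ z' : ℝ, ∫ x in cy a ρ z', f x ≤ B) :
    ∫⁻ x in {x : E3 | rad x < a}, ENNReal.ofReal (f x * (1 + (x 2 - z) ^ 2 / M ^ 2)⁻¹) ≤ ENNReal.ofReal (5 * (M / ρ) * B) := by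
  have hM0 : 0 < M := lt_of_lt_of_le hρ hM
  have hB0 : 0 ≤ B := (integral_nonneg (fun x => h0 x)).trans (hB 0)
  have hpi := Real.pi_lt_d2
  have hpi0 := Real.pi_pos
  set H : ℝ → ENNReal := fun s => ENNReal.ofReal ((1 + (s - z) ^ 2 / M ^ 2)⁻¹) with hH
  have hHm : Measurable H := by
    refine ENNReal.measurable_ofReal.comp ?_
    fun_prop
  set g : E3 → ENNReal := fun x => ENNReal.ofReal (f x) with hg
  have hgm : Measurable g := ENNReal.measurable_ofReal.comp hf.measurable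
  have hSa : MeasurableSet {x : E3 | rad x < a} := (isOpen_lt Mo_rad continuous_const).measurableSet
  have hc2 : Continuous (fun x : E3 => x 2) := by fun_prop
  have hcy : ∀ z' : ℝ, MeasurableSet (cy a ρ z') := fun z' =>
    hSa.inter (isOpen_lt (by fun_prop : Continuous (fun x : E3 => |x 2 - z'|)) continuous_const).measurableSet
  have hD : MeasurableSet {p : E3 × ℝ | rad p.1 < a ∧ |p.1 2 - p.2| < ρ} := by
    refine MeasurableSet.inter ?_ ?_
    · exact (isOpen_lt (Mo_rad.comp continuous_fst) continuous_const).measurableSet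
    · exact (isOpen_lt (by fun_prop : Continuous (fun p : E3 × ℝ => |p.1 2 - p.2|)) continuous_const).measurableSet
  set K : E3 × ℝ → ENNReal := {p : E3 × ℝ | rad p.1 < a ∧ |p.1 2 - p.2| < ρ}.indicator (fun p => g p.1 * (3 * H p.2)) with hK
  have hKm : Measurable K := by
    refine Measurable.indicator ?_ hD
    exact (hgm.comp measurable_fst).mul ((hHm.comp measurable_snd).const_mul 3)
  have hswap : ∫⁻ x : E3, ∫⁻ t : ℝ, K (x, t) = ∫⁻ t : ℝ, ∫⁻ x : E3, K (x, t) :=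
    lintegral_lintegral_swap (f := fun x t => K (x, t)) hKm.aemeasurable
  have hup : ∫⁻ t : ℝ, ∫⁻ x : E3, K (x, t) ≤ ENNReal.ofReal (3 * (Real.pi * M) * B) := by
    have h1 : ∀ t : ℝ, ∫⁻ x : E3, K (x, t) ≤ (3 * H t) * ENNReal.ofReal B := by
      intro t
      have h2 : ∀ x : E3, K (x, t) = (cy a ρ t).indicator (fun x => g x * (3 * H t)) x := by
        intro x
        rw [hK]
        by_cases hx : x ∈ cy a ρ t
        · rw [indicator_of_mem hx, indicator_of_mem (by exact hx)]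
        · rw [indicator_of_notMem hx, indicator_of_notMem (by exact hx)]
      rw [lintegral_congr h2, lintegral_indicator (hcy t), lintegral_mul_const _ hgm, mul_comm]
      gcongr
      rw [hg]
      show ∫⁻ x in cy a ρ t, ENNReal.ofReal (f x) ≤ _
      rw [← ofReal_integral_eq_lintegral_ofReal hi.integrableOn (Eventually.of_forall fun x => h0 x)]
      exact ENNReal.ofReal_le_ofReal (hB t)
    refine (lintegral_mono h1).trans ?_
    rw [lintegral_mul_const _ (hHm.const_mul 3), lintegral_const_mul _ hHm, Mo_hz hM0 z,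
      ENNReal.ofReal_mul (p := 3 * (Real.pi * M)) (q := B) (by positivity), ENNReal.ofReal_mul (p := 3) (q := Real.pi * M) (by norm_num),
      ENNReal.ofReal_ofNat]
  have hlow : ENNReal.ofReal (2 * ρ) * ∫⁻ x in {x : E3 | rad x < a}, g x * H (x 2) ≤ ∫⁻ x : E3, ∫⁻ t : ℝ, K (x, t) := by
    have hgH : Measurable (fun x : E3 => g x * H (x 2)) := hgm.mul (hHm.comp hc2.measurable)
    rw [← lintegral_const_mul _ hgH, ← lintegral_indicator hSa]
    refine lintegral_mono fun x => ?_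
    by_cases hx : rad x < a
    · rw [indicator_of_mem (by exact hx)]
      have hT : MeasurableSet {t : ℝ | |x 2 - t| < ρ} :=
        (isOpen_lt (by fun_prop : Continuous (fun t : ℝ => |x 2 - t|)) continuous_const).measurableSet
      have h2 : ∀ t : ℝ, K (x, t) = {t : ℝ | |x 2 - t| < ρ}.indicator (fun t => g x * (3 * H t)) t := by
        intro t
        rw [hK]
        by_cases ht : |x 2 - t| < ρ
        · rw [indicator_of_mem (by exact ⟨hx, ht⟩), indicator_of_mem (by exact ht)]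
        · rw [indicator_of_notMem (by exact fun h => ht h.2), indicator_of_notMem (by exact ht)]
      rw [lintegral_congr h2, lintegral_indicator hT, mul_comm, ← Mo_len ρ (x 2), ← setLIntegral_const]
      refine setLIntegral_mono' hT fun t ht => ?_
      gcongr
      rw [hH]
      show ENNReal.ofReal _ ≤ 3 * ENNReal.ofReal _
      have h33 : (3 : ENNReal) = ENNReal.ofReal 3 := by rw [ENNReal.ofReal_ofNat]
      rw [h33, ← ENNReal.ofReal_mul (by norm_num)]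
      exact ENNReal.ofReal_le_ofReal (Mo_h3 hρ hM ht)
    · rw [indicator_of_notMem (by exact hx)]
      exact bot_le
  have hfin : ENNReal.ofReal (2 * ρ) * ∫⁻ x in {x : E3 | rad x < a}, g x * H (x 2) ≤ ENNReal.ofReal (3 * (Real.pi * M) * B) :=
    hlow.trans (hswap.le.trans hup)
  have h5 : ∫⁻ x in {x : E3 | rad x < a}, ENNReal.ofReal (f x * (1 + (x 2 - z) ^ 2 / M ^ 2)⁻¹) =
      ∫⁻ x in {x : E3 | rad x < a}, g x * H (x 2) := by
    refine lintegral_congr fun x => ?_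
    rw [ENNReal.ofReal_mul (h0 x)]
  rw [h5]
  have h6 : ENNReal.ofReal (3 * (Real.pi * M) * B) ≤ ENNReal.ofReal (2 * ρ) * ENNReal.ofReal (5 * (M / ρ) * B) := by
    rw [← ENNReal.ofReal_mul (by positivity)]
    refine ENNReal.ofReal_le_ofReal ?_
    have h7 : 2 * ρ * (5 * (M / ρ) * B) = 10 * (M * B) := by
      field_simp
      ring
    rw [h7]
    have h8 : 0 ≤ M * B := by positivity
    nlinarith
  have h9 : ENNReal.ofReal (2 * ρ) ≠ 0 := by
    rw [Ne, ENNReal.ofReal_eq_zero, not_le]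
    positivity
  exact (ENNReal.mul_le_mul_iff_right h9 ENNReal.ofReal_ne_top).mp (hfin.trans h6)

theorem m0 {f : E3 → ℝ} {a ρ M B : ℝ} (z : ℝ) (hf : Continuous f) (h0 : ∀ x, 0 ≤ f x) (hi : Integrable f) (hρ : 0 < ρ) (hM : ρ ≤ M)
    (hB : ∀ z' : ℝ, ∫ x in cy a ρ z', f x ≤ B) :
    ∫ x in {x : E3 | rad x < a}, f x * (1 + (x 2 - z) ^ 2 / M ^ 2)⁻¹ ≤ 5 * (M / ρ) * B := by
  have hM0 : 0 < M := lt_of_lt_of_le hρ hM
  have hB0 : 0 ≤ B := (integral_nonneg (fun x => h0 x)).trans (hB 0)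
  have hn : ∀ x : E3, 0 ≤ f x * (1 + (x 2 - z) ^ 2 / M ^ 2)⁻¹ := fun x => mul_nonneg (h0 x) (by positivity)
  have hc : Continuous (fun x : E3 => f x * (1 + (x 2 - z) ^ 2 / M ^ 2)⁻¹) := by
    refine hf.mul (Continuous.inv₀ (by fun_prop) fun x => ?_)
    positivity
  rw [integral_eq_lintegral_of_nonneg_ae (Eventually.of_forall hn) hc.aestronglyMeasurable]
  exact ENNReal.toReal_le_of_le_ofReal (by positivity) (Mo_l0 z hf h0 hi hρ hM hB)

private theorem Mo_shell {R r : ℝ} (hR : 0 < R) (hr : 0 ≤ r) :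
    ∃ k : ℕ, r < 2 ^ k * R ∧ (1 + r / R) * ((1 + r ^ 2 / R ^ 2) ^ 2)⁻¹ ≤ 32 * (1 / 8) ^ k := by
  have hex : ∃ k : ℕ, r < 2 ^ k * R := by
    obtain ⟨k, hk⟩ := pow_unbounded_of_one_lt (r / R) (by norm_num : (1:ℝ) < 2)
    exact ⟨k, by rwa [div_lt_iff₀ hR] at hk⟩
  classical
  refine ⟨Nat.find hex, Nat.find_spec hex, ?_⟩
  set q : ℝ := r / R with hq
  have hq0 : 0 ≤ q := by positivity
  have hqq : r ^ 2 / R ^ 2 = q ^ 2 := by rw [hq, div_pow]
  rw [hqq]
  have hlt : q < 2 ^ (Nat.find hex) := by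
    rw [hq, div_lt_iff₀ hR]
    exact Nat.find_spec hex
  rcases Nat.eq_zero_or_pos (Nat.find hex) with h | h
  · rw [h] at hlt ⊢
    rw [pow_zero] at hlt ⊢
    have h1 : ((1 + q ^ 2) ^ 2)⁻¹ ≤ 1 := by
      refine inv_le_one_of_one_le₀ ?_
      nlinarith [sq_nonneg q, sq_nonneg (q ^ 2)]
    have h2 : (1 + q) * ((1 + q ^ 2) ^ 2)⁻¹ ≤ 2 * 1 := by
      refine mul_le_mul (by linarith) h1 (by positivity) (by norm_num)
    linarith
  · obtain ⟨j, hj⟩ : ∃ j, Nat.find hex = j + 1 := ⟨Nat.find hex - 1, by omega⟩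
    have hmin : ¬ r < 2 ^ j * R := Nat.find_min hex (by omega)
    rw [hj] at hlt ⊢
    have hge : (2:ℝ) ^ j ≤ q := by
      rw [hq, le_div_iff₀ hR]
      exact not_lt.mp hmin
    set w : ℝ := 2 ^ j with hw
    have hw1 : 1 ≤ w := one_le_pow₀ (by norm_num)
    have hlt' : q < 2 * w := by rw [pow_succ] at hlt; linarith
    have h8 : (1 / 8 : ℝ) ^ (j + 1) = (w ^ 3)⁻¹ / 8 := by
      have e1 : (1 / 8 : ℝ) ^ j = (w ^ 3)⁻¹ := by
        rw [hw, ← pow_mul, mul_comm j 3, pow_mul, ← inv_pow]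
        norm_num
      rw [pow_succ, e1]
      ring
    rw [h8, ← div_eq_mul_inv, div_le_iff₀ (by positivity)]
    have h9 : 32 * ((w ^ 3)⁻¹ / 8) * (1 + q ^ 2) ^ 2 = 4 * ((1 + q ^ 2) ^ 2 / w ^ 3) := by
      field_simp
      ring
    rw [h9]
    have h10 : w ≤ (1 + q ^ 2) ^ 2 / w ^ 3 := by
      rw [le_div_iff₀ (by positivity)]
      have h11 : w ^ 2 ≤ q ^ 2 := pow_le_pow_left₀ (by linarith) hge 2
      have h12 : (w ^ 2) ^ 2 ≤ (1 + q ^ 2) ^ 2 := pow_le_pow_left₀ (by positivity) (by linarith) 2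
      calc w * w ^ 3 = (w ^ 2) ^ 2 := by ring
        _ ≤ _ := h12
    linarith

theorem m1 : ∃ C : ℝ, 1 ≤ C ∧ ∀ (f : E3 → ℝ) (k₀ : ℝ), Continuous f → (∀ x, 0 ≤ f x) → Integrable f →
    (∀ ρ z : ℝ, 0 < ρ → ∫ x in cy ρ ρ z, f x ≤ k₀ * ρ) → ∀ R L z : ℝ, 0 < R → R ≤ L →
    Integrable (fun x => f x * ((1 + rad x / R) * wt R L z x)) ∧ ∫ x, f x * ((1 + rad x / R) * wt R L z x) ≤ C * k₀ * L := by
  refine ⟨214, by norm_num, ?_⟩
  intro f k₀ hf h0 hi hk R L z hR hRL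
  have hL : 0 < L := lt_of_lt_of_le hR hRL
  have hk0 : 0 ≤ k₀ := by
    have h1 := (integral_nonneg (fun x => h0 x)).trans (hk 1 0 one_pos)
    linarith
  have hc : Continuous (fun x : E3 => f x * ((1 + rad x / R) * wt R L z x)) := by
    refine hf.mul (Continuous.mul ?_ (wt_sm hR hL z).continuous)
    exact continuous_const.add (Mo_rad.div_const R)
  have hn : ∀ x : E3, 0 ≤ f x * ((1 + rad x / R) * wt R L z x) := fun x => by
    have h1 := (wt_pos hR hL z x).le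
    have h2 := h0 x
    have h3 := rad_nonneg x
    positivity
  have hSm : ∀ k : ℕ, MeasurableSet {x : E3 | rad x < 2 ^ k * R} := fun k =>
    (isOpen_lt Mo_rad continuous_const).measurableSet
  have hcm : ∀ k : ℕ, Continuous (fun x : E3 => f x * (1 + (x 2 - z) ^ 2 / (2 ^ k * L) ^ 2)⁻¹) := fun k => by
    refine hf.mul (Continuous.inv₀ (by fun_prop) fun x => ?_)
    positivity
  have hms : ∀ k : ℕ, Measurable (fun x : E3 => {x : E3 | rad x < 2 ^ k * R}.indicator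
        (fun x => ENNReal.ofReal (f x * (1 + (x 2 - z) ^ 2 / (2 ^ k * L) ^ 2)⁻¹)) x) := fun k =>
    Measurable.indicator (ENNReal.measurable_ofReal.comp (hcm k).measurable) (hSm k)
  have hpt : ∀ x : E3, ENNReal.ofReal (f x * ((1 + rad x / R) * wt R L z x)) ≤
      ∑' k : ℕ, ENNReal.ofReal (32 * (1 / 8) ^ k) * {x : E3 | rad x < 2 ^ k * R}.indicator
        (fun x => ENNReal.ofReal (f x * (1 + (x 2 - z) ^ 2 / (2 ^ k * L) ^ 2)⁻¹)) x := by
    intro x
    obtain ⟨k, hk1, hk2⟩ := Mo_shell hR (rad_nonneg x)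
    refine le_trans ?_ (ENNReal.le_tsum k)
    rw [indicator_of_mem (by exact hk1), ← ENNReal.ofReal_mul (by positivity)]
    refine ENNReal.ofReal_le_ofReal ?_
    have h1 : (1 + (x 2 - z) ^ 2 / L ^ 2)⁻¹ ≤ (1 + (x 2 - z) ^ 2 / (2 ^ k * L) ^ 2)⁻¹ := by
      refine inv_anti₀ (by positivity) ?_
      have h2 : L ≤ 2 ^ k * L := by
        have : (1:ℝ) ≤ 2 ^ k := one_le_pow₀ (by norm_num)
        nlinarith
      gcongr
    unfold wt
    rw [← rad_sq']
    calc f x * ((1 + rad x / R) * (((1 + rad x ^ 2 / R ^ 2) ^ 2)⁻¹ * (1 + (x 2 - z) ^ 2 / L ^ 2)⁻¹))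
        = f x * (((1 + rad x / R) * ((1 + rad x ^ 2 / R ^ 2) ^ 2)⁻¹) * (1 + (x 2 - z) ^ 2 / L ^ 2)⁻¹) := by ring
      _ ≤ f x * ((32 * (1 / 8) ^ k) * (1 + (x 2 - z) ^ 2 / (2 ^ k * L) ^ 2)⁻¹) := by
          refine mul_le_mul_of_nonneg_left ?_ (h0 x)
          exact mul_le_mul hk2 h1 (by positivity) (by positivity)
      _ = _ := by ring
  have hterm : ∀ k : ℕ, ∫⁻ x : E3, ENNReal.ofReal (32 * (1 / 8) ^ k) * {x : E3 | rad x < 2 ^ k * R}.indicator
        (fun x => ENNReal.ofReal (f x * (1 + (x 2 - z) ^ 2 / (2 ^ k * L) ^ 2)⁻¹)) x ≤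
      ENNReal.ofReal (160 * k₀ * L * (1 / 4) ^ k) := by
    intro k
    have hp : (0:ℝ) < 2 ^ k := by positivity
    rw [lintegral_const_mul _ (hms k),
      lintegral_indicator (hSm k)]
    have h1 := Mo_l0 (f := f) (a := 2 ^ k * R) (ρ := 2 ^ k * R) (M := 2 ^ k * L) (B := k₀ * (2 ^ k * R)) z hf h0 hi
      (by positivity) (by gcongr) (fun z' => hk (2 ^ k * R) z' (by positivity))
    refine (mul_le_mul' le_rfl h1).trans ?_
    rw [← ENNReal.ofReal_mul (by positivity)]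
    refine ENNReal.ofReal_le_ofReal (le_of_eq ?_)
    have h2 : (1 / 4 : ℝ) ^ k = (1 / 8) ^ k * 2 ^ k := by
      rw [← mul_pow]
      norm_num
    rw [h2]
    field_simp
    ring
  have hsum : HasSum (fun k : ℕ => 160 * k₀ * L * (1 / 4 : ℝ) ^ k) (160 * k₀ * L * (1 - 1 / 4)⁻¹) :=
    (hasSum_geometric_of_lt_one (by norm_num) (by norm_num)).mul_left _
  have hmain : ∫⁻ x : E3, ENNReal.ofReal (f x * ((1 + rad x / R) * wt R L z x)) ≤ ENNReal.ofReal (214 * k₀ * L) := by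
    refine (lintegral_mono hpt).trans ?_
    rw [lintegral_tsum (fun k => ((hms k).const_mul _).aemeasurable)]
    refine (ENNReal.tsum_le_tsum hterm).trans ?_
    rw [← ENNReal.ofReal_tsum_of_nonneg (fun k => by positivity) hsum.summable, hsum.tsum_eq]
    refine ENNReal.ofReal_le_ofReal ?_
    have h1 : 0 ≤ k₀ * L := by positivity
    norm_num
    nlinarith
  have hint : Integrable (fun x : E3 => f x * ((1 + rad x / R) * wt R L z x)) := by
    refine (lintegral_ofReal_ne_top_iff_integrable hc.aestronglyMeasurable (Eventually.of_forall hn)).mp ?_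
    exact ne_top_of_le_ne_top ENNReal.ofReal_ne_top hmain
  refine ⟨hint, ?_⟩
  rw [integral_eq_lintegral_of_nonneg_ae (Eventually.of_forall hn) hc.aestronglyMeasurable]
  exact ENNReal.toReal_le_of_le_ofReal (by positivity) hmain

end Pool.Agent.H94.WL
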