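/-
ROW Mk (MP_09540e_WL). The near kernel applied to a function with Morrey bounds. PROOF. k83: translation, then integral_fun_norm_addHaar / integrable_fun_norm_addHaar as for ne_ker in TU/We.lean: `3 · vol(B₁) ∫_0^l r² r^(-8/3) dr = 4π · 3 l^(1/3) ≤ 38 l^(1/3)`.
k4: with `k = ‖x-y‖`, all integrals over `ball y l`: Cauchy-Schwarz twice: `∫ k⁻² f = ∫ k^(-4/3) (k^(-2/3) f) ≤ (∫ k^(-8/3))^(1/2) (∫ k^(-4/3) f²)^(1/2)` and `∫ k^(-4/3) f² = ∫ (k^(-4/3) f) f ≤ (∫ k^(-8/3) f²)^(1/2) (∫ f²)^(1/2)`; so the fourth power is `≤ (∫ k^(-8/3))² (∫ k^(-8/3) f²) (∫ f²)`.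
(f bounded, so everything is integrable on the ball. For Cauchy-Schwarz: MeasureTheory.integral_mul_le_Lp_mul_Lq_of_nonneg or the square trick.)
m2: l = 2R, NE l f y = ∫ over ball y l of (‖x-y‖²)⁻¹ |f x|, |f| = f. k4 and k83: `(NE f y)⁴ ≤ (38 l^(1/3))² (∫_{ball y l} ‖x-y‖^(-8/3) f²) (∫_{ball y l} f²)`. `ball y l ⊆ cy (rad y + l) (rad y + l) (y 2)` (rad_lip, |x 2 - y 2| ≤ ‖x-y‖ < l), so `∫_{ball y l} f² ≤ k₀ (rad y + l)`. For ‖x-y‖ < l: `wt y ≤ 64·2⁶ wt x` (wt_cmp with A = 2), `rad y ≤ rad x + l`,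
so after Tonelli (kernel ‖x-y‖^(-8/3) on the ball, symmetric): `∫ (NE f y)⁴ wt y ≤ (38 l^(1/3))² · 4096 · k₀ ∫ f x² (rad x + 2l) wt x · 38 l^(1/3) dx` and `rad x + 2l = rad x + 4R ≤ 4R (1 + rad x / R)`, `(38)³ l = 38³ · 2R`: `≤ 38³·2·4096·4 k₀ R² ∫ f² (1 + rad x/R) wt ≤ C k₀² R² L` by m1 (applied to f²).
-/
import Pool.Agent.H94.WL.Mo
import Pool.Agent.H16.TU.We

set_option autoImplicit false

open Set Filter Topology MeasureTheory
open scoped ContDiff

namespace Pool.Agent.H94.WL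

open Pool.Agent.H16 Pool.Agent.H87.NS Pool.Agent.H72.CC Pool.Agent.H16.TU

/-- the kernel -/
noncomputable def Mk_K (l : ℝ) (x : E3) : ℝ :=
  (Metric.ball (0 : E3) l).indicator (fun x => ‖x‖ ^ (-(8/3) : ℝ)) x

theorem Mk_K_nn (l : ℝ) (x : E3) : 0 ≤ Mk_K l x :=
  Set.indicator_nonneg (fun x _ => Real.rpow_nonneg (norm_nonneg x) _) x

theorem Mk_K_eq (l : ℝ) (x : E3) :
    Mk_K l x = (Iio l).indicator (fun r : ℝ => r ^ (-(8/3) : ℝ)) ‖x‖ := by
  unfold Mk_K
  by_cases h : ‖x‖ < l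
  · rw [Set.indicator_of_mem (by rwa [mem_ball_zero_iff]), Set.indicator_of_mem (Set.mem_Iio.2 h)]
  · rw [Set.indicator_of_notMem (by rwa [mem_ball_zero_iff]),
      Set.indicator_of_notMem (by rwa [Set.mem_Iio])]

theorem Mk_K_symm (l : ℝ) (x y : E3) : Mk_K l (x - y) = Mk_K l (y - x) := by
  rw [Mk_K_eq, Mk_K_eq, norm_sub_rev]

theorem Mk_rp {r : ℝ} (hr : 0 < r) : r ^ (3 - 1) * r ^ (-(8/3) : ℝ) = r ^ (-(2/3) : ℝ) := by
  have h1 : r ^ (3 - 1) = r ^ (2 : ℝ) := by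
    rw [Real.rpow_two]
  rw [h1, ← Real.rpow_add hr]
  norm_num

theorem Mk_K_int {l : ℝ} (hl : 0 < l) : Integrable (Mk_K l) ∧ ∫ x, Mk_K l x ≤ 38 * l ^ (1/3 : ℝ) := by
  have hd : Module.finrank ℝ E3 = 3 := by simp
  have hi : IntervalIntegrable (fun r : ℝ => r ^ (-(2/3) : ℝ)) volume 0 l :=
    intervalIntegral.intervalIntegrable_rpow' (by norm_num)
  have hi' := (intervalIntegrable_iff_integrableOn_Ioo_of_le hl.le).1 hi
  refine ⟨?_, ?_⟩
  · have h1 : IntegrableOn (fun x : E3 => (fun r : ℝ => r ^ (-(8/3) : ℝ)) ‖x‖) (Metric.ball (0 : E3) l)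
        volume := by
      refine (integrableOn_fun_norm_addHaar volume (f := fun r : ℝ => r ^ (-(8/3) : ℝ))).2 ?_
      refine (integrableOn_congr_fun (f := fun r : ℝ => r ^ (-(2/3) : ℝ)) ?_ measurableSet_Ioo).1 hi'
      intro r hr
      beta_reduce
      rw [hd, smul_eq_mul, Mk_rp hr.1]
    exact (integrable_indicator_iff measurableSet_ball).2 h1
  · have h1 : ∫ x, Mk_K l x = ∫ x : E3, (Iio l).indicator (fun r : ℝ => r ^ (-(8/3) : ℝ)) ‖x‖ :=
      integral_congr_ae (Filter.Eventually.of_forall fun x => Mk_K_eq l x)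
    rw [h1, integral_fun_norm_addHaar volume, hd]
    have h2 : ∫ y in Ioi (0 : ℝ), y ^ (3 - 1) • (Iio l).indicator (fun r : ℝ => r ^ (-(8/3) : ℝ)) y =
        3 * l ^ (1/3 : ℝ) := by
      have h3 : ∫ y in Ioi (0 : ℝ), y ^ (3 - 1) • (Iio l).indicator (fun r : ℝ => r ^ (-(8/3) : ℝ)) y =
          ∫ y in Ioi (0 : ℝ), (Ioo 0 l).indicator (fun r : ℝ => r ^ (-(2/3) : ℝ)) y := by
        refine setIntegral_congr_fun measurableSet_Ioi fun r hr => ?_
        have hr1 : 0 < r := hr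
        beta_reduce
        by_cases h : r < l
        · rw [Set.indicator_of_mem (Set.mem_Iio.2 h), Set.indicator_of_mem (Set.mem_Ioo.2 ⟨hr1, h⟩),
            smul_eq_mul, Mk_rp hr1]
        · rw [Set.indicator_of_notMem (by rwa [Set.mem_Iio]), Set.indicator_of_notMem (by
            rw [Set.mem_Ioo]
            exact fun h' => h h'.2), smul_zero]
      rw [h3, setIntegral_indicator measurableSet_Ioo,
        Set.inter_eq_self_of_subset_right Ioo_subset_Ioi_self, ← integral_Ioc_eq_integral_Ioo,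
        ← intervalIntegral.integral_of_le hl.le, integral_rpow (Or.inl (by norm_num))]
      have h4 : (-(2/3) : ℝ) + 1 = 1/3 := by norm_num
      rw [h4, Real.zero_rpow (by norm_num)]
      ring
    rw [h2]
    have h4 : (volume : Measure E3).real (Metric.ball 0 1) = Real.pi * 4 / 3 := by
      rw [Measure.real, EuclideanSpace.volume_ball_fin_three, ENNReal.ofReal_one, one_pow, one_mul,
        ENNReal.toReal_ofReal (by positivity)]
    rw [h4]
    simp only [nsmul_eq_mul, smul_eq_mul]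
    push_cast
    have h5 : 0 ≤ l ^ (1/3 : ℝ) := Real.rpow_nonneg hl.le _
    nlinarith [Real.pi_lt_d2]

theorem Mk_Ks {l : ℝ} (hl : 0 < l) (y : E3) : Integrable (fun x => Mk_K l (x - y)) :=
  (Mk_K_int hl).1.comp_sub_right y

theorem Mk_ind (l : ℝ) (y : E3) (φ : E3 → ℝ) : (fun x => Mk_K l (x - y) * φ x) =
    (Metric.ball y l).indicator (fun x : E3 => ‖x - y‖ ^ (-(8/3) : ℝ) * φ x) := by
  funext x
  by_cases h : x ∈ Metric.ball y l
  · have h' : x - y ∈ Metric.ball (0 : E3) l := by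
      rwa [mem_ball_zero_iff, ← dist_eq_norm]
    rw [Set.indicator_of_mem h, Mk_K, Set.indicator_of_mem h']
  · have h' : x - y ∉ Metric.ball (0 : E3) l := by
      rwa [mem_ball_zero_iff, ← dist_eq_norm]
    rw [Set.indicator_of_notMem h, Mk_K, Set.indicator_of_notMem h', zero_mul]

/-- the double integral with one function -/
theorem Mk_dbl {l : ℝ} (hl : 0 < l) {φ : E3 → ℝ} (hφ : Integrable φ) (h0 : ∀ x, 0 ≤ φ x) :
    Integrable (fun y => ∫ x, Mk_K l (x - y) * φ x) ∧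
      ∫ y, (∫ x, Mk_K l (x - y) * φ x) ≤ 38 * l ^ (1/3 : ℝ) * ∫ x, φ x := by
  have h1 : Integrable (fun p : E3 × E3 => φ p.2 * Mk_K l (p.1 - p.2)) (volume.prod volume) :=
    Integrable.convolution_integrand (ContinuousLinearMap.mul ℝ ℝ) hφ (Mk_K_int hl).1
  have h2 : (fun y => ∫ x, Mk_K l (x - y) * φ x) = fun y => ∫ x, φ x * Mk_K l (y - x) := by
    funext y
    refine integral_congr_ae (Filter.Eventually.of_forall fun x => ?_)
    beta_reduce
    rw [Mk_K_symm, mul_comm]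
  rw [h2]
  refine ⟨h1.integral_prod_left, ?_⟩
  rw [integral_integral_swap (f := fun y x => φ x * Mk_K l (y - x)) h1]
  have h3 : ∀ x, ∫ y, φ x * Mk_K l (y - x) = φ x * ∫ y, Mk_K l y := fun x => by
    rw [integral_const_mul, integral_sub_right_eq_self (fun x => Mk_K l x)]
  rw [integral_congr_ae (Filter.Eventually.of_forall h3), integral_mul_const, mul_comm]
  exact mul_le_mul_of_nonneg_right (Mk_K_int hl).2 (integral_nonneg h0)

theorem Mk_cs {μ : Measure E3} {g h : E3 → ℝ} (hg : AEStronglyMeasurable g μ)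
    (hh : AEStronglyMeasurable h μ) (ig : Integrable (fun x => g x ^ 2) μ)
    (ih : Integrable (fun x => h x ^ 2) μ) :
    (∫ x, g x * h x ∂μ) ^ 2 ≤ (∫ x, g x ^ 2 ∂μ) * ∫ x, h x ^ 2 ∂μ := by
  have igh : Integrable (fun x => g x * h x) μ := by
    refine (ig.add ih).mono' (hg.mul hh) (Eventually.of_forall fun x => ?_)
    rw [Pi.add_apply, Real.norm_eq_abs, abs_mul]
    nlinarith [sq_nonneg (|g x| - |h x|), sq_abs (g x), sq_abs (h x), sq_nonneg (g x),
      sq_nonneg (h x)]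
  have key : ∀ t : ℝ, 0 ≤ (∫ x, h x ^ 2 ∂μ) * (t * t) + (-2 * ∫ x, g x * h x ∂μ) * t +
      ∫ x, g x ^ 2 ∂μ := by
    intro t
    have h1 : ∫ x, (g x - t * h x) ^ 2 ∂μ = (∫ x, h x ^ 2 ∂μ) * (t * t) +
        (-2 * ∫ x, g x * h x ∂μ) * t + ∫ x, g x ^ 2 ∂μ := by
      have h2 : ∀ x, (g x - t * h x) ^ 2 = (t * t) * h x ^ 2 + (-2 * t) * (g x * h x) + g x ^ 2 :=
        fun x => by ring
      have h5 : Integrable (fun x => (t * t) * h x ^ 2 + (-2 * t) * (g x * h x)) μ :=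
        (ih.const_mul _).add (igh.const_mul _)
      rw [integral_congr_ae (Eventually.of_forall h2), integral_add h5 ig,
        integral_add (ih.const_mul _) (igh.const_mul _), integral_const_mul, integral_const_mul]
      ring
    rw [← h1]
    exact integral_nonneg fun x => sq_nonneg _
  have h3 := discrim_le_zero key
  unfold discrim at h3
  nlinarith

theorem Mk_id {r : ℝ} (hr : 0 ≤ r) : (r ^ 2)⁻¹ = r ^ (-(4/3) : ℝ) * r ^ (-(2/3) : ℝ) ∧
    (r ^ (-(4/3) : ℝ)) ^ 2 = r ^ (-(8/3) : ℝ) ∧ (r ^ (-(2/3) : ℝ)) ^ 2 = r ^ (-(4/3) : ℝ) := by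
  rcases hr.eq_or_lt with h | h
  · subst h
    rw [Real.zero_rpow (by norm_num), Real.zero_rpow (by norm_num), Real.zero_rpow (by norm_num)]
    norm_num
  · refine ⟨?_, ?_, ?_⟩
    · rw [← Real.rpow_add h, ← Real.rpow_two, ← Real.rpow_neg h.le]
      norm_num
    · rw [← Real.rpow_two, ← Real.rpow_mul h.le]
      norm_num
    · rw [← Real.rpow_two, ← Real.rpow_mul h.le]
      norm_num

theorem k83 {l : ℝ} (hl : 0 < l) (y : E3) : IntegrableOn (fun x : E3 => ‖x - y‖ ^ (-(8/3) : ℝ)) (Metric.ball y l) ∧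
    ∫ x in Metric.ball y l, ‖x - y‖ ^ (-(8/3) : ℝ) ≤ 38 * l ^ (1/3 : ℝ) := by
  have h1 := Mk_ind l y (fun _ => 1)
  simp only [mul_one] at h1
  have h2 := Mk_Ks hl y
  have h3 : ∫ x, Mk_K l (x - y) ≤ 38 * l ^ (1/3 : ℝ) := by
    rw [integral_sub_right_eq_self (fun x => Mk_K l x)]
    exact (Mk_K_int hl).2
  rw [h1] at h2 h3
  exact ⟨(integrable_indicator_iff measurableSet_ball).1 h2, by
    rwa [integral_indicator measurableSet_ball] at h3⟩

theorem k4 {l K : ℝ} (hl : 0 < l) {f : E3 → ℝ} (hf : Continuous f) (hK : ∀ x, 0 ≤ f x ∧ f x ≤ K) (y : E3) :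
    (∫ x in Metric.ball y l, (‖x - y‖ ^ 2)⁻¹ * f x) ^ 4 ≤ (∫ x in Metric.ball y l, ‖x - y‖ ^ (-(8/3) : ℝ)) ^ 2 *
      (∫ x in Metric.ball y l, ‖x - y‖ ^ (-(8/3) : ℝ) * f x ^ 2) * ∫ x in Metric.ball y l, f x ^ 2 := by
  obtain ⟨ia, -⟩ := k83 hl y
  have hmr : ∀ r : ℝ, Measurable (fun x : E3 => ‖x - y‖ ^ r) := fun r =>
    (measurable_norm.comp (measurable_id.sub_const y)).pow_const r
  have hbd : ∀ x, ‖f x ^ 2‖ ≤ K ^ 2 := fun x => by
    rw [Real.norm_eq_abs, abs_of_nonneg (sq_nonneg _)]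
    exact pow_le_pow_left₀ (hK x).1 (hK x).2 2
  have iaf : IntegrableOn (fun x : E3 => ‖x - y‖ ^ (-(8/3) : ℝ) * f x ^ 2) (Metric.ball y l) :=
    Integrable.mul_bdd (c := K ^ 2) ia (hf.pow 2).aestronglyMeasurable
      (Filter.Eventually.of_forall hbd)
  have hfin : volume (Metric.ball y l) < ⊤ := measure_ball_lt_top
  have i1 : IntegrableOn (fun _ : E3 => (1 : ℝ)) (Metric.ball y l) :=
    integrableOn_const hfin.ne
  have iff : IntegrableOn (fun x : E3 => f x ^ 2) (Metric.ball y l) := by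
    refine Integrable.mono' (i1.const_mul (K ^ 2)) (hf.pow 2).aestronglyMeasurable
      (Filter.Eventually.of_forall fun x => ?_)
    rw [mul_one]
    exact hbd x
  have iq : IntegrableOn (fun x : E3 => ‖x - y‖ ^ (-(4/3) : ℝ)) (Metric.ball y l) := by
    refine Integrable.mono' (i1.add ia) (hmr _).aestronglyMeasurable
      (Filter.Eventually.of_forall fun x => ?_)
    have h1 := (Mk_id (norm_nonneg (x - y))).2.1
    have h2 : 0 ≤ ‖x - y‖ ^ (-(4/3) : ℝ) := Real.rpow_nonneg (norm_nonneg _) _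
    rw [Pi.add_apply, Real.norm_eq_abs, abs_of_nonneg h2, ← h1]
    nlinarith [sq_nonneg (‖x - y‖ ^ (-(4/3) : ℝ) - 1)]
  have iqf : IntegrableOn (fun x : E3 => ‖x - y‖ ^ (-(4/3) : ℝ) * f x ^ 2) (Metric.ball y l) :=
    Integrable.mul_bdd (c := K ^ 2) iq (hf.pow 2).aestronglyMeasurable
      (Filter.Eventually.of_forall hbd)
  have e1 : ∀ x : E3, (‖x - y‖ ^ (-(4/3) : ℝ)) ^ 2 = ‖x - y‖ ^ (-(8/3) : ℝ) := fun x =>
    (Mk_id (norm_nonneg (x - y))).2.1
  have e2 : ∀ x : E3, (‖x - y‖ ^ (-(2/3) : ℝ) * f x) ^ 2 = ‖x - y‖ ^ (-(4/3) : ℝ) * f x ^ 2 :=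
    fun x => by rw [mul_pow, (Mk_id (norm_nonneg (x - y))).2.2]
  have e3 : ∀ x : E3, (‖x - y‖ ^ (-(4/3) : ℝ) * f x) ^ 2 = ‖x - y‖ ^ (-(8/3) : ℝ) * f x ^ 2 :=
    fun x => by rw [mul_pow, e1]
  have c1 := Mk_cs (μ := volume.restrict (Metric.ball y l)) (g := fun x => ‖x - y‖ ^ (-(4/3) : ℝ))
    (h := fun x => ‖x - y‖ ^ (-(2/3) : ℝ) * f x) (hmr _).aestronglyMeasurable
    ((hmr _).aestronglyMeasurable.mul hf.aestronglyMeasurable)
    (by simp only [e1]; exact ia) (by simp only [e2]; exact iqf)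
  have c2 := Mk_cs (μ := volume.restrict (Metric.ball y l))
    (g := fun x => ‖x - y‖ ^ (-(4/3) : ℝ) * f x) (h := f)
    ((hmr _).aestronglyMeasurable.mul hf.aestronglyMeasurable) hf.aestronglyMeasurable
    (by simp only [e3]; exact iaf) iff
  simp only [e1, e2] at c1
  simp only [e3] at c2
  have e4 : ∀ x : E3, ‖x - y‖ ^ (-(4/3) : ℝ) * (‖x - y‖ ^ (-(2/3) : ℝ) * f x) =
      (‖x - y‖ ^ 2)⁻¹ * f x := fun x => by
    rw [(Mk_id (norm_nonneg (x - y))).1, mul_assoc]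
  have e5 : ∀ x : E3, ‖x - y‖ ^ (-(4/3) : ℝ) * f x * f x = ‖x - y‖ ^ (-(4/3) : ℝ) * f x ^ 2 :=
    fun x => by ring
  simp only [e4] at c1
  simp only [e5] at c2
  have hA : 0 ≤ ∫ x in Metric.ball y l, ‖x - y‖ ^ (-(8/3) : ℝ) :=
    integral_nonneg fun x => Real.rpow_nonneg (norm_nonneg _) _
  calc (∫ x in Metric.ball y l, (‖x - y‖ ^ 2)⁻¹ * f x) ^ 4
      = ((∫ x in Metric.ball y l, (‖x - y‖ ^ 2)⁻¹ * f x) ^ 2) ^ 2 := by ring
    _ ≤ ((∫ x in Metric.ball y l, ‖x - y‖ ^ (-(8/3) : ℝ)) *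
        ∫ x in Metric.ball y l, ‖x - y‖ ^ (-(4/3) : ℝ) * f x ^ 2) ^ 2 :=
        pow_le_pow_left₀ (sq_nonneg _) c1 2
    _ = (∫ x in Metric.ball y l, ‖x - y‖ ^ (-(8/3) : ℝ)) ^ 2 *
        (∫ x in Metric.ball y l, ‖x - y‖ ^ (-(4/3) : ℝ) * f x ^ 2) ^ 2 := by ring
    _ ≤ (∫ x in Metric.ball y l, ‖x - y‖ ^ (-(8/3) : ℝ)) ^ 2 *
        ((∫ x in Metric.ball y l, ‖x - y‖ ^ (-(8/3) : ℝ) * f x ^ 2) *
        ∫ x in Metric.ball y l, f x ^ 2) := mul_le_mul_of_nonneg_left c2 (sq_nonneg _)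
    _ = _ := by ring

theorem m2 : ∃ C : ℝ, 1 ≤ C ∧ ∀ (f : E3 → ℝ) (K k₀ : ℝ), Continuous f → (∀ x, 0 ≤ f x ∧ f x ≤ K) → Integrable (fun x => f x ^ 2) →
    (∀ ρ z : ℝ, 0 < ρ → ∫ x in cy ρ ρ z, f x ^ 2 ≤ k₀ * ρ) → ∀ R L z : ℝ, 0 < R → R ≤ L →
    Integrable (fun y => NE (2 * R) f y ^ 4 * wt R L z y) ∧ ∫ y, NE (2 * R) f y ^ 4 * wt R L z y ≤ C * k₀ ^ 2 * R ^ 2 * L := by
  obtain ⟨C1, hC1, hm1⟩ := m1
  refine ⟨2 * 1444 * 38 * 16384 * C1, by linarith, ?_⟩
  intro f K k₀ hf hK hi hmor R L z hR hL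
  have hL0 : 0 < L := lt_of_lt_of_le hR hL
  have hl : 0 < 2 * R := by positivity
  have hk0 : 0 ≤ k₀ := by
    have h1 := hmor 1 0 one_pos
    have h2 : 0 ≤ ∫ x in cy 1 1 0, f x ^ 2 := integral_nonneg fun x => sq_nonneg _
    linarith
  obtain ⟨j1, j2⟩ := hm1 (fun x => f x ^ 2) k₀ (hf.pow 2) (fun x => sq_nonneg _) hi hmor R L z hR hL
  have hw := wt_pos hR hL0 z
  have hw1 := wt_le hR hL0 z
  have hwc : Continuous (wt R L z) := (wt_sm hR hL0 z).continuous
  -- the majorant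
  obtain ⟨Φ, hΦ⟩ : ∃ Φ : E3 → ℝ, Φ = fun x => 16384 * R * (f x ^ 2 * ((1 + rad x / R) * wt R L z x)) :=
    ⟨_, rfl⟩
  have hr0 : ∀ x : E3, 0 ≤ rad x := fun x => rad_nonneg x
  have hΦ0 : ∀ x, 0 ≤ Φ x := fun x => by
    rw [hΦ]
    have := hr0 x
    have := hw x
    positivity
  have hΦi : Integrable Φ := by
    rw [hΦ]
    exact j1.const_mul _
  have hΦv : ∫ x, Φ x ≤ 16384 * R * (C1 * k₀ * L) := by
    rw [hΦ, integral_const_mul]
    exact mul_le_mul_of_nonneg_left j2 (by positivity)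
  have hΦc : Continuous Φ := by
    rw [hΦ]
    exact continuous_const.mul ((hf.pow 2).mul ((continuous_const.add
      (continuous_rad.div_const R)).mul hwc))
  have hwb : ∀ x, (1 + rad x / R) * wt R L z x ≤ 2 := fun x => by
    have e1 : rad x ^ 2 = rsq x := Real.sq_sqrt (by positivity)
    have e2 : wt R L z x ≤ ((1 + rsq x / R ^ 2) ^ 2)⁻¹ := by
      unfold wt
      have e3 : (1 + (x 2 - z) ^ 2 / L ^ 2)⁻¹ ≤ 1 := inv_le_one_of_one_le₀ (by
        have : 0 ≤ (x 2 - z) ^ 2 / L ^ 2 := by positivity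
        linarith)
      exact mul_le_of_le_one_right (by positivity) e3
    obtain ⟨s, hs⟩ : ∃ s, s = rad x / R := ⟨_, rfl⟩
    have hs0 : 0 ≤ s := by
      rw [hs]
      exact div_nonneg (hr0 x) hR.le
    have e4 : rsq x / R ^ 2 = s ^ 2 := by rw [hs, div_pow, e1]
    rw [e4] at e2
    rw [← hs]
    calc (1 + s) * wt R L z x ≤ (1 + s) * ((1 + s ^ 2) ^ 2)⁻¹ :=
          mul_le_mul_of_nonneg_left e2 (by linarith)
      _ ≤ 2 := by
        rw [← div_eq_mul_inv, div_le_iff₀ (by positivity)]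
        nlinarith [sq_nonneg (s - 1), sq_nonneg s, sq_nonneg (s ^ 2)]
  have hΦb : ∀ x, ‖Φ x‖ ≤ 16384 * R * (K ^ 2 * 2) := fun x => by
    rw [Real.norm_eq_abs, abs_of_nonneg (hΦ0 x), hΦ]
    refine mul_le_mul_of_nonneg_left ?_ (by positivity)
    refine mul_le_mul (pow_le_pow_left₀ (hK x).1 (hK x).2 2) (hwb x) ?_ (sq_nonneg _)
    have := hr0 x
    have := hw x
    positivity
  obtain ⟨d1, d2⟩ := Mk_dbl hl hΦi hΦ0
  obtain ⟨c, hc⟩ : ∃ c : ℝ, c = 1444 * ((2 * R) ^ (1/3 : ℝ)) ^ 2 * k₀ := ⟨_, rfl⟩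
  have hc0 : 0 ≤ c := by
    rw [hc]
    positivity
  have hpt : ∀ y, NE (2 * R) f y ^ 4 * wt R L z y ≤ c * ∫ x, Mk_K (2 * R) (x - y) * Φ x := by
    intro y
    have e1 : NE (2 * R) f y = ∫ x in Metric.ball y (2 * R), (‖x - y‖ ^ 2)⁻¹ * f x := by
      unfold NE
      refine integral_congr_ae (Filter.Eventually.of_forall fun x => ?_)
      beta_reduce
      rw [abs_of_nonneg (hK x).1]
    have e2 := k4 hl hf hK y
    rw [← e1] at e2
    obtain ⟨-, e3⟩ := k83 hl y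
    have hA0 : 0 ≤ ∫ x in Metric.ball y (2 * R), ‖x - y‖ ^ (-(8/3) : ℝ) :=
      integral_nonneg fun x => Real.rpow_nonneg (norm_nonneg _) _
    have hB0 : 0 ≤ ∫ x in Metric.ball y (2 * R), ‖x - y‖ ^ (-(8/3) : ℝ) * f x ^ 2 :=
      integral_nonneg fun x => mul_nonneg (Real.rpow_nonneg (norm_nonneg _) _) (sq_nonneg _)
    have hD0 : 0 ≤ ∫ x in Metric.ball y (2 * R), f x ^ 2 := integral_nonneg fun x => sq_nonneg _
    have e4 : ∫ x in Metric.ball y (2 * R), f x ^ 2 ≤ k₀ * (rad y + 2 * R) := by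
      have hpos : 0 < rad y + 2 * R := by
        have := hr0 y
        linarith
      refine le_trans ?_ (hmor (rad y + 2 * R) (y 2) hpos)
      refine setIntegral_mono_set hi.integrableOn (Filter.Eventually.of_forall fun x => sq_nonneg _)
        (Filter.Eventually.of_forall fun x hx => ?_)
      have hx' : ‖x - y‖ < 2 * R := by
        rw [← dist_eq_norm]
        exact hx
      have h5 := (abs_le.1 (rad_lip x y)).2
      have h6 : |x 2 - y 2| ≤ ‖x - y‖ := PiLp.norm_apply_le (x - y) 2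
      have h7 := hr0 y
      exact ⟨by linarith, by linarith⟩
    have e5 : NE (2 * R) f y ^ 4 ≤ c * (rad y + 2 * R) *
        ∫ x in Metric.ball y (2 * R), ‖x - y‖ ^ (-(8/3) : ℝ) * f x ^ 2 := by
      refine e2.trans ?_
      have h5 : (∫ x in Metric.ball y (2 * R), ‖x - y‖ ^ (-(8/3) : ℝ)) ^ 2 ≤
          (38 * (2 * R) ^ (1/3 : ℝ)) ^ 2 := pow_le_pow_left₀ hA0 e3 2
      have hy0 := hr0 y
      calc _ ≤ (38 * (2 * R) ^ (1/3 : ℝ)) ^ 2 *
            (∫ x in Metric.ball y (2 * R), ‖x - y‖ ^ (-(8/3) : ℝ) * f x ^ 2) *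
            (k₀ * (rad y + 2 * R)) := by
            refine mul_le_mul (mul_le_mul_of_nonneg_right h5 hB0) e4 hD0 ?_
            exact mul_nonneg (sq_nonneg _) hB0
        _ = _ := by
            rw [hc]
            ring
    have e6 : ∫ x in Metric.ball y (2 * R), ‖x - y‖ ^ (-(8/3) : ℝ) * f x ^ 2 =
        ∫ x, Mk_K (2 * R) (x - y) * f x ^ 2 := by
      rw [Mk_ind (2 * R) y (fun x => f x ^ 2), integral_indicator measurableSet_ball]
    rw [e6] at e5
    have i2 : Integrable (fun x => Mk_K (2 * R) (x - y) * Φ x) :=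
      Integrable.mul_bdd (c := 16384 * R * (K ^ 2 * 2)) (Mk_Ks hl y) hΦc.aestronglyMeasurable
        (Filter.Eventually.of_forall hΦb)
    have e7 : (rad y + 2 * R) * wt R L z y * ∫ x, Mk_K (2 * R) (x - y) * f x ^ 2 ≤
        ∫ x, Mk_K (2 * R) (x - y) * Φ x := by
      rw [← integral_const_mul]
      refine integral_mono_of_nonneg (Filter.Eventually.of_forall fun x => ?_) i2
        (Filter.Eventually.of_forall fun x => ?_)
      · have h1 := hr0 y
        have h2 := hw y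
        have h3 := Mk_K_nn (2 * R) (x - y)
        show 0 ≤ (rad y + 2 * R) * wt R L z y * (Mk_K (2 * R) (x - y) * f x ^ 2)
        positivity
      · beta_reduce
        by_cases h : ‖x - y‖ < 2 * R
        · have h1 : wt R L z y ≤ 64 * (2 : ℝ) ^ 6 * wt R L z x :=
            wt_cmp one_le_two hR hL z (by rw [norm_sub_rev]; exact h.le)
          have h2 := (abs_le.1 (rad_lip x y)).1
          have h3 : rad y + 2 * R ≤ 4 * R * (1 + rad x / R) := by
            have h4 : 4 * R * (1 + rad x / R) = 4 * R + 4 * rad x := by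
              field_simp
            rw [h4]
            have := hr0 x
            linarith
          have h5 : (rad y + 2 * R) * wt R L z y ≤
              4 * R * (1 + rad x / R) * (64 * (2 : ℝ) ^ 6 * wt R L z x) := by
            refine mul_le_mul h3 h1 (hw y).le ?_
            have := hr0 x
            positivity
          have h6 : 0 ≤ Mk_K (2 * R) (x - y) * f x ^ 2 :=
            mul_nonneg (Mk_K_nn _ _) (sq_nonneg _)
          calc (rad y + 2 * R) * wt R L z y * (Mk_K (2 * R) (x - y) * f x ^ 2) ≤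
                4 * R * (1 + rad x / R) * (64 * (2 : ℝ) ^ 6 * wt R L z x) *
                  (Mk_K (2 * R) (x - y) * f x ^ 2) := mul_le_mul_of_nonneg_right h5 h6
            _ = Mk_K (2 * R) (x - y) * Φ x := by
                rw [hΦ]
                ring
        · have h1 : Mk_K (2 * R) (x - y) = 0 := by
            rw [Mk_K_eq, Set.indicator_of_notMem (by rwa [Set.mem_Iio])]
          rw [h1, zero_mul, zero_mul, mul_zero]
    calc NE (2 * R) f y ^ 4 * wt R L z y ≤ c * (rad y + 2 * R) *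
          (∫ x, Mk_K (2 * R) (x - y) * f x ^ 2) * wt R L z y :=
          mul_le_mul_of_nonneg_right e5 (hw y).le
      _ = c * ((rad y + 2 * R) * wt R L z y * ∫ x, Mk_K (2 * R) (x - y) * f x ^ 2) := by ring
      _ ≤ _ := mul_le_mul_of_nonneg_left e7 hc0
  have hmeas : StronglyMeasurable (fun y => NE (2 * R) f y) := by
    have h1 : (fun y => NE (2 * R) f y) = fun y => ∫ x, We_K (2 * R) (x - y) * |f x| := by
      funext y
      exact We_NE (2 * R) f y
    rw [h1]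
    have h2 : Measurable (We_K (2 * R)) := by
      have h3 : Measurable (fun x : E3 => (‖x‖ ^ 2)⁻¹) := (measurable_norm.pow_const 2).inv
      exact h3.indicator measurableSet_ball
    have h4 : StronglyMeasurable (fun p : E3 × E3 => We_K (2 * R) (p.2 - p.1) * |f p.2|) := by
      refine Measurable.stronglyMeasurable ?_
      exact (h2.comp (measurable_snd.sub measurable_fst)).mul
        ((hf.abs.measurable).comp measurable_snd)
    exact h4.integral_prod_right'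
  have hnn : ∀ y, 0 ≤ NE (2 * R) f y ^ 4 * wt R L z y := fun y =>
    mul_nonneg (by positivity) (hw y).le
  have hint : Integrable (fun y => NE (2 * R) f y ^ 4 * wt R L z y) := by
    refine Integrable.mono' (d1.const_mul c) ?_ (Filter.Eventually.of_forall fun y => ?_)
    · exact ((hmeas.pow 4).mul hwc.stronglyMeasurable).aestronglyMeasurable
    · rw [Real.norm_eq_abs, abs_of_nonneg (hnn y)]
      exact hpt y
  refine ⟨hint, ?_⟩
  have h1 := integral_mono hint (d1.const_mul c) hpt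
  rw [integral_const_mul] at h1
  have hrp : ((2 * R) ^ (1/3 : ℝ)) ^ 3 = 2 * R := by
    rw [← Real.rpow_natCast, ← Real.rpow_mul hl.le]
    norm_num
  have hq0 : 0 ≤ (2 * R) ^ (1/3 : ℝ) := Real.rpow_nonneg hl.le _
  calc ∫ y, NE (2 * R) f y ^ 4 * wt R L z y ≤
        c * ∫ y, (∫ x, Mk_K (2 * R) (x - y) * Φ x) := h1
    _ ≤ c * (38 * (2 * R) ^ (1/3 : ℝ) * (16384 * R * (C1 * k₀ * L))) := by
        refine mul_le_mul_of_nonneg_left (d2.trans ?_) hc0
        exact mul_le_mul_of_nonneg_left hΦv (by positivity)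
    _ = 1444 * 38 * 16384 * C1 * k₀ ^ 2 * R * L * ((2 * R) ^ (1/3 : ℝ)) ^ 3 := by
        rw [hc]
        ring
    _ = _ := by
        rw [hrp]
        ring

end Pool.Agent.H94.WL
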