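/-
ROW Fb (MP_09540e_WL). Second moments. PROOF. mU: m1 with `f = ur v ^ 2`, `k₀ = κ²` (h.mor; ur² ≤ ‖v‖² integrable; `1 ≤ 1 + rad x / R`), and m2 with `f = |ur v|`, `k₀ = κ²` (|ur| ≤ ‖v‖ ≤ K; NE l f only sees |f|). fs: `Ψ = wt R L z`, c = 4/R, Wc c Ψ (wt_wc). (1) as f2 in TU/Fb.lean (f1 of WL/Fa.lean with `G = v₂ Ψ`): `∫ v₂² Ψ ≤ 2 η DD + N² (1/(2η) + 4c²) VV`,
`4 c² = 64/R² ≤ 64/η`. (2) rad x ≤ b: `ut² = (rad |ut|)(|ut|/rad) ≤ κ √gv ≤ η gv + κ²/(4η)` (ur_f, h.cir, ur_g; for rad x = 0, ut = 0). (3) rad x ≥ b: `ut² ≤ θ ut⁴ + 1/(4θ)` with θ = η/(4κ), l2d (Ld.lean), h.en: `∫_{b≤rad} ut² Ψ ≤ θ κ (2 DD + 2/R² SS) + (κ/η) VV ≤ (η/2) DD + SS/2 + (κ/η) VV` (η ≤ R²).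
(4) mU for ur². Sum (`‖v‖² = ur² + ut² + v₂²`): `SS ≤ (7/2) η DD + 67 (N²/η) VV + SS/2 + C_m κ² L`, i.e. `SS ≤ 7 η DD + 134 (N²/η) VV + 2 C_m κ² L`.
-/
import Pool.Agent.H94.WL.Fa
import Pool.Agent.H94.WL.Ld
import Pool.Agent.H94.WL.Mk
import Pool.Agent.H16.TU.Fb

set_option autoImplicit false

open Set Filter Topology MeasureTheory
open scoped ContDiff

namespace Pool.Agent.H94.WL

open Pool.Agent.H16 Pool.Agent.H87.NS Pool.Agent.H72.CC Pool.Agent.H16.TU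

private theorem Fb_rad (x : E3) : rad x ^ 2 = rsq x := Real.sq_sqrt (by positivity)

private theorem Fb_f2 {κ N b c η : ℝ} {v : E3 → E3} {Ψ : E3 → ℝ} (h : Sm κ N b v) (w : Wc c Ψ) (hη : 0 < η) :
    ∫ x, v x 2 ^ 2 * Ψ x ≤ 2 * η * DD v Ψ + N ^ 2 * (1 / (2 * η) + 4 * c ^ 2) * VV Ψ := by
  obtain ⟨K, hK0, hK, -, -⟩ := ba_vf h.vf
  have hv := h.ax.smooth
  have hK' : ∀ x, ‖v x‖ ≤ K ∧ gv v x ≤ K := fun x => ⟨(hK x).1, (hK x).2.1⟩
  have hN : 1 ≤ N := h.one.trans h.le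
  obtain ⟨i1, -, -, i2, i3, -⟩ := Fb_one w hv hK' 2
  obtain ⟨-, -, -, -, -, i4⟩ := Fb_one w hv hK' 1
  have hf : ContDiff ℝ 1 (fun x => v x 2) := (Bds1_proj_smooth hv 2).of_le (by norm_cast)
  have hTF : TF (fun x => v x 2 * Ψ x) := ba_tf (K := K) w hf fun x =>
    ⟨(ba_gv x 0 0).2.2.2.2.2.1.trans (hK x).1, fun i => (hK x).2.2.1 i 2⟩
  have e1 := (le_abs_self _).trans (f1 h hTF)
  have e2 : ∫ x, hg (fun x => v x 2 * Ψ x) x ≤ ∫ x, (√(gv v x) * Ψ x + 2 * c * (|v x 2| ^ 1 * Ψ x)) := by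
    refine integral_mono_of_nonneg (ae_of_all _ fun x => Real.sqrt_nonneg _) (i3.add (i4.const_mul _)) (ae_of_all _ fun x => ?_)
    have a1 := ba_hg (f := fun x => v x 2) (Ψ := Ψ) (x := x) (hf.differentiable (by norm_num) x) (w.sm.differentiable (by simp) x)
    have a2 := ba_hgw w x
    have a3 := (ba_gv (v := v) x 0 2).2.2.2.1
    have a4 : |Ψ x| = Ψ x := abs_of_nonneg (w.nn x)
    rw [a4] at a1
    have a5 : hg (fun x => v x 2) x * Ψ x ≤ √(gv v x) * Ψ x := mul_le_mul_of_nonneg_right a3 (w.nn x)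
    have a6 : |v x 2| * hg Ψ x ≤ |v x 2| * (2 * c * Ψ x) := mul_le_mul_of_nonneg_left a2 (abs_nonneg _)
    show hg (fun x => v x 2 * Ψ x) x ≤ √(gv v x) * Ψ x + 2 * c * (|v x 2| ^ 1 * Ψ x)
    rw [pow_one]
    linarith
  have e3 : N * ∫ x, (√(gv v x) * Ψ x + 2 * c * (|v x 2| ^ 1 * Ψ x)) ≤
      ∫ x, (η * (gv v x * Ψ x) + (N ^ 2 * (1 / (4 * η) + 2 * c ^ 2)) * Ψ x + (1/2) * (v x 2 ^ 2 * Ψ x)) := by
    rw [← integral_const_mul]
    refine integral_mono ((i3.add (i4.const_mul _)).const_mul N) (((i1.const_mul _).add (w.int.const_mul _)).add (i2.const_mul _)) fun x => ?_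
    have b0 : √(gv v x) ^ 2 = gv v x := Real.sq_sqrt (ba_gv x 0 0).1
    have b1 : N * √(gv v x) ≤ η * gv v x + N ^ 2 * (1 / (4 * η)) := by
      have b0' : η * gv v x = η * √(gv v x) ^ 2 := by rw [b0]
      have b2 : η * √(gv v x) ^ 2 + N ^ 2 * (1 / (4 * η)) - N * √(gv v x) = (2 * η * √(gv v x) - N) ^ 2 / (4 * η) := by
        field_simp; ring
      have b3 : 0 ≤ (2 * η * √(gv v x) - N) ^ 2 / (4 * η) := by positivity
      linarith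
    have b4 : N * (2 * c * |v x 2|) ≤ N ^ 2 * (2 * c ^ 2) + (1/2) * v x 2 ^ 2 := by
      have b5 : |v x 2| ^ 2 = v x 2 ^ 2 := sq_abs _
      nlinarith [sq_nonneg (|v x 2| - 2 * c * N)]
    have b6 := mul_le_mul_of_nonneg_right (add_le_add b1 b4) (w.nn x)
    show N * (√(gv v x) * Ψ x + 2 * c * (|v x 2| ^ 1 * Ψ x)) ≤ η * (gv v x * Ψ x) + (N ^ 2 * (1 / (4 * η) + 2 * c ^ 2)) * Ψ x + (1/2) * (v x 2 ^ 2 * Ψ x)
    rw [pow_one]
    linarith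
  rw [Fb_lc i1 w.int i2] at e3
  have e4 : ∫ x, v x 2 * (v x 2 * Ψ x) = ∫ x, v x 2 ^ 2 * Ψ x := by
    refine integral_congr_ae (ae_of_all _ fun x => ?_)
    show v x 2 * (v x 2 * Ψ x) = v x 2 ^ 2 * Ψ x
    ring
  rw [e4] at e1
  have e5 := mul_le_mul_of_nonneg_left e2 (by linarith : (0:ℝ) ≤ N)
  have e6 : (∫ x, v x 2 ^ 2 * Ψ x) ≤ η * DD v Ψ + (N ^ 2 * (1 / (4 * η) + 2 * c ^ 2)) * VV Ψ + (1/2) * ∫ x, v x 2 ^ 2 * Ψ x := by
    unfold DD VV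
    linarith
  have e7 : N ^ 2 * (1 / (2 * η) + 4 * c ^ 2) * VV Ψ = 2 * ((N ^ 2 * (1 / (4 * η) + 2 * c ^ 2)) * VV Ψ) := by
    field_simp; ring
  rw [e7]
  linarith

private theorem Fb_le {v : E3 → E3} (h : AxF v) (x : E3) : ur v x ^ 2 ≤ ‖v x‖ ^ 2 ∧ ut v x ^ 2 ≤ ‖v x‖ ^ 2 := by
  have h1 := (ur_f h x).2.2.2.1
  have h2 := sq_nonneg (ur v x)
  have h3 := sq_nonneg (ut v x)
  have h4 := sq_nonneg (v x 2)
  constructor <;> linarith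

theorem mU : ∃ C : ℝ, 1 ≤ C ∧ ∀ (κ N b R L z : ℝ) (v : E3 → E3), Sm κ N b v → 0 < R → R ≤ L →
    (∫ x, ur v x ^ 2 * wt R L z x ≤ C * κ ^ 2 * L) ∧ (∫ x, ur v x ^ 2 * ((1 + rad x / R) * wt R L z x) ≤ C * κ ^ 2 * L) ∧
    Integrable (fun x => ur v x ^ 2 * ((1 + rad x / R) * wt R L z x)) ∧
    Integrable (fun y => NE (2 * R) (ur v) y ^ 4 * wt R L z y) ∧ ∫ y, NE (2 * R) (ur v) y ^ 4 * wt R L z y ≤ C * κ ^ 4 * R ^ 2 * L := by
  obtain ⟨C1, hC1, hm1⟩ := m1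
  obtain ⟨C2, hC2, hm2⟩ := m2
  refine ⟨C1 + C2, by linarith, ?_⟩
  intro κ N b R L z v h hR hL
  have hL0 : 0 < L := lt_of_lt_of_le hR hL
  obtain ⟨K, hK0, hK, hvi, -⟩ := ba_vf h.vf
  obtain ⟨hurc, -, -, -⟩ := ur_c h.ax
  have hui : Integrable (fun x => ur v x ^ 2) := by
    refine hvi.mono' (hurc.pow 2).aestronglyMeasurable (Eventually.of_forall fun x => ?_)
    rw [Real.norm_eq_abs, abs_of_nonneg (sq_nonneg _)]
    exact (Fb_le h.ax x).1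
  obtain ⟨j1, j2⟩ := hm1 (fun x => ur v x ^ 2) (κ ^ 2) (hurc.pow 2) (fun x => sq_nonneg _) hui h.mor R L z hR hL
  have hb : ∀ x, 0 ≤ |ur v x| ∧ |ur v x| ≤ K := fun x => ⟨abs_nonneg _, by
    have h1 := (Fb_le h.ax x).1
    have h2 : |ur v x| ^ 2 ≤ ‖v x‖ ^ 2 := by rwa [sq_abs]
    exact ((abs_le_of_sq_le_sq' h2 (norm_nonneg _)).2).trans (hK x).1⟩
  obtain ⟨k1, k2⟩ := hm2 (fun x => |ur v x|) K (κ ^ 2) hurc.abs hb (by simpa only [sq_abs] using hui)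
    (by simpa only [sq_abs] using h.mor) R L z hR hL
  have hne : ∀ y, NE (2 * R) (fun x => |ur v x|) y = NE (2 * R) (ur v) y := fun y => by
    unfold NE
    simp only [abs_abs]
  simp only [hne] at k1 k2
  have hκ : 0 ≤ κ ^ 2 * L := by positivity
  have hκ4 : 0 ≤ κ ^ 4 * R ^ 2 * L := by
    have : 0 ≤ κ := by linarith [h.one]
    positivity
  have a1 : ∫ x, ur v x ^ 2 * ((1 + rad x / R) * wt R L z x) ≤ (C1 + C2) * κ ^ 2 * L := by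
    have e1 : (C1 + C2) * κ ^ 2 * L = C1 * κ ^ 2 * L + C2 * (κ ^ 2 * L) := by ring
    have e2 : 0 ≤ C2 * (κ ^ 2 * L) := mul_nonneg (by linarith) hκ
    rw [e1]
    linarith
  refine ⟨?_, a1, j1, k1, ?_⟩
  · refine le_trans ?_ a1
    refine integral_mono_of_nonneg (Eventually.of_forall fun x => ?_) j1 (Eventually.of_forall fun x => ?_)
    · exact mul_nonneg (sq_nonneg _) (wt_pos hR hL0 z x).le
    · have e1 : 0 ≤ rad x / R := div_nonneg (Real.sqrt_nonneg _) hR.le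
      have e2 := (wt_pos hR hL0 z x).le
      refine mul_le_mul_of_nonneg_left ?_ (sq_nonneg _)
      nlinarith [mul_nonneg e1 e2]
  · have e1 : (C1 + C2) * κ ^ 4 * R ^ 2 * L = C2 * (κ ^ 2) ^ 2 * R ^ 2 * L + C1 * (κ ^ 4 * R ^ 2 * L) := by ring
    have e2 : 0 ≤ C1 * (κ ^ 4 * R ^ 2 * L) := mul_nonneg (by linarith) hκ4
    rw [e1]
    linarith

theorem fs : ∃ C : ℝ, 1 ≤ C ∧ ∀ (κ N b R L z η : ℝ) (v : E3 → E3), Sm κ N b v → 0 < R → R ≤ L → 0 < η → η ≤ R ^ 2 →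
    SS v (wt R L z) ≤ C * η * DD v (wt R L z) + C * N ^ 2 / η * VV (wt R L z) + C * κ ^ 2 * L := by
  obtain ⟨Cm, hCm, hm⟩ := mU
  refine ⟨2 * Cm + 134, by linarith, ?_⟩
  intro κ N b R L z η v h hR hL hη hηR
  have hL0 : 0 < L := lt_of_lt_of_le hR hL
  obtain ⟨K, hK0, hK, hvi, -⟩ := ba_vf h.vf
  have hv := h.ax.smooth
  have hK' : ∀ x, ‖v x‖ ≤ K ∧ gv v x ≤ K := fun x => ⟨(hK x).1, (hK x).2.1⟩
  obtain ⟨hurc, hutc, -, -⟩ := ur_c h.ax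
  have w := wt_wc hR hL z
  obtain ⟨mu1, -, -, -, -⟩ := hm κ N b R L z v h hR hL
  obtain ⟨Ψ, hΨ⟩ : ∃ Ψ : E3 → ℝ, Ψ = wt R L z := ⟨_, rfl⟩
  have hl := l2d h.ax h.vf (z := z) hR hL h.pos
  rw [← hΨ] at w mu1 hl ⊢
  obtain ⟨hl1, hl2⟩ := hl
  have hκ1 := h.one
  have hκ0 : 0 < κ := by linarith
  have hN : κ ≤ N := h.le
  have hV : 0 ≤ VV Ψ := integral_nonneg w.nn
  have hD : 0 ≤ DD v Ψ := integral_nonneg fun x => mul_nonneg (ba_gv x 0 0).1 (w.nn x)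
  have hS : 0 ≤ SS v Ψ := integral_nonneg fun x => mul_nonneg (sq_nonneg _) (w.nn x)
  obtain ⟨i1, -, -, i2, -, -⟩ := Fb_one w hv hK' 2
  have iu : Integrable (fun x => ur v x ^ 2 * Ψ x) := wi (K := K ^ 2) w (hurc.pow 2) fun x => by
    rw [abs_of_nonneg (sq_nonneg _)]
    exact (Fb_le h.ax x).1.trans (pow_le_pow_left₀ (norm_nonneg _) (hK x).1 2)
  have it : Integrable (fun x => ut v x ^ 2 * Ψ x) := wi (K := K ^ 2) w (hutc.pow 2) fun x => by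
    rw [abs_of_nonneg (sq_nonneg _)]
    exact (Fb_le h.ax x).2.trans (pow_le_pow_left₀ (norm_nonneg _) (hK x).1 2)
  have e1 : SS v Ψ = (∫ x, ur v x ^ 2 * Ψ x) + (∫ x, ut v x ^ 2 * Ψ x) + ∫ x, v x 2 ^ 2 * Ψ x := by
    unfold SS
    have s1 : ∫ x, (ur v x ^ 2 * Ψ x + ut v x ^ 2 * Ψ x + v x 2 ^ 2 * Ψ x) =
        (∫ x, ur v x ^ 2 * Ψ x) + (∫ x, ut v x ^ 2 * Ψ x) + ∫ x, v x 2 ^ 2 * Ψ x := by
      rw [← integral_add iu it]
      exact integral_add (iu.add it) i2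
    rw [← s1]
    refine integral_congr_ae (ae_of_all _ fun x => ?_)
    show ‖v x‖ ^ 2 * Ψ x = ur v x ^ 2 * Ψ x + ut v x ^ 2 * Ψ x + v x 2 ^ 2 * Ψ x
    rw [(ur_f h.ax x).2.2.2.1]
    ring
  -- vertical part
  have e2 := Fb_f2 h w hη
  have e2' : N ^ 2 * (1 / (2 * η) + 4 * (4 / R) ^ 2) * VV Ψ ≤ 65 * (N ^ 2 / η * VV Ψ) := by
    have a1 : 4 * (4 / R) ^ 2 ≤ 64 / η := by
      rw [div_pow, show (4:ℝ) * (4 ^ 2 / R ^ 2) = 64 / R ^ 2 by ring]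
      exact div_le_div_of_nonneg_left (by norm_num) hη hηR
    have a2 : 1 / (2 * η) ≤ 1 / η := by
      rw [one_div, one_div]
      exact inv_anti₀ hη (by linarith)
    have a3 : N ^ 2 * (1 / (2 * η) + 4 * (4 / R) ^ 2) ≤ N ^ 2 * (1 / η + 64 / η) :=
      mul_le_mul_of_nonneg_left (add_le_add a2 a1) (sq_nonneg _)
    have a4 := mul_le_mul_of_nonneg_right a3 hV
    have a5 : N ^ 2 * (1 / η + 64 / η) * VV Ψ = 65 * (N ^ 2 / η * VV Ψ) := by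
      field_simp; ring
    linarith
  -- angular part
  obtain ⟨A, hA⟩ : ∃ A : Set E3, A = {x : E3 | b ≤ rad x} := ⟨_, rfl⟩
  have hAm : MeasurableSet A := by
    rw [hA]
    exact (isClosed_le continuous_const Cy_radc).measurableSet
  rw [← hA] at hl1 hl2
  obtain ⟨θ, hθ⟩ : ∃ θ : ℝ, θ = η / (4 * κ) := ⟨_, rfl⟩
  have hθ0 : 0 < θ := by rw [hθ]; positivity
  have e3 : ∫ x in A, ut v x ^ 2 * Ψ x ≤ θ * (∫ x in A, ut v x ^ 4 * Ψ x) + κ / η * VV Ψ := by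
    have a1 : ∫ x in A, ut v x ^ 2 * Ψ x ≤ ∫ x in A, (θ * (ut v x ^ 4 * Ψ x) + κ / η * Ψ x) := by
      refine integral_mono it.integrableOn ((hl1.const_mul θ).add ((w.int.const_mul _).integrableOn)) fun x => ?_
      have b1 : ut v x ^ 2 ≤ θ * ut v x ^ 4 + κ / η := by
        have c1 : κ / η = 1 / (4 * θ) := by rw [hθ]; field_simp
        have c2 : θ * ut v x ^ 4 + 1 / (4 * θ) - ut v x ^ 2 = (2 * θ * ut v x ^ 2 - 1) ^ 2 / (4 * θ) := by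
          field_simp; ring
        have c3 : 0 ≤ (2 * θ * ut v x ^ 2 - 1) ^ 2 / (4 * θ) := by positivity
        rw [c1]
        linarith
      have b2 := mul_le_mul_of_nonneg_right b1 (w.nn x)
      show ut v x ^ 2 * Ψ x ≤ θ * (ut v x ^ 4 * Ψ x) + κ / η * Ψ x
      linarith
    rw [integral_add (hl1.const_mul θ) ((w.int.const_mul _).integrableOn), integral_const_mul, integral_const_mul] at a1
    have a2 : ∫ x in A, Ψ x ≤ VV Ψ := setIntegral_le_integral w.int (Eventually.of_forall w.nn)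
    have a3 : κ / η * ∫ x in A, Ψ x ≤ κ / η * VV Ψ := mul_le_mul_of_nonneg_left a2 (by positivity)
    linarith
  have e4 : ∫ x in Aᶜ, ut v x ^ 2 * Ψ x ≤ η * DD v Ψ + κ ^ 2 / (4 * η) * VV Ψ := by
    have ij : Integrable (fun x => η * (gv v x * Ψ x) + κ ^ 2 / (4 * η) * Ψ x) := (i1.const_mul _).add (w.int.const_mul _)
    have a1 : ∫ x in Aᶜ, ut v x ^ 2 * Ψ x ≤ ∫ x in Aᶜ, (η * (gv v x * Ψ x) + κ ^ 2 / (4 * η) * Ψ x) := by
      refine setIntegral_mono_on it.integrableOn ij.integrableOn hAm.compl fun x hx => ?_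
      have hx' : rad x ≤ b := by
        rw [hA] at hx
        exact (not_le.1 (fun hh => hx hh)).le
      have b0 : √(gv v x) ^ 2 = gv v x := Real.sq_sqrt (ba_gv x 0 0).1
      have b1 : rad x * |ut v x| ≤ κ := by
        rw [← (ur_f h.ax x).2.2.2.2.1]
        exact h.cir x hx'
      have hr : 0 ≤ rad x := Real.sqrt_nonneg _
      have b2 : |ut v x| ≤ rad x * √(gv v x) := by
        refine abs_le_of_sq_le_sq ?_ (mul_nonneg hr (Real.sqrt_nonneg _))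
        rw [mul_pow, b0, Fb_rad]
        exact (ur_g h.ax x).2.1
      have b3 : ut v x ^ 2 ≤ κ * √(gv v x) := by
        have c1 : ut v x ^ 2 = |ut v x| * |ut v x| := by rw [← sq_abs, pow_two]
        rw [c1]
        calc |ut v x| * |ut v x| ≤ |ut v x| * (rad x * √(gv v x)) := mul_le_mul_of_nonneg_left b2 (abs_nonneg _)
          _ = (rad x * |ut v x|) * √(gv v x) := by ring
          _ ≤ κ * √(gv v x) := mul_le_mul_of_nonneg_right b1 (Real.sqrt_nonneg _)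
      have b4 : κ * √(gv v x) ≤ η * gv v x + κ ^ 2 / (4 * η) := by
        have c2 : η * √(gv v x) ^ 2 + κ ^ 2 / (4 * η) - κ * √(gv v x) = (2 * η * √(gv v x) - κ) ^ 2 / (4 * η) := by
          field_simp; ring
        have c3 : 0 ≤ (2 * η * √(gv v x) - κ) ^ 2 / (4 * η) := by positivity
        rw [b0] at c2
        linarith
      have b5 := mul_le_mul_of_nonneg_right (b3.trans b4) (w.nn x)
      show ut v x ^ 2 * Ψ x ≤ η * (gv v x * Ψ x) + κ ^ 2 / (4 * η) * Ψ x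
      linarith
    have a2 : ∫ x in Aᶜ, (η * (gv v x * Ψ x) + κ ^ 2 / (4 * η) * Ψ x) ≤ ∫ x, (η * (gv v x * Ψ x) + κ ^ 2 / (4 * η) * Ψ x) :=
      setIntegral_le_integral ij (Eventually.of_forall fun x => by
        have c1 := (ba_gv (v := v) x 0 0).1
        have c2 := w.nn x
        show 0 ≤ η * (gv v x * Ψ x) + κ ^ 2 / (4 * η) * Ψ x
        positivity)
    have a3 : ∫ x, (η * (gv v x * Ψ x) + κ ^ 2 / (4 * η) * Ψ x) = η * DD v Ψ + κ ^ 2 / (4 * η) * VV Ψ := by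
      rw [integral_add (i1.const_mul _) (w.int.const_mul _), integral_const_mul, integral_const_mul]
      rfl
    linarith
  have e5 : (∫ x in A, ut v x ^ 2 * Ψ x) + ∫ x in Aᶜ, ut v x ^ 2 * Ψ x = ∫ x, ut v x ^ 2 * Ψ x := integral_add_compl hAm it
  have e6 : θ * (∫ x in A, ut v x ^ 4 * Ψ x) ≤ η / 2 * DD v Ψ + SS v Ψ / 2 := by
    have a0 : 0 ≤ 2 * DD v Ψ + 2 / R ^ 2 * SS v Ψ := by positivity
    have a1 : (∫ x, ‖v x‖ ^ 2) / b ≤ κ := by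
      rw [div_le_iff₀ h.pos]
      exact h.en
    have a2 : ∫ x in A, ut v x ^ 4 * Ψ x ≤ κ * (2 * DD v Ψ + 2 / R ^ 2 * SS v Ψ) :=
      hl2.trans (mul_le_mul_of_nonneg_right a1 a0)
    have a3 : θ * (∫ x in A, ut v x ^ 4 * Ψ x) ≤ θ * (κ * (2 * DD v Ψ + 2 / R ^ 2 * SS v Ψ)) :=
      mul_le_mul_of_nonneg_left a2 hθ0.le
    have a4 : θ * (κ * (2 * DD v Ψ + 2 / R ^ 2 * SS v Ψ)) = η / 2 * DD v Ψ + (η / R ^ 2) * SS v Ψ / 2 := by
      rw [hθ]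
      field_simp
      ring
    have a5 : η / R ^ 2 ≤ 1 := by
      rw [div_le_one (by positivity)]
      exact hηR
    have a6 : (η / R ^ 2) * SS v Ψ ≤ 1 * SS v Ψ := mul_le_mul_of_nonneg_right a5 hS
    linarith
  obtain ⟨X, hX⟩ : ∃ X : ℝ, X = N ^ 2 / η * VV Ψ := ⟨_, rfl⟩
  have hX0 : 0 ≤ X := by rw [hX]; positivity
  have hκN : κ ^ 2 ≤ N ^ 2 := pow_le_pow_left₀ hκ0.le hN 2
  have e7 : κ / η * VV Ψ ≤ X := by
    rw [hX]
    refine mul_le_mul_of_nonneg_right ?_ hV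
    refine div_le_div_of_nonneg_right ?_ hη.le
    nlinarith
  have e8 : κ ^ 2 / (4 * η) * VV Ψ ≤ X := by
    rw [hX]
    refine mul_le_mul_of_nonneg_right ?_ hV
    refine div_le_div₀ (sq_nonneg _) hκN hη ?_
    linarith
  have e9 : (2 * Cm + 134) * N ^ 2 / η * VV Ψ = (2 * Cm + 134) * X := by
    rw [hX]
    ring
  have e10 : 0 ≤ κ ^ 2 * L := by positivity
  have e11 : 0 ≤ η * DD v Ψ := mul_nonneg hη.le hD
  rw [e9]
  rw [← hX] at e2'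
  have t1 : 0 ≤ (2 * Cm) * (η * DD v Ψ) := mul_nonneg (by linarith) e11
  have t2 : 0 ≤ (2 * Cm) * X := mul_nonneg (by linarith) hX0
  have f1 : SS v Ψ ≤ 7 * (η * DD v Ψ) + 134 * X + 2 * Cm * κ ^ 2 * L := by
    linarith
  have f2 : (2 * Cm + 134) * η * DD v Ψ + (2 * Cm + 134) * X + (2 * Cm + 134) * κ ^ 2 * L =
      (7 * (η * DD v Ψ) + 134 * X + 2 * Cm * κ ^ 2 * L) + (127 * (η * DD v Ψ) + (2 * Cm) * (η * DD v Ψ) + (2 * Cm) * X + 134 * (κ ^ 2 * L)) := by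
    ring
  rw [f2]
  linarith

end Pool.Agent.H94.WL
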