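/-
ROW Fc (MP_09540e_WL). The fourth moment. PROOF. Let `Ψ = wt R L z`, `c = 4/R`: Wc c Ψ by wt_wc (TU/Wb.lean). `‖v‖² = ur² + ut² + v₂²` (ur_f), so `‖v‖⁴ ≤ 3 (ur⁴ + ut⁴ + v₂⁴)`. (1) f1 with `G = v₂³ Ψ` exactly as in TU/Fc.lean: `∫ v₂⁴ Ψ ≤ 18 N² DD + 8 c² N² SS`.
(2) for i = 0, 1 let `w x = x i * sW v x` (smooth: ur_c; `|w| ≤ |ur| ≤ ‖v‖`, `|pd 2 w| ≤ √gv`: ur_g, pd 2 w = x i pd 2 sW): f1r with `G = w³ Ψ`: `∫ w⁴ Ψ ≤ N ∫ (3 w² |pd 2 w| Ψ + |w|³ c Ψ)`; `3 N w² |p| ≤ w⁴/4 + 9 N² p²`, `c N |w|³ ≤ w⁴/4 + c² N² w²`: `∫ w⁴ Ψ ≤ 18 N² ∫ (pd 2 w)² Ψ + 2 c² N² ∫ w² Ψ`.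
Sum over i (ur_g: ∑ (pd 2 w)² ≤ gv, ∑ w² = ur²), `ur⁴ ≤ 2 (w₀⁴ + w₁⁴)`: `∫ ur⁴ Ψ ≤ 36 N² DD + 4 c² N² SS`. (3) if 0 < rad x ≤ b: `ut⁴ = (rad |ut|)² ut²/rsq ≤ κ² gv` (ur_f, h.cir, ur_g); rad x = 0: ut = 0. For rad x ≥ b: l2d (Ld.lean) and h.en: `∫_{b ≤ rad} ut⁴ Ψ ≤ κ (2 DD + 2/R² SS)`. Together
`∫ ut⁴ Ψ ≤ 3 N² DD + (c²/8) N² SS` (1 ≤ κ ≤ N). Total `3 (57 N² DD + 12.2 c² N² SS) ≤ 180 N² (DD + (1 + c²) SS)`. Integrability: bounded continuous functions times Ψ (wi, ba_vf, ba_gvc, h.vf).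
-/
import Pool.Agent.H94.WL.Fa
import Pool.Agent.H94.WL.Ld

set_option autoImplicit false

open Set Filter Topology MeasureTheory
open scoped ContDiff

namespace Pool.Agent.H94.WL

open Pool.Agent.H16 Pool.Agent.H87.NS Pool.Agent.H72.CC Pool.Agent.H16.TU

private theorem Fc_lc {f g h : E3 → ℝ} (hf : Integrable f) (hg : Integrable g) (hh : Integrable h) (a b c : ℝ) :
    ∫ x, (a * f x + b * g x + c * h x) = a * (∫ x, f x) + b * (∫ x, g x) + c * ∫ x, h x := by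
  rw [integral_add (f := fun x => a * f x + b * g x) ((hf.const_mul a).add (hg.const_mul b)) (hh.const_mul c),
    integral_add (hf.const_mul a) (hg.const_mul b), integral_const_mul, integral_const_mul, integral_const_mul]

private theorem Fc_hg {f : E3 → ℝ} {x : E3} (hf : DifferentiableAt ℝ f x) : hg (fun y => f y ^ 3) x = 3 * f x ^ 2 * hg f x := by
  have h1 : ∀ i : Fin 3, pd i (fun y => f y ^ 3) x = 3 * f x ^ 2 * pd i f x := by
    intro i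
    have e : (fun y => f y ^ 3) = fun y => (f y * f y) * f y := by funext y; ring
    rw [e, Psi_mul (f := fun y => f y * f y) (g := f) (Psi_dmul hf hf) hf, Psi_mul hf hf]
    ring
  unfold hg
  rw [h1, h1]
  have h2 : (3 * f x ^ 2 * pd 0 f x) ^ 2 + (3 * f x ^ 2 * pd 1 f x) ^ 2 = (3 * f x ^ 2) ^ 2 * (pd 0 f x ^ 2 + pd 1 f x ^ 2) := by ring
  rw [h2, Real.sqrt_mul (by positivity), Real.sqrt_sq (by positivity)]

private theorem Fc_pd3 {f : E3 → ℝ} {x : E3} (hf : DifferentiableAt ℝ f x) (i : Fin 3) :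
    pd i (fun y => f y ^ 3) x = 3 * f x ^ 2 * pd i f x := by
  have e : (fun y => f y ^ 3) = fun y => (f y * f y) * f y := by funext y; ring
  rw [e, Psi_mul (f := fun y => f y * f y) (g := f) (Psi_dmul hf hf) hf, Psi_mul hf hf]
  ring

private theorem Fc_z {κ N b c K : ℝ} {v : E3 → E3} {Ψ : E3 → ℝ} (h : Sm κ N b v) (w : Wc c Ψ)
    (hK : ∀ x, ‖v x‖ ≤ K ∧ gv v x ≤ K ∧ ∀ i, |pd i (fun y => v y 2) x| ≤ K) (hK0 : 0 ≤ K) :
    Integrable (fun x => v x 2 ^ 4 * Ψ x) ∧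
    ∫ x, v x 2 ^ 4 * Ψ x ≤ 18 * N ^ 2 * DD v Ψ + 8 * c ^ 2 * N ^ 2 * SS v Ψ := by
  have hv := h.ax.smooth
  have hN : 1 ≤ N := h.one.trans h.le
  have c2 : Continuous fun x => v x 2 := (Bds1_proj_smooth hv 2).continuous
  have hc := ba_gvc hv
  have hv2 : ∀ x, |v x 2| ≤ K := fun x => (ba_gv x 0 0).2.2.2.2.2.1.trans (hK x).1
  have i1 : Integrable (fun x => gv v x * Ψ x) := wi (K := K) w hc.1 fun x => by
    rw [abs_of_nonneg (ba_gv (v := v) x 0 0).1]; exact (hK x).2.1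
  have j2 : Integrable (fun x => ‖v x‖ ^ 2 * Ψ x) := wi (K := K ^ 2) w (hc.2.1.pow 2) fun x => by
    rw [abs_of_nonneg (by positivity)]; exact pow_le_pow_left₀ (norm_nonneg _) (hK x).1 2
  have i2 : Integrable (fun x => v x 2 ^ 2 * Ψ x) := wi (K := K ^ 2) w (c2.pow 2) fun x => by
    rw [abs_pow]; exact pow_le_pow_left₀ (abs_nonneg _) (hv2 x) 2
  have i5 : Integrable (fun x => v x 2 ^ 4 * Ψ x) := wi (K := K ^ 4) w (c2.pow 4) fun x => by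
    rw [abs_pow]; exact pow_le_pow_left₀ (abs_nonneg _) (hv2 x) 4
  have i4 : Integrable (fun x => |v x 2| ^ 3 * Ψ x) := wi (K := K ^ 3) w (c2.abs.pow 3) fun x => by
    rw [abs_of_nonneg (by positivity)]; exact pow_le_pow_left₀ (abs_nonneg _) (hv2 x) 3
  have hf0 : ContDiff ℝ 1 (fun x => v x 2) := (Bds1_proj_smooth hv 2).of_le (by norm_cast)
  have hf : ContDiff ℝ 1 (fun x => v x 2 ^ 3) := hf0.pow 3
  have hTF : TF (fun x => v x 2 ^ 3 * Ψ x) := ba_tf (K := 3 * K ^ 3 + K ^ 3) w hf fun x => by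
    refine ⟨?_, fun i => ?_⟩
    · rw [abs_pow]
      have := pow_le_pow_left₀ (abs_nonneg _) (hv2 x) 3
      have h3 : 0 ≤ K ^ 3 := by positivity
      linarith
    · have h1 := Fc_pd3 (f := fun y => v y 2) (hf0.differentiable (by norm_num) x) i
      rw [h1, abs_mul, abs_mul, abs_of_nonneg (by norm_num : (0:ℝ) ≤ 3), abs_pow]
      have h2 := pow_le_pow_left₀ (abs_nonneg _) (hv2 x) 2
      have h3 := (hK x).2.2 i
      have h4 : 3 * |v x 2| ^ 2 * |pd i (fun y => v y 2) x| ≤ 3 * K ^ 2 * K :=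
        mul_le_mul (by linarith) h3 (abs_nonneg _) (by positivity)
      have h5 : 0 ≤ K ^ 3 := by positivity
      nlinarith
  have iq : Integrable (fun x => (v x 2 ^ 2 * √(gv v x)) * Ψ x) := by
    refine wi (K := K ^ 2 * √K) w ((c2.pow 2).mul (ba_gvc hv).1.sqrt) fun x => ?_
    rw [abs_mul, abs_pow, abs_of_nonneg (Real.sqrt_nonneg _)]
    exact mul_le_mul (pow_le_pow_left₀ (abs_nonneg _) (hv2 x) 2) (Real.sqrt_le_sqrt (hK x).2.1) (Real.sqrt_nonneg _) (by positivity)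
  refine ⟨i5, ?_⟩
  have e1 := (le_abs_self _).trans (f1 h hTF)
  have e2 : ∫ x, hg (fun x => v x 2 ^ 3 * Ψ x) x ≤ ∫ x, (3 * ((v x 2 ^ 2 * √(gv v x)) * Ψ x) + 2 * c * (|v x 2| ^ 3 * Ψ x)) := by
    refine integral_mono_of_nonneg (ae_of_all _ fun x => Real.sqrt_nonneg _) ((iq.const_mul 3).add (i4.const_mul _)) (ae_of_all _ fun x => ?_)
    have a1 := ba_hg (f := fun x => v x 2 ^ 3) (Ψ := Ψ) (x := x) (hf.differentiable (by norm_num) x) (w.sm.differentiable (by simp) x)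
    have a2 := ba_hgw w x
    have a3 := (ba_gv (v := v) x 0 2).2.2.2.1
    have a4 : |Ψ x| = Ψ x := abs_of_nonneg (w.nn x)
    rw [a4, Fc_hg (f := fun x => v x 2) (hf0.differentiable (by norm_num) x), abs_pow] at a1
    have a5 : 3 * v x 2 ^ 2 * hg (fun x => v x 2) x * Ψ x ≤ 3 * v x 2 ^ 2 * √(gv v x) * Ψ x :=
      mul_le_mul_of_nonneg_right (mul_le_mul_of_nonneg_left a3 (by positivity)) (w.nn x)
    have a6 : |v x 2| ^ 3 * hg Ψ x ≤ |v x 2| ^ 3 * (2 * c * Ψ x) := mul_le_mul_of_nonneg_left a2 (by positivity)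
    show hg (fun x => v x 2 ^ 3 * Ψ x) x ≤ 3 * ((v x 2 ^ 2 * √(gv v x)) * Ψ x) + 2 * c * (|v x 2| ^ 3 * Ψ x)
    linarith
  have e3 : N * ∫ x, (3 * ((v x 2 ^ 2 * √(gv v x)) * Ψ x) + 2 * c * (|v x 2| ^ 3 * Ψ x)) ≤
      ∫ x, (9 * N ^ 2 * (gv v x * Ψ x) + 4 * c ^ 2 * N ^ 2 * (v x 2 ^ 2 * Ψ x) + (1/2) * (v x 2 ^ 4 * Ψ x)) := by
    rw [← integral_const_mul]
    refine integral_mono (((iq.const_mul 3).add (i4.const_mul _)).const_mul N) (((i1.const_mul _).add (i2.const_mul _)).add (i5.const_mul _)) fun x => ?_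
    have b0 : √(gv v x) ^ 2 = gv v x := Real.sq_sqrt (ba_gv x 0 0).1
    have b1 : N * (3 * (v x 2 ^ 2 * √(gv v x))) ≤ 9 * N ^ 2 * gv v x + (1/4) * v x 2 ^ 4 := by
      have b0' : N ^ 2 * gv v x = N ^ 2 * √(gv v x) ^ 2 := by rw [b0]
      nlinarith [sq_nonneg (v x 2 ^ 2 / 2 - 3 * N * √(gv v x))]
    have b4 : N * (2 * c * |v x 2| ^ 3) ≤ 4 * c ^ 2 * N ^ 2 * v x 2 ^ 2 + (1/4) * v x 2 ^ 4 := by
      have b5 : |v x 2| ^ 2 = v x 2 ^ 2 := sq_abs _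
      have b7 : v x 2 ^ 4 = |v x 2| ^ 4 := by
        rw [show v x 2 ^ 4 = (v x 2 ^ 2) ^ 2 by ring, ← b5]; ring
      rw [b7, ← b5]
      nlinarith [sq_nonneg (|v x 2| ^ 2 / 2 - 2 * c * N * |v x 2|)]
    have b6 := mul_le_mul_of_nonneg_right (add_le_add b1 b4) (w.nn x)
    show N * (3 * ((v x 2 ^ 2 * √(gv v x)) * Ψ x) + 2 * c * (|v x 2| ^ 3 * Ψ x)) ≤
      9 * N ^ 2 * (gv v x * Ψ x) + 4 * c ^ 2 * N ^ 2 * (v x 2 ^ 2 * Ψ x) + (1/2) * (v x 2 ^ 4 * Ψ x)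
    linarith
  rw [Fc_lc i1 i2 i5] at e3
  have e4 : ∫ x, v x 2 * (v x 2 ^ 3 * Ψ x) = ∫ x, v x 2 ^ 4 * Ψ x := by
    refine integral_congr_ae (ae_of_all _ fun x => ?_)
    show v x 2 * (v x 2 ^ 3 * Ψ x) = v x 2 ^ 4 * Ψ x
    ring
  rw [e4] at e1
  have e5 := mul_le_mul_of_nonneg_left e2 (by linarith : (0:ℝ) ≤ N)
  have e6 : ∫ x, v x 2 ^ 2 * Ψ x ≤ SS v Ψ := by
    refine integral_mono i2 j2 fun x => mul_le_mul_of_nonneg_right ?_ (w.nn x)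
    have := (ba_gv (v := v) x 0 0).2.2.2.2.2.2
    nlinarith [sq_nonneg (hn v x)]
  have hc : 0 ≤ 4 * c ^ 2 * N ^ 2 := by positivity
  have := mul_le_mul_of_nonneg_left e6 hc
  unfold DD
  linarith

private theorem Fc_w {κ N b c K : ℝ} {v : E3 → E3} {Ψ : E3 → ℝ} (h : Sm κ N b v) (w : Wc c Ψ)
    (hc0 : 0 ≤ c) (hK : ∀ x, ‖v x‖ ≤ K ∧ gv v x ≤ K) (hK0 : 0 ≤ K) {i : Fin 3} (hi : i ≠ 2) :
    Integrable (fun x => (x i * sW v x) ^ 4 * Ψ x) ∧ Integrable (fun x => (x i * pd 2 (sW v) x) ^ 2 * Ψ x) ∧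
    Integrable (fun x => (x i * sW v x) ^ 2 * Ψ x) ∧
    ∫ x, (x i * sW v x) ^ 4 * Ψ x ≤ 18 * N ^ 2 * (∫ x, (x i * pd 2 (sW v) x) ^ 2 * Ψ x) +
      2 * c ^ 2 * N ^ 2 * ∫ x, (x i * sW v x) ^ 2 * Ψ x := by
  have hN : 1 ≤ N := h.one.trans h.le
  have hsW : ContDiff ℝ ∞ (sW v) := (ur_c h.ax).2.2.1
  obtain ⟨f, hf⟩ : ∃ f : E3 → ℝ, f = fun x : E3 => x i * sW v x := ⟨_, rfl⟩
  obtain ⟨p, hp⟩ : ∃ p : E3 → ℝ, p = fun x : E3 => x i * pd 2 (sW v) x := ⟨_, rfl⟩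
  have hfx : ∀ x, f x = x i * sW v x := fun x => by rw [hf]
  have hpx : ∀ x, p x = x i * pd 2 (sW v) x := fun x => by rw [hp]
  have hfs : ContDiff ℝ ∞ f := by
    rw [hf]
    exact ((EuclideanSpace.proj i : E3 →L[ℝ] ℝ).contDiff).mul hsW
  have hfc : Continuous f := hfs.continuous
  have hpc : Continuous p := by
    rw [hp]
    exact (Psi_cont_coord i).mul (pd_cont (hsW.of_le (by norm_cast)) 2)
  have hpd : ∀ x, pd 2 f x = p x := by
    intro x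
    rw [hf, hpx, Psi_mul (Psi_dc i x) (hsW.differentiable (by simp) x), Psi_coord, if_neg hi, zero_mul, zero_add]
  have hfb : ∀ x, |f x| ≤ K := by
    intro x
    refine le_trans ?_ (hK x).1
    refine abs_le_of_sq_le_sq ?_ (norm_nonneg _)
    have a1 := (ur_f h.ax x).2.2.2.1
    have a2 := (ur_g h.ax x).2.2.2
    have c1 : f x ^ 2 ≤ ur v x ^ 2 := by
      rw [a2, hfx]
      have := sq_nonneg (x 0 * sW v x)
      have := sq_nonneg (x 1 * sW v x)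
      fin_cases i
      · show (x 0 * sW v x) ^ 2 ≤ _; linarith
      · show (x 1 * sW v x) ^ 2 ≤ _; linarith
      · exact absurd rfl hi
    rw [a1]
    have := sq_nonneg (ut v x)
    have := sq_nonneg (v x 2)
    linarith
  have hp2 : ∀ x, p x ^ 2 ≤ gv v x := by
    intro x
    refine le_trans ?_ (ur_g h.ax x).2.2.1
    rw [hpx]
    have := sq_nonneg (x 0 * pd 2 (sW v) x)
    have := sq_nonneg (x 1 * pd 2 (sW v) x)
    fin_cases i
    · show (x 0 * pd 2 (sW v) x) ^ 2 ≤ _; linarith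
    · show (x 1 * pd 2 (sW v) x) ^ 2 ≤ _; linarith
    · exact absurd rfl hi
  have hpb : ∀ x, |p x| ≤ √K := fun x => Real.abs_le_sqrt ((hp2 x).trans (hK x).2)
  have i4 : Integrable (fun x => f x ^ 4 * Ψ x) := wi (K := K ^ 4) w (hfc.pow 4) fun x => by
    rw [abs_pow]; exact pow_le_pow_left₀ (abs_nonneg _) (hfb x) 4
  have i3 : Integrable (fun x => |f x| ^ 3 * Ψ x) := wi (K := K ^ 3) w (hfc.abs.pow 3) fun x => by
    rw [abs_of_nonneg (by positivity)]; exact pow_le_pow_left₀ (abs_nonneg _) (hfb x) 3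
  have i3' : Integrable (fun x => f x ^ 3 * Ψ x) := wi (K := K ^ 3) w (hfc.pow 3) fun x => by
    rw [abs_pow]; exact pow_le_pow_left₀ (abs_nonneg _) (hfb x) 3
  have i2 : Integrable (fun x => f x ^ 2 * Ψ x) := wi (K := K ^ 2) w (hfc.pow 2) fun x => by
    rw [abs_pow]; exact pow_le_pow_left₀ (abs_nonneg _) (hfb x) 2
  have ip : Integrable (fun x => p x ^ 2 * Ψ x) := wi (K := √K ^ 2) w (hpc.pow 2) fun x => by
    rw [abs_pow]; exact pow_le_pow_left₀ (abs_nonneg _) (hpb x) 2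
  have iq : Integrable (fun x => (f x ^ 2 * |p x|) * Ψ x) := wi (K := K ^ 2 * √K) w ((hfc.pow 2).mul hpc.abs) fun x => by
    rw [abs_mul, abs_pow, abs_abs]
    exact mul_le_mul (pow_le_pow_left₀ (abs_nonneg _) (hfb x) 2) (hpb x) (abs_nonneg _) (by positivity)
  have hΨd : Differentiable ℝ Ψ := w.sm.differentiable (by simp)
  have hf1 : ContDiff ℝ 1 f := hfs.of_le (by norm_cast)
  have hG1 : ContDiff ℝ 1 (fun x => f x ^ 3 * Ψ x) := (hf1.pow 3).mul (w.sm.of_le (by norm_cast))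
  have hGp : ∀ x, pd 2 (fun x => f x ^ 3 * Ψ x) x = (3 * f x ^ 2 * p x) * Ψ x + f x ^ 3 * pd 2 Ψ x := by
    intro x
    rw [Psi_mul (f := fun y => f y ^ 3) ((hf1.pow 3).differentiable (by norm_num) x) (hΨd x),
      Fc_pd3 (hf1.differentiable (by norm_num) x), hpd]
  have hGa : ∀ x, |pd 2 (fun x => f x ^ 3 * Ψ x) x| ≤ 3 * ((f x ^ 2 * |p x|) * Ψ x) + c * (|f x| ^ 3 * Ψ x) := by
    intro x
    rw [hGp]
    refine (abs_add_le _ _).trans (add_le_add ?_ ?_)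
    · rw [abs_mul, abs_mul, abs_mul, abs_of_nonneg (w.nn x), abs_of_nonneg (by norm_num : (0:ℝ) ≤ 3),
        abs_of_nonneg (sq_nonneg (f x))]
      exact le_of_eq (by ring)
    · rw [abs_mul, abs_pow]
      refine (mul_le_mul_of_nonneg_left (w.g1 2 x) (by positivity)).trans (le_of_eq (by ring))
  have hGi : Integrable (pd 2 (fun x => f x ^ 3 * Ψ x)) := by
    refine Integrable.mono' ((iq.const_mul 3).add (i3.const_mul c)) (pd_cont hG1 2).aestronglyMeasurable (ae_of_all _ fun x => ?_)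
    rw [Real.norm_eq_abs]
    exact hGa x
  have hGB : ∀ x, |f x ^ 3 * Ψ x| ≤ K ^ 3 := by
    intro x
    rw [abs_mul, abs_pow, abs_of_nonneg (w.nn x)]
    have a1 := pow_le_pow_left₀ (abs_nonneg _) (hfb x) 3
    calc |f x| ^ 3 * Ψ x ≤ K ^ 3 * 1 := mul_le_mul a1 (w.le x) (w.nn x) (by positivity)
      _ = K ^ 3 := mul_one _
  have e1 := (le_abs_self _).trans (f1r h hG1 hGB i3' hGi hi)
  have e2 : ∫ x, |pd 2 (fun x => f x ^ 3 * Ψ x) x| ≤ ∫ x, (3 * ((f x ^ 2 * |p x|) * Ψ x) + c * (|f x| ^ 3 * Ψ x)) :=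
    integral_mono_of_nonneg (ae_of_all _ fun x => abs_nonneg _) ((iq.const_mul 3).add (i3.const_mul c)) (ae_of_all _ fun x => hGa x)
  have e3 : N * ∫ x, (3 * ((f x ^ 2 * |p x|) * Ψ x) + c * (|f x| ^ 3 * Ψ x)) ≤
      ∫ x, (9 * N ^ 2 * (p x ^ 2 * Ψ x) + c ^ 2 * N ^ 2 * (f x ^ 2 * Ψ x) + (1/2) * (f x ^ 4 * Ψ x)) := by
    rw [← integral_const_mul]
    refine integral_mono (((iq.const_mul 3).add (i3.const_mul _)).const_mul N) (((ip.const_mul _).add (i2.const_mul _)).add (i4.const_mul _)) fun x => ?_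
    have b1 : N * (3 * (f x ^ 2 * |p x|)) ≤ 9 * N ^ 2 * p x ^ 2 + (1/4) * f x ^ 4 := by
      rw [← sq_abs (p x)]
      nlinarith [sq_nonneg (f x ^ 2 / 2 - 3 * N * |p x|)]
    have b4 : N * (c * |f x| ^ 3) ≤ c ^ 2 * N ^ 2 * f x ^ 2 + (1/4) * f x ^ 4 := by
      have b5 : |f x| ^ 2 = f x ^ 2 := sq_abs _
      have b7 : f x ^ 4 = |f x| ^ 4 := by
        rw [show f x ^ 4 = (f x ^ 2) ^ 2 by ring, ← b5]; ring
      rw [b7, ← b5]
      nlinarith [sq_nonneg (|f x| ^ 2 / 2 - c * N * |f x|)]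
    have b6 := mul_le_mul_of_nonneg_right (add_le_add b1 b4) (w.nn x)
    show N * (3 * ((f x ^ 2 * |p x|) * Ψ x) + c * (|f x| ^ 3 * Ψ x)) ≤
      9 * N ^ 2 * (p x ^ 2 * Ψ x) + c ^ 2 * N ^ 2 * (f x ^ 2 * Ψ x) + (1/2) * (f x ^ 4 * Ψ x)
    linarith
  rw [Fc_lc ip i2 i4] at e3
  have e4 : ∫ x, x i * sW v x * (f x ^ 3 * Ψ x) = ∫ x, f x ^ 4 * Ψ x := by
    refine integral_congr_ae (ae_of_all _ fun x => ?_)
    show x i * sW v x * (f x ^ 3 * Ψ x) = f x ^ 4 * Ψ x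
    rw [← hfx]
    ring
  rw [e4] at e1
  have e5 := mul_le_mul_of_nonneg_left e2 (by linarith : (0:ℝ) ≤ N)
  have e6 : ∫ x, f x ^ 4 * Ψ x ≤ 18 * N ^ 2 * (∫ x, p x ^ 2 * Ψ x) + 2 * c ^ 2 * N ^ 2 * ∫ x, f x ^ 2 * Ψ x := by
    linarith
  simp only [hfx] at i4 i2 e6
  simp only [hpx] at ip e6
  exact ⟨i4, ip, i2, e6⟩

private theorem Fc_t {κ N b c K R L z : ℝ} {v : E3 → E3} (h : Sm κ N b v) (hR : 0 < R) (hL : R ≤ L)
    (hc : c = 4 / R) (w : Wc c (wt R L z)) (hK : ∀ x, ‖v x‖ ≤ K ∧ gv v x ≤ K) :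
    Integrable (fun x => ut v x ^ 4 * wt R L z x) ∧
    ∫ x, ut v x ^ 4 * wt R L z x ≤ 3 * N ^ 2 * DD v (wt R L z) + c ^ 2 / 8 * N ^ 2 * SS v (wt R L z) := by
  have hκ := h.one
  have hN : 1 ≤ N := h.one.trans h.le
  have hutc : Continuous (ut v) := (ur_c h.ax).2.1
  have hub : ∀ x, |ut v x| ≤ K := by
    intro x
    refine le_trans ?_ (hK x).1
    refine abs_le_of_sq_le_sq ?_ (norm_nonneg _)
    have a1 := (ur_f h.ax x).2.2.2.1
    rw [a1]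
    have := sq_nonneg (ur v x)
    have := sq_nonneg (v x 2)
    linarith
  have i4 : Integrable (fun x => ut v x ^ 4 * wt R L z x) := wi (K := K ^ 4) w (hutc.pow 4) fun x => by
    rw [abs_pow]; exact pow_le_pow_left₀ (abs_nonneg _) (hub x) 4
  have i1 : Integrable (fun x => gv v x * wt R L z x) := wi (K := K) w (ba_gvc h.ax.smooth).1 fun x => by
    rw [abs_of_nonneg (ba_gv (v := v) x 0 0).1]; exact (hK x).2
  refine ⟨i4, ?_⟩
  have hrad : Continuous (rad : E3 → ℝ) := by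
    unfold rad
    exact (((Psi_cont_coord 0).pow 2).add ((Psi_cont_coord 1).pow 2)).sqrt
  have hA : MeasurableSet {x : E3 | b ≤ rad x} := measurableSet_le measurable_const hrad.measurable
  have e0 := integral_add_compl hA i4
  obtain ⟨-, e1⟩ := l2d (R := R) (L := L) (z := z) h.ax h.vf hR hL h.pos
  have hDD : 0 ≤ DD v (wt R L z) := integral_nonneg fun x => mul_nonneg (ba_gv x 0 0).1 (w.nn x)
  have hSS : 0 ≤ SS v (wt R L z) := integral_nonneg fun x => mul_nonneg (by positivity) (w.nn x)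
  have e2 : (∫ x, ‖v x‖ ^ 2) / b ≤ κ := by
    rw [div_le_iff₀ h.pos]
    exact h.en
  have e3 : 0 ≤ 2 * DD v (wt R L z) + 2 / R ^ 2 * SS v (wt R L z) := by positivity
  have e4 := e1.trans (mul_le_mul_of_nonneg_right e2 e3)
  have e5 : ∫ x in {x : E3 | b ≤ rad x}ᶜ, ut v x ^ 4 * wt R L z x ≤ κ ^ 2 * DD v (wt R L z) := by
    have a1 : ∫ x in {x : E3 | b ≤ rad x}ᶜ, ut v x ^ 4 * wt R L z x ≤
        ∫ x in {x : E3 | b ≤ rad x}ᶜ, κ ^ 2 * (gv v x * wt R L z x) := by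
      refine setIntegral_mono_on i4.integrableOn (i1.const_mul _).integrableOn hA.compl fun x hx => ?_
      have hx' : rad x ≤ b := by
        have hx2 : ¬ b ≤ rad x := hx
        linarith
      have b1 := h.cir x hx'
      have b2 := (ur_f h.ax x).2.2.2.2.1
      have b3 := (ur_g h.ax x).2.1
      have b4 : rad x ^ 2 = rsq x := rad_sq' x
      have b5 : 0 ≤ gv v x := (ba_gv x 0 0).1
      have b6 : (rad x * |ut v x|) ^ 2 ≤ κ ^ 2 := by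
        rw [← b2]
        exact pow_le_pow_left₀ (abs_nonneg _) b1 2
      have b7 : rsq x * ut v x ^ 2 ≤ κ ^ 2 := by
        rw [← b4, ← sq_abs (ut v x), ← mul_pow]
        exact b6
      have b8 : ut v x ^ 4 ≤ κ ^ 2 * gv v x := by
        calc ut v x ^ 4 = ut v x ^ 2 * ut v x ^ 2 := by ring
          _ ≤ ut v x ^ 2 * (rsq x * gv v x) := mul_le_mul_of_nonneg_left b3 (sq_nonneg _)
          _ = (rsq x * ut v x ^ 2) * gv v x := by ring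
          _ ≤ κ ^ 2 * gv v x := mul_le_mul_of_nonneg_right b7 b5
      calc ut v x ^ 4 * wt R L z x ≤ κ ^ 2 * gv v x * wt R L z x := mul_le_mul_of_nonneg_right b8 (w.nn x)
        _ = κ ^ 2 * (gv v x * wt R L z x) := by ring
    refine a1.trans ?_
    have a2 : ∫ x in {x : E3 | b ≤ rad x}ᶜ, κ ^ 2 * (gv v x * wt R L z x) ≤ ∫ x, κ ^ 2 * (gv v x * wt R L z x) :=
      setIntegral_le_integral (i1.const_mul _) (ae_of_all _ fun x =>
        mul_nonneg (sq_nonneg _) (mul_nonneg (ba_gv x 0 0).1 (w.nn x)))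
    refine a2.trans (le_of_eq ?_)
    rw [integral_const_mul]
    rfl
  have e6 : κ ^ 2 ≤ N ^ 2 := pow_le_pow_left₀ (by linarith) h.le 2
  have e7 : κ ≤ κ ^ 2 := by nlinarith
  have e8 := mul_le_mul_of_nonneg_right (e7.trans e6) e3
  have e9 := mul_le_mul_of_nonneg_right e6 hDD
  have e10 : 2 / R ^ 2 = c ^ 2 / 8 := by
    rw [hc]
    field_simp
    ring
  rw [e10] at e4 e8
  have e11 : N ^ 2 * (2 * DD v (wt R L z) + c ^ 2 / 8 * SS v (wt R L z)) =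
    2 * N ^ 2 * DD v (wt R L z) + c ^ 2 / 8 * N ^ 2 * SS v (wt R L z) := by ring
  linarith

theorem f5 {κ N b R L z : ℝ} {v : E3 → E3} (h : Sm κ N b v) (hR : 0 < R) (hL : R ≤ L) :
    QQ v (wt R L z) ≤ 180 * N ^ 2 * (DD v (wt R L z) + (1 + (4 / R) ^ 2) * SS v (wt R L z)) := by
  obtain ⟨K, hK0, hK, -, -⟩ := ba_vf h.vf
  obtain ⟨c, hc⟩ : ∃ c, c = 4 / R := ⟨_, rfl⟩
  have w : Wc c (wt R L z) := by
    rw [hc]
    exact wt_wc hR hL z
  rw [← hc]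
  have hc0 : 0 ≤ c := by
    rw [hc]
    positivity
  have hN : 1 ≤ N := h.one.trans h.le
  have hK' : ∀ x, ‖v x‖ ≤ K ∧ gv v x ≤ K := fun x => ⟨(hK x).1, (hK x).2.1⟩
  obtain ⟨z4, ez⟩ := Fc_z h w (fun x => ⟨(hK x).1, (hK x).2.1, fun i => (hK x).2.2.1 i 2⟩) hK0
  obtain ⟨a4, ap, a2, ea⟩ := Fc_w h w hc0 hK' hK0 (i := 0) (by decide)
  obtain ⟨b4, bp, b2, eb⟩ := Fc_w h w hc0 hK' hK0 (i := 1) (by decide)
  obtain ⟨t4, et⟩ := Fc_t h hR hL hc w hK'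
  have hgc := ba_gvc h.ax.smooth
  have i1 : Integrable (fun x => gv v x * wt R L z x) := wi (K := K) w hgc.1 fun x => by
    rw [abs_of_nonneg (ba_gv (v := v) x 0 0).1]; exact (hK x).2.1
  have j2 : Integrable (fun x => ‖v x‖ ^ 2 * wt R L z x) := wi (K := K ^ 2) w (hgc.2.1.pow 2) fun x => by
    rw [abs_of_nonneg (by positivity)]; exact pow_le_pow_left₀ (norm_nonneg _) (hK x).1 2
  have k1 : Integrable (fun x => ‖v x‖ ^ 4 * wt R L z x) := wi (K := K ^ 4) w (hgc.2.1.pow 4) fun x => by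
    rw [abs_of_nonneg (by positivity)]; exact pow_le_pow_left₀ (norm_nonneg _) (hK x).1 4
  have hDD : 0 ≤ DD v (wt R L z) := integral_nonneg fun x => mul_nonneg (ba_gv x 0 0).1 (w.nn x)
  have hSS : 0 ≤ SS v (wt R L z) := integral_nonneg fun x => mul_nonneg (by positivity) (w.nn x)
  have hurc : Continuous (ur v) := (ur_c h.ax).1
  have hub : ∀ x, |ur v x| ≤ K := by
    intro x
    refine le_trans ?_ (hK x).1
    refine abs_le_of_sq_le_sq ?_ (norm_nonneg _)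
    have a1 := (ur_f h.ax x).2.2.2.1
    rw [a1]
    have := sq_nonneg (ut v x)
    have := sq_nonneg (v x 2)
    linarith
  have r4 : Integrable (fun x => ur v x ^ 4 * wt R L z x) := wi (K := K ^ 4) w (hurc.pow 4) fun x => by
    rw [abs_pow]; exact pow_le_pow_left₀ (abs_nonneg _) (hub x) 4
  have g1 : (∫ x, (x 0 * pd 2 (sW v) x) ^ 2 * wt R L z x) + (∫ x, (x 1 * pd 2 (sW v) x) ^ 2 * wt R L z x) ≤ DD v (wt R L z) := by
    rw [← integral_add ap bp]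
    refine integral_mono (ap.add bp) i1 fun x => ?_
    have := mul_le_mul_of_nonneg_right (ur_g h.ax x).2.2.1 (w.nn x)
    show (x 0 * pd 2 (sW v) x) ^ 2 * wt R L z x + (x 1 * pd 2 (sW v) x) ^ 2 * wt R L z x ≤ gv v x * wt R L z x
    linarith
  have g2 : (∫ x, (x 0 * sW v x) ^ 2 * wt R L z x) + (∫ x, (x 1 * sW v x) ^ 2 * wt R L z x) ≤ SS v (wt R L z) := by
    rw [← integral_add a2 b2]
    refine integral_mono (a2.add b2) j2 fun x => ?_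
    have c1 := (ur_g h.ax x).2.2.2
    have c2 := (ur_f h.ax x).2.2.2.1
    have c3 : (x 0 * sW v x) ^ 2 + (x 1 * sW v x) ^ 2 ≤ ‖v x‖ ^ 2 := by
      rw [c2, ← c1]
      have := sq_nonneg (ut v x)
      have := sq_nonneg (v x 2)
      linarith
    have := mul_le_mul_of_nonneg_right c3 (w.nn x)
    show (x 0 * sW v x) ^ 2 * wt R L z x + (x 1 * sW v x) ^ 2 * wt R L z x ≤ ‖v x‖ ^ 2 * wt R L z x
    linarith
  have g3 : ∫ x, ur v x ^ 4 * wt R L z x ≤ 2 * (∫ x, (x 0 * sW v x) ^ 4 * wt R L z x) +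
      2 * (∫ x, (x 1 * sW v x) ^ 4 * wt R L z x) + 0 * ∫ x, wt R L z x := by
    rw [← Fc_lc a4 b4 w.int]
    refine integral_mono r4 (((a4.const_mul _).add (b4.const_mul _)).add (w.int.const_mul _)) fun x => ?_
    have c1 := (ur_g h.ax x).2.2.2
    have c2 : ur v x ^ 4 ≤ 2 * (x 0 * sW v x) ^ 4 + 2 * (x 1 * sW v x) ^ 4 := by
      rw [show ur v x ^ 4 = (ur v x ^ 2) ^ 2 by ring, c1]
      nlinarith [sq_nonneg ((x 0 * sW v x) ^ 2 - (x 1 * sW v x) ^ 2)]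
    have := mul_le_mul_of_nonneg_right c2 (w.nn x)
    show ur v x ^ 4 * wt R L z x ≤ 2 * ((x 0 * sW v x) ^ 4 * wt R L z x) +
      2 * ((x 1 * sW v x) ^ 4 * wt R L z x) + 0 * wt R L z x
    linarith
  have g4 : QQ v (wt R L z) ≤ 3 * (∫ x, ur v x ^ 4 * wt R L z x) +
      3 * (∫ x, ut v x ^ 4 * wt R L z x) + 3 * ∫ x, v x 2 ^ 4 * wt R L z x := by
    rw [← Fc_lc r4 t4 z4]
    refine integral_mono k1 (((r4.const_mul _).add (t4.const_mul _)).add (z4.const_mul _)) fun x => ?_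
    have c2 := (ur_f h.ax x).2.2.2.1
    have c3 : ‖v x‖ ^ 4 ≤ 3 * ur v x ^ 4 + 3 * ut v x ^ 4 + 3 * v x 2 ^ 4 := by
      rw [show ‖v x‖ ^ 4 = (‖v x‖ ^ 2) ^ 2 by ring, c2]
      nlinarith [sq_nonneg (ur v x ^ 2 - ut v x ^ 2), sq_nonneg (ur v x ^ 2 - v x 2 ^ 2), sq_nonneg (ut v x ^ 2 - v x 2 ^ 2)]
    have := mul_le_mul_of_nonneg_right c3 (w.nn x)
    show ‖v x‖ ^ 4 * wt R L z x ≤ 3 * (ur v x ^ 4 * wt R L z x) + 3 * (ut v x ^ 4 * wt R L z x) + 3 * (v x 2 ^ 4 * wt R L z x)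
    linarith
  have g5 := mul_le_mul_of_nonneg_left g1 (by positivity : 0 ≤ 18 * N ^ 2)
  have g6 := mul_le_mul_of_nonneg_left g2 (by positivity : 0 ≤ 2 * c ^ 2 * N ^ 2)
  have g7 : ∫ x, ur v x ^ 4 * wt R L z x ≤ 36 * N ^ 2 * DD v (wt R L z) + 4 * c ^ 2 * N ^ 2 * SS v (wt R L z) := by
    linarith
  have g8 : 0 ≤ N ^ 2 * SS v (wt R L z) := by positivity
  have g9 : 0 ≤ c ^ 2 * N ^ 2 * SS v (wt R L z) := by positivity
  have g10 : 0 ≤ N ^ 2 * DD v (wt R L z) := by positivity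
  have g11 : 180 * N ^ 2 * (DD v (wt R L z) + (1 + c ^ 2) * SS v (wt R L z)) =
    180 * (N ^ 2 * DD v (wt R L z)) + 180 * (N ^ 2 * SS v (wt R L z)) + 180 * (c ^ 2 * N ^ 2 * SS v (wt R L z)) := by ring
  rw [g11]
  linarith

end Pool.Agent.H94.WL
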