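/-
ROW Aa (MP_09540e_WL). The flux terms. PROOF (cf. TU/Aa.lean). Let `Φ = ww N Z R z = wt R (Z N R) z` (unfold ww), `L = Z N R ≥ R` (Ad0_L, ww_ok). `|lap Φ| ≤ 24/R² Φ` (wt_lap). `|adv (v x) Φ x| ≤ (2/R) |ur| Φ + (1/L) ‖v‖ Φ` (a_g, wt_z). Young: `(2/R) ‖v‖² |ur| ≤ δ/(180 N²) ‖v‖⁴ + (180 N²/(δ R²)) ur²`;
f5 (R ≤ 1: `1 + 16/R² ≤ 17/R²`): `QQ ≤ 180 N² (DD + 17/R² SS)`, mU: `∫ ur² Φ ≤ C_m κ² Z N R`: this part is `≤ δ (DD + 17 SS/R²) + 180 C_m κ² Z N³/(δ R)`. `(1/L) ‖v‖³ ≤ (1/(ZNR)) ((R/(2N)) ‖v‖⁴ + (N/(2R)) ‖v‖²)`: `≤ QQ/(2ZN²) + SS/(2ZR²) ≤ (90/Z)(DD + 17 SS/R²) + SS/(2 Z R²)`.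
Total `≤ (δ + 90/Z) DD + (24 + 17 + 1531)/R² SS + 180 C_m κ² Z/δ N³/R`. Integrability: wi, ba_vf, mU.
-/
import Pool.Agent.H94.WL.Ad
import Pool.Agent.H94.WL.Fb
import Pool.Agent.H94.WL.Fc

set_option autoImplicit false

open Set Filter Topology MeasureTheory
open scoped ContDiff

namespace Pool.Agent.H94.WL

open Pool.Agent.H16 Pool.Agent.H87.NS Pool.Agent.H72.CC Pool.Agent.H16.TU

theorem aFl : ∃ C : ℝ, 1 ≤ C ∧ ∀ (κ N b R Z δ z : ℝ) (v : E3 → E3), Sm κ N b v → 0 < R → R ≤ 1 → 1 ≤ Z → 0 < δ → δ ≤ 1 →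
    |∫ x, ‖v x‖ ^ 2 * (lap (ww N Z R z) x + adv (v x) (ww N Z R z) x)| ≤
      (δ + C / Z) * DD v (ww N Z R z) + C / R ^ 2 * SS v (ww N Z R z) + C * κ ^ 2 * Z / δ * N ^ 3 / R := by
  obtain ⟨Cm, hCm, hm⟩ := mU
  refine ⟨1572 + 180 * Cm, by linarith, ?_⟩
  intro κ N b₀ R Z δ z v h hR hR1 hZ hδ hδ1
  have hN : 1 ≤ N := h.one.trans h.le
  have hκ : 1 ≤ κ := h.one
  have w : Wc (4 / R) (ww N Z R z) := (ww_ok hN hZ hR z).1
  have hZ0 : 0 < Z := by linarith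
  have hN0 : 0 < N := by linarith
  have hL : R ≤ Z * N * R := (Ad0_L hN hZ hR).2
  obtain ⟨K, hK0, hK, -, -⟩ := ba_vf h.vf
  have hv := h.ax.smooth
  have hc := (ba_gvc hv).2.1
  have hcu := (ur_c h.ax).1
  have hu : ∀ x, ur v x ^ 2 ≤ ‖v x‖ ^ 2 := by
    intro x
    have h1 := (ur_f h.ax x).2.2.2.1
    nlinarith [sq_nonneg (ut v x), sq_nonneg (v x 2)]
  have iS : Integrable (fun x => ‖v x‖ ^ 2 * ww N Z R z x) := by
    refine wi (K := K ^ 2) w (hc.pow 2) fun x => ?_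
    rw [abs_of_nonneg (by positivity)]
    exact pow_le_pow_left₀ (norm_nonneg _) (hK x).1 2
  have iU : Integrable (fun x => ur v x ^ 2 * ww N Z R z x) := by
    refine wi (K := K ^ 2) w (hcu.pow 2) fun x => ?_
    rw [abs_of_nonneg (by positivity)]
    exact (hu x).trans (pow_le_pow_left₀ (norm_nonneg _) (hK x).1 2)
  have iQ : Integrable (fun x => ‖v x‖ ^ 4 * ww N Z R z x) := by
    refine wi (K := K ^ 4) w (hc.pow 4) fun x => ?_
    rw [abs_of_nonneg (by positivity)]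
    exact pow_le_pow_left₀ (norm_nonneg _) (hK x).1 4
  obtain ⟨a, ha⟩ : ∃ a : ℝ, a = 24 / R ^ 2 + 1 / (2 * Z * R ^ 2) := ⟨_, rfl⟩
  obtain ⟨b, hb⟩ : ∃ b : ℝ, b = δ / (180 * N ^ 2) + 1 / (2 * Z * N ^ 2) := ⟨_, rfl⟩
  obtain ⟨d, hd⟩ : ∃ d : ℝ, d = 180 * N ^ 2 / (δ * R ^ 2) := ⟨_, rfl⟩
  have key : ∀ x, ‖‖v x‖ ^ 2 * (lap (ww N Z R z) x + adv (v x) (ww N Z R z) x)‖ ≤
      a * (‖v x‖ ^ 2 * ww N Z R z x) + b * (‖v x‖ ^ 4 * ww N Z R z x) + d * (ur v x ^ 2 * ww N Z R z x) := by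
    intro x
    have hw := w.nn x
    have h1 : |lap (ww N Z R z) x| ≤ 24 / R ^ 2 * ww N Z R z x := wt_lap hR hL z x
    obtain ⟨h2, -, h3⟩ := a_g h.ax hR hL z x
    rw [h2] at h3
    have h3' : |adv (v x) (ww N Z R z) x| ≤ 2 / R * (|ur v x| * ww N Z R z x) +
        1 / (Z * N * R) * (|v x 2| * ww N Z R z x) := h3
    have h4 : |v x 2| ≤ ‖v x‖ := (ba_gv (v := v) x 0 0).2.2.2.2.2.1
    have hn := norm_nonneg (v x)
    have h5 : 1 / (Z * N * R) * (|v x 2| * ww N Z R z x) ≤ 1 / (Z * N * R) * (‖v x‖ * ww N Z R z x) := by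
      apply mul_le_mul_of_nonneg_left _ (by positivity)
      exact mul_le_mul_of_nonneg_right h4 hw
    have h6 : |lap (ww N Z R z) x + adv (v x) (ww N Z R z) x| ≤
        (24 / R ^ 2 + 2 / R * |ur v x| + 1 / (Z * N * R) * ‖v x‖) * ww N Z R z x := by
      refine (abs_add_le _ _).trans ?_
      have e1 : (24 / R ^ 2 + 2 / R * |ur v x| + 1 / (Z * N * R) * ‖v x‖) * ww N Z R z x =
          24 / R ^ 2 * ww N Z R z x + (2 / R * (|ur v x| * ww N Z R z x) +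
            1 / (Z * N * R) * (‖v x‖ * ww N Z R z x)) := by ring
      rw [e1]
      linarith
    have h7 : ‖v x‖ ^ 2 * (24 / R ^ 2 + 2 / R * |ur v x| + 1 / (Z * N * R) * ‖v x‖) ≤
        a * ‖v x‖ ^ 2 + b * ‖v x‖ ^ 4 + d * ur v x ^ 2 := by
      have h8 : 1 / (Z * N * R) * ‖v x‖ ≤ 1 / (2 * Z * R ^ 2) + 1 / (2 * Z * N ^ 2) * ‖v x‖ ^ 2 := by
        have e2 : 1 / (2 * Z * R ^ 2) + 1 / (2 * Z * N ^ 2) * ‖v x‖ ^ 2 - 1 / (Z * N * R) * ‖v x‖ =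
            1 / (2 * Z) * (1 / R - ‖v x‖ / N) ^ 2 := by
          field_simp
          ring
        have e3 : 0 ≤ 1 / (2 * Z) * (1 / R - ‖v x‖ / N) ^ 2 := by positivity
        linarith
      have h9 := mul_le_mul_of_nonneg_left h8 (by positivity : 0 ≤ ‖v x‖ ^ 2)
      have h10 : ‖v x‖ ^ 2 * (2 / R * |ur v x|) ≤ δ / (180 * N ^ 2) * ‖v x‖ ^ 4 + d * ur v x ^ 2 := by
        rw [hd, ← sq_abs (ur v x)]
        have e4 : δ / (180 * N ^ 2) * ‖v x‖ ^ 4 + 180 * N ^ 2 / (δ * R ^ 2) * |ur v x| ^ 2 -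
            ‖v x‖ ^ 2 * (2 / R * |ur v x|) = (δ * R * ‖v x‖ ^ 2 - 180 * N ^ 2 * |ur v x|) ^ 2 /
              (180 * N ^ 2 * δ * R ^ 2) := by
          field_simp
          ring
        have e5 : 0 ≤ (δ * R * ‖v x‖ ^ 2 - 180 * N ^ 2 * |ur v x|) ^ 2 / (180 * N ^ 2 * δ * R ^ 2) := by
          positivity
        linarith
      rw [ha, hb]
      nlinarith
    rw [Real.norm_eq_abs, abs_mul, abs_of_nonneg (by positivity : (0 : ℝ) ≤ ‖v x‖ ^ 2)]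
    calc ‖v x‖ ^ 2 * |lap (ww N Z R z) x + adv (v x) (ww N Z R z) x|
        ≤ ‖v x‖ ^ 2 * ((24 / R ^ 2 + 2 / R * |ur v x| + 1 / (Z * N * R) * ‖v x‖) * ww N Z R z x) :=
          mul_le_mul_of_nonneg_left h6 (by positivity)
      _ = (‖v x‖ ^ 2 * (24 / R ^ 2 + 2 / R * |ur v x| + 1 / (Z * N * R) * ‖v x‖)) * ww N Z R z x := by ring
      _ ≤ (a * ‖v x‖ ^ 2 + b * ‖v x‖ ^ 4 + d * ur v x ^ 2) * ww N Z R z x := mul_le_mul_of_nonneg_right h7 hw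
      _ = a * (‖v x‖ ^ 2 * ww N Z R z x) + b * (‖v x‖ ^ 4 * ww N Z R z x) + d * (ur v x ^ 2 * ww N Z R z x) := by ring
  have h10 := norm_integral_le_of_norm_le (((iS.const_mul a).add (iQ.const_mul b)).add (iU.const_mul d))
    (Filter.Eventually.of_forall key)
  have h11 : ∫ x, (a * (‖v x‖ ^ 2 * ww N Z R z x) + b * (‖v x‖ ^ 4 * ww N Z R z x) + d * (ur v x ^ 2 * ww N Z R z x)) =
      a * SS v (ww N Z R z) + b * QQ v (ww N Z R z) + d * ∫ x, ur v x ^ 2 * ww N Z R z x := by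
    have e6 := integral_add ((iS.const_mul a).add (iQ.const_mul b)) (iU.const_mul d)
    have e7 := integral_add (iS.const_mul a) (iQ.const_mul b)
    simp only [Pi.add_apply] at e6
    rw [e6, e7, integral_const_mul, integral_const_mul, integral_const_mul]
    rfl
  rw [Real.norm_eq_abs] at h10
  have h12 : |∫ x, ‖v x‖ ^ 2 * (lap (ww N Z R z) x + adv (v x) (ww N Z R z) x)| ≤
      a * SS v (ww N Z R z) + b * QQ v (ww N Z R z) + d * ∫ x, ur v x ^ 2 * ww N Z R z x := by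
    rw [← h11]
    exact h10
  refine h12.trans ?_
  have h13 : QQ v (ww N Z R z) ≤ 180 * N ^ 2 * (DD v (ww N Z R z) + (1 + (4 / R) ^ 2) * SS v (ww N Z R z)) :=
    f5 h hR hL
  have h16 : ∫ x, ur v x ^ 2 * ww N Z R z x ≤ Cm * κ ^ 2 * (Z * N * R) :=
    (hm κ N b₀ R (Z * N * R) z v h hR hL).1
  have hSS : 0 ≤ SS v (ww N Z R z) := integral_nonneg fun x => mul_nonneg (by positivity) (w.nn x)
  have hDD : 0 ≤ DD v (ww N Z R z) := integral_nonneg fun x => mul_nonneg (ba_gv x 0 0).1 (w.nn x)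
  generalize SS v (ww N Z R z) = S at h13 hSS ⊢
  generalize DD v (ww N Z R z) = D at h13 hDD ⊢
  generalize QQ v (ww N Z R z) = Q at h13 ⊢
  generalize ∫ x, ur v x ^ 2 * ww N Z R z x = I at h16 ⊢
  have hR2 : 0 < R ^ 2 := by positivity
  have hb0 : 0 ≤ b := by rw [hb]; positivity
  have hd0 : 0 ≤ d := by rw [hd]; positivity
  have hZi : 1 / Z ≤ 1 := by
    rw [div_le_one hZ0]
    exact hZ
  have hZi0 : 0 < 1 / Z := by positivity
  have hRi0 : 0 < 1 / R ^ 2 := by positivity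
  have h14 : b * Q ≤ (δ + 90 / Z) * D + 1547 / R ^ 2 * S := by
    have e4 : b * (180 * N ^ 2 * (D + (1 + (4 / R) ^ 2) * S)) = (δ + 90 / Z) * (D + (1 + (4 / R) ^ 2) * S) := by
      rw [hb]
      field_simp
      ring
    have e5 : 1 + (4 / R) ^ 2 ≤ 17 / R ^ 2 := by
      rw [div_pow, le_div_iff₀ hR2]
      have : (1 + 4 ^ 2 / R ^ 2) * R ^ 2 = R ^ 2 + 16 := by
        field_simp
        ring
      rw [this]
      nlinarith
    have e6 := mul_le_mul_of_nonneg_left h13 hb0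
    rw [e4] at e6
    have e8 : δ + 90 / Z ≤ 91 := by
      have : 90 / Z = 90 * (1 / Z) := by ring
      rw [this]
      linarith
    have e9 : 0 ≤ δ + 90 / Z := by positivity
    have e7 : (δ + 90 / Z) * ((1 + (4 / R) ^ 2) * S) ≤ 91 * (17 / R ^ 2 * S) :=
      mul_le_mul e8 (mul_le_mul_of_nonneg_right e5 hSS) (by positivity) (by norm_num)
    have e10 : 91 * (17 / R ^ 2 * S) = 1547 / R ^ 2 * S := by ring
    rw [e10] at e7
    rw [mul_add] at e6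
    linarith
  have h15 : a * S ≤ 25 / R ^ 2 * S := by
    apply mul_le_mul_of_nonneg_right _ hSS
    have e8 : a = 24 * (1 / R ^ 2) + 1 / 2 * (1 / Z) * (1 / R ^ 2) := by
      rw [ha]
      field_simp
    have e9 : 25 / R ^ 2 = 25 * (1 / R ^ 2) := by ring
    rw [e8, e9]
    nlinarith
  have h17 : d * I ≤ (1572 + 180 * Cm) * κ ^ 2 * Z / δ * N ^ 3 / R := by
    have e1 := mul_le_mul_of_nonneg_left h16 hd0
    have e2 : d * (Cm * κ ^ 2 * (Z * N * R)) = (180 * Cm) * (κ ^ 2 * Z / δ * N ^ 3 / R) := by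
      rw [hd]
      field_simp
    have e3 : (1572 + 180 * Cm) * κ ^ 2 * Z / δ * N ^ 3 / R =
        (1572 + 180 * Cm) * (κ ^ 2 * Z / δ * N ^ 3 / R) := by ring
    rw [e3]
    rw [e2] at e1
    have e4 : 0 ≤ κ ^ 2 * Z / δ * N ^ 3 / R := by positivity
    nlinarith
  have h18 : (δ + 90 / Z) * D ≤ (δ + (1572 + 180 * Cm) / Z) * D := by
    apply mul_le_mul_of_nonneg_right _ hDD
    have : 90 / Z ≤ (1572 + 180 * Cm) / Z := div_le_div_of_nonneg_right (by linarith) hZ0.le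
    linarith
  have h19 : 1547 / R ^ 2 * S + 25 / R ^ 2 * S ≤ (1572 + 180 * Cm) / R ^ 2 * S := by
    rw [← add_mul, ← add_div]
    apply mul_le_mul_of_nonneg_right _ hSS
    exact div_le_div_of_nonneg_right (by linarith) hR2.le
  linarith

end Pool.Agent.H94.WL
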