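/-
ROW Ab (MP_09540e_WL). The near part of the pressure. PROOF (cf. TU/Ab.lean). `Φ = ww N Z R z = wt R L z`, `L = Z N R ≥ R`, `g = dv (v Φ)`, `|g| ≤ (2/R) |ur| Φ + (1/L) |v₂| Φ` (a_g), so `NE (2R) g ≤ (2/R) NE (2R) (|ur| Φ) + (1/L) NE (2R) (|v₂| Φ)` (Ab_mono in TU/Ab.lean; the functions are continuous, bounded).
Radial part: on the ball of radius 2R, `Φ x ≤ 64·2⁶ Φ y` (wt_cmp, A = 2), so `NE (2R) (|ur| Φ) y ≤ 4096 Φ y K y`, `K y = NE (2R) (ur v) y`. Young twice: `(8192/R) ‖v‖ √gv K ≤ δ gv + c₁ ‖v‖² K²`, `c₁ = 8192²/(4δR²)`, `c₁ ‖v‖² K² ≤ δ/(180N²) ‖v‖⁴ + (45 N² c₁²/δ) K⁴`; integrate against Φ: f5 (`QQ ≤ 180 N² (DD + 17/R² SS)`), mU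
(`∫ K⁴ Φ ≤ C_m κ⁴ R² Z N R`): `≤ δ DD + δ (DD + 17 SS/R²) + (45 · 8192⁴/16) C_m κ⁴ Z N³/(δ³ R)`. Axial part: exactly as in TU/Ab.lean with A = 2 and f5 with 180 instead of 40 (ne_two with a = |v₂|, b = ‖v‖√gv, α = ‖v‖⁴/(4N), β = N gv/2 + ‖v‖⁴/(4N)): `≤ (C/Z)(DD + SS/R²)`. (K is continuous/measurable: mU gives the integrability of K⁴ Φ; ‖v‖√gv K Φ is
dominated by the sum on the right.)
-/
import Pool.Agent.H94.WL.Ad
import Pool.Agent.H94.WL.Fb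
import Pool.Agent.H94.WL.Fc
import Pool.Agent.H16.TU.Ab

set_option autoImplicit false

open Set Filter Topology MeasureTheory
open scoped ContDiff

namespace Pool.Agent.H94.WL

open Pool.Agent.H16 Pool.Agent.H87.NS Pool.Agent.H72.CC Pool.Agent.H16.TU

lemma Ab_ar {κ N Z R L δ X D S Q I J Cm T : ℝ} (hκ : 1 ≤ κ) (hN : 1 ≤ N) (hZ : 1 ≤ Z) (hR : 0 < R) (hR1 : R ≤ 1)
    (hL : L = Z * N * R) (hδ : 0 < δ) (hδ1 : δ ≤ 1) (hD : 0 ≤ D) (hS : 0 ≤ S) (hCm : 0 ≤ Cm)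
    (h0 : X ≤ T + 1 / L * (832 * 2 ^ 7 * R * J))
    (hT : T ≤ δ * D + δ / (180 * N ^ 2) * Q + 45 * N ^ 2 * (8192 ^ 2 / (4 * δ * R ^ 2)) ^ 2 / δ * I)
    (hI : I ≤ Cm * κ ^ 4 * R ^ 2 * L)
    (hJ : J ≤ Q / (2 * N) + N * D / 2) (hQ : Q ≤ 180 * N ^ 2 * (D + (1 + (4 / R) ^ 2) * S)) :
    X ≤ (2 * δ + (17 + 832 * 2 ^ 7 * 1530 + 45 * 8192 ^ 4 / 16 * Cm) / Z) * D +
      (17 + 832 * 2 ^ 7 * 1530 + 45 * 8192 ^ 4 / 16 * Cm) / R ^ 2 * S +
      (17 + 832 * 2 ^ 7 * 1530 + 45 * 8192 ^ 4 / 16 * Cm) * κ ^ 4 * Z / δ ^ 3 * N ^ 3 / R := by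
  have hL0 : 0 < L := by rw [hL]; positivity
  have hN0 : 0 < N := by linarith
  have hZ0 : 0 < Z := by linarith
  have hκ0 : 0 < κ := by linarith
  have k2 : (1 + (4 / R) ^ 2) * S ≤ 17 / R ^ 2 * S := by
    refine mul_le_mul_of_nonneg_right ?_ hS
    rw [div_pow, ← sub_nonneg]
    have : 17 / R ^ 2 - (1 + 4 ^ 2 / R ^ 2) = (1 - R ^ 2) / R ^ 2 := by
      field_simp
      ring
    rw [this]
    have : R ^ 2 ≤ 1 := by nlinarith
    exact div_nonneg (by linarith) (by positivity)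
  have kQ : Q ≤ 180 * N ^ 2 * (D + 17 / R ^ 2 * S) :=
    hQ.trans (mul_le_mul_of_nonneg_left (by linarith) (by positivity))
  have hS' : 0 ≤ 17 / R ^ 2 * S := by positivity
  have k3 : δ / (180 * N ^ 2) * Q ≤ δ * D + 17 / R ^ 2 * S := by
    have e1 : δ / (180 * N ^ 2) * Q ≤ δ / (180 * N ^ 2) * (180 * N ^ 2 * (D + 17 / R ^ 2 * S)) :=
      mul_le_mul_of_nonneg_left kQ (by positivity)
    have e2 : δ / (180 * N ^ 2) * (180 * N ^ 2 * (D + 17 / R ^ 2 * S)) = δ * (D + 17 / R ^ 2 * S) := by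
      field_simp
    have e3 : δ * (17 / R ^ 2 * S) ≤ 1 * (17 / R ^ 2 * S) := mul_le_mul_of_nonneg_right hδ1 hS'
    rw [e2] at e1
    linarith
  have k4 : 45 * N ^ 2 * (8192 ^ 2 / (4 * δ * R ^ 2)) ^ 2 / δ * I ≤
      45 * 8192 ^ 4 / 16 * Cm * κ ^ 4 * Z / δ ^ 3 * N ^ 3 / R := by
    refine (mul_le_mul_of_nonneg_left hI (by positivity)).trans (le_of_eq ?_)
    rw [hL]
    field_simp
    ring
  have k5 : Q / (2 * N) ≤ 90 * N * (D + 17 / R ^ 2 * S) := by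
    rw [div_le_iff₀ (by positivity)]
    linarith
  have k6 : J ≤ N * (181 / 2 * D + 1530 / R ^ 2 * S) := by
    have e : N * (181 / 2 * D + 1530 / R ^ 2 * S) = 90 * N * (D + 17 / R ^ 2 * S) + N * D / 2 := by ring
    linarith
  have k7 : 1 / L * (832 * 2 ^ 7 * R * J) ≤ 1 / L * (832 * 2 ^ 7 * R * (N * (181 / 2 * D + 1530 / R ^ 2 * S))) :=
    mul_le_mul_of_nonneg_left (mul_le_mul_of_nonneg_left k6 (by positivity)) (by positivity)
  have k8 : 1 / L * (832 * 2 ^ 7 * R * (N * (181 / 2 * D + 1530 / R ^ 2 * S))) =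
      (832 * 2 ^ 7) * (181 / 2) / Z * D + (832 * 2 ^ 7 * 1530) / Z / R ^ 2 * S := by
    rw [hL]
    field_simp
  have k9 : (832 * 2 ^ 7) * (181 / 2) / Z * D ≤ (17 + 832 * 2 ^ 7 * 1530 + 45 * 8192 ^ 4 / 16 * Cm) / Z * D := by
    refine mul_le_mul_of_nonneg_right (div_le_div_of_nonneg_right ?_ hZ0.le) hD
    have : 0 ≤ 45 * 8192 ^ 4 / 16 * Cm := by positivity
    linarith
  have k10 : (832 * 2 ^ 7 * 1530) / Z / R ^ 2 * S ≤ (832 * 2 ^ 7 * 1530) / R ^ 2 * S := by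
    refine mul_le_mul_of_nonneg_right (div_le_div_of_nonneg_right (div_le_self (by norm_num) hZ) (by positivity)) hS
  have k11 : 0 ≤ 45 * 8192 ^ 4 / 16 * Cm / R ^ 2 * S := by positivity
  have k12 : 0 ≤ (17 + 832 * 2 ^ 7 * 1530) * κ ^ 4 * Z / δ ^ 3 * N ^ 3 / R := by positivity
  have e8 : (17 + 832 * 2 ^ 7 * 1530 + 45 * 8192 ^ 4 / 16 * Cm) / R ^ 2 * S =
      17 / R ^ 2 * S + (832 * 2 ^ 7 * 1530) / R ^ 2 * S + 45 * 8192 ^ 4 / 16 * Cm / R ^ 2 * S := by ring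
  have e9 : (17 + 832 * 2 ^ 7 * 1530 + 45 * 8192 ^ 4 / 16 * Cm) * κ ^ 4 * Z / δ ^ 3 * N ^ 3 / R =
      (17 + 832 * 2 ^ 7 * 1530) * κ ^ 4 * Z / δ ^ 3 * N ^ 3 / R +
        45 * 8192 ^ 4 / 16 * Cm * κ ^ 4 * Z / δ ^ 3 * N ^ 3 / R := by ring
  have e10 : (2 * δ + (17 + 832 * 2 ^ 7 * 1530 + 45 * 8192 ^ 4 / 16 * Cm) / Z) * D =
      δ * D + δ * D + (17 + 832 * 2 ^ 7 * 1530 + 45 * 8192 ^ 4 / 16 * Cm) / Z * D := by ring
  rw [e8, e9, e10]
  rw [k8] at k7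
  linarith

lemma Ab_yy {p s K R δ N : ℝ} (hR : 0 < R) (hδ : 0 < δ) (hN : 0 < N) :
    2 / R * (64 * 2 ^ 6) * (p * s * K) ≤
      δ * s ^ 2 + δ / (180 * N ^ 2) * p ^ 4 + 45 * N ^ 2 * (8192 ^ 2 / (4 * δ * R ^ 2)) ^ 2 / δ * K ^ 4 := by
  have h1 : 2 / R * (64 * 2 ^ 6) * (p * s * K) ≤ δ * s ^ 2 + 8192 ^ 2 / (4 * δ * R ^ 2) * (p * K) ^ 2 := by
    have e : δ * s ^ 2 + 8192 ^ 2 / (4 * δ * R ^ 2) * (p * K) ^ 2 - 2 / R * (64 * 2 ^ 6) * (p * s * K) =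
        (2 * δ * R * s - 8192 * (p * K)) ^ 2 / (4 * δ * R ^ 2) := by
      field_simp
      ring
    have h : 0 ≤ (2 * δ * R * s - 8192 * (p * K)) ^ 2 / (4 * δ * R ^ 2) := by positivity
    linarith
  obtain ⟨c, hc⟩ : ∃ c : ℝ, c = 8192 ^ 2 / (4 * δ * R ^ 2) := ⟨_, rfl⟩
  rw [← hc] at h1 ⊢
  have h2 : c * (p * K) ^ 2 ≤ δ / (180 * N ^ 2) * p ^ 4 + 45 * N ^ 2 * c ^ 2 / δ * K ^ 4 := by
    have e : δ / (180 * N ^ 2) * p ^ 4 + 45 * N ^ 2 * c ^ 2 / δ * K ^ 4 - c * (p * K) ^ 2 =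
        (δ * p ^ 2 - 90 * N ^ 2 * c * K ^ 2) ^ 2 / (180 * N ^ 2 * δ) := by
      field_simp
      ring
    have h : 0 ≤ (δ * p ^ 2 - 90 * N ^ 2 * c * K ^ 2) ^ 2 / (180 * N ^ 2 * δ) := by positivity
    linarith
  linarith

/-- the near kernel of `|ur| Φ` -/
lemma Ab_cmp {R L K : ℝ} (hR : 0 < R) (hL : R ≤ L) (z : ℝ) {f : E3 → ℝ} (cf : Continuous f) (hf : ∀ x, |f x| ≤ K) (y : E3) :
    NE (2 * R) (fun x => |f x| * wt R L z x) y ≤ 64 * 2 ^ 6 * (wt R L z y * NE (2 * R) f y) := by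
  have hl : 0 < 2 * R := by linarith
  have hL0 : 0 < L := lt_of_lt_of_le hR hL
  have j := We_pt hl cf.abs (C := K) (fun x => ⟨abs_nonneg _, hf x⟩) y
  rw [We_NE, We_NE]
  have e : 64 * 2 ^ 6 * (wt R L z y * ∫ x, We_K (2 * R) (x - y) * |f x|) =
      ∫ x, 64 * 2 ^ 6 * (wt R L z y * (We_K (2 * R) (x - y) * |f x|)) := by
    rw [integral_const_mul, integral_const_mul]
  rw [e]
  refine integral_mono_of_nonneg (Filter.Eventually.of_forall fun x => ?_) ((j.const_mul _).const_mul _)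
    (Filter.Eventually.of_forall fun x => ?_)
  · exact mul_nonneg (We_K_nn _ _) (abs_nonneg _)
  · show We_K (2 * R) (x - y) * |(|f x| * wt R L z x)| ≤ 64 * 2 ^ 6 * (wt R L z y * (We_K (2 * R) (x - y) * |f x|))
    have hw0 := (wt_pos hR hL0 z x).le
    rw [abs_of_nonneg (mul_nonneg (abs_nonneg _) hw0)]
    by_cases hxy : ‖x - y‖ < 2 * R
    · have h1 := wt_cmp (A := 2) (by norm_num) hR hL z (x := x) (y := y) hxy.le
      have h2 := We_K_nn (2 * R) (x - y)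
      calc We_K (2 * R) (x - y) * (|f x| * wt R L z x) = (We_K (2 * R) (x - y) * |f x|) * wt R L z x := by ring
        _ ≤ (We_K (2 * R) (x - y) * |f x|) * (64 * 2 ^ 6 * wt R L z y) :=
          mul_le_mul_of_nonneg_left h1 (mul_nonneg h2 (abs_nonneg _))
        _ = _ := by ring
    · have h0 : We_K (2 * R) (x - y) = 0 := by
        unfold We_K
        rw [Set.indicator_of_notMem (by rwa [mem_ball_zero_iff])]
      rw [h0]
      simp

theorem aNe : ∃ C : ℝ, 1 ≤ C ∧ ∀ (κ N b R Z δ z : ℝ) (v : E3 → E3), Sm κ N b v → 0 < R → R ≤ 1 → 1 ≤ Z → 0 < δ → δ ≤ 1 →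
    ∫ y, ‖v y‖ * √(gv v y) * NE (2 * R) (dv (fun k x => v x k * ww N Z R z x)) y ≤
      (2 * δ + C / Z) * DD v (ww N Z R z) + C / R ^ 2 * SS v (ww N Z R z) + C * κ ^ 4 * Z / δ ^ 3 * N ^ 3 / R := by
  obtain ⟨Cm, hCm1, hCm⟩ := mU
  have hCm0 : 0 ≤ Cm := by linarith
  refine ⟨17 + 832 * 2 ^ 7 * 1530 + 45 * 8192 ^ 4 / 16 * Cm, ?_, ?_⟩
  · have : 0 ≤ 45 * 8192 ^ 4 / 16 * Cm := by positivity
    linarith
  intro κ N b R Z δ z v hv hR hR1 hZ hδ hδ1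
  have hκ := hv.one
  have hN : 1 ≤ N := le_trans hκ hv.le
  have hN0 : 0 < N := by linarith
  set L : ℝ := Z * N * R with hL
  have hZN : 1 ≤ Z * N := one_le_mul_of_one_le_of_one_le hZ hN
  have hRL : R ≤ L := by
    rw [hL]
    nlinarith
  have hL0 : 0 < L := lt_of_lt_of_le hR hRL
  obtain ⟨K, hK0, hK, hi2, higv⟩ := ba_vf hv.vf
  obtain ⟨cg, cn, -⟩ := ba_gvc hv.ax.smooth
  obtain ⟨cu, -, -, -⟩ := ur_c hv.ax
  have c2 : Continuous (fun y => v y 2) := (Psi_v2 hv.ax).continuous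
  have hl : 0 < 2 * R := by positivity
  have w := wt_wc hR hRL z
  have hw0 : ∀ x, 0 ≤ wt R L z x := w.nn
  have hw1 : ∀ x, wt R L z x ≤ 1 := w.le
  have hwi : Integrable (wt R L z) := w.int
  have cw : Continuous (wt R L z) := w.sm.continuous
  have hv2 : ∀ x, |v x 2| ≤ ‖v x‖ := fun x => (ba_gv x 0 0).2.2.2.2.2.1
  have hur : ∀ x, |ur v x| ≤ ‖v x‖ := by
    intro x
    refine abs_le_of_sq_le_sq ?_ (norm_nonneg _)
    have f := (ur_f hv.ax x).2.2.2.1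
    have := sq_nonneg (ut v x)
    have := sq_nonneg (v x 2)
    linarith
  have hg0 : ∀ x, 0 ≤ gv v x := fun x => (ba_gv x 0 0).1
  -- the function b
  set bb : E3 → ℝ := fun y => ‖v y‖ * √(gv v y) with hbb
  have cb : Continuous bb := cn.mul cg.sqrt
  have hb0 : ∀ y, 0 ≤ bb y := fun y => mul_nonneg (norm_nonneg _) (Real.sqrt_nonneg _)
  have hbK : ∀ y, bb y ≤ K * √K := fun y =>
    mul_le_mul (hK y).1 (Real.sqrt_le_sqrt (hK y).2.1) (Real.sqrt_nonneg _) hK0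
  have cvw : Continuous (fun x => |v x 2| * wt R L z x) := c2.abs.mul cw
  have hvw : ∀ x, 0 ≤ |v x 2| * wt R L z x ∧ |v x 2| * wt R L z x ≤ K := fun x =>
    ⟨mul_nonneg (abs_nonneg _) (hw0 x), by
      have h1 := mul_le_mul_of_nonneg_left (hw1 x) (abs_nonneg (v x 2))
      have h2 := le_trans (hv2 x) (hK x).1
      linarith⟩
  have hvwi : Integrable (fun x => |v x 2| * wt R L z x) :=
    wi w c2.abs (K := K) (fun x => by rw [abs_abs]; exact le_trans (hv2 x) (hK x).1)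
  have cuw : Continuous (fun x => |ur v x| * wt R L z x) := cu.abs.mul cw
  have huw : ∀ x, 0 ≤ |ur v x| * wt R L z x ∧ |ur v x| * wt R L z x ≤ K := fun x =>
    ⟨mul_nonneg (abs_nonneg _) (hw0 x), by
      have h1 := mul_le_mul_of_nonneg_left (hw1 x) (abs_nonneg (ur v x))
      have h2 := le_trans (hur x) (hK x).1
      linarith⟩
  have huwi : Integrable (fun x => |ur v x| * wt R L z x) :=
    wi w cu.abs (K := K) (fun x => by rw [abs_abs]; exact le_trans (hur x) (hK x).1)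
  have i1 : Integrable (fun y => bb y * NE (2 * R) (fun x => |ur v x| * wt R L z x) y) := by
    refine Integrable.bdd_mul (c := K * √K) (We_dbl hl huwi fun x => (huw x).1).1 cb.aestronglyMeasurable ?_
    refine Filter.Eventually.of_forall fun y => ?_
    rw [Real.norm_eq_abs, abs_of_nonneg (hb0 y)]
    exact hbK y
  have i2 : Integrable (fun y => bb y * NE (2 * R) (fun x => |v x 2| * wt R L z x) y) := by
    refine Integrable.bdd_mul (c := K * √K) (We_dbl hl hvwi fun x => (hvw x).1).1 cb.aestronglyMeasurable ?_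
    refine Filter.Eventually.of_forall fun y => ?_
    rw [Real.norm_eq_abs, abs_of_nonneg (hb0 y)]
    exact hbK y
  have hmain : ∫ y, bb y * NE (2 * R) (dv (fun k x => v x k * ww N Z R z x)) y ≤
      (∫ y, 2 / R * (bb y * NE (2 * R) (fun x => |ur v x| * wt R L z x) y)) +
      1 / L * ∫ y, bb y * NE (2 * R) (fun x => |v x 2| * wt R L z x) y := by
    rw [← integral_const_mul, ← integral_add (i1.const_mul _) (i2.const_mul _)]
    refine integral_mono_of_nonneg (Filter.Eventually.of_forall fun y => ?_) ((i1.const_mul _).add (i2.const_mul _))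
      (Filter.Eventually.of_forall fun y => ?_)
    · exact mul_nonneg (hb0 y) (Ab_nn _ y)
    · have h := Ab_mono (a := 2 / R) (b := 1 / L) hl (g := dv (fun k x => v x k * ww N Z R z x)) cuw cvw
        huw hvw (fun x => (a_g hv.ax hR hRL z x).2.2) y
      have h' := mul_le_mul_of_nonneg_left h (hb0 y)
      show bb y * NE (2 * R) (dv (fun k x => v x k * ww N Z R z x)) y ≤
        2 / R * (bb y * NE (2 * R) (fun x => |ur v x| * wt R L z x) y) +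
        1 / L * (bb y * NE (2 * R) (fun x => |v x 2| * wt R L z x) y)
      linarith
  -- second
  have c4 : Continuous (fun x => ‖v x‖ ^ 4 / (4 * N)) := (cn.pow 4).div_const _
  have cβ : Continuous (fun x => N / 2 * gv v x + ‖v x‖ ^ 4 / (4 * N)) := (continuous_const.mul cg).add c4
  have hn4 : ∀ x, ‖v x‖ ^ 4 ≤ K ^ 4 := fun x => pow_le_pow_left₀ (norm_nonneg _) (hK x).1 4
  have hsecond := ne_two (A := 2) (K := K + K * √K + K ^ 4 / (4 * N) + N / 2 * K) (by norm_num) hR hRL z c2.abs cb c4 cβ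
    (fun x => ⟨abs_nonneg _, by
      have h1 := le_trans (hv2 x) (hK x).1
      have h2 : 0 ≤ K * √K + K ^ 4 / (4 * N) + N / 2 * K := by positivity
      linarith⟩)
    (fun x => ⟨hb0 x, by
      have h1 := hbK x
      have h2 : 0 ≤ K + K ^ 4 / (4 * N) + N / 2 * K := by positivity
      linarith⟩)
    (fun x => ⟨by positivity, by
      have h1 : ‖v x‖ ^ 4 / (4 * N) ≤ K ^ 4 / (4 * N) := div_le_div_of_nonneg_right (hn4 x) (by positivity)
      have h2 : 0 ≤ K + K * √K + N / 2 * K := by positivity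
      linarith⟩)
    (fun x => ⟨by have := hg0 x; positivity, by
      have h1 : ‖v x‖ ^ 4 / (4 * N) ≤ K ^ 4 / (4 * N) := div_le_div_of_nonneg_right (hn4 x) (by positivity)
      have h2 : 0 ≤ K + K * √K := by positivity
      have h3 : N / 2 * gv v x ≤ N / 2 * K := mul_le_mul_of_nonneg_left (hK x).2.1 (by positivity)
      linarith⟩)
    (fun x y => by
      show |v x 2| * (‖v y‖ * √(gv v y)) ≤ ‖v x‖ ^ 4 / (4 * N) + (N / 2 * gv v y + ‖v y‖ ^ 4 / (4 * N))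
      have hs : √(gv v y) ^ 2 = gv v y := Real.sq_sqrt (hg0 y)
      have h1 : |v x 2| * (‖v y‖ * √(gv v y)) ≤ ‖v x‖ * (‖v y‖ * √(gv v y)) :=
        mul_le_mul_of_nonneg_right (hv2 x) (hb0 y)
      set s := √(gv v y)
      set p := ‖v x‖
      set q := ‖v y‖
      have h2 : p * (q * s) ≤ N / 2 * s ^ 2 + (p * q) ^ 2 / (2 * N) := by
        have : N / 2 * s ^ 2 + (p * q) ^ 2 / (2 * N) - p * (q * s) = (N * s - p * q) ^ 2 / (2 * N) := by
          field_simp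
          ring
        have h3 : 0 ≤ (N * s - p * q) ^ 2 / (2 * N) := by positivity
        linarith
      have h4 : (p * q) ^ 2 / (2 * N) ≤ p ^ 4 / (4 * N) + q ^ 4 / (4 * N) := by
        have : p ^ 4 / (4 * N) + q ^ 4 / (4 * N) - (p * q) ^ 2 / (2 * N) = (p ^ 2 - q ^ 2) ^ 2 / (4 * N) := by
          field_simp
          ring
        have h3 : 0 ≤ (p ^ 2 - q ^ 2) ^ 2 / (4 * N) := by positivity
        linarith
      rw [hs] at h2
      linarith)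
  -- integrals
  have iD : Integrable (fun x => gv v x * wt R L z x) :=
    wi w cg (K := K) (fun x => by rw [abs_of_nonneg (hg0 x)]; exact (hK x).2.1)
  have iQ : Integrable (fun x => ‖v x‖ ^ 4 * wt R L z x) :=
    wi w (cn.pow 4) (K := K ^ 4) (fun x => by
      show |‖v x‖ ^ 4| ≤ K ^ 4
      rw [abs_of_nonneg (by positivity)]; exact hn4 x)
  have hJ : ∫ x, (‖v x‖ ^ 4 / (4 * N) + (N / 2 * gv v x + ‖v x‖ ^ 4 / (4 * N))) * wt R L z x ≤
      QQ v (ww N Z R z) / (2 * N) + N * DD v (ww N Z R z) / 2 := by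
    have e : (fun x => (‖v x‖ ^ 4 / (4 * N) + (N / 2 * gv v x + ‖v x‖ ^ 4 / (4 * N))) * wt R L z x) =
        fun x => (2 * N)⁻¹ * (‖v x‖ ^ 4 * wt R L z x) + N / 2 * (gv v x * wt R L z x) := by
      funext x
      field_simp
      ring
    rw [e, integral_add (iQ.const_mul _) (iD.const_mul _), integral_const_mul, integral_const_mul]
    refine le_of_eq ?_
    show (2 * N)⁻¹ * QQ v (ww N Z R z) + N / 2 * DD v (ww N Z R z) = _
    ring
  obtain ⟨-, -, -, iK, hKI⟩ := hCm κ N b R L z v hv hR hRL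
  have hT : ∫ y, 2 / R * (bb y * NE (2 * R) (fun x => |ur v x| * wt R L z x) y) ≤
      δ * DD v (ww N Z R z) + δ / (180 * N ^ 2) * QQ v (ww N Z R z) +
        45 * N ^ 2 * (8192 ^ 2 / (4 * δ * R ^ 2)) ^ 2 / δ * ∫ y, NE (2 * R) (ur v) y ^ 4 * wt R L z y := by
    have e : δ * DD v (ww N Z R z) + δ / (180 * N ^ 2) * QQ v (ww N Z R z) +
        45 * N ^ 2 * (8192 ^ 2 / (4 * δ * R ^ 2)) ^ 2 / δ * (∫ y, NE (2 * R) (ur v) y ^ 4 * wt R L z y) =
        ∫ x, (δ * (gv v x * wt R L z x) + δ / (180 * N ^ 2) * (‖v x‖ ^ 4 * wt R L z x) +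
          45 * N ^ 2 * (8192 ^ 2 / (4 * δ * R ^ 2)) ^ 2 / δ * (NE (2 * R) (ur v) x ^ 4 * wt R L z x)) := by
      have i12 : Integrable (fun x => δ * (gv v x * wt R L z x) + δ / (180 * N ^ 2) * (‖v x‖ ^ 4 * wt R L z x)) :=
        (iD.const_mul _).add (iQ.const_mul _)
      rw [integral_add i12 (iK.const_mul _),
        integral_add (iD.const_mul _) (iQ.const_mul _), integral_const_mul, integral_const_mul, integral_const_mul]
      rfl
    rw [e]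
    refine integral_mono (i1.const_mul _) (((iD.const_mul _).add (iQ.const_mul _)).add (iK.const_mul _)) fun y => ?_
    show 2 / R * (‖v y‖ * √(gv v y) * NE (2 * R) (fun x => |ur v x| * wt R L z x) y) ≤
      δ * (gv v y * wt R L z y) + δ / (180 * N ^ 2) * (‖v y‖ ^ 4 * wt R L z y) +
          45 * N ^ 2 * (8192 ^ 2 / (4 * δ * R ^ 2)) ^ 2 / δ * (NE (2 * R) (ur v) y ^ 4 * wt R L z y)
    have hs : √(gv v y) ^ 2 = gv v y := Real.sq_sqrt (hg0 y)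
    have h1 := Ab_cmp hR hRL z cu (fun x => le_trans (hur x) (hK x).1) y
    have h2 := mul_le_mul_of_nonneg_left (mul_le_mul_of_nonneg_left h1 (hb0 y)) (show (0 : ℝ) ≤ 2 / R by positivity)
    have h3 := mul_le_mul_of_nonneg_left (Ab_yy (p := ‖v y‖) (s := √(gv v y)) (K := NE (2 * R) (ur v) y) hR hδ hN0) (hw0 y)
    rw [hs] at h3
    have e4 : 2 / R * (bb y * (64 * 2 ^ 6 * (wt R L z y * NE (2 * R) (ur v) y))) =
        wt R L z y * (2 / R * (64 * 2 ^ 6) * (‖v y‖ * √(gv v y) * NE (2 * R) (ur v) y)) := by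
      show 2 / R * (‖v y‖ * √(gv v y) * (64 * 2 ^ 6 * (wt R L z y * NE (2 * R) (ur v) y))) = _
      ring
    rw [e4] at h2
    have e5 : wt R L z y * (δ * gv v y + δ / (180 * N ^ 2) * ‖v y‖ ^ 4 +
        45 * N ^ 2 * (8192 ^ 2 / (4 * δ * R ^ 2)) ^ 2 / δ * NE (2 * R) (ur v) y ^ 4) =
        δ * (gv v y * wt R L z y) + δ / (180 * N ^ 2) * (‖v y‖ ^ 4 * wt R L z y) +
          45 * N ^ 2 * (8192 ^ 2 / (4 * δ * R ^ 2)) ^ 2 / δ * (NE (2 * R) (ur v) y ^ 4 * wt R L z y) := by ring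
    rw [e5] at h3
    exact h2.trans h3
  have hD0 : 0 ≤ DD v (ww N Z R z) := integral_nonneg fun x => mul_nonneg (hg0 x) (hw0 x)
  have hS0 : 0 ≤ SS v (ww N Z R z) := integral_nonneg fun x => mul_nonneg (by positivity) (hw0 x)
  have hfin : ∫ y, bb y * NE (2 * R) (dv (fun k x => v x k * ww N Z R z x)) y ≤
      (∫ y, 2 / R * (bb y * NE (2 * R) (fun x => |ur v x| * wt R L z x) y)) + 1 / L * (832 * 2 ^ 7 * R *
        ∫ x, (‖v x‖ ^ 4 / (4 * N) + (N / 2 * gv v x + ‖v x‖ ^ 4 / (4 * N))) * wt R L z x) := by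
    have h2 := mul_le_mul_of_nonneg_left hsecond (show 0 ≤ 1 / L by positivity)
    linarith
  exact Ab_ar hκ hN hZ hR hR1 hL hδ hδ1 hD0 hS0 hCm0 hfin hT hKI hJ (f5 hv hR hRL)

end Pool.Agent.H94.WL
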