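/-
ROW Ac (MP_09540e_WL). The far part of the pressure. PROOF (cf. TU/Ac.lean, whose auxiliary lemmas Ac_mono, Ac_int, Ac_wint, Ac_sumQ, Ac_sumS, Ac_geom can be used). `Φ = ww N Z R z = wt R L z`, `L = Z N R`, `E = ∫ ‖v‖²`, `P = (2^J R)⁻³`; `|dv (vΦ)| ≤ (2/R) |ur| Φ + (1/L) |v₂| Φ` (a_g), so FA (2R) of it `≤ (2/R) FA (|ur| Φ) + (1/L) FA (|v₂| Φ)` (2R = 2^1 R).
Both parts by fa_two (TU/Wh.lean) with j₀ = 1, b = ‖v‖² (bounded, continuous, integrable). Radial: a = |ur v| (continuous, ≤ ‖v‖ ≤ K), `lam j = (R/(Z N²)) (√2)^j`: `(2/R) C (lam j) (1/4)^j ∫ ‖v‖⁴ Φ_j = (2C/(Z N²)) (√2/4)^j QQ_j` (ww_sc), `(2/R) C ∑ (lam j)⁻¹ ∫ ur² Φ ≤ (2 C Z N²/R²) · 4 · C_m κ² Z N R` (∑_{j≥1} (1/√2)^j ≤ 4, mU),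
last term `(2/R) P E ∫ |ur| Φ ≤ (1/R) P E (SS + VV)` (|ur| ≤ (‖v‖² + 1)/2). Axial: exactly as in TU/Ac.lean (a = |v₂|, `lam j = (R/N) (√2)^j`): `(C/(Z N²)) ∑ (√2/4)^j QQ_j + (4C/Z)/R² SS + P E (SS + VV)/(2L)`, `1/(2L) ≤ 1/(2R)`.
-/
import Pool.Agent.H94.WL.Ad
import Pool.Agent.H94.WL.Fb
import Pool.Agent.H16.TU.Ac

set_option autoImplicit false

open Set Filter Topology MeasureTheory
open scoped ContDiff

namespace Pool.Agent.H94.WL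

open Pool.Agent.H16 Pool.Agent.H87.NS Pool.Agent.H72.CC Pool.Agent.H16.TU

lemma Ac_sumQr {N Z R : ℝ} (hN : 0 < N) (hZ : 0 < Z) (hR : 0 < R) (j₀ J : ℕ) (q : ℕ → ℝ) :
    2 / R * ∑ j ∈ Finset.Icc j₀ J, (R / (Z * N ^ 2) * √2 ^ j) * (1/4) ^ j * q j =
      2 / (Z * N ^ 2) * ∑ j ∈ Finset.Icc j₀ J, (√2 / 4) ^ j * q j := by
  rw [Finset.mul_sum, Finset.mul_sum]
  refine Finset.sum_congr rfl fun j _ => ?_
  have e3 : (√2 / 4) ^ j = √2 ^ j * (1/4) ^ j := by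
    rw [← mul_pow]
    congr 1
    ring
  have e5 : 2 / R * (R / (Z * N ^ 2)) = 2 / (Z * N ^ 2) := by
    field_simp
  rw [e3]
  linear_combination (√2 ^ j * (1/4) ^ j * q j) * e5

lemma Ac_sumSr {N Z R a S : ℝ} (hN : 0 < N) (hZ : 0 < Z) (hR : 0 < R) (j₀ J : ℕ) (ha : a ≤ S) (ha0 : 0 ≤ a) :
    2 / R * ∑ j ∈ Finset.Icc j₀ J, (R / (Z * N ^ 2) * √2 ^ j)⁻¹ * a ≤ 8 * (Z * N ^ 2) / R ^ 2 * S := by
  have hs2 : (0:ℝ) < √2 := Real.sqrt_pos.2 (by norm_num)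
  have hρ : (√2)⁻¹ ≤ (3/4 : ℝ) := by
    rw [inv_le_comm₀ hs2 (by norm_num)]
    have : ((3/4 : ℝ))⁻¹ = 4/3 := by norm_num
    rw [this]
    apply Real.le_sqrt_of_sq_le
    norm_num
  have h5 := Ac_geom (ρ := (√2)⁻¹) (by positivity) (by linarith) j₀ J
  have h6 : 1 / (1 - (√2)⁻¹) ≤ 4 := by
    rw [div_le_iff₀ (by linarith)]
    linarith
  have h7 : ∑ j ∈ Finset.Icc j₀ J, (R / (Z * N ^ 2) * √2 ^ j)⁻¹ * a =
      (∑ j ∈ Finset.Icc j₀ J, ((√2)⁻¹) ^ j) * (Z * N ^ 2 / R * a) := by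
    rw [Finset.sum_mul]
    refine Finset.sum_congr rfl fun j _ => ?_
    rw [mul_inv, inv_pow, inv_div]
    ring
  rw [h7]
  have h8 : (∑ j ∈ Finset.Icc j₀ J, ((√2)⁻¹) ^ j) * (Z * N ^ 2 / R * a) ≤ 4 * (Z * N ^ 2 / R * S) := by
    refine mul_le_mul (le_trans h5 h6) ?_ (by positivity) (by norm_num)
    exact mul_le_mul_of_nonneg_left ha (by positivity)
  have h9 := mul_le_mul_of_nonneg_left h8 (show 0 ≤ 2 / R by positivity)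
  refine le_trans h9 (le_of_eq ?_)
  field_simp
  ring

lemma Ac_arithR {κ N Z R L C₂ Cm X A1 A2 QU S1 S2 T1 T2 a1 a2 P E SR VR : ℝ} (hκ : 0 ≤ κ) (hN : 0 < N) (hZ : 0 < Z) (hR : 0 < R)
    (hL : L = Z * N * R) (hRL : R ≤ L) (hC₂ : 0 < C₂) (hCm : 1 ≤ Cm)
    (h0 : X ≤ 2 / R * A1 + 1 / L * A2) (h1 : A1 ≤ C₂ * (T1 + T2) + P * E * a1) (h2 : A2 ≤ C₂ * (S1 + S2) + P * E * a2)
    (h3 : 1 / L * S1 = 1 / (Z * N ^ 2) * QU) (h4 : 1 / L * S2 ≤ 4 / Z / R ^ 2 * SR)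
    (h3' : 2 / R * T1 = 2 / (Z * N ^ 2) * QU) (h4' : 2 / R * T2 ≤ 8 * (Z * N ^ 2) / R ^ 2 * (Cm * κ ^ 2 * L))
    (h5 : a1 ≤ (SR + VR) / 2) (h6 : a2 ≤ (SR + VR) / 2)
    (hQU : 0 ≤ QU) (hP : 0 ≤ P) (hE : 0 ≤ E) (hSR : 0 ≤ SR) (hVR : 0 ≤ VR) :
    X ≤ (4 * C₂ + 8 * C₂ * Cm + 2) / (Z * N ^ 2) * QU + (4 * C₂ + 8 * C₂ * Cm + 2) / Z / R ^ 2 * SR +
      (4 * C₂ + 8 * C₂ * Cm + 2) * κ ^ 2 * Z ^ 2 * N ^ 3 / R +
      (4 * C₂ + 8 * C₂ * Cm + 2) * P * E * ((SR + VR) / R) := by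
  have hL0 : 0 < L := by rw [hL]; positivity
  have k1 : 2 / R * A1 ≤ 2 / R * (C₂ * (T1 + T2) + P * E * a1) := mul_le_mul_of_nonneg_left h1 (by positivity)
  have k2 : 1 / L * A2 ≤ 1 / L * (C₂ * (S1 + S2) + P * E * a2) := mul_le_mul_of_nonneg_left h2 (by positivity)
  have k3 : 2 / R * (P * E * a1) ≤ 2 / R * (P * E * ((SR + VR) / 2)) :=
    mul_le_mul_of_nonneg_left (mul_le_mul_of_nonneg_left h5 (by positivity)) (by positivity)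
  have k4 : 1 / L * (P * E * a2) ≤ 1 / R * (P * E * ((SR + VR) / 2)) := by
    have q1 : 1 / L * (P * E * a2) ≤ 1 / L * (P * E * ((SR + VR) / 2)) :=
      mul_le_mul_of_nonneg_left (mul_le_mul_of_nonneg_left h6 (by positivity)) (by positivity)
    have q2 : 1 / L ≤ 1 / R := one_div_le_one_div_of_le hR hRL
    have q3 : 1 / L * (P * E * ((SR + VR) / 2)) ≤ 1 / R * (P * E * ((SR + VR) / 2)) :=
      mul_le_mul_of_nonneg_right q2 (by positivity)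
    linarith
  have k5 : C₂ * (2 / R * T2) ≤ C₂ * (8 * (Z * N ^ 2) / R ^ 2 * (Cm * κ ^ 2 * L)) := mul_le_mul_of_nonneg_left h4' hC₂.le
  have k6 : C₂ * (1 / L * S2) ≤ C₂ * (4 / Z / R ^ 2 * SR) := mul_le_mul_of_nonneg_left h4 hC₂.le
  have k7 : 2 / R * (C₂ * (T1 + T2) + P * E * a1) = C₂ * (2 / R * T1) + C₂ * (2 / R * T2) + 2 / R * (P * E * a1) := by ring
  have k8 : 1 / L * (C₂ * (S1 + S2) + P * E * a2) = C₂ * (1 / L * S1) + C₂ * (1 / L * S2) + 1 / L * (P * E * a2) := by ring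
  have k9 : C₂ * (8 * (Z * N ^ 2) / R ^ 2 * (Cm * κ ^ 2 * L)) = (8 * C₂ * Cm) * (κ ^ 2 * Z ^ 2 * N ^ 3 / R) := by
    rw [hL]
    field_simp
  have k10 : C₂ * (2 / R * T1) = (2 * C₂) * (1 / (Z * N ^ 2) * QU) := by rw [h3']; ring
  have k11 : C₂ * (1 / L * S1) = C₂ * (1 / (Z * N ^ 2) * QU) := by rw [h3]
  have k12 : C₂ * (4 / Z / R ^ 2 * SR) = (4 * C₂) * (1 / Z / R ^ 2 * SR) := by ring
  have k13 : 2 / R * (P * E * ((SR + VR) / 2)) + 1 / R * (P * E * ((SR + VR) / 2)) = (3/2) * (P * E * ((SR + VR) / R)) := by ring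
  have t2 : 0 ≤ 1 / (Z * N ^ 2) * QU := by positivity
  have t3 : 0 ≤ 1 / Z / R ^ 2 * SR := by positivity
  have t4 : 0 ≤ κ ^ 2 * Z ^ 2 * N ^ 3 / R := by positivity
  have t5 : 0 ≤ P * E * ((SR + VR) / R) := by positivity
  have e4 : (4 * C₂ + 8 * C₂ * Cm + 2) / (Z * N ^ 2) * QU + (4 * C₂ + 8 * C₂ * Cm + 2) / Z / R ^ 2 * SR +
      (4 * C₂ + 8 * C₂ * Cm + 2) * κ ^ 2 * Z ^ 2 * N ^ 3 / R +
      (4 * C₂ + 8 * C₂ * Cm + 2) * P * E * ((SR + VR) / R) =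
      (4 * C₂ + 8 * C₂ * Cm + 2) * (1 / (Z * N ^ 2) * QU) + (4 * C₂ + 8 * C₂ * Cm + 2) * (1 / Z / R ^ 2 * SR) +
      (4 * C₂ + 8 * C₂ * Cm + 2) * (κ ^ 2 * Z ^ 2 * N ^ 3 / R) +
      (4 * C₂ + 8 * C₂ * Cm + 2) * (P * E * ((SR + VR) / R)) := by ring
  rw [e4]
  have hCC : 0 ≤ C₂ * Cm := by positivity
  have m1 : (3 * C₂) * (1 / (Z * N ^ 2) * QU) ≤ (4 * C₂ + 8 * C₂ * Cm + 2) * (1 / (Z * N ^ 2) * QU) :=
    mul_le_mul_of_nonneg_right (by linarith) t2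
  have m2 : (4 * C₂) * (1 / Z / R ^ 2 * SR) ≤ (4 * C₂ + 8 * C₂ * Cm + 2) * (1 / Z / R ^ 2 * SR) :=
    mul_le_mul_of_nonneg_right (by linarith) t3
  have m3 : (8 * C₂ * Cm) * (κ ^ 2 * Z ^ 2 * N ^ 3 / R) ≤ (4 * C₂ + 8 * C₂ * Cm + 2) * (κ ^ 2 * Z ^ 2 * N ^ 3 / R) :=
    mul_le_mul_of_nonneg_right (by linarith) t4
  have m4 : (3/2) * (P * E * ((SR + VR) / R)) ≤ (4 * C₂ + 8 * C₂ * Cm + 2) * (P * E * ((SR + VR) / R)) :=
    mul_le_mul_of_nonneg_right (by linarith) t5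
  linarith

theorem aFa : ∃ C : ℝ, 1 ≤ C ∧ ∀ (κ N b R Z z : ℝ) (v : E3 → E3), Sm κ N b v → 0 < R → R ≤ 1 → 1 ≤ Z → ∀ J : ℕ, 1 ≤ J →
    ∫ y, ‖v y‖ ^ 2 * FA (2 * R) (dv (fun k x => v x k * ww N Z R z x)) y ≤
      C / (Z * N ^ 2) * (∑ j ∈ Finset.Icc 1 J, (√2 / 4) ^ j * QQ v (ww N Z (2 ^ j * R) z)) +
      C / Z / R ^ 2 * SS v (ww N Z R z) + C * κ ^ 2 * Z ^ 2 * N ^ 3 / R +
      C * ((2 ^ J * R) ^ 3)⁻¹ * (∫ x, ‖v x‖ ^ 2) * ((SS v (ww N Z R z) + VV (ww N Z R z)) / R) := by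
  obtain ⟨Cm, hCm, hm⟩ := mU
  obtain ⟨C₂, hC₂, h₂⟩ := fa_two
  refine ⟨4 * C₂ + 8 * C₂ * Cm + 2, by nlinarith, ?_⟩
  intro κ N b R Z z v hv hR hR1 hZ J hJ
  have hκ := hv.one
  have hN : 1 ≤ N := le_trans hκ hv.le
  set L : ℝ := Z * N * R with hL
  have hZN : 1 ≤ Z * N := one_le_mul_of_one_le_of_one_le hZ hN
  have hRL : R ≤ L := by
    rw [hL]
    nlinarith
  have hL0 : 0 < L := lt_of_lt_of_le hR hRL
  obtain ⟨K, hK0, hK, hi2, -⟩ := ba_vf hv.vf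
  obtain ⟨-, cn, -⟩ := ba_gvc hv.ax.smooth
  have c2 : Continuous (fun y => v y 2) := (Psi_v2 hv.ax).continuous
  have cu : Continuous (ur v) := (ur_c hv.ax).1
  have hl : 0 < 2 ^ 1 * R := by positivity
  have hl2 : 2 * R = 2 ^ 1 * R := by ring
  have w := wt_wc hR hRL z
  have hw0 : ∀ x, 0 ≤ wt R L z x := w.nn
  have hwi : Integrable (wt R L z) := w.int
  have hv2 : ∀ x, |v x 2| ≤ ‖v x‖ := fun x => (ba_gv x 0 0).2.2.2.2.2.1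
  have hur : ∀ x, |ur v x| ≤ ‖v x‖ := by
    intro x
    have e1 := (ur_f hv.ax x).2.2.2.1
    apply abs_le_of_sq_le_sq _ (norm_nonneg _)
    nlinarith [sq_nonneg (ut v x), sq_nonneg (v x 2)]
  -- the functions
  have hi2w : Integrable (fun x => |v x 2| * wt R L z x) :=
    wi w c2.abs (K := K) (fun x => by rw [abs_abs]; exact le_trans (hv2 x) (hK x).1)
  have hiuw : Integrable (fun x => |ur v x| * wt R L z x) :=
    wi w cu.abs (K := K) (fun x => by rw [abs_abs]; exact le_trans (hur x) (hK x).1)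
  have hbb : ∀ x, 0 ≤ ‖v x‖ ^ 2 ∧ ‖v x‖ ^ 2 ≤ K ^ 2 := fun x =>
    ⟨by positivity, pow_le_pow_left₀ (norm_nonneg _) (hK x).1 2⟩
  -- pointwise
  have hpt : ∀ y, ‖v y‖ ^ 2 * FA (2 * R) (dv (fun k x => v x k * ww N Z R z x)) y ≤
      2 / R * (‖v y‖ ^ 2 * FA (2 ^ 1 * R) (fun x => |ur v x| * wt R L z x) y) +
      1 / L * (‖v y‖ ^ 2 * FA (2 ^ 1 * R) (fun x => |v x 2| * wt R L z x) y) := by
    intro y
    have h := Ac_mono (a := 2 / R) (b := 1 / L) hl (g := dv (fun k x => v x k * ww N Z R z x)) hiuw hi2w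
      (fun x => by
        have := (a_g hv.ax hR hRL z x).2.2
        rw [abs_of_nonneg (mul_nonneg (abs_nonneg (ur v x)) (hw0 x)),
          abs_of_nonneg (mul_nonneg (abs_nonneg (v x 2)) (hw0 x))]
        exact this) y
    have h' := mul_le_mul_of_nonneg_left h (hbb y).1
    rw [hl2]
    linarith
  have hA1 := Ac_wint hl hi2 hiuw
  have hA2 := Ac_wint hl hi2 hi2w
  have hmain : ∫ y, ‖v y‖ ^ 2 * FA (2 * R) (dv (fun k x => v x k * ww N Z R z x)) y ≤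
      2 / R * (∫ y, ‖v y‖ ^ 2 * FA (2 ^ 1 * R) (fun x => |ur v x| * wt R L z x) y) +
      1 / L * ∫ y, ‖v y‖ ^ 2 * FA (2 ^ 1 * R) (fun x => |v x 2| * wt R L z x) y := by
    rw [← integral_const_mul, ← integral_const_mul, ← integral_add (hA1.const_mul _) (hA2.const_mul _)]
    refine integral_mono_of_nonneg (Filter.Eventually.of_forall fun y => ?_) ((hA1.const_mul _).add (hA2.const_mul _))
      (Filter.Eventually.of_forall fun y => hpt y)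
    exact mul_nonneg (by positivity) (Ac_nn (by positivity) _ y)
  -- both parts
  have hs2 : (0:ℝ) < √2 := Real.sqrt_pos.2 (by norm_num)
  have hlam0 : ∀ j : ℕ, 0 < R / N * √2 ^ j := fun j => by positivity
  have hlam1 : ∀ j : ℕ, 0 < R / (Z * N ^ 2) * √2 ^ j := fun j => by positivity
  have hfirst := h₂ R L z hR hRL 1 J hJ (fun x => |ur v x|) (fun x => ‖v x‖ ^ 2) (K + K ^ 2) cu.abs (cn.pow 2)
    (fun x => ⟨abs_nonneg _, by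
      have := le_trans (hur x) (hK x).1
      nlinarith [sq_nonneg K]⟩)
    (fun x => ⟨by positivity, by
      have := (hbb x).2
      linarith⟩) hi2 (fun j => R / (Z * N ^ 2) * √2 ^ j) hlam1
  have hsecond := h₂ R L z hR hRL 1 J hJ (fun x => |v x 2|) (fun x => ‖v x‖ ^ 2) (K + K ^ 2) c2.abs (cn.pow 2)
    (fun x => ⟨abs_nonneg _, by
      have := le_trans (hv2 x) (hK x).1
      nlinarith [sq_nonneg K]⟩)
    (fun x => ⟨by positivity, by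
      have := (hbb x).2
      linarith⟩) hi2 (fun j => R / N * √2 ^ j) hlam0
  rw [Finset.sum_add_distrib] at hfirst hsecond
  -- names
  set E : ℝ := ∫ x, ‖v x‖ ^ 2 with hE
  have hE0 : 0 ≤ E := integral_nonneg fun x => by positivity
  have hQQ : ∀ j : ℕ, QQ v (ww N Z (2 ^ j * R) z) = ∫ y, (‖v y‖ ^ 2) ^ 2 * wt (2 ^ j * R) (2 ^ j * L) z y := by
    intro j
    rw [hL, ww_sc]
    unfold QQ
    congr 1
    ext y
    ring
  have hwj0 : ∀ (j : ℕ) (y : E3), 0 ≤ ww N Z (2 ^ j * R) z y := fun j y => (wt_pos (by positivity) (by positivity) z y).le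
  have hQQn : ∀ j : ℕ, 0 ≤ QQ v (ww N Z (2 ^ j * R) z) := fun j =>
    integral_nonneg fun y => mul_nonneg (by positivity) (hwj0 j y)
  have hiS : Integrable (fun x => ‖v x‖ ^ 2 * wt R L z x) :=
    wi w (cn.pow 2) (K := K ^ 2) (fun x => by rw [abs_of_nonneg (hbb x).1]; exact (hbb x).2)
  have hS0 : 0 ≤ SS v (ww N Z R z) := integral_nonneg fun y => mul_nonneg (by positivity) (hw0 y)
  have hV0 : 0 ≤ VV (ww N Z R z) := integral_nonneg fun y => hw0 y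
  have ha2 : ∫ x, |v x 2| ^ 2 * wt R L z x ≤ SS v (ww N Z R z) := by
    refine integral_mono_of_nonneg (Filter.Eventually.of_forall fun x => mul_nonneg (by positivity) (hw0 x)) hiS
      (Filter.Eventually.of_forall fun x => ?_)
    exact mul_le_mul_of_nonneg_right (pow_le_pow_left₀ (abs_nonneg _) (hv2 x) 2) (hw0 x)
  have ha20 : 0 ≤ ∫ x, |v x 2| ^ 2 * wt R L z x :=
    integral_nonneg fun x => mul_nonneg (by positivity) (hw0 x)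
  have hau : ∫ x, |ur v x| ^ 2 * wt R L z x ≤ Cm * κ ^ 2 * L := by
    have e1 := (hm κ N b R L z v hv hR hRL).1
    simpa only [sq_abs] using e1
  have hau0 : 0 ≤ ∫ x, |ur v x| ^ 2 * wt R L z x :=
    integral_nonneg fun x => mul_nonneg (by positivity) (hw0 x)
  have hhalf : ∀ f : E3 → ℝ, (∀ x, |f x| ≤ ‖v x‖) → Integrable (fun x => |f x| * wt R L z x) →
      ∫ x, |f x| * wt R L z x ≤ (SS v (ww N Z R z) + VV (ww N Z R z)) / 2 := by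
    intro f hf hif
    have e2 : (SS v (ww N Z R z) + VV (ww N Z R z)) / 2 = ∫ x, (‖v x‖ ^ 2 * wt R L z x + wt R L z x) / 2 := by
      rw [integral_div, integral_add hiS hwi]
      rfl
    rw [e2]
    refine integral_mono hif ((hiS.add hwi).div_const 2) fun x => ?_
    have h3 : |f x| ≤ (‖v x‖ ^ 2 + 1) / 2 := by
      have := hf x
      nlinarith [sq_nonneg (‖v x‖ - 1)]
    have := mul_le_mul_of_nonneg_right h3 (hw0 x)
    calc |f x| * wt R L z x ≤ (‖v x‖ ^ 2 + 1) / 2 * wt R L z x := this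
      _ = (‖v x‖ ^ 2 * wt R L z x + wt R L z x) / 2 := by ring
  have ha1 := hhalf (ur v) hur hiuw
  have ha3 := hhalf (fun x => v x 2) hv2 hi2w
  -- combine
  set QU : ℝ := ∑ j ∈ Finset.Icc 1 J, (√2 / 4) ^ j * QQ v (ww N Z (2 ^ j * R) z) with hQU
  have hQU0 : 0 ≤ QU := Finset.sum_nonneg fun j _ => mul_nonneg (by positivity) (hQQn j)
  have hN0 : (0:ℝ) < N := by linarith
  have hZ0 : (0:ℝ) < Z := by linarith
  have hq := Ac_sumQ hN0 hZ0 hR hL 1 J (fun j => QQ v (ww N Z (2 ^ j * R) z))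
  have hs := Ac_sumS hN0 hZ0 hR hL 1 J ha2 ha20
  have hq' := Ac_sumQr hN0 hZ0 hR 1 J (fun j => QQ v (ww N Z (2 ^ j * R) z))
  have hs' := Ac_sumSr hN0 hZ0 hR 1 J hau hau0
  have hfst' : ∫ y, ‖v y‖ ^ 2 * FA (2 ^ 1 * R) (fun x => |ur v x| * wt R L z x) y ≤
      C₂ * ((∑ j ∈ Finset.Icc 1 J, (R / (Z * N ^ 2) * √2 ^ j) * (1/4) ^ j * QQ v (ww N Z (2 ^ j * R) z)) +
        ∑ j ∈ Finset.Icc 1 J, (R / (Z * N ^ 2) * √2 ^ j)⁻¹ * ∫ x, |ur v x| ^ 2 * wt R L z x) +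
        ((2 ^ J * R) ^ 3)⁻¹ * E * ∫ x, |ur v x| * wt R L z x := by
    refine le_trans hfirst (le_of_eq ?_)
    congr 3
    exact Finset.sum_congr rfl fun j _ => by rw [hQQ j]
  have hsec' : ∫ y, ‖v y‖ ^ 2 * FA (2 ^ 1 * R) (fun x => |v x 2| * wt R L z x) y ≤
      C₂ * ((∑ j ∈ Finset.Icc 1 J, (R / N * √2 ^ j) * (1/4) ^ j * QQ v (ww N Z (2 ^ j * R) z)) +
        ∑ j ∈ Finset.Icc 1 J, (R / N * √2 ^ j)⁻¹ * ∫ x, |v x 2| ^ 2 * wt R L z x) +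
        ((2 ^ J * R) ^ 3)⁻¹ * E * ∫ x, |v x 2| * wt R L z x := by
    refine le_trans hsecond (le_of_eq ?_)
    congr 3
    exact Finset.sum_congr rfl fun j _ => by rw [hQQ j]
  exact Ac_arithR (by linarith) hN0 hZ0 hR hL hRL hC₂ hCm hmain hfst' hsec' hq hs hq' hs' ha1 ha3 hQU0 (by positivity)
    hE0 hS0 hV0

end Pool.Agent.H94.WL
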