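/-
ROW Ae (MP_09540e_WL). The right side of the energy identity at a fixed time. PROOF (cf. TU/Ae.lean). aFl (half of it, with δ/2), pA (TU/Pf.lean, constant C_p) with `F k x = u t x k * Φ x` (TF by ba_tf), `l = 2 * R`: near part aNe with `δ' = δ/(8 max 1 C_p)`, far part aFa. The sum of the coefficients of DD is `δ/4 + 2 C_p δ' + C/Z ≤ δ + C/Z`. C collects all (κ, Z ≥ 1, δ ≤ 1;
`κ² Z/δ, κ⁴ Z/δ'³, κ² Z² ≤ C κ⁴ Z²/δ³`).
-/
import Pool.Agent.H94.WL.Aa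
import Pool.Agent.H94.WL.Ab
import Pool.Agent.H94.WL.Ac
import Pool.Agent.H16.TU.Ae

set_option autoImplicit false

open Set Filter Topology MeasureTheory
open scoped ContDiff

namespace Pool.Agent.H94.WL

open Pool.Agent.H16 Pool.Agent.H87.NS Pool.Agent.H72.CC Pool.Agent.H16.TU

private theorem Ae_num {D S Q W I1 I2 Ne Fa Cp CL CN CF m δ κ R Z N : ℝ} (hD : 0 ≤ D) (hS : 0 ≤ S)
    (hQ : 0 ≤ Q) (hW : 0 ≤ W) (hCp : 0 < Cp) (hCL : 0 < CL) (hCN : 0 < CN) (hCF : 0 < CF)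
    (hm : 1 ≤ m) (hmp : Cp ≤ m) (hδ : 0 < δ) (hδ1 : δ ≤ 1) (hκ : 1 ≤ κ) (hR : 0 < R) (hZ : 1 ≤ Z)
    (hN : 1 ≤ N)
    (h1 : |I1| ≤ (δ / 2 + CL / Z) * D + CL / R ^ 2 * S + CL * κ ^ 2 * Z / (δ / 2) * N ^ 3 / R)
    (h2 : |I2| ≤ Cp * (Ne + Fa))
    (h3 : Ne ≤ (2 * (δ / (8 * m)) + CN / Z) * D + CN / R ^ 2 * S +
      CN * κ ^ 4 * Z / (δ / (8 * m)) ^ 3 * N ^ 3 / R)
    (h4 : Fa ≤ CF / (Z * N ^ 2) * Q + CF / Z / R ^ 2 * S + CF * κ ^ 2 * Z ^ 2 * N ^ 3 / R + CF * W) :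
    I1 / 2 - I2 ≤ (δ + (1 + CL + Cp * CN + 512 * Cp * CN * m ^ 3 + Cp * CF) / Z) * D +
      (1 + CL + Cp * CN + 512 * Cp * CN * m ^ 3 + Cp * CF) / R ^ 2 * S +
      (1 + CL + Cp * CN + 512 * Cp * CN * m ^ 3 + Cp * CF) / (Z * N ^ 2) * Q +
      (1 + CL + Cp * CN + 512 * Cp * CN * m ^ 3 + Cp * CF) * κ ^ 4 * Z ^ 2 / δ ^ 3 * N ^ 3 / R +
      (1 + CL + Cp * CN + 512 * Cp * CN * m ^ 3 + Cp * CF) * W := by
  have hm0 : 0 < m := by linarith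
  have hZ0 : 0 < Z := by linarith
  have hκ0 : 0 < κ := by linarith
  have hN0 : 0 < N := by linarith
  have a1 := le_abs_self I1
  have a2 := neg_abs_le I2
  obtain ⟨Y, hY⟩ : ∃ Y : ℝ, Y = 1 / Z := ⟨_, rfl⟩
  obtain ⟨X, hX⟩ : ∃ X : ℝ, X = 1 / R ^ 2 := ⟨_, rfl⟩
  obtain ⟨Q', hQ'⟩ : ∃ Q' : ℝ, Q' = Q / (Z * N ^ 2) := ⟨_, rfl⟩
  obtain ⟨G, hG⟩ : ∃ G : ℝ, G = N ^ 3 / R := ⟨_, rfl⟩
  obtain ⟨U, hU⟩ : ∃ U : ℝ, U = κ ^ 4 * Z ^ 2 / δ ^ 3 * G := ⟨_, rfl⟩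
  have hY0 : 0 < Y := by rw [hY]; positivity
  have hY1 : Y ≤ 1 := by
    rw [hY, div_le_one hZ0]
    exact hZ
  have hX0 : 0 < X := by rw [hX]; positivity
  have hG0 : 0 < G := by rw [hG]; positivity
  have hQ0 : 0 ≤ Q' := by rw [hQ']; positivity
  have hU0 : 0 < U := by rw [hU]; positivity
  have hδ3 : δ ^ 3 ≤ δ := by nlinarith [sq_nonneg δ, mul_pos hδ hδ]
  have hδ31 : δ ^ 3 ≤ 1 := by linarith
  have hκ24 : κ ^ 2 ≤ κ ^ 4 := pow_le_pow_right₀ hκ (by norm_num)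
  have hZ12 : Z ≤ Z ^ 2 := by nlinarith
  -- the three terms with `U`
  have u1 : CL * κ ^ 2 * Z / (δ / 2) * N ^ 3 / R ≤ 2 * CL * U := by
    have e1 : κ ^ 2 * Z / δ ≤ κ ^ 4 * Z ^ 2 / δ ^ 3 := by
      rw [div_le_div_iff₀ hδ (by positivity)]
      have : κ ^ 2 * Z ≤ κ ^ 4 * Z ^ 2 := mul_le_mul hκ24 hZ12 hZ0.le (by positivity)
      exact mul_le_mul this hδ3 (by positivity) (by positivity)
    calc CL * κ ^ 2 * Z / (δ / 2) * N ^ 3 / R = 2 * CL * (κ ^ 2 * Z / δ * G) := by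
          rw [hG]
          field_simp
      _ ≤ 2 * CL * U := by
          rw [hU]
          gcongr
  have u3 : CN * κ ^ 4 * Z / (δ / (8 * m)) ^ 3 * N ^ 3 / R ≤ 512 * CN * m ^ 3 * U := by
    calc CN * κ ^ 4 * Z / (δ / (8 * m)) ^ 3 * N ^ 3 / R =
          512 * CN * m ^ 3 * (κ ^ 4 * Z / δ ^ 3 * G) := by
          rw [hG]
          field_simp
          ring
      _ ≤ 512 * CN * m ^ 3 * U := by
          rw [hU]
          gcongr
  have u4 : CF * κ ^ 2 * Z ^ 2 * N ^ 3 / R ≤ CF * U := by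
    have e1 : κ ^ 2 * Z ^ 2 ≤ κ ^ 4 * Z ^ 2 / δ ^ 3 := by
      rw [le_div_iff₀ (by positivity)]
      calc κ ^ 2 * Z ^ 2 * δ ^ 3 ≤ κ ^ 2 * Z ^ 2 * 1 := by gcongr
        _ ≤ κ ^ 4 * Z ^ 2 := by
          rw [mul_one]
          gcongr
    calc CF * κ ^ 2 * Z ^ 2 * N ^ 3 / R = CF * (κ ^ 2 * Z ^ 2 * G) := by
          rw [hG]
          field_simp
      _ ≤ CF * U := by
          rw [hU]
          gcongr
  have c1 : Cp * (2 * (δ / (8 * m))) ≤ δ / 4 := by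
    have e1 : Cp * (2 * (δ / (8 * m))) = Cp * δ / (4 * m) := by
      field_simp
      ring
    rw [e1, div_le_div_iff₀ (by positivity) (by norm_num)]
    nlinarith
  have f1 : CL / Z = CL * Y := by rw [hY]; ring
  have f2 : CL / R ^ 2 = CL * X := by rw [hX]; ring
  have f3 : CN / Z = CN * Y := by rw [hY]; ring
  have f4 : CN / R ^ 2 = CN * X := by rw [hX]; ring
  have f5 : CF / (Z * N ^ 2) * Q = CF * Q' := by rw [hQ']; ring
  have f6 : CF / Z / R ^ 2 = CF * Y * X := by rw [hX, hY]; ring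
  rw [f1, f2] at h1
  rw [f3, f4] at h3
  rw [f5, f6] at h4
  have g1 : I1 / 2 ≤ δ / 4 * D + CL / 2 * (Y * D) + CL / 2 * (X * S) + CL * U := by
    linarith
  have g3 : Cp * Ne ≤ δ / 4 * D + Cp * CN * (Y * D) + Cp * CN * (X * S) +
      512 * Cp * CN * m ^ 3 * U := by
    have e1 : Ne ≤ (2 * (δ / (8 * m)) + CN * Y) * D + CN * X * S + 512 * CN * m ^ 3 * U := by
      linarith
    have e2 := mul_le_mul_of_nonneg_left e1 hCp.le
    have e3 := mul_le_mul_of_nonneg_right c1 hD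
    calc Cp * Ne ≤ Cp * ((2 * (δ / (8 * m)) + CN * Y) * D + CN * X * S + 512 * CN * m ^ 3 * U) := e2
      _ = Cp * (2 * (δ / (8 * m))) * D + Cp * CN * (Y * D) + Cp * CN * (X * S) +
        512 * Cp * CN * m ^ 3 * U := by ring
      _ ≤ _ := by linarith
  have g4 : Cp * Fa ≤ Cp * CF * Q' + Cp * CF * (X * S) + Cp * CF * U + Cp * CF * W := by
    have e0 : Y * (X * S) ≤ X * S := by
      have := mul_le_mul_of_nonneg_right hY1 (mul_nonneg hX0.le hS)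
      linarith
    have e1 : Fa ≤ CF * Q' + CF * (X * S) + CF * U + CF * W := by
      have e5 := mul_le_mul_of_nonneg_left e0 hCF.le
      have e6 : CF * Y * X * S = CF * (Y * (X * S)) := by ring
      linarith
    have e2 := mul_le_mul_of_nonneg_left e1 hCp.le
    calc Cp * Fa ≤ Cp * (CF * Q' + CF * (X * S) + CF * U + CF * W) := e2
      _ = _ := by ring
  obtain ⟨C, hC⟩ : ∃ C : ℝ, C = 1 + CL + Cp * CN + 512 * Cp * CN * m ^ 3 + Cp * CF := ⟨_, rfl⟩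
  rw [← hC]
  have p1 : 0 < Cp * CN := by positivity
  have p2 : 0 < Cp * CF := by positivity
  have p3 : 0 < 512 * Cp * CN * m ^ 3 := by positivity
  have n1 : (CL / 2 + Cp * CN) * (Y * D) ≤ C * (Y * D) :=
    mul_le_mul_of_nonneg_right (by rw [hC]; linarith) (by positivity)
  have n2 : (CL / 2 + Cp * CN + Cp * CF) * (X * S) ≤ C * (X * S) :=
    mul_le_mul_of_nonneg_right (by rw [hC]; linarith) (by positivity)
  have n3 : Cp * CF * Q' ≤ C * Q' :=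
    mul_le_mul_of_nonneg_right (by rw [hC]; linarith) hQ0
  have n4 : (CL + 512 * Cp * CN * m ^ 3 + Cp * CF) * U ≤ C * U :=
    mul_le_mul_of_nonneg_right (by rw [hC]; linarith) hU0.le
  have n5 : Cp * CF * W ≤ C * W :=
    mul_le_mul_of_nonneg_right (by rw [hC]; linarith) hW
  have n6 : 0 ≤ δ * D := by positivity
  have r1 : (δ + C / Z) * D = δ * D + C * (Y * D) := by rw [hY]; ring
  have r2 : C / R ^ 2 * S = C * (X * S) := by rw [hX]; ring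
  have r3 : C / (Z * N ^ 2) * Q = C * Q' := by rw [hQ']; ring
  have r4 : C * κ ^ 4 * Z ^ 2 / δ ^ 3 * N ^ 3 / R = C * U := by rw [hU, hG]; ring
  rw [r1, r2, r3, r4]
  linarith

theorem aP : ∃ C : ℝ, 1 ≤ C ∧ ∀ (T : ℝ) (u : ℝ → E3 → E3) (p : ℝ → E3 → ℝ), IsHInfAxisymNS T u p →
    ∀ t ∈ Ioo 0 T, ∀ κ N b R Z δ z : ℝ, Sm κ N b (u t) → 0 < R → R ≤ 1 → 1 ≤ Z → 0 < δ → δ ≤ 1 → ∀ J : ℕ, 1 ≤ J →
    (∫ x, ‖u t x‖ ^ 2 * (lap (ww N Z R z) x + adv (u t x) (ww N Z R z) x)) / 2 -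
      (∫ x, (∑ k : Fin 3, pd k (p t) x * (u t x k * ww N Z R z x))) ≤
      (δ + C / Z) * DD (u t) (ww N Z R z) + C / R ^ 2 * SS (u t) (ww N Z R z) +
      C / (Z * N ^ 2) * (∑ j ∈ Finset.Icc 1 J, (√2 / 4) ^ j * QQ (u t) (ww N Z (2 ^ j * R) z)) +
      C * κ ^ 4 * Z ^ 2 / δ ^ 3 * N ^ 3 / R +
      C * ((2 ^ J * R) ^ 3)⁻¹ * (∫ x, ‖u t x‖ ^ 2) * ((SS (u t) (ww N Z R z) + VV (ww N Z R z)) / R) := by
  obtain ⟨Cp, hCp, hpA⟩ := pA
  obtain ⟨CL, hCL, hFl⟩ := aFl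
  obtain ⟨CN, hCN, hNe⟩ := aNe
  obtain ⟨CF, hCF, hFa⟩ := aFa
  obtain ⟨m, hm⟩ : ∃ m : ℝ, m = max 1 Cp := ⟨_, rfl⟩
  have hm1 : 1 ≤ m := hm ▸ le_max_left _ _
  have hmp : Cp ≤ m := hm ▸ le_max_right _ _
  have hm0 : 0 < m := by linarith
  have hCL0 : 0 < CL := by linarith
  have hCN0 : 0 < CN := by linarith
  have hCF0 : 0 < CF := by linarith
  refine ⟨1 + CL + Cp * CN + 512 * Cp * CN * m ^ 3 + Cp * CF, ?_, ?_⟩
  · have p1 : 0 < Cp * CN := by positivity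
    have p2 : 0 < Cp * CF := by positivity
    have p3 : 0 < 512 * Cp * CN * m ^ 3 := by positivity
    linarith
  intro T u p hNS t ht κ N b R Z δ z h hR hR1 hZ hδ hδ1 J hJ
  have hN : 1 ≤ N := h.one.trans h.le
  obtain ⟨hw, hV0, -⟩ := ww_ok hN hZ hR z
  have h1 := hFl κ N b R Z (δ / 2) z (u t) h hR hR1 hZ (by linarith) (by linarith)
  have hF : ∀ k : Fin 3, TF (fun x => u t x k * ww N Z R z x) := by
    intro k
    obtain ⟨K, hK⟩ := h.db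
    refine ba_tf (K := K) hw ?_ ?_
    · have h2 : ContDiff ℝ ∞ (u t) := h.ax.smooth
      have h3 : ContDiff ℝ 1 (u t) := h2.of_le (by exact_mod_cast le_top)
      exact (contDiff_euclidean.1 h3) k
    · intro x
      exact ⟨(DB_BL (hK k)).1 x, fun i => (DB_BL (DB_pd (hK k) i)).1 x⟩
  have hl : (0 : ℝ) < 2 * R := by positivity
  have h2 := hpA T u p hNS t ht (fun k x => u t x k * ww N Z R z x) hF (2 * R) hl
  have hδm : 0 < δ / (8 * m) := by positivity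
  have hδm1 : δ / (8 * m) ≤ 1 := by
    rw [div_le_one (by positivity)]
    linarith
  have h3 := hNe κ N b R Z (δ / (8 * m)) z (u t) h hR hR1 hZ hδm hδm1
  have h4 := hFa κ N b R Z z (u t) h hR hR1 hZ J hJ
  have hD : 0 ≤ DD (u t) (ww N Z R z) :=
    integral_nonneg fun x => mul_nonneg (ba_gv x 0 0).1 (hw.nn x)
  have hS : 0 ≤ SS (u t) (ww N Z R z) :=
    integral_nonneg fun x => mul_nonneg (by positivity) (hw.nn x)
  have hV : 0 ≤ VV (ww N Z R z) := integral_nonneg fun x => hw.nn x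
  have hE : 0 ≤ ∫ x, ‖u t x‖ ^ 2 := integral_nonneg fun x => by positivity
  have hQ : 0 ≤ ∑ j ∈ Finset.Icc 1 J, (√2 / 4) ^ j * QQ (u t) (ww N Z (2 ^ j * R) z) := by
    refine Finset.sum_nonneg fun j _ => mul_nonneg (by positivity) ?_
    obtain ⟨hw', -, -⟩ := ww_ok hN hZ (show (0 : ℝ) < 2 ^ j * R by positivity) z
    exact integral_nonneg fun x => mul_nonneg (by positivity) (hw'.nn x)
  have h5 := Ae_num (N := N) hD hS hQ
    (W := ((2 ^ J * R) ^ 3)⁻¹ * (∫ x, ‖u t x‖ ^ 2) *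
      ((SS (u t) (ww N Z R z) + VV (ww N Z R z)) / R)) (by positivity)
    hCp hCL0 hCN0 hCF0 hm1 hmp hδ hδ1 h.one hR hZ hN h1 h2 h3
    (by
      refine h4.trans (le_of_eq ?_)
      ring)
  refine h5.trans (le_of_eq ?_)
  ring

end Pool.Agent.H94.WL
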