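/-
ROW Af (MP_09540e_WL). Time integral of the far sum. PROOF. Exactly TU/Af.lean (aT2, Af_QQ) with UpM instead of UpTo and f5 of WL/Fc.lean (180 instead of 40): `∫ QQ_j ≤ 180 N² (∫ DD_j + ∫ (1 + (4/(2^j R))²) SS_j) ≤ 180 · 11 M N⁵ 2^j R` for 1 ≤ j, `∑_{j≥1} (√2/4)^j 2^j ≤ 4`. (Af_geom, Af_ww, Af_DDnn of TU/Af.lean can be used.)
-/
import Pool.Agent.H94.WL.Fc
import Pool.Agent.H16.TU.Af

set_option autoImplicit false

open Set Filter Topology MeasureTheory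
open scoped ContDiff

namespace Pool.Agent.H94.WL

open Pool.Agent.H16 Pool.Agent.H87.NS Pool.Agent.H72.CC Pool.Agent.H16.TU

private theorem Af_onem {T κ N b t₀ : ℝ} {u : ℝ → E3 → E3} (hu : UpM T u κ N b t₀) : 1 ≤ N := by
  have h := hu.2 0 ⟨le_refl _, hu.1.1⟩
  exact le_trans h.one h.le

private theorem Af_subm {T κ N b t₀ t₁ t₂ : ℝ} {u : ℝ → E3 → E3} (hu : UpM T u κ N b t₀) (h1 : 0 ≤ t₁) (h2 : t₂ ≤ t₀) :
    Icc t₁ t₂ ⊆ Ico 0 T := fun t ht => ⟨le_trans h1 ht.1, lt_of_le_of_lt (le_trans ht.2 h2) hu.1.2⟩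

private theorem Af_SSm {N Z M R t₀ z t : ℝ} {u : ℝ → E3 → E3}
    (hB : Bd u N Z t₀ M) (hR : 0 < R) (ht : t ∈ Icc 0 t₀) (j : ℕ) :
    SS (u t) (ww N Z (2 ^ j * R) z) ≤ M * N ^ 3 * (2 ^ j * R) :=
  (hB t ht (2 ^ j * R) z (by positivity)).1

private theorem Af_QQm {T κ N Z M R b t₀ t₁ t₂ z : ℝ} {u : ℝ → E3 → E3} {p : ℝ → E3 → ℝ} (h : IsHInfAxisymNS T u p) (hu : UpM T u κ N b t₀)
    (hZ : 1 ≤ Z) (hM : 1 ≤ M) (hB : Bd u N Z t₀ M) (hR : 0 < R) (hR1 : R ≤ 1) (h1 : 0 ≤ t₁) (h12 : t₁ ≤ t₂) (h2 : t₂ ≤ t₀)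
    (hw : t₂ - t₁ ≤ 2 * R ^ 2) {j : ℕ} (hj : 1 ≤ j) :
    ∫ t in t₁..t₂, QQ (u t) (ww N Z (2 ^ j * R) z) ≤ 1980 * M * N ^ 5 * (2 ^ j * R) := by
  have hN := Af_onem hu
  have hMN : 0 ≤ M * N ^ 3 := by positivity
  have hZN : 1 ≤ Z * N := one_le_mul_of_one_le_of_one_le hZ hN
  have hRL : 2 ^ j * R ≤ Z * N * (2 ^ j * R) := le_mul_of_one_le_left (by positivity) hZN
  have hsub := Af_subm hu h1 h2
  have w := Af_ww hN hZ hR z j
  obtain ⟨cS, cD, cQ⟩ := tc_u h w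
  have iS : IntervalIntegrable (fun t => SS (u t) (ww N Z (2 ^ j * R) z)) volume t₁ t₂ :=
    ContinuousOn.intervalIntegrable (by rw [uIcc_of_le h12]; exact cS.mono hsub)
  have iD : IntervalIntegrable (fun t => DD (u t) (ww N Z (2 ^ j * R) z)) volume t₁ t₂ :=
    ContinuousOn.intervalIntegrable (by rw [uIcc_of_le h12]; exact cD.mono hsub)
  have iQ : IntervalIntegrable (fun t => QQ (u t) (ww N Z (2 ^ j * R) z)) volume t₁ t₂ :=
    ContinuousOn.intervalIntegrable (by rw [uIcc_of_le h12]; exact cQ.mono hsub)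
  have h4 : (4:ℝ) ≤ (2 ^ j) ^ 2 := by
    have : (2:ℝ) ^ 1 ≤ 2 ^ j := pow_le_pow_right₀ (by norm_num) hj
    nlinarith
  have hp : (0:ℝ) < 2 ^ j := by positivity
  -- the dissipation
  have hD : ∫ t in t₁..t₂, DD (u t) (ww N Z (2 ^ j * R) z) ≤ M * N ^ 3 * (2 ^ j * R) := by
    have ht2 : t₂ ∈ Icc 0 t₀ := ⟨le_trans h1 h12, h2⟩
    have hb := (hB t₂ ht2 (2 ^ j * R) z (by positivity)).2
    have hmax : max (t₂ - (2 ^ j * R) ^ 2) 0 ≤ t₁ := by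
      refine max_le ?_ h1
      have : 2 * R ^ 2 ≤ (2 ^ j * R) ^ 2 := by
        rw [mul_pow]
        nlinarith [sq_nonneg R]
      linarith
    have hsub' : Icc (max (t₂ - (2 ^ j * R) ^ 2) 0) t₂ ⊆ Ico 0 T := Af_subm hu (le_max_right _ _) h2
    have iD' : IntervalIntegrable (fun t => DD (u t) (ww N Z (2 ^ j * R) z)) volume (max (t₂ - (2 ^ j * R) ^ 2) 0) t₂ :=
      ContinuousOn.intervalIntegrable (by rw [uIcc_of_le (le_trans hmax h12)]; exact cD.mono hsub')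
    refine le_trans (intervalIntegral.integral_mono_interval hmax h12 (le_refl _) ?_ iD') hb
    exact Filter.Eventually.of_forall fun t => Af_DDnn w (u t)
  -- the energy
  have hS : ∫ t in t₁..t₂, SS (u t) (ww N Z (2 ^ j * R) z) ≤ 2 * R ^ 2 * (M * N ^ 3 * (2 ^ j * R)) := by
    calc ∫ t in t₁..t₂, SS (u t) (ww N Z (2 ^ j * R) z)
        ≤ ∫ t in t₁..t₂, M * N ^ 3 * (2 ^ j * R) :=
          intervalIntegral.integral_mono_on h12 iS intervalIntegrable_const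
            fun t ht => Af_SSm hB hR ⟨le_trans h1 ht.1, le_trans ht.2 h2⟩ j
      _ = (t₂ - t₁) * (M * N ^ 3 * (2 ^ j * R)) := by
          rw [intervalIntegral.integral_const, smul_eq_mul]
      _ ≤ 2 * R ^ 2 * (M * N ^ 3 * (2 ^ j * R)) := mul_le_mul_of_nonneg_right hw (by positivity)
  have hcoef : (1 + (4 / (2 ^ j * R)) ^ 2) * (2 * R ^ 2) ≤ 10 := by
    have e : (1 + (4 / (2 ^ j * R)) ^ 2) * (2 * R ^ 2) = 2 * R ^ 2 + 32 / (2 ^ j) ^ 2 := by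
      field_simp
      ring
    rw [e]
    have a1 : 32 / ((2:ℝ) ^ j) ^ 2 ≤ 8 := by
      rw [div_le_iff₀ (by positivity)]
      linarith
    have a2 : R ^ 2 ≤ 1 := by nlinarith
    linarith
  calc ∫ t in t₁..t₂, QQ (u t) (ww N Z (2 ^ j * R) z)
      ≤ ∫ t in t₁..t₂, 180 * N ^ 2 * (DD (u t) (ww N Z (2 ^ j * R) z) + (1 + (4 / (2 ^ j * R)) ^ 2) * SS (u t) (ww N Z (2 ^ j * R) z)) := by
        refine intervalIntegral.integral_mono_on h12 iQ ((iD.add (iS.const_mul _)).const_mul _) fun t ht => ?_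
        exact f5 (hu.2 t ⟨le_trans h1 ht.1, le_trans ht.2 h2⟩) (by positivity) hRL
    _ = 180 * N ^ 2 * ((∫ t in t₁..t₂, DD (u t) (ww N Z (2 ^ j * R) z)) +
          (1 + (4 / (2 ^ j * R)) ^ 2) * ∫ t in t₁..t₂, SS (u t) (ww N Z (2 ^ j * R) z)) := by
        rw [intervalIntegral.integral_const_mul, intervalIntegral.integral_add iD (iS.const_mul _),
          intervalIntegral.integral_const_mul]
    _ ≤ 180 * N ^ 2 * (M * N ^ 3 * (2 ^ j * R) +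
          (1 + (4 / (2 ^ j * R)) ^ 2) * (2 * R ^ 2 * (M * N ^ 3 * (2 ^ j * R)))) := by
        gcongr
    _ = 180 * N ^ 2 * (M * N ^ 3 * (2 ^ j * R)) * (1 + (1 + (4 / (2 ^ j * R)) ^ 2) * (2 * R ^ 2)) := by ring
    _ ≤ 180 * N ^ 2 * (M * N ^ 3 * (2 ^ j * R)) * (1 + 10) := by
        gcongr
    _ = 1980 * M * N ^ 5 * (2 ^ j * R) := by ring

theorem aT2 {T κ N Z M R b t₀ t₁ t₂ z : ℝ} {u : ℝ → E3 → E3} {p : ℝ → E3 → ℝ} (h : IsHInfAxisymNS T u p) (hu : UpM T u κ N b t₀)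
    (hZ : 1 ≤ Z) (hM : 1 ≤ M) (hB : Bd u N Z t₀ M) (hR : 0 < R) (hR1 : R ≤ 1) (h1 : 0 ≤ t₁) (h12 : t₁ ≤ t₂) (h2 : t₂ ≤ t₀)
    (hw : t₂ - t₁ ≤ 2 * R ^ 2) (J : ℕ) :
    ∫ t in t₁..t₂, ∑ j ∈ Finset.Icc 1 J, (√2 / 4) ^ j * QQ (u t) (ww N Z (2 ^ j * R) z) ≤ 10000 * M * N ^ 5 * R := by
  have hN := Af_onem hu
  have hsub := Af_subm hu h1 h2
  have hs0 : (0:ℝ) ≤ √2 := Real.sqrt_nonneg 2
  have hs2 : √2 * √2 = (2:ℝ) := Real.mul_self_sqrt (by norm_num)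
  have hs15 : √2 ≤ (3/2 : ℝ) := by
    rw [Real.sqrt_le_left (by norm_num)]
    norm_num
  have hi : ∀ j ∈ Finset.Icc 1 J, IntervalIntegrable (fun t => (√2 / 4) ^ j * QQ (u t) (ww N Z (2 ^ j * R) z)) volume t₁ t₂ := by
    intro j _
    refine IntervalIntegrable.const_mul ?_ _
    exact ContinuousOn.intervalIntegrable (by
      rw [uIcc_of_le h12]; exact (tc_u h (Af_ww hN hZ hR z j)).2.2.mono hsub)
  rw [intervalIntegral.integral_finset_sum hi]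
  calc ∑ j ∈ Finset.Icc 1 J, ∫ t in t₁..t₂, (√2 / 4) ^ j * QQ (u t) (ww N Z (2 ^ j * R) z)
      ≤ ∑ j ∈ Finset.Icc 1 J, (1980 * M * N ^ 5 * R) * (√2 / 2) ^ j := by
        refine Finset.sum_le_sum fun j hj' => ?_
        have hj1 : 1 ≤ j := (Finset.mem_Icc.1 hj').1
        rw [intervalIntegral.integral_const_mul]
        calc (√2 / 4) ^ j * ∫ t in t₁..t₂, QQ (u t) (ww N Z (2 ^ j * R) z)
            ≤ (√2 / 4) ^ j * (1980 * M * N ^ 5 * (2 ^ j * R)) :=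
              mul_le_mul_of_nonneg_left (Af_QQm h hu hZ hM hB hR hR1 h1 h12 h2 hw hj1) (by positivity)
          _ = (1980 * M * N ^ 5 * R) * ((√2 / 4) ^ j * 2 ^ j) := by ring
          _ = (1980 * M * N ^ 5 * R) * (√2 / 2) ^ j := by
              rw [← mul_pow]
              congr 2
              ring
    _ = (1980 * M * N ^ 5 * R) * ∑ j ∈ Finset.Icc 1 J, (√2 / 2) ^ j := by rw [Finset.mul_sum]
    _ ≤ (1980 * M * N ^ 5 * R) * ((√2 / 2) ^ 1 / (1 - √2 / 2)) :=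
        mul_le_mul_of_nonneg_left (Af_geom (by positivity) (by linarith) 1 J) (by positivity)
    _ ≤ (1980 * M * N ^ 5 * R) * 4 := by
        refine mul_le_mul_of_nonneg_left ?_ (by positivity)
        rw [div_le_iff₀ (by linarith)]
        nlinarith
    _ ≤ 10000 * M * N ^ 5 * R := by
        have : 0 ≤ M * N ^ 5 * R := by positivity
        nlinarith

end Pool.Agent.H94.WL
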