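/-
ROW Ag (MP_09540e_WL). The energy inequality on a window. PROOF (cf. TU/Ag.lean). Let C_a be the constant of aP, C_s that of fs. δ = 1/32; Z := 640000 C_a (so `C_a/Z ≤ 1/32`, `10000 C_a/Z ≤ 1/64`); θ = 1/(16 C_a C_s) ≤ 1. enA (TU/Tc.lean) on [t₁,t₂] (Φ = ww N Z R z, ww_ok) and aP at each t ∈ Ioo t₁ t₂, J ≥ 1 with `N ≤ 2^J R`.
fs with `η = θ R²`: `(C_a/R²) SS ≤ C_a C_s θ DD + (C_a C_s/R²)(N²/(θR²) VV + κ² Z N R) ≤ (1/16) DD + C' N³/R` (VV ≤ 10 Z N R³: ww_ok; κ ≤ N). Sum: coefficient of DD `≤ 1/32 + 1/32 + 1/16 = 1/8`. Time integrals over a window of length ≤ 2R²: the terms `C N³/R` give `2 C N³ R`; aT2: `(C_a/(ZN²)) 10000 M N⁵ R ≤ (1/64) M N³ R`.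
Last term: `(2^J R)⁻³ ≤ N⁻³`, `∫‖u t‖² ≤ E = ∫‖u 0‖²` (en_glob), `SS ≤ M N³ R` (Bd), VV: `≤ C_a N⁻³ E (M N³ + 10 Z N R²) 2R² ≤ (1/64) M N³ R + N³ R` for N ≥ N₁(E, Z, C_a). So `SS(t₂)/2 + (13/16)∫ DD ≤ SS(t₁)/2 + (1/32) M N³ R + C N³ R`. Here C may depend on κ (through κ⁴ Z²/δ³). UpM gives Sm at each t ∈ Icc 0 t₀.
-/
import Pool.Agent.H94.WL.Ae
import Pool.Agent.H94.WL.Af
import Pool.Agent.H16.TU.Ag

set_option autoImplicit false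

open Set Filter Topology MeasureTheory
open scoped ContDiff

namespace Pool.Agent.H94.WL

open Pool.Agent.H16 Pool.Agent.H87.NS Pool.Agent.H72.CC Pool.Agent.H16.TU

theorem Ag_b {Ca Cs κ Z N R θ D S V : ℝ} (hCa : 0 < Ca) (hCs : 0 < Cs) (hZ : 1 ≤ Z) (hN : 1 ≤ N)
    (hR : 0 < R) (hθ : θ = 1 / (16 * Ca * Cs)) (hV : V ≤ 10 * Z * N * R ^ 3)
    (hfs : S ≤ Cs * (θ * R ^ 2) * D + Cs * N ^ 2 / (θ * R ^ 2) * V + Cs * κ ^ 2 * (Z * N * R)) :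
    Ca / R ^ 2 * S ≤ 1 / 16 * D + Ca * Cs * Z * (10 / θ + κ ^ 2) * N ^ 3 / R := by
  have hθ0 : 0 < θ := by rw [hθ]; positivity
  have hZ0 : 0 < Z := by linarith
  have hN0 : 0 < N := by linarith
  have hNN : N ≤ N ^ 3 := by nlinarith [sq_nonneg (N - 1), sq_nonneg N]
  have h2 : Cs * N ^ 2 / (θ * R ^ 2) * V ≤ Cs * N ^ 2 / (θ * R ^ 2) * (10 * Z * N * R ^ 3) := by
    gcongr
  have h3 : Cs * κ ^ 2 * (Z * N * R) ≤ Cs * κ ^ 2 * (Z * N ^ 3 * R) := by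
    gcongr
  have h4 : Ca / R ^ 2 * S ≤ Ca / R ^ 2 * (Cs * (θ * R ^ 2) * D +
      Cs * N ^ 2 / (θ * R ^ 2) * (10 * Z * N * R ^ 3) + Cs * κ ^ 2 * (Z * N ^ 3 * R)) := by
    apply mul_le_mul_of_nonneg_left (by linarith)
    positivity
  refine h4.trans (le_of_eq ?_)
  have e5 : Ca / R ^ 2 * (Cs * (θ * R ^ 2) * D) = 1 / 16 * D := by
    rw [hθ]
    field_simp
  have e6 : Ca / R ^ 2 * (Cs * N ^ 2 / (θ * R ^ 2) * (10 * Z * N * R ^ 3)) =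
      Ca * Cs * Z * (10 / θ) * N ^ 3 / R := by
    field_simp
  have e7 : Ca / R ^ 2 * (Cs * κ ^ 2 * (Z * N ^ 3 * R)) = Ca * Cs * Z * κ ^ 2 * N ^ 3 / R := by
    field_simp
  rw [mul_add, mul_add, e5, e6, e7]
  ring

theorem Ag_c {Ca Z N R M E e e3 S V : ℝ} (hC : 0 < Ca) (hZ : 1 ≤ Z) (hN : 1 ≤ N) (hR : 0 < R)
    (he : e ≤ E) (he0 : 0 ≤ e) (_he3 : 0 ≤ e3) (he31 : e3 ≤ 1 / N ^ 3) (hV0 : 0 ≤ V)
    (hV : V ≤ 10 * Z * N * R ^ 3) (hS0 : 0 ≤ S) (hS : S ≤ M * N ^ 3 * R) :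
    Ca * e3 * e * ((S + V) / R) ≤ Ca * E * (M + 10 * Z * R ^ 2 / N ^ 2) := by
  have hN0 : 0 < N := by linarith
  have hZ0 : 0 < Z := by linarith
  have hE : 0 ≤ E := he0.trans he
  have h1 : (S + V) / R ≤ (M * N ^ 3 * R + 10 * Z * N * R ^ 3) / R := by gcongr
  have h0 : 0 ≤ (S + V) / R := by positivity
  have h2 : Ca * e3 * e ≤ Ca * (1 / N ^ 3) * E := by gcongr
  calc Ca * e3 * e * ((S + V) / R) ≤ Ca * (1 / N ^ 3) * E *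
        ((M * N ^ 3 * R + 10 * Z * N * R ^ 3) / R) := mul_le_mul h2 h1 h0 (by positivity)
    _ = Ca * E * (M + 10 * Z * R ^ 2 / N ^ 2) := by
        field_simp

theorem Ag_d {Ca Z N R M E : ℝ} (hC : 0 < Ca) (hZ : 1 ≤ Z) (hN : 1 ≤ N) (hR : 0 < R)
    (hR1 : R ≤ 1) (hE : 0 ≤ E) (hM : 1 ≤ M) (hN1 : 128 * Ca * E * Z ≤ N) :
    Ca * E * (M + 10 * Z * R ^ 2 / N ^ 2) * (2 * R ^ 2) ≤
      1 / 64 * M * N ^ 3 * R + N ^ 3 * R := by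
  have hCE : 0 ≤ Ca * E := by positivity
  have hN0 : 0 < N := by linarith
  have hZ0 : 0 < Z := by linarith
  have n1 : 128 * (Ca * E) ≤ N := by nlinarith
  have n2 : 128 * (Ca * E * Z) ≤ N := by linarith
  have hN2 : N ≤ N ^ 3 := by nlinarith [sq_nonneg (N - 1), sq_nonneg N]
  have hR2 : R ^ 2 ≤ R := by nlinarith
  have hR4 : R ^ 4 ≤ R := by nlinarith [sq_nonneg R, sq_nonneg (R ^ 2)]
  have b1 : 2 * (Ca * E) * M * R ^ 2 ≤ 1 / 64 * M * N ^ 3 * R := by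
    have m1 : 2 * (Ca * E) ≤ 1 / 64 * N ^ 3 := by linarith
    calc 2 * (Ca * E) * M * R ^ 2 ≤ (1 / 64 * N ^ 3) * M * R := by gcongr
      _ = 1 / 64 * M * N ^ 3 * R := by ring
  have b2 : 20 * (Ca * E * Z) * R ^ 4 / N ^ 2 ≤ N ^ 3 * R := by
    have m1 : 20 * (Ca * E * Z) ≤ N ^ 3 := by linarith
    calc 20 * (Ca * E * Z) * R ^ 4 / N ^ 2 ≤ 20 * (Ca * E * Z) * R ^ 4 :=
          div_le_self (by positivity) (one_le_pow₀ hN)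
      _ ≤ N ^ 3 * R := by gcongr
  have e : Ca * E * (M + 10 * Z * R ^ 2 / N ^ 2) * (2 * R ^ 2) =
      2 * (Ca * E) * M * R ^ 2 + 20 * (Ca * E * Z) * R ^ 4 / N ^ 2 := by
    field_simp
    ring
  rw [e]
  linarith

theorem aW {T : ℝ} {u : ℝ → E3 → E3} {p : ℝ → E3 → ℝ} (h : IsHInfAxisymNS T u p) (κ b : ℝ) :
    ∃ Z C N₁ : ℝ, 1 ≤ Z ∧ 0 < C ∧ 1 ≤ N₁ ∧ ∀ N t₀ M : ℝ, N₁ ≤ N → UpM T u κ N b t₀ → 1 ≤ M → Bd u N Z t₀ M →
      ∀ R z t₁ t₂ : ℝ, 0 < R → R ≤ 1 → 0 ≤ t₁ → t₁ ≤ t₂ → t₂ ≤ t₀ → t₂ - t₁ ≤ 2 * R ^ 2 →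
      SS (u t₂) (ww N Z R z) / 2 + 13 / 16 * ∫ t in t₁..t₂, DD (u t) (ww N Z R z) ≤
        SS (u t₁) (ww N Z R z) / 2 + 1 / 16 * M * N ^ 3 * R + C * N ^ 3 * R := by
  by_cases hκ : 1 ≤ κ
  swap
  · refine ⟨1, 1, 1, le_rfl, one_pos, le_rfl, ?_⟩
    intro N t₀ M _ hu
    exact absurd (hu.2 0 ⟨le_rfl, hu.1.1⟩).one hκ
  obtain ⟨Ca, hCa1, hP⟩ := aP
  obtain ⟨Cs, hCs1, hFs⟩ := fs
  have hCa : 0 < Ca := by linarith
  have hCs : 0 < Cs := by linarith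
  obtain ⟨Z, hZ⟩ : ∃ Z : ℝ, Z = 640000 * Ca := ⟨_, rfl⟩
  have hZ1 : 1 ≤ Z := by rw [hZ]; linarith
  have hZ0 : 0 < Z := by linarith
  have hCZ : Ca / Z ≤ 1 / 32 := by rw [div_le_iff₀ hZ0, hZ]; linarith
  have hCaZ : 10000 * Ca / Z ≤ 1 / 64 := by rw [div_le_iff₀ hZ0, hZ]; linarith
  obtain ⟨θ, hθ⟩ : ∃ θ : ℝ, θ = 1 / (16 * Ca * Cs) := ⟨_, rfl⟩
  have hθ0 : 0 < θ := by rw [hθ]; positivity
  have hθ1 : θ ≤ 1 := by
    rw [hθ, div_le_one (by positivity)]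
    nlinarith
  obtain ⟨E, hE⟩ : ∃ E : ℝ, E = ∫ x, ‖u 0 x‖ ^ 2 := ⟨_, rfl⟩
  have hE0 : 0 ≤ E := by rw [hE]; exact integral_nonneg fun x => by positivity
  obtain ⟨K, hK⟩ : ∃ K : ℝ, K = Ca * Cs * Z * (10 / θ + κ ^ 2) := ⟨_, rfl⟩
  have hK0 : 0 ≤ K := by rw [hK]; positivity
  obtain ⟨K₁, hK₁⟩ : ∃ K₁ : ℝ, K₁ = Ca * κ ^ 4 * Z ^ 2 / (1 / 32) ^ 3 := ⟨_, rfl⟩
  have hK₁0 : 0 ≤ K₁ := by rw [hK₁]; positivity
  refine ⟨Z, 2 * (K + K₁) + 1, 1 + 128 * Ca * E * Z, hZ1, by positivity, ?_, ?_⟩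
  · have : 0 ≤ 128 * Ca * E * Z := by positivity
    linarith
  intro N t₀ M hN hu hM hB R z t₁ t₂ hR hR1 h1 h12 h2 hw
  have hq : 0 ≤ 128 * Ca * E * Z := by positivity
  have hN1 : 1 ≤ N := by linarith
  have hN0 : 0 < N := by linarith
  have hN2 : 128 * Ca * E * Z ≤ N := by linarith
  have htT : t₀ < T := hu.1.2
  have hbT : t₂ < T := lt_of_le_of_lt h2 htT
  have hRL : R ≤ Z * N * R := by
    have : 1 ≤ Z * N := by nlinarith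
    nlinarith
  obtain ⟨w, hV0, hV⟩ := ww_ok hN1 hZ1 hR z
  obtain ⟨J', hJ'⟩ := pow_unbounded_of_one_lt (N / R) (one_lt_two : (1 : ℝ) < 2)
  obtain ⟨J, hJ⟩ : ∃ J : ℕ, J = max 1 J' := ⟨_, rfl⟩
  have hJ0 : 1 ≤ J := by rw [hJ]; exact le_max_left _ _
  have hJR : N ≤ 2 ^ J * R := by
    have a1 : (2 : ℝ) ^ J' ≤ 2 ^ J := pow_le_pow_right₀ (by norm_num) (by rw [hJ]; exact le_max_right _ _)
    have a2 : N / R ≤ 2 ^ J := hJ'.le.trans a1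
    rwa [div_le_iff₀ hR] at a2
  have hnnD : ∀ t, 0 ≤ DD (u t) (ww N Z R z) := fun t =>
    integral_nonneg fun x => mul_nonneg (ba_gv (v := u t) x 0 0).1 (w.nn x)
  have hnnS : ∀ t, 0 ≤ SS (u t) (ww N Z R z) := fun t =>
    integral_nonneg fun x => mul_nonneg (by positivity) (w.nn x)
  obtain ⟨S2, hS2⟩ : ∃ S2 : ℝ → ℝ, S2 = fun t => ∑ j ∈ Finset.Icc 1 J,
    (√2 / 4) ^ j * QQ (u t) (ww N Z (2 ^ j * R) z) := ⟨_, rfl⟩
  have hT2 : ∫ t in t₁..t₂, S2 t ≤ 10000 * M * N ^ 5 * R := by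
    rw [hS2]
    exact aT2 h hu hZ1 hM hB hR hR1 h1 h12 h2 hw J
  have hsub : Icc t₁ t₂ ⊆ Ico 0 T := fun t ht => ⟨h1.trans ht.1, lt_of_le_of_lt ht.2 hbT⟩
  have iD : IntervalIntegrable (fun t => DD (u t) (ww N Z R z)) volume t₁ t₂ :=
    ((tc_u h w).2.1.mono hsub).intervalIntegrable_of_Icc h12
  have iS2 : IntervalIntegrable S2 volume t₁ t₂ := by
    rw [hS2]
    refine ContinuousOn.intervalIntegrable_of_Icc h12 ?_
    refine continuousOn_finsetSum _ fun j _ => ContinuousOn.mul continuousOn_const ?_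
    exact (tc_u h (ww_ok hN1 hZ1 (by positivity : 0 < 2 ^ j * R) z).1).2.2.mono hsub
  obtain ⟨K₂, hK₂⟩ : ∃ K₂ : ℝ, K₂ = Ca * E * (M + 10 * Z * R ^ 2 / N ^ 2) := ⟨_, rfl⟩
  have hK₂0 : 0 ≤ K₂ := by rw [hK₂]; positivity
  have hen := enA h w h1 h12 hbT
  have hint := enA_int h w h1 h12 hbT
  have hmono := intervalIntegral.integral_mono_on_of_le_Ioo h12 hint
    ((iD.const_mul (1/8)).add
      ((iS2.const_mul (Ca / (Z * N ^ 2))).add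
        (intervalIntegrable_const (c := (K + K₁) * N ^ 3 / R + K₂)))) (by
    intro t ht
    have htI : t ∈ Icc 0 t₀ := ⟨h1.trans ht.1.le, ht.2.le.trans h2⟩
    have htT : t ∈ Ioo 0 T := ⟨lt_of_le_of_lt h1 ht.1, lt_trans ht.2 hbT⟩
    have hsl := hu.2 t htI
    have p1 := hP T u p h t htT κ N b R Z (1/32) z hsl hR hR1 hZ1 (by norm_num) (by norm_num) J hJ0
    have p2 := hFs κ N b R (Z * N * R) z (θ * R ^ 2) (u t) hsl hR hRL (by positivity) (by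
      nlinarith [sq_nonneg R])
    change SS (u t) (ww N Z R z) ≤ Cs * (θ * R ^ 2) * DD (u t) (ww N Z R z) +
      Cs * N ^ 2 / (θ * R ^ 2) * VV (ww N Z R z) + Cs * κ ^ 2 * (Z * N * R) at p2
    have p3 := Ag_b hCa hCs hZ1 hN1 hR hθ hV p2
    have p4 := Ag_c (e := ∫ x, ‖u t x‖ ^ 2) (E := E) (e3 := ((2 ^ J * R) ^ 3)⁻¹) hCa hZ1 hN1 hR
      (by rw [hE]; exact (en_glob h ⟨htT.1.le, htT.2⟩).1) (integral_nonneg fun x => by positivity)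
      (by positivity) (by
        rw [one_div]
        exact inv_anti₀ (by positivity) (pow_le_pow_left₀ hN0.le hJR 3)) hV0 hV (hnnS t)
        ((hB t htI R z hR).1)
    have p5 : (1 / 32 + Ca / Z) * DD (u t) (ww N Z R z) ≤ 1 / 16 * DD (u t) (ww N Z R z) :=
      mul_le_mul_of_nonneg_right (by linarith) (hnnD t)
    rw [← hK₂] at p4
    rw [← hK] at p3
    have q2 : S2 t = ∑ j ∈ Finset.Icc 1 J, (√2 / 4) ^ j * QQ (u t) (ww N Z (2 ^ j * R) z) := by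
      rw [hS2]
    rw [← q2, ← hK₁] at p1
    have q3 : (K + K₁) * N ^ 3 / R = K * N ^ 3 / R + K₁ * N ^ 3 / R := by ring
    change _ ≤ 1 / 8 * DD (u t) (ww N Z R z) +
      (Ca / (Z * N ^ 2) * S2 t + ((K + K₁) * N ^ 3 / R + K₂))
    rw [q3]
    linarith)
  have hval : ∫ t in t₁..t₂, (1 / 8 * DD (u t) (ww N Z R z) +
      (Ca / (Z * N ^ 2) * S2 t + ((K + K₁) * N ^ 3 / R + K₂))) =
      1 / 8 * (∫ t in t₁..t₂, DD (u t) (ww N Z R z)) +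
      (Ca / (Z * N ^ 2) * (∫ t in t₁..t₂, S2 t) + (t₂ - t₁) * ((K + K₁) * N ^ 3 / R + K₂)) := by
    rw [intervalIntegral.integral_add (iD.const_mul (1/8))
      ((iS2.const_mul (Ca / (Z * N ^ 2))).add intervalIntegrable_const),
      intervalIntegral.integral_add (iS2.const_mul (Ca / (Z * N ^ 2)))
        intervalIntegrable_const,
      intervalIntegral.integral_const_mul, intervalIntegral.integral_const_mul,
      intervalIntegral.integral_const, smul_eq_mul]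
  have hmono' : ∫ t in t₁..t₂, ((∫ x, ‖u t x‖ ^ 2 * (lap (ww N Z R z) x + adv (u t x) (ww N Z R z) x)) / 2 -
      ∫ x, (∑ k : Fin 3, pd k (p t) x * (u t x k * ww N Z R z x))) ≤
      1 / 8 * (∫ t in t₁..t₂, DD (u t) (ww N Z R z)) +
      (Ca / (Z * N ^ 2) * (∫ t in t₁..t₂, S2 t) + (t₂ - t₁) * ((K + K₁) * N ^ 3 / R + K₂)) := by
    rw [← hval]
    exact hmono
  have hDint : 0 ≤ ∫ t in t₁..t₂, DD (u t) (ww N Z R z) :=
    intervalIntegral.integral_nonneg h12 fun t _ => hnnD t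
  have r2 : Ca / (Z * N ^ 2) * (∫ t in t₁..t₂, S2 t) ≤ 1 / 64 * (M * N ^ 3 * R) := by
    calc Ca / (Z * N ^ 2) * (∫ t in t₁..t₂, S2 t) ≤ Ca / (Z * N ^ 2) * (10000 * M * N ^ 5 * R) := by
          gcongr
      _ = (10000 * Ca / Z) * (M * N ^ 3 * R) := by
          field_simp
      _ ≤ 1 / 64 * (M * N ^ 3 * R) := by
          apply mul_le_mul_of_nonneg_right hCaZ
          positivity
  have r3 : (t₂ - t₁) * ((K + K₁) * N ^ 3 / R + K₂) ≤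
      2 * (K + K₁) * N ^ 3 * R + (1 / 64 * M * N ^ 3 * R + N ^ 3 * R) := by
    have a1 := Ag_d (M := M) hCa hZ1 hN1 hR hR1 hE0 hM hN2
    rw [← hK₂] at a1
    calc (t₂ - t₁) * ((K + K₁) * N ^ 3 / R + K₂) ≤ (2 * R ^ 2) * ((K + K₁) * N ^ 3 / R + K₂) := by
          apply mul_le_mul_of_nonneg_right hw
          positivity
      _ = 2 * (K + K₁) * N ^ 3 * R + K₂ * (2 * R ^ 2) := by
          field_simp
      _ ≤ _ := by linarith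
  have hMN : 0 ≤ M * N ^ 3 * R := by positivity
  linarith [hmono', r2, r3, hDint, hMN, hen]

end Pool.Agent.H94.WL
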