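/-
ROW Ah (MP_09540e_WL). Theorem A. PROOF. Exactly TU/Ah.lean with UpM instead of UpTo, aW of WL/Ag.lean, and in aS the new fs: with `η = R²/(32 C_s)` (C_s ≥ 1 the constant of fs): `SS(t₁) ≤ C_s η DD + C_s N²/η VV + C_s κ² Z N R ≤ (1/32) M N³ R + C N³ R` when `DD (u t₁) ≤ M N³/R` (VV ≤ 10 Z N R³, κ ≤ N). (Ah_SS, Ah_DD, Ah_glob, Ah_mono, Ah_ii, Ah_N3, Ah_big ... of TU/Ah.lean can be used.)
-/
import Pool.Agent.H94.WL.Ag
import Pool.Agent.H16.TU.Ah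

set_option autoImplicit false

open Set Filter Topology MeasureTheory
open scoped ContDiff

namespace Pool.Agent.H94.WL

open Pool.Agent.H16 Pool.Agent.H87.NS Pool.Agent.H72.CC Pool.Agent.H16.TU

theorem aS {T : ℝ} {u : ℝ → E3 → E3} {p : ℝ → E3 → ℝ} (h : IsHInfAxisymNS T u p) (κ b : ℝ) {Z : ℝ} (hZ : 1 ≤ Z) :
    ∃ C N₁ : ℝ, 0 < C ∧ 1 ≤ N₁ ∧ ∀ N t₀ M : ℝ, N₁ ≤ N → UpM T u κ N b t₀ → 1 ≤ M → Bd u N Z t₀ M →
      ∀ R z t₂ : ℝ, 0 < R → R ≤ 1 → 0 ≤ t₂ → t₂ ≤ t₀ → ∃ t₁ : ℝ, 0 ≤ t₁ ∧ t₁ ≤ max (t₂ - R ^ 2) 0 ∧ t₂ - t₁ ≤ 2 * R ^ 2 ∧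
      SS (u t₁) (ww N Z R z) / 2 ≤ 1 / 32 * M * N ^ 3 * R + C * N ^ 3 * R := by
  by_cases hT : 0 < T
  swap
  · refine ⟨1, 1, one_pos, le_rfl, fun N t₀ M _ hu => ?_⟩
    exact absurd (hu.1.1.trans_lt hu.1.2) hT
  obtain ⟨K, hK0, hK⟩ := gv_u h hT
  obtain ⟨Cs, hCs1, hFs⟩ := fs
  have hCs0 : 0 < Cs := by linarith
  refine ⟨160 * Cs ^ 2 * Z + Cs * κ ^ 2 * Z + 5 * K ^ 2 * Z + 1, 1, by positivity, le_rfl, ?_⟩
  intro N t₀ M hN hu hM hB R z t₂ hR hR1 h20 h2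
  have hN0 : 0 < N := by linarith
  have hZ0 : 0 < Z := by linarith
  have hRL : R ≤ Z * N * R := by
    have : 1 ≤ Z * N := by nlinarith
    nlinarith
  obtain ⟨w, hv0, hv⟩ := ww_ok hN hZ hR z
  have ht0 := hu.1
  have hNR := Ah_N3 hN hR hR1
  have hpos : 0 ≤ N ^ 3 * R := by positivity
  by_cases hc : 2 * R ^ 2 ≤ t₂
  · obtain ⟨a, ha⟩ : ∃ a : ℝ, a = t₂ - 2 * R ^ 2 := ⟨_, rfl⟩
    obtain ⟨b', hb⟩ : ∃ b : ℝ, b = t₂ - R ^ 2 := ⟨_, rfl⟩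
    have hR2 : 0 < R ^ 2 := by positivity
    have ha0 : 0 ≤ a := by rw [ha]; linarith
    have hab : a ≤ b' := by rw [ha, hb]; linarith
    have hb0 : b' ≤ t₀ := by rw [hb]; linarith
    have hbT : b' < T := lt_of_le_of_lt hb0 ht0.2
    have hcont : ContinuousOn (fun s => DD (u s) (ww N Z R z)) (Icc a b') :=
      (tc_u h w).2.1.mono fun s hs => ⟨ha0.trans hs.1, hs.2.trans_lt hbT⟩
    obtain ⟨t₁, ht₁, hmin⟩ := isCompact_Icc.exists_isMinOn (nonempty_Icc.2 hab) hcont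
    have hI := (hB b' ⟨ha0.trans hab, hb0⟩ R z hR).2
    have hmax : max (b' - R ^ 2) 0 = a := by
      have h1 : b' - R ^ 2 = a := by rw [ha, hb]; ring
      rw [h1]
      exact max_eq_left ha0
    rw [hmax] at hI
    have h3 : ∫ _s in a..b', DD (u t₁) (ww N Z R z) ≤ ∫ s in a..b', DD (u s) (ww N Z R z) :=
      intervalIntegral.integral_mono_on hab intervalIntegrable_const
        (Ah_ii h w ha0 hab hbT) fun s hs => hmin hs
    rw [intervalIntegral.integral_const, smul_eq_mul] at h3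
    have hba : b' - a = R ^ 2 := by rw [ha, hb]; ring
    rw [hba] at h3
    have h4 : R ^ 2 * DD (u t₁) (ww N Z R z) ≤ M * N ^ 3 * R := h3.trans hI
    have ht₁0 : t₁ ∈ Icc 0 t₀ := ⟨ha0.trans ht₁.1, ht₁.2.trans hb0⟩
    have hη : R ^ 2 / (32 * Cs) ≤ R ^ 2 := by
      rw [div_le_iff₀ (by positivity)]
      nlinarith
    have h5 := hFs κ N b R (Z * N * R) z (R ^ 2 / (32 * Cs)) (u t₁) (hu.2 t₁ ht₁0) hR hRL
      (by positivity) hη
    change SS (u t₁) (ww N Z R z) ≤ Cs * (R ^ 2 / (32 * Cs)) * DD (u t₁) (ww N Z R z) +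
      Cs * N ^ 2 / (R ^ 2 / (32 * Cs)) * VV (ww N Z R z) + Cs * κ ^ 2 * (Z * N * R) at h5
    refine ⟨t₁, ht₁0.1, ?_, ?_, ?_⟩
    · refine le_trans ?_ (le_max_left _ _)
      rw [← hb]
      exact ht₁.2
    · have := ht₁.1
      rw [ha] at this
      linarith
    · have h6 : Cs * N ^ 2 / (R ^ 2 / (32 * Cs)) * VV (ww N Z R z) ≤
          320 * Cs ^ 2 * Z * (N ^ 3 * R) := by
        refine (mul_le_mul_of_nonneg_left hv (by positivity)).trans (le_of_eq ?_)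
        field_simp
        ring
      have h7 : Cs * (R ^ 2 / (32 * Cs)) * DD (u t₁) (ww N Z R z) ≤ 1 / 32 * (M * N ^ 3 * R) := by
        have h8 : Cs * (R ^ 2 / (32 * Cs)) * DD (u t₁) (ww N Z R z) =
            1 / 32 * (R ^ 2 * DD (u t₁) (ww N Z R z)) := by
          field_simp
        rw [h8]
        exact mul_le_mul_of_nonneg_left h4 (by norm_num)
      have h9 : Cs * κ ^ 2 * (Z * N * R) ≤ Cs * κ ^ 2 * Z * (N ^ 3 * R) := by
        have h10 : N ≤ N ^ 3 := le_self_pow₀ hN (by norm_num)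
        have h11 : Cs * κ ^ 2 * (Z * N * R) = Cs * κ ^ 2 * Z * (N * R) := by ring
        rw [h11]
        exact mul_le_mul_of_nonneg_left (mul_le_mul_of_nonneg_right h10 hR.le) (by positivity)
      have h11 : 0 ≤ K ^ 2 * Z * (N ^ 3 * R) := by positivity
      have h12 : 0 ≤ M * N ^ 3 * R := by positivity
      have h14 : 0 ≤ Cs * κ ^ 2 * Z * (N ^ 3 * R) := by positivity
      have h13 : (160 * Cs ^ 2 * Z + Cs * κ ^ 2 * Z + 5 * K ^ 2 * Z + 1) * N ^ 3 * R =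
          160 * Cs ^ 2 * Z * (N ^ 3 * R) + Cs * κ ^ 2 * Z * (N ^ 3 * R) +
            5 * (K ^ 2 * Z * (N ^ 3 * R)) + N ^ 3 * R := by ring
      rw [h13]
      linarith
  · push Not at hc
    refine ⟨0, le_rfl, le_max_right _ _, by linarith, ?_⟩
    have h00 : (0 : ℝ) ∈ Icc (0 : ℝ) t₀ := ⟨le_rfl, ht0.1⟩
    have h1 := Ah_SS w (hu.2 0 h00).ax.smooth (fun x => (hK 0 ⟨le_rfl, le_rfl⟩ x).1)
    have h3 : K ^ 2 * VV (ww N Z R z) ≤ K ^ 2 * (10 * Z * N * R ^ 3) :=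
      mul_le_mul_of_nonneg_left hv (sq_nonneg _)
    have h4 : K ^ 2 * (10 * Z * N * R ^ 3) ≤ 10 * (K ^ 2 * Z * (N ^ 3 * R)) := by
      have h5 : K ^ 2 * (10 * Z * N * R ^ 3) = 10 * (K ^ 2 * Z) * (N * R ^ 3) := by ring
      rw [h5]
      have h6 : 0 ≤ 10 * (K ^ 2 * Z) := by positivity
      nlinarith
    have h12 : 0 ≤ M * N ^ 3 * R := by positivity
    have h13 : (160 * Cs ^ 2 * Z + Cs * κ ^ 2 * Z + 5 * K ^ 2 * Z + 1) * N ^ 3 * R =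
        160 * Cs ^ 2 * Z * (N ^ 3 * R) + Cs * κ ^ 2 * Z * (N ^ 3 * R) +
          5 * (K ^ 2 * Z * (N ^ 3 * R)) + N ^ 3 * R := by ring
    have h14 : 0 ≤ 160 * Cs ^ 2 * Z * (N ^ 3 * R) := by positivity
    have h15 : 0 ≤ Cs * κ ^ 2 * Z * (N ^ 3 * R) := by positivity
    rw [h13]
    linarith

theorem Ah_aFin {T : ℝ} {u : ℝ → E3 → E3} {p : ℝ → E3 → ℝ} (h : IsHInfAxisymNS T u p) {κ N b Z t₀ : ℝ} (hZ : 1 ≤ Z) (hu : UpM T u κ N b t₀) :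
    ∃ M : ℝ, 1 ≤ M ∧ Bd u N Z t₀ M := by
  have ht0 := hu.1
  obtain ⟨K, hK0, hK⟩ := gv_u h ht0.2
  have hN : 1 ≤ N := by
    have h1 := hu.2 0 ⟨le_rfl, ht0.1⟩
    exact h1.one.trans h1.le
  obtain ⟨E, hE⟩ : ∃ E : ℝ, E = ∫ x, ‖u 0 x‖ ^ 2 := ⟨_, rfl⟩
  have hE0 : 0 ≤ E := by
    rw [hE]
    exact integral_nonneg fun x => sq_nonneg _
  refine ⟨1 + E + 10 * Z * K ^ 2 + 10 * Z * K, by
    have : 0 ≤ Z := by linarith
    have h1 : 0 ≤ 10 * Z * K ^ 2 := by positivity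
    have h2 : 0 ≤ 10 * Z * K := by positivity
    linarith, ?_⟩
  intro t ht R z hR
  have htT : t < T := ht.2.trans_lt ht0.2
  obtain ⟨w, hv0, hv⟩ := ww_ok hN hZ hR z
  have hZ0 : 0 ≤ Z := by linarith
  have hmt : max (t - R ^ 2) 0 ≤ t := max_le (by nlinarith) ht.1
  have hm0 : 0 ≤ max (t - R ^ 2) 0 := le_max_right _ _
  have e0 : (1 + E + 10 * Z * K ^ 2 + 10 * Z * K) * N ^ 3 * R =
      (1 + E) * (N ^ 3 * R) + 10 * Z * K ^ 2 * (N ^ 3 * R) + 10 * Z * K * (N ^ 3 * R) := by ring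
  have hp : 0 ≤ N ^ 3 * R := by positivity
  have e1 : 0 ≤ (1 + E) * (N ^ 3 * R) := by positivity
  have e2 : 0 ≤ 10 * Z * K ^ 2 * (N ^ 3 * R) := by positivity
  have e3 : 0 ≤ 10 * Z * K * (N ^ 3 * R) := by positivity
  rw [e0]
  rcases le_total R 1 with hR1 | hR1
  · have hNR := Ah_N3 hN hR hR1
    constructor
    · have h1 : SS (u t) (ww N Z R z) ≤ K ^ 2 * VV (ww N Z R z) :=
        Ah_SS w (hu.2 t ht).ax.smooth (fun x => (hK t ht x).1)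
      have h3 : K ^ 2 * VV (ww N Z R z) ≤ K ^ 2 * (10 * Z * N * R ^ 3) :=
        mul_le_mul_of_nonneg_left hv (sq_nonneg _)
      have h5 : K ^ 2 * (10 * Z * N * R ^ 3) = 10 * Z * K ^ 2 * (N * R ^ 3) := by ring
      have h6 : 10 * Z * K ^ 2 * (N * R ^ 3) ≤ 10 * Z * K ^ 2 * (N ^ 3 * R) :=
        mul_le_mul_of_nonneg_left hNR (by positivity)
      change SS (u t) (ww N Z R z) ≤ _
      linarith
    · have h1 : ∫ s in (max (t - R ^ 2) 0)..t, DD (u s) (ww N Z R z) ≤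
          ∫ _s in (max (t - R ^ 2) 0)..t, K * VV (ww N Z R z) :=
        intervalIntegral.integral_mono_on hmt (Ah_ii h w hm0 hmt htT) intervalIntegrable_const
          fun s hs => by
            have hs0 : s ∈ Icc 0 t₀ := ⟨hm0.trans hs.1, hs.2.trans ht.2⟩
            exact Ah_DD w (hu.2 s hs0).ax.smooth (fun x => (hK s hs0 x).2.1)
      rw [intervalIntegral.integral_const, smul_eq_mul] at h1
      have h2 : t - max (t - R ^ 2) 0 ≤ 1 := by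
        have h3 := le_max_left (t - R ^ 2) 0
        have h4 : R ^ 2 ≤ 1 := pow_le_one₀ hR.le hR1
        linarith
      have h3 : (t - max (t - R ^ 2) 0) * (K * VV (ww N Z R z)) ≤ 1 * (K * VV (ww N Z R z)) :=
        mul_le_mul_of_nonneg_right h2 (mul_nonneg hK0 hv0)
      have h4 : K * VV (ww N Z R z) ≤ K * (10 * Z * N * R ^ 3) := mul_le_mul_of_nonneg_left hv hK0
      have h5 : K * (10 * Z * N * R ^ 3) = 10 * Z * K * (N * R ^ 3) := by ring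
      have h6 : 10 * Z * K * (N * R ^ 3) ≤ 10 * Z * K * (N ^ 3 * R) :=
        mul_le_mul_of_nonneg_left hNR (by positivity)
      change ∫ s in (max (t - R ^ 2) 0)..t, DD (u s) (ww N Z R z) ≤ _
      linarith
  · obtain ⟨h1, h2⟩ := Ah_glob h w hm0 hmt htT
    rw [← hE] at h1 h2
    have h3 := Ah_big hN hR1
    have h4 : E ≤ (1 + E) * (N ^ 3 * R) := by nlinarith
    constructor
    · change SS (u t) (ww N Z R z) ≤ _
      linarith
    · change ∫ s in (max (t - R ^ 2) 0)..t, DD (u s) (ww N Z R z) ≤ _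
      linarith

theorem Ah_aStep {T : ℝ} {u : ℝ → E3 → E3} {p : ℝ → E3 → ℝ} (h : IsHInfAxisymNS T u p) (κ b : ℝ) :
    ∃ Z C N₁ : ℝ, 1 ≤ Z ∧ 0 < C ∧ 1 ≤ N₁ ∧ ∀ N t₀ M : ℝ, N₁ ≤ N → UpM T u κ N b t₀ → 1 ≤ M → Bd u N Z t₀ M → Bd u N Z t₀ (M / 2 + C) := by
  obtain ⟨Z, Cw, Nw, hZ, hCw, hNw, HW⟩ := aW h κ b
  obtain ⟨Cs, Ns, hCs, hNs, HS⟩ := aS h κ b hZ
  obtain ⟨E, hE⟩ : ∃ E : ℝ, E = ∫ x, ‖u 0 x‖ ^ 2 := ⟨_, rfl⟩
  have hE0 : 0 ≤ E := by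
    rw [hE]
    exact integral_nonneg fun x => sq_nonneg _
  refine ⟨Z, 2 * (Cs + Cw) + E, max Nw Ns, hZ, by positivity, hNw.trans (le_max_left _ _), ?_⟩
  intro N t₀ M hN hu hM hB t ht R z hR
  have hNw' : Nw ≤ N := (le_max_left _ _).trans hN
  have hNs' : Ns ≤ N := (le_max_right _ _).trans hN
  have hN1 : 1 ≤ N := hNw.trans hNw'
  have htT : t < T := ht.2.trans_lt hu.1.2
  obtain ⟨w, hv0, hv⟩ := ww_ok hN1 hZ hR z
  have hmt : max (t - R ^ 2) 0 ≤ t := max_le (by nlinarith) ht.1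
  have hm0 : 0 ≤ max (t - R ^ 2) 0 := le_max_right _ _
  have hp : 0 ≤ N ^ 3 * R := by positivity
  have e0 : (M / 2 + (2 * (Cs + Cw) + E)) * N ^ 3 * R =
      M * (N ^ 3 * R) / 2 + 2 * (Cs * (N ^ 3 * R)) + 2 * (Cw * (N ^ 3 * R)) +
        E * (N ^ 3 * R) := by ring
  have e1 : 0 ≤ M * (N ^ 3 * R) := by positivity
  have e2 : 0 ≤ Cs * (N ^ 3 * R) := by positivity
  have e3 : 0 ≤ Cw * (N ^ 3 * R) := by positivity
  have e4 : 0 ≤ E * (N ^ 3 * R) := by positivity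
  rw [e0]
  rcases le_total R 1 with hR1 | hR1
  · obtain ⟨t₁, h10, h1m, h1w, h1S⟩ := HS N t₀ M hNs' hu hM hB R z t hR hR1 ht.1 ht.2
    have h1t : t₁ ≤ t := h1m.trans hmt
    have h2 := HW N t₀ M hNw' hu hM hB R z t₁ t hR hR1 h10 h1t ht.2 h1w
    have h3 : ∫ s in (max (t - R ^ 2) 0)..t, DD (u s) (ww N Z R z) ≤
        ∫ s in t₁..t, DD (u s) (ww N Z R z) :=
      intervalIntegral.integral_mono_interval h1m hmt le_rfl
        (Eventually.of_forall fun s => Ah_DD0 w) (Ah_ii h w h10 h1t htT)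
    have h4 : 0 ≤ ∫ s in t₁..t, DD (u s) (ww N Z R z) :=
      intervalIntegral.integral_nonneg h1t fun s _ => Ah_DD0 w
    have h5 : 0 ≤ SS (u t) (ww N Z R z) :=
      integral_nonneg fun x => mul_nonneg (sq_nonneg _) (w.nn x)
    have e5 : 1 / 32 * M * N ^ 3 * R = M * (N ^ 3 * R) / 32 := by ring
    have e6 : 1 / 16 * M * N ^ 3 * R = M * (N ^ 3 * R) / 16 := by ring
    have e7 : Cs * N ^ 3 * R = Cs * (N ^ 3 * R) := by ring
    have e8 : Cw * N ^ 3 * R = Cw * (N ^ 3 * R) := by ring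
    rw [e5, e7] at h1S
    rw [e6, e8] at h2
    constructor
    · change SS (u t) (ww N Z R z) ≤ _
      linarith
    · change ∫ s in (max (t - R ^ 2) 0)..t, DD (u s) (ww N Z R z) ≤ _
      linarith
  · obtain ⟨h1, h2⟩ := Ah_glob h w hm0 hmt htT
    rw [← hE] at h1 h2
    have h3 := Ah_big hN1 hR1
    have h4 : E ≤ E * (N ^ 3 * R) := by nlinarith
    constructor
    · change SS (u t) (ww N Z R z) ≤ _
      linarith
    · change ∫ s in (max (t - R ^ 2) 0)..t, DD (u s) (ww N Z R z) ≤ _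
      linarith

theorem thmA {T : ℝ} {u : ℝ → E3 → E3} {p : ℝ → E3 → ℝ} (h : IsHInfAxisymNS T u p) (κ b : ℝ) :
    ∃ Z C N₀ : ℝ, 1 ≤ Z ∧ 0 < C ∧ 1 ≤ N₀ ∧ ∀ N t₀ : ℝ, N₀ ≤ N → UpM T u κ N b t₀ → Bd u N Z t₀ C := by
  obtain ⟨Z, C, N₁, hZ, hC, hN₁, H⟩ := Ah_aStep h κ b
  refine ⟨Z, 2 * (C + 1), N₁, hZ, by positivity, hN₁, ?_⟩
  intro N t₀ hN hu
  have hN1 : 1 ≤ N := hN₁.trans hN
  obtain ⟨M₀, hM₀, hB₀⟩ := Ah_aFin h hZ hu
  obtain ⟨D, hD⟩ : ∃ D : ℝ, D = M₀ + 2 * (C + 1) := ⟨_, rfl⟩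
  have hD0 : 0 ≤ D := by rw [hD]; positivity
  have key : ∀ n : ℕ, Bd u N Z t₀ (2 * (C + 1) + D * (1 / 2) ^ n) := by
    intro n
    induction n with
    | zero =>
      refine Ah_mono hN1 ?_ hB₀
      rw [pow_zero, hD]
      linarith
    | succ n ih =>
      have h1 : 1 ≤ 2 * (C + 1) + D * (1 / 2) ^ n := by
        have h2 : 0 ≤ D * (1 / 2) ^ n := by positivity
        linarith
      refine Ah_mono hN1 ?_ (H N t₀ _ hN hu h1 ih)
      rw [pow_succ]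
      linarith
  have hlim : ∀ c : ℝ, Tendsto (fun n : ℕ => (2 * (C + 1) + D * (1 / 2) ^ n) * N ^ 3 * c) atTop
      (𝓝 (2 * (C + 1) * N ^ 3 * c)) := by
    intro c
    have h1 : Tendsto (fun n : ℕ => ((1 / 2 : ℝ)) ^ n) atTop (𝓝 0) :=
      tendsto_pow_atTop_nhds_zero_of_lt_one (by norm_num) (by norm_num)
    have h2 := (((h1.const_mul D).const_add (2 * (C + 1))).mul_const (N ^ 3)).mul_const c
    rwa [mul_zero, add_zero] at h2
  intro t ht R z hR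
  exact ⟨ge_of_tendsto' (hlim R) fun n => (key n t ht R z hR).1,
    ge_of_tendsto' (hlim R) fun n => (key n t ht R z hR).2⟩

end Pool.Agent.H94.WL
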