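import Pool.Agent.H94.WL.Defs

/-! The heat step: definitions. -/

set_option autoImplicit false

open Set Filter Topology MeasureTheory
open scoped ContDiff

namespace Pool.Agent.H94.WL

open Pool.Agent.H16 Pool.Agent.H87.NS Pool.Agent.H72.CC Pool.Agent.H16.TU

/-- The test function at the time `s` before the end. -/
noncomputable def Gt (lam l s : ℝ) (x : E3) : ℝ := gs lam s x * ph l (x 2)

/-- The rate of change of `∫ v₂ G` when `G` solves the backward planar heat equation; `q` is the pressure. -/
noncomputable def Ev (v : E3 → E3) (q G : E3 → ℝ) : ℝ :=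
  (∫ x, v x 2 * (pd 2 (pd 2 G) x + adv (v x) G x)) - ∫ x, pd 2 q x * G x

/-- The density of the static argument. -/
noncomputable def mm (δ l : ℝ) (y : ℝ × ℝ) : ℝ :=
  δ * (-(2 * (1 - δ * y.1) * deriv (hc δ) ((1 - δ * y.1) ^ 2))) * (l * ph l (l * y.2))

end Pool.Agent.H94.WL
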