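/-
ROW Fw (MP_09540e_WL). The stream function on the half plane. PROOF. `Ff v y = y.1² sP v (mk y)` (mk y = !₂[y.1, 0, y.2] definitionally). Smooth: sP_smooth (H72/CC/Psi.lean) composed with the smooth map mk. `∂_r`: `2 r P + r² pd 0 P = r (2 P + r pd 0 P) = r (2P + rdr P) = r v₂` at mk (r,s) (rdr f x = x 0 pd 0 f x + x 1 pd 1 f x, x 0 = r, x 1 = 0; sP_two).
`∂_s`: `r² pd 2 P = - r² sW` (sW_sP). Chain rule: the derivative of mk in the direction (1,0) is e 0, in the direction (0,1) it is e 2. Third: Ea_cs in TU/Ea.lean (private, copy): `r sP(mk(r,s)) r = ∫_0^r t v₂(mk(t,s)) dt` (avk 1 and substitution), Cauchy-Schwarz: `(∫_0^r t v₂ dt)² ≤ (r²/2) ∫_0^r t v₂² dt ≤ r² ∫_0^r t v₂² dt`.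
(Also directly: `Ff v (r,s) = ∫_0^r t v₂(mk (t,s)) dt` from the first two facts.)
-/
import Pool.Agent.H94.WL.Cy
import Pool.Agent.H94.WL.Fa

set_option autoImplicit false

open Set Filter Topology MeasureTheory
open scoped ContDiff

namespace Pool.Agent.H94.WL

open Pool.Agent.H16 Pool.Agent.H87.NS Pool.Agent.H72.CC Pool.Agent.H16.TU

private noncomputable def Fw_L : ℝ × ℝ →L[ℝ] E3 :=
  (ContinuousLinearMap.fst ℝ ℝ ℝ).smulRight (e 0) + (ContinuousLinearMap.snd ℝ ℝ ℝ).smulRight (e 2)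

private theorem Fw_mk : mk = fun y => Fw_L y := by
  funext y
  apply ext3
  · show y.1 = (y.1 • (e 0 : E3) + y.2 • (e 2 : E3)) 0
    simp [e_apply]
  · show (0 : ℝ) = (y.1 • (e 0 : E3) + y.2 • (e 2 : E3)) 1
    simp [e_apply]
  · show y.2 = (y.1 • (e 0 : E3) + y.2 • (e 2 : E3)) 2
    simp [e_apply]

private theorem Fw_L1 : Fw_L (1, 0) = e 0 := by
  show (1 : ℝ) • (e 0 : E3) + (0 : ℝ) • (e 2 : E3) = e 0
  rw [one_smul, zero_smul, add_zero]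

private theorem Fw_L2 : Fw_L (0, 1) = e 2 := by
  show (0 : ℝ) • (e 0 : E3) + (1 : ℝ) • (e 2 : E3) = e 2
  rw [one_smul, zero_smul, zero_add]

private theorem Fw_mks : ContDiff ℝ ∞ mk := by
  rw [Fw_mk]
  exact Fw_L.contDiff

private theorem Fw_mkd (y : ℝ × ℝ) : HasFDerivAt mk Fw_L y := by
  rw [Fw_mk]
  exact Fw_L.hasFDerivAt

private theorem Fw_d {v : E3 → E3} (h : AxF v) (y : ℝ × ℝ) :
    HasFDerivAt (Ff v) (y.1 ^ 2 • ((fderiv ℝ (sP v) (mk y)).comp Fw_L) +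
      sP v (mk y) • ((2 * y.1) • ContinuousLinearMap.fst ℝ ℝ ℝ)) y := by
  have h1 : HasFDerivAt (sP v) (fderiv ℝ (sP v) (mk y)) (mk y) :=
    (Psi_diff (sP_smooth h) (mk y)).hasFDerivAt
  have h2 : HasFDerivAt (fun y => sP v (mk y)) ((fderiv ℝ (sP v) (mk y)).comp Fw_L) y :=
    h1.comp y (Fw_mkd y)
  have h3 : HasFDerivAt (fun y : ℝ × ℝ => y.1 ^ 2)
      ((2 * y.1) • ContinuousLinearMap.fst ℝ ℝ ℝ) y := by
    have h4 : HasFDerivAt (fun y : ℝ × ℝ => y.1) (ContinuousLinearMap.fst ℝ ℝ ℝ) y :=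
      hasFDerivAt_fst
    have h5 := h4.pow 2
    refine h5.congr_fderiv ?_
    ext <;> simp
  exact h3.mul h2

private theorem Fw_s {v : E3 → E3} (h : AxF v) : ContDiff ℝ ∞ (Ff v) :=
  (contDiff_fst.pow 2).mul ((sP_smooth h).comp Fw_mks)

private theorem Fw_1 {v : E3 → E3} (h : AxF v) (y : ℝ × ℝ) :
    fderiv ℝ (Ff v) y (1, 0) = y.1 * v (mk y) 2 := by
  rw [(Fw_d h y).fderiv]
  show y.1 ^ 2 * fderiv ℝ (sP v) (mk y) (Fw_L (1, 0)) + sP v (mk y) * ((2 * y.1) * 1) = _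
  rw [Fw_L1, sP_two h (mk y)]
  have h1 : rdr (sP v) (mk y) = y.1 * fderiv ℝ (sP v) (mk y) (e 0) := by
    show y.1 * fderiv ℝ (sP v) (mk y) (e 0) + 0 * fderiv ℝ (sP v) (mk y) (e 1) = _
    rw [zero_mul, add_zero]
  rw [h1]
  ring

private theorem Fw_2 {v : E3 → E3} (h : AxF v) (y : ℝ × ℝ) :
    fderiv ℝ (Ff v) y (0, 1) = -(y.1 ^ 2 * sW v (mk y)) := by
  rw [(Fw_d h y).fderiv]
  show y.1 ^ 2 * fderiv ℝ (sP v) (mk y) (Fw_L (0, 1)) + sP v (mk y) * ((2 * y.1) * 0) = _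
  rw [Fw_L2, sW_sP h (mk y)]
  show y.1 ^ 2 * fderiv ℝ (sP v) (mk y) (e 2) + sP v (mk y) * ((2 * y.1) * 0) =
    -(y.1 ^ 2 * -(fderiv ℝ (sP v) (mk y) (e 2)))
  ring

private theorem Fw_c {v : E3 → E3} (h : AxF v) (s : ℝ) :
    Continuous fun t : ℝ => v (mk (t, s)) 2 :=
  (Psi_v2 h).continuous.comp (Fw_mks.continuous.comp (continuous_id.prodMk continuous_const))

private theorem Fw_3 {v : E3 → E3} (h : AxF v) (y : ℝ × ℝ) :
    Ff v y = ∫ t in (0:ℝ)..y.1, t * v (mk (t, y.2)) 2 := by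
  have h1 : ∀ t ∈ uIcc (0 : ℝ) y.1,
      HasDerivAt (fun t => Ff v (t, y.2)) (t * v (mk (t, y.2)) 2) t := by
    intro t _
    have h2 : HasFDerivAt (Ff v) (fderiv ℝ (Ff v) (t, y.2)) (t, y.2) :=
      ((Fw_s h).differentiable (by simp) (t, y.2)).hasFDerivAt
    have h3 : HasDerivAt (fun t : ℝ => (t, y.2)) ((1 : ℝ), (0 : ℝ)) t :=
      (hasDerivAt_id t).prodMk (hasDerivAt_const t y.2)
    have h4 := h2.comp_hasDerivAt t h3
    rw [Fw_1 h] at h4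
    exact h4
  have h5 : IntervalIntegrable (fun t => t * v (mk (t, y.2)) 2) volume 0 y.1 :=
    (continuous_id.mul (Fw_c h y.2)).intervalIntegrable 0 y.1
  rw [intervalIntegral.integral_eq_sub_of_hasDerivAt h1 h5]
  have h6 : Ff v (0, y.2) = 0 := by
    show (0 : ℝ) ^ 2 * _ = 0
    ring
  rw [h6, sub_zero]

theorem Ff_f {v : E3 → E3} (h : AxF v) : ContDiff ℝ ∞ (Ff v) ∧ ∀ y : ℝ × ℝ, fderiv ℝ (Ff v) y (1, 0) = y.1 * v (mk y) 2 ∧
    fderiv ℝ (Ff v) y (0, 1) = -(y.1 ^ 2 * sW v (mk y)) ∧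
    Ff v y = ∫ t in (0:ℝ)..y.1, t * v (mk (t, y.2)) 2 :=
  ⟨Fw_s h, fun y => ⟨Fw_1 h y, Fw_2 h y, Fw_3 h y⟩⟩

theorem Ff_c {v : E3 → E3} (h : AxF v) {y : ℝ × ℝ} (hy : 0 ≤ y.1) :
    Ff v y ^ 2 ≤ y.1 ^ 2 * ∫ t in (0:ℝ)..y.1, t * v (mk (t, y.2)) 2 ^ 2 := by
  rcases hy.eq_or_lt with h0 | h0
  · have h1 : Ff v y = 0 := by
      show y.1 ^ 2 * _ = 0
      rw [← h0]
      ring
    rw [h1, ← h0]
    simp
  have hF := Fw_3 h y
  obtain ⟨r, hr⟩ : ∃ r, r = y.1 := ⟨_, rfl⟩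
  obtain ⟨g, hg⟩ : ∃ g : ℝ → ℝ, g = fun t => v (mk (t, y.2)) 2 := ⟨_, rfl⟩
  have hgc : Continuous g := by
    rw [hg]
    exact Fw_c h y.2
  obtain ⟨F, hFd⟩ : ∃ F, F = Ff v y := ⟨_, rfl⟩
  have hF' : F = ∫ t in (0:ℝ)..r, t * g t := by
    rw [hFd, hF, hr, hg]
  have hgoal : F ^ 2 ≤ r ^ 2 * ∫ t in (0:ℝ)..r, t * g t ^ 2 := by
    have hr0 : 0 < r := by
      rw [hr]
      exact h0
    obtain ⟨c, hc⟩ : ∃ c, c = 2 * F / r ^ 2 := ⟨_, rfl⟩
    have h1 : 0 ≤ ∫ t in (0:ℝ)..r, t * (g t - c) ^ 2 := by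
      refine intervalIntegral.integral_nonneg hr0.le fun t ht => ?_
      exact mul_nonneg ht.1 (sq_nonneg _)
    have i1 : IntervalIntegrable (fun t => t * g t ^ 2) volume 0 r :=
      (continuous_id.mul (hgc.pow 2)).intervalIntegrable 0 r
    have i2 : IntervalIntegrable (fun t => 2 * c * (t * g t)) volume 0 r :=
      (continuous_const.mul (continuous_id.mul hgc)).intervalIntegrable 0 r
    have i3 : IntervalIntegrable (fun t : ℝ => c ^ 2 * t) volume 0 r :=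
      (continuous_const.mul continuous_id).intervalIntegrable 0 r
    have h2 : ∫ t in (0:ℝ)..r, t * (g t - c) ^ 2 =
        (∫ t in (0:ℝ)..r, t * g t ^ 2) - 2 * c * (∫ t in (0:ℝ)..r, t * g t) +
          c ^ 2 * (r ^ 2 / 2) := by
      have h3 : ∫ t in (0:ℝ)..r, t * (g t - c) ^ 2 =
          ∫ t in (0:ℝ)..r, ((t * g t ^ 2 - 2 * c * (t * g t)) + c ^ 2 * t) := by
        refine intervalIntegral.integral_congr fun t _ => ?_
        show t * (g t - c) ^ 2 = (t * g t ^ 2 - 2 * c * (t * g t)) + c ^ 2 * t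
        ring
      rw [h3, intervalIntegral.integral_add (i1.sub i2) i3, intervalIntegral.integral_sub i1 i2,
        intervalIntegral.integral_const_mul, intervalIntegral.integral_const_mul, integral_id]
      ring
    rw [h2, ← hF', hc] at h1
    have h4 : (∫ t in (0:ℝ)..r, t * g t ^ 2) - 2 * (2 * F / r ^ 2) * F +
        (2 * F / r ^ 2) ^ 2 * (r ^ 2 / 2) =
        (∫ t in (0:ℝ)..r, t * g t ^ 2) - 2 * F ^ 2 / r ^ 2 := by
      field_simp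
      ring
    rw [h4] at h1
    have h5 : 2 * F ^ 2 ≤ r ^ 2 * ∫ t in (0:ℝ)..r, t * g t ^ 2 := by
      have h6 : 2 * F ^ 2 / r ^ 2 ≤ ∫ t in (0:ℝ)..r, t * g t ^ 2 := by linarith
      rw [div_le_iff₀ (by positivity)] at h6
      linarith
    nlinarith [sq_nonneg F]
  rw [hFd, hr, hg] at hgoal
  exact hgoal

end Pool.Agent.H94.WL
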