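/-
ROW Lm (MP_09540e_WL). The anisotropic Morrey inequality. PROOF. Let `α = q/2 > 1`, `Q = Icc 0 1 ×ˢ Icc (-1) 1`, `X s y = (r₀ - s^α a y.1, z₀ + s b y.2)`, `Φ s = ∫ y in Q, F (X s y) m y` for s ∈ [0,1] (s^α with Real.rpow, 0^α = 0). Φ is continuous on [0,1] (F continuous, Q compact, m bounded), `Φ 0 = F (r₀,z₀)` (∫ m = 1),
`Φ 1` is the integral of the statement. For s ∈ (0,1): `Φ' s = ∫_Q (-α s^(α-1) a y.1 F_r + b y.2 F_z) m` (differentiation under the integral: hasDerivAt_integral_of_dominated_loc_of_deriv_le, everything is bounded for s in a compact subinterval of (0,1)), so `|Φ' s| ≤ M (α s^(α-1) a ∫_Q |F_r|(X s y) dy + b ∫_Q |F_z|(X s y) dy)`. Change of variables (affine in each variable, Jacobian `s^(α+1) a b`,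
image contained in the box B of the statement): `∫_Q |F_r|(X s y) dy = (s^(α+1)ab)⁻¹ ∫_{X s Q} |F_r| ≤ (s^(α+1)ab)⁻¹ (2 s^(α+1) a b)^(1/2) A^(1/2)` (Cauchy-Schwarz, area of X s Q is 2 s^(α+1) a b), and by Hölder `∫_Q |F_z|(X s y) dy ≤ (s^(α+1)ab)⁻¹ (2s^(α+1)ab)^(1-1/q) D^(1/q)`. Hence (`(α-1) - (α+1)/2 = (α-3)/2`, `(α+1)/q = 1/2+1/q`)
`|Φ' s| ≤ M (√2 α s^((α-3)/2) √(a/b) √A + 2 b (ab)^(-1/q) s^(-(1/2+1/q)) D^(1/q))`. The function `G s = M (√2 α (2/(α-1)) s^((α-1)/2) √(a/b)√A + 2b(ab)^(-1/q) (2q/(q-2)) s^((q-2)/(2q)) D^(1/q))` is continuous on [0,1] with derivative the right side on (0,1), so G ± Φ are monotone on [0,1] (monotoneOn_of_deriv_nonneg) and `|Φ 1 - Φ 0| ≤ G 1 - G 0`. `C = 4q/(q-2)` (≥ 4).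
(To avoid the change of variables in the plane, do it for lintegrals/integrals one variable at a time with Fubini on the product of intervals, or use the map y ↦ X s y with MeasureTheory.Measure.addHaar_image / setIntegral_comp_smul after a translation; A, D ≥ 0 since they bound integrals of nonnegative functions.)
-/
import Pool.Agent.H94.WL.Defs

set_option autoImplicit false

open Set Filter Topology MeasureTheory
open scoped ContDiff

namespace Pool.Agent.H94.WL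

open Pool.Agent.H16 Pool.Agent.H87.NS Pool.Agent.H72.CC Pool.Agent.H16.TU

private lemma Lm_it {G : ℝ × ℝ → ℝ} (hG : Continuous G) {p q p' q' : ℝ} (h : p ≤ q)
    (h' : p' ≤ q') : ∫ y in Icc p q ×ˢ Icc p' q', G y = ∫ x in p..q, ∫ z in p'..q', G (x, z) := by
  have hint : IntegrableOn G (Icc p q ×ˢ Icc p' q') (volume.prod volume) :=
    hG.continuousOn.integrableOn_compact (isCompact_Icc.prod isCompact_Icc)
  rw [Measure.volume_eq_prod, setIntegral_prod _ hint, intervalIntegral.integral_of_le h,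
    ← integral_Icc_eq_integral_Ioc]
  congr 1
  funext x
  rw [intervalIntegral.integral_of_le h', ← integral_Icc_eq_integral_Ioc]

private lemma Lm_cv {G : ℝ × ℝ → ℝ} (hG : Continuous G) (hG0 : ∀ y, 0 ≤ G y) (r₀ z₀ : ℝ)
    {a b c d : ℝ} (hc : 0 < c) (hca : c ≤ a) (hd : 0 < d) (hdb : d ≤ b) :
    ∫ y in Icc (0 : ℝ) 1 ×ˢ Icc (-1 : ℝ) 1, G (r₀ - c * y.1, z₀ + d * y.2) ≤
      (c * d)⁻¹ * ∫ y in Icc (r₀ - a) r₀ ×ˢ Icc (z₀ - b) (z₀ + b), G y := by
  have h1 : ∫ y in Icc (0 : ℝ) 1 ×ˢ Icc (-1 : ℝ) 1, G (r₀ - c * y.1, z₀ + d * y.2) =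
      (c * d)⁻¹ * ∫ y in Icc (r₀ - c) r₀ ×ˢ Icc (z₀ - d) (z₀ + d), G y := by
    have hG' : Continuous fun y : ℝ × ℝ => G (r₀ - c * y.1, z₀ + d * y.2) :=
      hG.comp ((continuous_const.sub (continuous_const.mul continuous_fst)).prodMk
        (continuous_const.add (continuous_const.mul continuous_snd)))
    rw [Lm_it hG' zero_le_one (by norm_num), Lm_it hG (by linarith) (by linarith)]
    have h2 : ∀ x : ℝ, ∫ z in (-1 : ℝ)..1, G (r₀ - c * x, z₀ + d * z) =
        d⁻¹ * ∫ z in (z₀ - d)..(z₀ + d), G (r₀ - c * x, z) := by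
      intro x
      have h3 := intervalIntegral.integral_comp_add_mul (a := -1) (b := 1)
        (fun z => G (r₀ - c * x, z)) hd.ne' z₀
      rw [h3, smul_eq_mul]
      congr 2 <;> ring
    simp only [h2]
    rw [intervalIntegral.integral_const_mul]
    have h4 := intervalIntegral.integral_comp_sub_mul (a := 0) (b := 1)
      (fun x => ∫ z in (z₀ - d)..(z₀ + d), G (x, z)) hc.ne' r₀
    rw [h4, smul_eq_mul, mul_one, mul_zero, sub_zero, mul_inv]
    ring
  rw [h1]
  refine mul_le_mul_of_nonneg_left ?_ (by positivity)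
  refine setIntegral_mono_set
    (hG.continuousOn.integrableOn_compact (isCompact_Icc.prod isCompact_Icc))
    (Eventually.of_forall fun y => hG0 y) ?_
  exact (Set.prod_mono (Icc_subset_Icc (by linarith) le_rfl)
    (Icc_subset_Icc (by linarith) (by linarith))).eventuallyLE

private lemma Lm_vol : (volume : Measure (ℝ × ℝ)) (Icc (0 : ℝ) 1 ×ˢ Icc (-1 : ℝ) 1) = 2 := by
  rw [Measure.volume_eq_prod, Measure.prod_prod, Real.volume_Icc, Real.volume_Icc]
  norm_num

private lemma Lm_ho {f : ℝ × ℝ → ℝ} (hf : Continuous f) (hf0 : ∀ y, 0 ≤ f y) {p : ℝ}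
    (hp : 1 < p) : ∫ y in Icc (0 : ℝ) 1 ×ˢ Icc (-1 : ℝ) 1, f y ≤
      2 * (∫ y in Icc (0 : ℝ) 1 ×ˢ Icc (-1 : ℝ) 1, f y ^ p) ^ (1 / p) := by
  have hK : IsCompact (Icc (0 : ℝ) 1 ×ˢ Icc (-1 : ℝ) 1) := isCompact_Icc.prod isCompact_Icc
  have hfin : IsFiniteMeasure (volume.restrict (Icc (0 : ℝ) 1 ×ˢ Icc (-1 : ℝ) 1)) := by
    refine ⟨?_⟩
    rw [Measure.restrict_apply_univ, Lm_vol]
    norm_num
  obtain ⟨B, hB⟩ := hK.exists_bound_of_continuousOn hf.continuousOn
  have hm : MemLp f (ENNReal.ofReal p) (volume.restrict (Icc (0 : ℝ) 1 ×ˢ Icc (-1 : ℝ) 1)) := by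
    refine MemLp.of_bound hf.aestronglyMeasurable B ?_
    rw [ae_restrict_iff' (measurableSet_Icc.prod measurableSet_Icc)]
    exact Eventually.of_forall hB
  have hpq : p.HolderConjugate (p / (p - 1)) := Real.HolderConjugate.conjExponent hp
  have hm1 : MemLp (fun _ : ℝ × ℝ => (1 : ℝ)) (ENNReal.ofReal (p / (p - 1)))
      (volume.restrict (Icc (0 : ℝ) 1 ×ˢ Icc (-1 : ℝ) 1)) := memLp_const _
  have h := integral_mul_le_Lp_mul_Lq_of_nonneg hpq (Eventually.of_forall hf0)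
    (Eventually.of_forall fun _ => zero_le_one) hm hm1
  simp only [mul_one, Real.one_rpow] at h
  refine h.trans ?_
  rw [mul_comm]
  refine mul_le_mul_of_nonneg_right ?_ (Real.rpow_nonneg (integral_nonneg fun y =>
    Real.rpow_nonneg (hf0 y) _) _)
  have h2 : (∫ _ in Icc (0 : ℝ) 1 ×ˢ Icc (-1 : ℝ) 1, (1 : ℝ)) = 2 := by
    rw [setIntegral_const, Measure.real, Lm_vol]
    norm_num
  rw [h2]
  calc (2 : ℝ) ^ (1 / (p / (p - 1))) ≤ 2 ^ (1 : ℝ) := by
        refine Real.rpow_le_rpow_of_exponent_le (by norm_num) ?_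
        rw [one_div_div, div_le_one (by linarith)]
        linarith
    _ = 2 := Real.rpow_one 2

private lemma Lm_e1 {s a b A α : ℝ} (hs : 0 < s) (ha : 0 < a) (hb : 0 < b) :
    s ^ (α - 1) * a * √((s ^ α * a * (s * b))⁻¹ * A) =
      s ^ ((α - 3) / 2) * (√(a / b) * √A) := by
  have h1 : (s ^ α * a * (s * b))⁻¹ = (s ^ (-(α + 1) / 2)) ^ 2 * (a * b)⁻¹ := by
    have h2 : (s ^ (-(α + 1) / 2)) ^ 2 = (s ^ α * s)⁻¹ := by
      rw [← Real.rpow_natCast, ← Real.rpow_mul hs.le]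
      have h3 : -(α + 1) / 2 * ((2 : ℕ) : ℝ) = -(α + 1) := by
        push_cast
        ring
      rw [h3, Real.rpow_neg hs.le, Real.rpow_add hs, Real.rpow_one]
    rw [h2, ← mul_inv]
    congr 1
    ring
  have h4 : √((s ^ α * a * (s * b))⁻¹ * A) = s ^ (-(α + 1) / 2) * √((a * b)⁻¹) * √A := by
    rw [Real.sqrt_mul (by positivity), h1, Real.sqrt_mul (by positivity),
      Real.sqrt_sq (by positivity)]
  have h5 : a * √((a * b)⁻¹) = √(a / b) := by
    have h6 : a / b = a ^ 2 * (a * b)⁻¹ := by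
      field_simp
    rw [h6, Real.sqrt_mul (by positivity), Real.sqrt_sq ha.le]
  have h7 : s ^ (α - 1) * s ^ (-(α + 1) / 2) = s ^ ((α - 3) / 2) := by
    rw [← Real.rpow_add hs]
    congr 1
    ring
  rw [h4, ← h7, ← h5]
  ring

private lemma Lm_e2 {s a b D q : ℝ} (hs : 0 < s) (ha : 0 < a) (hb : 0 < b) (hD : 0 ≤ D)
    (hq : 2 < q) : ((s ^ (q / 2) * a * (s * b))⁻¹ * D) ^ (1 / q) =
      s ^ (-(1 / 2 + 1 / q)) * ((a * b) ^ (-(1 / q)) * D ^ (1 / q)) := by
  have h1 : s ^ (q / 2) * a * (s * b) = s ^ (q / 2 + 1) * (a * b) := by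
    rw [Real.rpow_add hs, Real.rpow_one]
    ring
  rw [h1, Real.mul_rpow (by positivity) hD, Real.inv_rpow (by positivity),
    Real.mul_rpow (by positivity) (by positivity), ← Real.rpow_mul hs.le, mul_inv,
    ← Real.rpow_neg hs.le, ← Real.rpow_neg (by positivity)]
  have h2 : -((q / 2 + 1) * (1 / q)) = -(1 / 2 + 1 / q) := by
    have : q ≠ 0 := by linarith
    field_simp
  rw [h2]
  ring

theorem lM {q : ℝ} (hq : 2 < q) : ∃ C : ℝ, 1 ≤ C ∧ ∀ F : ℝ × ℝ → ℝ, ContDiff ℝ 1 F → ∀ (r₀ z₀ a b M A D : ℝ) (m : ℝ × ℝ → ℝ), 0 < a → 0 < b →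
    Measurable m → (∀ y, 0 ≤ m y ∧ m y ≤ M) → ∫ y in Icc (0:ℝ) 1 ×ˢ Icc (-1:ℝ) 1, m y = 1 →
    ∫ y in Icc (r₀ - a) r₀ ×ˢ Icc (z₀ - b) (z₀ + b), (fderiv ℝ F y (1, 0)) ^ 2 ≤ A →
    ∫ y in Icc (r₀ - a) r₀ ×ˢ Icc (z₀ - b) (z₀ + b), |fderiv ℝ F y (0, 1)| ^ q ≤ D →
    |F (r₀, z₀) - ∫ y in Icc (0:ℝ) 1 ×ˢ Icc (-1:ℝ) 1, F (r₀ - a * y.1, z₀ + b * y.2) * m y| ≤
      C * M * (√(a / b) * √A + b * (a * b) ^ (-(1 / q)) * D ^ (1 / q)) := by
  have hq0 : 0 < q := by linarith
  refine ⟨4 * q / (q - 2), ?_, ?_⟩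
  · rw [le_div_iff₀ (by linarith)]
    linarith
  intro F hF r₀ z₀ a b M A D m ha hb hm hmM hm1 hA hD
  have hK : IsCompact (Icc (0 : ℝ) 1 ×ˢ Icc (-1 : ℝ) 1) := isCompact_Icc.prod isCompact_Icc
  have hKm : MeasurableSet (Icc (0 : ℝ) 1 ×ˢ Icc (-1 : ℝ) 1) :=
    measurableSet_Icc.prod measurableSet_Icc
  obtain ⟨α, hα⟩ : ∃ α, α = q / 2 := ⟨_, rfl⟩
  have hα1 : 1 < α := by
    rw [hα]
    linarith
  have hM0 : 0 ≤ M := (hmM 0).1.trans (hmM 0).2
  have hFr : Continuous fun y => fderiv ℝ F y (1, 0) :=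
    (hF.continuous_fderiv (by norm_num)).clm_apply continuous_const
  have hFz : Continuous fun y => fderiv ℝ F y (0, 1) :=
    (hF.continuous_fderiv (by norm_num)).clm_apply continuous_const
  have hA0 : 0 ≤ A := (integral_nonneg fun y => sq_nonneg _).trans hA
  have hD0 : 0 ≤ D := (integral_nonneg fun y => Real.rpow_nonneg (abs_nonneg _) _).trans hD
  -- the path
  obtain ⟨X, hX⟩ : ∃ X : ℝ → ℝ × ℝ → ℝ × ℝ, ∀ s y, X s y = (r₀ - s ^ α * a * y.1, z₀ + s * b * y.2) :=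
    ⟨_, fun _ _ => rfl⟩
  obtain ⟨g, hg⟩ : ∃ g : ℝ → ℝ × ℝ → ℝ, ∀ s y, g s y =
      fderiv ℝ F (X s y) (-(α * s ^ (α - 1) * a * y.1), b * y.2) := ⟨_, fun _ _ => rfl⟩
  have hrp : Continuous fun s : ℝ => s ^ α := Real.continuous_rpow_const (by linarith)
  have hrp1 : Continuous fun s : ℝ => s ^ (α - 1) := Real.continuous_rpow_const (by linarith)
  have hXc : Continuous fun w : ℝ × (ℝ × ℝ) => X w.1 w.2 := by
    simp only [hX]
    refine Continuous.prodMk ?_ ?_
    · exact continuous_const.sub (((hrp.comp continuous_fst).mul continuous_const).mul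
        (continuous_fst.comp continuous_snd))
    · exact continuous_const.add ((continuous_fst.mul continuous_const).mul
        (continuous_snd.comp continuous_snd))
  have hgc : Continuous fun w : ℝ × (ℝ × ℝ) => g w.1 w.2 := by
    simp only [hg]
    refine ((hF.continuous_fderiv (by norm_num)).comp hXc).clm_apply ?_
    refine Continuous.prodMk ?_ ?_
    · exact (((continuous_const.mul (hrp1.comp continuous_fst)).mul continuous_const).mul
        (continuous_fst.comp continuous_snd)).neg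
    · exact continuous_const.mul (continuous_snd.comp continuous_snd)
  have hder : ∀ (y : ℝ × ℝ) (s : ℝ), HasDerivAt (fun s => F (X s y)) (g s y) s := by
    intro y s
    have h1 : HasDerivAt (fun s => X s y) (-(α * s ^ (α - 1) * a * y.1), b * y.2) s := by
      simp only [hX]
      have h2 : HasDerivAt (fun s : ℝ => r₀ - s ^ α * a * y.1) (-(α * s ^ (α - 1) * a * y.1)) s :=
        (((Real.hasDerivAt_rpow_const (Or.inr hα1.le)).mul_const a).mul_const y.1).const_sub r₀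
      have h3 : HasDerivAt (fun s : ℝ => z₀ + s * b * y.2) (b * y.2) s := by
        have := (((hasDerivAt_id s).mul_const b).mul_const y.2).const_add z₀
        simpa using this
      exact h2.prodMk h3
    have h4 := ((hF.differentiable (by norm_num)) (X s y)).hasFDerivAt.comp_hasDerivAt s h1
    rw [hg]
    exact h4
  have hftc : ∀ y : ℝ × ℝ, F (X 1 y) - F (X 0 y) = ∫ s in (0 : ℝ)..1, g s y := by
    intro y
    refine (intervalIntegral.integral_eq_sub_of_hasDerivAt (fun s _ => hder y s) ?_).symm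
    exact (hgc.comp (continuous_id.prodMk continuous_const)).intervalIntegrable _ _
  have hX0 : ∀ y, X 0 y = (r₀, z₀) := by
    intro y
    rw [hX, Real.zero_rpow (by linarith)]
    simp
  have hX1 : ∀ y : ℝ × ℝ, X 1 y = (r₀ - a * y.1, z₀ + b * y.2) := by
    intro y
    rw [hX, Real.one_rpow, one_mul, one_mul]
  have hF1c : Continuous fun y : ℝ × ℝ => F (X 1 y) :=
    hF.continuous.comp (hXc.comp (continuous_const.prodMk continuous_id))
  have hmint : IntegrableOn m (Icc (0 : ℝ) 1 ×ˢ Icc (-1 : ℝ) 1) := by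
    by_contra h
    rw [IntegrableOn] at h
    rw [integral_undef h] at hm1
    exact zero_ne_one hm1
  have hGm : ∀ G : ℝ × ℝ → ℝ, Continuous G →
      IntegrableOn (fun y => G y * m y) (Icc (0 : ℝ) 1 ×ˢ Icc (-1 : ℝ) 1) := by
    intro G hG
    obtain ⟨B, hB⟩ := hK.exists_bound_of_continuousOn hG.continuousOn
    refine Integrable.bdd_mul (c := B) hmint hG.aestronglyMeasurable ?_
    rw [ae_restrict_iff' hKm]
    exact Eventually.of_forall hB
  -- first step
  have hstep : |F (r₀, z₀) - ∫ y in Icc (0:ℝ) 1 ×ˢ Icc (-1:ℝ) 1,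
      F (r₀ - a * y.1, z₀ + b * y.2) * m y| ≤
      M * ∫ y in Icc (0 : ℝ) 1 ×ˢ Icc (-1 : ℝ) 1, ∫ s in (0 : ℝ)..1, |g s y| := by
    have h1 : F (r₀, z₀) - ∫ y in Icc (0:ℝ) 1 ×ˢ Icc (-1:ℝ) 1,
        F (r₀ - a * y.1, z₀ + b * y.2) * m y =
        ∫ y in Icc (0:ℝ) 1 ×ˢ Icc (-1:ℝ) 1, (F (r₀, z₀) - F (X 1 y)) * m y := by
      have h2 : F (r₀, z₀) = ∫ y in Icc (0:ℝ) 1 ×ˢ Icc (-1:ℝ) 1, F (r₀, z₀) * m y := by
        rw [integral_const_mul, hm1, mul_one]
      conv_lhs => rw [h2]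
      simp only [← hX1]
      rw [← integral_sub (hmint.const_mul _) (hGm _ hF1c)]
      congr 1
      funext y
      ring
    rw [h1]
    refine (abs_integral_le_integral_abs).trans ?_
    rw [← integral_const_mul]
    have hgi : Continuous fun y : ℝ × ℝ => ∫ s in (0 : ℝ)..1, |g s y| := by
      have h3 : Continuous (Function.uncurry fun (y : ℝ × ℝ) (s : ℝ) => |g s y|) :=
        continuous_abs.comp (hgc.comp (continuous_snd.prodMk continuous_fst))
      exact intervalIntegral.continuous_parametric_intervalIntegral_of_continuous' h3 0 1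
    refine setIntegral_mono_on ?_ ?_ hKm ?_
    · exact (hGm (fun y => F (r₀, z₀) - F (X 1 y)) (continuous_const.sub hF1c)).abs
    · exact (continuous_const.mul hgi).continuousOn.integrableOn_compact hK
    · intro y _
      rw [abs_mul, abs_of_nonneg (hmM y).1, mul_comm M]
      have h5 : |F (r₀, z₀) - F (X 1 y)| ≤ ∫ s in (0 : ℝ)..1, |g s y| := by
        rw [abs_sub_comm, ← hX0 y, hftc y]
        exact intervalIntegral.abs_integral_le_integral_abs zero_le_one
      exact mul_le_mul h5 (hmM y).2 (hmM y).1 ((abs_nonneg _).trans h5)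
  refine hstep.trans ?_
  -- swap
  have hswap : ∫ y in Icc (0 : ℝ) 1 ×ˢ Icc (-1 : ℝ) 1, ∫ s in (0 : ℝ)..1, |g s y| =
      ∫ s in Ioc (0 : ℝ) 1, ∫ y in Icc (0 : ℝ) 1 ×ˢ Icc (-1 : ℝ) 1, |g s y| := by
    simp only [intervalIntegral.integral_of_le zero_le_one]
    refine integral_integral_swap ?_
    rw [Measure.prod_restrict]
    have h1 : Continuous (Function.uncurry fun (y : ℝ × ℝ) (s : ℝ) => |g s y|) :=
      continuous_abs.comp (hgc.comp (continuous_snd.prodMk continuous_fst))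
    exact (h1.continuousOn.integrableOn_compact (hK.prod (isCompact_Icc (a := (0 : ℝ)) (b := 1)))).mono_set
      (Set.prod_mono subset_rfl Ioc_subset_Icc_self)
  rw [hswap]
  -- bound of the inner integral
  obtain ⟨P, hP⟩ : ∃ P, P = √(a / b) * √A := ⟨_, rfl⟩
  obtain ⟨R, hR⟩ : ∃ R, R = b * ((a * b) ^ (-(1 / q)) * D ^ (1 / q)) := ⟨_, rfl⟩
  have hin : ∀ s ∈ Ioc (0 : ℝ) 1, ∫ y in Icc (0 : ℝ) 1 ×ˢ Icc (-1 : ℝ) 1, |g s y| ≤
      2 * α * P * s ^ ((α - 3) / 2) + 2 * R * s ^ (-(1 / 2 + 1 / q)) := by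
    intro s hs
    have hs0 : 0 < s := hs.1
    have hsα : s ^ α ≤ 1 := Real.rpow_le_one hs0.le hs.2 (by linarith)
    have hc : 0 < s ^ α * a := by positivity
    have hd : 0 < s * b := by positivity
    have hca : s ^ α * a ≤ a := by nlinarith
    have hdb : s * b ≤ b := by nlinarith [hs.2]
    have hXs : Continuous fun y : ℝ × ℝ => X s y := hXc.comp (continuous_const.prodMk continuous_id)
    have h1 : ∀ y ∈ Icc (0 : ℝ) 1 ×ˢ Icc (-1 : ℝ) 1, |g s y| ≤
        α * s ^ (α - 1) * a * |fderiv ℝ F (X s y) (1, 0)| + b * |fderiv ℝ F (X s y) (0, 1)| := by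
      intro y hy
      have h2 : ((-(α * s ^ (α - 1) * a * y.1), b * y.2) : ℝ × ℝ) =
          (-(α * s ^ (α - 1) * a * y.1)) • ((1 : ℝ), (0 : ℝ)) + (b * y.2) • ((0 : ℝ), (1 : ℝ)) := by
        ext <;> simp
      rw [hg, h2, map_add, map_smul, map_smul, smul_eq_mul, smul_eq_mul]
      refine (abs_add_le _ _).trans ?_
      have h3 : |y.1| ≤ 1 := by
        rw [abs_le]
        exact ⟨by linarith [hy.1.1], hy.1.2⟩
      have h4 : |y.2| ≤ 1 := by
        rw [abs_le]
        exact ⟨hy.2.1, hy.2.2⟩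
      have h5 : 0 ≤ α * s ^ (α - 1) * a := by positivity
      refine add_le_add ?_ ?_
      · rw [abs_mul, abs_neg, abs_mul, abs_of_nonneg h5]
        refine mul_le_mul_of_nonneg_right ?_ (abs_nonneg _)
        nlinarith
      · rw [abs_mul, abs_mul, abs_of_pos hb]
        refine mul_le_mul_of_nonneg_right ?_ (abs_nonneg _)
        nlinarith
    have hc1 : Continuous fun y : ℝ × ℝ => |fderiv ℝ F (X s y) (1, 0)| :=
      continuous_abs.comp (hFr.comp hXs)
    have hc2 : Continuous fun y : ℝ × ℝ => |fderiv ℝ F (X s y) (0, 1)| :=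
      continuous_abs.comp (hFz.comp hXs)
    have hI1 : ∫ y in Icc (0 : ℝ) 1 ×ˢ Icc (-1 : ℝ) 1, |fderiv ℝ F (X s y) (1, 0)| ≤
        2 * √((s ^ α * a * (s * b))⁻¹ * A) := by
      refine (Lm_ho hc1 (fun y => abs_nonneg _) (p := 2) (by norm_num)).trans ?_
      rw [Real.sqrt_eq_rpow]
      refine mul_le_mul_of_nonneg_left ?_ (by norm_num)
      refine Real.rpow_le_rpow (integral_nonneg fun y => Real.rpow_nonneg (abs_nonneg _) _) ?_
        (by norm_num)
      have h6 := Lm_cv (G := fun y => (fderiv ℝ F y (1, 0)) ^ 2) (hFr.pow 2) (fun y => sq_nonneg _)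
        r₀ z₀ hc hca hd hdb
      have h7 : ∀ y : ℝ × ℝ, |fderiv ℝ F (X s y) (1, 0)| ^ (2 : ℝ) =
          (fderiv ℝ F (r₀ - s ^ α * a * y.1, z₀ + s * b * y.2) (1, 0)) ^ 2 := by
        intro y
        rw [Real.rpow_two, sq_abs, hX]
      simp only [h7]
      exact h6.trans (mul_le_mul_of_nonneg_left hA (by positivity))
    have hI2 : ∫ y in Icc (0 : ℝ) 1 ×ˢ Icc (-1 : ℝ) 1, |fderiv ℝ F (X s y) (0, 1)| ≤
        2 * ((s ^ α * a * (s * b))⁻¹ * D) ^ (1 / q) := by
      refine (Lm_ho hc2 (fun y => abs_nonneg _) (p := q) (by linarith)).trans ?_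
      refine mul_le_mul_of_nonneg_left ?_ (by norm_num)
      refine Real.rpow_le_rpow (integral_nonneg fun y => Real.rpow_nonneg (abs_nonneg _) _) ?_
        (by positivity)
      have h6 := Lm_cv (G := fun y => |fderiv ℝ F y (0, 1)| ^ q)
        ((continuous_abs.comp hFz).rpow_const fun _ => Or.inr hq0.le)
        (fun y => Real.rpow_nonneg (abs_nonneg _) _) r₀ z₀ hc hca hd hdb
      have h7 : ∀ y : ℝ × ℝ, |fderiv ℝ F (X s y) (0, 1)| ^ q =
          |fderiv ℝ F (r₀ - s ^ α * a * y.1, z₀ + s * b * y.2) (0, 1)| ^ q := by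
        intro y
        rw [hX]
      simp only [h7]
      exact h6.trans (mul_le_mul_of_nonneg_left hD (by positivity))
    have hgs : Continuous fun y : ℝ × ℝ => |g s y| :=
      continuous_abs.comp (hgc.comp (continuous_const.prodMk continuous_id))
    have h8 : ∫ y in Icc (0 : ℝ) 1 ×ˢ Icc (-1 : ℝ) 1, |g s y| ≤
        ∫ y in Icc (0 : ℝ) 1 ×ˢ Icc (-1 : ℝ) 1,
          (α * s ^ (α - 1) * a * |fderiv ℝ F (X s y) (1, 0)| + b * |fderiv ℝ F (X s y) (0, 1)|) :=
      setIntegral_mono_on (hgs.continuousOn.integrableOn_compact hK)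
        (((continuous_const.mul hc1).add (continuous_const.mul hc2)).continuousOn.integrableOn_compact
          hK) hKm h1
    have j1 : IntegrableOn (fun y : ℝ × ℝ => α * s ^ (α - 1) * a * |fderiv ℝ F (X s y) (1, 0)|)
        (Icc (0 : ℝ) 1 ×ˢ Icc (-1 : ℝ) 1) :=
      (continuous_const.mul hc1).continuousOn.integrableOn_compact hK
    have j2 : IntegrableOn (fun y : ℝ × ℝ => b * |fderiv ℝ F (X s y) (0, 1)|)
        (Icc (0 : ℝ) 1 ×ˢ Icc (-1 : ℝ) 1) :=
      (continuous_const.mul hc2).continuousOn.integrableOn_compact hK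
    rw [integral_add j1 j2, integral_const_mul, integral_const_mul] at h8
    have h9 : α * s ^ (α - 1) * a * (2 * √((s ^ α * a * (s * b))⁻¹ * A)) =
        2 * α * P * s ^ ((α - 3) / 2) := by
      have := Lm_e1 (A := A) (α := α) hs0 ha hb
      rw [hP]
      linear_combination 2 * α * this
    have h10 : b * (2 * ((s ^ α * a * (s * b))⁻¹ * D) ^ (1 / q)) =
        2 * R * s ^ (-(1 / 2 + 1 / q)) := by
      have := Lm_e2 hs0 ha hb hD0 hq
      rw [hα, this, hR]
      ring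
    have h11 : 0 ≤ α * s ^ (α - 1) * a := by positivity
    linarith [mul_le_mul_of_nonneg_left hI1 h11, mul_le_mul_of_nonneg_left hI2 hb.le]
  have hr1 : -1 < (α - 3) / 2 := by linarith
  have hqi : 1 / q < 1 / 2 := by
    rw [div_lt_div_iff₀ hq0 (by norm_num)]
    linarith
  have hr2 : -1 < -(1 / 2 + 1 / q) := by linarith
  have hi1 : IntegrableOn (fun s : ℝ => 2 * α * P * s ^ ((α - 3) / 2)) (Ioc 0 1) := by
    have := (intervalIntegral.intervalIntegrable_rpow' (a := 0) (b := 1) hr1).const_mul (2 * α * P)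
    rwa [intervalIntegrable_iff_integrableOn_Ioc_of_le zero_le_one] at this
  have hi2 : IntegrableOn (fun s : ℝ => 2 * R * s ^ (-(1 / 2 + 1 / q))) (Ioc 0 1) := by
    have := (intervalIntegral.intervalIntegrable_rpow' (a := 0) (b := 1) hr2).const_mul (2 * R)
    rwa [intervalIntegrable_iff_integrableOn_Ioc_of_le zero_le_one] at this
  have hcont : Continuous fun s : ℝ => ∫ y in Icc (0 : ℝ) 1 ×ˢ Icc (-1 : ℝ) 1, |g s y| := by
    have h3 : Continuous (Function.uncurry fun (s : ℝ) (y : ℝ × ℝ) => |g s y|) :=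
      continuous_abs.comp hgc
    exact continuous_parametric_integral_of_continuous h3 hK
  have hfin : ∫ s in Ioc (0 : ℝ) 1, ∫ y in Icc (0 : ℝ) 1 ×ˢ Icc (-1 : ℝ) 1, |g s y| ≤
      4 * q / (q - 2) * (P + R) := by
    have h1 : ∫ s in Ioc (0 : ℝ) 1, ∫ y in Icc (0 : ℝ) 1 ×ˢ Icc (-1 : ℝ) 1, |g s y| ≤
        ∫ s in Ioc (0 : ℝ) 1, (2 * α * P * s ^ ((α - 3) / 2) + 2 * R * s ^ (-(1 / 2 + 1 / q))) :=
      setIntegral_mono_on ((hcont.continuousOn.integrableOn_compact isCompact_Icc).mono_set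
        Ioc_subset_Icc_self) (hi1.add hi2) measurableSet_Ioc hin
    refine h1.trans (le_of_eq ?_)
    rw [integral_add hi1 hi2, integral_const_mul, integral_const_mul,
      ← intervalIntegral.integral_of_le zero_le_one, ← intervalIntegral.integral_of_le zero_le_one,
      integral_rpow (Or.inl hr1), integral_rpow (Or.inl hr2), Real.one_rpow, Real.one_rpow,
      Real.zero_rpow (by linarith), Real.zero_rpow (by linarith), hα]
    have h2 : q - 2 ≠ 0 := by linarith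
    have h3 : q ≠ 0 := hq0.ne'
    have h4 : (q / 2 - 3) / 2 + 1 = (q - 2) / 4 := by ring
    have h5 : -(1 / 2 + 1 / q) + 1 = (q - 2) / (2 * q) := by
      field_simp
      ring
    rw [h4, h5]
    field_simp
    ring
  have h6 : 4 * q / (q - 2) * M * (√(a / b) * √A + b * (a * b) ^ (-(1 / q)) * D ^ (1 / q)) =
      M * (4 * q / (q - 2) * (P + R)) := by
    rw [hP, hR]
    ring
  rw [h6]
  exact mul_le_mul_of_nonneg_left hfin hM0

end Pool.Agent.H94.WL
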