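/-
ROW Eg (MP_09540e_WL). The stream function is bounded away from the axis. PROOF. r = rad x, z = x 2, E = ∫‖v‖², F = Ff v (Ff_f), `F (r, z) = r² sP v x` (v_cyl). lM (constant C_q) with r₀ = r, z₀ = z, a = r/2, b = r, m = 1/2 (M = 1/2; the area of Icc 0 1 ×ˢ Icc (-1) 1 is 2), B = Icc (r/2) r ×ˢ Icc (z-r) (z+r).
A: `(fderiv F y (1,0))² = y.1² v₂² ≤ r y.1 v₂(mk y)²` on B, and by box (Cy.lean) `∫_B y.1 v₂(mk y)² = (2π)⁻¹ ∫_{..} v₂² ≤ E/(2π)` (v₂(mk(rad x, x 2)) = v x 2: v_cyl), so `A = r E`. D: `|fderiv F y (0,1)| = y.1² |sW| = y.1 |ur v (mk y)|` (y.1 > 0, mk_f), `y.1^q |ur|^q ≤ r^(q-1) y.1 |ur|^q`; box and the inclusion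
{rad ∈ [r/2, r], |x 2 - z| ≤ r} ⊂ cy (2r) (2r) z: `∫_B ≤ r^(q-1) (2π)⁻¹ ∫_{cy (2r) (2r) z} |ur|^q ≤ r^(q-1) (2π)⁻¹ g(1) (2r)^(2-q) (2r) ≤ g(1) r²` (2^(3-q) ≤ 2) =: D. Then `√(a/b) √A ≤ √(r E)`, `b (ab)^(-1/q) D^(1/q) = r (r²/2)^(-1/q) (g(1) r²)^(1/q) ≤ 2 r g(1)^(1/q)`.
The average: `|∫_Q F (r - a y.1, z + b y.2)/2| ≤ (∫_Q F(..)²/2)^(1/2)` and by Ff_c, for the points of B (first coordinate t' ≤ r): `F² ≤ r² ∫_0^r t v₂(mk(t,s))² dt`, so `∫_Q F(..)²/2 dy ≤ (1/2) ∫_{y₁ ∈ [0,1]} ∫_{y₂ ∈ [-1,1]} r² (∫_0^r t v₂(mk (t, z + r y₂))² dt) = (1/2) r² (1/r) ∫_{z-r}^{z+r} ∫_0^r t v₂² ≤ (r/2) E/(2π) ≤ r E` (box).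
So `r² |sP v x| ≤ √(rE) + (C_q/2)(√(rE) + 2 r g(1)^(1/q))`; divide by r (`√(rE)/r = √(E/r)`). C = 1 + C_q. (g 1 ≥ 0: Mq with A = l.)
-/
import Pool.Agent.H94.WL.Fw
import Pool.Agent.H94.WL.Lm

set_option autoImplicit false

open Set Filter Topology MeasureTheory
open scoped ContDiff

namespace Pool.Agent.H94.WL

open Pool.Agent.H16 Pool.Agent.H87.NS Pool.Agent.H72.CC Pool.Agent.H16.TU

private theorem Eg_it {G : ℝ × ℝ → ℝ} (hG : Continuous G) {p q p' q' : ℝ} (h : p ≤ q)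
    (h' : p' ≤ q') : ∫ y in Icc p q ×ˢ Icc p' q', G y = ∫ x in p..q, ∫ z in p'..q', G (x, z) := by
  have hint : IntegrableOn G (Icc p q ×ˢ Icc p' q') (volume.prod volume) :=
    hG.continuousOn.integrableOn_compact (isCompact_Icc.prod isCompact_Icc)
  rw [Measure.volume_eq_prod, setIntegral_prod _ hint, intervalIntegral.integral_of_le h,
    ← integral_Icc_eq_integral_Ioc]
  congr 1
  funext x
  rw [intervalIntegral.integral_of_le h', ← integral_Icc_eq_integral_Ioc]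

private theorem Eg_its {G : ℝ × ℝ → ℝ} (hG : Continuous G) {p q p' q' : ℝ} (h : p ≤ q)
    (h' : p' ≤ q') : ∫ y in Icc p q ×ˢ Icc p' q', G y = ∫ z in p'..q', ∫ x in p..q, G (x, z) := by
  rw [Eg_it hG h h']
  have hint : Integrable G ((volume.restrict (Icc p q)).prod (volume.restrict (Icc p' q'))) := by
    rw [Measure.prod_restrict]
    exact hG.continuousOn.integrableOn_compact (isCompact_Icc.prod isCompact_Icc)
  have h1 := integral_integral_swap (f := fun x z => G (x, z)) hint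
  rw [intervalIntegral.integral_of_le h, intervalIntegral.integral_of_le h',
    ← integral_Icc_eq_integral_Ioc, ← integral_Icc_eq_integral_Ioc]
  refine Eq.trans ?_ (h1.trans ?_)
  · refine integral_congr_ae (Eventually.of_forall fun x => ?_)
    beta_reduce
    rw [intervalIntegral.integral_of_le h', ← integral_Icc_eq_integral_Ioc]
  · refine integral_congr_ae (Eventually.of_forall fun x => ?_)
    beta_reduce
    rw [intervalIntegral.integral_of_le h, ← integral_Icc_eq_integral_Ioc]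

private theorem Eg_mk : Continuous mk := by
  unfold mk
  fun_prop

private theorem Eg_co (i : Fin 3) : Continuous fun x : E3 => x i := by
  fun_prop

private theorem Eg_g {q : ℝ} {g : ℝ → ℝ} {v : E3 → E3} (h : Mq q g v) : 0 ≤ g 1 := by
  have h1 := h 1 1 0 one_pos le_rfl
  rw [div_one, Real.one_rpow, mul_one, mul_one] at h1
  refine le_trans ?_ h1
  exact integral_nonneg fun x => Real.rpow_nonneg (abs_nonneg _) _

private theorem Eg_v2 {v : E3 → E3} (h : AxF v) (h' : Vf v) {r₁ r₂ z₁ z₂ : ℝ} (h1 : 0 ≤ r₁)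
    (h2 : r₁ ≤ r₂) (h3 : z₁ ≤ z₂) :
    ∫ y in Icc r₁ r₂ ×ˢ Icc z₁ z₂, y.1 * (v (mk y) 2) ^ 2 ≤ ∫ y, ‖v y‖ ^ 2 := by
  obtain ⟨K, -, -, hi, -⟩ := ba_vf h'
  have hG : Continuous fun y : ℝ × ℝ => (v (mk y) 2) ^ 2 :=
    ((Eg_co 2).comp (h.smooth.continuous.comp Eg_mk)).pow 2
  have hb := box hG (fun y => sq_nonneg _) h1 h2 h3
  have hE : ∫ x in {x : E3 | rad x ∈ Icc r₁ r₂ ∧ x 2 ∈ Icc z₁ z₂}, (v (mk (rad x, x 2)) 2) ^ 2 ≤
      ∫ y, ‖v y‖ ^ 2 := by
    have e1 : ∀ x : E3, (v (mk (rad x, x 2)) 2) ^ 2 ≤ ‖v x‖ ^ 2 := by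
      intro x
      rw [(v_cyl h x).1]
      have := PiLp.norm_apply_le (v x) 2
      rw [Real.norm_eq_abs] at this
      rw [← sq_abs]
      exact pow_le_pow_left₀ (abs_nonneg _) this 2
    calc _ ≤ ∫ x in {x : E3 | rad x ∈ Icc r₁ r₂ ∧ x 2 ∈ Icc z₁ z₂}, ‖v x‖ ^ 2 := by
          refine setIntegral_mono_on (boxi hG r₁ r₂ z₁ z₂).1 hi.integrableOn
            (boxi hG r₁ r₂ z₁ z₂).2 fun x _ => e1 x
      _ ≤ _ := setIntegral_le_integral hi (Eventually.of_forall fun x => by positivity)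
  have hE0 : 0 ≤ ∫ x in {x : E3 | rad x ∈ Icc r₁ r₂ ∧ x 2 ∈ Icc z₁ z₂},
      (v (mk (rad x, x 2)) 2) ^ 2 := integral_nonneg fun x => sq_nonneg _
  have hpi : (2 * Real.pi)⁻¹ ≤ 1 := by
    refine inv_le_one_of_one_le₀ ?_
    linarith [Real.pi_gt_three]
  calc _ = (2 * Real.pi)⁻¹ * ∫ x in {x : E3 | rad x ∈ Icc r₁ r₂ ∧ x 2 ∈ Icc z₁ z₂},
        (v (mk (rad x, x 2)) 2) ^ 2 := hb
    _ ≤ 1 * ∫ x in {x : E3 | rad x ∈ Icc r₁ r₂ ∧ x 2 ∈ Icc z₁ z₂},
        (v (mk (rad x, x 2)) 2) ^ 2 := mul_le_mul_of_nonneg_right hpi hE0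
    _ ≤ _ := by rw [one_mul]; exact hE

private theorem Eg_A {v : E3 → E3} (h : AxF v) (h' : Vf v) {r z : ℝ} (hr : 0 < r) :
    ∫ y in Icc (r - r / 2) r ×ˢ Icc (z - r) (z + r), (fderiv ℝ (Ff v) y (1, 0)) ^ 2 ≤
      r * ∫ y, ‖v y‖ ^ 2 := by
  have hG : Continuous fun y : ℝ × ℝ => (v (mk y) 2) ^ 2 :=
    ((Eg_co 2).comp (h.smooth.continuous.comp Eg_mk)).pow 2
  have e1 : (fun y : ℝ × ℝ => (fderiv ℝ (Ff v) y (1, 0)) ^ 2) =
      fun y => (y.1 * v (mk y) 2) ^ 2 := by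
    funext y
    rw [((Ff_f h).2 y).1]
  rw [e1]
  calc _ ≤ ∫ y in Icc (r - r / 2) r ×ˢ Icc (z - r) (z + r), r * (y.1 * (v (mk y) 2) ^ 2) := by
        refine setIntegral_mono_on ?_ ?_ (measurableSet_Icc.prod measurableSet_Icc) ?_
        · exact ((continuous_fst.mul
            ((Eg_co 2).comp (h.smooth.continuous.comp Eg_mk))).pow 2).continuousOn.integrableOn_compact
              (isCompact_Icc.prod isCompact_Icc)
        · exact (continuous_const.mul (continuous_fst.mul hG)).continuousOn.integrableOn_compact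
            (isCompact_Icc.prod isCompact_Icc)
        · intro y hy
          have a1 := hy.1.1
          have a2 := hy.1.2
          have a3 : 0 ≤ y.1 := by linarith
          have a4 : 0 ≤ y.1 * (v (mk y) 2) ^ 2 := mul_nonneg a3 (sq_nonneg _)
          have a5 := mul_le_mul_of_nonneg_right a2 a4
          calc (y.1 * v (mk y) 2) ^ 2 = y.1 * (y.1 * (v (mk y) 2) ^ 2) := by ring
            _ ≤ _ := a5
    _ = r * ∫ y in Icc (r - r / 2) r ×ˢ Icc (z - r) (z + r), y.1 * (v (mk y) 2) ^ 2 :=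
        integral_const_mul _ _
    _ ≤ _ := mul_le_mul_of_nonneg_left (Eg_v2 h h' (by linarith) (by linarith) (by linarith)) hr.le

private theorem Eg_D {q : ℝ} (hq : 2 < q) {g : ℝ → ℝ} {v : E3 → E3} (h : AxF v)
    (hM : Mq q g v) {r z : ℝ} (hr : 0 < r) :
    ∫ y in Icc (r - r / 2) r ×ˢ Icc (z - r) (z + r), |fderiv ℝ (Ff v) y (0, 1)| ^ q ≤
      g 1 * r ^ 2 := by
  have hq0 : 0 ≤ q := by linarith
  have hU : Continuous (ur v) := (ur_c h).1
  have hG : Continuous fun y : ℝ × ℝ => |ur v (mk y)| ^ q :=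
    (hU.comp Eg_mk).abs.rpow_const fun _ => Or.inr hq0
  have hg := Eg_g hM
  have hGi : IntegrableOn (fun x : E3 => |ur v x| ^ q) (cy (2 * r) (2 * r) z) := by
    have h1 := (boxi hG 0 (2 * r) (z - 2 * r) (z + 2 * r)).1
    have h2 : (fun x : E3 => |ur v (mk (rad x, x 2))| ^ q) = fun x => |ur v x| ^ q := by
      funext x
      rw [(v_cyl h x).2.2.1]
    have h3 : IntegrableOn (fun x : E3 => |ur v x| ^ q)
        {x : E3 | rad x ∈ Icc 0 (2 * r) ∧ x 2 ∈ Icc (z - 2 * r) (z + 2 * r)} := by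
      rw [← h2]
      exact h1
    refine h3.mono_set fun x hx => ?_
    have a1 := hx.1
    have a2 := abs_lt.1 hx.2
    exact ⟨⟨Real.sqrt_nonneg _, a1.le⟩, by linarith, by linarith⟩
  have hS : ∫ x in {x : E3 | rad x ∈ Icc (r - r / 2) r ∧ x 2 ∈ Icc (z - r) (z + r)},
      |ur v (mk (rad x, x 2))| ^ q ≤ g 1 * (2 * r) ^ (2 - q) * (2 * r) := by
    have h1 := hM (2 * r) (2 * r) z (by linarith) le_rfl
    rw [div_self (by linarith)] at h1
    refine le_trans ?_ h1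
    have h2 : (fun x : E3 => |ur v (mk (rad x, x 2))| ^ q) = fun x => |ur v x| ^ q := by
      funext x
      rw [(v_cyl h x).2.2.1]
    rw [h2]
    refine setIntegral_mono_set hGi (Eventually.of_forall fun x =>
      Real.rpow_nonneg (abs_nonneg _) _) (LE.le.eventuallyLE fun x hx => ?_)
    have a1 := hx.1.2
    have a2 := hx.2.1
    have a3 := hx.2.2
    exact ⟨by linarith, abs_lt.2 ⟨by linarith, by linarith⟩⟩
  have e1 : ∀ y : ℝ × ℝ, 0 ≤ y.1 → |fderiv ℝ (Ff v) y (0, 1)| = y.1 * |ur v (mk y)| := by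
    intro y hy
    rw [((Ff_f h).2 y).2.1, abs_neg, ur, (mk_f y).2.2.2.1, abs_mul, abs_mul, abs_abs,
      abs_of_nonneg hy, abs_of_nonneg (sq_nonneg y.1)]
    ring
  have hb := box hG (fun y => Real.rpow_nonneg (abs_nonneg _) _) (r₁ := r - r / 2) (r₂ := r)
    (z₁ := z - r) (z₂ := z + r) (by linarith) (by linarith) (by linarith)
  have h1 : ∫ y in Icc (r - r / 2) r ×ˢ Icc (z - r) (z + r), |fderiv ℝ (Ff v) y (0, 1)| ^ q ≤
      ∫ y in Icc (r - r / 2) r ×ˢ Icc (z - r) (z + r),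
        r ^ (q - 1) * (y.1 * |ur v (mk y)| ^ q) := by
    have hc1 : Continuous fun y : ℝ × ℝ => |fderiv ℝ (Ff v) y (0, 1)| ^ q := by
      have : (fun y : ℝ × ℝ => |fderiv ℝ (Ff v) y (0, 1)| ^ q) =
          fun y => |-(y.1 ^ 2 * sW v (mk y))| ^ q := by
        funext y
        rw [((Ff_f h).2 y).2.1]
      rw [this]
      exact ((continuous_fst.pow 2).mul ((ur_c h).2.2.1.continuous.comp Eg_mk)).neg.abs.rpow_const
        fun _ => Or.inr hq0
    refine setIntegral_mono_on (hc1.continuousOn.integrableOn_compact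
      (isCompact_Icc.prod isCompact_Icc)) ?_ (measurableSet_Icc.prod measurableSet_Icc) ?_
    · exact (continuous_const.mul (continuous_fst.mul hG)).continuousOn.integrableOn_compact
        (isCompact_Icc.prod isCompact_Icc)
    · intro y hy
      have a1 := hy.1.1
      have a2 := hy.1.2
      have a3 : 0 < y.1 := by linarith
      rw [e1 y a3.le, Real.mul_rpow a3.le (abs_nonneg _)]
      have a4 : y.1 ^ q = y.1 ^ (q - 1) * y.1 := by
        have : y.1 ^ (q - 1 + 1) = y.1 ^ (q - 1) * y.1 := by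
          rw [Real.rpow_add a3, Real.rpow_one]
        rw [← this]
        congr 1
        ring
      have a5 : y.1 ^ (q - 1) ≤ r ^ (q - 1) := Real.rpow_le_rpow a3.le a2 (by linarith)
      rw [a4]
      calc y.1 ^ (q - 1) * y.1 * |ur v (mk y)| ^ q =
            y.1 ^ (q - 1) * (y.1 * |ur v (mk y)| ^ q) := by ring
        _ ≤ _ := mul_le_mul_of_nonneg_right a5
            (mul_nonneg a3.le (Real.rpow_nonneg (abs_nonneg _) _))
  rw [integral_const_mul] at h1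
  have hb' : ∫ y in Icc (r - r / 2) r ×ˢ Icc (z - r) (z + r), y.1 * |ur v (mk y)| ^ q =
      (2 * Real.pi)⁻¹ * ∫ x in {x : E3 | rad x ∈ Icc (r - r / 2) r ∧ x 2 ∈ Icc (z - r) (z + r)},
        |ur v (mk (rad x, x 2))| ^ q := hb
  rw [hb'] at h1
  refine h1.trans ?_
  have h2 : (2 * r) ^ (2 - q) * (2 * r) ≤ 2 * r ^ (3 - q) := by
    have b1 : (2 * r) ^ (2 - q) * (2 * r) = 2 ^ (2 - q) * 2 * (r ^ (2 - q) * r) := by
      rw [Real.mul_rpow (by norm_num) hr.le]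
      ring
    have b2 : r ^ (2 - q) * r = r ^ (3 - q) := by
      have : r ^ (2 - q + 1) = r ^ (2 - q) * r := by
        rw [Real.rpow_add hr, Real.rpow_one]
      rw [← this]
      congr 1
      ring
    have b3 : (2 : ℝ) ^ (2 - q) ≤ 1 := Real.rpow_le_one_of_one_le_of_nonpos (by norm_num)
      (by linarith)
    rw [b1, b2]
    have b4 : 0 ≤ r ^ (3 - q) := Real.rpow_nonneg hr.le _
    nlinarith
  have h3 : r ^ (q - 1) * r ^ (3 - q) = r ^ 2 := by
    rw [← Real.rpow_add hr, ← Real.rpow_two]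
    congr 1
    ring
  have h4 : 0 ≤ r ^ (q - 1) := Real.rpow_nonneg hr.le _
  have hpi : (2 * Real.pi)⁻¹ ≤ 1 / 2 := by
    rw [one_div]
    refine inv_anti₀ (by norm_num) ?_
    linarith [Real.pi_gt_three]
  have hpi0 : 0 < (2 * Real.pi)⁻¹ := by positivity
  have h5 : g 1 * (2 * r) ^ (2 - q) * (2 * r) ≤ g 1 * (2 * r ^ (3 - q)) := by
    rw [mul_assoc]
    exact mul_le_mul_of_nonneg_left h2 hg
  have h6 : 0 ≤ g 1 * (2 * r ^ (3 - q)) :=
    mul_nonneg hg (mul_nonneg (by norm_num) (Real.rpow_nonneg hr.le _))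
  calc r ^ (q - 1) * ((2 * Real.pi)⁻¹ *
        ∫ x in {x : E3 | rad x ∈ Icc (r - r / 2) r ∧ x 2 ∈ Icc (z - r) (z + r)},
          |ur v (mk (rad x, x 2))| ^ q)
      ≤ r ^ (q - 1) * ((2 * Real.pi)⁻¹ * (g 1 * (2 * r ^ (3 - q)))) :=
        mul_le_mul_of_nonneg_left (mul_le_mul_of_nonneg_left (hS.trans h5) hpi0.le) h4
    _ ≤ r ^ (q - 1) * (1 / 2 * (g 1 * (2 * r ^ (3 - q)))) :=
        mul_le_mul_of_nonneg_left (mul_le_mul_of_nonneg_right hpi h6) h4
    _ = g 1 * (r ^ (q - 1) * r ^ (3 - q)) := by ring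
    _ = g 1 * r ^ 2 := by rw [h3]

private theorem Eg_vol : (volume : Measure (ℝ × ℝ)).real (Icc (0 : ℝ) 1 ×ˢ Icc (-1 : ℝ) 1) = 2 := by
  rw [Measure.real, Measure.volume_eq_prod, Measure.prod_prod, Real.volume_Icc, Real.volume_Icc]
  norm_num

/-- Jensen -/
private theorem Eg_J {f : ℝ × ℝ → ℝ} (hf : Continuous f) :
    (∫ y in Icc (0 : ℝ) 1 ×ˢ Icc (-1 : ℝ) 1, f y * (1 / 2)) ^ 2 ≤
      1 / 2 * ∫ y in Icc (0 : ℝ) 1 ×ˢ Icc (-1 : ℝ) 1, f y ^ 2 := by
  have hK : IsCompact (Icc (0 : ℝ) 1 ×ˢ Icc (-1 : ℝ) 1) := isCompact_Icc.prod isCompact_Icc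
  have i1 : IntegrableOn f (Icc (0 : ℝ) 1 ×ˢ Icc (-1 : ℝ) 1) :=
    hf.continuousOn.integrableOn_compact hK
  have i2 : IntegrableOn (fun y => f y ^ 2) (Icc (0 : ℝ) 1 ×ˢ Icc (-1 : ℝ) 1) :=
    (hf.pow 2).continuousOn.integrableOn_compact hK
  rw [integral_mul_const]
  set c := ∫ y in Icc (0 : ℝ) 1 ×ˢ Icc (-1 : ℝ) 1, f y with hc
  have h1 : 0 ≤ ∫ y in Icc (0 : ℝ) 1 ×ˢ Icc (-1 : ℝ) 1, (f y - c * (1 / 2)) ^ 2 :=
    integral_nonneg fun y => sq_nonneg _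
  have h2 : ∫ y in Icc (0 : ℝ) 1 ×ˢ Icc (-1 : ℝ) 1, (f y - c * (1 / 2)) ^ 2 =
      (∫ y in Icc (0 : ℝ) 1 ×ˢ Icc (-1 : ℝ) 1, f y ^ 2) - c * c + 2 * (c * (1 / 2)) ^ 2 := by
    have e : ∀ y, (f y - c * (1 / 2)) ^ 2 = f y ^ 2 - c * f y + (c * (1 / 2)) ^ 2 := fun y => by
      ring
    have i3 : IntegrableOn (fun _ : ℝ × ℝ => (c * (1 / 2)) ^ 2)
        (Icc (0 : ℝ) 1 ×ˢ Icc (-1 : ℝ) 1) :=
      continuous_const.continuousOn.integrableOn_compact hK
    have i4 : IntegrableOn (fun y : ℝ × ℝ => f y ^ 2 - c * f y)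
        (Icc (0 : ℝ) 1 ×ˢ Icc (-1 : ℝ) 1) := i2.sub (i1.const_mul c)
    simp only [e]
    rw [integral_add i4 i3, integral_sub i2 (i1.const_mul c), integral_const_mul,
      setIntegral_const, Eg_vol, smul_eq_mul]
  rw [h2] at h1
  nlinarith

private theorem Eg_av {v : E3 → E3} (h : AxF v) (h' : Vf v) {r z : ℝ} (hr : 0 < r) :
    |∫ y in Icc (0 : ℝ) 1 ×ˢ Icc (-1 : ℝ) 1, Ff v (r - r / 2 * y.1, z + r * y.2) * (1 / 2)| ≤
      √(r * ∫ y, ‖v y‖ ^ 2) := by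
  have hF : Continuous (Ff v) := (Ff_f h).1.continuous
  have hX : Continuous fun y : ℝ × ℝ => Ff v (r - r / 2 * y.1, z + r * y.2) :=
    hF.comp ((continuous_const.sub (continuous_const.mul continuous_fst)).prodMk
      (continuous_const.add (continuous_const.mul continuous_snd)))
  have hG : Continuous fun y : ℝ × ℝ => (v (mk y) 2) ^ 2 :=
    ((Eg_co 2).comp (h.smooth.continuous.comp Eg_mk)).pow 2
  have hG1 : Continuous fun y : ℝ × ℝ => y.1 * (v (mk y) 2) ^ 2 := continuous_fst.mul hG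
  refine Real.abs_le_sqrt ((Eg_J hX).trans ?_)
  have hH : Continuous fun s : ℝ => ∫ t in (0:ℝ)..r, t * (v (mk (t, s)) 2) ^ 2 := by
    refine intervalIntegral.continuous_parametric_intervalIntegral_of_continuous' ?_ 0 r
    exact hG1.comp (continuous_snd.prodMk continuous_fst)
  have hE := Eg_v2 h h' (r₁ := 0) (r₂ := r) (z₁ := z - r) (z₂ := z + r) le_rfl hr.le (by linarith)
  rw [Eg_its hG1 hr.le (by linarith)] at hE
  have hE0 : 0 ≤ ∫ y, ‖v y‖ ^ 2 := integral_nonneg fun y => by positivity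
  have h1 : ∫ y in Icc (0 : ℝ) 1 ×ˢ Icc (-1 : ℝ) 1, Ff v (r - r / 2 * y.1, z + r * y.2) ^ 2 ≤
      r * ∫ y, ‖v y‖ ^ 2 := by
    have k1 : ∀ y ∈ Icc (0 : ℝ) 1 ×ˢ Icc (-1 : ℝ) 1,
        Ff v (r - r / 2 * y.1, z + r * y.2) ^ 2 ≤
          r ^ 2 * ∫ t in (0:ℝ)..r, t * (v (mk (t, z + r * y.2)) 2) ^ 2 := by
      intro y hy
      have a1 := hy.1.1
      have a2 := hy.1.2
      have a3 : 0 ≤ r - r / 2 * y.1 := by nlinarith
      have a4 : r - r / 2 * y.1 ≤ r := by nlinarith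
      have hg1 : Continuous fun t : ℝ => t * (v (mk (t, z + r * y.2)) 2) ^ 2 :=
        hG1.comp (continuous_id.prodMk continuous_const)
      have a5 : ∫ t in (0:ℝ)..(r - r / 2 * y.1), t * (v (mk (t, z + r * y.2)) 2) ^ 2 ≤
          ∫ t in (0:ℝ)..r, t * (v (mk (t, z + r * y.2)) 2) ^ 2 := by
        rw [← intervalIntegral.integral_add_adjacent_intervals
          (hg1.intervalIntegrable 0 (r - r / 2 * y.1)) (hg1.intervalIntegrable _ r)]
        have : 0 ≤ ∫ t in (r - r / 2 * y.1)..r, t * (v (mk (t, z + r * y.2)) 2) ^ 2 :=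
          intervalIntegral.integral_nonneg a4 fun t ht =>
            mul_nonneg (a3.trans ht.1) (sq_nonneg _)
        linarith
      have a6 : 0 ≤ ∫ t in (0:ℝ)..(r - r / 2 * y.1), t * (v (mk (t, z + r * y.2)) 2) ^ 2 :=
        intervalIntegral.integral_nonneg a3 fun t ht => mul_nonneg ht.1 (sq_nonneg _)
      have a7 := Ff_c h (y := (r - r / 2 * y.1, z + r * y.2)) a3
      refine a7.trans ?_
      refine mul_le_mul (pow_le_pow_left₀ a3 a4 2) a5 a6 (by positivity)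
    have hc2 : Continuous fun y : ℝ × ℝ =>
        r ^ 2 * ∫ t in (0:ℝ)..r, t * (v (mk (t, z + r * y.2)) 2) ^ 2 :=
      continuous_const.mul (hH.comp (continuous_const.add (continuous_const.mul continuous_snd)))
    calc _ ≤ ∫ y in Icc (0 : ℝ) 1 ×ˢ Icc (-1 : ℝ) 1,
          r ^ 2 * ∫ t in (0:ℝ)..r, t * (v (mk (t, z + r * y.2)) 2) ^ 2 :=
          setIntegral_mono_on ((hX.pow 2).continuousOn.integrableOn_compact
            (isCompact_Icc.prod isCompact_Icc)) (hc2.continuousOn.integrableOn_compact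
            (isCompact_Icc.prod isCompact_Icc)) (measurableSet_Icc.prod measurableSet_Icc) k1
      _ = ∫ x in (0:ℝ)..1, ∫ s in (-1:ℝ)..1,
          r ^ 2 * ∫ t in (0:ℝ)..r, t * (v (mk (t, z + r * s)) 2) ^ 2 :=
          Eg_it hc2 zero_le_one (by norm_num)
      _ = r ^ 2 * ∫ s in (-1:ℝ)..1, ∫ t in (0:ℝ)..r, t * (v (mk (t, z + r * s)) 2) ^ 2 := by
          rw [intervalIntegral.integral_const, intervalIntegral.integral_const_mul, sub_zero,
            one_smul]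
      _ = r ^ 2 * (r⁻¹ * ∫ s in (z - r)..(z + r), ∫ t in (0:ℝ)..r, t * (v (mk (t, s)) 2) ^ 2) := by
          have h3 := intervalIntegral.integral_comp_add_mul (a := -1) (b := 1)
            (fun s => ∫ t in (0:ℝ)..r, t * (v (mk (t, s)) 2) ^ 2) hr.ne' z
          rw [h3, smul_eq_mul, mul_neg_one, mul_one, ← sub_eq_add_neg]
      _ = r * ∫ s in (z - r)..(z + r), ∫ t in (0:ℝ)..r, t * (v (mk (t, s)) 2) ^ 2 := by
          rw [← mul_assoc]
          congr 1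
          field_simp
      _ ≤ _ := mul_le_mul_of_nonneg_left hE hr.le
  have h2 : 0 ≤ r * ∫ y, ‖v y‖ ^ 2 := mul_nonneg hr.le hE0
  linarith

private theorem Eg_rp {q r G : ℝ} (hq : 2 < q) (hr : 0 < r) (hG : 0 ≤ G) :
    r * (r / 2 * r) ^ (-(1 / q)) * (G * r ^ 2) ^ (1 / q) ≤ 2 * r * G ^ (1 / q) := by
  have hq0 : 0 < 1 / q := by
    have : 0 < q := by linarith
    positivity
  have h1 : (r / 2 * r) ^ (-(1 / q)) * (G * r ^ 2) ^ (1 / q) = 2 ^ (1 / q) * G ^ (1 / q) := by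
    rw [Real.rpow_neg (by positivity), ← Real.inv_rpow (by positivity),
      ← Real.mul_rpow (by positivity) (by positivity), ← Real.mul_rpow (by norm_num) hG]
    congr 1
    field_simp
  have h2 : (2 : ℝ) ^ (1 / q) ≤ 2 := by
    calc (2 : ℝ) ^ (1 / q) ≤ 2 ^ (1 : ℝ) := by
          refine Real.rpow_le_rpow_of_exponent_le (by norm_num) ?_
          rw [div_le_one (by linarith)]
          linarith
      _ = 2 := Real.rpow_one 2
  have h3 : 0 ≤ G ^ (1 / q) := Real.rpow_nonneg hG _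
  calc r * (r / 2 * r) ^ (-(1 / q)) * (G * r ^ 2) ^ (1 / q) =
        r * ((r / 2 * r) ^ (-(1 / q)) * (G * r ^ 2) ^ (1 / q)) := by ring
    _ = r * (2 ^ (1 / q) * G ^ (1 / q)) := by rw [h1]
    _ ≤ r * (2 * G ^ (1 / q)) :=
        mul_le_mul_of_nonneg_left (mul_le_mul_of_nonneg_right h2 h3) hr.le
    _ = _ := by ring

theorem eF {q : ℝ} (hq : 2 < q) : ∃ C : ℝ, 1 ≤ C ∧ ∀ (g : ℝ → ℝ) (v : E3 → E3), AxF v → Vf v → Mq q g v → ∀ x, 0 < rad x →
    rad x * |sP v x| ≤ C * (√((∫ y, ‖v y‖ ^ 2) / rad x) + (g 1) ^ (1 / q)) := by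
  obtain ⟨C, hC, hL⟩ := lM hq
  refine ⟨1 + C, by linarith, ?_⟩
  intro g v h h' hM x hr
  set r := rad x with hrd
  set z := x 2 with hz
  set E := ∫ y, ‖v y‖ ^ 2 with hE
  have hE0 : 0 ≤ E := integral_nonneg fun y => by positivity
  have hg := Eg_g hM
  have hA := Eg_A h h' (z := z) hr
  have hD := Eg_D hq h hM (z := z) hr
  have hav := Eg_av h h' (z := z) hr
  rw [← hE] at hA hav
  have h1 := hL (Ff v) ((Ff_f h).1.of_le (by exact_mod_cast le_top)) r z (r / 2) r (1 / 2) (r * E)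
    (g 1 * r ^ 2) (fun _ => 1 / 2) (by linarith) hr measurable_const
    (fun _ => ⟨by norm_num, le_rfl⟩) (by
      rw [setIntegral_const, Eg_vol, smul_eq_mul]
      norm_num) hA hD
  have h2 : Ff v (r, z) = r ^ 2 * sP v x := by
    have := (v_cyl h x).2.2.2.2.1
    rw [← this]
    rfl
  have h3 : |Ff v (r, z)| = r * (r * |sP v x|) := by
    rw [h2, abs_mul, abs_of_nonneg (by positivity : (0:ℝ) ≤ r ^ 2)]
    ring
  have h4 : √(r / 2 / r) ≤ 1 := by
    have : r / 2 / r = 1 / 2 := by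
      field_simp
    rw [this]
    exact Real.sqrt_le_iff.2 ⟨zero_le_one, by norm_num⟩
  have h5 : √(r / 2 / r) * √(r * E) ≤ √(r * E) := by
    have := mul_le_mul_of_nonneg_right h4 (Real.sqrt_nonneg (r * E))
    linarith
  have h6 := Eg_rp hq hr hg
  have h7 : √(r * E) = r * √(E / r) := by
    have : r * E = r ^ 2 * (E / r) := by
      field_simp
    rw [this, Real.sqrt_mul (by positivity), Real.sqrt_sq hr.le]
  set G := (g 1) ^ (1 / q) with hG
  have hG0 : 0 ≤ G := Real.rpow_nonneg hg _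
  have h8 : |Ff v (r, z)| ≤ C * (1 / 2) * (√(r * E) + 2 * r * G) + √(r * E) := by
    have a1 := abs_sub_abs_le_abs_sub (Ff v (r, z))
      (∫ y in Icc (0 : ℝ) 1 ×ˢ Icc (-1 : ℝ) 1, Ff v (r - r / 2 * y.1, z + r * y.2) * (1 / 2))
    have a2 : C * (1 / 2) * (√(r / 2 / r) * √(r * E) +
        r * (r / 2 * r) ^ (-(1 / q)) * (g 1 * r ^ 2) ^ (1 / q)) ≤
        C * (1 / 2) * (√(r * E) + 2 * r * G) :=
      mul_le_mul_of_nonneg_left (add_le_add h5 h6) (by linarith)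
    linarith
  rw [h3, h7] at h8
  have h9 : 0 ≤ √(E / r) := Real.sqrt_nonneg _
  have h10 : r * (r * |sP v x|) ≤ r * ((1 + C) * (√(E / r) + G)) := by
    have b1 : 0 ≤ r * √(E / r) := mul_nonneg hr.le h9
    have b2 : 0 ≤ r * G := mul_nonneg hr.le hG0
    nlinarith
  exact le_of_mul_le_mul_left h10 hr

end Pool.Agent.H94.WL
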