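/-
ROW Er (MP_09540e_WL). Scaling of the slices. PROOF. `X y = axp z + ρ • y`, `w y = ρ • v (X y)`; rad (X y) = ρ rad y, (X y) 2 = z + ρ (y 2). AxF w: as in e_Sl of TU/Ee.lean (which proves ax and db; copy), Vf. `radFlux w y = y₀ ρ v₀ + y₁ ρ v₁ = radFlux v (X y)` and `circ w y = circ v (X y)` ((X y)_i = ρ y_i, i = 0, 1). e_ur: for rad y > 0: `ur w y = ± ..`: radFlux w = rsq y sW w (flux_eq),
so `rsq y sW w y = rsq (X y) sW v (X y) = ρ² rsq y sW v (X y)`, sW w y = ρ² sW v (X y) for rad y > 0, and for rad y = 0 both ur are 0 (rad = 0); `ur w y = rad y ρ² sW v (X y) = ρ ur v (X y)`. e_Sm: cir: rad y ≤ b/ρ gives rad (X y) ≤ b. en: `∫‖w‖² = ρ² ρ⁻³ ∫‖v‖² ≤ κ b/ρ` (Ed_int in TU/Ed.lean). mor: `∫_{cy r r z'} ur w² = ρ² ρ⁻³ ∫_{cy (ρr) (ρr) (z + ρz')} ur v²`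
(indicator functions and Ed_int; X y ∈ cy (ρr) (ρr) (z+ρz') iff y ∈ cy r r z') `≤ ρ⁻¹ κ² ρ r`. str: `rad y |sP w y| = rad (X y) |sP v (X y)| ≤ N` (e_sP). e_Mq: `∫_{cy A l z'} |ur w|^q = ρ^q ρ⁻³ ∫_{cy (ρA) (ρl) (z+ρz')} |ur v|^q ≤ ρ^(q-3) g(l/A) (ρA)^(2-q) ρ l = g(l/A) A^(2-q) l`.
-/
import Pool.Agent.H94.WL.Fa
import Pool.Agent.H16.TU.Ee

set_option autoImplicit false

open Set Filter Topology MeasureTheory
open scoped ContDiff

namespace Pool.Agent.H94.WL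

open Pool.Agent.H16 Pool.Agent.H87.NS Pool.Agent.H72.CC Pool.Agent.H16.TU

/-- The affine map. -/
private noncomputable def Er_X (ρ z : ℝ) (x : E3) : E3 := axp z + ρ • x

private lemma Er_X0 (ρ z : ℝ) (x : E3) : Er_X ρ z x 0 = ρ * x 0 := by
  simp [Er_X, axp]

private lemma Er_X1 (ρ z : ℝ) (x : E3) : Er_X ρ z x 1 = ρ * x 1 := by
  simp [Er_X, axp]

private lemma Er_X2 (ρ z : ℝ) (x : E3) : Er_X ρ z x 2 = z + ρ * x 2 := by
  simp [Er_X, axp]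

private lemma Er_ext {a b : E3} (h0 : a 0 = b 0) (h1 : a 1 = b 1) (h2 : a 2 = b 2) : a = b := by
  ext i
  fin_cases i
  · exact h0
  · exact h1
  · exact h2

private lemma Er_sq (ρ z s : ℝ) (x : E3) : Er_X ρ z (sq s x) = sq s (Er_X ρ z x) := by
  refine Er_ext ?_ ?_ ?_
  · rw [Er_X0]
    simp only [H87.NS.sq, PiLp.toLp_apply, Matrix.cons_val_zero, Er_X0]
    ring
  · rw [Er_X1]
    simp only [H87.NS.sq, PiLp.toLp_apply, Matrix.cons_val_one, Matrix.cons_val_zero, Er_X1]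
    ring
  · rw [Er_X2]
    simp only [H87.NS.sq, PiLp.toLp_apply, Matrix.cons_val, Er_X2]

private lemma Er_rot (ρ z θ : ℝ) (x : E3) : Er_X ρ z (rot θ x) = rot θ (Er_X ρ z x) := by
  refine Er_ext ?_ ?_ ?_
  · rw [Er_X0]
    simp only [rot, PiLp.toLp_apply, Matrix.cons_val_zero, Er_X0, Er_X1]
    ring
  · rw [Er_X1]
    simp only [rot, PiLp.toLp_apply, Matrix.cons_val_one, Matrix.cons_val_zero, Er_X0, Er_X1]
    ring
  · rw [Er_X2]
    simp only [rot, PiLp.toLp_apply, Matrix.cons_val, Er_X2]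

private lemma Er_rots (ρ θ : ℝ) (x : E3) : rot θ (ρ • x) = ρ • rot θ x := by
  refine Er_ext ?_ ?_ ?_
  · simp only [rot, PiLp.toLp_apply, Matrix.cons_val_zero, PiLp.smul_apply, smul_eq_mul]
    ring
  · simp only [rot, PiLp.toLp_apply, Matrix.cons_val_one, Matrix.cons_val_zero, PiLp.smul_apply,
      smul_eq_mul]
    ring
  · simp only [rot, PiLp.toLp_apply, Matrix.cons_val, PiLp.smul_apply, smul_eq_mul]

private lemma Er_rad {ρ : ℝ} (hρ : 0 < ρ) (z : ℝ) (x : E3) : rad (Er_X ρ z x) = ρ * rad x := by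
  unfold rad
  rw [Er_X0, Er_X1]
  have h : (ρ * x 0) ^ 2 + (ρ * x 1) ^ 2 = ρ ^ 2 * (x 0 ^ 2 + x 1 ^ 2) := by ring
  rw [h, Real.sqrt_mul (by positivity), Real.sqrt_sq hρ.le]

private lemma Er_cd (ρ z : ℝ) : ContDiff ℝ ∞ (Er_X ρ z) := by
  unfold Er_X
  exact contDiff_const.add (contDiff_id.const_smul ρ)

private lemma Er_fd (ρ z : ℝ) (x : E3) :
    HasFDerivAt (Er_X ρ z) (ρ • ContinuousLinearMap.id ℝ E3) x := by
  unfold Er_X
  exact ((hasFDerivAt_id x).const_smul ρ).const_add (axp z)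

private lemma Er_pd (ρ z c : ℝ) {f : E3 → ℝ} (hf : ContDiff ℝ ∞ f) (i : Fin 3) :
    pd i (fun x => c * f (Er_X ρ z x)) = fun x => (c * ρ) * pd i f (Er_X ρ z x) := by
  funext x
  have h1 : HasFDerivAt f (fderiv ℝ f (Er_X ρ z x)) (Er_X ρ z x) :=
    (hf.differentiable (by simp) (Er_X ρ z x)).hasFDerivAt
  have h2 := (h1.comp x (Er_fd ρ z x)).const_mul c
  have h3 : fderiv ℝ (fun x => c * f (Er_X ρ z x)) x =
      c • ((fderiv ℝ f (Er_X ρ z x)).comp (ρ • ContinuousLinearMap.id ℝ E3)) := h2.fderiv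
  unfold pd
  rw [h3]
  simp only [ContinuousLinearMap.smul_apply, ContinuousLinearMap.comp_apply,
    ContinuousLinearMap.id_apply, map_smul, smul_eq_mul]
  ring

private lemma Er_int {g : E3 → ℝ} (hg : Integrable g) {ρ : ℝ} (hρ : 0 < ρ) (z : ℝ) :
    Integrable (fun x => g (Er_X ρ z x)) := by
  have h1 : Integrable (fun x => g (axp z + x)) := hg.comp_add_left (axp z)
  exact h1.comp_smul hρ.ne'

private lemma Er_chg (g : E3 → ℝ) {ρ : ℝ} (hρ : 0 < ρ) (z : ℝ) :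
    ∫ x, g (Er_X ρ z x) = (ρ ^ 3)⁻¹ * ∫ x, g x := by
  have h1 := Measure.integral_comp_smul_of_nonneg (volume : Measure E3)
    (fun x => g (axp z + x)) ρ (hR := hρ.le)
  rw [integral_add_left_eq_self g (axp z), finrank_euclideanSpace, Fintype.card_fin,
    smul_eq_mul] at h1
  exact h1

private lemma Er_BL {K : ℝ} {f : E3 → ℝ} (h : BL K f) {ρ : ℝ} (hρ : 0 < ρ) (z c : ℝ) :
    BL (|c| * K + c ^ 2 * (ρ ^ 3)⁻¹ * K) (fun x => c * f (Er_X ρ z x)) := by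
  have hK := BL_nonneg h
  have h0 : 0 ≤ |c| * K := by positivity
  have h1 : 0 ≤ c ^ 2 * (ρ ^ 3)⁻¹ * K := by positivity
  have h2 : (fun x => (c * f (Er_X ρ z x)) ^ 2) = fun x => c ^ 2 * (f (Er_X ρ z x) ^ 2) := by
    funext x
    ring
  have h3 : Integrable (fun x => f (Er_X ρ z x) ^ 2) :=
    Er_int (g := fun x => f x ^ 2) h.2.1 hρ z
  refine ⟨?_, ?_, ?_⟩
  · intro x
    rw [abs_mul]
    have := mul_le_mul_of_nonneg_left (h.1 (Er_X ρ z x)) (abs_nonneg c)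
    linarith
  · rw [h2]
    exact h3.const_mul _
  · rw [h2, integral_const_mul, Er_chg (fun x => f x ^ 2) hρ z]
    have h4 : c ^ 2 * ((ρ ^ 3)⁻¹ * ∫ x, f x ^ 2) ≤ c ^ 2 * (ρ ^ 3)⁻¹ * K := by
      rw [← mul_assoc]
      exact mul_le_mul_of_nonneg_left h.2.2 (by positivity)
    linarith

private lemma Er_DB {ρ : ℝ} (hρ : 0 < ρ) (z K : ℝ) (n : ℕ) : ∀ c : ℝ, ∃ K' : ℝ, 0 ≤ K' ∧
    ∀ f : E3 → ℝ, ContDiff ℝ ∞ f → DB n K f → DB n K' (fun x => c * f (Er_X ρ z x)) := by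
  induction n with
  | zero =>
    intro c
    refine ⟨max 0 (|c| * K + c ^ 2 * (ρ ^ 3)⁻¹ * K), le_max_left _ _, ?_⟩
    intro f _ h
    exact BL_mono (Er_BL (show BL K f from h) hρ z c) (le_max_right _ _)
  | succ n ih =>
    intro c
    obtain ⟨K₁, hK₁, h1⟩ := ih (c * ρ)
    refine ⟨max K₁ (|c| * K + c ^ 2 * (ρ ^ 3)⁻¹ * K), hK₁.trans (le_max_left _ _), ?_⟩
    intro f hf h
    refine ⟨BL_mono (Er_BL h.1 hρ z c) (le_max_right _ _), ?_⟩
    intro i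
    rw [Er_pd ρ z c hf i]
    exact DB_mono (h1 (pd i f) (pd_smooth hf i) (h.2 i)) le_rfl (le_max_left _ _)

private lemma Er_comp {v : E3 → E3} (hv : ContDiff ℝ ∞ v) (j : Fin 3) :
    ContDiff ℝ ∞ (fun y => v y j) :=
  (EuclideanSpace.proj j : E3 →L[ℝ] ℝ).contDiff.comp hv

private lemma Er_sW (ρ z : ℝ) {v : E3 → E3} (hv : ContDiff ℝ ∞ v) (x : E3) :
    sW (fun y => ρ • v (axp z + ρ • y)) x = ρ ^ 2 * sW v (axp z + ρ • x) := by
  unfold sW avk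
  rw [← intervalIntegral.integral_const_mul]
  refine intervalIntegral.integral_congr fun s _ => ?_
  have h := Er_sq ρ z s x
  unfold Er_X at h
  have h1 : HasFDerivAt v (fderiv ℝ v (Er_X ρ z (sq s x))) (Er_X ρ z (sq s x)) :=
    (hv.differentiable (by simp) (Er_X ρ z (sq s x))).hasFDerivAt
  have h2 := (h1.comp (sq s x) (Er_fd ρ z (sq s x))).const_smul ρ
  have h3 : fderiv ℝ (fun y => ρ • v (axp z + ρ • y)) (sq s x) =
      ρ • ((fderiv ℝ v (Er_X ρ z (sq s x))).comp (ρ • ContinuousLinearMap.id ℝ E3)) := h2.fderiv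
  have h4 : fderiv ℝ (fun y => ρ • v (axp z + ρ • y)) (sq s x) (e 2) 2 =
      ρ ^ 2 * fderiv ℝ v (sq s (axp z + ρ • x)) (e 2) 2 := by
    rw [h3, ← h]
    unfold Er_X
    simp only [ContinuousLinearMap.smul_apply, ContinuousLinearMap.comp_apply,
      ContinuousLinearMap.id_apply, map_smul, PiLp.smul_apply, smul_eq_mul]
    ring
  show s ^ 1 * (-(fderiv ℝ (fun y => ρ • v (axp z + ρ • y)) (sq s x) (e 2) 2)) =
    ρ ^ 2 * (s ^ 1 * (-(fderiv ℝ v (sq s (axp z + ρ • x)) (e 2) 2)))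
  rw [h4]
  ring

private lemma Er_cym (A l z : ℝ) : MeasurableSet (cy A l z) := by
  have h0 : Continuous (fun x : E3 => x 0) := (EuclideanSpace.proj (0 : Fin 3) : E3 →L[ℝ] ℝ).continuous
  have h1 : Continuous (fun x : E3 => x 1) := (EuclideanSpace.proj (1 : Fin 3) : E3 →L[ℝ] ℝ).continuous
  have h2 : Continuous (fun x : E3 => x 2) := (EuclideanSpace.proj (2 : Fin 3) : E3 →L[ℝ] ℝ).continuous
  have hr : Continuous (rad : E3 → ℝ) := by
    unfold rad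
    exact ((h0.pow 2).add (h1.pow 2)).sqrt
  have h3 : IsOpen (cy A l z) :=
    (isOpen_lt hr continuous_const).inter (isOpen_lt (h2.sub continuous_const).abs continuous_const)
  exact h3.measurableSet

private lemma Er_cyX {ρ : ℝ} (hρ : 0 < ρ) (z A l z' : ℝ) (x : E3) :
    Er_X ρ z x ∈ cy (ρ * A) (ρ * l) (z + ρ * z') ↔ x ∈ cy A l z' := by
  show (rad (Er_X ρ z x) < ρ * A ∧ |Er_X ρ z x 2 - (z + ρ * z')| < ρ * l) ↔
    (rad x < A ∧ |x 2 - z'| < l)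
  have h1 : Er_X ρ z x 2 - (z + ρ * z') = ρ * (x 2 - z') := by
    rw [Er_X2]
    ring
  rw [Er_rad hρ, h1, abs_mul, abs_of_pos hρ, mul_lt_mul_iff_right₀ hρ, mul_lt_mul_iff_right₀ hρ]

private lemma Er_set (F : E3 → ℝ) {ρ : ℝ} (hρ : 0 < ρ) (z A l z' : ℝ) :
    ∫ x in cy A l z', F (Er_X ρ z x) = (ρ ^ 3)⁻¹ * ∫ y in cy (ρ * A) (ρ * l) (z + ρ * z'), F y := by
  rw [← integral_indicator (Er_cym _ _ _), ← integral_indicator (Er_cym _ _ _), ← Er_chg _ hρ z]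
  refine integral_congr_ae (Filter.Eventually.of_forall fun x => ?_)
  show (cy A l z').indicator (fun x => F (Er_X ρ z x)) x =
    (cy (ρ * A) (ρ * l) (z + ρ * z')).indicator F (Er_X ρ z x)
  by_cases hx : x ∈ cy A l z'
  · rw [indicator_of_mem hx, indicator_of_mem ((Er_cyX hρ z A l z' x).2 hx)]
  · rw [indicator_of_notMem hx, indicator_of_notMem (fun h => hx ((Er_cyX hρ z A l z' x).1 h))]

theorem e_ur {v : E3 → E3} (h : AxF v) {ρ : ℝ} (hρ : 0 < ρ) (z : ℝ) (x : E3) :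
    ur (fun y => ρ • v (axp z + ρ • y)) x = ρ * ur v (axp z + ρ • x) := by
  have h1 := Er_rad hρ z x
  unfold Er_X at h1
  unfold ur
  rw [Er_sW ρ z h.smooth, h1]
  ring

theorem e_Sm {κ N b ρ : ℝ} {v : E3 → E3} (h : Sm κ N b v) (hρ : 0 < ρ) (z : ℝ) : Sm κ N (b / ρ) (fun y => ρ • v (axp z + ρ • y)) := by
  have hax : AxF (fun y => ρ • v (axp z + ρ • y)) := by
    refine ⟨?_, ?_, ?_⟩
    · exact (h.ax.smooth.comp (Er_cd ρ z)).const_smul ρ
    · intro θ x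
      have h1 := Er_rot ρ z θ x
      unfold Er_X at h1
      show ρ • v (axp z + ρ • rot θ x) = rot θ (ρ • v (axp z + ρ • x))
      rw [h1, h.ax.ax, Er_rots]
    · intro x
      have h1 : HasFDerivAt v (fderiv ℝ v (Er_X ρ z x)) (Er_X ρ z x) :=
        (h.ax.smooth.differentiable (by simp) (Er_X ρ z x)).hasFDerivAt
      have h2 := (h1.comp x (Er_fd ρ z x)).const_smul ρ
      have h3 : fderiv ℝ (fun y => ρ • v (axp z + ρ • y)) x =
          ρ • ((fderiv ℝ v (Er_X ρ z x)).comp (ρ • ContinuousLinearMap.id ℝ E3)) := h2.fderiv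
      have h4 : ∀ i : Fin 3, fderiv ℝ (fun y => ρ • v (axp z + ρ • y)) x (e i) i =
          ρ ^ 2 * fderiv ℝ v (Er_X ρ z x) (e i) i := by
        intro i
        rw [h3]
        simp only [ContinuousLinearMap.smul_apply, ContinuousLinearMap.comp_apply,
          ContinuousLinearMap.id_apply, map_smul, PiLp.smul_apply, smul_eq_mul]
        ring
      simp only [h4]
      rw [← Finset.mul_sum, h.ax.div, mul_zero]
  refine ⟨hax, ?_, h.one, h.le, div_pos h.pos hρ, ?_, ?_, ?_, ?_⟩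
  · obtain ⟨K, hK⟩ := h.db
    obtain ⟨K', _, hK'⟩ := Er_DB hρ z K 4 ρ
    refine ⟨K', fun j => ?_⟩
    exact hK' (fun x => v x j) (Er_comp h.ax.smooth j) (hK j)
  · intro x hx
    have h1 : rad (Er_X ρ z x) ≤ b := by
      rw [Er_rad hρ]
      rw [le_div_iff₀ hρ] at hx
      linarith
    have h2 : circ (fun y => ρ • v (axp z + ρ • y)) x = circ v (Er_X ρ z x) := by
      unfold circ
      rw [Er_X0, Er_X1]
      unfold Er_X
      simp only [PiLp.smul_apply, smul_eq_mul]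
      ring
    rw [h2]
    exact h.cir _ h1
  · have h1 : (fun x : E3 => ‖ρ • v (axp z + ρ • x)‖ ^ 2) =
        fun x => ρ ^ 2 * ((fun y => ‖v y‖ ^ 2) (Er_X ρ z x)) := by
      funext x
      rw [norm_smul, mul_pow, Real.norm_eq_abs, sq_abs]
      rfl
    rw [h1, integral_const_mul, Er_chg (fun y => ‖v y‖ ^ 2) hρ z]
    have h2 := h.en
    calc ρ ^ 2 * ((ρ ^ 3)⁻¹ * ∫ x, ‖v x‖ ^ 2) = ρ⁻¹ * ∫ x, ‖v x‖ ^ 2 := by
          field_simp
      _ ≤ ρ⁻¹ * (κ * b) := mul_le_mul_of_nonneg_left h2 (inv_nonneg.2 hρ.le)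
      _ = κ * (b / ρ) := by
          field_simp
  · intro r z' hr
    have h1 : ∀ x, ur (fun y => ρ • v (axp z + ρ • y)) x ^ 2 = (fun y => ρ ^ 2 * ur v y ^ 2) (Er_X ρ z x) := by
      intro x
      have h2 : ur (fun y => ρ • v (axp z + ρ • y)) x = ρ * ur v (Er_X ρ z x) := by
        have h3 := Er_rad hρ z x
        unfold Er_X at h3
        unfold ur
        rw [Er_sW ρ z h.ax.smooth]
        unfold Er_X
        rw [h3]
        ring
      rw [h2]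
      ring
    simp only [h1]
    rw [Er_set (fun y => ρ ^ 2 * ur v y ^ 2) hρ z r r z', integral_const_mul]
    have h2 := h.mor (ρ * r) (z + ρ * z') (mul_pos hρ hr)
    calc (ρ ^ 3)⁻¹ * (ρ ^ 2 * ∫ x in cy (ρ * r) (ρ * r) (z + ρ * z'), ur v x ^ 2)
        = ρ⁻¹ * ∫ x in cy (ρ * r) (ρ * r) (z + ρ * z'), ur v x ^ 2 := by
          field_simp
      _ ≤ ρ⁻¹ * (κ ^ 2 * (ρ * r)) := mul_le_mul_of_nonneg_left h2 (inv_nonneg.2 hρ.le)
      _ = κ ^ 2 * r := by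
          field_simp
  · intro x
    have h1 := h.str (Er_X ρ z x)
    rw [Er_rad hρ] at h1
    rw [e_sP, abs_mul, abs_of_pos hρ]
    unfold Er_X at h1
    calc rad x * (ρ * |sP v (axp z + ρ • x)|) = ρ * rad x * |sP v (axp z + ρ • x)| := by ring
      _ ≤ N := h1

theorem e_Mq {q ρ : ℝ} {g : ℝ → ℝ} {v : E3 → E3} (h : AxF v) (hM : Mq q g v) (hρ : 0 < ρ) (z : ℝ) : Mq q g (fun y => ρ • v (axp z + ρ • y)) := by
  intro A l z' hA hAl
  have h1 : ∀ x, |ur (fun y => ρ • v (axp z + ρ • y)) x| ^ q =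
      (fun y => ρ ^ q * |ur v y| ^ q) (Er_X ρ z x) := by
    intro x
    rw [e_ur h hρ z x, abs_mul, abs_of_pos hρ, Real.mul_rpow hρ.le (abs_nonneg _)]
    rfl
  simp only [h1]
  rw [Er_set (fun y => ρ ^ q * |ur v y| ^ q) hρ z A l z', integral_const_mul]
  have h2 := hM (ρ * A) (ρ * l) (z + ρ * z') (mul_pos hρ hA) (mul_le_mul_of_nonneg_left hAl hρ.le)
  rw [mul_div_mul_left _ _ hρ.ne', Real.mul_rpow hρ.le hA.le] at h2
  have h3 : ρ ^ q * ρ ^ (2 - q) = ρ ^ 2 := by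
    rw [← Real.rpow_add hρ, ← Real.rpow_natCast]
    congr 1
    push_cast
    ring
  have h4 : 0 ≤ (ρ ^ 3)⁻¹ * ρ ^ q := mul_nonneg (inv_nonneg.2 (pow_nonneg hρ.le 3)) (Real.rpow_nonneg hρ.le q)
  calc (ρ ^ 3)⁻¹ * (ρ ^ q * ∫ x in cy (ρ * A) (ρ * l) (z + ρ * z'), |ur v x| ^ q)
      = (ρ ^ 3)⁻¹ * ρ ^ q * ∫ x in cy (ρ * A) (ρ * l) (z + ρ * z'), |ur v x| ^ q := by ring
    _ ≤ (ρ ^ 3)⁻¹ * ρ ^ q * (g (l / A) * (ρ ^ (2 - q) * A ^ (2 - q)) * (ρ * l)) :=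
        mul_le_mul_of_nonneg_left h2 h4
    _ = (ρ ^ 3)⁻¹ * (ρ ^ q * ρ ^ (2 - q)) * ρ * (g (l / A) * A ^ (2 - q) * l) := by ring
    _ = (ρ ^ 3)⁻¹ * ρ ^ 2 * ρ * (g (l / A) * A ^ (2 - q) * l) := by rw [h3]
    _ = g (l / A) * A ^ (2 - q) * l := by
        have h5 : (ρ ^ 3)⁻¹ * ρ ^ 2 * ρ = 1 := by
          field_simp
        rw [h5, one_mul]

end Pool.Agent.H94.WL
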