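/-
ROW Es (MP_09540e_WL). Selection of the extremal point. PROOF. restr: all fields of the structures IsAxisymNS (H16/AxiNS.lean) and IsHInfAxisymNS for T follow for T' ≤ T (Ico 0 T' ⊂ Ico 0 T, Ioo likewise; bounds for T'' < T' ≤ T; smoothness: ContDiffOn.mono or as stated there). supB: apply Eb_sup (TU/Eb.lean) to the solution restricted to [0, T''), T' < T'' < T:
on Ico 0 T'' we have ‖u t x‖ ≤ K (h.ns.bounded T''), K ≥ 1 w.l.o.g., `rad x * hn ≤ rad x ‖u‖ ≤ K (1 + rad x)` (hn ≤ ‖v‖: ba_gv), so with κ = K there it gives a bound B on Icc 0 T'. eSel: as TU/Eb.lean eSel: let B₁ be the bound on Icc 0 t₁, `A = max N₀ (2 B₁ + κ + 2)`; by hun there are t' ∈ Ico 0 T, x' with `rad x' |sP (u t') x'| > A`. N = sup over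
(t, x) ∈ Icc 0 t' × E3 of `rad x |sP (u t) x|` (finite: supB), (t₀, x₀) in it with value > 9N/10, N ≥ A. UpM T u κ N b t₀: for t ≤ t₀ ≤ t': ax = axF_of, db = uDB (see TU/Eb.lean), one, le (κ ≤ A ≤ N), pos, cir = hc, en: `∫‖u t‖² ≤ ∫‖u 0‖² ≤ κ b` (en_glob), mor = hm, str. And t₁ ≤ t₀: otherwise 9N/10 < B₁ (t₀ ≤ t₁), but N ≥ 2B₁+2.
-/
import Pool.Agent.H94.WL.Defs
import Pool.Agent.H16.TU.Eb
import Pool.Agent.H16.TU.Ba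

set_option autoImplicit false

open Set Filter Topology MeasureTheory
open scoped ContDiff

namespace Pool.Agent.H94.WL

open Pool.Agent.H16 Pool.Agent.H87.NS Pool.Agent.H72.CC Pool.Agent.H16.TU

theorem restr {T T' : ℝ} {u : ℝ → E3 → E3} {p : ℝ → E3 → ℝ} (h : IsHInfAxisymNS T u p) (hT : T' ≤ T) : IsHInfAxisymNS T' u p := by
  have h1 : ∀ t ∈ Ico 0 T', t ∈ Ico 0 T := fun t ht => ⟨ht.1, lt_of_lt_of_le ht.2 hT⟩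
  have h2 : ∀ t ∈ Ioo 0 T', t ∈ Ioo 0 T := fun t ht => ⟨ht.1, lt_of_lt_of_le ht.2 hT⟩
  have h3 : (Ico 0 T' ×ˢ (univ : Set E3)) ⊆ (Ico 0 T ×ˢ (univ : Set E3)) :=
    fun q hq => ⟨h1 q.1 hq.1, hq.2⟩
  exact ⟨⟨h.ns.smooth_u.mono h3, h.ns.smooth_p.mono h3,
    fun T'' hT'' => h.ns.bounded T'' (lt_of_lt_of_le hT'' hT),
    fun t ht => h.ns.axisymmetric t (h1 t ht), fun t ht => h.ns.divergence_free t (h1 t ht),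
    fun t ht => h.ns.navier_stokes t (h2 t ht)⟩,
    fun T'' hT'' => h.reg T'' (lt_of_lt_of_le hT'' hT), fun t ht => h.energy t (h1 t ht)⟩

theorem supB {T : ℝ} {u : ℝ → E3 → E3} {p : ℝ → E3 → ℝ} (h : IsHInfAxisymNS T u p) {T' : ℝ} (hT' : T' < T) :
    ∃ B : ℝ, 0 ≤ B ∧ ∀ t ∈ Icc 0 T', ∀ x, rad x * |sP (u t) x| ≤ B := by
  obtain ⟨T'', hT''⟩ : ∃ T'', T'' = (T' + T) / 2 := ⟨_, rfl⟩
  have ha : T' < T'' := by rw [hT'']; linarith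
  have hb : T'' < T := by rw [hT'']; linarith
  obtain ⟨K, hK⟩ := h.ns.bounded T'' hb
  refine Eb_sup (T := T'') (κ := max K 1) (restr h hb.le) (le_max_right _ _) ?_ ha
  intro t ht x
  have h1 : ‖u t x‖ ≤ K := hK t ⟨ht.1, ht.2.le⟩ x
  have h2 : hn (u t) x ≤ ‖u t x‖ := (ba_gv x 0 0).2.2.2.2.1
  have h3 : hn (u t) x ≤ max K 1 := (h2.trans h1).trans (le_max_left _ _)
  have h4 : (1 : ℝ) ≤ max K 1 := le_max_right _ _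
  have h5 := rad_nonneg x
  have h6 : rad x * hn (u t) x ≤ rad x * max K 1 := mul_le_mul_of_nonneg_left h3 h5
  calc rad x * hn (u t) x ≤ rad x * max K 1 := h6
    _ ≤ max K 1 * (1 + rad x) := by nlinarith

theorem eSel {T κ b t₁ : ℝ} {u : ℝ → E3 → E3} {p : ℝ → E3 → ℝ} (h : IsHInfAxisymNS T u p) (hκ : 1 ≤ κ) (hb : 0 < b) (ht₁ : t₁ < T)
    (hc : ∀ t ∈ Ico 0 T, ∀ x, rad x ≤ b → |circ (u t) x| ≤ κ) (he : ∫ x, ‖u 0 x‖ ^ 2 ≤ κ * b)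
    (hm : ∀ t ∈ Ico 0 T, ∀ ρ z : ℝ, 0 < ρ → ∫ x in cy ρ ρ z, ur (u t) x ^ 2 ≤ κ ^ 2 * ρ)
    (hun : ¬ ∃ Λ : ℝ, ∀ t ∈ Ico 0 T, ∀ x, rad x * |sP (u t) x| ≤ Λ) (N₀ : ℝ) :
    ∃ (N t₀ : ℝ) (x₀ : E3), N₀ ≤ N ∧ UpM T u κ N b t₀ ∧ t₁ ≤ t₀ ∧ 9 / 10 * N ≤ rad x₀ * |sP (u t₀) x₀| := by
  push Not at hun
  obtain ⟨B₁, hB₁, hB₁'⟩ := supB h ht₁
  obtain ⟨A, hA⟩ : ∃ A, A = max N₀ (2 * B₁ + κ + 2) := ⟨_, rfl⟩
  have hA1 : N₀ ≤ A := by rw [hA]; exact le_max_left _ _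
  have hA2 : 2 * B₁ + κ + 2 ≤ A := by rw [hA]; exact le_max_right _ _
  obtain ⟨t', ht', x', hx'⟩ := hun A
  obtain ⟨B₂, hB₂, hB₂'⟩ := supB h ht'.2
  obtain ⟨V, hV⟩ : ∃ V : Set ℝ, V = {r | ∃ t ∈ Icc 0 t', ∃ x, rad x * |sP (u t) x| = r} := ⟨_, rfl⟩
  have hmem : ∀ t ∈ Icc 0 t', ∀ x, rad x * |sP (u t) x| ∈ V := by
    intro t ht x
    rw [hV]
    exact ⟨t, ht, x, rfl⟩
  have hbd : BddAbove V := by
    refine ⟨B₂, ?_⟩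
    rintro r hr
    rw [hV] at hr
    obtain ⟨t, ht, x, rfl⟩ := hr
    exact hB₂' t ht x
  obtain ⟨N, hN⟩ : ∃ N, N = sSup V := ⟨_, rfl⟩
  have hle : ∀ t ∈ Icc 0 t', ∀ x, rad x * |sP (u t) x| ≤ N := by
    intro t ht x
    rw [hN]
    exact le_csSup hbd (hmem t ht x)
  have hAN : A < N := lt_of_lt_of_le hx' (hle t' ⟨ht'.1, le_rfl⟩ x')
  have hNpos : 0 < N := by linarith
  have hlt : 9 / 10 * N < sSup V := by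
    rw [← hN]
    linarith
  obtain ⟨r, hr, hr'⟩ := exists_lt_of_lt_csSup ⟨_, hmem t' ⟨ht'.1, le_rfl⟩ x'⟩ hlt
  rw [hV] at hr
  obtain ⟨t₀, ht₀, x₀, hr0⟩ := hr
  rw [← hr0] at hr'
  refine ⟨N, t₀, x₀, by linarith, ⟨⟨ht₀.1, lt_of_le_of_lt ht₀.2 ht'.2⟩, fun t ht => ?_⟩, ?_,
    hr'.le⟩
  · have htt : t ∈ Icc 0 t' := ⟨ht.1, ht.2.trans ht₀.2⟩
    have htT : t ∈ Ico 0 T := ⟨ht.1, lt_of_le_of_lt htt.2 ht'.2⟩
    obtain ⟨K, hK⟩ := uDB h ht'.2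
    exact ⟨axF_of h.ns htT, ⟨K, hK t htt⟩, hκ, by linarith, hb, hc t htT,
      (en_glob h htT).1.trans he, hm t htT, hle t htt⟩
  · by_contra hcc
    have hc' : t₀ ≤ t₁ := (not_le.1 hcc).le
    have h1 := hB₁' t₀ ⟨ht₀.1, hc'⟩ x₀
    linarith

end Pool.Agent.H94.WL
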