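/-
ROW Ho (MP_09540e_WL). Consequences of the scale invariant bound. PROOF. hol: `0 ≤ ∫ |ur|^q ≤ g(l/A) A^(2-q) l`, so g(l/A) ≥ 0. Hölder with exponents q/2 and q/(q-2) on cy A l z (measure 2π A² l: cy_vol, cy_meas; ur continuous and bounded by ‖v‖: ur_c, ur_f, ba_vf): `∫ ur² ≤ (∫ |ur|^q)^(2/q) (2π A² l)^(1-2/q) ≤ (g A^(2-q) l)^(2/q) (2π A² l)^(1-2/q) = (2π)^(1-2/q) g^(2/q) l`
(the powers of A cancel: (4-2q)/q + 2 - 4/q = 0), `≤ 7 g^(2/q) l` (2π ≤ 7, 0 ≤ 1-2/q ≤ 1). dD: C_m from mU (Fb.lean), A₀ = max 1 (2 C_m κ²/ε); s₀ ≥ 1 with `35 (g s)^(2/q) ≤ ε/2` for s ≥ s₀ (hg; the power 2/q > 0 is continuous at 0; where g s may be negative use that Mq gives g ≥ 0, or bound |g s|). K = A₀ s₀. For K R ≤ L: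
where rad x ≥ A₀ R: `wt ≤ (1/A₀)(1 + rad/R) wt`, mU: this part is `≤ (1/A₀) C_m κ² L ≤ (ε/2) L`. Where rad x < A₀ R: `wt ≤ (1 + (x 2 - z)²/L²)⁻¹`, m0 (Mo.lean) with `f = ur²`, `a = A₀ R`, `ρ = M = L`, `B = 7 (g(L/(A₀R)))^(2/q) L` (hol with A = A₀ R ≤ L): `≤ 35 (g(L/(A₀ R)))^(2/q) L ≤ (ε/2) L` as L/(A₀R) ≥ s₀.
morA: for t ≤ t₀: ‖u t‖ ≤ K (h.ns.bounded t₀), |ur| ≤ ‖u‖ (ur_f): for ρ ≤ 1: `∫_{cy ρ ρ z} ur² ≤ 2π ρ³ K² ≤ 7 K² ρ`; for ρ ≥ 1: `≤ ∫‖u t‖² ≤ E ≤ E ρ` (en_glob). For t > t₀: hol with A = l = ρ (l/A = 1): `≤ 7 (g 1)^(2/q) ρ`. κ = 1 + 7K² + E + 7 (g 1)^(2/q) (κ² ≥ κ; if Ioo t₀ T is nonempty then g 1 ≥ 0, here t₀ < T).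
-/
import Pool.Agent.H94.WL.Cy
import Pool.Agent.H94.WL.Fb
import Pool.Agent.H94.WL.Mo
import Pool.Agent.H16.TU.Ta

set_option autoImplicit false

open Set Filter Topology MeasureTheory
open scoped ContDiff

namespace Pool.Agent.H94.WL

open Pool.Agent.H16 Pool.Agent.H87.NS Pool.Agent.H72.CC Pool.Agent.H16.TU

theorem Ho_urb {v : E3 → E3} (h : AxF v) (x : E3) : ur v x ^ 2 ≤ ‖v x‖ ^ 2 := by
  rw [(ur_f h x).2.2.2.1]
  have := sq_nonneg (ut v x)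
  have := sq_nonneg (v x 2)
  linarith

theorem Ho_uri {v : E3 → E3} (h : AxF v) (hv : Vf v) : Integrable (fun x => ur v x ^ 2) := by
  obtain ⟨K, hK0, hK, hi, _⟩ := ba_vf hv
  refine Integrable.mono' hi ((ur_c h).1.pow 2).aestronglyMeasurable (ae_of_all _ fun x => ?_)
  rw [Real.norm_eq_abs, abs_of_nonneg (sq_nonneg _)]
  exact Ho_urb h x

theorem Ho_rad : Continuous (rad : E3 → ℝ) := by
  unfold rad
  exact (((Psi_cont_coord 0).pow 2).add ((Psi_cont_coord 1).pow 2)).sqrt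

theorem Ho_radn (x : E3) : 0 ≤ rad x := Real.sqrt_nonneg _

theorem Ho_volr {A l : ℝ} (hA : 0 < A) (hl : 0 < l) (z : ℝ) : volume.real (cy A l z) = 2 * Real.pi * A ^ 2 * l := by
  rw [Measure.real, cy_vol hA hl z, ENNReal.toReal_ofReal (by positivity)]

theorem hol {q : ℝ} (hq : 2 < q) {g : ℝ → ℝ} {v : E3 → E3} (h : AxF v) (hv : Vf v) (hM : Mq q g v) {A l : ℝ} (z : ℝ) (hA : 0 < A) (hl : A ≤ l) :
    0 ≤ g (l / A) ∧ ∫ x in cy A l z, ur v x ^ 2 ≤ 7 * (g (l / A)) ^ (2 / q) * l := by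
  have hl0 : 0 < l := hA.trans_le hl
  obtain ⟨K, hK0, hK, _, _⟩ := ba_vf hv
  have hc := (ur_c h).1
  have hfin : IsFiniteMeasure (volume.restrict (cy A l z)) :=
    ⟨by rw [Measure.restrict_apply_univ, cy_vol hA hl0 z]; exact ENNReal.ofReal_lt_top⟩
  have hI := hM A l z hA hl
  have hI0 : 0 ≤ ∫ x in cy A l z, |ur v x| ^ q := integral_nonneg fun x => by positivity
  have hAp : 0 < A ^ (2 - q) := Real.rpow_pos_of_pos hA _
  obtain ⟨γ, hγ⟩ : ∃ γ : ℝ, γ = g (l / A) := ⟨_, rfl⟩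
  rw [← hγ] at hI ⊢
  have hg0 : 0 ≤ γ := by
    by_contra hneg
    have h1 := mul_neg_of_neg_of_pos (mul_neg_of_neg_of_pos (not_le.1 hneg) hAp) hl0
    linarith
  refine ⟨hg0, ?_⟩
  have hq0 : (0 : ℝ) < q := by linarith
  have hqm : (0 : ℝ) < q - 2 := by linarith
  have hconj : (q / 2).HolderConjugate (q / (q - 2)) := by
    rw [Real.holderConjugate_iff]
    refine ⟨by linarith, ?_⟩
    rw [inv_div, inv_div, ← add_div]
    have : (2 : ℝ) + (q - 2) = q := by ring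
    rw [this, div_self hq0.ne']
  have hH := integral_mul_le_Lp_mul_Lq_of_nonneg (μ := volume.restrict (cy A l z)) hconj
    (f := fun x => ur v x ^ 2) (g := fun _ => (1:ℝ)) (ae_of_all _ fun x => sq_nonneg _)
    (ae_of_all _ fun _ => zero_le_one)
    (MemLp.of_bound (hc.pow 2).aestronglyMeasurable (K ^ 2) (ae_of_all _ fun x => by
      rw [Real.norm_eq_abs, abs_of_nonneg (sq_nonneg _)]
      exact (Ho_urb h x).trans (pow_le_pow_left₀ (norm_nonneg _) (hK x).1 2)))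
    (memLp_const 1)
  have e1 : ∀ x, (ur v x ^ 2) ^ (q / 2) = |ur v x| ^ q := by
    intro x
    rw [← sq_abs, ← Real.rpow_natCast, ← Real.rpow_mul (abs_nonneg _)]
    congr 1
    push_cast
    ring
  have e2 : ∫ _ in cy A l z, (1 : ℝ) ^ (q / (q - 2)) = 2 * Real.pi * A ^ 2 * l := by
    simp only [Real.one_rpow]
    rw [integral_const, measureReal_restrict_apply_univ, Ho_volr hA hl0 z]
    simp
  simp only [e1, mul_one] at hH
  rw [e2, one_div_div, one_div_div] at hH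
  refine hH.trans ?_
  obtain ⟨θ, hθ⟩ : ∃ θ : ℝ, θ = 2 / q := ⟨_, rfl⟩
  have hθ1 : (q - 2) / q = 1 - θ := by
    rw [hθ]
    field_simp
  have hθ0 : 0 < θ := by rw [hθ]; positivity
  have hθl : θ < 1 := by rw [hθ, div_lt_one hq0]; exact hq
  rw [hθ1, ← hθ]
  have hqθ : q * θ = 2 := by
    rw [hθ]
    field_simp
  have s1 : (∫ x in cy A l z, |ur v x| ^ q) ^ θ ≤ (γ * A ^ (2 - q) * l) ^ θ :=
    Real.rpow_le_rpow hI0 hI hθ0.le
  have s2 : (γ * A ^ (2 - q) * l) ^ θ * (2 * Real.pi * A ^ 2 * l) ^ (1 - θ) =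
      γ ^ θ * (2 * Real.pi) ^ (1 - θ) * l := by
    have hpi := Real.pi_pos
    rw [Real.mul_rpow (by positivity) hl0.le, Real.mul_rpow hg0 hAp.le, ← Real.rpow_mul hA.le,
      Real.mul_rpow (by positivity) hl0.le, Real.mul_rpow (by positivity) (by positivity), ← Real.rpow_natCast A 2,
      ← Real.rpow_mul hA.le]
    have a1 : A ^ ((2 - q) * θ) * A ^ (((2 : ℕ) : ℝ) * (1 - θ)) = 1 := by
      rw [← Real.rpow_add hA]
      have : (2 - q) * θ + ((2 : ℕ) : ℝ) * (1 - θ) = 0 := by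
        push_cast
        linear_combination (-1 : ℝ) * hqθ
      rw [this, Real.rpow_zero]
    have a2 : l ^ θ * l ^ (1 - θ) = l := by
      rw [← Real.rpow_add hl0]
      have : θ + (1 - θ) = 1 := by ring
      rw [this, Real.rpow_one]
    calc γ ^ θ * A ^ ((2 - q) * θ) * l ^ θ * ((2 * Real.pi) ^ (1 - θ) * A ^ (((2 : ℕ) : ℝ) * (1 - θ)) * l ^ (1 - θ))
        = γ ^ θ * (2 * Real.pi) ^ (1 - θ) * (A ^ ((2 - q) * θ) * A ^ (((2 : ℕ) : ℝ) * (1 - θ))) * (l ^ θ * l ^ (1 - θ)) := by ring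
      _ = _ := by rw [a1, a2, mul_one]
  have s3 : (2 * Real.pi) ^ (1 - θ) ≤ 7 := by
    have hpi := Real.pi_gt_three
    have hpi2 := Real.pi_lt_d2
    calc (2 * Real.pi) ^ (1 - θ) ≤ (2 * Real.pi) ^ (1 : ℝ) :=
          Real.rpow_le_rpow_of_exponent_le (by linarith) (by linarith)
      _ ≤ 7 := by
        rw [Real.rpow_one]
        linarith
  have s4 : 0 ≤ (2 * Real.pi * A ^ 2 * l) ^ (1 - θ) := by positivity
  have s5 : 0 ≤ γ ^ θ := Real.rpow_nonneg hg0 _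
  calc (∫ x in cy A l z, |ur v x| ^ q) ^ θ * (2 * Real.pi * A ^ 2 * l) ^ (1 - θ)
      ≤ (γ * A ^ (2 - q) * l) ^ θ * (2 * Real.pi * A ^ 2 * l) ^ (1 - θ) := mul_le_mul_of_nonneg_right s1 s4
    _ = γ ^ θ * (2 * Real.pi) ^ (1 - θ) * l := s2
    _ ≤ γ ^ θ * 7 * l := by
        refine mul_le_mul_of_nonneg_right (mul_le_mul_of_nonneg_left s3 s5) hl0.le
    _ = 7 * γ ^ θ * l := by ring

theorem dD {q : ℝ} (hq : 2 < q) {g : ℝ → ℝ} (hg : Tendsto g atTop (𝓝 0)) {κ ε : ℝ} (hκ : 1 ≤ κ) (hε : 0 < ε) :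
    ∃ K : ℝ, 1 ≤ K ∧ ∀ (N b : ℝ) (v : E3 → E3), Sm κ N b v → Mq q g v → ∀ R L z : ℝ, 0 < R → K * R ≤ L →
      ∫ x, ur v x ^ 2 * wt R L z x ≤ ε * L := by
  obtain ⟨C, hC1, hC⟩ := mU
  have hq0 : (0 : ℝ) < q := by linarith
  have hlim : Tendsto (fun s => 35 * |g s| ^ (2 / q)) atTop (𝓝 0) := by
    have h1 : Tendsto (fun s => |g s|) atTop (𝓝 0) := by
      have := hg.abs
      rwa [abs_zero] at this
    have h2 : Tendsto (fun s => |g s| ^ (2 / q)) atTop (𝓝 ((0 : ℝ) ^ (2 / q))) :=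
      h1.rpow_const (Or.inr (by positivity))
    rw [Real.zero_rpow (by positivity)] at h2
    have h3 := h2.const_mul 35
    rwa [mul_zero] at h3
  obtain ⟨s₁, hs₁⟩ := eventually_atTop.1 (hlim.eventually_lt_const (half_pos hε))
  obtain ⟨A₀, hA₀⟩ : ∃ A₀ : ℝ, A₀ = max 1 (2 * C * κ ^ 2 / ε) := ⟨_, rfl⟩
  obtain ⟨s₀, hs₀⟩ : ∃ s₀ : ℝ, s₀ = max 1 s₁ := ⟨_, rfl⟩
  have hA1 : 1 ≤ A₀ := by rw [hA₀]; exact le_max_left _ _
  have hA2 : 2 * C * κ ^ 2 / ε ≤ A₀ := by rw [hA₀]; exact le_max_right _ _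
  have hs1 : 1 ≤ s₀ := by rw [hs₀]; exact le_max_left _ _
  have hs2 : s₁ ≤ s₀ := by rw [hs₀]; exact le_max_right _ _
  refine ⟨A₀ * s₀, by nlinarith, ?_⟩
  intro N b v hS hM R L z hR hKL
  obtain ⟨A, hA⟩ : ∃ A : ℝ, A = A₀ * R := ⟨_, rfl⟩
  have hAp : 0 < A := by rw [hA]; positivity
  have hsA : s₀ * A ≤ L := by
    rw [hA]
    linarith
  have hAL : A ≤ L := by nlinarith
  have hRA : R ≤ A := by rw [hA]; nlinarith
  have hRL : R ≤ L := hRA.trans hAL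
  have hL0 : 0 < L := hR.trans_le hRL
  obtain ⟨_, m2, m3, _, _⟩ := hC κ N b R L z v hS hR hRL
  have hc := (ur_c hS.ax).1
  have hi := Ho_uri hS.ax hS.vf
  have hwc := (wt_sm hR hL0 z).continuous
  have hw0 : ∀ x, 0 ≤ wt R L z x := fun x => (wt_pos hR hL0 z x).le
  have hw1 : ∀ x, wt R L z x ≤ 1 := fun x => wt_le hR hL0 z x
  have hwi : Integrable (fun x => ur v x ^ 2 * wt R L z x) := by
    refine Integrable.mono' hi ((hc.pow 2).mul hwc).aestronglyMeasurable (ae_of_all _ fun x => ?_)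
    rw [Real.norm_eq_abs, abs_of_nonneg (mul_nonneg (sq_nonneg _) (hw0 x))]
    exact mul_le_of_le_one_right (sq_nonneg _) (hw1 x)
  have hSm : MeasurableSet {x : E3 | rad x < A} := (isOpen_lt Ho_rad continuous_const).measurableSet
  rw [← integral_add_compl hSm hwi]
  have hVc : Continuous (fun x : E3 => (1 + (x 2 - z) ^ 2 / L ^ 2)⁻¹) := by
    refine Continuous.inv₀ ?_ fun x => ?_
    · exact continuous_const.add ((((Psi_cont_coord 2).sub continuous_const).pow 2).div_const _)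
    · have : 0 ≤ (x 2 - z) ^ 2 / L ^ 2 := by positivity
      linarith
  have hV1 : ∀ x : E3, 0 ≤ (1 + (x 2 - z) ^ 2 / L ^ 2)⁻¹ ∧ (1 + (x 2 - z) ^ 2 / L ^ 2)⁻¹ ≤ 1 := by
    intro x
    have : 0 ≤ (x 2 - z) ^ 2 / L ^ 2 := by positivity
    exact ⟨by positivity, inv_le_one_of_one_le₀ (by linarith)⟩
  have hVi : Integrable (fun x => ur v x ^ 2 * (1 + (x 2 - z) ^ 2 / L ^ 2)⁻¹) := by
    refine Integrable.mono' hi ((hc.pow 2).mul hVc).aestronglyMeasurable (ae_of_all _ fun x => ?_)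
    rw [Real.norm_eq_abs, abs_of_nonneg (mul_nonneg (sq_nonneg _) (hV1 x).1)]
    exact mul_le_of_le_one_right (sq_nonneg _) (hV1 x).2
  have p1 : ∫ x in {x : E3 | rad x < A}, ur v x ^ 2 * wt R L z x ≤ ε / 2 * L := by
    have hB : ∀ z' : ℝ, ∫ x in cy A L z', ur v x ^ 2 ≤ 7 * (g (L / A)) ^ (2 / q) * L := fun z' =>
      (hol hq hS.ax hS.vf hM z' hAp hAL).2
    have hm := m0 z (hc.pow 2) (fun x => sq_nonneg (ur v x)) hi hL0 (le_refl L) hB
    have hg0 := (hol hq hS.ax hS.vf hM z hAp hAL).1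
    have h1 : ∫ x in {x : E3 | rad x < A}, ur v x ^ 2 * wt R L z x ≤
        ∫ x in {x : E3 | rad x < A}, ur v x ^ 2 * (1 + (x 2 - z) ^ 2 / L ^ 2)⁻¹ := by
      refine integral_mono hwi.integrableOn hVi.integrableOn fun x => ?_
      refine mul_le_mul_of_nonneg_left ?_ (sq_nonneg _)
      unfold wt
      refine mul_le_of_le_one_left (hV1 x).1 (inv_le_one_of_one_le₀ (one_le_pow₀ ?_))
      have : 0 ≤ rsq x / R ^ 2 := by unfold rsq; positivity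
      linarith
    have h2 : 5 * (L / L) * (7 * (g (L / A)) ^ (2 / q) * L) = 35 * (g (L / A)) ^ (2 / q) * L := by
      rw [div_self hL0.ne']
      ring
    rw [h2] at hm
    have h3 := hs₁ (L / A) (hs2.trans (by rw [le_div_iff₀ hAp]; exact hsA))
    rw [abs_of_nonneg hg0] at h3
    have h4 : 35 * (g (L / A)) ^ (2 / q) * L ≤ ε / 2 * L := mul_le_mul_of_nonneg_right h3.le hL0.le
    exact h1.trans (hm.trans h4)
  have p2 : ∫ x in {x : E3 | rad x < A}ᶜ, ur v x ^ 2 * wt R L z x ≤ ε / 2 * L := by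
    have h1 : ∫ x in {x : E3 | rad x < A}ᶜ, ur v x ^ 2 * wt R L z x ≤
        ∫ x in {x : E3 | rad x < A}ᶜ, 1 / A₀ * (ur v x ^ 2 * ((1 + rad x / R) * wt R L z x)) := by
      refine setIntegral_mono_on hwi.integrableOn (m3.const_mul _).integrableOn hSm.compl fun x hx => ?_
      have hx' : A ≤ rad x := not_lt.1 hx
      have h2 : 1 ≤ 1 / A₀ * (1 + rad x / R) := by
        rw [one_div, inv_mul_eq_div, le_div_iff₀ (by linarith), one_mul]
        have : A₀ ≤ rad x / R := by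
          rw [le_div_iff₀ hR, ← hA]
          exact hx'
        linarith
      have h3 : 0 ≤ ur v x ^ 2 * wt R L z x := mul_nonneg (sq_nonneg _) (hw0 x)
      calc ur v x ^ 2 * wt R L z x = 1 * (ur v x ^ 2 * wt R L z x) := by ring
        _ ≤ (1 / A₀ * (1 + rad x / R)) * (ur v x ^ 2 * wt R L z x) := mul_le_mul_of_nonneg_right h2 h3
        _ = _ := by ring
    have h2 : ∫ x in {x : E3 | rad x < A}ᶜ, 1 / A₀ * (ur v x ^ 2 * ((1 + rad x / R) * wt R L z x)) ≤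
        ∫ x, 1 / A₀ * (ur v x ^ 2 * ((1 + rad x / R) * wt R L z x)) := by
      refine setIntegral_le_integral (m3.const_mul _) (ae_of_all _ fun x => ?_)
      have := hw0 x
      have := Ho_radn x
      show 0 ≤ 1 / A₀ * (ur v x ^ 2 * ((1 + rad x / R) * wt R L z x))
      positivity
    have h2' : ∫ x, 1 / A₀ * (ur v x ^ 2 * ((1 + rad x / R) * wt R L z x)) =
        1 / A₀ * ∫ x, ur v x ^ 2 * ((1 + rad x / R) * wt R L z x) := integral_const_mul _ _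
    rw [h2'] at h2
    have h3 : 1 / A₀ * ∫ x, ur v x ^ 2 * ((1 + rad x / R) * wt R L z x) ≤ 1 / A₀ * (C * κ ^ 2 * L) :=
      mul_le_mul_of_nonneg_left m2 (by positivity)
    have h4 : 1 / A₀ * (C * κ ^ 2 * L) ≤ ε / 2 * L := by
      have h5 : 1 / A₀ * (C * κ ^ 2) ≤ ε / 2 := by
        rw [one_div, inv_mul_eq_div, div_le_iff₀ (by linarith)]
        rw [div_le_iff₀ hε] at hA2
        linarith
      calc 1 / A₀ * (C * κ ^ 2 * L) = 1 / A₀ * (C * κ ^ 2) * L := by ring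
        _ ≤ _ := mul_le_mul_of_nonneg_right h5 hL0.le
    exact h1.trans (h2.trans (h3.trans h4))
  linarith

theorem morA {T q t₀ : ℝ} {u : ℝ → E3 → E3} {p : ℝ → E3 → ℝ} {g : ℝ → ℝ} (h : IsHInfAxisymNS T u p) (hq : 2 < q) (h0 : 0 ≤ t₀) (h1 : t₀ < T)
    (hr : ∀ t ∈ Ioo t₀ T, Mq q g (u t)) :
    ∃ κ : ℝ, 1 ≤ κ ∧ ∀ t ∈ Ico 0 T, ∀ ρ z : ℝ, 0 < ρ → ∫ x in cy ρ ρ z, ur (u t) x ^ 2 ≤ κ ^ 2 * ρ := by
  obtain ⟨K, hK0, hK⟩ := gv_u h h1
  obtain ⟨E, hE⟩ : ∃ E : ℝ, E = ∫ x, ‖u 0 x‖ ^ 2 := ⟨_, rfl⟩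
  have hE0 : 0 ≤ E := by
    rw [hE]
    exact integral_nonneg fun x => by positivity
  obtain ⟨γ, hγ⟩ : ∃ γ : ℝ, γ = |g 1| ^ (2 / q) := ⟨_, rfl⟩
  have hγ0 : 0 ≤ γ := by rw [hγ]; positivity
  obtain ⟨κ, hκ⟩ : ∃ κ : ℝ, κ = 1 + 7 * K ^ 2 + E + 7 * γ := ⟨_, rfl⟩
  have hK2 : 0 ≤ K ^ 2 := sq_nonneg K
  have hκ1 : 1 ≤ κ := by rw [hκ]; linarith
  refine ⟨κ, hκ1, fun t ht ρ z hρ => ?_⟩
  have hax : AxF (u t) := axF_of h.ns ht
  have hvf : Vf (u t) := vf_u h ht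
  have hmain : ∫ x in cy ρ ρ z, ur (u t) x ^ 2 ≤ κ * ρ := by
    rcases le_or_gt t t₀ with htt | htt
    · rcases le_or_gt ρ 1 with hρ1 | hρ1
      · have hv := Ho_volr hρ hρ z
        have h2 : ‖∫ x in cy ρ ρ z, ur (u t) x ^ 2‖ ≤ K ^ 2 * volume.real (cy ρ ρ z) := by
          refine norm_setIntegral_le_of_norm_le_const ?_ fun x _ => ?_
          · rw [cy_vol hρ hρ z]
            exact ENNReal.ofReal_lt_top
          · rw [Real.norm_eq_abs, abs_of_nonneg (sq_nonneg _)]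
            exact (Ho_urb hax x).trans (pow_le_pow_left₀ (norm_nonneg _) (hK t ⟨ht.1, htt⟩ x).1 2)
        have h3 := (le_abs_self _).trans h2
        rw [hv] at h3
        refine h3.trans ?_
        have hpi := Real.pi_pos
        have hpi2 := Real.pi_lt_d2
        have h4 : 2 * Real.pi * ρ ^ 2 * ρ ≤ 7 * ρ := by
          have h5 : 2 * Real.pi * ρ ^ 2 ≤ 7 := by
            have h6 : ρ ^ 2 ≤ 1 := by nlinarith
            nlinarith
          exact mul_le_mul_of_nonneg_right h5 hρ.le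
        have h5 : K ^ 2 * (2 * Real.pi * ρ ^ 2 * ρ) ≤ K ^ 2 * (7 * ρ) := mul_le_mul_of_nonneg_left h4 hK2
        have h6 : (7 * K ^ 2) * ρ ≤ κ * ρ := mul_le_mul_of_nonneg_right (by rw [hκ]; linarith) hρ.le
        linarith
      · have h2 : ∫ x in cy ρ ρ z, ur (u t) x ^ 2 ≤ ∫ x, ur (u t) x ^ 2 :=
          setIntegral_le_integral (Ho_uri hax hvf) (ae_of_all _ fun x => sq_nonneg _)
        obtain ⟨K', _, _, hi, _⟩ := ba_vf hvf
        have h3 : ∫ x, ur (u t) x ^ 2 ≤ ∫ x, ‖u t x‖ ^ 2 :=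
          integral_mono (Ho_uri hax hvf) hi fun x => Ho_urb hax x
        have h4 := (en_glob h ht).1
        rw [← hE] at h4
        have h5 : E ≤ E * ρ := by nlinarith
        have h6 : E * ρ ≤ κ * ρ := mul_le_mul_of_nonneg_right (by rw [hκ]; linarith) hρ.le
        linarith
    · obtain ⟨h2, h3⟩ := hol hq hax hvf (hr t ⟨htt, ht.2⟩) z hρ (le_refl ρ)
      rw [div_self hρ.ne'] at h2 h3
      have h4 : (g 1) ^ (2 / q) = γ := by rw [hγ, abs_of_nonneg h2]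
      rw [h4] at h3
      refine h3.trans (mul_le_mul_of_nonneg_right ?_ hρ.le)
      rw [hκ]
      linarith
  refine hmain.trans (mul_le_mul_of_nonneg_right ?_ hρ.le)
  nlinarith

end Pool.Agent.H94.WL
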