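/-
ROW Ex (MP_09540e_WL). The extremal point, rescaled. PROOF (cf. TU/Xe.lean). near (So.lean): b, κ₁; morA (Ho.lean): κ₂; E = ∫‖u 0‖²; κ := κ₁ + κ₂ + E/b + 1 (so all bounds hold with κ, E ≤ κ b). Z, C₀, N_A from thmA h κ b; C := max C₀ 1. C_e from eF. Let a > 0, N₀ be given, t₁ = (t₀+T)/2. eSel with `N₀' = max N₀, N_A, 1, ..` large gives N, t', x₀, t₁ ≤ t' < T. ρ := rad x₀ > 0 (9N/10 ≤ ρ |sP|, N > 0).
eF at (u t', x₀) (Mq: t' > t₀; ∫‖u t'‖² ≤ E: en_glob): `9N/10 ≤ C_e (√(E/ρ) + g(1)^(1/q))`; for N ≥ 10 C_e g(1)^(1/q): `√(E/ρ) ≥ N/(2 C_e)`, so `ρ ≤ 4 C_e² E/N²` and `a ρ² < (T - t₀)/2` for N ≥ N₀' large. Then `t' - a ρ² > t₀ ≥ 0`. z := x₀ 2, v = us ρ z u, p' = psc ρ z p, T' = T/ρ², t₀' = t'/ρ², b' = b/ρ. Cm: ns: sc_h (TU/Ed.lean); t0, ta as in TU/Xe.lean.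
sl: t ∈ [t₀'-a, t₀'] gives ρ² t ∈ [0, t'], UpM, e_Sm. en: e_SS (TU/Ee.lean) and Bd (thmA) at time ρ² t, scale ρR. di: Xe_di (TU/Xe.lean). mq: ρ² t ∈ (t₀, T), e_Mq. Last: as in TU/Xe.lean: `|sP (v t₀') (e 0)| = ρ |sP (u t') (axp z + ρ • e 0)| = ρ |sP (u t') x₀|` (rotation, sP_rot). Note us ρ z u t x = ρ • u (ρ² t) (axp z + ρ • x).
-/
import Pool.Agent.H94.WL.Ah
import Pool.Agent.H94.WL.Ho
import Pool.Agent.H94.WL.Eg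
import Pool.Agent.H94.WL.Es
import Pool.Agent.H94.WL.Er
import Pool.Agent.H94.WL.So
import Pool.Agent.H16.TU.Xe

set_option autoImplicit false

open Set Filter Topology MeasureTheory
open scoped ContDiff

namespace Pool.Agent.H94.WL

open Pool.Agent.H16 Pool.Agent.H87.NS Pool.Agent.H72.CC Pool.Agent.H16.TU


private theorem Ex_small {Ce E δ a N ρ G : ℝ} (hCe : 1 ≤ Ce) (hE : 0 ≤ E) (hδ : 0 < δ) (ha : 0 < a)
    (hN : 10 * Ce * |G| + 4 * Ce ^ 2 * E + a * (4 * Ce ^ 2 * E) / δ + 1 ≤ N) (hρ : 0 < ρ)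
    (h : 9 / 10 * N ≤ Ce * (√(E / ρ) + G)) : a * ρ ^ 2 < δ := by
  have hD : 0 ≤ 4 * Ce ^ 2 * E := by positivity
  have hG : 0 ≤ 10 * Ce * |G| := by positivity
  have hq : 0 ≤ a * (4 * Ce ^ 2 * E) / δ := by positivity
  have hN1 : 1 ≤ N := by linarith
  have h1 : Ce * G ≤ Ce * |G| := mul_le_mul_of_nonneg_left (le_abs_self G) (by linarith)
  have h2 : N / 2 ≤ Ce * √(E / ρ) := by
    have h3 : Ce * (√(E / ρ) + G) = Ce * √(E / ρ) + Ce * G := by ring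
    rw [h3] at h
    linarith
  have h4 : (N / 2) ^ 2 ≤ (Ce * √(E / ρ)) ^ 2 := pow_le_pow_left₀ (by linarith) h2 2
  rw [mul_pow, Real.sq_sqrt (by positivity)] at h4
  have h5 : ρ * N ^ 2 ≤ 4 * Ce ^ 2 * E := by
    have h6 : ρ * (N / 2) ^ 2 ≤ ρ * (Ce ^ 2 * (E / ρ)) := mul_le_mul_of_nonneg_left h4 hρ.le
    have h7 : ρ * (Ce ^ 2 * (E / ρ)) = Ce ^ 2 * E := by
      field_simp
    rw [h7] at h6
    nlinarith
  have h8 : ρ * N ≤ 4 * Ce ^ 2 * E := by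
    have h9 : ρ * N ≤ ρ * N ^ 2 := mul_le_mul_of_nonneg_left (le_self_pow₀ hN1 (by norm_num)) hρ.le
    linarith
  have h10 : ρ ≤ 1 := by
    by_contra hcon
    have hcon := not_le.1 hcon
    have : N < ρ * N := by nlinarith
    linarith
  have h11 : a * ρ ^ 2 ≤ a * ρ := mul_le_mul_of_nonneg_left (by nlinarith) ha.le
  have h12 : a * (4 * Ce ^ 2 * E) / δ * δ < N * δ := mul_lt_mul_of_pos_right (by linarith) hδ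
  have h13 : a * (4 * Ce ^ 2 * E) / δ * δ = a * (4 * Ce ^ 2 * E) := by
    field_simp
  rw [h13] at h12
  have h14 : a * (ρ * N) ≤ a * (4 * Ce ^ 2 * E) := mul_le_mul_of_nonneg_left h8 ha.le
  have h15 : a * ρ < δ := by
    by_contra hcon
    have h16 : δ * N ≤ a * ρ * N := mul_le_mul_of_nonneg_right (not_lt.1 hcon) (by linarith)
    linarith
  linarith

theorem ext {T q t₀ : ℝ} {u : ℝ → E3 → E3} {p : ℝ → E3 → ℝ} {g : ℝ → ℝ} (h : IsHInfAxisymNS T u p) (hq : 2 < q) (h0 : 0 ≤ t₀) (h1 : t₀ < T)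
    (hr : ∀ t ∈ Ioo t₀ T, Mq q g (u t))
    (hun : ¬ ∃ Λ : ℝ, ∀ t ∈ Ico 0 T, ∀ x, rad x * |sP (u t) x| ≤ Λ) :
    ∃ κ Z C : ℝ, 1 ≤ κ ∧ 1 ≤ Z ∧ 1 ≤ C ∧ ∀ a N₀ : ℝ, 0 < a → ∃ (N b T' : ℝ) (v : ℝ → E3 → E3) (p' : ℝ → E3 → ℝ) (t₀' : ℝ),
      N₀ ≤ N ∧ Cm κ C Z N b a q g T' v p' t₀' ∧ 9 / 10 * N ≤ |sP (v t₀') (e 0)| := by
  obtain ⟨b, κ₁, hb, hκ₁, hcirc⟩ := near h
  obtain ⟨κ₂, hκ₂, hmor⟩ := morA h hq h0 h1 hr
  obtain ⟨E, hE⟩ : ∃ E : ℝ, E = ∫ x, ‖u 0 x‖ ^ 2 := ⟨_, rfl⟩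
  have hE0 : 0 ≤ E := by
    rw [hE]
    exact integral_nonneg fun x => sq_nonneg _
  have hEb : 0 ≤ E / b := div_nonneg hE0 hb.le
  obtain ⟨κ, hκd⟩ : ∃ κ : ℝ, κ = κ₁ + κ₂ + E / b + 1 := ⟨_, rfl⟩
  have hκ : 1 ≤ κ := by linarith
  have hκκ₂ : κ₂ ≤ κ := by linarith
  have hc : ∀ t ∈ Ico 0 T, ∀ x, rad x ≤ b → |circ (u t) x| ≤ κ := fun t ht x hx =>
    (hcirc t ht x hx).trans (by linarith)
  have he : ∫ x, ‖u 0 x‖ ^ 2 ≤ κ * b := by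
    rw [← hE]
    have h2 : E = E / b * b := by
      field_simp
    rw [h2]
    exact mul_le_mul_of_nonneg_right (by linarith) hb.le
  have hm : ∀ t ∈ Ico 0 T, ∀ ρ z : ℝ, 0 < ρ → ∫ x in cy ρ ρ z, ur (u t) x ^ 2 ≤ κ ^ 2 * ρ := fun t ht ρ z hρ =>
    (hmor t ht ρ z hρ).trans (mul_le_mul_of_nonneg_right (pow_le_pow_left₀ (by linarith) hκκ₂ 2) hρ.le)
  obtain ⟨Z, C₀, NA, hZ, hC₀, hNA, HA⟩ := thmA h κ b
  obtain ⟨Ce, hCe, hCF⟩ := eF hq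
  refine ⟨κ, Z, max C₀ 1, hκ, hZ, le_max_right _ _, ?_⟩
  intro a N₀ ha
  have hδ : 0 < (T - t₀) / 2 := by linarith
  obtain ⟨G, hG⟩ : ∃ G : ℝ, G = (g 1) ^ (1 / q) := ⟨_, rfl⟩
  obtain ⟨N, t', x₀, hN₀, hU, ht₁, hx₀⟩ := eSel (t₁ := (t₀ + T) / 2) h hκ hb (by linarith) hc he hm hun
    (max N₀ (max NA (10 * Ce * |G| + 4 * Ce ^ 2 * E + a * (4 * Ce ^ 2 * E) / ((T - t₀) / 2) + 1)))
  have hN1 : N₀ ≤ N := (le_max_left _ _).trans hN₀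
  have hN2 : NA ≤ N := (le_max_left _ _).trans ((le_max_right _ _).trans hN₀)
  have hN3 := (le_max_right _ _).trans ((le_max_right _ _).trans hN₀)
  have hN : 1 ≤ N := hNA.trans hN2
  have hB := HA N t' hN2 hU
  have ht' := hU.1
  obtain ⟨ρ, hρd⟩ : ∃ ρ : ℝ, ρ = rad x₀ := ⟨_, rfl⟩
  have hρ0 : 0 ≤ ρ := by
    rw [hρd]
    exact Real.sqrt_nonneg _
  have hρ : 0 < ρ := by
    rcases hρ0.lt_or_eq with h2 | h2
    · exact h2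
    · exfalso
      rw [← hρd, ← h2, zero_mul] at hx₀
      linarith
  have hAx := axF_of h.ns ht'
  have hF := hCF g (u t') hAx (vf_u h ht') (hr t' ⟨by linarith, ht'.2⟩) x₀ (by rw [← hρd]; exact hρ)
  have hE1 := (en_glob h ht').1
  rw [← hE] at hE1
  rw [← hρd, ← hG] at hF
  rw [← hρd] at hx₀
  have hF' : 9 / 10 * N ≤ Ce * (√(E / ρ) + G) := by
    refine hx₀.trans (hF.trans ?_)
    have h2 : √((∫ y, ‖u t' y‖ ^ 2) / ρ) ≤ √(E / ρ) := Real.sqrt_le_sqrt (div_le_div_of_nonneg_right hE1 hρ.le)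
    exact mul_le_mul_of_nonneg_left (by linarith) (by linarith)
  have haρ := Ex_small hCe hE0 hδ ha hN3 hρ hF'
  have hρ2 : 0 < ρ ^ 2 := by positivity
  have hat0 : t₀ < t' - a * ρ ^ 2 := by linarith
  have hat : a * ρ ^ 2 < t' := by linarith
  have e2 : ρ ^ 2 * (t' / ρ ^ 2) = t' := by
    field_simp
  have e1 : ρ ^ 2 * (t' / ρ ^ 2 - a) = t' - a * ρ ^ 2 := by
    field_simp
  have hwin : ∀ t ∈ Icc (t' / ρ ^ 2 - a) (t' / ρ ^ 2), t₀ < ρ ^ 2 * t ∧ ρ ^ 2 * t ≤ t' := by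
    intro t ht
    constructor
    · have h3 : ρ ^ 2 * (t' / ρ ^ 2 - a) ≤ ρ ^ 2 * t := mul_le_mul_of_nonneg_left ht.1 hρ2.le
      rw [e1] at h3
      linarith
    · have h3 : ρ ^ 2 * t ≤ ρ ^ 2 * (t' / ρ ^ 2) := mul_le_mul_of_nonneg_left ht.2 hρ2.le
      rwa [e2] at h3
  have hwin' : ∀ t ∈ Icc (t' / ρ ^ 2 - a) (t' / ρ ^ 2), ρ ^ 2 * t ∈ Icc 0 t' := fun t ht =>
    ⟨by linarith [(hwin t ht).1], (hwin t ht).2⟩
  refine ⟨N, b / ρ, T / ρ ^ 2, us ρ (x₀ 2) u, psc ρ (x₀ 2) p, t' / ρ ^ 2, hN1, ?_, ?_⟩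
  · refine ⟨sc_h h hρ, ⟨div_nonneg ht'.1 hρ2.le, div_lt_div_of_pos_right ht'.2 hρ2⟩, ?_, ?_, ?_,
      ?_, ?_⟩
    · rw [lt_div_iff₀ hρ2]
      exact hat
    · intro t ht
      exact e_Sm (hU.2 _ (hwin' t ht)) hρ (x₀ 2)
    · intro t ht R hR
      have h1 := hU.2 _ (hwin' t ht)
      have h2 : SS (us ρ (x₀ 2) u t) (ww N Z R 0) =
          ρ⁻¹ * SS (u (ρ ^ 2 * t)) (ww N Z (ρ * R) (x₀ 2)) :=
        (e_SS h1.ax.smooth hρ (x₀ 2)).1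
      have h3 : SS (u (ρ ^ 2 * t)) (ww N Z (ρ * R) (x₀ 2)) ≤ C₀ * N ^ 3 * (ρ * R) :=
        (hB _ (hwin' t ht) (ρ * R) (x₀ 2) (by positivity)).1
      rw [h2]
      have h4 : ρ⁻¹ * SS (u (ρ ^ 2 * t)) (ww N Z (ρ * R) (x₀ 2)) ≤
          ρ⁻¹ * (C₀ * N ^ 3 * (ρ * R)) := mul_le_mul_of_nonneg_left h3 (by positivity)
      have h5 : ρ⁻¹ * (C₀ * N ^ 3 * (ρ * R)) = C₀ * (N ^ 3 * R) := by
        field_simp
      have h6 : C₀ * (N ^ 3 * R) ≤ max C₀ 1 * (N ^ 3 * R) :=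
        mul_le_mul_of_nonneg_right (le_max_left _ _) (by positivity)
      linarith
    · intro R hR haR
      have h1 := Xe_di (z := x₀ 2) h hN hZ hρ hR ha haR ht' hat hB
      have h6 : C₀ * (N ^ 3 * R) ≤ max C₀ 1 * (N ^ 3 * R) :=
        mul_le_mul_of_nonneg_right (le_max_left _ _) (by positivity)
      linarith
    · intro t ht
      have hw := hwin t ht
      have ht2 : ρ ^ 2 * t ∈ Ico 0 T := ⟨by linarith, hw.2.trans_lt ht'.2⟩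
      exact e_Mq (axF_of h.ns ht2) (hr _ ⟨hw.1, ht2.2⟩) hρ (x₀ 2)
  · have h1 : sP (us ρ (x₀ 2) u (t' / ρ ^ 2)) (e 0) =
        ρ * sP (u (ρ ^ 2 * (t' / ρ ^ 2))) (axp (x₀ 2) + ρ • e 0) :=
      e_sP ρ (x₀ 2) (u (ρ ^ 2 * (t' / ρ ^ 2))) (e 0)
    obtain ⟨p0, p1, p2⟩ := Xe_pt (x₀ 2) ρ
    have hrs : rsq x₀ = ρ ^ 2 := by
      rw [hρd]
      unfold rad rsq
      rw [Real.sq_sqrt (by positivity)]
    have hry : rsq (axp (x₀ 2) + ρ • e 0) = rsq x₀ := by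
      rw [hrs]
      unfold rsq
      rw [p0, p1]
      ring
    obtain ⟨θ, hθ, -, -⟩ := KSym_rot (y := x₀) (z := axp (x₀ 2) + ρ • e 0)
      (by rw [hrs]; exact hρ2) hry p2
    rw [h1, e2, ← hθ, sP_rot hAx, abs_mul, abs_of_pos hρ]
    exact hx₀

end Pool.Agent.H94.WL
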