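/-
ROW Ga (MP_09540e_WL). The test functions of the heat step. PROOF. Write `τ = 1 + 4 lam s ≥ 1`, `y = lam rsq x / τ ≥ 0`, `gs lam s x = τ⁻¹ exp (-y)`. gs_f: for i ≠ 2: `pd i gs = -(2 lam x_i/τ) gs`, `pd i (pd i gs) = (4 lam² x_i²/τ² - 2 lam/τ) gs`, sum over i = 0, 1: `(4 lam² rsq/τ² - 4 lam/τ) gs`, and
`d/ds gs = (-4 lam/τ + 4 lam² rsq/τ²) gs`. ph_f: pz_f, Da_pz_smooth in TU/Da.lean: `∫ pz ≥ l > 0`, `0 ≤ pz ≤ 1`. ph_d: `pz l z = S (2 - 2 z²/l²)`: `pz' = S' (-4z/l²)`, `pz'' = S'' 16 z²/l⁴ - S' 4/l²`, `|z| ≤ l` where S', S'' ≠ 0 (Cut_bd in H72/CC/Cut.lean bounds S', S''; they vanish for nonpositive argument: cf. Da_bd), divide by `∫ pz ≥ l`.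
G_b: for `|x 2| ≤ l`: `(1 + (x 2)²/l²)⁻¹ ≥ 1/2`, so `ph ≤ (2/l) (1+(x 2)²/l²)⁻¹`, likewise for ph', ph'' with C/l², C/l³ (zero for |x 2| ≥ l). `exp(-y) ≤ 2 (1+y)⁻²` (max of (1+y)² e^(-y) is 4/e), `y ≥ rsq/R₂²` as `τ ≤ 1 + 4 lam R₁² ≤ lam R₂²`; `hg gs = (2 lam rad/τ) gs = 2 √lam τ^(-3/2) √y e^(-y) ≤ 2√lam e^(-y/2)` (√y e^(-y/2) ≤ 1) `≤ 4 √lam (1+y/2)⁻²`,
`y/2 ≥ rsq/R₂²` by hypothesis. (hg of a product with a function of x 2 is hg gs times |function|; `hg f x = √(pd 0 f x ^2 + pd 1 f x ^2)`.) C depends only on lam (max of 1, √lam times constants). G_t: f is bounded by a constant times the integrable wt R₂' l for suitable R₂' (G_b with R₁ ≥ √s, R₂' large, l replaced by max...; or directly: gs and its derivatives are polynomials times exp(-y), ph compactly supported): C¹, integrable with first derivatives, bounded.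
G_s: `hg G = 2√lam τ^(-3/2) √y e^(-y) ph ≤ 2 √lam τ^(-3/2) · 2 (1+y)⁻² · (2/l)(1+(x2)²/l²)⁻¹ = 8 √lam τ^(-3/2) l⁻¹ wt (√(τ/lam)) l 0 x` (√y ≤ (1+y)/2 and (1+y)³e^(-y) ≤ 27 e⁻² < 4), and `VV (wt ρ l) ≤ 10 ρ² l`: `≤ 80 lam^(-1/2) τ^(-1/2)`.
-/
import Pool.Agent.H94.WL.Defs
import Pool.Agent.H16.TU.Wb
import Pool.Agent.H16.TU.Da

set_option autoImplicit false

open Set Filter Topology MeasureTheory
open scoped ContDiff

namespace Pool.Agent.H94.WL

open Pool.Agent.H16 Pool.Agent.H87.NS Pool.Agent.H72.CC Pool.Agent.H16.TU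

theorem Ga_comp {f : E3 → ℝ} {H : ℝ → ℝ} {h' : ℝ} {x : E3} (hH : HasDerivAt H h' (f x))
    (hf : DifferentiableAt ℝ f x) (i : Fin 3) : pd i (fun y => H (f y)) x = h' * pd i f x := by
  have h1 : HasFDerivAt (H ∘ f) (h' • fderiv ℝ f x) x := hH.comp_hasFDerivAt x hf.hasFDerivAt
  unfold pd
  have h2 : fderiv ℝ (fun y => H (f y)) x = h' • fderiv ℝ f x := h1.fderiv
  rw [h2]
  rfl

theorem Ga_sm {lam s : ℝ} : ContDiff ℝ ∞ (gs lam s) := by
  have h : gs lam s = fun x => (1 + 4 * lam * s)⁻¹ * Real.exp (-(lam * rsq x / (1 + 4 * lam * s))) := rfl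
  rw [h]
  exact contDiff_const.mul (Real.contDiff_exp.comp (((contDiff_const.mul Da_rsq_smooth).div_const _).neg))

theorem Ga_pd (lam s : ℝ) (i : Fin 3) (x : E3) :
    pd i (gs lam s) x = -(lam / (1 + 4 * lam * s)) * (if i = 2 then 0 else 2 * x i) * gs lam s x := by
  have hH : HasDerivAt (fun ρ : ℝ => (1 + 4 * lam * s)⁻¹ * Real.exp (-(lam * ρ / (1 + 4 * lam * s))))
      ((1 + 4 * lam * s)⁻¹ * (Real.exp (-(lam * rsq x / (1 + 4 * lam * s))) * -(lam / (1 + 4 * lam * s)))) (rsq x) := by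
    have h1 : HasDerivAt (fun ρ : ℝ => -(lam * ρ / (1 + 4 * lam * s))) (-(lam / (1 + 4 * lam * s))) (rsq x) := by
      have h2 := (((hasDerivAt_id (rsq x)).const_mul lam).div_const (1 + 4 * lam * s)).neg
      refine h2.congr_deriv ?_
      rw [mul_one]
    exact (h1.exp).const_mul _
  have h := Ga_comp hH (Psi_diff Da_rsq_smooth x) i
  have e : gs lam s = fun y => (1 + 4 * lam * s)⁻¹ * Real.exp (-(lam * rsq y / (1 + 4 * lam * s))) := rfl
  rw [e, h, Psi_rsq]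
  ring

theorem gs_f {lam s : ℝ} (hl : 0 < lam) (hs : 0 ≤ s) : ContDiff ℝ ∞ (gs lam s) ∧ (∀ x, 0 < gs lam s x ∧ gs lam s x ≤ 1) ∧
    (∀ x, pd 2 (gs lam s) x = 0) ∧ (∀ x, pd 0 (gs lam s) x = -(2 * lam * x 0 / (1 + 4 * lam * s)) * gs lam s x) ∧
    (∀ x, pd 1 (gs lam s) x = -(2 * lam * x 1 / (1 + 4 * lam * s)) * gs lam s x) ∧
    (∀ x, HasDerivAt (fun s => gs lam s x) (pd 0 (pd 0 (gs lam s)) x + pd 1 (pd 1 (gs lam s)) x) s) := by
  have hτ : 1 ≤ 1 + 4 * lam * s := by nlinarith [mul_nonneg hl.le hs]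
  have hτ0 : 0 < 1 + 4 * lam * s := by linarith
  have hp : ∀ i : Fin 3, i ≠ 2 → ∀ x, pd i (gs lam s) x = -(2 * lam * x i / (1 + 4 * lam * s)) * gs lam s x := by
    intro i hi x
    rw [Ga_pd, if_neg hi]
    ring
  have hpp : ∀ i : Fin 3, i ≠ 2 → ∀ x, pd i (pd i (gs lam s)) x =
      (-(2 * lam / (1 + 4 * lam * s)) + (2 * lam * x i / (1 + 4 * lam * s)) ^ 2) * gs lam s x := by
    intro i hi x
    have e : pd i (gs lam s) = fun y => (-(2 * lam / (1 + 4 * lam * s)) * y i) * gs lam s y := by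
      funext y
      rw [hp i hi y]
      ring
    rw [e, Psi_mul ((Psi_dc i x).const_mul _) (Psi_diff Ga_sm x), Psi_cm (Psi_dc i x), Psi_coord, if_pos rfl, hp i hi x]
    ring
  refine ⟨Ga_sm, fun x => ⟨?_, ?_⟩, fun x => ?_, hp 0 (by decide), hp 1 (by decide), fun x => ?_⟩
  · unfold gs
    positivity
  · unfold gs
    have h1 : (1 + 4 * lam * s)⁻¹ ≤ 1 := inv_le_one_of_one_le₀ hτ
    have h2 : Real.exp (-(lam * rsq x / (1 + 4 * lam * s))) ≤ 1 := by
      rw [Real.exp_le_one_iff]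
      have : 0 ≤ lam * rsq x / (1 + 4 * lam * s) := by unfold rsq; positivity
      linarith
    calc _ ≤ (1:ℝ) * 1 := mul_le_mul h1 h2 (Real.exp_pos _).le zero_le_one
      _ = 1 := one_mul 1
  · rw [Ga_pd, if_pos rfl]
    ring
  · rw [hpp 0 (by decide), hpp 1 (by decide)]
    have h0 : HasDerivAt (fun s : ℝ => 1 + 4 * lam * s) (4 * lam) s := by
      have := ((hasDerivAt_id s).const_mul (4 * lam)).const_add 1
      refine this.congr_deriv ?_
      rw [mul_one]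
    have h1 : HasDerivAt (fun s : ℝ => (1 + 4 * lam * s)⁻¹) (-(4 * lam) / (1 + 4 * lam * s) ^ 2) s := h0.inv hτ0.ne'
    have h2 : HasDerivAt (fun s : ℝ => -(lam * rsq x / (1 + 4 * lam * s))) (lam * rsq x * (4 * lam) / (1 + 4 * lam * s) ^ 2) s := by
      have h3 := (h1.const_mul (lam * rsq x)).neg
      refine h3.congr_deriv ?_
      ring
    have h4 := h1.mul h2.exp
    refine h4.congr_deriv ?_
    have e : rsq x = x 0 ^ 2 + x 1 ^ 2 := rfl
    unfold gs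
    rw [e]
    field_simp
    ring

theorem ph_f {l : ℝ} (hl : 0 < l) : ContDiff ℝ ∞ (ph l) ∧ Integrable (ph l) ∧ ∫ z, ph l z = 1 ∧
    ∀ z, 0 ≤ ph l z ∧ ph l z ≤ 1 / l ∧ (l ≤ |z| → ph l z = 0) := by
  obtain ⟨h1, h2, h3, -, h5⟩ := pz_f hl
  have hI : 0 < ∫ z, pz l z := hl.trans_le h3
  have e : ph l = fun z => pz l z / ∫ y, pz l y := rfl
  refine ⟨?_, ?_, ?_, fun z => ⟨?_, ?_, fun hz => ?_⟩⟩
  · rw [e]
    exact h1.div_const _
  · rw [e]
    exact h2.div_const _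
  · rw [e, integral_div, div_self hI.ne']
  · exact div_nonneg (h5 z).1 hI.le
  · unfold ph
    exact div_le_div₀ zero_le_one (h5 z).2.1 hl h3
  · unfold ph
    rw [(h5 z).2.2 hz, zero_div]

theorem ph_d : ∃ C : ℝ, 1 ≤ C ∧ ∀ l : ℝ, 0 < l → ∀ z, |deriv (ph l) z| ≤ C / l ^ 2 ∧ |deriv (deriv (ph l)) z| ≤ C / l ^ 3 ∧
    (l ≤ |z| → deriv (ph l) z = 0 ∧ deriv (deriv (ph l)) z = 0) := by
  obtain ⟨C, hC1, hCd, hCdd, hC0⟩ := Cut_bd
  have hC : 0 < C := by linarith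
  have hS : ContDiff ℝ ∞ Real.smoothTransition := Real.smoothTransition.contDiff
  have hS1 : ContDiff ℝ ∞ (deriv Real.smoothTransition) := (contDiff_infty_iff_deriv.1 hS).2
  refine ⟨20 * C, by linarith, fun l hl z => ?_⟩
  obtain ⟨-, -, h3, -, -⟩ := pz_f hl
  set I := ∫ y, pz l y with hI
  have hI0 : 0 < I := hl.trans_le h3
  have e0 : ∀ z, HasDerivAt (fun z : ℝ => 2 - 2 * z ^ 2 / l ^ 2) (-(4 * z / l ^ 2)) z := by
    intro z
    have h := (((hasDerivAt_pow 2 z).const_mul 2).div_const (l ^ 2)).const_sub 2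
    refine h.congr_deriv ?_
    norm_num
    ring
  have e1 : ∀ z, HasDerivAt (ph l) (deriv Real.smoothTransition (2 - 2 * z ^ 2 / l ^ 2) * (-(4 * z / l ^ 2)) / I) z := by
    intro z
    have h := ((hS.differentiable (by simp) (2 - 2 * z ^ 2 / l ^ 2)).hasDerivAt.comp z (e0 z)).div_const I
    exact h
  have e2 : deriv (ph l) = fun z => deriv Real.smoothTransition (2 - 2 * z ^ 2 / l ^ 2) * (-(4 * z / l ^ 2)) / I := by
    funext z
    exact (e1 z).deriv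
  have e3 : ∀ z, HasDerivAt (fun z : ℝ => -(4 * z / l ^ 2)) (-(4 / l ^ 2)) z := by
    intro z
    have h := (((hasDerivAt_id z).const_mul 4).div_const (l ^ 2)).neg
    refine h.congr_deriv ?_
    norm_num
  have e4 : ∀ z, HasDerivAt (deriv (ph l)) ((deriv (deriv Real.smoothTransition) (2 - 2 * z ^ 2 / l ^ 2) * (-(4 * z / l ^ 2)) *
      (-(4 * z / l ^ 2)) + deriv Real.smoothTransition (2 - 2 * z ^ 2 / l ^ 2) * (-(4 / l ^ 2))) / I) z := by
    intro z
    rw [e2]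
    exact (((hS1.differentiable (by simp) (2 - 2 * z ^ 2 / l ^ 2)).hasDerivAt.comp z (e0 z)).mul (e3 z)).div_const I
  have hout : l ≤ |z| → 2 - 2 * z ^ 2 / l ^ 2 ≤ 0 := by
    intro hz
    have h1 : l ^ 2 ≤ z ^ 2 := by
      rw [← sq_abs z]
      exact pow_le_pow_left₀ hl.le hz 2
    have h2 : 2 ≤ 2 * z ^ 2 / l ^ 2 := by
      rw [le_div_iff₀ (by positivity)]
      linarith
    linarith
  have hz0 : l ≤ |z| → deriv (ph l) z = 0 ∧ deriv (deriv (ph l)) z = 0 := by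
    intro hz
    obtain ⟨a1, a2⟩ := hC0 _ (hout hz)
    refine ⟨?_, ?_⟩
    · rw [e2]
      simp only [a1, zero_mul, zero_div]
    · rw [(e4 z).deriv, a1, a2]
      simp
  rcases le_or_gt l |z| with hz | hz
  · obtain ⟨b1, b2⟩ := hz0 hz
    refine ⟨?_, ?_, hz0⟩
    · rw [b1, abs_zero]; positivity
    · rw [b2, abs_zero]; positivity
  · have hq : |(-(4 * z / l ^ 2))| ≤ 4 / l := by
      rw [abs_neg, abs_div, abs_mul, abs_of_pos (show (0:ℝ) < 4 by norm_num), abs_of_pos (show 0 < l ^ 2 by positivity),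
        div_le_div_iff₀ (by positivity) hl]
      nlinarith
    refine ⟨?_, ?_, hz0⟩
    · rw [(e1 z).deriv, abs_div, abs_mul, abs_of_pos hI0, div_le_div_iff₀ hI0 (by positivity)]
      have h1 := mul_le_mul (hCd (2 - 2 * z ^ 2 / l ^ 2)) hq (abs_nonneg _) hC.le
      have h2 : C * (4 / l) * l ^ 2 = 4 * C * l := by field_simp
      calc _ ≤ C * (4 / l) * l ^ 2 := mul_le_mul_of_nonneg_right h1 (by positivity)
        _ = 4 * C * l := h2
        _ ≤ 20 * C * I := by nlinarith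
    · rw [(e4 z).deriv, abs_div, abs_of_pos hI0, div_le_div_iff₀ hI0 (by positivity)]
      have h1 : |deriv (deriv Real.smoothTransition) (2 - 2 * z ^ 2 / l ^ 2) * (-(4 * z / l ^ 2)) *
          (-(4 * z / l ^ 2)) + deriv Real.smoothTransition (2 - 2 * z ^ 2 / l ^ 2) * (-(4 / l ^ 2))| ≤ 20 * C / l ^ 2 := by
        refine (abs_add_le _ _).trans ?_
        rw [abs_mul, abs_mul, abs_mul]
        have h2 : |deriv (deriv Real.smoothTransition) (2 - 2 * z ^ 2 / l ^ 2)| * |(-(4 * z / l ^ 2))| * |(-(4 * z / l ^ 2))| ≤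
            C * (4 / l) * (4 / l) :=
          mul_le_mul (mul_le_mul (hCdd _) hq (abs_nonneg _) hC.le) hq (abs_nonneg _) (by positivity)
        have h3 : |(-(4 / l ^ 2))| = 4 / l ^ 2 := by
          rw [abs_neg, abs_of_pos (by positivity)]
        have h4 : |deriv Real.smoothTransition (2 - 2 * z ^ 2 / l ^ 2)| * |(-(4 / l ^ 2))| ≤ C * (4 / l ^ 2) := by
          rw [h3]
          exact mul_le_mul_of_nonneg_right (hCd _) (by positivity)
        have h5 : C * (4 / l) * (4 / l) + C * (4 / l ^ 2) = 20 * C / l ^ 2 := by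
          field_simp
          ring
        linarith
      calc _ ≤ 20 * C / l ^ 2 * l ^ 3 := mul_le_mul_of_nonneg_right h1 (by positivity)
        _ = 20 * C * l := by field_simp
        _ ≤ 20 * C * I := by nlinarith


theorem Ga_pdc {f : E3 → ℝ} {c : ℝ → ℝ} (hf : Differentiable ℝ f) (hc : Differentiable ℝ c) (i : Fin 3) (x : E3) :
    pd i (fun y => f y * c (y 2)) x = pd i f x * c (x 2) + f x * ((if i = 2 then 1 else 0) * deriv c (x 2)) := by
  have h1 : DifferentiableAt ℝ (fun y : E3 => c (y 2)) x := (hc (x 2)).comp x (Psi_dc 2 x)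
  have h2 := Ga_comp (f := fun y : E3 => y 2) (hc (x 2)).hasDerivAt (Psi_dc 2 x) i
  rw [Psi_mul (hf x) h1, h2, Psi_coord]
  by_cases h : i = 2
  · rw [if_pos h, if_pos h.symm]; ring
  · rw [if_neg h, if_neg (Ne.symm h)]; ring

/-- the derivatives of the test function -/
theorem Ga_d {lam s : ℝ} (hlam : 0 < lam) (hs : 0 ≤ s) {c : ℝ → ℝ} (hc : ContDiff ℝ ∞ c) (x : E3) :
    pd 2 (fun x => gs lam s x * c (x 2)) x = gs lam s x * deriv c (x 2) ∧
    hg (fun x => gs lam s x * c (x 2)) x = 2 * lam * rad x / (1 + 4 * lam * s) * gs lam s x * |c (x 2)| := by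
  have hτ : 1 ≤ 1 + 4 * lam * s := by nlinarith [mul_nonneg hlam.le hs]
  have hτ0 : 0 < 1 + 4 * lam * s := by linarith
  obtain ⟨-, h1, h2, h3, h4, -⟩ := gs_f hlam hs
  have hd := Psi_diff (Ga_sm (lam := lam) (s := s))
  have hcd : Differentiable ℝ c := hc.differentiable (by simp)
  refine ⟨?_, ?_⟩
  · rw [Ga_pdc hd hcd, h2, if_pos rfl]
    ring
  · unfold hg
    rw [Ga_pdc hd hcd, Ga_pdc hd hcd, h3, h4, if_neg (by decide), if_neg (by decide)]
    have e1 : (-(2 * lam * x 0 / (1 + 4 * lam * s)) * gs lam s x * c (x 2) + gs lam s x * (0 * deriv c (x 2))) ^ 2 +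
        (-(2 * lam * x 1 / (1 + 4 * lam * s)) * gs lam s x * c (x 2) + gs lam s x * (0 * deriv c (x 2))) ^ 2 =
        (2 * lam * rad x / (1 + 4 * lam * s) * gs lam s x * |c (x 2)|) ^ 2 := by
      have e2 : rad x ^ 2 = x 0 ^ 2 + x 1 ^ 2 := rad_sq' x
      have e3 : |c (x 2)| ^ 2 = c (x 2) ^ 2 := sq_abs _
      have e4 : (2 * lam * rad x / (1 + 4 * lam * s) * gs lam s x * |c (x 2)|) ^ 2 =
          (2 * lam / (1 + 4 * lam * s)) ^ 2 * gs lam s x ^ 2 * rad x ^ 2 * |c (x 2)| ^ 2 := by ring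
      rw [e4, e2, e3]
      ring
    rw [e1, Real.sqrt_sq]
    have := rad_nonneg x
    have := (h1 x).1
    positivity

theorem Ga_e1 {y : ℝ} (hy : 0 ≤ y) : Real.exp (-y) ≤ 2 * ((1 + y) ^ 2)⁻¹ := by
  have h1 := Real.quadratic_le_exp_of_nonneg hy
  rw [Real.exp_neg, ← div_eq_mul_inv, le_div_iff₀ (by positivity), inv_mul_le_iff₀ (Real.exp_pos _)]
  nlinarith

theorem Ga_e2 {y : ℝ} (hy : 0 ≤ y) : √y * Real.exp (-y) ≤ 2 * ((1 + y / 2) ^ 2)⁻¹ := by
  have h1 := Ga_e1 (show 0 ≤ y / 2 by positivity)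
  have h2 : √y * Real.exp (-(y / 2)) ≤ 1 := by
    have h3 : √y ≤ 1 + y / 2 := by
      rw [Real.sqrt_le_left (by positivity)]
      nlinarith [sq_nonneg y]
    have h4 := Real.add_one_le_exp (y / 2)
    rw [Real.exp_neg, ← div_eq_mul_inv, div_le_one (Real.exp_pos _)]
    linarith
  have e : Real.exp (-y) = Real.exp (-(y / 2)) * Real.exp (-(y / 2)) := by
    rw [← Real.exp_add]
    congr 1
    ring
  rw [e, ← mul_assoc]
  calc _ ≤ 1 * Real.exp (-(y / 2)) := mul_le_mul_of_nonneg_right h2 (Real.exp_pos _).le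
    _ ≤ _ := by rw [one_mul]; exact h1

theorem Ga_e3 {y : ℝ} (hy : 0 ≤ y) : √y * Real.exp (-y) ≤ 2 * ((1 + y) ^ 2)⁻¹ := by
  have h1 : (1 + y) ^ 3 / 4 ≤ Real.exp y := by
    have h2 := Real.sum_le_exp_of_nonneg (show 0 ≤ y / 3 by positivity) 4
    simp only [Finset.sum_range_succ, Finset.sum_range_zero, Nat.factorial] at h2
    norm_num at h2
    have h3 : (1 + y) * (63 / 100) ≤ Real.exp (y / 3) := by
      refine le_trans ?_ h2
      have : 0 ≤ (y / 3) ^ 3 := by positivity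
      nlinarith [sq_nonneg (y / 3 - 2 / 3), mul_nonneg hy (sq_nonneg (y / 3 - 2 / 3))]
    have h4 : Real.exp y = Real.exp (y / 3) ^ 3 := by
      rw [← Real.exp_nat_mul]
      congr 1
      push_cast
      ring
    rw [h4]
    have h5 := pow_le_pow_left₀ (by positivity) h3 3
    refine le_trans ?_ h5
    have : 0 ≤ (1 + y) ^ 3 := by positivity
    nlinarith
  have h6 : √y ≤ (1 + y) / 2 := by
    rw [Real.sqrt_le_left (by positivity)]
    nlinarith [sq_nonneg (1 - y)]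
  rw [Real.exp_neg, ← div_eq_mul_inv, ← div_eq_mul_inv, div_le_div_iff₀ (Real.exp_pos _) (by positivity)]
  have h7 : 0 ≤ (1 + y) ^ 2 := by positivity
  nlinarith [mul_le_mul_of_nonneg_right h6 h7]

theorem Ga_y (x : E3) : rad x = √(rsq x) := by
  rw [← rad_sq' x, Real.sqrt_sq (rad_nonneg x)]

theorem Ga_hg {lam s : ℝ} (hlam : 0 < lam) (hs : 0 ≤ s) (x : E3) :
    2 * lam * rad x / (1 + 4 * lam * s) * gs lam s x =
      2 * √lam * (√(1 + 4 * lam * s))⁻¹ * (1 + 4 * lam * s)⁻¹ * (√(lam * rsq x / (1 + 4 * lam * s)) * Real.exp (-(lam * rsq x / (1 + 4 * lam * s)))) := by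
  have hτ : 1 ≤ 1 + 4 * lam * s := by nlinarith [mul_nonneg hlam.le hs]
  have hτ0 : 0 < 1 + 4 * lam * s := by linarith
  have h1 : √(lam * rsq x / (1 + 4 * lam * s)) = √lam * rad x / √(1 + 4 * lam * s) := by
    rw [Real.sqrt_div' _ hτ0.le, Real.sqrt_mul hlam.le, Ga_y]
  have h2 : √lam * √lam = lam := Real.mul_self_sqrt hlam.le
  have h3 : √(1 + 4 * lam * s) * √(1 + 4 * lam * s) = 1 + 4 * lam * s := Real.mul_self_sqrt hτ0.le
  have h4 : 0 < √(1 + 4 * lam * s) := Real.sqrt_pos.2 hτ0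
  rw [h1]
  unfold gs
  have h5 : (1 + 4 * lam * s)⁻¹ = (√(1 + 4 * lam * s))⁻¹ * (√(1 + 4 * lam * s))⁻¹ := by
    rw [← mul_inv, h3]
  calc _ = 2 * (√lam * √lam) * rad x * (1 + 4 * lam * s)⁻¹ * ((1 + 4 * lam * s)⁻¹ * Real.exp (-(lam * rsq x / (1 + 4 * lam * s)))) := by
        rw [h2, div_eq_mul_inv]
    _ = 2 * (√lam * √lam) * rad x * ((√(1 + 4 * lam * s))⁻¹ * (√(1 + 4 * lam * s))⁻¹) *
        ((1 + 4 * lam * s)⁻¹ * Real.exp (-(lam * rsq x / (1 + 4 * lam * s)))) := by rw [← h5]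
    _ = _ := by
        rw [div_eq_mul_inv]
        ring

/-- the weight dominates -/
theorem Ga_w {R l : ℝ} {x : E3} (hR : 0 < R) (hl : 0 < l) {a c A B y : ℝ} (ha : 0 ≤ a) (hA : 0 ≤ A) (hB : 0 ≤ B) (hy : rsq x / R ^ 2 ≤ y)
    (h1 : a ≤ A * ((1 + y) ^ 2)⁻¹) (h2 : |c| ≤ B) (h3 : l ≤ |x 2| → c = 0) : a * |c| ≤ A * B * 2 * wt R l 0 x := by
  have hρ : 0 ≤ rsq x / R ^ 2 := by unfold rsq; positivity
  have h4 : a ≤ A * ((1 + rsq x / R ^ 2) ^ 2)⁻¹ := by
    refine h1.trans (mul_le_mul_of_nonneg_left ?_ hA)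
    exact inv_anti₀ (by positivity) (pow_le_pow_left₀ (by positivity) (by linarith) 2)
  have h5 : |c| ≤ B * (2 * (1 + (x 2 - 0) ^ 2 / l ^ 2)⁻¹) := by
    rcases le_or_gt l |x 2| with hz | hz
    · rw [h3 hz, abs_zero]; positivity
    · refine h2.trans (le_mul_of_one_le_right hB ?_)
      have h6 : (x 2 - 0) ^ 2 / l ^ 2 ≤ 1 := by
        rw [div_le_one (by positivity), sub_zero, ← sq_abs]
        exact pow_le_pow_left₀ (abs_nonneg _) hz.le 2
      rw [← div_eq_mul_inv, one_le_div (by positivity)]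
      linarith
  calc a * |c| ≤ (A * ((1 + rsq x / R ^ 2) ^ 2)⁻¹) * (B * (2 * (1 + (x 2 - 0) ^ 2 / l ^ 2)⁻¹)) :=
        mul_le_mul h4 h5 (abs_nonneg _) (ha.trans h4)
    _ = _ := by unfold wt; ring

theorem G_b {lam : ℝ} (hlam : 0 < lam) : ∃ C : ℝ, 1 ≤ C ∧ ∀ R₁ R₂ l s : ℝ, 1 ≤ R₁ → 0 < R₂ → 2 * (1 + 4 * lam * R₁ ^ 2) ≤ lam * R₂ ^ 2 → 0 < l →
    0 ≤ s → s ≤ R₁ ^ 2 → ∀ x, 0 ≤ gs lam s x * ph l (x 2) ∧ gs lam s x * ph l (x 2) ≤ C / l * wt R₂ l 0 x ∧
      hg (fun x => gs lam s x * ph l (x 2)) x ≤ C / l * wt R₂ l 0 x ∧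
      |pd 2 (fun x => gs lam s x * ph l (x 2)) x| ≤ C / l ^ 2 * wt R₂ l 0 x ∧
      |pd 2 (pd 2 (fun x => gs lam s x * ph l (x 2))) x| ≤ C / l ^ 3 * wt R₂ l 0 x ∧
      hg (pd 2 (pd 2 (fun x => gs lam s x * ph l (x 2)))) x ≤ C / l ^ 3 * wt R₂ l 0 x := by
  obtain ⟨Cd, hCd1, hCd⟩ := ph_d
  have hsl : 0 ≤ √lam := Real.sqrt_nonneg _
  refine ⟨8 * (1 + √lam) * Cd, by nlinarith, fun R₁ R₂ l s hR₁ hR₂ hRR hl hs hsR x => ?_⟩
  have hτ : 1 ≤ 1 + 4 * lam * s := by nlinarith [mul_nonneg hlam.le hs]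
  have hτ0 : 0 < 1 + 4 * lam * s := by linarith
  have hτR : 2 * (1 + 4 * lam * s) ≤ lam * R₂ ^ 2 := by nlinarith
  obtain ⟨p1, -, -, p4⟩ := ph_f hl
  have p1' : ContDiff ℝ ∞ (deriv (ph l)) := (contDiff_infty_iff_deriv.1 p1).2
  have p1'' : ContDiff ℝ ∞ (deriv (deriv (ph l))) := (contDiff_infty_iff_deriv.1 p1').2
  have hw : 0 ≤ wt R₂ l 0 x := (wt_pos hR₂ hl 0 x).le
  set y := lam * rsq x / (1 + 4 * lam * s) with hy
  have hr0 : 0 ≤ rsq x := by unfold rsq; positivity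
  have hy0 : 0 ≤ y := by positivity
  have hyR : rsq x / R₂ ^ 2 ≤ y / 2 := by
    rw [hy, div_div, div_le_div_iff₀ (by positivity) (by positivity)]
    nlinarith
  have hg1 : gs lam s x ≤ 2 * ((1 + y) ^ 2)⁻¹ := by
    have h1 := Ga_e1 hy0
    have h2 : (1 + 4 * lam * s)⁻¹ ≤ 1 := inv_le_one_of_one_le₀ hτ
    calc gs lam s x = (1 + 4 * lam * s)⁻¹ * Real.exp (-y) := rfl
      _ ≤ 1 * (2 * ((1 + y) ^ 2)⁻¹) := mul_le_mul h2 h1 (Real.exp_pos _).le zero_le_one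
      _ = _ := one_mul _
  have hg2 : 2 * lam * rad x / (1 + 4 * lam * s) * gs lam s x ≤ 4 * √lam * ((1 + y / 2) ^ 2)⁻¹ := by
    rw [Ga_hg hlam hs]
    have h1 := Ga_e2 hy0
    have h2 : (1 + 4 * lam * s)⁻¹ ≤ 1 := inv_le_one_of_one_le₀ hτ
    have h3 : (√(1 + 4 * lam * s))⁻¹ ≤ 1 := inv_le_one_of_one_le₀ (Real.one_le_sqrt.2 hτ)
    have h4 : 2 * √lam * (√(1 + 4 * lam * s))⁻¹ * (1 + 4 * lam * s)⁻¹ ≤ 2 * √lam * 1 * 1 := by gcongr
    calc _ ≤ (2 * √lam * 1 * 1) * (2 * ((1 + y / 2) ^ 2)⁻¹) :=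
          mul_le_mul h4 h1 (by positivity) (by positivity)
      _ = _ := by ring
  have hgp : 0 < gs lam s x := ((gs_f hlam hs).2.1 x).1
  have hgn : 0 ≤ 2 * lam * rad x / (1 + 4 * lam * s) * gs lam s x := by
    have := rad_nonneg x
    positivity
  have e1 : pd 2 (fun x => gs lam s x * ph l (x 2)) = fun x => gs lam s x * deriv (ph l) (x 2) :=
    funext fun x => (Ga_d hlam hs p1 x).1
  have e2 : pd 2 (pd 2 (fun x => gs lam s x * ph l (x 2))) = fun x => gs lam s x * deriv (deriv (ph l)) (x 2) := by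
    rw [e1]
    exact funext fun x => (Ga_d hlam hs p1' x).1
  have hyR' : rsq x / R₂ ^ 2 ≤ y := by linarith
  have b1 : |ph l (x 2)| ≤ 1 / l := by
    rw [abs_of_nonneg (p4 _).1]
    exact (p4 _).2.1
  obtain ⟨b2, b3, b4⟩ := hCd l hl (x 2)
  have hC1 : ∀ {k : ℝ}, 0 < k → (4:ℝ) / k ≤ 8 * (1 + √lam) * Cd / k := by
    intro k hk
    apply div_le_div_of_nonneg_right _ hk.le
    nlinarith
  have hC2 : ∀ {k : ℝ}, 0 < k → 4 * Cd / k ≤ 8 * (1 + √lam) * Cd / k := by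
    intro k hk
    apply div_le_div_of_nonneg_right _ hk.le
    nlinarith
  have hC3 : ∀ {k : ℝ}, 0 < k → 8 * √lam / k ≤ 8 * (1 + √lam) * Cd / k := by
    intro k hk
    apply div_le_div_of_nonneg_right _ hk.le
    nlinarith
  have hC4 : ∀ {k : ℝ}, 0 < k → 8 * √lam * Cd / k ≤ 8 * (1 + √lam) * Cd / k := by
    intro k hk
    apply div_le_div_of_nonneg_right _ hk.le
    nlinarith
  refine ⟨mul_nonneg hgp.le (p4 _).1, ?_, ?_, ?_, ?_, ?_⟩
  · have h := Ga_w hR₂ hl hgp.le (by norm_num) (by positivity) hyR' hg1 b1 (p4 _).2.2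
    rw [abs_of_nonneg (p4 _).1] at h
    refine h.trans ?_
    calc _ = 4 / l * wt R₂ l 0 x := by ring
      _ ≤ _ := mul_le_mul_of_nonneg_right (hC1 hl) hw
  · rw [(Ga_d hlam hs p1 x).2]
    refine (Ga_w hR₂ hl hgn (by positivity) (by positivity) hyR hg2 b1 (p4 _).2.2).trans ?_
    calc _ = 8 * √lam / l * wt R₂ l 0 x := by ring
      _ ≤ _ := mul_le_mul_of_nonneg_right (hC3 hl) hw
  · rw [e1, abs_mul, abs_of_pos hgp]
    refine (Ga_w hR₂ hl hgp.le (by norm_num) (by positivity) hyR' hg1 b2 fun h => (b4 h).1).trans ?_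
    calc _ = 4 * Cd / l ^ 2 * wt R₂ l 0 x := by ring
      _ ≤ _ := mul_le_mul_of_nonneg_right (hC2 (by positivity)) hw
  · rw [e2, abs_mul, abs_of_pos hgp]
    refine (Ga_w hR₂ hl hgp.le (by norm_num) (by positivity) hyR' hg1 b3 fun h => (b4 h).2).trans ?_
    calc _ = 4 * Cd / l ^ 3 * wt R₂ l 0 x := by ring
      _ ≤ _ := mul_le_mul_of_nonneg_right (hC2 (by positivity)) hw
  · rw [e2, (Ga_d hlam hs p1'' x).2]
    refine (Ga_w hR₂ hl hgn (by positivity) (by positivity) hyR hg2 b3 fun h => (b4 h).2).trans ?_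
    calc _ = 8 * √lam * Cd / l ^ 3 * wt R₂ l 0 x := by ring
      _ ≤ _ := mul_le_mul_of_nonneg_right (hC4 (by positivity)) hw

theorem G_s {lam s l : ℝ} (hlam : 0 < lam) (hs : 0 ≤ s) (hl : 0 < l) :
    ∫ x, hg (fun x : E3 => gs lam s x * ph l (x 2)) x ≤ 80 / √(lam * (1 + 4 * lam * s)) := by
  have hτ : 1 ≤ 1 + 4 * lam * s := by nlinarith [mul_nonneg hlam.le hs]
  have hτ0 : 0 < 1 + 4 * lam * s := by linarith
  obtain ⟨p1, -, -, p4⟩ := ph_f hl
  have hsl : 0 < √lam := Real.sqrt_pos.2 hlam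
  have hst : 0 < √(1 + 4 * lam * s) := Real.sqrt_pos.2 hτ0
  set R := √(1 + 4 * lam * s) / √lam with hR
  have hR0 : 0 < R := by positivity
  have hR2 : R ^ 2 = (1 + 4 * lam * s) / lam := by
    rw [hR, div_pow, Real.sq_sqrt hτ0.le, Real.sq_sqrt hlam.le]
  obtain ⟨w1, w2⟩ := wt_int hR0 hl 0
  have hpt : ∀ x : E3, hg (fun x : E3 => gs lam s x * ph l (x 2)) x ≤
      8 * √lam * (√(1 + 4 * lam * s))⁻¹ * (1 + 4 * lam * s)⁻¹ / l * wt R l 0 x := by
    intro x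
    have hr0 : 0 ≤ rsq x := by unfold rsq; positivity
    have hy0 : 0 ≤ lam * rsq x / (1 + 4 * lam * s) := by positivity
    have hyR : rsq x / R ^ 2 ≤ lam * rsq x / (1 + 4 * lam * s) := by
      rw [hR2]
      refine le_of_eq ?_
      field_simp
    have hgp : 0 < gs lam s x := ((gs_f hlam hs).2.1 x).1
    have hgn : 0 ≤ 2 * lam * rad x / (1 + 4 * lam * s) * gs lam s x := by
      have := rad_nonneg x
      positivity
    have hg2 : 2 * lam * rad x / (1 + 4 * lam * s) * gs lam s x ≤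
        4 * √lam * (√(1 + 4 * lam * s))⁻¹ * (1 + 4 * lam * s)⁻¹ * ((1 + lam * rsq x / (1 + 4 * lam * s)) ^ 2)⁻¹ := by
      rw [Ga_hg hlam hs]
      have h1 := Ga_e3 hy0
      calc _ ≤ 2 * √lam * (√(1 + 4 * lam * s))⁻¹ * (1 + 4 * lam * s)⁻¹ * (2 * ((1 + lam * rsq x / (1 + 4 * lam * s)) ^ 2)⁻¹) :=
            mul_le_mul_of_nonneg_left h1 (by positivity)
        _ = _ := by ring
    have b1 : |ph l (x 2)| ≤ 1 / l := by
      rw [abs_of_nonneg (p4 _).1]
      exact (p4 _).2.1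
    rw [(Ga_d hlam hs p1 x).2]
    refine (Ga_w hR0 hl hgn (by positivity) (by positivity) hyR hg2 b1 (p4 _).2.2).trans (le_of_eq ?_)
    ring
  have h1 : ∫ x, hg (fun x : E3 => gs lam s x * ph l (x 2)) x ≤
      ∫ x, 8 * √lam * (√(1 + 4 * lam * s))⁻¹ * (1 + 4 * lam * s)⁻¹ / l * wt R l 0 x :=
    integral_mono_of_nonneg (Eventually.of_forall fun x => Real.sqrt_nonneg _) (w1.const_mul _) (Eventually.of_forall hpt)
  refine h1.trans ?_
  rw [integral_const_mul]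
  have h2 : 8 * √lam * (√(1 + 4 * lam * s))⁻¹ * (1 + 4 * lam * s)⁻¹ / l * ∫ x, wt R l 0 x ≤
      8 * √lam * (√(1 + 4 * lam * s))⁻¹ * (1 + 4 * lam * s)⁻¹ / l * (10 * R ^ 2 * l) :=
    mul_le_mul_of_nonneg_left w2 (by positivity)
  refine h2.trans (le_of_eq ?_)
  rw [hR2, Real.sqrt_mul hlam.le]
  have h3 : lam = √lam * √lam := (Real.mul_self_sqrt hlam.le).symm
  have h4 : 8 * √lam * (√(1 + 4 * lam * s))⁻¹ * (1 + 4 * lam * s)⁻¹ / l * (10 * ((1 + 4 * lam * s) / lam) * l) =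
      80 * (√(1 + 4 * lam * s))⁻¹ * (√lam / lam) := by
    field_simp
    ring
  rw [h4]
  have h5 : √lam / lam = (√lam)⁻¹ := by
    nth_rw 2 [h3]
    field_simp
  rw [h5]
  field_simp

/-- Gaussians times polynomials times functions of `x 2`. -/
inductive GG (lam s : ℝ) : (E3 → ℝ) → Prop
  | base (m n : ℕ) (c : ℝ → ℝ) (hc : ContDiff ℝ ∞ c) (hs : HasCompactSupport c) (a : ℝ) :
      GG lam s (fun x => a * (x 0 ^ m * x 1 ^ n * gs lam s x * c (x 2)))
  | add (f g : E3 → ℝ) : GG lam s f → GG lam s g → GG lam s (fun x => f x + g x)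

theorem GG_sm {lam s : ℝ} {f : E3 → ℝ} (h : GG lam s f) : ContDiff ℝ ∞ f := by
  induction h with
  | base m n c hc hs a =>
    exact contDiff_const.mul (((((VRep_x 0).pow m).mul ((VRep_x 1).pow n)).mul Ga_sm).mul (hc.comp (VRep_x 2)))
  | add f g _ _ h1 h2 => exact h1.add h2

theorem GG_bd {lam s : ℝ} (hlam : 0 < lam) (hs : 0 ≤ s) {f : E3 → ℝ} (h : GG lam s f) : ∃ K : ℝ, ∀ x, |f x| ≤ K * wt 1 1 0 x := by
  have hτ : 1 ≤ 1 + 4 * lam * s := by nlinarith [mul_nonneg hlam.le hs]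
  have hτ0 : 0 < 1 + 4 * lam * s := by linarith
  induction h with
  | base m n c hc hcs a =>
    -- the vertical factor
    have h1 : Continuous (fun z : ℝ => c z * (1 + z ^ 2)) := hc.continuous.mul (by fun_prop)
    have h2 : HasCompactSupport (fun z : ℝ => c z * (1 + z ^ 2)) := hcs.mul_right
    obtain ⟨K1, hK1⟩ := h1.bounded_above_of_compact_support h2
    set α := lam / (1 + 4 * lam * s) with hα
    have hα0 : 0 < α := by positivity
    set k := m + n + 2 with hk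
    set K2 : ℝ := (k.factorial : ℝ) / α ^ k * Real.exp α with hK2
    have hK20 : 0 ≤ K2 := by positivity
    have hK10 : 0 ≤ K1 := (norm_nonneg _).trans (hK1 0)
    refine ⟨|a| * (K2 * K1), fun x => ?_⟩
    have hr0 : 0 ≤ rsq x := by unfold rsq; positivity
    have hr1 : 1 ≤ 1 + rsq x := by linarith
    have b0 : |x 0| ≤ 1 + rsq x := by
      have : x 0 ^ 2 ≤ rsq x := by unfold rsq; nlinarith [sq_nonneg (x 1)]
      nlinarith [sq_abs (x 0), sq_nonneg (|x 0| - 1), abs_nonneg (x 0)]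
    have b1 : |x 1| ≤ 1 + rsq x := by
      have : x 1 ^ 2 ≤ rsq x := by unfold rsq; nlinarith [sq_nonneg (x 0)]
      nlinarith [sq_abs (x 1), sq_nonneg (|x 1| - 1), abs_nonneg (x 1)]
    have b2 : gs lam s x ≤ Real.exp (-(α * rsq x)) := by
      have e : lam * rsq x / (1 + 4 * lam * s) = α * rsq x := by rw [hα]; ring
      unfold gs
      rw [e]
      exact mul_le_of_le_one_left (Real.exp_pos _).le (inv_le_one_of_one_le₀ hτ)
    have b3 : (1 + rsq x) ^ k * Real.exp (-(α * rsq x)) ≤ K2 := by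
      have h3 := Real.pow_div_factorial_le_exp (x := α * (1 + rsq x)) (by positivity) k
      have e1 : Real.exp (α * (1 + rsq x)) = Real.exp α * Real.exp (α * rsq x) := by
        rw [← Real.exp_add]
        congr 1
        ring
      rw [e1, mul_pow, div_le_iff₀ (by positivity)] at h3
      rw [Real.exp_neg, ← div_eq_mul_inv, div_le_iff₀ (Real.exp_pos _), hK2, div_mul_eq_mul_div, div_mul_eq_mul_div,
        le_div_iff₀ (by positivity)]
      nlinarith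
    have hgp : 0 < gs lam s x := ((gs_f hlam hs).2.1 x).1
    have h4 : |x 0 ^ m * x 1 ^ n * gs lam s x| ≤ K2 * ((1 + rsq x) ^ 2)⁻¹ := by
      rw [abs_mul, abs_mul, abs_pow, abs_pow, abs_of_pos hgp, ← div_eq_mul_inv, le_div_iff₀ (by positivity)]
      calc _ ≤ (1 + rsq x) ^ m * (1 + rsq x) ^ n * Real.exp (-(α * rsq x)) * (1 + rsq x) ^ 2 := by
            gcongr
        _ = (1 + rsq x) ^ k * Real.exp (-(α * rsq x)) := by rw [hk]; ring
        _ ≤ K2 := b3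
    have h5 : |c (x 2)| ≤ K1 * (1 + x 2 ^ 2)⁻¹ := by
      have h6 := hK1 (x 2)
      rw [Real.norm_eq_abs, abs_mul, abs_of_pos (show (0:ℝ) < 1 + x 2 ^ 2 by positivity)] at h6
      rw [← div_eq_mul_inv, le_div_iff₀ (by positivity)]
      exact h6
    have e2 : wt 1 1 0 x = ((1 + rsq x) ^ 2)⁻¹ * (1 + x 2 ^ 2)⁻¹ := by
      unfold wt
      norm_num
    rw [abs_mul, abs_mul _ (c (x 2)), e2]
    calc |a| * (|x 0 ^ m * x 1 ^ n * gs lam s x| * |c (x 2)|) ≤ |a| * ((K2 * ((1 + rsq x) ^ 2)⁻¹) * (K1 * (1 + x 2 ^ 2)⁻¹)) := by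
          gcongr
      _ = _ := by ring
  | add f g _ _ h1 h2 =>
    obtain ⟨K1, hK1⟩ := h1
    obtain ⟨K2, hK2⟩ := h2
    refine ⟨K1 + K2, fun x => (abs_add_le _ _).trans ?_⟩
    rw [add_mul]
    exact add_le_add (hK1 x) (hK2 x)

theorem GG_smul {lam s : ℝ} {f : E3 → ℝ} (h : GG lam s f) (b : ℝ) : GG lam s (fun x => b * f x) := by
  induction h with
  | base m n c hc hs a =>
    have e : (fun x : E3 => b * (a * (x 0 ^ m * x 1 ^ n * gs lam s x * c (x 2)))) =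
        fun x => (b * a) * (x 0 ^ m * x 1 ^ n * gs lam s x * c (x 2)) := by
      funext x
      ring
    rw [e]
    exact GG.base m n c hc hs _
  | add f g _ _ h1 h2 =>
    have e : (fun x : E3 => b * (f x + g x)) = fun x => b * f x + b * g x := by
      funext x
      ring
    rw [e]
    exact GG.add _ _ h1 h2

theorem GG_pd {lam s : ℝ} (hlam : 0 < lam) (hs : 0 ≤ s) {f : E3 → ℝ} (h : GG lam s f) (i : Fin 3) : GG lam s (pd i f) := by
  obtain ⟨-, -, g2, g3, g4, -⟩ := gs_f hlam hs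
  induction h with
  | base m n c hc hcs a =>
    have hc' : ContDiff ℝ ∞ (deriv c) := (contDiff_infty_iff_deriv.1 hc).2
    have hd : ∀ (k : ℕ) (j : Fin 3) (x : E3), DifferentiableAt ℝ (fun y : E3 => y j ^ k) x := fun k j x => (Psi_dc j x).pow k
    have hp : ∀ (k : ℕ) (j : Fin 3) (x : E3), pd i (fun y : E3 => y j ^ k) x = k * x j ^ (k - 1) * (if j = i then 1 else 0) := by
      intro k j x
      rw [Ga_comp (hasDerivAt_pow k (x j)) (Psi_dc j x) i, Psi_coord]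
    have hgd : ∀ x, DifferentiableAt ℝ (gs lam s) x := Psi_diff (Ga_sm (lam := lam) (s := s))
    have hcd : ∀ x : E3, DifferentiableAt ℝ (fun y : E3 => c (y 2)) x := fun x =>
      (hc.differentiable (by simp) (x 2)).comp x (Psi_dc 2 x)
    have hcp : ∀ x : E3, pd i (fun y : E3 => c (y 2)) x = deriv c (x 2) * (if (2 : Fin 3) = i then 1 else 0) := by
      intro x
      rw [Ga_comp (f := fun y : E3 => y 2) (hc.differentiable (by simp) (x 2)).hasDerivAt (Psi_dc 2 x) i, Psi_coord]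
    have hgp : ∀ x, pd i (gs lam s) x = -(lam / (1 + 4 * lam * s)) * (if i = 2 then 0 else 2 * x i) * gs lam s x := fun x => Ga_pd lam s i x
    have e : pd i (fun x => a * (x 0 ^ m * x 1 ^ n * gs lam s x * c (x 2))) = fun x =>
        a * (((m * x 0 ^ (m - 1) * (if (0 : Fin 3) = i then 1 else 0)) * x 1 ^ n + x 0 ^ m * (n * x 1 ^ (n - 1) * (if (1 : Fin 3) = i then 1 else 0))) *
          gs lam s x * c (x 2) + x 0 ^ m * x 1 ^ n * (-(lam / (1 + 4 * lam * s)) * (if i = 2 then 0 else 2 * x i) * gs lam s x) * c (x 2) +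
          x 0 ^ m * x 1 ^ n * gs lam s x * (deriv c (x 2) * (if (2 : Fin 3) = i then 1 else 0))) := by
      funext x
      have d1 : DifferentiableAt ℝ (fun y : E3 => y 0 ^ m * y 1 ^ n) x := Psi_dmul (hd m 0 x) (hd n 1 x)
      have d2 : DifferentiableAt ℝ (fun y : E3 => y 0 ^ m * y 1 ^ n * gs lam s y) x := Psi_dmul d1 (hgd x)
      have d3 : DifferentiableAt ℝ (fun y : E3 => y 0 ^ m * y 1 ^ n * gs lam s y * c (y 2)) x := Psi_dmul d2 (hcd x)
      rw [Psi_cm d3, Psi_mul d2 (hcd x), Psi_mul d1 (hgd x), Psi_mul (hd m 0 x) (hd n 1 x), hp, hp, hgp, hcp]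
      ring
    rw [e]
    have key : ∀ j : Fin 3, i = j → GG lam s (fun x =>
        a * (((m * x 0 ^ (m - 1) * (if (0 : Fin 3) = i then 1 else 0)) * x 1 ^ n + x 0 ^ m * (n * x 1 ^ (n - 1) * (if (1 : Fin 3) = i then 1 else 0))) *
          gs lam s x * c (x 2) + x 0 ^ m * x 1 ^ n * (-(lam / (1 + 4 * lam * s)) * (if i = 2 then 0 else 2 * x i) * gs lam s x) * c (x 2) +
          x 0 ^ m * x 1 ^ n * gs lam s x * (deriv c (x 2) * (if (2 : Fin 3) = i then 1 else 0)))) := by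
      intro j hj
      fin_cases j
      · have hj' : i = 0 := hj
        subst hj'
        have e1 : (fun x : E3 =>
            a * (((m * x 0 ^ (m - 1) * (if (0 : Fin 3) = 0 then 1 else 0)) * x 1 ^ n + x 0 ^ m * (n * x 1 ^ (n - 1) * (if (1 : Fin 3) = 0 then 1 else 0))) *
              gs lam s x * c (x 2) + x 0 ^ m * x 1 ^ n * (-(lam / (1 + 4 * lam * s)) * (if (0 : Fin 3) = 2 then 0 else 2 * x 0) * gs lam s x) * c (x 2) +
              x 0 ^ m * x 1 ^ n * gs lam s x * (deriv c (x 2) * (if (2 : Fin 3) = 0 then 1 else 0)))) =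
            fun x => (a * m) * (x 0 ^ (m - 1) * x 1 ^ n * gs lam s x * c (x 2)) +
              (-(2 * a * (lam / (1 + 4 * lam * s)))) * (x 0 ^ (m + 1) * x 1 ^ n * gs lam s x * c (x 2)) := by
          funext x
          simp
          ring
        rw [e1]
        exact GG.add _ _ (GG.base _ _ c hc hcs _) (GG.base _ _ c hc hcs _)
      · have hj' : i = 1 := hj
        subst hj'
        have e1 : (fun x : E3 =>
            a * (((m * x 0 ^ (m - 1) * (if (0 : Fin 3) = 1 then 1 else 0)) * x 1 ^ n + x 0 ^ m * (n * x 1 ^ (n - 1) * (if (1 : Fin 3) = 1 then 1 else 0))) *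
              gs lam s x * c (x 2) + x 0 ^ m * x 1 ^ n * (-(lam / (1 + 4 * lam * s)) * (if (1 : Fin 3) = 2 then 0 else 2 * x 1) * gs lam s x) * c (x 2) +
              x 0 ^ m * x 1 ^ n * gs lam s x * (deriv c (x 2) * (if (2 : Fin 3) = 1 then 1 else 0)))) =
            fun x => (a * n) * (x 0 ^ m * x 1 ^ (n - 1) * gs lam s x * c (x 2)) +
              (-(2 * a * (lam / (1 + 4 * lam * s)))) * (x 0 ^ m * x 1 ^ (n + 1) * gs lam s x * c (x 2)) := by
          funext x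
          simp
          ring
        rw [e1]
        exact GG.add _ _ (GG.base _ _ c hc hcs _) (GG.base _ _ c hc hcs _)
      · have hj' : i = 2 := hj
        subst hj'
        have e1 : (fun x : E3 =>
            a * (((m * x 0 ^ (m - 1) * (if (0 : Fin 3) = 2 then 1 else 0)) * x 1 ^ n + x 0 ^ m * (n * x 1 ^ (n - 1) * (if (1 : Fin 3) = 2 then 1 else 0))) *
              gs lam s x * c (x 2) + x 0 ^ m * x 1 ^ n * (-(lam / (1 + 4 * lam * s)) * (if (2 : Fin 3) = 2 then 0 else 2 * x 2) * gs lam s x) * c (x 2) +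
              x 0 ^ m * x 1 ^ n * gs lam s x * (deriv c (x 2) * (if (2 : Fin 3) = 2 then 1 else 0)))) =
            fun x => a * (x 0 ^ m * x 1 ^ n * gs lam s x * deriv c (x 2)) := by
          funext x
          simp
        rw [e1]
        exact GG.base _ _ _ hc' hcs.deriv _
    exact key i rfl
  | add f g hf hg' h1 h2 =>
    have e : pd i (fun x => f x + g x) = fun x => pd i f x + pd i g x := by
      funext x
      exact Psi_add (Psi_diff (GG_sm hf) x) (Psi_diff (GG_sm hg') x) i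
    rw [e]
    exact GG.add _ _ h1 h2

theorem GG_TF {lam s : ℝ} (hlam : 0 < lam) (hs : 0 ≤ s) {f : E3 → ℝ} (h : GG lam s f) : TF f := by
  have key : ∀ g : E3 → ℝ, GG lam s g → Integrable g ∧ ∃ B : ℝ, 0 ≤ B ∧ ∀ x, |g x| ≤ B := by
    intro g hg'
    obtain ⟨K, hK⟩ := GG_bd hlam hs hg'
    have h1 : ∀ x, |g x| ≤ |K| * wt 1 1 0 x := fun x =>
      (hK x).trans (mul_le_mul_of_nonneg_right (le_abs_self K) (wt_pos one_pos one_pos 0 x).le)
    refine ⟨((wt_int one_pos one_pos 0).1.const_mul |K|).mono' (GG_sm hg').continuous.aestronglyMeasurable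
      (Eventually.of_forall fun x => by rw [Real.norm_eq_abs]; exact h1 x), |K|, abs_nonneg K, fun x => (h1 x).trans ?_⟩
    exact mul_le_of_le_one_right (abs_nonneg K) (wt_le one_pos one_pos 0 x)
  obtain ⟨a1, B, hB, a2⟩ := key f h
  have b : ∀ i : Fin 3, Integrable (pd i f) ∧ ∃ B : ℝ, 0 ≤ B ∧ ∀ x, |pd i f x| ≤ B := fun i => key _ (GG_pd hlam hs h i)
  choose b1 B' hB' b2 using b
  refine ⟨(GG_sm h).of_le (by simp), a1, b1, B + ∑ i, B' i, fun x => ⟨?_, fun i => ?_⟩⟩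
  · have : 0 ≤ ∑ i, B' i := Finset.sum_nonneg fun i _ => hB' i
    linarith [a2 x]
  · have h3 := Finset.single_le_sum (f := B') (fun i _ => hB' i) (Finset.mem_univ i)
    linarith [b2 i x]

theorem G_t {lam s l : ℝ} (hlam : 0 < lam) (hs : 0 ≤ s) (hl : 0 < l) : ContDiff ℝ ∞ (fun x : E3 => gs lam s x * ph l (x 2)) ∧
    TF (fun x => gs lam s x * ph l (x 2)) ∧ (∀ i, TF (pd i (fun x => gs lam s x * ph l (x 2)))) ∧
    ∀ i j, TF (pd i (pd j (fun x => gs lam s x * ph l (x 2)))) := by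
  obtain ⟨p1, -, -, p4⟩ := ph_f hl
  have hcs : HasCompactSupport (ph l) := by
    apply HasCompactSupport.intro (isCompact_Icc (a := -l) (b := l))
    intro z hz
    apply (p4 z).2.2
    by_contra hlt
    rw [not_le, abs_lt] at hlt
    exact hz ⟨hlt.1.le, hlt.2.le⟩
  have hG : GG lam s (fun x => gs lam s x * ph l (x 2)) := by
    have e : (fun x : E3 => gs lam s x * ph l (x 2)) = fun x => 1 * (x 0 ^ 0 * x 1 ^ 0 * gs lam s x * ph l (x 2)) := by
      funext x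
      simp
    rw [e]
    exact GG.base 0 0 _ p1 hcs 1
  exact ⟨GG_sm hG, GG_TF hlam hs hG, fun i => GG_TF hlam hs (GG_pd hlam hs hG i),
    fun i j => GG_TF hlam hs (GG_pd hlam hs (GG_pd hlam hs hG j) i)⟩

end Pool.Agent.H94.WL
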