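/-
ROW Wi (MP_09540e_WL). Approximation of the horizontal cut-off by Gaussians. PROOF. wei: `deriv (hc δ) ρ = -(1/δ) S'((1-ρ)/δ)` is continuous and vanishes unless `1-δ ≤ ρ ≤ 1` (smoothTransition is constant outside [0,1]: cf. Da_bd and Cut.lean). Put `h y = deriv (hc δ) (-log y) / y` for y > 0, `h 0 = 0`; on [0,1] it is continuous: near 0 (0 < y < e⁻¹) it is 0.
Weierstrass (exists_polynomial_near_of_continuousOn or the C([a,b]) version in Mathlib): a polynomial P with `|P y - h y| ≤ ε` on [0,1]. For ρ ≥ 0 take y = e^(-ρ) ∈ (0,1]: `|deriv (hc δ) ρ - e^(-ρ) P(e^(-ρ))| ≤ ε e^(-ρ)`, and `e^(-ρ) P(e^(-ρ)) = ∑_{i<n} P.coeff i e^(-(i+1)ρ)`, n = natDegree + 1 (Polynomial.eval_eq_sum_range), so `c i = -P.coeff i/(i+1)`.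
wG: `f x = hc δ (rsq x) - ∑ c i e^(-(i+1) rsq x)` is smooth, `pd j f x = 2 x_j (deriv (hc δ) (rsq x) + ∑ (i+1) c i e^(-(i+1)rsq x))` for j = 0, 1 and 0 for j = 2, so `hg (f · ph) ≤ 2 rad ε e^(-rsq) ph ≤ 2ε · (2(1+rsq)⁻²) · (2/l)(1+(x 2)²/l²)⁻¹ = (8 ε/l) wt 1 l 0` (rad e^(-rsq) ≤ ((1+rsq)/2) e^(-rsq) ≤ 2(1+rsq)⁻²), and VV (wt 1 l 0) ≤ 10 l (wt_int).
f ph is TF: compact support in x 2, hc δ (rsq x) has support in rsq ≤ 1 and the exponentials with their derivatives are bounded by Gaussians (G_t with s = 0: `gs (i+1) 0 x = exp (-((i+1) rsq x))` up to `1 + 4 lam 0 = 1`; sums of TF are TF; hc δ (rsq x) ph l (x 2) is smooth with compact support). f1 (Fa.lean): `|∫ v₂ f ph| ≤ N ∫ hg ≤ 80 ε N`.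
-/
import Pool.Agent.H94.WL.Defs
import Pool.Agent.H16.TU.Wb
import Pool.Agent.H94.WL.Fa
import Pool.Agent.H94.WL.Ga

set_option autoImplicit false

open Set Filter Topology MeasureTheory
open scoped ContDiff

namespace Pool.Agent.H94.WL

open Pool.Agent.H16 Pool.Agent.H87.NS Pool.Agent.H72.CC Pool.Agent.H16.TU

theorem Wi_cont {δ : ℝ} (hδ : 0 < δ) : ContDiff ℝ ∞ (hc δ) := by
  unfold hc
  exact Real.smoothTransition.contDiff.comp ((contDiff_const.sub contDiff_id).div_const _)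

theorem Wi_zero {δ : ℝ} (hδ : 0 < δ) {ρ : ℝ} (h : 1 ≤ ρ) : hc δ ρ = 0 := by
  unfold hc
  exact Real.smoothTransition.zero_of_nonpos (div_nonpos_of_nonpos_of_nonneg (by linarith) hδ.le)

theorem Wi_one {δ : ℝ} (hδ : 0 < δ) {ρ : ℝ} (h : ρ ≤ 1 - δ) : hc δ ρ = 1 := by
  unfold hc
  refine Real.smoothTransition.one_of_one_le ?_
  rw [le_div_iff₀ hδ]
  linarith

theorem Wi_d0 {δ : ℝ} (hδ : 0 < δ) {ρ : ℝ} (h : 1 < ρ) : deriv (hc δ) ρ = 0 := by
  have h1 : hc δ =ᶠ[𝓝 ρ] fun _ => (0 : ℝ) := by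
    filter_upwards [lt_mem_nhds h] with y hy
    exact Wi_zero hδ hy.le
  rw [h1.deriv_eq]
  exact deriv_const ρ (0 : ℝ)

theorem Wi_d1 {δ : ℝ} (hδ : 0 < δ) {ρ : ℝ} (h : ρ < 1 - δ) : deriv (hc δ) ρ = 0 := by
  have h1 : hc δ =ᶠ[𝓝 ρ] fun _ => (1 : ℝ) := by
    filter_upwards [gt_mem_nhds h] with y hy
    exact Wi_one hδ hy.le
  rw [h1.deriv_eq]
  exact deriv_const ρ (1 : ℝ)

theorem Wi_exp {s : ℝ} (hs : 0 ≤ s) : (1 + s) ^ 3 ≤ 4 * Real.exp s := by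
  have h1 : (1 + s) / 3 ≤ Real.exp ((s - 2) / 3) := by
    have h2 := Real.add_one_le_exp ((s - 2) / 3)
    linarith
  have h3 : ((1 + s) / 3) ^ 3 ≤ Real.exp ((s - 2) / 3) ^ 3 :=
    pow_le_pow_left₀ (by positivity) h1 3
  have h4 : Real.exp ((s - 2) / 3) ^ 3 = Real.exp s * (Real.exp 1 ^ 2)⁻¹ := by
    rw [← Real.exp_nat_mul, ← Real.exp_nat_mul, ← Real.exp_neg, ← Real.exp_add]
    congr 1
    push_cast
    ring
  rw [h4] at h3
  have h5 : (27 / 4 : ℝ) ≤ Real.exp 1 ^ 2 := by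
    have h6 := Real.exp_one_gt_d9
    nlinarith
  have h6 : (Real.exp 1 ^ 2)⁻¹ ≤ 4 / 27 := by
    have h7 : (Real.exp 1 ^ 2)⁻¹ ≤ (27 / 4 : ℝ)⁻¹ := inv_anti₀ (by norm_num) h5
    norm_num at h7 ⊢
    exact h7
  have h7 : Real.exp s * (Real.exp 1 ^ 2)⁻¹ ≤ Real.exp s * (4 / 27) :=
    mul_le_mul_of_nonneg_left h6 (Real.exp_pos s).le
  have h8 : ((1 + s) / 3) ^ 3 = (1 + s) ^ 3 / 27 := by ring
  rw [h8] at h3
  linarith

theorem Wi_tf_sub {f g : E3 → ℝ} (hf : TF f) (hg : TF g) : TF (fun x => f x - g x) := by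
  obtain ⟨B₁, hB₁⟩ := hf.bd
  obtain ⟨B₂, hB₂⟩ := hg.bd
  have hpd : ∀ i, pd i (fun x => f x - g x) = fun x => pd i f x - pd i g x := by
    intro i
    funext x
    unfold pd
    rw [fderiv_fun_sub (hf.c1.differentiable (by norm_num) x) (hg.c1.differentiable (by norm_num) x)]
    rfl
  refine ⟨hf.c1.sub hg.c1, hf.int.sub hg.int, fun i => ?_, B₁ + B₂, fun x => ⟨?_, fun i => ?_⟩⟩
  · rw [hpd]
    exact (hf.intd i).sub (hg.intd i)
  · exact (abs_sub _ _).trans (add_le_add (hB₁ x).1 (hB₂ x).1)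
  · rw [hpd]
    exact (abs_sub _ _).trans (add_le_add ((hB₁ x).2 i) ((hB₂ x).2 i))

theorem Wi_tf_cm {f : E3 → ℝ} (hf : TF f) (a : ℝ) : TF (fun x => a * f x) := by
  obtain ⟨B, hB⟩ := hf.bd
  have hpd : ∀ i, pd i (fun x => a * f x) = fun x => a * pd i f x := by
    intro i
    funext x
    unfold pd
    rw [fderiv_const_mul (hf.c1.differentiable (by norm_num) x)]
    rfl
  refine ⟨contDiff_const.mul hf.c1, hf.int.const_mul a, fun i => ?_, |a| * B, fun x => ⟨?_, fun i => ?_⟩⟩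
  · rw [hpd]
    exact (hf.intd i).const_mul a
  · rw [abs_mul]
    exact mul_le_mul_of_nonneg_left (hB x).1 (abs_nonneg a)
  · rw [hpd, abs_mul]
    exact mul_le_mul_of_nonneg_left ((hB x).2 i) (abs_nonneg a)

theorem Wi_hc_tf {δ l : ℝ} (hδ : 0 < δ) (hl : 0 < l) : TF (fun x : E3 => hc δ (rsq x) * ph l (x 2)) := by
  have h1 := Wi_tf_cm (gd_f hδ hl).2.2.1 (∫ y, pz l y)⁻¹
  have h2 : (fun x : E3 => hc δ (rsq x) * ph l (x 2)) = fun x => (∫ y, pz l y)⁻¹ * gd δ l x := by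
    funext x
    unfold hc ph gd
    rw [div_eq_mul_inv (pz l (x 2))]
    ring
  rw [h2]
  exact h1

theorem Wi_gs_tf {l : ℝ} (hl : 0 < l) (c : ℝ) (i : ℕ) :
    TF (fun x : E3 => c * Real.exp (-(((i:ℝ) + 1) * rsq x)) * ph l (x 2)) := by
  have hi : (0 : ℝ) < (i:ℝ) + 1 := by positivity
  have h1 := Wi_tf_cm (G_t (lam := (i:ℝ) + 1) (s := 0) (l := l) hi le_rfl hl).2.1 c
  have h2 : (fun x : E3 => c * Real.exp (-(((i:ℝ) + 1) * rsq x)) * ph l (x 2)) =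
      fun x => c * (gs ((i:ℝ) + 1) 0 x * ph l (x 2)) := by
    funext x
    unfold gs
    rw [mul_zero, add_zero, inv_one, one_mul, div_one]
    ring
  rw [h2]
  exact h1

theorem Wi_G_tf {δ l : ℝ} (hδ : 0 < δ) (hl : 0 < l) (c : ℕ → ℝ) (n : ℕ) :
    TF (fun x : E3 => (hc δ (rsq x) - ∑ i ∈ Finset.range n, c i * Real.exp (-(((i:ℝ) + 1) * rsq x))) * ph l (x 2)) := by
  induction n with
  | zero =>
    have h1 := Wi_hc_tf hδ hl
    have h2 : (fun x : E3 => (hc δ (rsq x) - ∑ i ∈ Finset.range 0, c i * Real.exp (-(((i:ℝ) + 1) * rsq x))) * ph l (x 2)) =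
        fun x => hc δ (rsq x) * ph l (x 2) := by
      funext x
      rw [Finset.sum_range_zero, sub_zero]
    rw [h2]
    exact h1
  | succ n ih =>
    have h1 := Wi_tf_sub ih (Wi_gs_tf hl (c n) n)
    have h2 : (fun x : E3 => (hc δ (rsq x) - ∑ i ∈ Finset.range (n + 1), c i * Real.exp (-(((i:ℝ) + 1) * rsq x))) * ph l (x 2)) =
        fun x => (hc δ (rsq x) - ∑ i ∈ Finset.range n, c i * Real.exp (-(((i:ℝ) + 1) * rsq x))) * ph l (x 2) -
          c n * Real.exp (-(((n:ℝ) + 1) * rsq x)) * ph l (x 2) := by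
      funext x
      rw [Finset.sum_range_succ]
      ring
    rw [h2]
    exact h1

theorem wei {δ ε : ℝ} (hδ : 0 < δ) (hδ1 : δ < 1) (hε : 0 < ε) : ∃ (n : ℕ) (c : ℕ → ℝ), ∀ ρ : ℝ, 0 ≤ ρ →
    |deriv (hc δ) ρ + ∑ i ∈ Finset.range n, ((i:ℝ) + 1) * c i * Real.exp (-(((i:ℝ) + 1) * ρ))| ≤ ε * Real.exp (-ρ) := by
  obtain ⟨h, hh⟩ : ∃ h : ℝ → ℝ, ∀ y, h y = if y ≤ 0 then 0 else deriv (hc δ) (-Real.log y) / y :=
    ⟨_, fun _ => rfl⟩
  have hsm := Wi_cont hδ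
  have hdc : Continuous (deriv (hc δ)) := (contDiff_infty_iff_deriv.1 hsm).2.continuous
  have hz : ∀ y, y < Real.exp (-1) → h y = 0 := by
    intro y hy
    rw [hh]
    by_cases h0 : y ≤ 0
    · rw [if_pos h0]
    · rw [if_neg h0]
      have h1 : Real.log y < -1 := by
        rw [Real.log_lt_iff_lt_exp (not_le.1 h0)]
        exact hy
      rw [Wi_d0 hδ (by linarith), zero_div]
  have hcont : Continuous h := by
    rw [continuous_iff_continuousAt]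
    intro y
    rcases lt_or_ge y (Real.exp (-1)) with hy | hy
    · have h1 : h =ᶠ[𝓝 y] fun _ => (0 : ℝ) := by
        filter_upwards [gt_mem_nhds hy] with z hz'
        exact hz z hz'
      exact continuousAt_const.congr h1.symm
    · have hy0 : 0 < y := lt_of_lt_of_le (Real.exp_pos _) hy
      have h1 : h =ᶠ[𝓝 y] fun z => deriv (hc δ) (-Real.log z) / z := by
        filter_upwards [lt_mem_nhds hy0] with z hz'
        rw [hh, if_neg (not_le.2 hz')]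
      have h2 : ContinuousAt (fun z => deriv (hc δ) (-Real.log z) / z) y :=
        ((hdc.continuousAt).comp ((Real.continuousAt_log hy0.ne').neg)).div continuousAt_id hy0.ne'
      exact h2.congr h1.symm
  obtain ⟨P, hP⟩ := exists_polynomial_near_of_continuousOn 0 1 h hcont.continuousOn ε hε
  refine ⟨P.natDegree + 1, fun i => -P.coeff i / ((i:ℝ) + 1), fun ρ hρ => ?_⟩
  have hy0 : 0 < Real.exp (-ρ) := Real.exp_pos _
  have hy1 : Real.exp (-ρ) ≤ 1 := Real.exp_le_one_iff.2 (by linarith)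
  have h1 := hP (Real.exp (-ρ)) ⟨hy0.le, hy1⟩
  have h2 : deriv (hc δ) ρ = Real.exp (-ρ) * h (Real.exp (-ρ)) := by
    rw [hh, if_neg (not_le.2 hy0), Real.log_exp, neg_neg, mul_div_cancel₀ _ hy0.ne']
  have h3 : ∑ i ∈ Finset.range (P.natDegree + 1), ((i:ℝ) + 1) * (-P.coeff i / ((i:ℝ) + 1)) *
      Real.exp (-(((i:ℝ) + 1) * ρ)) = -(Real.exp (-ρ) * P.eval (Real.exp (-ρ))) := by
    rw [Polynomial.eval_eq_sum_range, Finset.mul_sum, ← Finset.sum_neg_distrib]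
    refine Finset.sum_congr rfl fun i _ => ?_
    have hi : ((i:ℝ) + 1) ≠ 0 := by positivity
    have he : Real.exp (-(((i:ℝ) + 1) * ρ)) = Real.exp (-ρ) * Real.exp (-ρ) ^ i := by
      rw [← Real.exp_nat_mul, ← Real.exp_add]
      congr 1
      ring
    rw [he, mul_div_cancel₀ _ hi]
    ring
  rw [h2, h3]
  have h4 : Real.exp (-ρ) * h (Real.exp (-ρ)) + -(Real.exp (-ρ) * P.eval (Real.exp (-ρ))) =
      Real.exp (-ρ) * -(P.eval (Real.exp (-ρ)) - h (Real.exp (-ρ))) := by ring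
  rw [h4, abs_mul, abs_neg, abs_of_pos hy0, mul_comm ε]
  exact mul_le_mul_of_nonneg_left h1.le hy0.le

theorem hc_f {δ : ℝ} (hδ : 0 < δ) (hδ1 : δ < 1) : ContDiff ℝ ∞ (hc δ) ∧ (∀ ρ, 0 ≤ hc δ ρ ∧ hc δ ρ ≤ 1) ∧ (∀ ρ, 1 ≤ ρ → hc δ ρ = 0) ∧
    (∀ ρ, ρ ≤ 1 - δ → hc δ ρ = 1) ∧ ∀ ρ, deriv (hc δ) ρ ≤ 0 ∧ ((ρ < 1 - δ ∨ 1 < ρ) → deriv (hc δ) ρ = 0) := by
  refine ⟨Wi_cont hδ, fun ρ => ⟨Real.smoothTransition.nonneg _, Real.smoothTransition.le_one _⟩,
    fun ρ h => Wi_zero hδ h, fun ρ h => Wi_one hδ h, fun ρ => ⟨?_, ?_⟩⟩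
  · have h1 : Antitone (hc δ) := by
      intro a b hab
      unfold hc
      refine Real.smoothTransition.monotone ?_
      exact div_le_div_of_nonneg_right (by linarith) hδ.le
    exact h1.deriv_nonpos
  · rintro (h | h)
    · exact Wi_d1 hδ h
    · exact Wi_d0 hδ h

theorem wG {δ ε κ N b l : ℝ} {n : ℕ} {c : ℕ → ℝ} {v : E3 → E3} (hδ : 0 < δ) (hδ1 : δ < 1) (hε : 0 < ε) (hl : 0 < l) (h : Sm κ N b v)
    (H : ∀ ρ : ℝ, 0 ≤ ρ → |deriv (hc δ) ρ + ∑ i ∈ Finset.range n, ((i:ℝ) + 1) * c i * Real.exp (-(((i:ℝ) + 1) * ρ))| ≤ ε * Real.exp (-ρ)) :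
    |∫ x, v x 2 * ((hc δ (rsq x) - ∑ i ∈ Finset.range n, c i * Real.exp (-(((i:ℝ) + 1) * rsq x))) * ph l (x 2))| ≤ 80 * ε * N := by
  have hN : 0 ≤ N := by
    have h1 := h.one
    have h2 := h.le
    linarith
  obtain ⟨F, hF⟩ : ∃ F : ℝ → ℝ, F = fun ρ => hc δ ρ - ∑ i ∈ Finset.range n, c i * Real.exp (-(((i:ℝ) + 1) * ρ)) :=
    ⟨_, rfl⟩
  have hsum : ContDiff ℝ ∞ (fun ρ : ℝ => ∑ i ∈ Finset.range n, c i * Real.exp (-(((i:ℝ) + 1) * ρ))) := by
    refine ContDiff.sum fun i _ => ?_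
    exact contDiff_const.mul (Real.contDiff_exp.comp ((contDiff_const.mul contDiff_id).neg))
  have hFs : ContDiff ℝ ∞ F := by
    rw [hF]
    exact (Wi_cont hδ).sub hsum
  have hdF : ∀ ρ, deriv F ρ = deriv (hc δ) ρ + ∑ i ∈ Finset.range n, ((i:ℝ) + 1) * c i * Real.exp (-(((i:ℝ) + 1) * ρ)) := by
    intro ρ
    have h1 : HasDerivAt (hc δ) (deriv (hc δ) ρ) ρ :=
      ((Wi_cont hδ).differentiable (by simp) ρ).hasDerivAt
    have h2 : HasDerivAt (fun ρ : ℝ => ∑ i ∈ Finset.range n, c i * Real.exp (-(((i:ℝ) + 1) * ρ)))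
        (∑ i ∈ Finset.range n, c i * (Real.exp (-(((i:ℝ) + 1) * ρ)) * (-(((i:ℝ) + 1) * 1)))) ρ := by
      refine HasDerivAt.fun_sum fun i _ => ?_
      exact ((((hasDerivAt_id ρ).const_mul ((i:ℝ) + 1)).neg).exp).const_mul (c i)
    have h3 := (h1.sub h2).deriv
    have h4 : deriv F ρ = deriv (hc δ) ρ - ∑ i ∈ Finset.range n, c i * (Real.exp (-(((i:ℝ) + 1) * ρ)) * (-(((i:ℝ) + 1) * 1))) := by
      rw [hF]
      exact h3
    rw [h4, sub_eq_add_neg, ← Finset.sum_neg_distrib]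
    congr 1
    refine Finset.sum_congr rfl fun i _ => ?_
    ring
  have hG : (fun x : E3 => (hc δ (rsq x) - ∑ i ∈ Finset.range n, c i * Real.exp (-(((i:ℝ) + 1) * rsq x))) * ph l (x 2)) =
      fun x => F (rsq x) * ph l (x 2) := by
    rw [hF]
  have hTF : TF (fun x : E3 => F (rsq x) * ph l (x 2)) := by
    rw [← hG]
    exact Wi_G_tf hδ hl c n
  obtain ⟨phs, _, _, phb⟩ := ph_f hl
  have hpd : ∀ i : Fin 3, i ≠ 2 → ∀ x, pd i (fun x : E3 => F (rsq x) * ph l (x 2)) x =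
      deriv F (rsq x) * (2 * x i) * ph l (x 2) := fun i hi x => Da_pd1 hFs phs hi x
  have hb : ∀ x, hg (fun x : E3 => F (rsq x) * ph l (x 2)) x ≤ 8 * ε / l * wt 1 l 0 x := by
    intro x
    have hr0 : 0 ≤ rsq x := by unfold rsq; positivity
    have hrad0 : 0 ≤ rad x := Real.sqrt_nonneg _
    have hrad2 : rad x ^ 2 = rsq x := rad_sq' x
    have hph := phb (x 2)
    have hD : |deriv F (rsq x)| ≤ ε * Real.exp (-(rsq x)) := by
      rw [hdF]
      exact H (rsq x) hr0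
    have h1 : hg (fun x : E3 => F (rsq x) * ph l (x 2)) x = 2 * |deriv F (rsq x)| * rad x * ph l (x 2) := by
      unfold hg
      rw [hpd 0 (by decide), hpd 1 (by decide)]
      have h2 : (deriv F (rsq x) * (2 * x 0) * ph l (x 2)) ^ 2 + (deriv F (rsq x) * (2 * x 1) * ph l (x 2)) ^ 2 =
          (2 * |deriv F (rsq x)| * rad x * ph l (x 2)) ^ 2 := by
        have h3 : (2 * |deriv F (rsq x)| * rad x * ph l (x 2)) ^ 2 =
            4 * |deriv F (rsq x)| ^ 2 * rad x ^ 2 * ph l (x 2) ^ 2 := by ring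
        rw [h3, sq_abs, hrad2]
        unfold rsq
        ring
      rw [h2]
      exact Real.sqrt_sq (by
        have := abs_nonneg (deriv F (rsq x))
        have := hph.1
        positivity)
    have h2 : rad x * Real.exp (-(rsq x)) ≤ 2 * ((1 + rsq x) ^ 2)⁻¹ := by
      have h3 : rad x ≤ (1 + rsq x) / 2 := by
        rw [← hrad2]
        nlinarith [sq_nonneg (rad x - 1)]
      have h4 := Wi_exp hr0
      have h5 : (0 : ℝ) < 1 + rsq x := by linarith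
      rw [Real.exp_neg, ← div_eq_mul_inv, div_le_iff₀ (Real.exp_pos _), ← div_eq_mul_inv, div_mul_eq_mul_div,
        le_div_iff₀ (by positivity)]
      calc rad x * (1 + rsq x) ^ 2 ≤ (1 + rsq x) / 2 * (1 + rsq x) ^ 2 :=
            mul_le_mul_of_nonneg_right h3 (by positivity)
        _ = (1 + rsq x) ^ 3 / 2 := by ring
        _ ≤ 2 * Real.exp (rsq x) := by linarith
    have h3 : ph l (x 2) ≤ 2 / l * (1 + x 2 ^ 2 / l ^ 2)⁻¹ := by
      rcases le_or_gt l |x 2| with h4 | h4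
      · rw [hph.2.2 h4]
        positivity
      · have h5 : x 2 ^ 2 / l ^ 2 ≤ 1 := by
          rw [div_le_one (by positivity), ← sq_abs (x 2)]
          exact pow_le_pow_left₀ (abs_nonneg _) h4.le 2
        have h6 : (1 / 2 : ℝ) ≤ (1 + x 2 ^ 2 / l ^ 2)⁻¹ := by
          rw [← one_div]
          exact one_div_le_one_div_of_le (by positivity) (by linarith)
        calc ph l (x 2) ≤ 1 / l := hph.2.1
          _ = 2 / l * (1 / 2) := by ring
          _ ≤ 2 / l * (1 + x 2 ^ 2 / l ^ 2)⁻¹ := mul_le_mul_of_nonneg_left h6 (by positivity)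
    have hw : wt 1 l 0 x = ((1 + rsq x) ^ 2)⁻¹ * (1 + x 2 ^ 2 / l ^ 2)⁻¹ := by
      unfold wt
      rw [one_pow, div_one, sub_zero]
    rw [h1, hw]
    calc 2 * |deriv F (rsq x)| * rad x * ph l (x 2)
        ≤ 2 * (ε * Real.exp (-(rsq x))) * rad x * ph l (x 2) := by
          refine mul_le_mul_of_nonneg_right (mul_le_mul_of_nonneg_right
            (mul_le_mul_of_nonneg_left hD (by norm_num)) hrad0) hph.1
      _ = 2 * ε * (rad x * Real.exp (-(rsq x))) * ph l (x 2) := by ring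
      _ ≤ 2 * ε * (2 * ((1 + rsq x) ^ 2)⁻¹) * ph l (x 2) :=
          mul_le_mul_of_nonneg_right (mul_le_mul_of_nonneg_left h2 (by positivity)) hph.1
      _ ≤ 2 * ε * (2 * ((1 + rsq x) ^ 2)⁻¹) * (2 / l * (1 + x 2 ^ 2 / l ^ 2)⁻¹) :=
          mul_le_mul_of_nonneg_left h3 (by positivity)
      _ = 8 * ε / l * (((1 + rsq x) ^ 2)⁻¹ * (1 + x 2 ^ 2 / l ^ 2)⁻¹) := by ring
  obtain ⟨w1, w2⟩ := wt_int (R := 1) (L := l) one_pos hl 0
  have hI : ∫ x, hg (fun x : E3 => F (rsq x) * ph l (x 2)) x ≤ 80 * ε := by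
    have h1 : ∫ x, hg (fun x : E3 => F (rsq x) * ph l (x 2)) x ≤ ∫ x, 8 * ε / l * wt 1 l 0 x := by
      refine integral_mono_of_nonneg ?_ (w1.const_mul _) ?_
      · exact Filter.Eventually.of_forall fun x => Real.sqrt_nonneg _
      · exact Filter.Eventually.of_forall hb
    have h2 : ∫ x, 8 * ε / l * wt 1 l 0 x = 8 * ε / l * VV (wt 1 l 0) := by
      rw [integral_const_mul]
      rfl
    rw [h2] at h1
    refine h1.trans ?_
    calc 8 * ε / l * VV (wt 1 l 0) ≤ 8 * ε / l * (10 * 1 ^ 2 * l) :=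
          mul_le_mul_of_nonneg_left w2 (by positivity)
      _ = 80 * ε := by
          field_simp
          ring
  have h5 := f1 h hTF
  have h6 : ∀ x : E3, v x 2 * ((hc δ (rsq x) - ∑ i ∈ Finset.range n, c i * Real.exp (-(((i:ℝ) + 1) * rsq x))) * ph l (x 2)) =
      v x 2 * (F (rsq x) * ph l (x 2)) := by
    intro x
    rw [hF]
  simp only [h6]
  refine h5.trans ?_
  calc N * ∫ x, hg (fun x : E3 => F (rsq x) * ph l (x 2)) x ≤ N * (80 * ε) :=
        mul_le_mul_of_nonneg_left hI hN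
    _ = 80 * ε * N := by ring

end Pool.Agent.H94.WL
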