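/-
ROW Sc (MP_09540e_WL). The static identity. PROOF. mm_f: `deriv (hc δ) ρ = -(1/δ) S'((1-ρ)/δ)`, |S'| ≤ C_S (Cut_bd, H72/CC/Cut.lean), so for y.1 ∈ [0,1]: `0 ≤ δ · 2(1-δy.1) · C_S/δ ≤ 2 C_S`; for other y.1 the factor (1 - δ y.1) may be negative or large, but deriv (hc δ) ((1-δy.1)²) vanishes unless 1-δ ≤ (1-δy.1)² ≤ 1;
therefore the bound is only claimed on the square Q = Icc 0 1 ×ˢ Icc (-1) 1 (hc_f: deriv ≤ 0), and lM is applied with the indicator of Q times mm. `0 ≤ l ph l (l y.2) ≤ 1` (ph_f). `∫_Q mm = (∫_{1-δ}^1 -2r (hc δ)'(r²) dr)(∫_{-l}^l ph l z dz) = (hc δ ((1-δ)²) - hc δ 1) · 1 = 1` (substitutions r = 1 - δ y.1, z = l y.2; (1-δ)² ≤ 1-δ; hc_f; ph l vanishes for |z| ≥ l).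
sC: cylindrical coordinates (as dCyl in TU/Db.lean: Db_tr, Db_polar, with the factor hc δ (rsq x), zero for rsq x ≥ 1): `∫ v₂ hc δ (rsq x) ph l (x 2) = 2π ∫ z, ph l z ∫ r in 0..1, r v₂(mk (r,z)) hc δ (r²)`. By Ff_f, `r v₂(mk (r,z)) = ∂_r Ff v (r,z)`; integration by parts on [0,1] (Ff v (0,z) = 0, hc δ 1 = 0):
`= 2π ∫ z, ph l z ∫ r in 0..1, Ff v (r,z) (-(2 r (hc δ)'(r²)))`. The integrand in r vanishes for r < 1-δ (r² < 1-δ): hc_f. Substitute r = 1 - δ y₁ (y₁ ∈ [0,1]), z = l y₂ (|z| ≤ l) and Fubini on Q (everything continuous).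
-/
import Pool.Agent.H94.WL.Defs2
import Pool.Agent.H94.WL.Fw
import Pool.Agent.H94.WL.Wi
import Pool.Agent.H94.WL.Ga
import Pool.Agent.H16.TU.Db

set_option autoImplicit false

open Set Filter Topology MeasureTheory
open scoped ContDiff

namespace Pool.Agent.H94.WL

open Pool.Agent.H16 Pool.Agent.H87.NS Pool.Agent.H72.CC Pool.Agent.H16.TU

theorem Sc_dhc {δ : ℝ} (hδ : 0 < δ) (ρ : ℝ) :
    deriv (hc δ) ρ = -(deriv Real.smoothTransition ((1 - ρ) / δ) / δ) := by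
  have h1 : HasDerivAt (fun ρ : ℝ => (1 - ρ) / δ) (-1 / δ) ρ := by
    simpa using ((hasDerivAt_id ρ).const_sub 1).div_const δ
  have h2 : HasDerivAt Real.smoothTransition (deriv Real.smoothTransition ((1 - ρ) / δ)) ((1 - ρ) / δ) :=
    ((Real.smoothTransition.contDiff (n := 1)).differentiable (by norm_num) _).hasDerivAt
  have h3 : HasDerivAt (hc δ) _ ρ := h2.comp ρ h1
  rw [h3.deriv]
  ring

theorem Sc_cont {δ : ℝ} (hδ : 0 < δ) (hδ1 : δ < 1) : Continuous (hc δ) ∧ Continuous (deriv (hc δ)) := by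
  have h := (hc_f hδ hδ1).1
  exact ⟨h.continuous, (contDiff_infty_iff_deriv.1 h).2.continuous⟩

theorem Sc_hd {δ : ℝ} (hδ : 0 < δ) (hδ1 : δ < 1) (ρ : ℝ) : HasDerivAt (hc δ) (deriv (hc δ) ρ) ρ :=
  (((hc_f hδ hδ1).1).differentiable (by simp) ρ).hasDerivAt

theorem mm_f {δ l : ℝ} (hδ : 0 < δ) (hδ1 : δ < 1) (hl : 0 < l) : Continuous (mm δ l) ∧ ∫ y in Icc (0:ℝ) 1 ×ˢ Icc (-1:ℝ) 1, mm δ l y = 1 := by
  obtain ⟨hc0, hc1⟩ := Sc_cont hδ hδ1
  obtain ⟨p1, p2, p3, p4⟩ := ph_f hl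
  have hf1 : Continuous (fun x : ℝ => δ * (-(2 * (1 - δ * x) * deriv (hc δ) ((1 - δ * x) ^ 2)))) := by
    have h1 : Continuous (fun x : ℝ => deriv (hc δ) ((1 - δ * x) ^ 2)) := hc1.comp (by fun_prop)
    fun_prop
  have hf2 : Continuous (fun z : ℝ => l * ph l (l * z)) := by
    have h1 : Continuous (fun z : ℝ => ph l (l * z)) := p1.continuous.comp (by fun_prop)
    fun_prop
  refine ⟨(hf1.comp continuous_fst).mul (hf2.comp continuous_snd), ?_⟩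
  have h1 : ∫ y in Icc (0:ℝ) 1 ×ˢ Icc (-1:ℝ) 1, mm δ l y =
      (∫ x in Icc (0:ℝ) 1, δ * (-(2 * (1 - δ * x) * deriv (hc δ) ((1 - δ * x) ^ 2)))) *
        ∫ z in Icc (-1:ℝ) 1, l * ph l (l * z) := by
    rw [Measure.volume_eq_prod]
    exact setIntegral_prod_mul (fun x : ℝ => δ * (-(2 * (1 - δ * x) * deriv (hc δ) ((1 - δ * x) ^ 2))))
      (fun z : ℝ => l * ph l (l * z)) _ _
  have h2 : ∫ x in Icc (0:ℝ) 1, δ * (-(2 * (1 - δ * x) * deriv (hc δ) ((1 - δ * x) ^ 2))) = 1 := by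
    rw [integral_Icc_eq_integral_Ioc, ← intervalIntegral.integral_of_le zero_le_one]
    have h3 : ∀ x ∈ uIcc (0:ℝ) 1, HasDerivAt (fun x : ℝ => hc δ ((1 - δ * x) ^ 2))
        (δ * (-(2 * (1 - δ * x) * deriv (hc δ) ((1 - δ * x) ^ 2)))) x := by
      intro x _
      have h4 : HasDerivAt (fun x : ℝ => (1 - δ * x) ^ 2) (2 * (1 - δ * x) * (-δ)) x := by
        have h5 := (((hasDerivAt_id x).const_mul δ).const_sub 1).pow 2
        refine h5.congr_deriv ?_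
        simp
      refine ((Sc_hd hδ hδ1 ((1 - δ * x) ^ 2)).comp x h4).congr_deriv ?_
      ring
    rw [intervalIntegral.integral_eq_sub_of_hasDerivAt h3 (hf1.intervalIntegrable _ _)]
    have h4 : hc δ ((1 - δ * 1) ^ 2) = 1 := (hc_f hδ hδ1).2.2.2.1 _ (by nlinarith)
    have h5 : hc δ ((1 - δ * 0) ^ 2) = 0 := (hc_f hδ hδ1).2.2.1 _ (by norm_num)
    rw [h4, h5, sub_zero]
  have h3 : ∫ z in Icc (-1:ℝ) 1, l * ph l (l * z) = 1 := by
    rw [setIntegral_eq_integral_of_forall_compl_eq_zero]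
    · rw [integral_const_mul, Measure.integral_comp_mul_left (ph l) l, p3, smul_eq_mul, mul_one,
        abs_of_pos (inv_pos.2 hl), mul_inv_cancel₀ hl.ne']
    · intro z hz
      have h4 : 1 ≤ |z| := by
        by_contra hcon
        push Not at hcon
        have h5 := abs_lt.1 hcon
        exact hz ⟨h5.1.le, h5.2.le⟩
      have h5 : l ≤ |l * z| := by
        rw [abs_mul, abs_of_pos hl]
        nlinarith
      rw [(p4 _).2.2 h5, mul_zero]
  rw [h1, h2, h3, one_mul]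

theorem mm_b : ∃ C : ℝ, 1 ≤ C ∧ ∀ δ l : ℝ, 0 < δ → δ < 1 → 0 < l → ∀ y ∈ Icc (0:ℝ) 1 ×ˢ Icc (-1:ℝ) 1, 0 ≤ mm δ l y ∧ mm δ l y ≤ C := by
  obtain ⟨C, hC1, hC, _, _⟩ := Cut_bd
  refine ⟨2 * C, by linarith, ?_⟩
  intro δ l hδ hδ1 hl y hy
  obtain ⟨p1, p2, p3, p4⟩ := ph_f hl
  obtain ⟨⟨hy0, hy1⟩, _⟩ := mem_prod.1 hy
  have h1 : 0 ≤ 1 - δ * y.1 ∧ 1 - δ * y.1 ≤ 1 := by
    constructor
    · nlinarith
    · nlinarith
  have h2 : deriv (hc δ) ((1 - δ * y.1) ^ 2) ≤ 0 := ((hc_f hδ hδ1).2.2.2.2 _).1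
  have h3 : δ * (-deriv (hc δ) ((1 - δ * y.1) ^ 2)) ≤ C := by
    rw [Sc_dhc hδ, neg_neg, mul_div_cancel₀ _ hδ.ne']
    exact (le_abs_self _).trans (hC _)
  have h4 : 0 ≤ l * ph l (l * y.2) := mul_nonneg hl.le (p4 _).1
  have h5 : l * ph l (l * y.2) ≤ 1 := by
    have h6 := mul_le_mul_of_nonneg_left (p4 (l * y.2)).2.1 hl.le
    rwa [mul_one_div, div_self hl.ne'] at h6
  have h6 : δ * (-(2 * (1 - δ * y.1) * deriv (hc δ) ((1 - δ * y.1) ^ 2))) =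
      (2 * (1 - δ * y.1)) * (δ * (-deriv (hc δ) ((1 - δ * y.1) ^ 2))) := by ring
  have h7 : 0 ≤ δ * (-deriv (hc δ) ((1 - δ * y.1) ^ 2)) := mul_nonneg hδ.le (by linarith)
  have h8 : 0 ≤ δ * (-(2 * (1 - δ * y.1) * deriv (hc δ) ((1 - δ * y.1) ^ 2))) := by
    rw [h6]
    exact mul_nonneg (by linarith) h7
  have h9 : δ * (-(2 * (1 - δ * y.1) * deriv (hc δ) ((1 - δ * y.1) ^ 2))) ≤ 2 * C := by
    rw [h6]
    exact mul_le_mul (by linarith) h3 h7 (by norm_num)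
  unfold mm
  refine ⟨mul_nonneg h8 h4, ?_⟩
  have h10 := mul_le_mul h9 h5 h4 (by linarith : (0:ℝ) ≤ 2 * C)
  rwa [mul_one] at h10

theorem Sc_meas : MeasurableSet {x : E3 | rad x < 1} := by
  rw [Db_set one_pos]
  exact Db_emb.measurable (MeasurableSet.univ.prod (Db_meas 1))

theorem Sc_int {v : E3 → E3} (h : AxF v) {δ l : ℝ} (hδ : 0 < δ) (hδ1 : δ < 1) (hl : 0 < l) :
    IntegrableOn (fun x : E3 => v x 2 * (hc δ (rsq x) * ph l (x 2))) {x : E3 | rad x < 1} := by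
  obtain ⟨hc0, hc1⟩ := Sc_cont hδ hδ1
  obtain ⟨p1, p2, p3, p4⟩ := ph_f hl
  have hci : ∀ i : Fin 3, Continuous (fun x : E3 => x i) := fun i =>
    (EuclideanSpace.proj i : E3 →L[ℝ] ℝ).continuous
  have hr : Continuous (fun x : E3 => rsq x) := by
    unfold rsq
    exact ((hci 0).pow 2).add ((hci 1).pow 2)
  have hv2 : Continuous (fun x : E3 => v x 2) := (hci 2).comp h.smooth.continuous
  have hc : Continuous (fun x : E3 => v x 2 * (hc δ (rsq x) * ph l (x 2))) :=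
    hv2.mul ((hc0.comp hr).mul (p1.continuous.comp (hci 2)))
  refine (hc.continuousOn.integrableOn_compact (isCompact_closedBall (0 : E3) (l + 1))).of_forall_sdiff_eq_zero
    Sc_meas ?_
  rintro x ⟨hx, hx2⟩
  have hx1 : x 0 ^ 2 + x 1 ^ 2 < 1 := by
    have := (Real.sqrt_lt' one_pos).1 hx
    linarith
  have h1 : l ≤ |x 2| := by
    by_contra hcon
    push Not at hcon
    apply hx2
    rw [mem_closedBall_zero_iff]
    apply le_of_sq_le_sq _ (by positivity)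
    have h2 : ‖x‖ ^ 2 = x 0 ^ 2 + x 1 ^ 2 + x 2 ^ 2 := by
      rw [EuclideanSpace.norm_sq_eq, Fin.sum_univ_three]
      simp
    rw [h2]
    have h3 := sq_lt_sq' (by linarith [abs_nonneg (x 2)]) hcon
    rw [sq_abs] at h3
    nlinarith
  rw [(p4 (x 2)).2.2 h1, mul_zero, mul_zero]

theorem Sc_polar {v : E3 → E3} (h : AxF v) {δ l : ℝ} (z : ℝ) :
    ∫ q in {q : ℝ × ℝ | q.1 ^ 2 + q.2 ^ 2 < 1 ^ 2}, v !₂[q.1, q.2, z] 2 * (hc δ (rsq !₂[q.1, q.2, z]) * ph l z) =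
      2 * Real.pi * ∫ r in (0:ℝ)..1, r * (v !₂[r, 0, z] 2 * (hc δ (r ^ 2) * ph l z)) := by
  refine Db_polar (F := fun q : ℝ × ℝ => v !₂[q.1, q.2, z] 2 * (hc δ (rsq !₂[q.1, q.2, z]) * ph l z))
    (G := fun r => v !₂[r, 0, z] 2 * (hc δ (r ^ 2) * ph l z)) one_pos ?_
  intro r θ _
  have h1 : v !₂[r * Real.cos θ, r * Real.sin θ, z] 2 = v !₂[r, 0, z] 2 := by
    rw [← Db_rot, h.ax, rot_two']
  have h2 : rsq !₂[r * Real.cos θ, r * Real.sin θ, z] = r ^ 2 := by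
    change (r * Real.cos θ) ^ 2 + (r * Real.sin θ) ^ 2 = r ^ 2
    have := Real.sin_sq_add_cos_sq θ
    linear_combination r ^ 2 * this
  change v !₂[r * Real.cos θ, r * Real.sin θ, z] 2 * (hc δ (rsq !₂[r * Real.cos θ, r * Real.sin θ, z]) * ph l z) =
    v !₂[r, 0, z] 2 * (hc δ (r ^ 2) * ph l z)
  rw [h1, h2]

theorem Sc_parts {v : E3 → E3} (h : AxF v) {δ : ℝ} (hδ : 0 < δ) (hδ1 : δ < 1) (z : ℝ) :
    ∫ r in (0:ℝ)..1, r * v !₂[r, 0, z] 2 * hc δ (r ^ 2) =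
      ∫ r in (0:ℝ)..1, Ff v (r, z) * (-(2 * r * deriv (hc δ) (r ^ 2))) := by
  obtain ⟨hc0, hc1⟩ := Sc_cont hδ hδ1
  obtain ⟨f1, f2⟩ := Ff_f h
  have hci : Continuous (fun x : E3 => x 2) := (EuclideanSpace.proj 2 : E3 →L[ℝ] ℝ).continuous
  have hline : Continuous (fun r : ℝ => (r, z)) := by fun_prop
  have hF : ∀ r : ℝ, HasDerivAt (fun r : ℝ => Ff v (r, z)) (r * v !₂[r, 0, z] 2) r := by
    intro r
    have h1 : HasDerivAt (fun r : ℝ => (r, z)) ((1:ℝ), (0:ℝ)) r :=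
      (hasDerivAt_id r).prodMk (hasDerivAt_const r z)
    have h2 := ((f1.differentiable (by simp) (r, z)).hasFDerivAt).comp_hasDerivAt r h1
    rw [(f2 (r, z)).1] at h2
    exact h2
  have hH : ∀ r : ℝ, HasDerivAt (fun r : ℝ => hc δ (r ^ 2)) (2 * r * deriv (hc δ) (r ^ 2)) r := by
    intro r
    have h1 : HasDerivAt (fun r : ℝ => r ^ 2) (2 * r) r := by
      simpa using hasDerivAt_pow 2 r
    refine ((Sc_hd hδ hδ1 (r ^ 2)).comp r h1).congr_deriv ?_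
    ring
  have cF : Continuous (fun r : ℝ => Ff v (r, z)) := f1.continuous.comp hline
  have cH : Continuous (fun r : ℝ => hc δ (r ^ 2)) := hc0.comp (by fun_prop)
  have cH' : Continuous (fun r : ℝ => deriv (hc δ) (r ^ 2)) := hc1.comp (by fun_prop)
  have cmk : Continuous (fun r : ℝ => (!₂[r, 0, z] : E3)) := by
    have h1 : Continuous (fun r : ℝ => ((z, (r, 0)) : ℝ × (ℝ × ℝ))) := by fun_prop
    exact Db_mk.comp h1
  have cv : Continuous (fun r : ℝ => v !₂[r, 0, z] 2) := hci.comp (h.smooth.continuous.comp cmk)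
  have cA : Continuous (fun r : ℝ => r * v !₂[r, 0, z] 2 * hc δ (r ^ 2)) := (continuous_id.mul cv).mul cH
  have cB : Continuous (fun r : ℝ => Ff v (r, z) * (2 * r * deriv (hc δ) (r ^ 2))) :=
    cF.mul ((continuous_const.mul continuous_id).mul cH')
  have h1 : ∫ r in (0:ℝ)..1, (r * v !₂[r, 0, z] 2 * hc δ (r ^ 2) + Ff v (r, z) * (2 * r * deriv (hc δ) (r ^ 2))) =
      Ff v (1, z) * hc δ (1 ^ 2) - Ff v (0, z) * hc δ (0 ^ 2) :=
    intervalIntegral.integral_eq_sub_of_hasDerivAt (f := fun r : ℝ => Ff v (r, z) * hc δ (r ^ 2))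
      (fun r _ => (hF r).mul (hH r)) ((cA.add cB).intervalIntegrable _ _)
  rw [intervalIntegral.integral_add (cA.intervalIntegrable _ _) (cB.intervalIntegrable _ _)] at h1
  have h2 : hc δ (1 ^ 2) = 0 := (hc_f hδ hδ1).2.2.1 _ (by norm_num)
  have h3 : Ff v (0, z) = 0 := by
    unfold Ff
    change (0:ℝ) ^ 2 * _ = 0
    rw [zero_pow two_ne_zero, zero_mul]
  rw [h2, h3, mul_zero, zero_mul, sub_zero] at h1
  have h4 : ∫ r in (0:ℝ)..1, Ff v (r, z) * (-(2 * r * deriv (hc δ) (r ^ 2))) =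
      -∫ r in (0:ℝ)..1, Ff v (r, z) * (2 * r * deriv (hc δ) (r ^ 2)) := by
    rw [← intervalIntegral.integral_neg]
    refine intervalIntegral.integral_congr fun r _ => ?_
    ring
  rw [h4]
  linarith

theorem Sc_sub {v : E3 → E3} (h : AxF v) {δ : ℝ} (hδ : 0 < δ) (hδ1 : δ < 1) (z : ℝ) :
    ∫ r in (0:ℝ)..1, Ff v (r, z) * (-(2 * r * deriv (hc δ) (r ^ 2))) =
      ∫ x in (0:ℝ)..1, Ff v (1 - δ * x, z) * (δ * (-(2 * (1 - δ * x) * deriv (hc δ) ((1 - δ * x) ^ 2)))) := by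
  obtain ⟨hc0, hc1⟩ := Sc_cont hδ hδ1
  obtain ⟨f1, f2⟩ := Ff_f h
  obtain ⟨g, hg⟩ : ∃ g : ℝ → ℝ, ∀ r, g r = Ff v (r, z) * (-(2 * r * deriv (hc δ) (r ^ 2))) := ⟨_, fun _ => rfl⟩
  have cg : Continuous g := by
    have cF : Continuous (fun r : ℝ => Ff v (r, z)) := f1.continuous.comp (by fun_prop)
    have cH' : Continuous (fun r : ℝ => deriv (hc δ) (r ^ 2)) := hc1.comp (by fun_prop)
    have h1 : g = fun r => Ff v (r, z) * (-(2 * r * deriv (hc δ) (r ^ 2))) := funext hg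
    rw [h1]
    exact cF.mul (((continuous_const.mul continuous_id).mul cH').neg)
  have h1 : ∫ r in (0:ℝ)..1, Ff v (r, z) * (-(2 * r * deriv (hc δ) (r ^ 2))) = ∫ r in (0:ℝ)..1, g r :=
    intervalIntegral.integral_congr fun r _ => (hg r).symm
  have h2 : ∫ x in (0:ℝ)..1, Ff v (1 - δ * x, z) * (δ * (-(2 * (1 - δ * x) * deriv (hc δ) ((1 - δ * x) ^ 2)))) =
      δ * ∫ x in (0:ℝ)..1, g (1 - δ * x) := by
    rw [← intervalIntegral.integral_const_mul]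
    refine intervalIntegral.integral_congr fun x _ => ?_
    change _ = δ * g (1 - δ * x)
    rw [hg]
    ring
  have h3 : ∫ r in (0:ℝ)..(1 - δ), g r = 0 := by
    have h4 : ∫ r in (0:ℝ)..(1 - δ), g r = ∫ r in (0:ℝ)..(1 - δ), (0:ℝ) := by
      refine intervalIntegral.integral_congr fun r hr => ?_
      rw [uIcc_of_le (by linarith)] at hr
      have h5 : r ^ 2 < 1 - δ := by
        have h6 : r ^ 2 ≤ (1 - δ) ^ 2 := pow_le_pow_left₀ hr.1 hr.2 2
        nlinarith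
      rw [hg, ((hc_f hδ hδ1).2.2.2.2 _).2 (Or.inl h5)]
      ring
    rw [h4, intervalIntegral.integral_zero]
  rw [h1, h2, intervalIntegral.integral_comp_sub_mul g hδ.ne' 1,
    ← intervalIntegral.integral_add_adjacent_intervals (cg.intervalIntegrable 0 (1 - δ))
      (cg.intervalIntegrable (1 - δ) 1), h3, zero_add, mul_one, mul_zero, sub_zero, smul_eq_mul,
    mul_inv_cancel_left₀ hδ.ne']

theorem sC {v : E3 → E3} (h : AxF v) (hv : Vf v) {δ l : ℝ} (hδ : 0 < δ) (hδ1 : δ < 1) (hl : 0 < l) :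
    ∫ x, v x 2 * (hc δ (rsq x) * ph l (x 2)) =
      2 * Real.pi * ∫ y in Icc (0:ℝ) 1 ×ˢ Icc (-1:ℝ) 1, Ff v (1 - δ * y.1, l * y.2) * mm δ l y := by
  obtain ⟨hc0, hc1⟩ := Sc_cont hδ hδ1
  obtain ⟨f1, f2⟩ := Ff_f h
  obtain ⟨p1, p2, p3, p4⟩ := ph_f hl
  obtain ⟨J, hJ⟩ : ∃ J : ℝ → ℝ, ∀ z, J z = ∫ x in (0:ℝ)..1, Ff v (1 - δ * x, z) *
    (δ * (-(2 * (1 - δ * x) * deriv (hc δ) ((1 - δ * x) ^ 2)))) := ⟨_, fun _ => rfl⟩
  -- left side
  have hL : ∫ x, v x 2 * (hc δ (rsq x) * ph l (x 2)) = 2 * Real.pi * ∫ z, ph l z * J z := by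
    rw [← setIntegral_eq_integral_of_forall_compl_eq_zero (s := {x : E3 | rad x < 1}),
      Db_tr (fun x : E3 => v x 2 * (hc δ (rsq x) * ph l (x 2))) one_pos,
      integral_prod _ (Db_tri one_pos (Sc_int h hδ hδ1 hl)), ← integral_const_mul]
    · refine integral_congr_ae (Eventually.of_forall fun z => ?_)
      change ∫ q in {q : ℝ × ℝ | q.1 ^ 2 + q.2 ^ 2 < 1 ^ 2},
        v !₂[q.1, q.2, z] 2 * (hc δ (rsq !₂[q.1, q.2, z]) * ph l z) = 2 * Real.pi * (ph l z * J z)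
      have e1 : ∫ r in (0:ℝ)..1, r * (v !₂[r, 0, z] 2 * (hc δ (r ^ 2) * ph l z)) =
          ph l z * ∫ r in (0:ℝ)..1, r * v !₂[r, 0, z] 2 * hc δ (r ^ 2) := by
        rw [← intervalIntegral.integral_const_mul]
        refine intervalIntegral.integral_congr fun r _ => ?_
        ring
      rw [Sc_polar h z, hJ, ← Sc_sub h hδ hδ1 z, ← Sc_parts h hδ hδ1 z, e1]
    · intro x hx
      have h1 : 1 ≤ rad x := not_lt.1 hx
      have h2 : 1 ≤ rsq x := by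
        have h3 : rad x ^ 2 = rsq x := rad_sq' x
        rw [← h3]
        nlinarith
      rw [(hc_f hδ hδ1).2.2.1 _ h2, zero_mul, mul_zero]
  -- right side
  have hcm := (mm_f hδ hδ1 hl).1
  have hcK : Continuous (fun y : ℝ × ℝ => Ff v (1 - δ * y.1, l * y.2) * mm δ l y) :=
    (f1.continuous.comp (by fun_prop)).mul hcm
  have hR : ∫ y in Icc (0:ℝ) 1 ×ˢ Icc (-1:ℝ) 1, Ff v (1 - δ * y.1, l * y.2) * mm δ l y =
      ∫ z in Icc (-1:ℝ) 1, l * (ph l (l * z) * J (l * z)) := by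
    have hint : Integrable (fun y : ℝ × ℝ => Ff v (1 - δ * y.1, l * y.2) * mm δ l y)
        (((volume : Measure ℝ).restrict (Icc (0:ℝ) 1)).prod ((volume : Measure ℝ).restrict (Icc (-1:ℝ) 1))) := by
      rw [Measure.prod_restrict, ← Measure.volume_eq_prod]
      exact hcK.continuousOn.integrableOn_compact (isCompact_Icc.prod isCompact_Icc)
    rw [Measure.volume_eq_prod, ← Measure.prod_restrict, integral_prod_symm _ hint]
    refine integral_congr_ae (Eventually.of_forall fun z => ?_)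
    change ∫ x in Icc (0:ℝ) 1, Ff v (1 - δ * x, l * z) * mm δ l (x, z) = l * (ph l (l * z) * J (l * z))
    rw [hJ, integral_Icc_eq_integral_Ioc, ← intervalIntegral.integral_of_le zero_le_one, ← mul_assoc,
      ← intervalIntegral.integral_const_mul]
    refine intervalIntegral.integral_congr fun x _ => ?_
    change Ff v (1 - δ * x, l * z) * (δ * (-(2 * (1 - δ * x) * deriv (hc δ) ((1 - δ * x) ^ 2))) * (l * ph l (l * z))) =
      l * ph l (l * z) * (Ff v (1 - δ * x, l * z) * (δ * (-(2 * (1 - δ * x) * deriv (hc δ) ((1 - δ * x) ^ 2)))))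
    ring
  rw [hL, hR, setIntegral_eq_integral_of_forall_compl_eq_zero, integral_const_mul,
    Measure.integral_comp_mul_left (fun z => ph l z * J z) l, smul_eq_mul, abs_of_pos (inv_pos.2 hl),
    mul_inv_cancel_left₀ hl.ne']
  intro z hz
  have h4 : 1 ≤ |z| := by
    by_contra hcon
    push Not at hcon
    have h5 := abs_lt.1 hcon
    exact hz ⟨h5.1.le, h5.2.le⟩
  have h5 : l ≤ |l * z| := by
    rw [abs_mul, abs_of_pos hl]
    nlinarith
  rw [(p4 _).2.2 h5, zero_mul, mul_zero]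

end Pool.Agent.H94.WL
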