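/-
ROW Sl (MP_09540e_WL). The static lower bound. PROOF. C_q from lM, C_M from mm_b, M = C_M. δ ∈ (0,1) with `C_q M √(2 C δ) ≤ 1/10`. Given R₂ ≥ 1, l = Z N R₂ ≥ N R₂ ≥ 1. lM with F = Ff v (Ff_f), r₀ = 1, z₀ = 0, a = δ, b = l, m = indicator of Q times mm δ l (Q = Icc 0 1 ×ˢ Icc (-1) 1; measurable; the integrals over Q do not change), B = Icc (1-δ) 1 ×ˢ Icc (-l) l.
A: on B `(∂_r F)² = y.1² v₂² ≤ y.1 v₂(mk y)²`, box (Cy.lean) and v_cyl: `∫_B ≤ (2π)⁻¹ ∫_{rad ∈ [1-δ,1], |x 2| ≤ l} v₂² ≤ (2π)⁻¹ · 8 SS v (ww N Z R₂ 0)` (there rad ≤ 1 ≤ R₂, |x 2| ≤ l: ww ≥ (1/4)(1/2); v₂² ≤ ‖v‖²) `≤ (8/(2π)) C N³ R₂ ≤ 2 C N² l` (N R₂ ≤ l). D: `|∂_s F|^q = y.1^q |ur(mk y)|^q ≤ y.1 |ur|^q` (0 < y.1 ≤ 1, q ≥ 1; mk_f: rad (mk y) = y.1),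
box, and {rad ∈ [1-δ,1], |x 2| ≤ l} ⊂ cy 2 (2l) 0: `≤ (2π)⁻¹ g(l) 2^(2-q) (2l) ≤ 2 l g(l)` (Mq with A = 2 ≤ 2l; 2l/2 = l; g(l) ≥ 0 since the integral is). So `|F(1,0) - ∫_Q F(1-δy₁, l y₂) mm| ≤ C_q M (√(δ/l) √(2CN²l) + l (δl)^(-1/q) (2 l g(l))^(1/q)) = C_q M (N √(2Cδ) + l δ^(-1/q) (2 g(l))^(1/q))`.
N₀(R₂): for N ≥ N₀: `C_q M Z R₂ δ^(-1/q) (2 |g(Z N R₂)|)^(1/q) ≤ 1/10` (hg, continuity of the power at 0; Z N R₂ → ∞). So the difference is ≤ N/5. `F(1,0) = sP v (mk (1,0))`, mk (1,0) = e 0: `|F(1,0)| ≥ 9N/10`. Hence `|∫_Q F mm| ≥ (7/10) N` and by sC `|∫ v₂ ..| ≥ 2π (7/10) N ≥ N`.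
-/
import Pool.Agent.H94.WL.Sc
import Pool.Agent.H94.WL.Lm
import Pool.Agent.H16.TU.Ad0

set_option autoImplicit false

open Set Filter Topology MeasureTheory
open scoped ContDiff

namespace Pool.Agent.H94.WL

open Pool.Agent.H16 Pool.Agent.H87.NS Pool.Agent.H72.CC Pool.Agent.H16.TU

private lemma Sl_mk : Continuous mk := by
  unfold mk
  refine (PiLp.continuous_toLp 2 _).comp (continuous_pi fun i => ?_)
  fin_cases i
  · exact continuous_fst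
  · exact continuous_const
  · exact continuous_snd

private lemma Sl_rsq (x : E3) : rsq x = rad x ^ 2 := by
  unfold rsq rad
  rw [Real.sq_sqrt (by positivity)]

private lemma Sl_A {v : E3 → E3} {κ N b : ℝ} (h : Sm κ N b v) {Z R₂ δ : ℝ} (hZ : 1 ≤ Z) (hR : 1 ≤ R₂)
    (hδ : 0 < δ) (hδ1 : δ < 1) :
    ∫ y in Icc (1 - δ) 1 ×ˢ Icc (0 - Z * N * R₂) (0 + Z * N * R₂), (fderiv ℝ (Ff v) y (1, 0)) ^ 2 ≤
      (2 * Real.pi)⁻¹ * (8 * SS v (ww N Z R₂ 0)) := by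
  have hN : 1 ≤ N := h.one.trans h.le
  have hR0 : 0 < R₂ := by linarith
  obtain ⟨hl, -⟩ := Ad0_L hN hZ hR0
  obtain ⟨hFs, hF⟩ := Ff_f h.ax
  obtain ⟨l, hl'⟩ : ∃ l, l = Z * N * R₂ := ⟨_, rfl⟩
  rw [← hl'] at hl ⊢
  have hv := h.ax.smooth
  have hvc : Continuous fun y : ℝ × ℝ => v (mk y) 2 :=
    (Psi_cont_coord 2).comp (hv.continuous.comp Sl_mk)
  have hK : IsCompact (Icc (1 - δ) 1 ×ˢ Icc (0 - l) (0 + l)) := isCompact_Icc.prod isCompact_Icc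
  have hKm : MeasurableSet (Icc (1 - δ) 1 ×ˢ Icc (0 - l) (0 + l)) := measurableSet_Icc.prod measurableSet_Icc
  have s1 : ∫ y in Icc (1 - δ) 1 ×ˢ Icc (0 - l) (0 + l), (fderiv ℝ (Ff v) y (1, 0)) ^ 2 ≤
      ∫ y in Icc (1 - δ) 1 ×ˢ Icc (0 - l) (0 + l), y.1 * (v (mk y) 2) ^ 2 := by
    refine setIntegral_mono_on ?_ ?_ hKm ?_
    · have : (fun y : ℝ × ℝ => (fderiv ℝ (Ff v) y (1, 0)) ^ 2) = fun y => (y.1 * v (mk y) 2) ^ 2 := by
        funext y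
        rw [(hF y).1]
      rw [this]
      exact ((continuous_fst.mul hvc).pow 2).continuousOn.integrableOn_compact hK
    · exact (continuous_fst.mul (hvc.pow 2)).continuousOn.integrableOn_compact hK
    · intro y hy
      rw [(hF y).1, mul_pow]
      refine mul_le_mul_of_nonneg_right ?_ (sq_nonneg _)
      have h1 : 0 ≤ y.1 := by linarith [hy.1.1]
      have h2 : y.1 ≤ 1 := hy.1.2
      nlinarith
  refine s1.trans ?_
  rw [box (G := fun y => (v (mk y) 2) ^ 2) (hvc.pow 2) (fun y => sq_nonneg _) (by linarith) (by linarith)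
    (by linarith)]
  refine mul_le_mul_of_nonneg_left ?_ (by positivity)
  obtain ⟨i1, hS⟩ := boxi (G := fun y => (v (mk y) 2) ^ 2) (hvc.pow 2) (1 - δ) 1 (0 - l) (0 + l)
  obtain ⟨w, -, -⟩ := ww_ok hN hZ hR0 0
  obtain ⟨K, hK0, hKb, -, -⟩ := ba_vf h.vf
  have hc := (ba_gvc hv).2.1
  have iS : Integrable (fun x => ‖v x‖ ^ 2 * ww N Z R₂ 0 x) := by
    refine wi (K := K ^ 2) w (hc.pow 2) fun x => ?_
    rw [abs_of_nonneg (by positivity)]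
    exact pow_le_pow_left₀ (norm_nonneg _) (hKb x).1 2
  have s2 : ∫ x in {x : E3 | rad x ∈ Icc (1 - δ) 1 ∧ x 2 ∈ Icc (0 - l) (0 + l)}, (v (mk (rad x, x 2)) 2) ^ 2 ≤
      ∫ x in {x : E3 | rad x ∈ Icc (1 - δ) 1 ∧ x 2 ∈ Icc (0 - l) (0 + l)}, 8 * (‖v x‖ ^ 2 * ww N Z R₂ 0 x) := by
    refine setIntegral_mono_on i1 (iS.const_mul 8).integrableOn hS ?_
    intro x hx
    have h1 : v (mk (rad x, x 2)) 2 = v x 2 := (v_cyl h.ax x).1
    rw [h1]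
    have h2 : (v x 2) ^ 2 ≤ ‖v x‖ ^ 2 := by
      have h3 : |v x 2| ≤ ‖v x‖ := (ba_gv (v := v) x 0 0).2.2.2.2.2.1
      rw [← sq_abs (v x 2)]
      exact pow_le_pow_left₀ (abs_nonneg _) h3 2
    have h3 : 1 / 8 ≤ ww N Z R₂ 0 x := by
      obtain ⟨⟨hx1, hx2⟩, hx3, hx4⟩ := hx
      unfold ww wt
      have h0 : 0 ≤ rsq x := by
        unfold rsq
        positivity
      have h4 : rsq x ≤ 1 := by
        rw [Sl_rsq]
        nlinarith
      have h5 : rsq x / R₂ ^ 2 ≤ 1 := by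
        rw [div_le_one (by positivity)]
        nlinarith
      have h5' : 0 ≤ rsq x / R₂ ^ 2 := by positivity
      have h6 : 1 / 4 ≤ ((1 + rsq x / R₂ ^ 2) ^ 2)⁻¹ := by
        rw [← one_div]
        apply one_div_le_one_div_of_le (by positivity)
        nlinarith
      have h7 : 1 / 2 ≤ (1 + (x 2 - 0) ^ 2 / (Z * N * R₂) ^ 2)⁻¹ := by
        rw [← one_div]
        apply one_div_le_one_div_of_le (by positivity)
        have h8 : (x 2 - 0) ^ 2 / (Z * N * R₂) ^ 2 ≤ 1 := by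
          rw [← hl', div_le_one (by positivity), sub_zero]
          refine sq_le_sq' (by linarith) (by linarith)
        linarith
      calc (1 : ℝ) / 8 = 1 / 4 * (1 / 2) := by norm_num
        _ ≤ _ := mul_le_mul h6 h7 (by norm_num) (by positivity)
    have h4 : ‖v x‖ ^ 2 * (1 / 8) ≤ ‖v x‖ ^ 2 * ww N Z R₂ 0 x := mul_le_mul_of_nonneg_left h3 (by positivity)
    linarith
  refine s2.trans ?_
  refine (setIntegral_le_integral (iS.const_mul 8) (ae_of_all _ fun x => ?_)).trans ?_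
  · have := w.nn x
    positivity
  · rw [integral_const_mul]
    rfl

private lemma Sl_D {v : E3 → E3} {κ N b : ℝ} (h : Sm κ N b v) {q : ℝ} {g : ℝ → ℝ} (hq : 2 < q)
    (hM : Mq q g v) {l δ : ℝ} (hl : 1 ≤ l) (hδ : 0 < δ) (hδ1 : δ < 1) :
    0 ≤ g l ∧ ∫ y in Icc (1 - δ) 1 ×ˢ Icc (0 - l) (0 + l), |fderiv ℝ (Ff v) y (0, 1)| ^ q ≤ 2 * l * g l := by
  have hq0 : 0 < q := by linarith
  obtain ⟨hFs, hF⟩ := Ff_f h.ax
  have hWc : Continuous (sW v) := by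
    have h1 : sW v = fun x => - pd 2 (sP v) x := by
      funext x
      exact sW_sP h.ax x
    rw [h1]
    exact (pd_cont ((sP_smooth h.ax).of_le (by exact_mod_cast le_top)) 2).neg
  have hGc : Continuous fun y : ℝ × ℝ => |ur v (mk y)| ^ q := by
    have h1 : (fun y : ℝ × ℝ => |ur v (mk y)| ^ q) = fun y => |(|y.1| * sW v (mk y))| ^ q := by
      funext y
      unfold ur
      rw [(mk_f y).2.2.2.1]
    rw [h1]
    exact (continuous_abs.comp ((continuous_abs.comp continuous_fst).mul (hWc.comp Sl_mk))).rpow_const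
      fun _ => Or.inr hq0.le
  have hG0 : ∀ y : ℝ × ℝ, 0 ≤ |ur v (mk y)| ^ q := fun y => Real.rpow_nonneg (abs_nonneg _) _
  have hM1 := hM 2 (2 * l) 0 (by norm_num) (by linarith)
  have e1 : 2 * l / 2 = l := by ring
  rw [e1] at hM1
  have hI0 : 0 ≤ ∫ x in cy 2 (2 * l) 0, |ur v x| ^ q :=
    integral_nonneg fun x => Real.rpow_nonneg (abs_nonneg _) _
  have h2q : (0 : ℝ) < 2 ^ (2 - q) := by positivity
  have h2q1 : (2 : ℝ) ^ (2 - q) ≤ 1 := Real.rpow_le_one_of_one_le_of_nonpos (by norm_num) (by linarith)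
  have hg0 : 0 ≤ g l := by
    have h1 : 0 ≤ g l * 2 ^ (2 - q) * (2 * l) := hI0.trans hM1
    by_contra hc
    push Not at hc
    have h2 : 0 < 2 ^ (2 - q) * (2 * l) := by positivity
    nlinarith
  refine ⟨hg0, ?_⟩
  have hK : IsCompact (Icc (1 - δ) 1 ×ˢ Icc (0 - l) (0 + l)) := isCompact_Icc.prod isCompact_Icc
  have hKm : MeasurableSet (Icc (1 - δ) 1 ×ˢ Icc (0 - l) (0 + l)) := measurableSet_Icc.prod measurableSet_Icc
  have hFz : Continuous fun y => fderiv ℝ (Ff v) y (0, 1) :=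
    (hFs.continuous_fderiv (by simp)).clm_apply continuous_const
  have s1 : ∫ y in Icc (1 - δ) 1 ×ˢ Icc (0 - l) (0 + l), |fderiv ℝ (Ff v) y (0, 1)| ^ q ≤
      ∫ y in Icc (1 - δ) 1 ×ˢ Icc (0 - l) (0 + l), y.1 * |ur v (mk y)| ^ q := by
    refine setIntegral_mono_on ?_ ?_ hKm ?_
    · exact ((continuous_abs.comp hFz).rpow_const fun _ => Or.inr hq0.le).continuousOn.integrableOn_compact hK
    · exact (continuous_fst.mul hGc).continuousOn.integrableOn_compact hK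
    · intro y hy
      have h1 : 0 ≤ y.1 := by linarith [hy.1.1]
      have h2 : y.1 ≤ 1 := hy.1.2
      have h3 : |fderiv ℝ (Ff v) y (0, 1)| = y.1 * |ur v (mk y)| := by
        rw [(hF y).2.1]
        unfold ur
        rw [(mk_f y).2.2.2.1, abs_neg, abs_mul, abs_mul, abs_abs, abs_of_nonneg h1,
          abs_of_nonneg (sq_nonneg y.1)]
        ring
      rw [h3, Real.mul_rpow h1 (abs_nonneg _)]
      refine mul_le_mul_of_nonneg_right ?_ (hG0 y)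
      calc y.1 ^ q ≤ y.1 ^ (1 : ℝ) := by
            rcases h1.eq_or_lt with h4 | h4
            · rw [← h4, Real.zero_rpow hq0.ne', Real.rpow_one]
            · exact Real.rpow_le_rpow_of_exponent_ge h4 h2 (by linarith)
        _ = y.1 := Real.rpow_one _
  refine s1.trans ?_
  rw [box (G := fun y => |ur v (mk y)| ^ q) hGc hG0 (by linarith) (by linarith) (by linarith)]
  have hur : ∀ x : E3, ur v (mk (rad x, x 2)) = ur v x := fun x => (v_cyl h.ax x).2.2.1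
  have s2 : ∫ x in {x : E3 | rad x ∈ Icc (1 - δ) 1 ∧ x 2 ∈ Icc (0 - l) (0 + l)}, |ur v (mk (rad x, x 2))| ^ q ≤
      ∫ x in cy 2 (2 * l) 0, |ur v x| ^ q := by
    simp only [hur]
    obtain ⟨i2, -⟩ := boxi hGc 0 2 (-(2 * l)) (2 * l)
    simp only [hur] at i2
    have hsub : cy 2 (2 * l) 0 ⊆ {x : E3 | rad x ∈ Icc 0 2 ∧ x 2 ∈ Icc (-(2 * l)) (2 * l)} := by
      rintro x ⟨hx1, hx2⟩
      rw [sub_zero, abs_lt] at hx2
      exact ⟨⟨Real.sqrt_nonneg _, hx1.le⟩, hx2.1.le, hx2.2.le⟩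
    refine setIntegral_mono_set (i2.mono_set hsub) (ae_of_all _ fun x => Real.rpow_nonneg (abs_nonneg _) _) ?_
    refine LE.le.eventuallyLE ?_
    rintro x ⟨⟨hx1, hx2⟩, hx3, hx4⟩
    refine ⟨by linarith, ?_⟩
    rw [sub_zero, abs_lt]
    exact ⟨by linarith, by linarith⟩
  have hpi : (2 * Real.pi)⁻¹ ≤ 1 := by
    rw [inv_le_one₀ (by positivity)]
    have := Real.two_le_pi
    linarith
  have h5 : g l * 2 ^ (2 - q) * (2 * l) ≤ g l * 1 * (2 * l) := by gcongr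
  have h6 : 0 ≤ ∫ x in {x : E3 | rad x ∈ Icc (1 - δ) 1 ∧ x 2 ∈ Icc (0 - l) (0 + l)}, |ur v (mk (rad x, x 2))| ^ q :=
    integral_nonneg fun x => Real.rpow_nonneg (abs_nonneg _) _
  calc (2 * Real.pi)⁻¹ * ∫ x in {x : E3 | rad x ∈ Icc (1 - δ) 1 ∧ x 2 ∈ Icc (0 - l) (0 + l)},
        |ur v (mk (rad x, x 2))| ^ q ≤
      1 * ∫ x in {x : E3 | rad x ∈ Icc (1 - δ) 1 ∧ x 2 ∈ Icc (0 - l) (0 + l)}, |ur v (mk (rad x, x 2))| ^ q :=
        mul_le_mul_of_nonneg_right hpi h6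
    _ ≤ 2 * l * g l := by linarith

private lemma Sl_n1 {C N δ l : ℝ} (hC : 0 ≤ C) (hN : 0 ≤ N) (hδ : 0 < δ) (hl : 0 < l) :
    √(δ / l) * √(2 * C * N ^ 2 * l) = N * √(2 * C * δ) := by
  rw [← Real.sqrt_mul (by positivity)]
  have h1 : δ / l * (2 * C * N ^ 2 * l) = N ^ 2 * (2 * C * δ) := by
    field_simp
  rw [h1, Real.sqrt_mul (by positivity), Real.sqrt_sq hN]

private lemma Sl_n2 {δ l q G : ℝ} (hδ : 0 < δ) (hl : 0 < l) (hG : 0 ≤ G) :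
    l * (δ * l) ^ (-(1 / q)) * (2 * l * G) ^ (1 / q) = l * (δ ^ (-(1 / q)) * (2 * G) ^ (1 / q)) := by
  have h1 : 2 * l * G = l * (2 * G) := by ring
  rw [h1, Real.mul_rpow hδ.le hl.le, Real.mul_rpow hl.le (by positivity)]
  have h2 : l ^ (-(1 / q)) * l ^ (1 / q) = 1 := by
    rw [← Real.rpow_add hl]
    simp
  linear_combination (l * δ ^ (-(1 / q)) * (2 * G) ^ (1 / q)) * h2

theorem thmL {κ C Z q : ℝ} {g : ℝ → ℝ} (hκ : 1 ≤ κ) (hC : 1 ≤ C) (hZ : 1 ≤ Z) (hq : 2 < q) (hg : Tendsto g atTop (𝓝 0)) :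
    ∃ δ : ℝ, 0 < δ ∧ δ < 1 ∧ ∀ R₂ : ℝ, 1 ≤ R₂ → ∃ N₀ : ℝ, 1 ≤ N₀ ∧ ∀ (N b : ℝ) (v : E3 → E3), N₀ ≤ N → Sm κ N b v → Mq q g v →
      SS v (ww N Z R₂ 0) ≤ C * N ^ 3 * R₂ → 9 / 10 * N ≤ |sP v (e 0)| →
      N ≤ |∫ x, v x 2 * (hc δ (rsq x) * ph (Z * N * R₂) (x 2))| := by
  have hq0 : 0 < q := by linarith
  obtain ⟨Cq, hCq, hlM⟩ := lM hq
  obtain ⟨M, hM1, hmb⟩ := mm_b
  have hCM : 1 ≤ Cq * M := by nlinarith
  have hC0 : 0 < C := by linarith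
  obtain ⟨δ, hδe⟩ : ∃ δ, δ = (200 * C * (Cq * M) ^ 2)⁻¹ := ⟨_, rfl⟩
  have hden : 200 ≤ 200 * C * (Cq * M) ^ 2 := by
    have h1 : 1 ≤ (Cq * M) ^ 2 := one_le_pow₀ hCM
    nlinarith
  have hδ : 0 < δ := by
    rw [hδe]
    positivity
  have hδ1 : δ < 1 := by
    rw [hδe]
    exact inv_lt_one_of_one_lt₀ (by linarith)
  have hδ2 : Cq * M * √(2 * C * δ) = 1 / 10 := by
    have h1 : 2 * C * δ = (1 / (10 * (Cq * M))) ^ 2 := by
      rw [hδe]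
      have h2 : Cq * M ≠ 0 := by linarith
      have h3 : C ≠ 0 := hC0.ne'
      have h4 : Cq ≠ 0 := by linarith
      have h5 : M ≠ 0 := by linarith
      field_simp
      norm_num
    rw [h1, Real.sqrt_sq (by positivity)]
    have h4 : Cq ≠ 0 := by linarith
    have h5 : M ≠ 0 := by linarith
    field_simp
  refine ⟨δ, hδ, hδ1, fun R₂ hR₂ => ?_⟩
  have hR0 : 0 < R₂ := by linarith
  have hZ0 : 0 < Z := by linarith
  have hlim : Tendsto (fun N : ℝ => Cq * M * (Z * R₂ * (δ ^ (-(1 / q)) * (2 * |g (Z * N * R₂)|) ^ (1 / q))))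
      atTop (𝓝 0) := by
    have h1 : Tendsto (fun N : ℝ => Z * N * R₂) atTop atTop :=
      (tendsto_id.const_mul_atTop hZ0).atTop_mul_const hR0
    have h2 : Tendsto (fun N : ℝ => 2 * |g (Z * N * R₂)|) atTop (𝓝 (2 * |(0 : ℝ)|)) :=
      ((hg.comp h1).abs).const_mul 2
    have h3 : Tendsto (fun N : ℝ => (2 * |g (Z * N * R₂)|) ^ (1 / q)) atTop (𝓝 ((2 * |(0 : ℝ)|) ^ (1 / q))) :=
      h2.rpow_const (Or.inr (by positivity))
    have h4 := (((h3.const_mul (δ ^ (-(1 / q)))).const_mul (Z * R₂)).const_mul (Cq * M))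
    have h5 : Cq * M * (Z * R₂ * (δ ^ (-(1 / q)) * (2 * |(0 : ℝ)|) ^ (1 / q))) = 0 := by
      rw [abs_zero, mul_zero, Real.zero_rpow (by positivity)]
      ring
    rw [h5] at h4
    exact h4
  have hev : ∀ᶠ N : ℝ in atTop, Cq * M * (Z * R₂ * (δ ^ (-(1 / q)) * (2 * |g (Z * N * R₂)|) ^ (1 / q))) < 1 / 10 :=
    hlim.eventually (gt_mem_nhds (by norm_num))
  obtain ⟨N₁, hN₁⟩ := eventually_atTop.1 hev
  refine ⟨max N₁ 1, le_max_right _ _, ?_⟩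
  intro N b v hNN hS hq' hSS hP
  have hN1 : 1 ≤ N := (le_max_right _ _).trans hNN
  have hN0 : 0 < N := by linarith
  have hNk := hN₁ N ((le_max_left _ _).trans hNN)
  obtain ⟨hl0, hRl⟩ := Ad0_L hN1 hZ hR0
  obtain ⟨l, hle⟩ : ∃ l, l = Z * N * R₂ := ⟨_, rfl⟩
  have hNR : N * R₂ ≤ Z * N * R₂ := by
    have : 0 < N * R₂ := by positivity
    nlinarith
  have hA0 := Sl_A hS hZ hR₂ hδ hδ1
  obtain ⟨hg0, hD⟩ := Sl_D hS hq hq' (l := l) (by rw [hle]; linarith) hδ hδ1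
  rw [← hle] at hl0 hRl hNk hNR hA0
  have hA : ∫ y in Icc (1 - δ) 1 ×ˢ Icc (0 - l) (0 + l), (fderiv ℝ (Ff v) y (1, 0)) ^ 2 ≤ 2 * C * N ^ 2 * l := by
    refine hA0.trans ?_
    have h1 : (2 * Real.pi)⁻¹ ≤ 1 / 4 := by
      rw [← one_div]
      apply one_div_le_one_div_of_le (by norm_num)
      have := Real.two_le_pi
      linarith
    have h2 : SS v (ww N Z R₂ 0) ≤ C * N ^ 2 * l := by
      refine hSS.trans ?_
      have h3 : 0 ≤ C * N ^ 2 := by positivity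
      have h4 := mul_le_mul_of_nonneg_left hNR h3
      calc C * N ^ 3 * R₂ = C * N ^ 2 * (N * R₂) := by ring
        _ ≤ _ := h4
    have h3 : 0 ≤ C * N ^ 2 * l := by positivity
    calc (2 * Real.pi)⁻¹ * (8 * SS v (ww N Z R₂ 0)) ≤ (2 * Real.pi)⁻¹ * (8 * (C * N ^ 2 * l)) := by gcongr
      _ ≤ 1 / 4 * (8 * (C * N ^ 2 * l)) := by gcongr
      _ = 2 * C * N ^ 2 * l := by ring
  -- the weight
  obtain ⟨m, hm⟩ : ∃ m : ℝ × ℝ → ℝ, m = (Icc (0:ℝ) 1 ×ˢ Icc (-1:ℝ) 1).indicator (mm δ l) := ⟨_, rfl⟩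
  have hQm : MeasurableSet (Icc (0:ℝ) 1 ×ˢ Icc (-1:ℝ) 1) := measurableSet_Icc.prod measurableSet_Icc
  obtain ⟨hmc, hmi⟩ := mm_f hδ hδ1 hl0
  have hmm : Measurable m := by
    rw [hm]
    exact hmc.measurable.indicator hQm
  have hmb' : ∀ y, 0 ≤ m y ∧ m y ≤ M := by
    intro y
    rw [hm]
    by_cases hy : y ∈ Icc (0:ℝ) 1 ×ˢ Icc (-1:ℝ) 1
    · rw [indicator_of_mem hy]
      exact hmb δ l hδ hδ1 hl0 y hy
    · rw [indicator_of_notMem hy]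
      exact ⟨le_rfl, by linarith⟩
  have hmeq : ∀ y ∈ Icc (0:ℝ) 1 ×ˢ Icc (-1:ℝ) 1, m y = mm δ l y := by
    intro y hy
    rw [hm, indicator_of_mem hy]
  have hm1 : ∫ y in Icc (0:ℝ) 1 ×ˢ Icc (-1:ℝ) 1, m y = 1 := by
    rw [setIntegral_congr_fun hQm hmeq, hmi]
  have hFs : ContDiff ℝ 1 (Ff v) := (Ff_f hS.ax).1.of_le (by exact_mod_cast le_top)
  have hmain := hlM (Ff v) hFs 1 0 δ l M (2 * C * N ^ 2 * l) (2 * l * g l) m hδ hl0 hmm hmb' hm1 hA hD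
  rw [Sl_n1 hC0.le hN0.le hδ hl0, Sl_n2 hδ hl0 hg0] at hmain
  have hint : ∫ y in Icc (0:ℝ) 1 ×ˢ Icc (-1:ℝ) 1, Ff v (1 - δ * y.1, 0 + l * y.2) * m y =
      ∫ y in Icc (0:ℝ) 1 ×ˢ Icc (-1:ℝ) 1, Ff v (1 - δ * y.1, l * y.2) * mm δ l y := by
    refine setIntegral_congr_fun hQm fun y hy => ?_
    show Ff v (1 - δ * y.1, 0 + l * y.2) * m y = Ff v (1 - δ * y.1, l * y.2) * mm δ l y
    rw [hmeq y hy, zero_add]
  rw [hint] at hmain
  have hb : Cq * M * (N * √(2 * C * δ) + l * (δ ^ (-(1 / q)) * (2 * g l) ^ (1 / q))) ≤ N / 5 := by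
    have h1 : Cq * M * (N * √(2 * C * δ)) = N / 10 := by
      have : Cq * M * (N * √(2 * C * δ)) = N * (Cq * M * √(2 * C * δ)) := by ring
      rw [this, hδ2]
      ring
    rw [abs_of_nonneg hg0] at hNk
    have h2 : Cq * M * (l * (δ ^ (-(1 / q)) * (2 * g l) ^ (1 / q))) =
        N * (Cq * M * (Z * R₂ * (δ ^ (-(1 / q)) * (2 * g l) ^ (1 / q)))) := by
      have h3 : ∀ X : ℝ, Cq * M * (l * X) = N * (Cq * M * (Z * R₂ * X)) := by
        intro X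
        rw [hle]
        ring
      exact h3 _
    rw [mul_add, h1, h2]
    nlinarith
  have hF1 : Ff v (1, 0) = sP v (e 0) := by
    unfold Ff
    have h1 : (!₂[(1 : ℝ), 0, 0] : E3) = e 0 := by
      unfold e
      ext i
      fin_cases i <;> simp
    show (1 : ℝ) ^ 2 * sP v !₂[(1 : ℝ), 0, 0] = sP v (e 0)
    rw [h1]
    ring
  rw [hF1] at hmain
  rw [← hle, sC hS.ax hS.vf hδ hδ1 hl0]
  obtain ⟨I, hI⟩ : ∃ I, I = ∫ y in Icc (0:ℝ) 1 ×ˢ Icc (-1:ℝ) 1, Ff v (1 - δ * y.1, l * y.2) * mm δ l y := ⟨_, rfl⟩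
  rw [← hI] at hmain ⊢
  have h1 : |sP v (e 0)| ≤ |sP v (e 0) - I| + |I| := by
    have := abs_add_le (sP v (e 0) - I) I
    rwa [sub_add_cancel] at this
  have h2 : 7 / 10 * N ≤ |I| := by linarith
  rw [abs_mul, abs_of_pos (by positivity : 0 < 2 * Real.pi)]
  have h3 := Real.pi_gt_three
  have h4 : 0 ≤ |I| := abs_nonneg _
  nlinarith

end Pool.Agent.H94.WL
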