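/-
ROW Se (MP_09540e_WL). The rate of change at a fixed time. PROOF. l = Z N R₂ ≥ R₂ (N, Z ≥ 1), Ψ = ww N Z R₂ 0 = wt R₂ l 0, G = Gt lam l s, C_G from G_b. (i) f1 (Fa.lean), G_t: `|∫ v₂ pd 2 pd 2 G| ≤ N ∫ hg (pd 2 (pd 2 G)) ≤ N C_G/l³ VV Ψ`. (ii) `adv v G = v₀ pd 0 G + v₁ pd 1 G + v₂ pd 2 G`; as in a_g (Ad.lean; G depends only on rsq x and x 2: pd i G = -(2 lam x i/τ) G for i = 0, 1)
`|v₀ pd 0 G + v₁ pd 1 G| = |ur| hg G ≤ (C_G/l) |ur| Ψ`, `|v₂ pd 2 G| ≤ (C_G/l²) |v₂| Ψ`: `|∫ v₂ adv v G| ≤ (C_G/l) ∫ |v₂||ur| Ψ + (C_G/l²) SS Ψ`, and `1 ≤ R₂/l'`. (iii) pA (TU/Pf.lean) with F 0 = F 1 = 0, F 2 = G (TF), radius l': dv F = pd 2 G, `|pd 2 G| ≤ (C_G/l²) Ψ`.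
Near: for ‖x-y‖ < l' ≤ R₂: Ψ x ≤ 64 Ψ y (wt_cmp with A = 1), so `NE l' (pd 2 G) y ≤ (C_G/l²) 64 Ψ y · 13 l'` (ne_ker). Far: `(max r l')⁻³ ≤ l'⁻¹ r⁻²` for 0 < r < 2R₂ and `= (max r (2R₂))⁻³` for r ≥ 2R₂, so `FA l' Ψ y ≤ l'⁻¹ NE (2R₂) Ψ y + FA (2R₂) Ψ y ≤ (832·2⁷ R₂/l') Ψ y + C ∑_{j=1}^J (1/4)^j Ψ_j y + (2^J R₂)⁻³ VV Ψ`
(ne_wt with A = 2, fa_wt with j₀ = 1, ww_sc). FA is monotone in |g| (Ac_mono in TU/Ac.lean), NE likewise (Ab_mono). Multiply by ‖v‖√gv, ‖v‖² and integrate (Ac_wint, wi). Collect: C = a constant times C_G C_p.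
-/
import Pool.Agent.H94.WL.Defs2
import Pool.Agent.H94.WL.Ga
import Pool.Agent.H94.WL.Fb
import Pool.Agent.H94.WL.Ad
import Pool.Agent.H16.TU.Ab
import Pool.Agent.H16.TU.Ac
import Pool.Agent.H16.TU.Pf

set_option autoImplicit false

open Set Filter Topology MeasureTheory
open scoped ContDiff

namespace Pool.Agent.H94.WL

open Pool.Agent.H16 Pool.Agent.H87.NS Pool.Agent.H72.CC Pool.Agent.H16.TU

private theorem Se_Ne {a l R L : ℝ} (ha : 0 ≤ a) (hl : 0 < l) (hlR : l ≤ R) (hRL : R ≤ L) {g : E3 → ℝ}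
    (hg : ∀ x, |g x| ≤ a * wt R L 0 x) (y : E3) : NE l g y ≤ a * (832 * l * wt R L 0 y) := by
  have hR : 0 < R := lt_of_lt_of_le hl hlR
  have hL : 0 < L := lt_of_lt_of_le hR hRL
  have h0 : 0 ≤ wt R L 0 y := (wt_pos hR hL 0 y).le
  obtain ⟨k1, k2⟩ := ne_ker hl y
  have hm : NE l g y ≤ ∫ x in Metric.ball y l, (‖x - y‖ ^ 2)⁻¹ * (a * (64 * wt R L 0 y)) := by
    unfold NE
    refine integral_mono_of_nonneg (ae_of_all _ fun x => by positivity) (k1.mul_const _) ?_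
    refine (ae_restrict_mem Metric.isOpen_ball.measurableSet).mono fun x hx => ?_
    have hx' : ‖x - y‖ ≤ 1 * R := by
      have := Metric.mem_ball.1 hx
      rw [dist_eq_norm] at this
      linarith
    have h1 := wt_cmp (le_refl (1:ℝ)) hR hRL 0 hx'
    have h2 : |g x| ≤ a * (64 * wt R L 0 y) := (hg x).trans (mul_le_mul_of_nonneg_left (by linarith) ha)
    exact mul_le_mul_of_nonneg_left h2 (by positivity)
  refine hm.trans ?_
  rw [integral_mul_const]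
  have h3 : 0 ≤ a * (64 * wt R L 0 y) := by positivity
  have h4 := mul_le_mul_of_nonneg_right k2 h3
  refine h4.trans (le_of_eq ?_)
  ring

private theorem Se_Fa {a l R L : ℝ} (ha : 0 ≤ a) (hl : 0 < l) (hlR : l ≤ R) (hRL : R ≤ L) {g : E3 → ℝ}
    (hg : ∀ x, |g x| ≤ a * wt R L 0 x) (y : E3) :
    FA l g y ≤ a * (1 / l * NE (2 * R) (wt R L 0) y + FA (2 * R) (wt R L 0) y) := by
  have hR : 0 < R := lt_of_lt_of_le hl hlR
  have hL : 0 < L := lt_of_lt_of_le hR hRL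
  have h2R : 0 < 2 * R := by linarith
  have hp : ∀ x, 0 < wt R L 0 x := fun x => wt_pos hR hL 0 x
  have w := wt_wc hR hRL 0
  have hi : Integrable (wt R L 0) := w.int
  have h1 := Ac_mono (l := l) (a := a) (b := 0) hl hi hi (g := g) (fun x => by
    rw [abs_of_pos (hp x), zero_mul, add_zero]; exact hg x) y
  rw [zero_mul, add_zero] at h1
  refine h1.trans (mul_le_mul_of_nonneg_left ?_ ha)
  have k1 : Integrable (fun x => We_K (2 * R) (x - y) * |wt R L 0 x|) :=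
    We_pt h2R w.sm.continuous.abs (C := 1) (fun x => ⟨abs_nonneg _, by rw [abs_of_pos (hp x)]; exact w.le x⟩) y
  have k2 := Ac_int h2R hi y
  rw [We_NE]
  unfold FA
  rw [← integral_const_mul, ← integral_add (k1.const_mul _) k2]
  refine integral_mono_of_nonneg (ae_of_all _ fun x => by
    have := (Ac_ker hl x y).1
    positivity) ((k1.const_mul _).add k2) ?_
  have hne : ∀ᵐ x ∂(volume : Measure E3), x ≠ y := by
    rw [ae_iff]
    simp
  refine hne.mono fun x hx => ?_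
  show ((max ‖x - y‖ l) ^ 3)⁻¹ * |wt R L 0 x| ≤ 1 / l * (We_K (2 * R) (x - y) * |wt R L 0 x|) + ((max ‖x - y‖ (2 * R)) ^ 3)⁻¹ * |wt R L 0 x|
  have hr : 0 < ‖x - y‖ := norm_pos_iff.2 (sub_ne_zero.2 hx)
  rw [We_K_eq]
  set r := ‖x - y‖ with hrd
  have key : ((max r l) ^ 3)⁻¹ ≤ 1 / l * ((Iio (2 * R)).indicator (fun r : ℝ => (r ^ 2)⁻¹) r) + ((max r (2 * R)) ^ 3)⁻¹ := by
    by_cases hc : r < 2 * R
    · rw [indicator_of_mem (show r ∈ Iio (2 * R) from hc)]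
      have e1 : l * r ^ 2 ≤ (max r l) ^ 3 := by
        have m1 : r ≤ max r l := le_max_left _ _
        have m2 : l ≤ max r l := le_max_right _ _
        calc l * r ^ 2 ≤ max r l * (max r l) ^ 2 :=
              mul_le_mul m2 (pow_le_pow_left₀ hr.le m1 2) (by positivity) (hl.le.trans m2)
          _ = (max r l) ^ 3 := by ring
      have e2 : ((max r l) ^ 3)⁻¹ ≤ (l * r ^ 2)⁻¹ := inv_anti₀ (by positivity) e1
      have e3 : (l * r ^ 2)⁻¹ = 1 / l * (r ^ 2)⁻¹ := by rw [mul_inv, one_div]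
      have e4 : 0 ≤ ((max r (2 * R)) ^ 3)⁻¹ := by positivity
      linarith
    · have hc' : 2 * R ≤ r := not_lt.1 hc
      rw [indicator_of_notMem (show r ∉ Iio (2 * R) from hc), mul_zero, zero_add, max_eq_left hc', max_eq_left (by linarith)]
  calc ((max r l) ^ 3)⁻¹ * |wt R L 0 x| ≤ (1 / l * ((Iio (2 * R)).indicator (fun r : ℝ => (r ^ 2)⁻¹) r) + ((max r (2 * R)) ^ 3)⁻¹) * |wt R L 0 x| :=
        mul_le_mul_of_nonneg_right key (abs_nonneg _)
    _ = _ := by ring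

private theorem Se_rot (lam l s θ : ℝ) (x : E3) : Gt lam l s (rot θ x) = Gt lam l s x := by
  have h1 : rsq (rot θ x) = rsq x := by
    have a0 : rot θ x 0 = Real.cos θ * x 0 - Real.sin θ * x 1 := rfl
    have a1 : rot θ x 1 = Real.sin θ * x 0 + Real.cos θ * x 1 := rfl
    unfold rsq
    rw [a0, a1]
    linear_combination (x 0 ^ 2 + x 1 ^ 2) * Real.sin_sq_add_cos_sq θ
  have h2 : rot θ x 2 = x 2 := rfl
  unfold Gt gs
  rw [h1, h2]

private theorem Se_h {G : E3 → ℝ} (hG : ContDiff ℝ ∞ G) (hr : ∀ θ x, G (rot θ x) = G x) {v : E3 → E3} (h : AxF v) (x : E3) :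
    |v x 0 * pd 0 G x + v x 1 * pd 1 G x| ≤ |ur v x| * hg G x := by
  obtain ⟨f0, f1, -, -, -, -⟩ := ur_f h x
  have hhg : 0 ≤ hg G x := Real.sqrt_nonneg _
  have hrad : 0 ≤ rad x := rad_nonneg x
  obtain ⟨r0, r1, -⟩ := rot_inv hG hr x
  set P := pd 0 G x with hP
  set Q := pd 1 G x with hQ
  set D := rdr G x with hD
  have hh2 : hg G x ^ 2 = P ^ 2 + Q ^ 2 := Real.sq_sqrt (by positivity)
  have hr2 : rad x ^ 2 = rsq x := rad_sq' x
  have hrr : rsq x = x 0 ^ 2 + x 1 ^ 2 := rfl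
  have hs : 0 ≤ rsq x := by rw [hrr]; positivity
  rcases hs.eq_or_lt with h0 | h0
  · have e0 : x 0 = 0 := by
      have : x 0 ^ 2 = 0 := by nlinarith [sq_nonneg (x 0), sq_nonneg (x 1)]
      exact pow_eq_zero_iff (n := 2) (by norm_num) |>.1 this
    have e1 : x 1 = 0 := by
      have : x 1 ^ 2 = 0 := by nlinarith [sq_nonneg (x 0), sq_nonneg (x 1)]
      exact pow_eq_zero_iff (n := 2) (by norm_num) |>.1 this
    rw [f0, f1, e0, e1]
    simp only [zero_mul, sub_zero, add_zero, abs_zero]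
    exact mul_nonneg (abs_nonneg _) hhg
  · have e1 : v x 0 * P + v x 1 * Q = sW v x * D := by
      refine mul_left_cancel₀ h0.ne' ?_
      have : rsq x * (v x 0 * P + v x 1 * Q) = v x 0 * (rsq x * P) + v x 1 * (rsq x * Q) := by ring
      rw [this, r0, r1, f0, f1, hrr]
      ring
    have e2 : D ^ 2 = rsq x * (P ^ 2 + Q ^ 2) := by
      refine mul_left_cancel₀ h0.ne' ?_
      have a1 : rsq x * (rsq x * (P ^ 2 + Q ^ 2)) = (rsq x * P) ^ 2 + (rsq x * Q) ^ 2 := by ring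
      rw [a1, r0, r1, hrr]
      ring
    rw [e1]
    refine abs_le_of_sq_le_sq ?_ (mul_nonneg (abs_nonneg _) hhg)
    have e3 : (|ur v x| * hg G x) ^ 2 = (sW v x * D) ^ 2 := by
      rw [mul_pow, mul_pow, sq_abs, hh2, e2, ← hr2]
      unfold ur
      ring
    rw [e3]

private theorem Se_zero : TF (fun _ : E3 => (0:ℝ)) ∧ ∀ i, pd i (fun _ : E3 => (0:ℝ)) = fun _ => 0 := by
  have h : ∀ i, pd i (fun _ : E3 => (0:ℝ)) = fun _ => 0 := by
    intro i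
    funext x
    unfold pd
    simp
  refine ⟨⟨contDiff_const, integrable_zero _ _ _, fun i => ?_, 0, fun x => ⟨by simp, fun i => ?_⟩⟩, h⟩
  · rw [h i]; exact integrable_zero _ _ _
  · rw [h i]; simp

private theorem Se_arith {C Cg Cp C2 N l R l' a b c d f g E A1 A2 B : ℝ} (hl : 0 < l) (hl' : 0 < l') (hlR : l' ≤ R) (hN : 1 ≤ N)
    (hCg : 1 ≤ Cg) (hCp : 0 < Cp) (hC2 : 0 < C2) (hC : C = Cp * Cg * (832 * 128 + 832 + C2 + 1) + Cg)
    (ha : 0 ≤ a) (hb : 0 ≤ b) (hc : 0 ≤ c) (hd : 0 ≤ d) (hf : 0 ≤ f) (hg : 0 ≤ g)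
    (hE : E ≤ A1 + A2 + B) (h1 : A1 ≤ N * (Cg / l ^ 3 * f)) (h2 : A2 ≤ Cg / l * g + Cg / l ^ 2 * a)
    (h3 : B ≤ Cp * (Cg / l ^ 2 * (832 * l' * b) + Cg / l ^ 2 * (1 / l' * (832 * 128 * R * a) + (C2 * c + d)))) :
    E ≤ C / l ^ 2 * (R / l' * a + l' * b + c + d) + C / l * g + C * N / l ^ 3 * f := by
  have hR : 0 < R := lt_of_lt_of_le hl' hlR
  have i1 : 0 < 1 / l := by positivity
  have hq : 1 ≤ R / l' := by rw [le_div_iff₀ hl']; linarith
  have hCC : 0 < Cp * Cg := by positivity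
  have c1 : Cg ≤ C := by rw [hC]; nlinarith [mul_pos hCC hC2]
  have c2 : Cg + Cp * Cg * (832 * 128) ≤ C := by rw [hC]; nlinarith [mul_pos hCC hC2]
  have c3 : Cp * Cg * 832 ≤ C := by rw [hC]; nlinarith [mul_pos hCC hC2]
  have c4 : Cp * Cg * C2 ≤ C := by rw [hC]; nlinarith [mul_pos hCC hC2]
  have c5 : Cp * Cg ≤ C := by rw [hC]; nlinarith [mul_pos hCC hC2]
  have t1 : N * (Cg / l ^ 3 * f) ≤ C * N / l ^ 3 * f := by
    have : N * (Cg / l ^ 3 * f) = Cg * (N / l ^ 3 * f) := by ring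
    rw [this]
    have e : C * N / l ^ 3 * f = C * (N / l ^ 3 * f) := by ring
    rw [e]
    exact mul_le_mul_of_nonneg_right c1 (by positivity)
  have t2 : Cg / l * g ≤ C / l * g := by
    have : Cg / l * g = Cg * (g / l) := by ring
    rw [this]
    have e : C / l * g = C * (g / l) := by ring
    rw [e]
    exact mul_le_mul_of_nonneg_right c1 (by positivity)
  have t3 : Cg / l ^ 2 * a + Cp * (Cg / l ^ 2 * (1 / l' * (832 * 128 * R * a))) ≤ C / l ^ 2 * (R / l' * a) := by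
    have e1 : Cp * (Cg / l ^ 2 * (1 / l' * (832 * 128 * R * a))) = Cp * Cg * (832 * 128) * (R / l' * a / l ^ 2) := by ring
    have e2 : C / l ^ 2 * (R / l' * a) = C * (R / l' * a / l ^ 2) := by ring
    have e3 : Cg / l ^ 2 * a ≤ Cg * (R / l' * a / l ^ 2) := by
      have : Cg / l ^ 2 * a = Cg * (1 * a / l ^ 2) := by ring
      rw [this]
      refine mul_le_mul_of_nonneg_left ?_ (by linarith)
      exact div_le_div_of_nonneg_right (mul_le_mul_of_nonneg_right hq ha) (by positivity)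
    rw [e1, e2]
    have e4 : Cg * (R / l' * a / l ^ 2) + Cp * Cg * (832 * 128) * (R / l' * a / l ^ 2) = (Cg + Cp * Cg * (832 * 128)) * (R / l' * a / l ^ 2) := by ring
    have e5 : (Cg + Cp * Cg * (832 * 128)) * (R / l' * a / l ^ 2) ≤ C * (R / l' * a / l ^ 2) :=
      mul_le_mul_of_nonneg_right c2 (by positivity)
    linarith
  have t4 : Cp * (Cg / l ^ 2 * (832 * l' * b)) ≤ C / l ^ 2 * (l' * b) := by
    have e1 : Cp * (Cg / l ^ 2 * (832 * l' * b)) = Cp * Cg * 832 * (l' * b / l ^ 2) := by ring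
    have e2 : C / l ^ 2 * (l' * b) = C * (l' * b / l ^ 2) := by ring
    rw [e1, e2]
    exact mul_le_mul_of_nonneg_right c3 (by positivity)
  have t5 : Cp * (Cg / l ^ 2 * (C2 * c)) ≤ C / l ^ 2 * c := by
    have e1 : Cp * (Cg / l ^ 2 * (C2 * c)) = Cp * Cg * C2 * (c / l ^ 2) := by ring
    have e2 : C / l ^ 2 * c = C * (c / l ^ 2) := by ring
    rw [e1, e2]
    exact mul_le_mul_of_nonneg_right c4 (by positivity)
  have t6 : Cp * (Cg / l ^ 2 * d) ≤ C / l ^ 2 * d := by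
    have e1 : Cp * (Cg / l ^ 2 * d) = Cp * Cg * (d / l ^ 2) := by ring
    have e2 : C / l ^ 2 * d = C * (d / l ^ 2) := by ring
    rw [e1, e2]
    exact mul_le_mul_of_nonneg_right c5 (by positivity)
  have h3' : B ≤ Cp * (Cg / l ^ 2 * (832 * l' * b)) + Cp * (Cg / l ^ 2 * (1 / l' * (832 * 128 * R * a))) +
      Cp * (Cg / l ^ 2 * (C2 * c)) + Cp * (Cg / l ^ 2 * d) := by
    refine h3.trans (le_of_eq ?_)
    ring
  have e : C / l ^ 2 * (R / l' * a + l' * b + c + d) = C / l ^ 2 * (R / l' * a) + C / l ^ 2 * (l' * b) + C / l ^ 2 * c + C / l ^ 2 * d := by ring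
  rw [e]
  linarith

theorem sE {lam : ℝ} (hlam : 0 < lam) : ∃ C : ℝ, 1 ≤ C ∧ ∀ (T : ℝ) (u : ℝ → E3 → E3) (p : ℝ → E3 → ℝ), IsHInfAxisymNS T u p → ∀ t ∈ Ioo 0 T,
    ∀ κ N Z b R₁ R₂ s l' : ℝ, Sm κ N b (u t) → 1 ≤ Z → 1 ≤ R₁ → 1 ≤ R₂ → 2 * (1 + 4 * lam * R₁ ^ 2) ≤ lam * R₂ ^ 2 → 0 ≤ s → s ≤ R₁ ^ 2 →
    0 < l' → l' ≤ R₂ → ∀ J : ℕ, 1 ≤ J →
    |Ev (u t) (p t) (Gt lam (Z * N * R₂) s)| ≤
      C / (Z * N * R₂) ^ 2 * (R₂ / l' * SS (u t) (ww N Z R₂ 0) + l' * (∫ y, ‖u t y‖ * √(gv (u t) y) * ww N Z R₂ 0 y) +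
        (∑ j ∈ Finset.Icc 1 J, (1/4) ^ j * SS (u t) (ww N Z (2 ^ j * R₂) 0)) +
        ((2 ^ J * R₂) ^ 3)⁻¹ * VV (ww N Z R₂ 0) * ∫ x, ‖u t x‖ ^ 2) +
      C / (Z * N * R₂) * (∫ x, |u t x 2| * |ur (u t) x| * ww N Z R₂ 0 x) + C * N / (Z * N * R₂) ^ 3 * VV (ww N Z R₂ 0) := by
  obtain ⟨Cg, hCg1, hCg⟩ := G_b hlam
  obtain ⟨Cp, hCp0, hCp⟩ := pA
  obtain ⟨C2, hC20, hC2⟩ := fa_wt
  refine ⟨Cp * Cg * (832 * 128 + 832 + C2 + 1) + Cg, ?_, ?_⟩
  · have : 0 < Cp * Cg := by positivity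
    nlinarith [mul_pos this hC20]
  intro T u p hns t ht κ N Z b R₁ R₂ s l' hSm hZ hR₁ hR₂ hlR hs0 hs1 hl' hl'R J hJ
  have hN : 1 ≤ N := hSm.one.trans hSm.le
  have hR : 0 < R₂ := by linarith
  obtain ⟨hl, hRl⟩ := Ad0_L hN hZ hR
  obtain ⟨w, hV0, -⟩ := ww_ok hN hZ hR 0
  have hΨ : ww N Z R₂ 0 = wt R₂ (Z * N * R₂) 0 := rfl
  have hsc : ∀ j : ℕ, wt (2 ^ j * R₂) (2 ^ j * (Z * N * R₂)) 0 = ww N Z (2 ^ j * R₂) 0 := fun j => ww_sc N Z R₂ 0 j
  set l := Z * N * R₂ with hld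
  set Ψ := ww N Z R₂ 0 with hΨd
  have hG0 : Gt lam l s = fun x => gs lam s x * ph l (x 2) := rfl
  obtain ⟨gsm, gtf, gtf1, gtf2⟩ := G_t hlam hs0 hl
  rw [← hG0] at gsm gtf gtf1 gtf2
  have gb : ∀ x, 0 ≤ Gt lam l s x ∧ Gt lam l s x ≤ Cg / l * Ψ x ∧ hg (Gt lam l s) x ≤ Cg / l * Ψ x ∧
      |pd 2 (Gt lam l s) x| ≤ Cg / l ^ 2 * Ψ x ∧ |pd 2 (pd 2 (Gt lam l s)) x| ≤ Cg / l ^ 3 * Ψ x ∧
      hg (pd 2 (pd 2 (Gt lam l s))) x ≤ Cg / l ^ 3 * Ψ x := fun x => hCg R₁ R₂ l s hR₁ hR hlR hl hs0 hs1 x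
  set G := Gt lam l s with hGd
  have hGr : ∀ θ x, G (rot θ x) = G x := fun θ x => Se_rot lam l s θ x
  obtain ⟨K, hK0, hK, iK, -⟩ := ba_vf hSm.vf
  set v := u t with hvd
  have hv := hSm.ax.smooth
  have hvj : ∀ j : Fin 3, Continuous (fun y => v y j) := fun j => (contDiff_euclidean.1 hv j).continuous
  have hvb : ∀ (j : Fin 3) x, |v x j| ≤ K := fun j x => by
    have h1 : |v x j| ≤ ‖v x‖ := by
      have := EuclideanSpace.norm_eq (v x)
      rw [this]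
      refine Real.abs_le_sqrt ?_
      have h2 : (v x j) ^ 2 = ‖v x j‖ ^ 2 := by rw [Real.norm_eq_abs, sq_abs]
      rw [h2]
      exact Finset.single_le_sum (f := fun i => ‖v x i‖ ^ 2) (fun i _ => by positivity) (Finset.mem_univ j)
    exact h1.trans (hK x).1
  obtain ⟨cgv, cnv, -⟩ := ba_gvc hv
  have hΨn : ∀ x, 0 ≤ Ψ x := w.nn
  have hcd : ∀ i, Continuous (pd i G) := fun i => (gtf1 i).c1.continuous
  -- integrability
  have j1 : Integrable (fun x => v x 2 * pd 2 (pd 2 G) x) := Fa_int (hvj 2) (hvb 2) (gtf2 2 2).int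
  have j2 : Integrable (fun x => v x 2 * adv (v x) G x) := by
    refine Fa_int (hvj 2) (hvb 2) ?_
    have : (fun x => adv (v x) G x) = fun x => ∑ i : Fin 3, v x i * pd i G x := rfl
    rw [this]
    exact integrable_finsetSum _ fun i _ => Fa_int (hvj i) (hvb i) (gtf1 i).int
  have cur := (ur_c hSm.ax).1
  have hurb : ∀ x, |ur v x| ≤ K := by
    intro x
    refine le_trans ?_ (hK x).1
    refine abs_le_of_sq_le_sq ?_ (norm_nonneg _)
    rw [(ur_f hSm.ax x).2.2.2.1]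
    have := sq_nonneg (ut v x)
    have := sq_nonneg (v x 2)
    linarith
  have j3 : Integrable (fun x => |v x 2| * |ur v x| * Ψ x) := by
    refine wi w ((hvj 2).abs.mul cur.abs) (K := K * K) (fun x => ?_)
    rw [abs_mul, abs_abs, abs_abs]
    exact mul_le_mul (hvb 2 x) (hurb x) (abs_nonneg _) hK0
  have j4 : Integrable (fun x => ‖v x‖ ^ 2 * Ψ x) := by
    refine wi w (cnv.pow 2) (K := K ^ 2) (fun x => ?_)
    rw [abs_of_nonneg (by positivity)]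
    exact pow_le_pow_left₀ (norm_nonneg _) (hK x).1 2
  have j5 : Integrable (fun x => ‖v x‖ * √(gv v x) * Ψ x) := by
    refine wi w (cnv.mul cgv.sqrt) (K := K * √K) (fun x => ?_)
    rw [abs_of_nonneg (by positivity)]
    exact mul_le_mul (hK x).1 (Real.sqrt_le_sqrt (hK x).2.1) (Real.sqrt_nonneg _) hK0
  -- the first term
  have p1 : |∫ x, v x 2 * pd 2 (pd 2 G) x| ≤ N * (Cg / l ^ 3 * VV Ψ) := by
    refine (f1 hSm (gtf2 2 2)).trans (mul_le_mul_of_nonneg_left ?_ (by linarith))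
    unfold VV
    rw [← integral_const_mul]
    exact integral_mono_of_nonneg (ae_of_all _ fun x => Real.sqrt_nonneg _) (w.int.const_mul _) (ae_of_all _ fun x => (gb x).2.2.2.2.2)
  -- the second term
  have p2 : |∫ x, v x 2 * adv (v x) G x| ≤ Cg / l * (∫ x, |v x 2| * |ur v x| * Ψ x) + Cg / l ^ 2 * SS v Ψ := by
    unfold SS
    rw [← integral_const_mul, ← integral_const_mul, ← integral_add (j3.const_mul _) (j4.const_mul _)]
    refine abs_integral_le_integral_abs.trans ?_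
    refine integral_mono_of_nonneg (ae_of_all _ fun x => abs_nonneg _) ((j3.const_mul _).add (j4.const_mul _)) (ae_of_all _ fun x => ?_)
    show |v x 2 * adv (v x) G x| ≤ Cg / l * (|v x 2| * |ur v x| * Ψ x) + Cg / l ^ 2 * (‖v x‖ ^ 2 * Ψ x)
    have e1 : adv (v x) G x = (v x 0 * pd 0 G x + v x 1 * pd 1 G x) + v x 2 * pd 2 G x := by
      unfold adv
      rw [Fin.sum_univ_three]
    have e2 := Se_h gsm hGr hSm.ax x
    have e3 : |ur v x| * hg G x ≤ |ur v x| * (Cg / l * Ψ x) := mul_le_mul_of_nonneg_left (gb x).2.2.1 (abs_nonneg _)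
    have e4 : |v x 2 * pd 2 G x| ≤ |v x 2| * (Cg / l ^ 2 * Ψ x) := by
      rw [abs_mul]
      exact mul_le_mul_of_nonneg_left (gb x).2.2.2.1 (abs_nonneg _)
    have e5 : |adv (v x) G x| ≤ |ur v x| * (Cg / l * Ψ x) + |v x 2| * (Cg / l ^ 2 * Ψ x) := by
      rw [e1]
      exact (abs_add_le _ _).trans (add_le_add (e2.trans e3) e4)
    have e6 : |v x 2| * |v x 2| ≤ ‖v x‖ ^ 2 := by
      have := (ba_gv (v := v) x 0 0).2.2.2.2.2.1
      nlinarith [abs_nonneg (v x 2)]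
    have e7 : |v x 2| * |v x 2| * (Cg / l ^ 2 * Ψ x) ≤ ‖v x‖ ^ 2 * (Cg / l ^ 2 * Ψ x) :=
      mul_le_mul_of_nonneg_right e6 (mul_nonneg (by positivity) (hΨn x))
    have e8 := mul_le_mul_of_nonneg_left e5 (abs_nonneg (v x 2))
    rw [abs_mul]
    linarith
  -- the pressure
  have p3 : |∫ x, pd 2 (p t) x * G x| ≤ Cp * (Cg / l ^ 2 * (832 * l' * (∫ y, ‖v y‖ * √(gv v y) * Ψ y)) +
      Cg / l ^ 2 * (1 / l' * (832 * 128 * R₂ * SS v Ψ) + (C2 * (∑ j ∈ Finset.Icc 1 J, (1/4) ^ j * SS v (ww N Z (2 ^ j * R₂) 0)) +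
        ((2 ^ J * R₂) ^ 3)⁻¹ * VV Ψ * ∫ x, ‖v x‖ ^ 2))) := by
    obtain ⟨z1, z2⟩ := Se_zero
    have hF : ∀ k : Fin 3, TF ((![fun _ => 0, fun _ => 0, G] : Fin 3 → E3 → ℝ) k) := by
      intro k
      fin_cases k
      · exact z1
      · exact z1
      · exact gtf
    have q1 := hCp T u p hns t ht ![fun _ => 0, fun _ => 0, G] hF l' hl'
    have q2 : (fun x => ∑ k : Fin 3, pd k (p t) x * (![fun _ => 0, fun _ => 0, G] : Fin 3 → E3 → ℝ) k x) = fun x => pd 2 (p t) x * G x := by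
      funext x
      rw [Fin.sum_univ_three]
      simp
    have q3 : dv (![fun _ => 0, fun _ => 0, G] : Fin 3 → E3 → ℝ) = pd 2 G := by
      funext x
      unfold dv
      rw [Fin.sum_univ_three]
      show pd 0 (fun _ => (0:ℝ)) x + pd 1 (fun _ => (0:ℝ)) x + pd 2 G x = pd 2 G x
      rw [z2, z2]
      ring
    rw [q2, q3] at q1
    refine q1.trans (mul_le_mul_of_nonneg_left (add_le_add ?_ ?_) hCp0.le)
    · rw [← integral_const_mul, ← integral_const_mul]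
      refine integral_mono_of_nonneg (ae_of_all _ fun y => ?_) ((j5.const_mul _).const_mul _) (ae_of_all _ fun y => ?_)
      · exact mul_nonneg (by positivity) (Ab_nn _ y)
      · show ‖v y‖ * √(gv v y) * NE l' (pd 2 G) y ≤ Cg / l ^ 2 * (832 * l' * (‖v y‖ * √(gv v y) * Ψ y))
        have e1 := Se_Ne (a := Cg / l ^ 2) (by positivity) hl' hl'R hRl (g := pd 2 G) (fun x => (gb x).2.2.2.1) y
        have e2 := mul_le_mul_of_nonneg_left e1 (by positivity : 0 ≤ ‖v y‖ * √(gv v y))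
        refine e2.trans (le_of_eq ?_)
        rw [hΨ]
        ring
    · have f0 : ∀ x, 0 ≤ ‖v x‖ ^ 2 ∧ ‖v x‖ ^ 2 ≤ K ^ 2 := fun x => ⟨by positivity, pow_le_pow_left₀ (norm_nonneg _) (hK x).1 2⟩
      have f2 := Ac_one (C := C2) hR hRl (z := 0) (j₀ := 1) (J := J) (hC2 R₂ l 0 hR hRl 1 J hJ) (f := fun x => ‖v x‖ ^ 2) (cnv.pow 2) f0 iK
      have f3 : (fun y => ‖v y‖ ^ 2 * FA (2 ^ 1 * R₂) (wt R₂ l 0) y) = fun y => ‖v y‖ ^ 2 * FA (2 * R₂) Ψ y := by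
        funext y
        rw [pow_one, hΨ]
      have j6 : Integrable (fun y => ‖v y‖ ^ 2 * FA (2 * R₂) Ψ y) := Ac_wint (by linarith) iK w.int
      have f4 : ∀ y, ‖v y‖ ^ 2 * FA l' (pd 2 G) y ≤ Cg / l ^ 2 * (1 / l' * (832 * 128 * R₂ * (‖v y‖ ^ 2 * Ψ y)) + ‖v y‖ ^ 2 * FA (2 * R₂) Ψ y) := by
        intro y
        have e1 := Se_Fa (a := Cg / l ^ 2) (by positivity) hl' hl'R hRl (g := pd 2 G) (fun x => (gb x).2.2.2.1) y
        have e2 := ne_wt (by norm_num : (1:ℝ) ≤ 2) hR hRl 0 y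
        have e3 : FA l' (pd 2 G) y ≤ Cg / l ^ 2 * (1 / l' * (832 * 2 ^ 7 * R₂ * wt R₂ l 0 y) + FA (2 * R₂) (wt R₂ l 0) y) := by
          refine e1.trans (mul_le_mul_of_nonneg_left ?_ (by positivity))
          have := mul_le_mul_of_nonneg_left e2 (by positivity : 0 ≤ 1 / l')
          linarith
        have e4 := mul_le_mul_of_nonneg_left e3 (by positivity : 0 ≤ ‖v y‖ ^ 2)
        refine e4.trans (le_of_eq ?_)
        rw [hΨ]
        ring
      have j7 : Integrable (fun y => 1 / l' * (832 * 128 * R₂ * (‖v y‖ ^ 2 * Ψ y))) := (j4.const_mul _).const_mul _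
      have f5 : ∫ y, ‖v y‖ ^ 2 * FA l' (pd 2 G) y ≤ Cg / l ^ 2 * (1 / l' * (832 * 128 * R₂ * SS v Ψ) + ∫ y, ‖v y‖ ^ 2 * FA (2 * R₂) Ψ y) := by
        unfold SS
        rw [← integral_const_mul, ← integral_const_mul, ← integral_add j7 j6, ← integral_const_mul]
        refine integral_mono_of_nonneg (ae_of_all _ fun y => ?_) ((j7.add j6).const_mul _) (ae_of_all _ fun y => f4 y)
        exact mul_nonneg (by positivity) (Ac_nn hl' _ y)
      refine f5.trans (mul_le_mul_of_nonneg_left (add_le_add le_rfl ?_) (by positivity))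
      rw [f3] at f2
      refine f2.trans (le_of_eq ?_)
      rw [hΨ]
      refine congrArg₂ (· + ·) ?_ rfl
      refine congrArg (C2 * ·) ?_
      refine Finset.sum_congr rfl fun j _ => ?_
      rw [← hsc j]
      rfl
  refine Se_arith (E := |Ev v (p t) G|) (A1 := |∫ x, v x 2 * pd 2 (pd 2 G) x|) (A2 := |∫ x, v x 2 * adv (v x) G x|)
    (B := |∫ x, pd 2 (p t) x * G x|) hl hl' hl'R hN hCg1 hCp0 hC20 rfl ?_ ?_ ?_ ?_ hV0 ?_ ?_ p1 p2 p3
  · exact integral_nonneg fun x => mul_nonneg (by positivity) (hΨn x)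
  · exact integral_nonneg fun x => mul_nonneg (by positivity) (hΨn x)
  · refine Finset.sum_nonneg fun j _ => mul_nonneg (by positivity) ?_
    refine integral_nonneg fun x => mul_nonneg (by positivity) ?_
    exact (ww_ok hN hZ (by positivity : 0 < 2 ^ j * R₂) 0).1.nn x
  · refine mul_nonneg (mul_nonneg (by positivity) hV0) ?_
    exact integral_nonneg fun x => by positivity
  · exact integral_nonneg fun x => mul_nonneg (by positivity) (hΨn x)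
  · have e1 : Ev v (p t) G = (∫ x, v x 2 * pd 2 (pd 2 G) x) + (∫ x, v x 2 * adv (v x) G x) - ∫ x, pd 2 (p t) x * G x := by
      unfold Ev
      rw [← integral_add j1 j2]
      refine congrArg₂ (· - ·) ?_ rfl
      refine integral_congr_ae (ae_of_all _ fun x => ?_)
      show v x 2 * (pd 2 (pd 2 G) x + adv (v x) G x) = v x 2 * pd 2 (pd 2 G) x + v x 2 * adv (v x) G x
      ring
    rw [e1]
    exact (abs_sub _ _).trans (add_le_add (abs_add_le _ _) le_rfl)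

end Pool.Agent.H94.WL
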