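/-
ROW Si (MP_09540e_WL). The heat identity. PROOF. Write `G t x = Gt lam l (t₀ - t) x`, l > 0 fixed, t ∈ [t₁, t₀], so s = t₀ - t ∈ [0, t₀ - t₁]. Choose R₁ ≥ 1 with t₀ - t₁ ≤ R₁² and R₂ ≥ l with `2(1 + 4 lam R₁²) ≤ lam R₂²`; Ψ = wt R₂ R₂ 0 dominates wt R₂ l 0 (wt_mono), so by G_b `|G|, hg G, |pd 2 G|, |pd 2 pd 2 G| ≤ K Ψ` on the window; Ψ > 0 smooth, integrable (wt_int).
Time: gs_f: `d/dt G = -(pd 0 pd 0 + pd 1 pd 1) G =: -Δ_h G`, also `|Δ_h G| ≤ K Ψ` (the formula of the second derivatives: polynomial times exp(-y), |.| ≤ 8 lam (1+y) e^(-y) ≤ K (1+y)⁻²; y ≥ rsq/R₂²). en0 (TU/Tb.lean) with j = id and `f t x = u t x 2 * G t x / Ψ x`, `g t x = (∂_t u₂ G - u₂ Δ_h G)/Ψ x`, where `∂_t u₂ = lap u₂ - adv u u₂ - pd 2 p` as in Tc_k of TU/Tc.lean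
(Tc_jg, Tc_ju, Tc_all: joint continuity and bounds on [t₁,t₀] ⊂ [0, T), t₀ < T; gs is jointly continuous in (s,x) for s ≥ 0): `∫ u₂(t₀) G(t₀) - ∫ u₂(t₁) G(t₁) = ∫_{t₁}^{t₀} ∫ (∂_t u₂ G - u₂ Δ_h G)`. At fixed t (div u = 0, all functions bounded times integrable, ibpI in TU/Ba.lean; TF of G and its derivatives: G_t): `∫ lap u₂ G = ∫ u₂ lap G`, `∫ adv u u₂ G = - ∫ u₂ adv u G`,
lap G = Δ_h G + pd 2 pd 2 G. So the inner integral is Ev (u t) (p t) (G t). Interval integrability: t ↦ Ev.. is continuous on [t₁,t₀] (dominated convergence, tc in TU/Ta.lean applied to integrand/Ψ), or it follows from the continuity of the inner integrand of en0.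
-/
import Pool.Agent.H94.WL.Defs2
import Pool.Agent.H94.WL.Ga
import Pool.Agent.H16.TU.Tc

set_option autoImplicit false

open Set Filter Topology MeasureTheory
open scoped ContDiff

namespace Pool.Agent.H94.WL

open Pool.Agent.H16 Pool.Agent.H87.NS Pool.Agent.H72.CC Pool.Agent.H16.TU

private theorem Si_bi {K : ℝ} {f F : E3 → ℝ} (hf : Continuous f) (hb : ∀ x, |f x| ≤ K) (hF : Integrable F) :
    Integrable (fun x => f x * F x) := by
  refine Integrable.mono' (hF.norm.const_mul K) (hf.aestronglyMeasurable.mul hF.aestronglyMeasurable)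
    (Eventually.of_forall fun x => ?_)
  rw [Real.norm_eq_abs, abs_mul, Real.norm_eq_abs]
  exact mul_le_mul_of_nonneg_right (hb x) (abs_nonneg _)

/-- Integration by parts at a fixed time. -/
private theorem Si_fix {K : ℝ} {v : E3 → E3} {q G : E3 → ℝ} (hv : ContDiff ℝ ∞ v)
    (hdiv : ∀ x, ∑ i : Fin 3, fderiv ℝ v x (e i) i = 0)
    (hK : ∀ x, ‖v x‖ ≤ K ∧ (∀ i j, |pd i (fun y => v y j) x| ≤ K) ∧ (∀ i j k, |pd i (pd j (fun y => v y k)) x| ≤ K) ∧
      |pd 2 q x| ≤ K) (hq : Continuous (pd 2 q)) (hG : ContDiff ℝ ∞ G) (t0 : TF G) (t1 : ∀ i, TF (pd i G)) :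
    ∫ x, ((lap (fun y => v y 2) x - adv (v x) (fun y => v y 2) x - pd 2 q x) * G x -
      v x 2 * (pd 0 (pd 0 G) x + pd 1 (pd 1 G) x)) = Ev v q G := by
  have hvi : ∀ i : Fin 3, ContDiff ℝ ∞ (fun y => v y i) := fun i => contDiff_euclidean.1 hv i
  obtain ⟨w, hw⟩ : ∃ w : E3 → ℝ, w = fun y => v y 2 := ⟨_, rfl⟩
  have hwx : ∀ x, v x 2 = w x := fun x => by rw [hw]
  have hws : ContDiff ℝ ∞ w := by rw [hw]; exact hvi 2
  have hwK : ∀ x, |w x| ≤ K := fun x => by rw [hw]; exact (Tc_co _ _).trans (hK x).1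
  have hw1 : ∀ x i, |pd i w x| ≤ K := fun x i => by rw [hw]; exact (hK x).2.1 i 2
  have hw2 : ∀ x i, |pd i (pd i w) x| ≤ K := fun x i => by rw [hw]; exact (hK x).2.2.1 i i 2
  have hvK : ∀ (i : Fin 3) x, |v x i| ≤ K := fun i x => (Tc_co _ _).trans (hK x).1
  have cvi : ∀ i : Fin 3, Continuous fun x => v x i := fun i => (hvi i).continuous
  have cw : Continuous w := hws.continuous
  have sw1 : ∀ i, ContDiff ℝ ∞ (pd i w) := fun i => pd_smooth hws i
  have cw1 : ∀ i, Continuous (pd i w) := fun i => (sw1 i).continuous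
  have cw2 : ∀ i, Continuous (pd i (pd i w)) := fun i => (pd_smooth (sw1 i) i).continuous
  have sG1 : ∀ i, ContDiff ℝ ∞ (pd i G) := fun i => pd_smooth hG i
  have mm : ∀ {p q r s : ℝ}, |p| ≤ r → |q| ≤ s → |p * q| ≤ r * s := by
    intro p q r s h1 h2
    rw [abs_mul]
    exact mul_le_mul h1 h2 (abs_nonneg _) ((abs_nonneg _).trans h1)
  -- integrability
  have IA : ∀ i, Integrable fun x => G x * pd i (pd i w) x := fun i => by
    have h := Si_bi (cw2 i) (fun x => hw2 x i) t0.int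
    simpa only [mul_comm] using h
  have IA1 : ∀ i, Integrable fun x => pd i G x * pd i w x := fun i => by
    have h := Si_bi (cw1 i) (fun x => hw1 x i) (t0.intd i)
    simpa only [mul_comm] using h
  have IA2 : ∀ i, Integrable fun x => pd i (pd i G) x * w x := fun i => by
    have h := Si_bi cw hwK ((t1 i).intd i)
    simpa only [mul_comm] using h
  have IG1 : ∀ i, Integrable fun x => G x * pd i w x := fun i => by
    have h := Si_bi (cw1 i) (fun x => hw1 x i) t0.int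
    simpa only [mul_comm] using h
  have IGw : ∀ i, Integrable fun x => pd i G x * w x := fun i => by
    have h := Si_bi cw hwK (t0.intd i)
    simpa only [mul_comm] using h
  have IB : ∀ i : Fin 3, Integrable fun x => (v x i * G x) * pd i w x := fun i => by
    have h := Si_bi (f := fun x => v x i * pd i w x) ((cvi i).mul (cw1 i)) (fun x => mm (hvK i x) (hw1 x i)) t0.int
    refine h.congr (Eventually.of_forall fun x => ?_)
    simp only
    ring
  have IC : ∀ i : Fin 3, Integrable fun x => pd i (fun y => v y i) x * (G x * w x) := fun i => by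
    have h := Si_bi (f := fun x => pd i (fun y => v y i) x * w x) ((pd_smooth (hvi i) i).continuous.mul cw)
      (fun x => mm ((hK x).2.1 i i) (hwK x)) t0.int
    refine h.congr (Eventually.of_forall fun x => ?_)
    simp only
    ring
  have ID : ∀ i : Fin 3, Integrable fun x => v x i * (pd i G x * w x) := fun i => by
    have h := Si_bi (f := fun x => v x i * w x) ((cvi i).mul cw) (fun x => mm (hvK i x) (hwK x)) (t0.intd i)
    refine h.congr (Eventually.of_forall fun x => ?_)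
    simp only
    ring
  have IBw : ∀ i : Fin 3, Integrable fun x => (v x i * G x) * w x := fun i => by
    have h := Si_bi (f := fun x => v x i * w x) ((cvi i).mul cw) (fun x => mm (hvK i x) (hwK x)) t0.int
    refine h.congr (Eventually.of_forall fun x => ?_)
    simp only
    ring
  have IP : Integrable fun x => pd 2 q x * G x := Si_bi hq (fun x => (hK x).2.2.2) t0.int
  -- second order
  have eA : ∀ i, ∫ x, G x * pd i (pd i w) x = ∫ x, pd i (pd i G) x * w x := by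
    intro i
    have h1 := ibpI (f := G) (g := pd i w) (Psi_diff hG) (Psi_diff (sw1 i)) i (IA1 i) (IA i) (IG1 i)
    have h2 := ibpI (f := pd i G) (g := w) (Psi_diff (sG1 i)) (Psi_diff hws) i (IA2 i) (IA1 i) (IGw i)
    rw [h1, h2, neg_neg]
  -- transport
  have eB : ∀ i : Fin 3, ∫ x, (v x i * G x) * pd i w x =
      (- ∫ x, pd i (fun y => v y i) x * (G x * w x)) - ∫ x, v x i * (pd i G x * w x) := by
    intro i
    have hsum : ∀ x, pd i (fun y => v y i * G y) x * w x =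
        pd i (fun y => v y i) x * (G x * w x) + v x i * (pd i G x * w x) := by
      intro x
      rw [Psi_mul (f := fun y => v y i) (Psi_diff (hvi i) x) (Psi_diff hG x) i]
      ring
    have h := ibpI (f := fun y => v y i * G y) (g := w)
      (fun x => (Psi_diff (hvi i) x).mul (Psi_diff hG x)) (Psi_diff hws) i
      (by
        simp only [hsum]
        exact (IC i).add (ID i))
      (IB i) (IBw i)
    simp only [hsum] at h
    rw [h, integral_add (IC i) (ID i)]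
    ring
  have e4 : ∑ i : Fin 3, ∫ x, pd i (fun y => v y i) x * (G x * w x) = 0 := by
    rw [← integral_finsetSum _ fun i _ => IC i]
    have h0 : ∀ x, ∑ i : Fin 3, pd i (fun y => v y i) x * (G x * w x) = 0 := by
      intro x
      rw [← Finset.sum_mul]
      have h1 : ∑ i : Fin 3, pd i (fun y => v y i) x = 0 := by
        rw [← hdiv x]
        exact Finset.sum_congr rfl fun i _ => pd_comp hv i i x
      rw [h1, zero_mul]
    simp only [h0, integral_zero]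
  -- assemble
  have IAB : ∀ i : Fin 3, Integrable fun x => G x * pd i (pd i w) x - (v x i * G x) * pd i w x :=
    fun i => (IA i).sub (IB i)
  have IAs : Integrable fun x => ∑ i : Fin 3, (G x * pd i (pd i w) x - (v x i * G x) * pd i w x) :=
    integrable_finsetSum _ fun i _ => IAB i
  have ISP : Integrable fun x => (∑ i : Fin 3, (G x * pd i (pd i w) x - (v x i * G x) * pd i w x)) - pd 2 q x * G x :=
    IAs.sub IP
  have I01 : Integrable fun x => pd 0 (pd 0 G) x * w x + pd 1 (pd 1 G) x * w x := (IA2 0).add (IA2 1)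
  have eL : ∫ x, ((lap (fun y => v y 2) x - adv (v x) (fun y => v y 2) x - pd 2 q x) * G x -
      v x 2 * (pd 0 (pd 0 G) x + pd 1 (pd 1 G) x)) =
      (∑ i : Fin 3, ((∫ x, G x * pd i (pd i w) x) - ∫ x, (v x i * G x) * pd i w x)) -
      (∫ x, pd 2 q x * G x) - ((∫ x, pd 0 (pd 0 G) x * w x) + ∫ x, pd 1 (pd 1 G) x * w x) := by
    have s1 : (∑ i : Fin 3, ((∫ x, G x * pd i (pd i w) x) - ∫ x, (v x i * G x) * pd i w x)) =
        ∫ x, ∑ i : Fin 3, (G x * pd i (pd i w) x - (v x i * G x) * pd i w x) := by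
      rw [integral_finsetSum _ fun i _ => IAB i]
      exact Finset.sum_congr rfl fun i _ => (integral_sub (IA i) (IB i)).symm
    rw [s1, ← integral_sub IAs IP, ← integral_add (IA2 0) (IA2 1), ← integral_sub ISP I01]
    refine integral_congr_ae (Eventually.of_forall fun x => ?_)
    simp only [hwx]
    unfold lap adv
    simp only [Fin.sum_univ_three, hwx]
    ring
  have eR : Ev v q G = ((∫ x, pd 2 (pd 2 G) x * w x) + ∑ i : Fin 3, ∫ x, v x i * (pd i G x * w x)) -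
      ∫ x, pd 2 q x * G x := by
    unfold Ev
    congr 1
    rw [← integral_finsetSum _ fun i _ => ID i,
      ← integral_add (IA2 2) (integrable_finsetSum _ fun i _ => ID i)]
    refine integral_congr_ae (Eventually.of_forall fun x => ?_)
    simp only
    unfold adv
    simp only [Fin.sum_univ_three, hwx]
    ring
  rw [eL, eR]
  simp only [eA, eB]
  simp only [Fin.sum_univ_three] at e4 ⊢
  linarith

private theorem Si_pg {l : ℝ} (hl : 0 < l) {f : E3 → ℝ} (hf : ContDiff ℝ ∞ f) {i : Fin 3} (hi : i ≠ 2) :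
    pd i (fun x => f x * ph l (x 2)) = fun x => pd i f x * ph l (x 2) := by
  funext x
  have hp : Differentiable ℝ (ph l) := (ph_f hl).1.differentiable (by simp)
  have h1 : pd i (fun y : E3 => ph l (y 2)) x = 0 := by
    rw [Tb_pdc (f := fun y : E3 => y 2) (hp _) (Psi_dc 2 x) i, Psi_coord, if_neg (Ne.symm hi), mul_zero]
  rw [Psi_mul (f := f) (g := fun y : E3 => ph l (y 2)) (Psi_diff hf x) ((hp _).comp x (Psi_dc 2 x)) i, h1, mul_zero,
    add_zero]

private theorem Si_pp {lam s : ℝ} (hlam : 0 < lam) (hs : 0 ≤ s) {i : Fin 3} (hi : i ≠ 2) (x : E3) :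
    pd i (pd i (gs lam s)) x =
      (4 * lam ^ 2 * x i ^ 2 / (1 + 4 * lam * s) ^ 2 - 2 * lam / (1 + 4 * lam * s)) * gs lam s x := by
  have hτ : 0 < 1 + 4 * lam * s := by positivity
  obtain ⟨g1, g2, g3, g4, g5, g6⟩ := gs_f (lam := lam) (s := s) hlam hs
  have hd : ∀ y, pd i (gs lam s) y = (-(2 * lam / (1 + 4 * lam * s)) * y i) * gs lam s y := by
    intro y
    fin_cases i
    · show pd 0 (gs lam s) y = (-(2 * lam / (1 + 4 * lam * s)) * y 0) * gs lam s y
      rw [g4 y]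
      ring
    · show pd 1 (gs lam s) y = (-(2 * lam / (1 + 4 * lam * s)) * y 1) * gs lam s y
      rw [g5 y]
      ring
    · exact absurd rfl hi
  have hd' : pd i (gs lam s) = fun y => (-(2 * lam / (1 + 4 * lam * s)) * y i) * gs lam s y := funext hd
  rw [hd', Psi_mul (f := fun y : E3 => -(2 * lam / (1 + 4 * lam * s)) * y i) ((Psi_dc i x).const_mul _) (Psi_diff g1 x) i,
    Psi_cm (Psi_dc i x), Psi_coord, if_pos rfl, hd x]
  field_simp
  ring

private noncomputable def Si_H (lam l s : ℝ) (x : E3) : ℝ :=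
  ((4 * lam ^ 2 * rsq x / (1 + 4 * lam * s) ^ 2 - 4 * lam / (1 + 4 * lam * s)) * gs lam s x) * ph l (x 2)

private theorem Si_HH {lam l s : ℝ} (hlam : 0 < lam) (hl : 0 < l) (hs : 0 ≤ s) (x : E3) :
    pd 0 (pd 0 (Gt lam l s)) x + pd 1 (pd 1 (Gt lam l s)) x = Si_H lam l s x := by
  obtain ⟨g1, -, -, -, -, -⟩ := gs_f (lam := lam) (s := s) hlam hs
  have e0 : Gt lam l s = fun x => gs lam s x * ph l (x 2) := rfl
  have h0 : pd 0 (pd 0 (Gt lam l s)) = fun x => pd 0 (pd 0 (gs lam s)) x * ph l (x 2) := by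
    rw [e0, Si_pg hl g1 (by decide), Si_pg hl (pd_smooth g1 0) (by decide)]
  have h1 : pd 1 (pd 1 (Gt lam l s)) = fun x => pd 1 (pd 1 (gs lam s)) x * ph l (x 2) := by
    rw [e0, Si_pg hl g1 (by decide), Si_pg hl (pd_smooth g1 1) (by decide)]
  rw [h0, h1]
  simp only
  rw [Si_pp hlam hs (i := 0) (by decide) x, Si_pp hlam hs (i := 1) (by decide) x]
  unfold Si_H rsq
  ring

private theorem Si_gd {lam l s : ℝ} (hlam : 0 < lam) (hs : 0 ≤ s) (x : E3) :
    HasDerivAt (fun s => Gt lam l s x) (Si_H lam l s x) s := by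
  obtain ⟨g1, -, -, -, -, g6⟩ := gs_f (lam := lam) (s := s) hlam hs
  have h := (g6 x).mul_const (ph l (x 2))
  refine h.congr_deriv ?_
  rw [Si_pp hlam hs (i := 0) (by decide) x, Si_pp hlam hs (i := 1) (by decide) x]
  unfold Si_H rsq
  ring

private theorem Si_ex {y : ℝ} (hy : 0 ≤ y) : (1 + y) * Real.exp (-y) ≤ 27 * ((1 + y) ^ 2)⁻¹ := by
  have h1 : 1 + y / 3 ≤ Real.exp (y / 3) := by linarith [Real.add_one_le_exp (y / 3)]
  have h2 : 1 + y ≤ 3 * Real.exp (y / 3) := by linarith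
  have h3 : (1 + y) ^ 3 ≤ (3 * Real.exp (y / 3)) ^ 3 := pow_le_pow_left₀ (by linarith) h2 3
  have h4 : (3 * Real.exp (y / 3)) ^ 3 = 27 * Real.exp y := by
    rw [mul_pow, ← Real.exp_nat_mul]
    have : ((3:ℕ):ℝ) * (y / 3) = y := by push_cast; ring
    rw [this]
    norm_num
  rw [h4] at h3
  have hp : 0 < (1 + y) ^ 2 := by positivity
  have he : 0 < Real.exp y := Real.exp_pos y
  rw [Real.exp_neg, ← div_eq_mul_inv, ← div_eq_mul_inv, div_le_div_iff₀ he hp]
  nlinarith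

private theorem Si_phw {l : ℝ} (hl : 0 < l) (z : ℝ) : 0 ≤ ph l z ∧ ph l z ≤ 2 / l * (1 + (z - 0) ^ 2 / l ^ 2)⁻¹ := by
  obtain ⟨-, -, -, h⟩ := ph_f hl
  obtain ⟨h1, h2, h3⟩ := h z
  refine ⟨h1, ?_⟩
  rw [sub_zero]
  have hp : 0 < 1 + z ^ 2 / l ^ 2 := by positivity
  rcases le_or_gt l |z| with h4 | h4
  · rw [h3 h4]
    positivity
  · have h5 : z ^ 2 / l ^ 2 ≤ 1 := by
      rw [div_le_one (by positivity)]
      nlinarith [sq_abs z, abs_nonneg z]
    have h6 : 1 / 2 ≤ (1 + z ^ 2 / l ^ 2)⁻¹ := by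
      rw [one_div]
      exact inv_anti₀ hp (by linarith)
    calc ph l z ≤ 1 / l := h2
      _ = 2 / l * (1 / 2) := by ring
      _ ≤ _ := mul_le_mul_of_nonneg_left h6 (by positivity)

private theorem Si_Hb {lam l s R : ℝ} (hlam : 0 < lam) (hl : 0 < l) (hs : 0 ≤ s) (hR : 0 < R)
    (h : 1 + 4 * lam * s ≤ lam * R ^ 2) (x : E3) : |Si_H lam l s x| ≤ 216 * lam / l * wt R l 0 x := by
  have hτ : 1 ≤ 1 + 4 * lam * s := by
    have : 0 ≤ 4 * lam * s := by positivity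
    linarith
  obtain ⟨τ, hτd⟩ : ∃ τ, τ = 1 + 4 * lam * s := ⟨_, rfl⟩
  obtain ⟨y, hyd⟩ : ∃ y, y = lam * rsq x / τ := ⟨_, rfl⟩
  rw [← hτd] at hτ h
  have hτ0 : 0 < τ := by linarith
  have hr : 0 ≤ rsq x := by unfold rsq; positivity
  have hy : 0 ≤ y := by rw [hyd]; positivity
  have hgs : gs lam s x = τ⁻¹ * Real.exp (-y) := by
    unfold gs
    rw [← hτd, ← hyd]
  have e1 : 4 * lam ^ 2 * rsq x / τ ^ 2 - 4 * lam / τ = 4 * lam / τ * (y - 1) := by
    rw [hyd]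
    field_simp
  have hτi : τ⁻¹ ≤ 1 := inv_le_one_of_one_le₀ hτ
  have hτi0 : 0 < τ⁻¹ := inv_pos.2 hτ0
  have hyR : rsq x / R ^ 2 ≤ y := by
    rw [hyd, div_le_div_iff₀ (by positivity) hτ0]
    nlinarith
  obtain ⟨p0, p1⟩ := Si_phw hl (x 2)
  have hy1 : |y - 1| ≤ 1 + y := by
    rw [abs_le]
    constructor <;> linarith
  have e2 : Si_H lam l s x = (4 * lam / τ * (y - 1)) * (τ⁻¹ * Real.exp (-y)) * ph l (x 2) := by
    unfold Si_H
    rw [← hτd, e1, hgs]
  have he : 0 < Real.exp (-y) := Real.exp_pos _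
  have e3 : |Si_H lam l s x| = 4 * lam * (τ⁻¹ * τ⁻¹) * (|y - 1| * Real.exp (-y)) * ph l (x 2) := by
    rw [e2, abs_mul, abs_mul, abs_mul, abs_mul, abs_of_nonneg p0, abs_of_pos hτi0, abs_of_pos he,
      abs_of_pos (by positivity : 0 < 4 * lam / τ)]
    field_simp
  have b1 : τ⁻¹ * τ⁻¹ ≤ 1 := mul_le_one₀ hτi hτi0.le hτi
  have b2 : |y - 1| * Real.exp (-y) ≤ 27 * ((1 + rsq x / R ^ 2) ^ 2)⁻¹ := by
    calc |y - 1| * Real.exp (-y) ≤ (1 + y) * Real.exp (-y) := mul_le_mul_of_nonneg_right hy1 he.le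
      _ ≤ 27 * ((1 + y) ^ 2)⁻¹ := Si_ex hy
      _ ≤ 27 * ((1 + rsq x / R ^ 2) ^ 2)⁻¹ := by
          refine mul_le_mul_of_nonneg_left ?_ (by norm_num)
          refine inv_anti₀ (by positivity) (pow_le_pow_left₀ (by positivity) (by linarith) 2)
  rw [e3]
  have b3 : 4 * lam * (τ⁻¹ * τ⁻¹) ≤ 4 * lam * 1 := mul_le_mul_of_nonneg_left b1 (by positivity)
  calc 4 * lam * (τ⁻¹ * τ⁻¹) * (|y - 1| * Real.exp (-y)) * ph l (x 2)
      ≤ (4 * lam * 1) * (27 * ((1 + rsq x / R ^ 2) ^ 2)⁻¹) * (2 / l * (1 + (x 2 - 0) ^ 2 / l ^ 2)⁻¹) :=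
        mul_le_mul (mul_le_mul b3 b2 (by positivity) (by positivity)) p1 p0 (by positivity)
    _ = 216 * lam / l * wt R l 0 x := by
        unfold wt
        ring

private theorem Si_gc {lam t₀ t₁ : ℝ} (hlam : 0 < lam) :
    ContinuousOn (fun q : ℝ × E3 => gs lam (t₀ - q.1) q.2) (Icc t₁ t₀ ×ˢ univ) := by
  have c0 : Continuous fun q : ℝ × E3 => 1 + 4 * lam * (t₀ - q.1) := by fun_prop
  have cr : Continuous fun q : ℝ × E3 => rsq q.2 := by
    unfold rsq
    exact (((Psi_cont_coord 0).comp continuous_snd).pow 2).add (((Psi_cont_coord 1).comp continuous_snd).pow 2)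
  have hne : ∀ q ∈ (Icc t₁ t₀ ×ˢ univ : Set (ℝ × E3)), 1 + 4 * lam * (t₀ - q.1) ≠ 0 := by
    rintro q ⟨hq, -⟩
    have : 0 ≤ 4 * lam * (t₀ - q.1) := mul_nonneg (by positivity) (by linarith [hq.2])
    linarith
  unfold gs
  refine ContinuousOn.mul (c0.continuousOn.inv₀ hne) ?_
  refine Real.continuous_exp.comp_continuousOn ?_
  exact (((continuous_const.mul cr).continuousOn).div c0.continuousOn hne).neg

private theorem Si_Gc {lam l t₀ t₁ : ℝ} (hlam : 0 < lam) (hl : 0 < l) :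
    ContinuousOn (fun q : ℝ × E3 => Gt lam l (t₀ - q.1) q.2) (Icc t₁ t₀ ×ˢ univ) := by
  unfold Gt
  refine ContinuousOn.mul (Si_gc hlam) ?_
  exact ((ph_f hl).1.continuous.comp ((Psi_cont_coord 2).comp continuous_snd)).continuousOn

private theorem Si_Hc {lam l t₀ t₁ : ℝ} (hlam : 0 < lam) (hl : 0 < l) :
    ContinuousOn (fun q : ℝ × E3 => Si_H lam l (t₀ - q.1) q.2) (Icc t₁ t₀ ×ˢ univ) := by
  have c0 : Continuous fun q : ℝ × E3 => 1 + 4 * lam * (t₀ - q.1) := by fun_prop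
  have cr : Continuous fun q : ℝ × E3 => rsq q.2 := by
    unfold rsq
    exact (((Psi_cont_coord 0).comp continuous_snd).pow 2).add (((Psi_cont_coord 1).comp continuous_snd).pow 2)
  have hne : ∀ q ∈ (Icc t₁ t₀ ×ˢ univ : Set (ℝ × E3)), 1 + 4 * lam * (t₀ - q.1) ≠ 0 := by
    rintro q ⟨hq, -⟩
    have : 0 ≤ 4 * lam * (t₀ - q.1) := mul_nonneg (by positivity) (by linarith [hq.2])
    linarith
  unfold Si_H
  refine ContinuousOn.mul (ContinuousOn.mul ?_ (Si_gc hlam)) ?_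
  · refine ContinuousOn.sub ?_ ?_
    · exact ((continuous_const.mul cr).continuousOn).div (c0.pow 2).continuousOn fun q hq => pow_ne_zero 2 (hne q hq)
    · exact continuousOn_const.div c0.continuousOn hne
  · exact ((ph_f hl).1.continuous.comp ((Psi_cont_coord 2).comp continuous_snd)).continuousOn

theorem sI {T lam l t₁ t₀ : ℝ} {u : ℝ → E3 → E3} {p : ℝ → E3 → ℝ} (h : IsHInfAxisymNS T u p) (hlam : 0 < lam) (hl : 0 < l)
    (h1 : 0 ≤ t₁) (h12 : t₁ ≤ t₀) (h2 : t₀ < T) :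
    IntervalIntegrable (fun t => Ev (u t) (p t) (Gt lam l (t₀ - t))) volume t₁ t₀ ∧
    (∫ x, u t₀ x 2 * Gt lam l 0 x) - ∫ x, u t₁ x 2 * Gt lam l (t₀ - t₁) x = ∫ t in t₁..t₀, Ev (u t) (p t) (Gt lam l (t₀ - t)) := by
  obtain ⟨K, hK0, hK⟩ := Tc_all h h2
  obtain ⟨C, hC1, hC⟩ := G_b hlam
  -- the weight
  obtain ⟨R₁, hR₁⟩ : ∃ R₁, R₁ = 1 + (t₀ - t₁) := ⟨_, rfl⟩
  have hR₁1 : 1 ≤ R₁ := by linarith
  have hR₁s : t₀ - t₁ ≤ R₁ ^ 2 := by nlinarith
  obtain ⟨R, hR⟩ : ∃ R, R = √(2 * (1 + 4 * lam * R₁ ^ 2) / lam) := ⟨_, rfl⟩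
  have hRp : 0 < R := by rw [hR]; exact Real.sqrt_pos.2 (by positivity)
  have hRR : lam * R ^ 2 = 2 * (1 + 4 * lam * R₁ ^ 2) := by
    rw [hR, Real.sq_sqrt (by positivity)]
    field_simp
  obtain ⟨Ψ, hΨ⟩ : ∃ Ψ, Ψ = wt R l 0 := ⟨_, rfl⟩
  have Ψs : ContDiff ℝ ∞ Ψ := by rw [hΨ]; exact wt_sm hRp hl 0
  have Ψp : ∀ x, 0 < Ψ x := fun x => by rw [hΨ]; exact wt_pos hRp hl 0 x
  have Ψi : Integrable Ψ := by rw [hΨ]; exact (wt_int hRp hl 0).1
  have hs0 : ∀ t ∈ Icc t₁ t₀, 0 ≤ t₀ - t := fun t ht => by linarith [ht.2]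
  have hs1 : ∀ t ∈ Icc t₁ t₀, t₀ - t ≤ R₁ ^ 2 := fun t ht => by linarith [ht.1]
  have bG : ∀ t ∈ Icc t₁ t₀, ∀ x, |Gt lam l (t₀ - t) x| ≤ C / l * Ψ x := by
    intro t ht x
    have h3 := hC R₁ R l (t₀ - t) hR₁1 hRp hRR.symm.le hl (hs0 t ht) (hs1 t ht) x
    unfold Gt
    rw [abs_of_nonneg h3.1, hΨ]
    exact h3.2.1
  have bH : ∀ t ∈ Icc t₁ t₀, ∀ x, |Si_H lam l (t₀ - t) x| ≤ 216 * lam / l * Ψ x := by
    intro t ht x
    rw [hΨ]
    refine Si_Hb hlam hl (hs0 t ht) hRp ?_ x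
    rw [hRR]
    have := mul_le_mul_of_nonneg_left (hs1 t ht) (by positivity : 0 ≤ 4 * lam)
    have : 0 ≤ 4 * lam * R₁ ^ 2 := by positivity
    linarith
  have hsub : Icc t₁ t₀ ⊆ Ico 0 T := Tc_sub h1 h2
  have hsub2 : Icc t₁ t₀ ×ˢ (univ : Set E3) ⊆ Ico 0 T ×ˢ univ := by
    rintro ⟨t, x⟩ ⟨ht, -⟩
    exact ⟨hsub ht, mem_univ _⟩
  obtain ⟨N, hN⟩ : ∃ N : ℝ → E3 → ℝ, N = fun t x => lap (fun y => u t y 2) x - adv (u t x) (fun y => u t y 2) x - pd 2 (p t) x :=
    ⟨_, rfl⟩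
  have hNx : ∀ t x, N t x = lap (fun y => u t y 2) x - adv (u t x) (fun y => u t y 2) x - pd 2 (p t) x := fun t x => by
    rw [hN]
  have bN : ∀ t ∈ Icc t₁ t₀, ∀ x, |N t x| ≤ K := fun t ht x => by
    rw [hNx]
    exact ((hK t ⟨h1.trans ht.1, ht.2⟩ x).2.2.2.2.2 2).2
  have bu : ∀ t ∈ Icc t₁ t₀, ∀ x, |u t x 2| ≤ K := fun t ht x =>
    (Tc_co _ _).trans (hK t ⟨h1.trans ht.1, ht.2⟩ x).1
  have cN : ContinuousOn (fun q : ℝ × E3 => N q.1 q.2) (Icc t₁ t₀ ×ˢ univ) := by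
    simp only [hNx]
    exact ContinuousOn.mono (Tc_jg h 2) hsub2
  have cu : ContinuousOn (fun q : ℝ × E3 => u q.1 q.2 2) (Icc t₁ t₀ ×ˢ univ) := ContinuousOn.mono (Tc_ju h 2) hsub2
  have cΨ : ContinuousOn (fun q : ℝ × E3 => Ψ q.2) (Icc t₁ t₀ ×ˢ univ) :=
    (Ψs.continuous.comp continuous_snd).continuousOn
  have cG : ContinuousOn (fun q : ℝ × E3 => Gt lam l (t₀ - q.1) q.2) (Icc t₁ t₀ ×ˢ univ) := Si_Gc hlam hl
  have cH : ContinuousOn (fun q : ℝ × E3 => Si_H lam l (t₀ - q.1) q.2) (Icc t₁ t₀ ×ˢ univ) := Si_Hc hlam hl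
  obtain ⟨f, hf⟩ : ∃ f : ℝ → E3 → ℝ, f = fun t x => u t x 2 * Gt lam l (t₀ - t) x / Ψ x := ⟨_, rfl⟩
  obtain ⟨g, hg'⟩ : ∃ g : ℝ → E3 → ℝ, g = fun t x => (N t x * Gt lam l (t₀ - t) x - u t x 2 * Si_H lam l (t₀ - t) x) / Ψ x :=
    ⟨_, rfl⟩
  have hfx : ∀ t x, f t x = u t x 2 * Gt lam l (t₀ - t) x / Ψ x := fun t x => by rw [hf]
  have hgx : ∀ t x, g t x = (N t x * Gt lam l (t₀ - t) x - u t x 2 * Si_H lam l (t₀ - t) x) / Ψ x := fun t x => by rw [hg']
  have cf : ContinuousOn (fun q : ℝ × E3 => f q.1 q.2) (Icc t₁ t₀ ×ˢ univ) := by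
    simp only [hfx]
    exact (cu.mul cG).div cΨ fun q _ => (Ψp q.2).ne'
  have cg : ContinuousOn (fun q : ℝ × E3 => g q.1 q.2) (Icc t₁ t₀ ×ˢ univ) := by
    simp only [hgx]
    exact ((cN.mul cG).sub (cu.mul cH)).div cΨ fun q _ => (Ψp q.2).ne'
  have hd : ∀ t ∈ Ioo t₁ t₀, ∀ x, HasDerivAt (fun s => f s x) (g t x) t := by
    intro t ht x
    have ht' : t ∈ Ioo 0 T := ⟨h1.trans_lt ht.1, ht.2.trans h2⟩
    have e1 := hasDerivAt_coord (h.ns.hasDerivAt_time ht' x) 2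
    have e2 := ns_comp h.ns ht' x 2
    rw [e1.deriv] at e2
    have e3 : HasDerivAt (fun s => u s x 2) (N t x) t := by
      refine e1.congr_deriv ?_
      rw [hNx]
      linarith
    have e4 : HasDerivAt (fun s => Gt lam l (t₀ - s) x) (-(Si_H lam l (t₀ - t) x)) t :=
      (Si_gd hlam (hs0 t ⟨ht.1.le, ht.2.le⟩) x).comp_const_sub t₀ t
    have e5 := (e3.mul e4).div_const (Ψ x)
    simp only [hfx, hgx]
    refine e5.congr_deriv ?_
    ring
  have hC0 : 0 ≤ C := by linarith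
  have hbd : ∀ t ∈ Icc t₁ t₀, ∀ x, |f t x| ≤ K * (C / l) + K * (216 * lam / l) ∧
      |g t x| ≤ K * (C / l) + K * (216 * lam / l) := by
    intro t ht x
    have a1 := bG t ht x
    have a2 := bH t ht x
    have a3 := bN t ht x
    have a4 := bu t ht x
    have p := Ψp x
    have m0 : 0 ≤ C / l * Ψ x := by positivity
    have m1 : |u t x 2 * Gt lam l (t₀ - t) x| ≤ K * (C / l * Ψ x) := by
      rw [abs_mul]
      exact mul_le_mul a4 a1 (abs_nonneg _) hK0
    have m2 : |N t x * Gt lam l (t₀ - t) x| ≤ K * (C / l * Ψ x) := by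
      rw [abs_mul]
      exact mul_le_mul a3 a1 (abs_nonneg _) hK0
    have m3 : |u t x 2 * Si_H lam l (t₀ - t) x| ≤ K * (216 * lam / l * Ψ x) := by
      rw [abs_mul]
      exact mul_le_mul a4 a2 (abs_nonneg _) hK0
    have m4 : 0 ≤ K * (216 * lam / l * Ψ x) := by positivity
    rw [hfx, hgx, abs_div, abs_div, abs_of_pos p, div_le_iff₀ p, div_le_iff₀ p]
    constructor
    · nlinarith
    · have := abs_sub (N t x * Gt lam l (t₀ - t) x) (u t x 2 * Si_H lam l (t₀ - t) x)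
      nlinarith
  have key := en0 (a := t₁) (b := t₀) (K := K * (C / l) + K * (216 * lam / l)) h12 (f := f) (g := g) cf cg hd hbd
    (j := fun s => s) contDiff_id Ψs.continuous Ψi
  simp only [deriv_id'', one_mul] at key
  have mf : ∀ t x, f t x * Ψ x = u t x 2 * Gt lam l (t₀ - t) x := fun t x => by
    rw [hfx, div_mul_cancel₀ _ (Ψp x).ne']
  have mg : ∀ t x, g t x * Ψ x = N t x * Gt lam l (t₀ - t) x - u t x 2 * Si_H lam l (t₀ - t) x := fun t x => by
    rw [hgx, div_mul_cancel₀ _ (Ψp x).ne']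
  have hEv : ∀ t ∈ Icc t₁ t₀, ∫ x, g t x * Ψ x = Ev (u t) (p t) (Gt lam l (t₀ - t)) := by
    intro t ht
    have ht' := hsub ht
    have hv := vf_u h ht'
    obtain ⟨q1, q2, q3, q4⟩ := G_t (lam := lam) (s := t₀ - t) (l := l) hlam (hs0 t ht) hl
    have hKt := hK t ⟨ht'.1, ht.2⟩
    rw [← Si_fix (K := K) (v := u t) (q := p t) (G := Gt lam l (t₀ - t)) hv.sm hv.div
      (fun x => ⟨(hKt x).1, (hKt x).2.2.1, (hKt x).2.2.2.1, (hKt x).2.2.2.2.1 2⟩)
      (Tc_sl (Tc_jp h 2) ht') q1 q2 q3]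
    refine integral_congr_ae (Eventually.of_forall fun x => ?_)
    simp only
    rw [mg, hNx, Si_HH hlam hl (hs0 t ht) x]
  have cI : ContinuousOn (fun t => ∫ x, g t x * Ψ x) (Icc t₁ t₀) := by
    refine continuousOn_of_dominated (bound := fun x => (K * (C / l) + K * (216 * lam / l)) * Ψ x) ?_ ?_
      (Ψi.const_mul _) ?_
    · intro t ht
      have c1 : ContinuousOn (fun x : E3 => g t x) univ :=
        cg.comp (f := fun x : E3 => (t, x)) (by fun_prop) (fun x _ => ⟨ht, mem_univ _⟩)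
      exact ((continuousOn_univ.1 c1).mul Ψs.continuous).aestronglyMeasurable
    · intro t ht
      refine ae_of_all _ fun x => ?_
      rw [Real.norm_eq_abs, abs_mul, abs_of_pos (Ψp x)]
      exact mul_le_mul_of_nonneg_right (hbd t ht x).2 (Ψp x).le
    · refine ae_of_all _ fun x => ?_
      have c2 : ContinuousOn (fun t => g t x) (Icc t₁ t₀) :=
        cg.comp (f := fun t : ℝ => (t, x)) (by fun_prop) (fun t ht => ⟨ht, mem_univ _⟩)
      exact c2.mul continuousOn_const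
  refine ⟨?_, ?_⟩
  · refine ContinuousOn.intervalIntegrable_of_Icc h12 ?_
    exact cI.congr fun t ht => (hEv t ht).symm
  · simp only [mf, sub_self] at key
    rw [key]
    refine intervalIntegral.integral_congr fun t ht => ?_
    rw [uIcc_of_le h12] at ht
    exact hEv t ht

end Pool.Agent.H94.WL
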