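/-
ROW St (MP_09540e_WL). Decay of Gaussian averages. PROOF. Constants: C (called C_A below) is that of Cm, C_E from sE. l = Z N R₂, Ψ = ww N Z R₂ 0, W = [t₀ - R₁², t₀] ⊂ (0, T), t₁ = t₀ - R₁². `exp(-(lam rsq x)) ph l (x 2) = Gt lam l 0 x`. sI: `|∫ v₂(t₀) Gt 0| ≤ |∫ v₂(t₁) Gt lam l R₁²| + ∫_W |Ev|`.
Start: f1 and G_s: `≤ N · 80/√(lam (1 + 4 lam R₁²)) ≤ 40 N/(lam R₁)`. sE for t ∈ W (t > 0) with `l' = R₂/R₁²`; bounds of Cm: `SS(Ψ) ≤ C_A N³ R₂`, `SS(Ψ_j) ≤ C_A N³ 2^j R₂` (en, R = 2^j R₂), `∫_W DD(Ψ) ≤ C_A N³ R₂` (di with R = R₂, R₁² ≤ R₂²). `‖v‖√gv ≤ (R₁/2) gv + ‖v‖²/(2R₁)`: `∫_W ∫ ‖v‖√gv Ψ ≤ R₁ C_A N³ R₂`.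
`∫_W ∑ (1/4)^j SS_j ≤ R₁² C_A N³ R₂`. The tail: `(2^J R₂)⁻³ VV Ψ ∫‖v‖² R₁² ≤ C_A N³ R₂` for J large (∫‖v‖² ≤ κ b: Sm.en; J depends on everything). So the first group is `≤ (C_E/(Z²N²R₂²)) C_A N³ R₂ (R₁⁴ + R₂/R₁ + R₁² + 1) ≤ C_E C_A N (3 R₁⁴/R₂ + 1/R₁)` (Z ≥ 1). Radial: `|v₂||ur| ≤ (σ/(2N)) ‖v‖² + (N/(2σ)) ur²`, dD (Ho.lean) with ε':
`∫ ur² Ψ ≤ ε' l` if `K R₂ ≤ l = Z N R₂`, i.e. N ≥ K: `(C_E/l) R₁² ((σ/(2N)) C_A N³ R₂ + (N/(2σ)) ε' l) ≤ C_E R₁² N (σ C_A/2 + ε'/(2σ))`. Last: `C_E N/l³ · 10 Z N R₂³ · R₁² ≤ 10 C_E R₁²/N` (ww_ok: VV ≤ 10 Z N R₂³).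
Choice: R₀ with `40/(lam R₀) ≤ ε/8`, `C_E C_A/R₀ ≤ ε/8`, R₀ ≥ 1; R₃ ≥ max 1 R₁² with `3 C_E C_A R₁⁴/R₃ ≤ ε/8` and `2(1+4lam R₁²) ≤ lam R₃²`; σ with `C_E R₁² σ C_A/2 ≤ ε/8`, ε' with `C_E R₁² ε'/(2σ) ≤ ε/8`; N₀ ≥ K(ε'), `10 C_E R₁² ≤ (ε/8) N₀²`. The sum is ≤ (6/8) ε N. The time integrands are continuous (tc_u; for ∫‖v‖√gv Ψ use the pointwise bound before integrating in time;
|Ev| is interval integrable by sI; intervalIntegral.norm_integral_le / integral_mono_on).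
-/
import Pool.Agent.H94.WL.Si
import Pool.Agent.H94.WL.Se
import Pool.Agent.H94.WL.Ho
import Pool.Agent.H16.TU.Af

set_option autoImplicit false

open Set Filter Topology MeasureTheory
open scoped ContDiff

namespace Pool.Agent.H94.WL

open Pool.Agent.H16 Pool.Agent.H87.NS Pool.Agent.H72.CC Pool.Agent.H16.TU

theorem St_sp {κ N b c R₁ : ℝ} {v : E3 → E3} {Ψ : E3 → ℝ} (h : Sm κ N b v) (w : Wc c Ψ) (hR : 0 < R₁) :
    ∫ y, ‖v y‖ * √(gv v y) * Ψ y ≤ R₁ / 2 * DD v Ψ + SS v Ψ / (2 * R₁) := by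
  obtain ⟨K, hK0, hK, -, -⟩ := ba_vf h.vf
  obtain ⟨c1, c2, -⟩ := ba_gvc h.ax.smooth
  have hg0 : ∀ x, 0 ≤ gv v x := fun x => (ba_gv x 0 0).1
  have i1 : Integrable (fun x => gv v x * Ψ x) := wi (K := K) w c1 fun x => by
    rw [abs_of_nonneg (hg0 x)]
    exact (hK x).2.1
  have i2 : Integrable (fun x => ‖v x‖ ^ 2 * Ψ x) := wi (K := K ^ 2) w (c2.pow 2) fun x => by
    rw [abs_of_nonneg (sq_nonneg _)]
    exact pow_le_pow_left₀ (norm_nonneg _) (hK x).1 2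
  have e1 : R₁ / 2 * DD v Ψ + SS v Ψ / (2 * R₁) =
      ∫ x, (R₁ / 2 * (gv v x * Ψ x) + (2 * R₁)⁻¹ * (‖v x‖ ^ 2 * Ψ x)) := by
    rw [integral_add (i1.const_mul _) (i2.const_mul _), integral_const_mul, integral_const_mul,
      DD, SS]
    ring
  rw [e1]
  refine integral_mono_of_nonneg (Filter.Eventually.of_forall fun x => ?_)
    ((i1.const_mul _).add (i2.const_mul _)) (Filter.Eventually.of_forall fun x => ?_)
  · exact mul_nonneg (mul_nonneg (norm_nonneg _) (Real.sqrt_nonneg _)) (w.nn x)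
  · beta_reduce
    have h1 : ‖v x‖ * √(gv v x) ≤ R₁ / 2 * gv v x + (2 * R₁)⁻¹ * ‖v x‖ ^ 2 := by
      have h2 : √(gv v x) ^ 2 = gv v x := Real.sq_sqrt (hg0 x)
      have h3 : R₁ / 2 * gv v x + (2 * R₁)⁻¹ * ‖v x‖ ^ 2 - ‖v x‖ * √(gv v x) =
          (2 * R₁)⁻¹ * (R₁ * √(gv v x) - ‖v x‖) ^ 2 := by
        have h4 : (2 * R₁)⁻¹ * (R₁ * √(gv v x) - ‖v x‖) ^ 2 =
            (2 * R₁)⁻¹ * (R₁ ^ 2 * √(gv v x) ^ 2 - 2 * R₁ * √(gv v x) * ‖v x‖ + ‖v x‖ ^ 2) := by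
          ring
        rw [h4, h2]
        field_simp
        ring
      have h5 : 0 ≤ (2 * R₁)⁻¹ * (R₁ * √(gv v x) - ‖v x‖) ^ 2 := by positivity
      linarith
    have h2 := mul_le_mul_of_nonneg_right h1 (w.nn x)
    linarith

theorem St_ra {κ N b c τ : ℝ} {v : E3 → E3} {Ψ : E3 → ℝ} (h : Sm κ N b v) (w : Wc c Ψ) (hτ : 0 < τ) :
    ∫ x, |v x 2| * |ur v x| * Ψ x ≤ τ / 2 * SS v Ψ + (∫ x, ur v x ^ 2 * Ψ x) / (2 * τ) := by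
  obtain ⟨K, hK0, hK, -, -⟩ := ba_vf h.vf
  obtain ⟨c1, c2, -⟩ := ba_gvc h.ax.smooth
  have hu : ∀ x, ur v x ^ 2 ≤ ‖v x‖ ^ 2 := fun x => by
    have := (ur_f h.ax x).2.2.2.1
    nlinarith [sq_nonneg (ut v x), sq_nonneg (v x 2)]
  have i2 : Integrable (fun x => ‖v x‖ ^ 2 * Ψ x) := wi (K := K ^ 2) w (c2.pow 2) fun x => by
    rw [abs_of_nonneg (sq_nonneg _)]
    exact pow_le_pow_left₀ (norm_nonneg _) (hK x).1 2
  have i1 : Integrable (fun x => ur v x ^ 2 * Ψ x) := wi (K := K ^ 2) w ((ur_c h.ax).1.pow 2)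
    fun x => by
      rw [abs_of_nonneg (sq_nonneg _)]
      exact (hu x).trans (pow_le_pow_left₀ (norm_nonneg _) (hK x).1 2)
  have e1 : τ / 2 * SS v Ψ + (∫ x, ur v x ^ 2 * Ψ x) / (2 * τ) =
      ∫ x, (τ / 2 * (‖v x‖ ^ 2 * Ψ x) + (2 * τ)⁻¹ * (ur v x ^ 2 * Ψ x)) := by
    rw [integral_add (i2.const_mul _) (i1.const_mul _), integral_const_mul, integral_const_mul, SS]
    ring
  rw [e1]
  refine integral_mono_of_nonneg (Filter.Eventually.of_forall fun x => ?_)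
    ((i2.const_mul _).add (i1.const_mul _)) (Filter.Eventually.of_forall fun x => ?_)
  · exact mul_nonneg (mul_nonneg (abs_nonneg _) (abs_nonneg _)) (w.nn x)
  · beta_reduce
    have h0 : |v x 2| ≤ ‖v x‖ := (ba_gv x 0 0).2.2.2.2.2.1
    have h1 : |v x 2| * |ur v x| ≤ τ / 2 * ‖v x‖ ^ 2 + (2 * τ)⁻¹ * ur v x ^ 2 := by
      have h2 : |v x 2| * |ur v x| ≤ ‖v x‖ * |ur v x| := mul_le_mul_of_nonneg_right h0 (abs_nonneg _)
      have h3 : τ / 2 * ‖v x‖ ^ 2 + (2 * τ)⁻¹ * ur v x ^ 2 - ‖v x‖ * |ur v x| =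
          (2 * τ)⁻¹ * (τ * ‖v x‖ - |ur v x|) ^ 2 := by
        have h4 : (2 * τ)⁻¹ * (τ * ‖v x‖ - |ur v x|) ^ 2 =
            (2 * τ)⁻¹ * (τ ^ 2 * ‖v x‖ ^ 2 - 2 * τ * ‖v x‖ * |ur v x| + |ur v x| ^ 2) := by
          ring
        rw [h4, sq_abs]
        field_simp
        ring
      have h5 : 0 ≤ (2 * τ)⁻¹ * (τ * ‖v x‖ - |ur v x|) ^ 2 := by positivity
      linarith
    have h2 := mul_le_mul_of_nonneg_right h1 (w.nn x)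
    linarith

theorem St_geo {A : ℝ} (hA : 0 ≤ A) (J : ℕ) :
    ∑ j ∈ Finset.Icc 1 J, (1/4 : ℝ) ^ j * (A * 2 ^ j) ≤ A := by
  have h1 : ∑ j ∈ Finset.Icc 1 J, (1/4 : ℝ) ^ j * (A * 2 ^ j) =
      A * ∑ j ∈ Finset.Icc 1 J, (1/2 : ℝ) ^ j := by
    rw [Finset.mul_sum]
    refine Finset.sum_congr rfl fun j _ => ?_
    have h2 : (1/2 : ℝ) ^ j = (1/4) ^ j * 2 ^ j := by
      rw [← mul_pow]
      norm_num
    rw [h2]
    ring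
  rw [h1]
  have h2 := Af_geom (ρ := 1/2) (by norm_num) (by norm_num) 1 J
  have h3 : (1/2 : ℝ) ^ 1 / (1 - 1/2) = 1 := by norm_num
  rw [h3] at h2
  nlinarith

theorem St_tail {R₂ X A : ℝ} (hR : 1 ≤ R₂) (hA : 1 ≤ A) : ∃ J : ℕ, 1 ≤ J ∧
    ((2 ^ J * R₂) ^ 3)⁻¹ * X ≤ A := by
  obtain ⟨n, hn⟩ := pow_unbounded_of_one_lt X (one_lt_two : (1 : ℝ) < 2)
  refine ⟨n + 1, by omega, ?_⟩
  have h1 : (1 : ℝ) ≤ 2 ^ (n + 1) := one_le_pow₀ one_le_two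
  have h2 : (1 : ℝ) ≤ 2 ^ (n + 1) * R₂ := one_le_mul_of_one_le_of_one_le h1 hR
  have h3 : (2 : ℝ) ^ (n + 1) ≤ 2 ^ (n + 1) * R₂ := le_mul_of_one_le_right (by positivity) hR
  have h4 : 2 ^ (n + 1) * R₂ ≤ (2 ^ (n + 1) * R₂) ^ 3 := le_self_pow₀ h2 (by norm_num)
  have h5 : (2 : ℝ) ^ n ≤ 2 ^ (n + 1) := pow_le_pow_right₀ one_le_two (by omega)
  have h6 : 0 < (2 ^ (n + 1) * R₂) ^ 3 := by positivity
  rw [inv_mul_le_iff₀ h6]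
  have h7 : (2 ^ (n + 1) * R₂) ^ 3 ≤ (2 ^ (n + 1) * R₂) ^ 3 * A := le_mul_of_one_le_right h6.le hA
  linarith

theorem St_num {E A Z N R₁ R₂ ε σ ε' : ℝ} (hE : 1 ≤ E) (hA : 1 ≤ A) (hZ : 1 ≤ Z) (hN : 1 ≤ N)
    (hR₁ : 1 ≤ R₁) (hR₂ : 1 ≤ R₂) (hε : 0 < ε) (hσ : 0 < σ) (ha : E * A * (3 * R₁ ^ 4) ≤ ε / 8 * R₂)
    (hb : E * A ≤ ε / 8 * R₁) (hc : E * R₁ ^ 2 * σ * A = ε / 4) (hd : E * R₁ ^ 2 * ε' = σ * (ε / 4))
    (he : 10 * E * R₁ ^ 2 ≤ ε / 8 * N) :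
    (E / (Z * N * R₂) ^ 2 * (R₁ ^ 2 * (A * N ^ 3 * R₂) + R₂ / R₁ ^ 2 * (A * N ^ 3 * R₂ / (2 * R₁)) +
        A * N ^ 3 * R₂ + A * N ^ 3 * R₂ / R₁ ^ 2) +
      E / (Z * N * R₂) * (σ / N / 2 * (A * N ^ 3 * R₂) + ε' * (Z * N * R₂) / (2 * (σ / N))) +
      E * N / (Z * N * R₂) ^ 3 * (10 * Z * N * R₂ ^ 3)) * R₁ ^ 2 +
    E / (Z * N * R₂) ^ 2 * (R₂ / R₁ ^ 2 * (R₁ / 2)) * (A * N ^ 3 * R₂) ≤ 5 / 8 * ε * N := by
  have hE0 : 0 < E := by linarith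
  have hA0 : 0 < A := by linarith
  have hZ0 : 0 < Z := by linarith
  have hN0 : 0 < N := by linarith
  have h10 : 0 < R₁ := by linarith
  have h20 : 0 < R₂ := by linarith
  have hZ2 : (Z ^ 2)⁻¹ ≤ 1 := inv_le_one_of_one_le₀ (one_le_pow₀ hZ)
  have hZ1 : Z⁻¹ ≤ 1 := inv_le_one_of_one_le₀ hZ
  have e : (E / (Z * N * R₂) ^ 2 * (R₁ ^ 2 * (A * N ^ 3 * R₂) + R₂ / R₁ ^ 2 * (A * N ^ 3 * R₂ / (2 * R₁)) +
        A * N ^ 3 * R₂ + A * N ^ 3 * R₂ / R₁ ^ 2) +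
      E / (Z * N * R₂) * (σ / N / 2 * (A * N ^ 3 * R₂) + ε' * (Z * N * R₂) / (2 * (σ / N))) +
      E * N / (Z * N * R₂) ^ 3 * (10 * Z * N * R₂ ^ 3)) * R₁ ^ 2 +
    E / (Z * N * R₂) ^ 2 * (R₂ / R₁ ^ 2 * (R₁ / 2)) * (A * N ^ 3 * R₂) =
      (E * A * (R₁ ^ 4 + R₁ ^ 2 + 1) / R₂ * N) * (Z ^ 2)⁻¹ + (E * A / R₁ * N) * (Z ^ 2)⁻¹ +
      (E * R₁ ^ 2 * σ * A) / 2 * N * Z⁻¹ + (E * R₁ ^ 2 * ε') / σ / 2 * N +
      (10 * E * R₁ ^ 2) / N * (Z ^ 2)⁻¹ := by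
    field_simp
    ring
  rw [e, hc, hd]
  have p1 : E * A * (R₁ ^ 4 + R₁ ^ 2 + 1) / R₂ ≤ ε / 8 := by
    rw [div_le_iff₀ h20]
    refine le_trans ?_ ha
    refine mul_le_mul_of_nonneg_left ?_ (by positivity)
    have h1 : 1 ≤ R₁ ^ 2 := one_le_pow₀ hR₁
    nlinarith [sq_nonneg (R₁ ^ 2)]
  have p2 : E * A / R₁ ≤ ε / 8 := by
    rw [div_le_iff₀ h10]
    exact hb
  have p5 : 10 * E * R₁ ^ 2 / N ≤ ε / 8 := by
    rw [div_le_iff₀ hN0]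
    exact he
  have q1 : (E * A * (R₁ ^ 4 + R₁ ^ 2 + 1) / R₂ * N) * (Z ^ 2)⁻¹ ≤ ε / 8 * N := by
    calc _ ≤ (E * A * (R₁ ^ 4 + R₁ ^ 2 + 1) / R₂ * N) * 1 :=
          mul_le_mul_of_nonneg_left hZ2 (by positivity)
      _ ≤ ε / 8 * N := by
          rw [mul_one]
          exact mul_le_mul_of_nonneg_right p1 hN0.le
  have q2 : (E * A / R₁ * N) * (Z ^ 2)⁻¹ ≤ ε / 8 * N := by
    calc _ ≤ (E * A / R₁ * N) * 1 := mul_le_mul_of_nonneg_left hZ2 (by positivity)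
      _ ≤ ε / 8 * N := by
          rw [mul_one]
          exact mul_le_mul_of_nonneg_right p2 hN0.le
  have q3 : ε / 4 / 2 * N * Z⁻¹ ≤ ε / 8 * N := by
    calc _ ≤ ε / 4 / 2 * N * 1 := mul_le_mul_of_nonneg_left hZ1 (by positivity)
      _ = ε / 8 * N := by ring
  have q4 : σ * (ε / 4) / σ / 2 * N = ε / 8 * N := by
    field_simp
    ring
  have q5 : (10 * E * R₁ ^ 2) / N * (Z ^ 2)⁻¹ ≤ ε / 8 * N := by
    calc _ ≤ (10 * E * R₁ ^ 2) / N * 1 := mul_le_mul_of_nonneg_left hZ2 (by positivity)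
      _ ≤ ε / 8 := by
          rw [mul_one]
          exact p5
      _ ≤ ε / 8 * N := le_mul_of_one_le_right (by positivity) hN
  linarith

theorem thmS {κ C Z q : ℝ} {g : ℝ → ℝ} (hκ : 1 ≤ κ) (hC : 1 ≤ C) (hZ : 1 ≤ Z) (hq : 2 < q) (hg : Tendsto g atTop (𝓝 0))
    {lam ε : ℝ} (hlam : 0 < lam) (hε : 0 < ε) :
    ∃ R₀ : ℝ, 1 ≤ R₀ ∧ ∀ R₁ : ℝ, R₀ ≤ R₁ → ∃ R₃ : ℝ, 1 ≤ R₃ ∧ ∀ R₂ : ℝ, R₃ ≤ R₂ → ∃ N₀ : ℝ, 1 ≤ N₀ ∧
      ∀ (N b T : ℝ) (v : ℝ → E3 → E3) (p : ℝ → E3 → ℝ) (t₀ : ℝ), N₀ ≤ N → Cm κ C Z N b (R₁ ^ 2) q g T v p t₀ →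
      |∫ x, v t₀ x 2 * (Real.exp (-(lam * rsq x)) * ph (Z * N * R₂) (x 2))| ≤ ε * N := by
  obtain ⟨E, hE, hsE⟩ := sE hlam
  have hE0 : 0 < E := by linarith
  have hC0 : 0 < C := by linarith
  refine ⟨max 1 (max (320 / (lam * ε)) (8 * E * C / ε)), le_max_left _ _, ?_⟩
  intro R₁ hR₁
  have hR1 : 1 ≤ R₁ := (le_max_left _ _).trans hR₁
  have hR1a : 320 / (lam * ε) ≤ R₁ := (le_max_left _ _).trans ((le_max_right _ _).trans hR₁)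
  have hR1b : 8 * E * C / ε ≤ R₁ := (le_max_right _ _).trans ((le_max_right _ _).trans hR₁)
  have h10 : 0 < R₁ := by linarith
  refine ⟨max 1 (max (R₁ ^ 2) (max (8 * E * C * (3 * R₁ ^ 4) / ε) (2 * (1 + 4 * lam * R₁ ^ 2) / lam))),
    le_max_left _ _, ?_⟩
  intro R₂ hR₂
  have hR2 : 1 ≤ R₂ := (le_max_left _ _).trans hR₂
  have hR2' := (le_max_right _ _).trans hR₂
  have hR2a : R₁ ^ 2 ≤ R₂ := (le_max_left _ _).trans hR2'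
  have hR2b : 8 * E * C * (3 * R₁ ^ 4) / ε ≤ R₂ := (le_max_left _ _).trans ((le_max_right _ _).trans hR2')
  have hR2c : 2 * (1 + 4 * lam * R₁ ^ 2) / lam ≤ R₂ :=
    (le_max_right _ _).trans ((le_max_right _ _).trans hR2')
  have h20 : 0 < R₂ := by linarith
  obtain ⟨σ, hσ⟩ : ∃ σ, σ = ε / (4 * E * R₁ ^ 2 * C) := ⟨_, rfl⟩
  have hσ0 : 0 < σ := by
    rw [hσ]
    positivity
  obtain ⟨ε', hε'⟩ : ∃ ε', ε' = σ * ε / (4 * E * R₁ ^ 2) := ⟨_, rfl⟩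
  have hε'0 : 0 < ε' := by
    rw [hε']
    positivity
  obtain ⟨K, hK1, hK⟩ := dD hq hg hκ hε'0
  refine ⟨max 1 (max K (80 * E * R₁ ^ 2 / ε)), le_max_left _ _, ?_⟩
  intro N b T v p t₀ hN h
  have hN1 : 1 ≤ N := (le_max_left _ _).trans hN
  have hNK : K ≤ N := (le_max_left _ _).trans ((le_max_right _ _).trans hN)
  have hNe : 80 * E * R₁ ^ 2 / ε ≤ N := (le_max_right _ _).trans ((le_max_right _ _).trans hN)
  have hN0 : 0 < N := by linarith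
  have hZ0 : 0 < Z := by linarith
  obtain ⟨l, hl⟩ : ∃ l, l = Z * N * R₂ := ⟨_, rfl⟩
  have hl0 : 0 < l := by
    rw [hl]
    positivity
  have hR1sq : 1 ≤ R₁ ^ 2 := one_le_pow₀ hR1
  obtain ⟨t₁, ht₁⟩ : ∃ t₁, t₁ = t₀ - R₁ ^ 2 := ⟨_, rfl⟩
  have ht10 : 0 < t₁ := by
    rw [ht₁]
    linarith [h.ta]
  have ht12 : t₁ ≤ t₀ := by
    rw [ht₁]
    linarith
  have hsl : ∀ t ∈ Icc t₁ t₀, Sm κ N b (v t) := fun t ht => h.sl t (by rwa [ht₁] at ht)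
  obtain ⟨hint, hid⟩ := sI h.ns hlam hl0 ht10.le ht12 h.t0.2
  -- the left side
  have hL : ∫ x, v t₀ x 2 * (Real.exp (-(lam * rsq x)) * ph (Z * N * R₂) (x 2)) =
      ∫ x, v t₀ x 2 * Gt lam l 0 x := by
    refine integral_congr_ae (Filter.Eventually.of_forall fun x => ?_)
    simp only [Gt, gs, mul_zero, add_zero, inv_one, one_mul, div_one, hl]
  rw [hL]
  -- the start
  have hst : |∫ x, v t₁ x 2 * Gt lam l (t₀ - t₁) x| ≤ ε / 8 * N := by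
    have hs : t₀ - t₁ = R₁ ^ 2 := by
      rw [ht₁]
      ring
    rw [hs]
    have h1 := f1 (hsl t₁ ⟨le_refl _, ht12⟩) (G_t hlam (sq_nonneg R₁) hl0).2.1
    have h2 := G_s (l := l) hlam (sq_nonneg R₁) hl0
    have h3 : 2 * (lam * R₁) ≤ √(lam * (1 + 4 * lam * R₁ ^ 2)) := by
      refine Real.le_sqrt_of_sq_le ?_
      nlinarith
    have h4 : 0 < 2 * (lam * R₁) := by positivity
    have h5 : 80 / √(lam * (1 + 4 * lam * R₁ ^ 2)) ≤ 80 / (2 * (lam * R₁)) :=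
      div_le_div_of_nonneg_left (by norm_num) h4 h3
    have h6 : 80 / (2 * (lam * R₁)) ≤ ε / 8 := by
      rw [div_le_iff₀ (by positivity)] at hR1a
      rw [div_le_iff₀ h4]
      nlinarith
    refine h1.trans ?_
    rw [mul_comm]
    exact mul_le_mul_of_nonneg_right (h2.trans (h5.trans h6)) hN0.le
  -- the weight
  obtain ⟨w, hV0, hV⟩ := ww_ok hN1 hZ h20 0
  obtain ⟨J, hJ1, hJ⟩ := St_tail (R₂ := R₂) (X := VV (ww N Z R₂ 0) * (κ * b) * R₁ ^ 2)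
    (A := C * N ^ 3 * R₂) hR2 (by
      have h1 : 1 ≤ N ^ 3 := one_le_pow₀ hN1
      exact one_le_mul_of_one_le_of_one_le (one_le_mul_of_one_le_of_one_le hC h1) hR2)
  have hA00 : 0 ≤ C * N ^ 3 * R₂ := by positivity
  have hDc : ContinuousOn (fun t => DD (v t) (ww N Z R₂ 0)) (Icc t₁ t₀) :=
    (tc_u h.ns w).2.1.mono fun t ht => ⟨by linarith [ht.1], by linarith [ht.2, h.t0.2]⟩
  have hDi : IntervalIntegrable (fun t => DD (v t) (ww N Z R₂ 0)) volume t₁ t₀ :=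
    ContinuousOn.intervalIntegrable (by rwa [uIcc_of_le ht12])
  have hDv : ∫ t in t₁..t₀, DD (v t) (ww N Z R₂ 0) ≤ C * N ^ 3 * R₂ := by
    rw [ht₁]
    refine h.di R₂ h20 ?_
    nlinarith
  obtain ⟨β, hβ⟩ : ∃ β, β = E / l ^ 2 * (R₂ / R₁ ^ 2 * (R₁ / 2)) := ⟨_, rfl⟩
  have hβ0 : 0 ≤ β := by
    rw [hβ]
    positivity
  obtain ⟨α, hα⟩ : ∃ α, α = E / l ^ 2 * (R₁ ^ 2 * (C * N ^ 3 * R₂) +
      R₂ / R₁ ^ 2 * (C * N ^ 3 * R₂ / (2 * R₁)) + C * N ^ 3 * R₂ + C * N ^ 3 * R₂ / R₁ ^ 2) +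
      E / l * (σ / N / 2 * (C * N ^ 3 * R₂) + ε' * l / (2 * (σ / N))) +
      E * N / l ^ 3 * (10 * Z * N * R₂ ^ 3) := ⟨_, rfl⟩
  have hpt : ∀ t ∈ Icc t₁ t₀, |Ev (v t) (p t) (Gt lam l (t₀ - t))| ≤
      α + β * DD (v t) (ww N Z R₂ 0) := by
    intro t ht
    have hS := hsl t ht
    have htI : t ∈ Icc (t₀ - R₁ ^ 2) t₀ := by rwa [ht₁] at ht
    have hτ : 0 < σ / N := div_pos hσ0 hN0
    have h1 := hsE T v p h.ns t ⟨by linarith [ht.1], by linarith [ht.2, h.t0.2]⟩ κ N Z b R₁ R₂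
      (t₀ - t) (R₂ / R₁ ^ 2) hS hZ hR1 hR2 (by
        rw [div_le_iff₀ hlam] at hR2c
        have h2 : lam * R₂ ≤ lam * R₂ ^ 2 := by
          refine mul_le_mul_of_nonneg_left ?_ hlam.le
          nlinarith
        linarith) (by linarith [ht.2]) (by
        rw [ht₁] at ht
        linarith [ht.1]) (by positivity) (div_le_self h20.le hR1sq) J hJ1
    rw [← hl] at h1
    have hss := h.en t htI R₂ h20
    have a1 : R₂ / (R₂ / R₁ ^ 2) * SS (v t) (ww N Z R₂ 0) ≤ R₁ ^ 2 * (C * N ^ 3 * R₂) := by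
      have h2 : R₂ / (R₂ / R₁ ^ 2) = R₁ ^ 2 := by
        field_simp
      rw [h2]
      exact mul_le_mul_of_nonneg_left hss (sq_nonneg _)
    have a2 : R₂ / R₁ ^ 2 * (∫ y, ‖v t y‖ * √(gv (v t) y) * ww N Z R₂ 0 y) ≤
        R₂ / R₁ ^ 2 * (R₁ / 2) * DD (v t) (ww N Z R₂ 0) +
          R₂ / R₁ ^ 2 * (C * N ^ 3 * R₂ / (2 * R₁)) := by
      have h2 := St_sp hS w h10
      have h3 : SS (v t) (ww N Z R₂ 0) / (2 * R₁) ≤ C * N ^ 3 * R₂ / (2 * R₁) :=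
        div_le_div_of_nonneg_right hss (by positivity)
      have h4 : 0 ≤ R₂ / R₁ ^ 2 := by positivity
      have h5 := mul_le_mul_of_nonneg_left (h2.trans (add_le_add_right h3 _)) h4
      linarith
    have a3 : ∑ j ∈ Finset.Icc 1 J, (1/4 : ℝ) ^ j * SS (v t) (ww N Z (2 ^ j * R₂) 0) ≤
        C * N ^ 3 * R₂ := by
      refine le_trans (Finset.sum_le_sum fun j _ => ?_) (St_geo hA00 J)
      refine mul_le_mul_of_nonneg_left ?_ (by positivity)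
      have h2 := h.en t htI (2 ^ j * R₂) (by positivity)
      linarith
    have a4 : ((2 ^ J * R₂) ^ 3)⁻¹ * VV (ww N Z R₂ 0) * ∫ x, ‖v t x‖ ^ 2 ≤
        C * N ^ 3 * R₂ / R₁ ^ 2 := by
      rw [le_div_iff₀ (by positivity)]
      refine le_trans ?_ hJ
      have h2 : 0 ≤ ((2 ^ J * R₂) ^ 3)⁻¹ * VV (ww N Z R₂ 0) := by positivity
      have h3 := mul_le_mul_of_nonneg_left hS.en h2
      have h4 := mul_le_mul_of_nonneg_right h3 (sq_nonneg R₁)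
      linarith
    have a5 : ∫ x, |v t x 2| * |ur (v t) x| * ww N Z R₂ 0 x ≤
        σ / N / 2 * (C * N ^ 3 * R₂) + ε' * l / (2 * (σ / N)) := by
      refine (St_ra hS w hτ).trans (add_le_add ?_ ?_)
      · exact mul_le_mul_of_nonneg_left hss (by positivity)
      · refine div_le_div_of_nonneg_right ?_ (by positivity)
        have h2 := hK N b (v t) hS (h.mq t htI) R₂ (Z * N * R₂) 0 h20 (by
          have h3 : K ≤ Z * N := by nlinarith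
          exact mul_le_mul_of_nonneg_right h3 h20.le)
        rw [hl]
        exact h2
    refine h1.trans ?_
    have b1 : 0 ≤ E / l ^ 2 := by positivity
    have b2 : 0 ≤ E / l := by positivity
    have b3 : 0 ≤ E * N / l ^ 3 := by positivity
    have c1 := mul_le_mul_of_nonneg_left (add_le_add (add_le_add (add_le_add a1 a2) a3) a4) b1
    have c2 := mul_le_mul_of_nonneg_left a5 b2
    have c3 := mul_le_mul_of_nonneg_left hV b3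
    rw [hα, hβ]
    linarith
  have hev : |∫ t in t₁..t₀, Ev (v t) (p t) (Gt lam l (t₀ - t))| ≤
      α * R₁ ^ 2 + β * (C * N ^ 3 * R₂) := by
    have hBi : IntervalIntegrable (fun t => α + β * DD (v t) (ww N Z R₂ 0)) volume t₁ t₀ :=
      intervalIntegrable_const.add (hDi.const_mul β)
    have h1 := intervalIntegral.abs_integral_le_integral_abs (μ := volume)
      (f := fun t => Ev (v t) (p t) (Gt lam l (t₀ - t))) ht12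
    have h2 := intervalIntegral.integral_mono_on ht12 hint.abs hBi hpt
    rw [intervalIntegral.integral_add intervalIntegrable_const (hDi.const_mul β),
      intervalIntegral.integral_const, intervalIntegral.integral_const_mul, smul_eq_mul] at h2
    have h3 : t₀ - t₁ = R₁ ^ 2 := by
      rw [ht₁]
      ring
    rw [h3] at h2
    have h4 := mul_le_mul_of_nonneg_left hDv hβ0
    linarith
  have hnum := St_num (Z := Z) (N := N) (R₂ := R₂) (ε := ε) (σ := σ) (ε' := ε') hE hC hZ hN1 hR1 hR2 hε hσ0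
    (by
      rw [div_le_iff₀ hε] at hR2b
      linarith)
    (by
      rw [div_le_iff₀ hε] at hR1b
      linarith)
    (by
      rw [hσ]
      field_simp)
    (by
      rw [hε']
      field_simp)
    (by
      rw [div_le_iff₀ hε] at hNe
      linarith)
  rw [← hl, ← hα, ← hβ] at hnum
  have h9 : ∫ x, v t₀ x 2 * Gt lam l 0 x = (∫ x, v t₁ x 2 * Gt lam l (t₀ - t₁) x) +
      ∫ t in t₁..t₀, Ev (v t) (p t) (Gt lam l (t₀ - t)) := by linarith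
  rw [h9]
  refine (abs_add_le _ _).trans ?_
  have h10' : 0 ≤ ε * N := by positivity
  linarith

end Pool.Agent.H94.WL
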