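/-
ROW Xf (MP_09540e_WL). From the bound of the stream function to the circulation. PROOF. As thmF in TU/Xf.lean (use Xf_step, Xf_k, Xf_pow from there), but with the bound `|circ (u t) x| ≤ M` only for rad x ≤ b (near, So.lean). T ≤ 0: nothing to prove (δ = 1, C = 0, r₁ = 1). Λ ≥ 1 w.l.o.g. Let `ρ₀ = min b (√(T/4))`, so ρ₀² < T/2 and ρ₀ ≤ b; θ = 1 - exp(-(C₁ (5Λ⁴)⁹)).
Iteration: for all k, t ∈ [T/2, T), z: `|circ (u t') x| ≤ θ^k M` for t' ∈ [t - (ρ₀4⁻ᵏ)², t], x ∈ ball (axp z) (ρ₀ 4⁻ᵏ) (k = 0: rad x ≤ ‖x - axp z‖ < ρ₀ ≤ b: StepA_rad; t' ≥ 0), Xf_step at (t, ρ₀4⁻ᵏ). δ, and the choice of k as in TU/Xf.lean, for rad x < ρ₀; conclusion for rad x ≤ r₁ := ρ₀/2 (min with 1). For t < T/2: circ = rsq * sV, |sV| ≤ K, as there.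
-/
import Pool.Agent.H94.WL.So
import Pool.Agent.H16.TU.Xf

set_option autoImplicit false

open Set Filter Topology MeasureTheory
open scoped ContDiff

namespace Pool.Agent.H94.WL

open Pool.Agent.H16 Pool.Agent.H87.NS Pool.Agent.H72.CC Pool.Agent.H16.TU

theorem thmF {T : ℝ} {u : ℝ → E3 → E3} {p : ℝ → E3 → ℝ} (h : IsHInfAxisymNS T u p)
    (hΛ : ∃ Λ : ℝ, ∀ t ∈ Ico 0 T, ∀ x, rad x * |sP (u t) x| ≤ Λ) :
    ∃ δ C r₁ : ℝ, 0 < δ ∧ 0 < r₁ ∧ ∀ t ∈ Ico 0 T, ∀ x, rad x ≤ r₁ → |circ (u t) x| ≤ C * rad x ^ δ := by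
  rcases le_or_gt T 0 with hT | hT
  · exact ⟨1, 0, 1, one_pos, one_pos, fun t ht => absurd ht.2 (by linarith [ht.1])⟩
  obtain ⟨b, M, hb, hM1, hM⟩ := near h
  have hM0 : 0 ≤ M := by linarith
  obtain ⟨Λ', hΛ'⟩ := hΛ
  obtain ⟨Λ, hΛe⟩ : ∃ Λ, Λ = max Λ' 1 := ⟨_, rfl⟩
  have hΛ1 : 1 ≤ Λ := by rw [hΛe]; exact le_max_right _ _
  have hΛ2 : ∀ t ∈ Ico 0 T, ∀ x, rad x * |sP (u t) x| ≤ Λ := fun t ht x => by
    rw [hΛe]
    exact (hΛ' t ht x).trans (le_max_left _ _)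
  obtain ⟨C₁, hC₁, HS⟩ := Xf_step
  obtain ⟨θ, hθ⟩ : ∃ θ, θ = 1 - Real.exp (-(C₁ * (5 * Λ ^ 4) ^ 9)) := ⟨_, rfl⟩
  have hq : 0 < C₁ * (5 * Λ ^ 4) ^ 9 := by positivity
  have hθ0 : 0 < θ := by
    have : Real.exp (-(C₁ * (5 * Λ ^ 4) ^ 9)) < 1 := by
      rw [← Real.exp_zero]
      exact Real.exp_lt_exp.2 (by linarith)
    rw [hθ]
    linarith
  have hθ1 : θ < 1 := by
    rw [hθ]
    linarith [Real.exp_pos (-(C₁ * (5 * Λ ^ 4) ^ 9))]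
  obtain ⟨ρ₀, hρe⟩ : ∃ ρ₀, ρ₀ = min b (√(T / 4)) := ⟨_, rfl⟩
  have hρ0 : 0 < ρ₀ := by
    rw [hρe]
    exact lt_min hb (Real.sqrt_pos.2 (by linarith))
  have hρb : ρ₀ ≤ b := by
    rw [hρe]
    exact min_le_left _ _
  have hρT : ρ₀ ^ 2 ≤ T / 4 := by
    calc ρ₀ ^ 2 ≤ √(T / 4) ^ 2 := pow_le_pow_left₀ hρ0.le (by rw [hρe]; exact min_le_right _ _) 2
      _ = _ := Real.sq_sqrt (by linarith)
  have hiter : ∀ t z : ℝ, T / 2 ≤ t → t < T → ∀ k : ℕ, ∀ t' ∈ Icc (t - (ρ₀ * (1/4) ^ k) ^ 2) t,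
      ∀ x ∈ Metric.ball (axp z) (ρ₀ * (1/4) ^ k), |circ (u t') x| ≤ θ ^ k * M := by
    intro t z hat htT k
    induction k with
    | zero =>
      intro t' ht' x hx
      rw [pow_zero, one_mul]
      have hx1 : rad x ≤ b := by
        have h2 : rad x ≤ ‖x - axp z‖ := StepA_rad x z
        rw [pow_zero, mul_one, Metric.mem_ball, dist_eq_norm] at hx
        linarith
      refine hM t' ⟨?_, lt_of_le_of_lt ht'.2 htT⟩ x hx1
      have h1 := ht'.1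
      rw [pow_zero, mul_one] at h1
      linarith
    | succ k ih =>
      have hk : (0:ℝ) < (1/4) ^ k := by positivity
      have hk1 : ((1:ℝ)/4) ^ k ≤ 1 := pow_le_one₀ (by norm_num) (by norm_num)
      have hρk : 0 < ρ₀ * (1/4) ^ k := by positivity
      have hρk1 : ρ₀ * (1/4) ^ k ≤ ρ₀ := by nlinarith
      have hsq : (ρ₀ * (1/4) ^ k) ^ 2 ≤ ρ₀ ^ 2 := pow_le_pow_left₀ hρk.le hρk1 2
      have h1 := HS T u p h Λ hΛ1 hΛ2 t (ρ₀ * (1/4) ^ k) z htT hρk (by linarith) (θ ^ k * M) ih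
      rw [← hθ] at h1
      intro t' ht' x hx
      have e1 : (ρ₀ * (1/4) ^ (k + 1)) ^ 2 = (ρ₀ * (1/4) ^ k) ^ 2 / 16 := by ring
      have e2 : ρ₀ * (1/4) ^ (k + 1) = ρ₀ * (1/4) ^ k / 4 := by ring
      rw [e1] at ht'
      rw [e2] at hx
      have h2 := h1 t' ht' x hx
      rw [pow_succ', mul_assoc]
      exact h2
  obtain ⟨δ, hδe⟩ : ∃ δ, δ = min 1 (Real.log (1 / θ) / Real.log 4) := ⟨_, rfl⟩
  have hl4 : 0 < Real.log 4 := Real.log_pos (by norm_num)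
  have hδ0 : 0 < δ := by
    rw [hδe]
    refine lt_min one_pos (div_pos (Real.log_pos ?_) hl4)
    rw [lt_div_iff₀ hθ0]
    linarith
  have hδ1 : δ ≤ 1 := by rw [hδe]; exact min_le_left _ _
  have hδ2 : δ ≤ Real.log (1 / θ) / Real.log 4 := by rw [hδe]; exact min_le_right _ _
  obtain ⟨K, hK⟩ := svwDB h (show T / 2 < T by linarith)
  have hK0 : 0 ≤ K := (abs_nonneg _).trans ((DB_BL (hK 0 ⟨le_rfl, by linarith⟩).1).1 0)
  refine ⟨δ, (16 / ρ₀) ^ δ * M + K, min (ρ₀ / 2) 1, hδ0, lt_min (by linarith) one_pos, ?_⟩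
  intro t ht x hxr
  have hx1 : rad x ≤ 1 := hxr.trans (min_le_right _ _)
  have hlt : rad x < ρ₀ := by
    have := hxr.trans (min_le_left _ _)
    linarith
  have hr0 := rad_nonneg x
  have hB0 : 0 ≤ (16 / ρ₀) ^ δ * M := by positivity
  have hrδ : 0 ≤ rad x ^ δ := Real.rpow_nonneg hr0 δ
  have hgoal : ∀ s : ℝ, s ≤ (16 / ρ₀) ^ δ * M * rad x ^ δ →
      s ≤ ((16 / ρ₀) ^ δ * M + K) * rad x ^ δ := by
    intro s hs
    have := mul_nonneg hK0 hrδ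
    rw [add_mul]
    linarith
  rcases hr0.eq_or_lt with hr | hr
  · have h1 : circ (u t) x = 0 := by
      rw [circ_eq (axF_of h.ns ht), ← rad_sq', ← hr]
      ring
    rw [h1, abs_zero]
    positivity
  rcases le_or_gt (T / 2) t with hta | hta
  · apply hgoal
    have hx16 : (16 / ρ₀) ^ δ * M * rad x ^ δ = (16 * (rad x / ρ₀)) ^ δ * M := by
      have e : 16 * (rad x / ρ₀) = (16 / ρ₀) * rad x := by ring
      rw [e, Real.mul_rpow (by positivity) hr.le]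
      ring
    rw [hx16]
    obtain ⟨k, hk1, hk2⟩ := Xf_k (x := rad x / ρ₀) (by positivity)
      (by rw [div_lt_one hρ0]; exact hlt)
    have hk3 : rad x < ρ₀ * (1/4) ^ k := by
      rw [div_lt_iff₀ hρ0] at hk1
      linarith
    have h1 := hiter t (x 2) hta ht.2 k t ⟨by linarith [sq_nonneg (ρ₀ * (1/4) ^ k)], le_rfl⟩ x (by
      rw [Metric.mem_ball, dist_eq_norm, Crit_axp]; exact hk3)
    refine h1.trans (mul_le_mul_of_nonneg_right ?_ hM0)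
    exact (Xf_pow hθ0 hδ2 k).trans (Real.rpow_le_rpow (by positivity) hk2 hδ0.le)
  · have h1 : |sV (u t) x| ≤ K := (DB_BL (hK t ⟨ht.1, hta.le⟩).1).1 x
    rw [circ_eq (axF_of h.ns ht), abs_mul, ← rad_sq', abs_of_nonneg (by positivity)]
    have h2 : rad x ^ 2 ≤ rad x ^ δ := by
      rw [← Real.rpow_natCast]
      exact Real.rpow_le_rpow_of_exponent_ge hr hx1 (by push_cast; linarith)
    calc rad x ^ 2 * |sV (u t) x| ≤ rad x ^ δ * K := mul_le_mul h2 h1 (abs_nonneg _) hrδ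
      _ ≤ ((16 / ρ₀) ^ δ * M + K) * rad x ^ δ := by
        have := mul_nonneg hB0 hrδ
        rw [add_mul]
        linarith

end Pool.Agent.H94.WL
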