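/-
Assembly.
-/
import Pool.Agent.H94.WL.Ex
import Pool.Agent.H94.WL.St
import Pool.Agent.H94.WL.Sl
import Pool.Agent.H94.WL.Xf

set_option autoImplicit false

open Set Filter Topology MeasureTheory
open scoped ContDiff

namespace Pool.Agent.H94.WL

open Pool.Agent.H16 Pool.Agent.H87.NS Pool.Agent.H72.CC Pool.Agent.H16.TU

theorem Fin_max (n : ℕ) (f : ℕ → ℝ) : ∃ M : ℝ, 1 ≤ M ∧ ∀ i < n, f i ≤ M := by
  induction n with
  | zero => exact ⟨1, le_rfl, fun i hi => absurd hi (Nat.not_lt_zero i)⟩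
  | succ n ih =>
    obtain ⟨M, h1, hM⟩ := ih
    refine ⟨max M (f n), h1.trans (le_max_left _ _), fun i hi => ?_⟩
    rcases Nat.lt_succ_iff_lt_or_eq.1 hi with h | h
    · exact (hM i h).trans (le_max_left _ _)
    · rw [h]; exact le_max_right _ _

theorem Fin_main {T q t₀ : ℝ} {u : ℝ → E3 → E3} {p : ℝ → E3 → ℝ} {g : ℝ → ℝ} (h : IsHInfAxisymNS T u p) (hq : 2 < q) (h0 : 0 ≤ t₀)
    (h1 : t₀ < T) (hg : Tendsto g atTop (𝓝 0)) (hr : ∀ t ∈ Ioo t₀ T, Mq q g (u t)) :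
    ∃ Λ : ℝ, ∀ t ∈ Ico 0 T, ∀ x, rad x * |sP (u t) x| ≤ Λ := by
  by_contra hun
  obtain ⟨κ, Z, C, hκ, hZ, hC, H⟩ := ext h hq h0 h1 hr hun
  obtain ⟨δ, hδ, hδ1, HL⟩ := thmL hκ hC hZ hq hg
  obtain ⟨n, c, hcc⟩ := wei hδ hδ1 (show (0:ℝ) < 1/320 by norm_num)
  obtain ⟨M, hM1, hM⟩ := Fin_max n (fun i => |c i|)
  have hn0 : (0:ℝ) ≤ n := Nat.cast_nonneg n
  have hε : 0 < 1 / (4 * (n + 1) * M) := by positivity
  have HS : ∀ i : ℕ, ∃ R₀ : ℝ, 1 ≤ R₀ ∧ ∀ R₁ : ℝ, R₀ ≤ R₁ → ∃ R₃ : ℝ, 1 ≤ R₃ ∧ ∀ R₂ : ℝ, R₃ ≤ R₂ → ∃ N₀ : ℝ, 1 ≤ N₀ ∧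
      ∀ (N b T : ℝ) (v : ℝ → E3 → E3) (p : ℝ → E3 → ℝ) (t₀ : ℝ), N₀ ≤ N → Cm κ C Z N b (R₁ ^ 2) q g T v p t₀ →
      |∫ x, v t₀ x 2 * (Real.exp (-(((i:ℝ) + 1) * rsq x)) * ph (Z * N * R₂) (x 2))| ≤ 1 / (4 * (n + 1) * M) * N := fun i =>
    thmS hκ hC hZ hq hg (show (0:ℝ) < (i:ℝ) + 1 by positivity) hε
  choose R₀ hR₀ HS1 using HS
  obtain ⟨R₁, hR₁1, hR₁⟩ := Fin_max n R₀
  have HS2 : ∀ i : ℕ, ∃ R₃ : ℝ, i < n → 1 ≤ R₃ ∧ ∀ R₂ : ℝ, R₃ ≤ R₂ → ∃ N₀ : ℝ, 1 ≤ N₀ ∧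
      ∀ (N b T : ℝ) (v : ℝ → E3 → E3) (p : ℝ → E3 → ℝ) (t₀ : ℝ), N₀ ≤ N → Cm κ C Z N b (R₁ ^ 2) q g T v p t₀ →
      |∫ x, v t₀ x 2 * (Real.exp (-(((i:ℝ) + 1) * rsq x)) * ph (Z * N * R₂) (x 2))| ≤ 1 / (4 * (n + 1) * M) * N := by
    intro i
    by_cases hi : i < n
    · obtain ⟨R₃, hR₃⟩ := HS1 i R₁ (hR₁ i hi)
      exact ⟨R₃, fun _ => hR₃⟩
    · exact ⟨1, fun h => absurd h hi⟩
  choose R₃ HS3 using HS2
  obtain ⟨R₂, hR₂1, hR₂⟩ := Fin_max n R₃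
  have HS4 : ∀ i : ℕ, ∃ N₀ : ℝ, i < n →
      ∀ (N b T : ℝ) (v : ℝ → E3 → E3) (p : ℝ → E3 → ℝ) (t₀ : ℝ), N₀ ≤ N → Cm κ C Z N b (R₁ ^ 2) q g T v p t₀ →
      |∫ x, v t₀ x 2 * (Real.exp (-(((i:ℝ) + 1) * rsq x)) * ph (Z * N * R₂) (x 2))| ≤ 1 / (4 * (n + 1) * M) * N := by
    intro i
    by_cases hi : i < n
    · obtain ⟨N₀, -, hN₀⟩ := (HS3 i hi).2 R₂ (hR₂ i hi)
      exact ⟨N₀, fun _ => hN₀⟩
    · exact ⟨1, fun h => absurd h hi⟩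
  choose N₁ HS5 using HS4
  obtain ⟨N₂, hN₂1, hN₂⟩ := Fin_max n N₁
  obtain ⟨N₃, hN₃1, HL1⟩ := HL R₂ hR₂1
  obtain ⟨N, b, T', v, p', t₀', hN, hx, hext⟩ := H (R₁ ^ 2) (max N₂ N₃) (by positivity)
  have hm : t₀' ∈ Icc (t₀' - R₁ ^ 2) t₀' := ⟨by nlinarith [sq_nonneg R₁], le_rfl⟩
  have hS := hx.sl t₀' hm
  have hNN : 1 ≤ N := hN₃1.trans ((le_max_right _ _).trans hN)
  have h2 := HL1 N b (v t₀') ((le_max_right _ _).trans hN) hS (hx.mq t₀' hm) (hx.en t₀' hm R₂ (by linarith)) hext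
  have hl : 0 < Z * N * R₂ := by positivity
  have h3 := wG (l := Z * N * R₂) hδ hδ1 (show (0:ℝ) < 1/320 by norm_num) hl hS hcc
  have h4 : ∀ i < n, |∫ x, v t₀' x 2 * (Real.exp (-(((i:ℝ) + 1) * rsq x)) * ph (Z * N * R₂) (x 2))| ≤ 1 / (4 * (n + 1) * M) * N :=
    fun i hi => HS5 i hi N b T' v p' t₀' ((hN₂ i hi).trans ((le_max_left _ _).trans hN)) hx
  -- integrability of the pieces
  obtain ⟨K, hK0, hK, -, -⟩ := ba_vf hS.vf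
  have hv2c : Continuous (fun x => v t₀' x 2) := by
    have := hS.ax.smooth.continuous
    fun_prop
  have hv2 : ∀ x, |v t₀' x 2| ≤ K := fun x => (ba_gv (v := v t₀') x 0 0).2.2.2.2.2.1.trans (hK x).1
  have hI : ∀ i : ℕ, Integrable (fun x => v t₀' x 2 * (Real.exp (-(((i:ℝ) + 1) * rsq x)) * ph (Z * N * R₂) (x 2))) := by
    intro i
    have h5 := (G_t (lam := (i:ℝ) + 1) (s := 0) (l := Z * N * R₂) (by positivity) le_rfl hl).2.1.int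
    have h6 : (fun x : E3 => gs ((i:ℝ) + 1) 0 x * ph (Z * N * R₂) (x 2)) =
        fun x => Real.exp (-(((i:ℝ) + 1) * rsq x)) * ph (Z * N * R₂) (x 2) := by
      funext x
      simp [gs]
    rw [h6] at h5
    exact Fa_int hv2c hv2 h5
  have hJ : Integrable (fun x => v t₀' x 2 * (hc δ (rsq x) * ph (Z * N * R₂) (x 2))) := by
    have h5 := (G_t (lam := 1) (s := 0) (l := Z * N * R₂) (by norm_num) le_rfl hl).2.1.int
    have h6 : (fun x : E3 => gs 1 0 x * ph (Z * N * R₂) (x 2)) = fun x => Real.exp (-rsq x) * ph (Z * N * R₂) (x 2) := by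
      funext x
      simp [gs]
    rw [h6] at h5
    obtain ⟨f1, f2, f3, -, -⟩ := hc_f hδ hδ1
    obtain ⟨g1, -, -, g4⟩ := ph_f hl
    have hrs : Continuous (fun x : E3 => rsq x) := by
      unfold rsq
      fun_prop
    have hcont : Continuous (fun x : E3 => hc δ (rsq x) * ph (Z * N * R₂) (x 2)) :=
      (f1.continuous.comp hrs).mul (g1.continuous.comp (by fun_prop))
    have h7 : Integrable (fun x : E3 => hc δ (rsq x) * ph (Z * N * R₂) (x 2)) := by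
      refine (h5.const_mul (Real.exp 1)).mono' hcont.aestronglyMeasurable (Eventually.of_forall fun x => ?_)
      rw [Real.norm_eq_abs, abs_of_nonneg (mul_nonneg (f2 _).1 (g4 _).1), ← mul_assoc, ← Real.exp_add]
      refine mul_le_mul_of_nonneg_right ?_ (g4 _).1
      by_cases hx1 : 1 ≤ rsq x
      · rw [f3 _ hx1]
        exact (Real.exp_pos _).le
      · exact (f2 _).2.trans (Real.one_le_exp (by linarith [not_le.1 hx1]))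
    exact Fa_int hv2c hv2 h7
  have h7 : ∫ x, v t₀' x 2 * ((hc δ (rsq x) - ∑ i ∈ Finset.range n, c i * Real.exp (-(((i:ℝ) + 1) * rsq x))) * ph (Z * N * R₂) (x 2)) =
      (∫ x, v t₀' x 2 * (hc δ (rsq x) * ph (Z * N * R₂) (x 2))) -
        ∑ i ∈ Finset.range n, c i * ∫ x, v t₀' x 2 * (Real.exp (-(((i:ℝ) + 1) * rsq x)) * ph (Z * N * R₂) (x 2)) := by
    have e1 : ∀ x : E3, v t₀' x 2 * ((hc δ (rsq x) - ∑ i ∈ Finset.range n, c i * Real.exp (-(((i:ℝ) + 1) * rsq x))) * ph (Z * N * R₂) (x 2)) =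
        v t₀' x 2 * (hc δ (rsq x) * ph (Z * N * R₂) (x 2)) -
          ∑ i ∈ Finset.range n, c i * (v t₀' x 2 * (Real.exp (-(((i:ℝ) + 1) * rsq x)) * ph (Z * N * R₂) (x 2))) := by
      intro x
      rw [sub_mul, mul_sub, Finset.sum_mul, Finset.mul_sum]
      congr 1
      refine Finset.sum_congr rfl fun i _ => ?_
      ring
    simp only [e1]
    rw [integral_sub hJ (integrable_finsetSum _ fun i _ => (hI i).const_mul _), integral_finsetSum _ fun i _ => (hI i).const_mul _]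
    simp only [integral_const_mul]
  rw [h7] at h3
  have h8 : |∑ i ∈ Finset.range n, c i * ∫ x, v t₀' x 2 * (Real.exp (-(((i:ℝ) + 1) * rsq x)) * ph (Z * N * R₂) (x 2))| ≤ N / 4 := by
    refine (Finset.abs_sum_le_sum_abs _ _).trans ?_
    have h9 : ∀ i ∈ Finset.range n, |c i * ∫ x, v t₀' x 2 * (Real.exp (-(((i:ℝ) + 1) * rsq x)) * ph (Z * N * R₂) (x 2))| ≤
        M * (1 / (4 * (n + 1) * M) * N) := by
      intro i hi
      rw [abs_mul]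
      exact mul_le_mul (hM i (Finset.mem_range.1 hi)) (h4 i (Finset.mem_range.1 hi)) (abs_nonneg _) (by linarith)
    refine (Finset.sum_le_sum h9).trans ?_
    rw [Finset.sum_const, Finset.card_range, nsmul_eq_mul]
    have hM0 : 0 < M := by linarith
    have e2 : (n:ℝ) * (M * (1 / (4 * (n + 1) * M) * N)) = n / (n + 1) * (N / 4) := by
      field_simp
    rw [e2]
    have e3 : (n:ℝ) / (n + 1) ≤ 1 := by
      rw [div_le_one (by positivity)]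
      linarith
    have e4 : 0 ≤ N / 4 := by linarith
    nlinarith
  have h10 := abs_sub_abs_le_abs_sub (∫ x, v t₀' x 2 * (hc δ (rsq x) * ph (Z * N * R₂) (x 2)))
    (∑ i ∈ Finset.range n, c i * ∫ x, v t₀' x 2 * (Real.exp (-(((i:ℝ) + 1) * rsq x)) * ph (Z * N * R₂) (x 2)))
  nlinarith

theorem main {T q t₀ : ℝ} {u : ℝ → E3 → E3} {p : ℝ → E3 → ℝ} {g : ℝ → ℝ} (h : IsHInfAxisymNS T u p) (hq : 2 < q) (h0 : 0 ≤ t₀)
    (h1 : t₀ < T) (hg : Tendsto g atTop (𝓝 0)) (hr : ∀ t ∈ Ioo t₀ T, Mq q g (u t)) :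
    ∃ δ C r₁ : ℝ, 0 < δ ∧ 0 < r₁ ∧ ∀ t ∈ Ico 0 T, ∀ x, rad x ≤ r₁ → |circ (u t) x| ≤ C * rad x ^ δ :=
  thmF h (Fin_main h hq h0 h1 hg hr)

end Pool.Agent.H94.WL
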